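import Pool.Agent.MalF.GrB

/-!
# Vector cross products: all Gram determinants of size eight vanish
-/

set_option autoImplicit false
set_option linter.unusedSectionVars false

namespace Pool.Agent.MalF

open scoped TensorProduct

namespace Gr

variable {K V I : Type*} [CommRing K] [Algebra ℚ K] [AddCommGroup V] [Module K V]
  [Fintype I] [DecidableEq I]
  (mul : V →ₗ[K] V →ₗ[K] V) (frm : V →ₗ[K] V →ₗ[K] K)

/-- left multiplication in the algebra of octonion type -/
noncomputable def Lo (x : V) : K × V →ₗ[K] K × V :=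
  LinearMap.prod (-(frm x ∘ₗ LinearMap.snd K K V))
    ((LinearMap.fst K K V).smulRight x + mul x ∘ₗ LinearMap.snd K K V)

variable {mul frm}

theorem Lo_apply (x : V) (p : K × V) :
    Lo mul frm x p = (- frm x p.2, p.1 • x + mul x p.2) := rfl

/-- Clifford relation -/
theorem Lo_cliff (h : VCP mul frm) (x y : V) (p : K × V) :
    Lo mul frm x (Lo mul frm y p) + Lo mul frm y (Lo mul frm x p) = (-2 * frm x y) • p := by
  obtain ⟨c, v⟩ := p
  simp only [Lo_apply, Prod.mk_add_mk, Prod.smul_mk, map_add, map_smul, smul_eq_mul]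
  refine Prod.ext ?_ ?_
  · simp only
    rw [← h.inv, ← h.inv, h.skew y x, h.symm y x]
    simp only [map_neg, LinearMap.neg_apply]
    ring
  · simp only
    have h1 := h.law1 v x y
    have h2 : frm x v • y + frm y v • x - (2 : K) • (frm x y • v) =
        mul x (mul y v) + mul y (mul x v) := h1.symm
    rw [h.skew y x]
    have e1 : -(frm y v) • x + (c • mul x y + mul x (mul y v)) +
        (-(frm x v) • y + (c • - mul x y + mul y (mul x v))) =
        (mul x (mul y v) + mul y (mul x v)) - frm x v • y - frm y v • x := by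
      rw [smul_neg]
      module
    rw [e1, ← h2]
    module

/-- the operator `Θ` -/
noncomputable def Th (mul : V →ₗ[K] V →ₗ[K] V) (frm : V →ₗ[K] V →ₗ[K] K) (x : I → V) :
    GA K I ⊗[K] (K × V) →ₗ[K] GA K I ⊗[K] (K × V) := Op fun a => Lo mul frm (x a)

/-- the scalar `ξ_v` -/
noncomputable def xi (frm : V →ₗ[K] V →ₗ[K] K) (x : I → V) (v : V) : GA K I :=
  ExteriorAlgebra.ι K fun a => frm (x a) v

theorem xi_eq (x : I → V) (v : V) : xi frm x v = ∑ a, frm (x a) v • e K a := by
  unfold xi e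
  simp only [← map_smul]
  rw [← map_sum]
  congr 1
  funext b
  simp [Finset.sum_apply, Pi.single_apply]

theorem Th_tmul (x : I → V) (g : GA K I) (p : K × V) :
    Th mul frm x (g ⊗ₜ[K] p) = ∑ a, (e K a * g) ⊗ₜ[K] Lo mul frm (x a) p := Op_tmul _ _ _

theorem Th_S (x : I → V) {n : ℕ} (F : (Fin n → I) → K × V) :
    Th mul frm x (S F : GA K I ⊗[K] (K × V)) =
      S fun i : Fin (n + 1) → I => Lo mul frm (x (i 0)) (F fun j => i j.succ) := Op_S _ _

/-- the unit -/
noncomputable def one (K V I : Type*) [CommRing K] [AddCommGroup V] [Module K V] [Fintype I]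
    [DecidableEq I] : GA K I ⊗[K] (K × V) := 1 ⊗ₜ[K] ((1 : K), (0 : V))

theorem one_eq : one K V I = S fun _ : Fin 0 → I => ((1 : K), (0 : V)) := by
  unfold S one
  simp [wd_zero]

/-- odd elements anticommute with words of length three -/
theorem odd_wd (i : Fin 3 → I) (g : GA K I) (hg : ∀ a, e K a * g = - (g * e K a)) :
    wd K i * g = - (g * wd K i) := by
  rw [wd_cons, wd_cons, wd_cons, wd_zero]
  simp only [mul_one, mul_assoc]
  rw [hg, mul_neg, mul_neg, ← mul_assoc (e K _) g, hg, neg_mul, mul_neg, ← mul_assoc (e K _) (g * _),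
    ← mul_assoc (e K _) g, hg]
  simp [mul_assoc]

/-- the scalar `α` -/
noncomputable def al (mul : V →ₗ[K] V →ₗ[K] V) (frm : V →ₗ[K] V →ₗ[K] K) (x : I → V) : GA K I :=
  ∑ i : Fin 3 → I, frm (x (i 0)) (mul (x (i 1)) (x (i 2))) • wd K i

/-- the scalar `β` -/
noncomputable def be (mul : V →ₗ[K] V →ₗ[K] V) (frm : V →ₗ[K] V →ₗ[K] K) (x : I → V) : GA K I :=
  ∑ i : Fin 4 → I, frm (x (i 0)) (mul (x (i 1)) (mul (x (i 2)) (x (i 3)))) • wd K i

theorem e_wd (a : I) (i : Fin 3 → I) : e K a * wd K i = - (wd K i * e K a) := by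
  have h := odd_wd i (e K a) fun b => e_swap b a
  rw [h, neg_neg]

theorem e_al (x : I → V) (a : I) : e K a * al mul frm x = - (al mul frm x * e K a) := by
  unfold al
  rw [Finset.mul_sum, Finset.sum_mul, ← Finset.sum_neg_distrib]
  refine Finset.sum_congr rfl fun i _ => ?_
  rw [mul_smul_comm, e_wd, smul_mul_assoc, smul_neg]

theorem al_sq (x : I → V) : al mul frm x * al mul frm x = 0 := by
  apply eq_zero_of_eq_neg (K := K)
  nth_rewrite 1 [al]
  rw [Finset.sum_mul]
  nth_rewrite 3 [al]
  rw [Finset.mul_sum, ← Finset.sum_neg_distrib]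
  refine Finset.sum_congr rfl fun i _ => ?_
  rw [smul_mul_assoc, odd_wd i _ (e_al x), mul_smul_comm, smul_neg]

theorem lm_one_S {n : ℕ} (c : (Fin n → I) → K) :
    lm (∑ i, c i • wd K i) (one K V I) = S fun i : Fin n → I => (c i, (0 : V)) := by
  unfold one S
  rw [lm_tmul, mul_one, TensorProduct.sum_tmul]
  refine Finset.sum_congr rfl fun i _ => ?_
  rw [TensorProduct.smul_tmul, Prod.smul_mk, smul_zero, smul_eq_mul, mul_one]

/-- split into components -/
theorem S_pair {n : ℕ} (F : (Fin n → I) → K) (G : (Fin n → I) → V) :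
    (S fun i => (F i, G i) : GA K I ⊗[K] (K × V)) =
      mp (LinearMap.inl K K V) (S F) + mp (LinearMap.inr K K V) (S G) := by
  rw [mp_S, mp_S, ← S_add]
  congr 1
  funext i
  simp

theorem Th_lm_al (x : I → V) (t : GA K I ⊗[K] (K × V)) :
    Th mul frm x (lm (al mul frm x) t) = - lm (al mul frm x) (Th mul frm x t) :=
  Op_lm (e_al x) _ t

theorem Th_one (x : I → V) : Th mul frm x (one K V I) = S fun i : Fin 1 → I => ((0 : K), x (i 0)) := by
  rw [one_eq, Th_S]
  congr 1
  funext i
  rw [Lo_apply]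
  simp

theorem Th_two (h : VCP mul frm) (x : I → V) : Th mul frm x (Th mul frm x (one K V I)) =
    S fun i : Fin 2 → I => ((0 : K), mul (x (i 0)) (x (i 1))) := by
  rw [Th_one, Th_S]
  have e1 : (fun i : Fin 2 → I => Lo mul frm (x (i 0)) ((0 : K), x (i (Fin.succ 0)))) =
      fun i : Fin 2 → I => (- frm (x (i 0)) (x (i 1)), mul (x (i 0)) (x (i 1))) := by
    funext i
    rw [Lo_apply]
    simp
  have e2 : (S fun i : Fin 2 → I => - frm (x (i 0)) (x (i 1)) : GA K I ⊗[K] K) = 0 := by
    apply eq_zero_of_eq_neg (K := K)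
    refine S_odd (a := 0) (b := 1) (by decide) _ _ fun i => ?_
    have s0 : Equiv.swap (0 : Fin 2) 1 0 = 1 := by decide
    have s1 : Equiv.swap (0 : Fin 2) 1 1 = 0 := by decide
    simp only [s0, s1]
    rw [h.symm]
  have e3 : (S fun _ : Fin 2 → I => (0 : K) : GA K I ⊗[K] K) = 0 := by
    unfold S
    simp
  rw [e1, S_pair, S_pair, e2, e3]

/-- `Θ α` applied to the unit -/
theorem Th_al_one (x : I → V) : Th mul frm x (lm (al mul frm x) (one K V I)) =
    S fun i : Fin 4 → I => ((0 : K), frm (x (i 1)) (mul (x (i 2)) (x (i 3))) • x (i 0)) := by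
  unfold al
  rw [lm_one_S, Th_S]
  congr 1
  funext i
  rw [Lo_apply]
  simp only [map_zero, neg_zero, add_zero]
  rfl

theorem S_zero_pair {n : ℕ} (G : (Fin n → I) → V) :
    (S fun i => ((0 : K), G i) : GA K I ⊗[K] (K × V)) = mp (LinearMap.inr K K V) (S G) := by
  rw [mp_S]
  congr 1

theorem Th_four (h : VCP mul frm) (x : I → V) :
    Th mul frm x (Th mul frm x (Th mul frm x (Th mul frm x (one K V I)))) =
      - lm (be mul frm x) (one K V I) +
        (4 : K) • lm (al mul frm x) (Th mul frm x (one K V I)) := by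
  rw [Th_two h, Th_S, Th_S]
  have e1 : (fun i : Fin 4 → I => Lo mul frm (x (i 0)) (Lo mul frm (x (i (Fin.succ 0)))
      ((0 : K), mul (x (i (Fin.succ (Fin.succ 0)))) (x (i (Fin.succ (Fin.succ 1))))))) =
      fun i : Fin 4 → I => (- frm (x (i 0)) (mul (x (i 1)) (mul (x (i 2)) (x (i 3)))),
        mul (x (i 0)) (mul (x (i 1)) (mul (x (i 2)) (x (i 3)))) -
          frm (x (i 1)) (mul (x (i 2)) (x (i 3))) • x (i 0)) := by
    funext i
    rw [Lo_apply, Lo_apply]
    simp only [zero_smul, zero_add]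
    refine Prod.ext rfl ?_
    show - frm (x (i 1)) (mul (x (i 2)) (x (i 3))) • x (i 0) +
      mul (x (i 0)) (mul (x (i 1)) (mul (x (i 2)) (x (i 3)))) = _
    rw [neg_smul]
    module
  have e2 : (4 : K) • lm (al mul frm x) (Th mul frm x (one K V I)) =
      (-4 : K) • Th mul frm x (lm (al mul frm x) (one K V I)) := by
    rw [Th_lm_al]
    module
  have e3 : - lm (be mul frm x) (one K V I) = mp (LinearMap.inl K K V)
      (S fun i : Fin 4 → I => - frm (x (i 0)) (mul (x (i 1)) (mul (x (i 2)) (x (i 3))))) := by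
    unfold be
    rw [lm_one_S, mp_S, ← S_neg]
    congr 1
    funext i
    simp
  rw [e2, e3, Th_al_one, S_zero_pair]
  refine (congrArg S e1).trans ?_
  rw [S_pair, S_sub, id_four h x, ← map_smul]
  congr 2
  module

theorem Th_five (h : VCP mul frm) (x : I → V) :
    Th mul frm x (Th mul frm x (Th mul frm x (Th mul frm x (Th mul frm x (one K V I))))) =
      (-5 : K) • lm (al mul frm x) (Th mul frm x (Th mul frm x (one K V I))) := by
  rw [Th_four h, map_add, map_neg, map_smul, Th_lm_al]
  -- the last term in coordinates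
  have e1 : lm (al mul frm x) (Th mul frm x (Th mul frm x (one K V I))) =
      mp (LinearMap.inr K K V) (S fun i : Fin 5 → I =>
        frm (x (i 2)) (mul (x (i 3)) (x (i 4))) • mul (x (i 0)) (x (i 1))) := by
    have f1 : lm (al mul frm x) (Th mul frm x (Th mul frm x (one K V I))) =
        Th mul frm x (Th mul frm x (lm (al mul frm x) (one K V I))) := by
      rw [Th_lm_al, map_neg, Th_lm_al, neg_neg]
    rw [f1, Th_al_one, Th_S]
    have f2 : (fun i : Fin 5 → I => Lo mul frm (x (i 0)) ((0 : K),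
        frm (x (i (Fin.succ 1))) (mul (x (i (Fin.succ 2))) (x (i (Fin.succ 3)))) •
          x (i (Fin.succ 0)))) =
        fun i : Fin 5 → I => (- (frm (x (i 2)) (mul (x (i 3)) (x (i 4))) * frm (x (i 0)) (x (i 1))),
          frm (x (i 2)) (mul (x (i 3)) (x (i 4))) • mul (x (i 0)) (x (i 1))) := by
      funext i
      rw [Lo_apply]
      simp only [zero_smul, zero_add, map_smul, smul_eq_mul]
      rfl
    have f3 : (S fun i : Fin 5 → I =>
        - (frm (x (i 2)) (mul (x (i 3)) (x (i 4))) * frm (x (i 0)) (x (i 1))) :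
        GA K I ⊗[K] K) = 0 := by
      apply eq_zero_of_eq_neg (K := K)
      refine S_odd (a := 0) (b := 1) (by decide) _ _ fun i => ?_
      have s0 : Equiv.swap (0 : Fin 5) 1 0 = 1 := by decide
      have s1 : Equiv.swap (0 : Fin 5) 1 1 = 0 := by decide
      have s2 : Equiv.swap (0 : Fin 5) 1 2 = 2 := by decide
      have s3 : Equiv.swap (0 : Fin 5) 1 3 = 3 := by decide
      have s4 : Equiv.swap (0 : Fin 5) 1 4 = 4 := by decide
      simp only [s0, s1, s2, s3, s4]
      rw [h.symm (x (i 1)) (x (i 0))]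
    refine (congrArg S f2).trans ?_
    rw [S_pair, f3, map_zero, zero_add]
  have e2 : Th mul frm x (lm (be mul frm x) (one K V I)) =
      mp (LinearMap.inr K K V) (S fun i : Fin 5 → I =>
        frm (x (i 2)) (mul (x (i 3)) (x (i 4))) • mul (x (i 0)) (x (i 1))) := by
    rw [← id_five h x]
    unfold be
    rw [lm_one_S, Th_S, mp_S]
    congr 1
    funext i
    rw [Lo_apply]
    simp only [map_zero, neg_zero, add_zero]
    rw [h.inv]
    rfl
  rw [e1, e2]
  module

theorem Th_al_three (x : I → V) (t : GA K I ⊗[K] (K × V)) :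
    Th mul frm x (Th mul frm x (Th mul frm x (lm (al mul frm x) t))) =
      - lm (al mul frm x) (Th mul frm x (Th mul frm x (Th mul frm x t))) := by
  rw [Th_lm_al, map_neg, Th_lm_al, neg_neg, Th_lm_al]

theorem Th_eight (h : VCP mul frm) (x : I → V) : (Th mul frm x ^ 8) (one K V I) = 0 := by
  have h5 := Th_five h x
  have e1 : (Th mul frm x ^ 8) (one K V I) = Th mul frm x (Th mul frm x (Th mul frm x
      (Th mul frm x (Th mul frm x (Th mul frm x (Th mul frm x (Th mul frm x (one K V I)))))))) := by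
    simp only [pow_succ', pow_zero, Module.End.mul_apply, Module.End.one_apply]
  rw [e1, h5]
  simp only [map_smul]
  rw [Th_al_three, h5, map_smul, ← lm_mul, al_sq, lm_zero]
  simp

theorem Th_seven (h : VCP mul frm) (x : I → V) : (Th mul frm x ^ 7) (one K V I) =
    lm ((5 : K) • (al mul frm x * be mul frm x)) (one K V I) := by
  have h5 := Th_five h x
  have e1 : (Th mul frm x ^ 7) (one K V I) = Th mul frm x (Th mul frm x
      (Th mul frm x (Th mul frm x (Th mul frm x (Th mul frm x (Th mul frm x (one K V I))))))) := by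
    simp only [pow_succ', pow_zero, Module.End.mul_apply, Module.End.one_apply]
  have e2 : ∀ t : GA K I ⊗[K] (K × V), Th mul frm x (Th mul frm x (lm (al mul frm x) t)) =
      lm (al mul frm x) (Th mul frm x (Th mul frm x t)) := by
    intro t
    rw [Th_lm_al, map_neg, Th_lm_al, neg_neg]
  have e3 : lm ((5 : K) • (al mul frm x * be mul frm x)) (one K V I) =
      (5 : K) • lm (al mul frm x) (lm (be mul frm x) (one K V I)) := by
    rw [← lm_mul]
    unfold one
    rw [lm_tmul, lm_tmul, smul_mul_assoc, TensorProduct.smul_tmul']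
  rw [e1, h5]
  simp only [map_smul]
  rw [e2, Th_four h, e3, map_add, map_neg, map_smul, ← lm_mul (al mul frm x) (al mul frm x), al_sq,
    lm_zero]
  simp only [LinearMap.zero_apply, smul_zero, add_zero]
  module

/-- the scalar part -/
theorem xi_mul_seven (h : VCP mul frm) (x : I → V) (v : V) :
    xi frm x v * ((5 : K) • (al mul frm x * be mul frm x)) = 0 := by
  have h8 := Th_eight h x
  rw [pow_succ', Module.End.mul_apply, Th_seven h] at h8
  unfold one at h8
  rw [lm_tmul, mul_one, Th_tmul] at h8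
  have h9 := congrArg (fun t => TensorProduct.rid K (GA K I)
    (mp ((frm.flip v) ∘ₗ LinearMap.snd K K V) t)) h8
  simp only [map_sum, mp_tmul, map_zero, TensorProduct.rid_tmul] at h9
  rw [xi_eq, Finset.sum_mul, ← h9]
  refine Finset.sum_congr rfl fun a _ => ?_
  rw [Lo_apply]
  simp only [LinearMap.coe_comp, LinearMap.coe_snd, Function.comp_apply, LinearMap.flip_apply,
    map_zero, add_zero, one_smul]
  rw [smul_mul_assoc]

/-- Clifford relation for `Θ` -/
theorem Th_mp (h : VCP mul frm) (x : I → V) (v : V) (t : GA K I ⊗[K] (K × V)) :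
    Th mul frm x (mp (Lo mul frm v) t) =
      - mp (Lo mul frm v) (Th mul frm x t) - (2 : K) • lm (xi frm x v) t := by
  induction t with
  | zero => simp
  | add s t hs ht => simp only [map_add, hs, ht, smul_add]; module
  | tmul g p =>
    rw [mp_tmul, Th_tmul, Th_tmul, lm_tmul, map_sum, xi_eq, Finset.sum_mul, TensorProduct.sum_tmul,
      Finset.smul_sum, ← Finset.sum_neg_distrib, ← Finset.sum_sub_distrib]
    refine Finset.sum_congr rfl fun a _ => ?_
    rw [mp_tmul]
    have h1 := Lo_cliff h (x a) v p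
    have h2 : Lo mul frm (x a) (Lo mul frm v p) =
        - Lo mul frm v (Lo mul frm (x a) p) + (-2 * frm (x a) v) • p := by
      rw [← h1]; module
    rw [h2, TensorProduct.tmul_add, TensorProduct.tmul_neg, TensorProduct.tmul_smul, smul_mul_assoc,
      ← TensorProduct.smul_tmul']
    module

theorem e_xi (x : I → V) (v : V) (a : I) : e K a * xi frm x v = - (xi frm x v * e K a) := by
  unfold e xi
  exact eq_neg_of_add_eq_zero_left (ExteriorAlgebra.ι_add_mul_swap _ _)

theorem Th_lm_xi (x : I → V) (v : V) (t : GA K I ⊗[K] (K × V)) :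
    Th mul frm x (lm (xi frm x v) t) = - lm (xi frm x v) (Th mul frm x t) :=
  Op_lm (e_xi x v) _ t

/-- powers -/
theorem Th_pow (h : VCP mul frm) (x : I → V) (v : V) (n : ℕ) (t : GA K I ⊗[K] (K × V)) :
    (Th mul frm x ^ (n + 1)) (mp (Lo mul frm v) t) =
      ((-1 : K) ^ (n + 1)) • mp (Lo mul frm v) ((Th mul frm x ^ (n + 1)) t) +
        (2 * (n + 1) * (-1 : K) ^ (n + 1)) • lm (xi frm x v) ((Th mul frm x ^ n) t) := by
  induction n with
  | zero =>
    simp only [zero_add, pow_one, pow_zero, Module.End.one_apply, Nat.cast_zero]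
    rw [Th_mp h]
    module
  | succ n ih =>
    rw [pow_succ' (Th mul frm x) (n + 1), Module.End.mul_apply, ih, map_add, map_smul, map_smul,
      Th_mp h, Th_lm_xi, Module.End.mul_apply]
    have e1 : Th mul frm x ((Th mul frm x ^ n) t) = (Th mul frm x ^ (n + 1)) t := by
      rw [pow_succ', Module.End.mul_apply]
    rw [e1]
    push_cast
    rw [pow_succ (-1 : K) (n + 1)]
    module

theorem one_tmul_eq (p : K × V) :
    (1 : GA K I) ⊗ₜ[K] p = p.1 • one K V I + mp (Lo mul frm p.2) (one K V I) := by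
  unfold one
  rw [mp_tmul, ← TensorProduct.tmul_smul, ← TensorProduct.tmul_add]
  congr 1
  rw [Lo_apply]
  refine Prod.ext ?_ ?_ <;> simp

theorem Th_eight_all (h : VCP mul frm) (x : I → V) (p : K × V) :
    (Th mul frm x ^ 8) (1 ⊗ₜ[K] p) = 0 := by
  rw [one_tmul_eq (mul := mul) (frm := frm), map_add, map_smul, Th_eight h, smul_zero, zero_add, Th_pow h x p.2 7,
    Th_eight h, Th_seven h, ← lm_mul, xi_mul_seven h, lm_zero]
  simp

theorem step (h : VCP mul frm) (x : I → V) (n : ℕ) (g : GA K I)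
    (hg : ∀ p : K × V, lm g ((Th mul frm x ^ (n + 1)) (1 ⊗ₜ[K] p)) = 0) (v : V) (p : K × V) :
    lm (g * xi frm x v) ((Th mul frm x ^ n) (1 ⊗ₜ[K] p)) = 0 := by
  have h1 := hg (Lo mul frm v p)
  rw [← mp_tmul, Th_pow h, map_add, map_smul, map_smul, lm_mp, hg, map_zero, smul_zero, zero_add,
    ← lm_mul] at h1
  have h2 := congrArg (fun t => ((-1 : K) ^ (n + 1)) • t) h1
  simp only [smul_smul, smul_zero] at h2
  refine smul_cancel (K := K) (c := 2 * (n + 1)) (by positivity) ?_
  rw [smul_zero, ← h2]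
  congr 1
  have h3 : ((-1 : K) ^ (n + 1)) * ((-1 : K) ^ (n + 1)) = 1 := by
    rw [← mul_pow]; simp
  have h4 : algebraMap ℚ K (2 * (n + 1)) = 2 * ((n : K) + 1) := by
    rw [map_mul, map_add, map_one, map_natCast, map_ofNat]
  rw [h4]
  calc 2 * ((n : K) + 1) = 2 * ((n : K) + 1) * (((-1 : K) ^ (n + 1)) * ((-1 : K) ^ (n + 1))) := by
        rw [h3, mul_one]
    _ = _ := by ring

theorem det_eq_zero (n : ℕ) (w : Fin n → Fin n → K) (hw : ExteriorAlgebra.ιMulti K n w = 0) :
    (Matrix.of w).det = 0 := by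
  have h11 := congrArg (ExteriorAlgebra.liftAlternating (R := K) (M := Fin n → K) (N := K)
    (Function.update (β := fun m => (Fin n → K) [⋀^Fin m]→ₗ[K] K) 0 n
      Matrix.detRowAlternating)) hw
  rw [ExteriorAlgebra.liftAlternating_apply_ιMulti, Function.update_self, map_zero] at h11
  exact h11

end Gr

/-- **Gram determinants of size eight vanish** in every vector cross product algebra. -/
theorem VCP.gram8 {K V : Type*} [CommRing K] [Algebra ℚ K] [AddCommGroup V] [Module K V]
    {mul : V →ₗ[K] V →ₗ[K] V} {frm : V →ₗ[K] V →ₗ[K] K} (h : VCP mul frm) (x v : Fin 8 → V) :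
    (Matrix.of fun i j => frm (x i) (v j)).det = 0 := by
  classical
  have h8 : ∀ p : K × V, Gr.lm (1 : Gr.GA K (Fin 8))
      ((Gr.Th mul frm x ^ 8) (1 ⊗ₜ[K] p)) = 0 := by
    intro p
    rw [Gr.Th_eight_all h, map_zero]
  have h7 := Gr.step h x 7 _ h8 (v 0)
  have h6 := Gr.step h x 6 _ h7 (v 1)
  have h5 := Gr.step h x 5 _ h6 (v 2)
  have h4 := Gr.step h x 4 _ h5 (v 3)
  have h3 := Gr.step h x 3 _ h4 (v 4)
  have h2 := Gr.step h x 2 _ h3 (v 5)
  have h1 := Gr.step h x 1 _ h2 (v 6)
  have h0 := Gr.step h x 0 _ h1 (v 7) (1, 0)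
  rw [pow_zero, Module.End.one_apply, Gr.lm_tmul, mul_one] at h0
  have h9 := congrArg (fun t => TensorProduct.rid K (Gr.GA K (Fin 8))
    (Gr.mp (LinearMap.fst K K V) t)) h0
  simp only [Gr.mp_tmul, map_zero, TensorProduct.rid_tmul, LinearMap.fst_apply, one_smul,
    one_mul] at h9
  have h10 : ExteriorAlgebra.ιMulti K 8 (fun j a => frm (x a) (v j)) = 0 := by
    rw [← h9]
    unfold Gr.xi
    rw [ExteriorAlgebra.ιMulti_apply]
    simp only [List.ofFn_succ, List.ofFn_zero, List.prod_cons, List.prod_nil, mul_one, mul_assoc]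
    rfl
  rw [← Matrix.det_transpose]
  exact Gr.det_eq_zero 8 _ h10

end Pool.Agent.MalF
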