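import Pool.Agent.MalF.FD
import Pool.Agent.MalF.GrC

/-!
# Vanishing of the 8 x 8 Gram determinants (module GRA, section 5)
-/

set_option linter.unusedSectionVars false

namespace Pool.Agent.MalF

section descent

variable {K V P : Type*} [CommRing K] [AddCommGroup V] [Module K V] [AddCommGroup P] [Module K P]

/-- descent of a bilinear map to a quotient -/
private noncomputable def GRA_desc (R : Submodule K V) (B : V →ₗ[K] V →ₗ[K] P)
    (h1 : ∀ r ∈ R, ∀ v, B r v = 0) (h2 : ∀ r ∈ R, ∀ v, B v r = 0) :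
    (V ⧸ R) →ₗ[K] (V ⧸ R) →ₗ[K] P :=
  R.liftQ ((R.liftQ B.flip (fun r hr => by
    rw [LinearMap.mem_ker]
    ext v
    exact h2 r hr v)).flip) (fun r hr => by
    rw [LinearMap.mem_ker]
    refine Submodule.linearMap_qext R ?_
    ext v
    exact h1 r hr v)

private theorem GRA_desc_apply (R : Submodule K V) (B : V →ₗ[K] V →ₗ[K] P)
    (h1 : ∀ r ∈ R, ∀ v, B r v = 0) (h2 : ∀ r ∈ R, ∀ v, B v r = 0) (v w : V) :
    GRA_desc R B h1 h2 (R.mkQ v) (R.mkQ w) = B v w := rfl

/-- bilinear maps on the free module -/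
private noncomputable def GRA_bil {A : Type*} (K : Type*) [CommRing K] {P : Type*} [AddCommGroup P]
    [Module K P] (f : A → A → P) : (A →₀ K) →ₗ[K] (A →₀ K) →ₗ[K] P :=
  Finsupp.linearCombination K fun a => Finsupp.linearCombination K fun b => f a b

private theorem GRA_bil_single {A : Type*} (f : A → A → P) (a b : A) :
    GRA_bil K f (Finsupp.single a 1) (Finsupp.single b 1) = f a b := by
  unfold GRA_bil
  rw [Finsupp.linearCombination_single, one_smul, Finsupp.linearCombination_single, one_smul]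

private theorem GRA_ind {A : Type*} (p : (A →₀ K) → Prop) (h0 : p 0)
    (ha : ∀ v w, p v → p w → p (v + w)) (hm : ∀ (k : K) v, p v → p (k • v))
    (hs : ∀ a, p (Finsupp.single a 1)) (v : A →₀ K) : p v := by
  induction v using Finsupp.induction_linear with
  | zero => exact h0
  | add v w hv hw => exact ha v w hv hw
  | single a k =>
    have h1 := hm k _ (hs a)
    rwa [Finsupp.smul_single, smul_eq_mul, mul_one] at h1

end descent

section
variable {F A K C : Type*} [Field F] [CharZero F] [NonUnitalNonAssocRing A] [Module F A]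
    [IsScalarTower F A A] [SMulCommClass F A A] [IsMalcev A] [TF A] [CommRing K] [Algebra F K]
    [AddCommGroup C] [Module F C] [Module K C] [IsScalarTower F K C]

/-- product -/
private noncomputable def GRA_M (K A : Type*) [CommRing K] [NonUnitalNonAssocRing A] :
    (A →₀ K) →ₗ[K] (A →₀ K) →ₗ[K] (A →₀ K) := GRA_bil K fun a b => Finsupp.single (a * b) 1

/-- class of the product -/
private noncomputable def GRA_P (D : FD F A K C) : (A →₀ K) →ₗ[K] (A →₀ K) →ₗ[K] C :=
  GRA_bil K fun a b => D.c (a * b)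

/-- form -/
private noncomputable def GRA_F (D : FD F A K C) : (A →₀ K) →ₗ[K] (A →₀ K) →ₗ[K] K :=
  GRA_bil K fun a b => D.E a b

private theorem GRA_mem (a b : A) : a * b ∈ Bs F A := Submodule.subset_span ⟨a, b, rfl⟩

private theorem GRA_PM (D : FD F A K C) (v w : A →₀ K) (u : A) :
    GRA_P D (GRA_M K A v w) (Finsupp.single u 1) = D.R u (GRA_P D v w) := by
  refine GRA_ind (fun v => GRA_P D (GRA_M K A v w) (Finsupp.single u 1) = D.R u (GRA_P D v w))
    ?_ ?_ ?_ ?_ v
  · simp
  · intro v v' h h'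
    simp only [map_add, LinearMap.add_apply, h, h']
  · intro k v h
    simp only [map_smul, LinearMap.smul_apply, h]
  · intro a
    refine GRA_ind (fun w => GRA_P D (GRA_M K A (Finsupp.single a 1) w) (Finsupp.single u 1) =
      D.R u (GRA_P D (Finsupp.single a 1) w)) ?_ ?_ ?_ ?_ w
    · simp
    · intro v v' h h'
      simp only [map_add, LinearMap.add_apply, h, h']
    · intro k v h
      simp only [map_smul, LinearMap.smul_apply, h]
    · intro b
      unfold GRA_M GRA_P
      rw [GRA_bil_single, GRA_bil_single, GRA_bil_single, D.R_c u _ (GRA_mem a b)]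

private theorem GRA_FM (D : FD F A K C) (v w : A →₀ K) (u : A) :
    GRA_F D (GRA_M K A v w) (Finsupp.single u 1) = D.EC u (GRA_P D v w) := by
  refine GRA_ind (fun v => GRA_F D (GRA_M K A v w) (Finsupp.single u 1) = D.EC u (GRA_P D v w))
    ?_ ?_ ?_ ?_ v
  · simp
  · intro v v' h h'
    simp only [map_add, LinearMap.add_apply, h, h']
  · intro k v h
    simp only [map_smul, LinearMap.smul_apply, h]
  · intro a
    refine GRA_ind (fun w => GRA_F D (GRA_M K A (Finsupp.single a 1) w) (Finsupp.single u 1) =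
      D.EC u (GRA_P D (Finsupp.single a 1) w)) ?_ ?_ ?_ ?_ w
    · simp
    · intro v v' h h'
      simp only [map_add, LinearMap.add_apply, h, h']
    · intro k v h
      simp only [map_smul, LinearMap.smul_apply, h]
    · intro b
      unfold GRA_M GRA_P GRA_F
      rw [GRA_bil_single, GRA_bil_single, GRA_bil_single, D.EC_c u _ (GRA_mem a b)]

private theorem GRA_skew (D : FD F A K C) (v w : A →₀ K) : GRA_P D v w = - GRA_P D w v := by
  refine GRA_ind (fun v => GRA_P D v w = - GRA_P D w v) ?_ ?_ ?_ ?_ v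
  · simp
  · intro v v' h h'
    simp only [map_add, LinearMap.add_apply, h, h']
    abel
  · intro k v h
    simp only [map_smul, LinearMap.smul_apply, h, smul_neg]
  · intro a
    refine GRA_ind (fun w => GRA_P D (Finsupp.single a 1) w = - GRA_P D w (Finsupp.single a 1))
      ?_ ?_ ?_ ?_ w
    · simp
    · intro v v' h h'
      simp only [map_add, LinearMap.add_apply, h, h']
      abel
    · intro k v h
      simp only [map_smul, LinearMap.smul_apply, h, smul_neg]
    · intro b
      unfold GRA_P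
      rw [GRA_bil_single, GRA_bil_single, anti a b, map_neg]

private theorem GRA_symm (D : FD F A K C) (v w : A →₀ K) : GRA_F D v w = GRA_F D w v := by
  refine GRA_ind (fun v => GRA_F D v w = GRA_F D w v) ?_ ?_ ?_ ?_ v
  · simp
  · intro v v' h h'
    simp only [map_add, LinearMap.add_apply, h, h']
  · intro k v h
    simp only [map_smul, LinearMap.smul_apply, h]
  · intro a
    refine GRA_ind (fun w => GRA_F D (Finsupp.single a 1) w = GRA_F D w (Finsupp.single a 1))
      ?_ ?_ ?_ ?_ w
    · simp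
    · intro v v' h h'
      simp only [map_add, LinearMap.add_apply, h, h']
    · intro k v h
      simp only [map_smul, LinearMap.smul_apply, h]
    · intro b
      unfold GRA_F
      rw [GRA_bil_single, GRA_bil_single, D.E_symm]

private theorem GRA_inv (D : FD F A K C) (v w u : A →₀ K) :
    GRA_F D (GRA_M K A v w) u = GRA_F D v (GRA_M K A w u) := by
  refine GRA_ind (fun v => GRA_F D (GRA_M K A v w) u = GRA_F D v (GRA_M K A w u)) ?_ ?_ ?_ ?_ v
  · simp
  · intro v v' h h'
    simp only [map_add, LinearMap.add_apply, h, h']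
  · intro k v h
    simp only [map_smul, LinearMap.smul_apply, h]
  · intro a
    refine GRA_ind (fun w => GRA_F D (GRA_M K A (Finsupp.single a 1) w) u =
      GRA_F D (Finsupp.single a 1) (GRA_M K A w u)) ?_ ?_ ?_ ?_ w
    · simp
    · intro v v' h h'
      simp only [map_add, LinearMap.add_apply, h, h']
    · intro k v h
      simp only [map_smul, LinearMap.smul_apply, h]
    · intro b
      refine GRA_ind (fun u => GRA_F D (GRA_M K A (Finsupp.single a 1) (Finsupp.single b 1)) u =
        GRA_F D (Finsupp.single a 1) (GRA_M K A (Finsupp.single b 1) u)) ?_ ?_ ?_ ?_ u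
      · simp
      · intro v v' h h'
        simp only [map_add, h, h']
      · intro k v h
        simp only [map_smul, h]
      · intro d
        unfold GRA_F GRA_M
        rw [GRA_bil_single, GRA_bil_single, GRA_bil_single, GRA_bil_single, D.E_inv]

/-- the radical -/
private noncomputable def GRA_Rad (D : FD F A K C) : Submodule K (A →₀ K) :=
  LinearMap.ker (GRA_P D) ⊓ LinearMap.ker (GRA_F D)

private theorem GRA_memRad (D : FD F A K C) (v : A →₀ K)
    (h1 : ∀ u : A, GRA_P D v (Finsupp.single u 1) = 0)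
    (h2 : ∀ u : A, GRA_F D v (Finsupp.single u 1) = 0) : v ∈ GRA_Rad D := by
  refine ⟨?_, ?_⟩
  · rw [SetLike.mem_coe, LinearMap.mem_ker]
    ext u
    exact h1 u
  · rw [SetLike.mem_coe, LinearMap.mem_ker]
    ext u
    exact h2 u

private theorem GRA_mul_mem (D : FD F A K C) (v w : A →₀ K) (h : GRA_P D v w = 0) :
    GRA_M K A v w ∈ GRA_Rad D := by
  refine GRA_memRad D _ (fun u => ?_) fun u => ?_
  · rw [GRA_PM, h, map_zero]
  · rw [GRA_FM, h, map_zero]

private theorem GRA_rad_left (D : FD F A K C) {r : A →₀ K} (hr : r ∈ GRA_Rad D) (v : A →₀ K) :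
    GRA_P D r v = 0 := by
  have h1 := hr.1
  rw [SetLike.mem_coe, LinearMap.mem_ker] at h1
  rw [h1]
  rfl

private theorem GRA_rad_leftF (D : FD F A K C) {r : A →₀ K} (hr : r ∈ GRA_Rad D) (v : A →₀ K) :
    GRA_F D r v = 0 := by
  have h1 := hr.2
  rw [SetLike.mem_coe, LinearMap.mem_ker] at h1
  rw [h1]
  rfl

/-- the identity for `t` -/
private theorem GRA_t (x y z : A) :
    t x y z + t x z y = (3 : ℤ) • ((x * y) * z + (x * z) * y) := by
  unfold t
  rw [anti y x, anti z x, anti z y]
  simp only [neg_mul]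
  abel

private theorem GRA_law_c (D : FD F A K C) (a b g u : A) :
    (6 : ℤ) • (D.c (((a * b) * g) * u) + D.c (((a * g) * b) * u)) =
      D.E a b • D.c (g * u) + D.E a g • D.c (b * u) - (2 : K) • (D.E b g • D.c (a * u)) := by
  have k1 := D.K5 a b g u
  have k2 := D.K5 a g b u
  have k3 : (2 : ℤ) • D.c (t a b g * u) + (2 : ℤ) • D.c (t a g b * u) =
      (6 : ℤ) • (D.c (((a * b) * g) * u) + D.c (((a * g) * b) * u)) := by
    rw [← smul_add, ← map_add, ← add_mul, GRA_t, smul_mul_assoc, map_zsmul, smul_smul, add_mul,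
      map_add]
    norm_num
  rw [← k3, k1, k2, D.E_symm g b, two_smul]
  abel

private theorem GRA_law_E (D : FD F A K C) (a b g u : A) :
    (6 : K) * (D.E ((a * b) * g) u + D.E ((a * g) * b) u) =
      D.E a b * D.E g u + D.E a g * D.E b u - 2 * (D.E b g * D.E a u) := by
  have k1 := D.E_t a b g u
  have k2 := D.E_t a g b u
  have k3 : (2 : K) * D.E (t a b g) u + (2 : K) * D.E (t a g b) u =
      (6 : K) * (D.E ((a * b) * g) u + D.E ((a * g) * b) u) := by
    rw [← mul_add, ← LinearMap.add_apply, ← map_add, GRA_t, map_zsmul, map_add]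
    simp only [LinearMap.smul_apply, LinearMap.add_apply, zsmul_eq_mul]
    push_cast
    ring
  rw [← k3, k1, k2, D.E_symm g b]
  ring

/-- the coefficient `1/6` -/
private noncomputable def GRA_k (F K : Type*) [Field F] [CommRing K] [Algebra F K] : K :=
  algebraMap F K (1 / 6)

private theorem GRA_k6 : (6 : K) * GRA_k F K = 1 := by
  unfold GRA_k
  rw [show (6 : K) = algebraMap F K 6 from (map_ofNat _ 6).symm, ← map_mul]
  norm_num

/-- division by `6` -/
private theorem GRA_div6 {P : Type*} [AddCommGroup P] [Module K P] {x y : P}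
    (h : (6 : K) • x = y) : x = GRA_k F K • y := by
  rw [← h, smul_smul, mul_comm, GRA_k6 (F := F), one_smul]

/-- the polarised law -/
private noncomputable def GRA_T (D : FD F A K C) (x y z : A →₀ K) : A →₀ K :=
  GRA_M K A (GRA_M K A x y) z + GRA_M K A (GRA_M K A x z) y -
    GRA_k F K • (GRA_F D x y • z + GRA_F D x z • y - (2 : K) • (GRA_F D y z • x))

private theorem GRA_T_mem_single (D : FD F A K C) (a b g : A) :
    GRA_T D (Finsupp.single a 1) (Finsupp.single b 1) (Finsupp.single g 1) ∈ GRA_Rad D := by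
  refine GRA_memRad D _ (fun u => ?_) fun u => ?_
  · unfold GRA_T
    simp only [map_sub, map_add, map_smul, LinearMap.sub_apply, LinearMap.add_apply,
      LinearMap.smul_apply]
    unfold GRA_M GRA_P GRA_F
    simp only [GRA_bil_single]
    rw [sub_eq_zero]
    refine GRA_div6 (F := F) ?_
    have h1 := GRA_law_c D a b g u
    rw [← h1, ← Int.cast_smul_eq_zsmul K]
    norm_num
  · unfold GRA_T
    simp only [map_sub, map_add, map_smul, LinearMap.sub_apply, LinearMap.add_apply,
      LinearMap.smul_apply]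
    unfold GRA_M GRA_F
    simp only [GRA_bil_single, smul_eq_mul]
    rw [sub_eq_zero, ← smul_eq_mul (GRA_k F K)]
    refine GRA_div6 (F := F) ?_
    have h1 := GRA_law_E D a b g u
    rw [← h1, smul_eq_mul]

private theorem GRA_T_mem (D : FD F A K C) (x y z : A →₀ K) : GRA_T D x y z ∈ GRA_Rad D := by
  refine GRA_ind (fun x => GRA_T D x y z ∈ GRA_Rad D) ?_ ?_ ?_ ?_ x
  · have : GRA_T D 0 y z = 0 := by simp [GRA_T]
    rw [this]
    exact Submodule.zero_mem _
  · intro v w hv hw
    have : GRA_T D (v + w) y z = GRA_T D v y z + GRA_T D w y z := by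
      unfold GRA_T
      simp only [map_add, LinearMap.add_apply]
      module
    rw [this]
    exact Submodule.add_mem _ hv hw
  · intro k v hv
    have : GRA_T D (k • v) y z = k • GRA_T D v y z := by
      unfold GRA_T
      simp only [map_smul, LinearMap.smul_apply, smul_eq_mul]
      module
    rw [this]
    exact Submodule.smul_mem _ _ hv
  intro a
  refine GRA_ind (fun y => GRA_T D (Finsupp.single a 1) y z ∈ GRA_Rad D) ?_ ?_ ?_ ?_ y
  · have : GRA_T D (Finsupp.single a 1) 0 z = 0 := by simp [GRA_T]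
    rw [this]
    exact Submodule.zero_mem _
  · intro v w hv hw
    have : GRA_T D (Finsupp.single a 1) (v + w) z =
        GRA_T D (Finsupp.single a 1) v z + GRA_T D (Finsupp.single a 1) w z := by
      unfold GRA_T
      simp only [map_add, LinearMap.add_apply]
      module
    rw [this]
    exact Submodule.add_mem _ hv hw
  · intro k v hv
    have : GRA_T D (Finsupp.single a 1) (k • v) z = k • GRA_T D (Finsupp.single a 1) v z := by
      unfold GRA_T
      simp only [map_smul, LinearMap.smul_apply, smul_eq_mul]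
      module
    rw [this]
    exact Submodule.smul_mem _ _ hv
  intro b
  refine GRA_ind (fun z => GRA_T D (Finsupp.single a 1) (Finsupp.single b 1) z ∈ GRA_Rad D)
    ?_ ?_ ?_ ?_ z
  · have : GRA_T D (Finsupp.single a 1) (Finsupp.single b 1) 0 = 0 := by simp [GRA_T]
    rw [this]
    exact Submodule.zero_mem _
  · intro v w hv hw
    have : GRA_T D (Finsupp.single a 1) (Finsupp.single b 1) (v + w) =
        GRA_T D (Finsupp.single a 1) (Finsupp.single b 1) v +
          GRA_T D (Finsupp.single a 1) (Finsupp.single b 1) w := by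
      unfold GRA_T
      simp only [map_add, LinearMap.add_apply]
      module
    rw [this]
    exact Submodule.add_mem _ hv hw
  · intro k v hv
    have : GRA_T D (Finsupp.single a 1) (Finsupp.single b 1) (k • v) =
        k • GRA_T D (Finsupp.single a 1) (Finsupp.single b 1) v := by
      unfold GRA_T
      simp only [map_smul, LinearMap.smul_apply, smul_eq_mul]
      module
    rw [this]
    exact Submodule.smul_mem _ _ hv
  exact fun g => GRA_T_mem_single D a b g

/-- product on the quotient -/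
private noncomputable def GRA_mul (D : FD F A K C) :
    ((A →₀ K) ⧸ GRA_Rad D) →ₗ[K] ((A →₀ K) ⧸ GRA_Rad D) →ₗ[K] ((A →₀ K) ⧸ GRA_Rad D) :=
  GRA_desc (GRA_Rad D) ((GRA_M K A).compr₂ (GRA_Rad D).mkQ)
    (fun r hr v => by
      rw [LinearMap.compr₂_apply, Submodule.mkQ_apply, Submodule.Quotient.mk_eq_zero]
      exact GRA_mul_mem D r v (GRA_rad_left D hr v))
    (fun r hr v => by
      rw [LinearMap.compr₂_apply, Submodule.mkQ_apply, Submodule.Quotient.mk_eq_zero]
      exact GRA_mul_mem D v r (by rw [GRA_skew, GRA_rad_left D hr v, neg_zero]))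

/-- form on the quotient -/
private noncomputable def GRA_frm (D : FD F A K C) :
    ((A →₀ K) ⧸ GRA_Rad D) →ₗ[K] ((A →₀ K) ⧸ GRA_Rad D) →ₗ[K] K :=
  GRA_k F K • GRA_desc (GRA_Rad D) (GRA_F D)
    (fun _ hr v => GRA_rad_leftF D hr v)
    (fun _ hr v => by rw [GRA_symm, GRA_rad_leftF D hr v])

private theorem GRA_mul_mk (D : FD F A K C) (v w : A →₀ K) :
    GRA_mul D ((GRA_Rad D).mkQ v) ((GRA_Rad D).mkQ w) = (GRA_Rad D).mkQ (GRA_M K A v w) := rfl

private theorem GRA_frm_mk (D : FD F A K C) (v w : A →₀ K) :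
    GRA_frm D ((GRA_Rad D).mkQ v) ((GRA_Rad D).mkQ w) = GRA_k F K * GRA_F D v w := rfl

private theorem GRA_two (F : Type*) [Field F] [CharZero F] {K P : Type*} [CommRing K]
    [Algebra F K] [AddCommGroup P] [Module K P] {x : P} {R : Submodule K P}
    (h : (2 : K) • x ∈ R) : x ∈ R := by
  have h1 := R.smul_mem (algebraMap F K (1 / 2)) h
  rw [smul_smul, show (2 : K) = algebraMap F K 2 from (map_ofNat _ 2).symm, ← map_mul] at h1
  norm_num at h1
  exact h1

private theorem GRA_vcp (D : FD F A K C) : VCP (GRA_mul D) (GRA_frm D) where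
  alt := by
    intro x
    obtain ⟨v, rfl⟩ := (GRA_Rad D).mkQ_surjective x
    rw [GRA_mul_mk, Submodule.mkQ_apply, Submodule.Quotient.mk_eq_zero]
    refine GRA_mul_mem D v v ?_
    have h1 := GRA_skew D v v
    have h2 : (2 : K) • GRA_P D v v ∈ (⊥ : Submodule K C) := by
      rw [Submodule.mem_bot, two_smul]
      nth_rewrite 1 [h1]
      exact neg_add_cancel _
    have h3 := GRA_two F h2
    rwa [Submodule.mem_bot] at h3
  symm := by
    intro x y
    obtain ⟨v, rfl⟩ := (GRA_Rad D).mkQ_surjective x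
    obtain ⟨w, rfl⟩ := (GRA_Rad D).mkQ_surjective y
    rw [GRA_frm_mk, GRA_frm_mk, GRA_symm]
  inv := by
    intro x y z
    obtain ⟨v, rfl⟩ := (GRA_Rad D).mkQ_surjective x
    obtain ⟨w, rfl⟩ := (GRA_Rad D).mkQ_surjective y
    obtain ⟨u, rfl⟩ := (GRA_Rad D).mkQ_surjective z
    rw [GRA_mul_mk, GRA_mul_mk, GRA_frm_mk, GRA_frm_mk, GRA_inv]
  law := by
    intro x y
    obtain ⟨v, rfl⟩ := (GRA_Rad D).mkQ_surjective x
    obtain ⟨w, rfl⟩ := (GRA_Rad D).mkQ_surjective y
    rw [GRA_mul_mk, GRA_mul_mk, GRA_frm_mk, GRA_frm_mk, ← map_smul, ← map_smul, ← map_sub,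
      ← sub_eq_zero, ← map_sub, Submodule.mkQ_apply, Submodule.Quotient.mk_eq_zero]
    refine GRA_two F ?_
    have h1 := GRA_T_mem D v w w
    have h2 : (2 : K) • (GRA_M K A (GRA_M K A v w) w -
        ((GRA_k F K * GRA_F D v w) • w - (GRA_k F K * GRA_F D w w) • v)) = GRA_T D v w w := by
      unfold GRA_T
      module
    rw [h2]
    exact h1

/-- GRAM8.  Proof: `VCP.gram8` (files GrA, GrB, GrC of helper74) for `V = (K ⊗[F] A) ⧸ Rad`:
`π : K ⊗ A → C`, `k ⊗ a ↦ k • c a`; `[k ⊗ x, k' ⊗ y] = k k' E(x,y) / 6`;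
`Rad = {v | ∀ w, π (v * w) = 0 ∧ [v, w] = 0}` (a `K`-submodule).
(i) if `p` is a `K`-combination of `1 ⊗ b`, `b ∈ A²`, and `π p = 0`, then `p ∈ Rad`: for
`w = 1 ⊗ u`: `π (p * w) = R u (π p)` (`R_c`), `[p, w] = EC u (π p) / 6` (`EC_c`).
(ii) So the product `v * w` is well defined modulo `Rad`, `v * v = 0`.
(iii) `[v * w, u] = [v, w * u]`: `E_inv`.
(iv) the law `(v w) w = [v,w] w - [w,w] v` modulo `Rad`: polarised it says, for
`x y z u : A`, `2 c(t(x,y,z) u) = E(x,z) c(y u) - E(y,z) c(x u)` (`FD.K5`) and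
`2 E(t(x,y,z),u) = E(x,z) E(y,u) - E(y,z) E(x,u)` (`E_t`); note
`t(x,y,z) + t(x,z,y) = 3 ((xy)z + (xz)y)` and use bilinearity in `K ⊗ A`. -/
theorem FD.gram (D : FD F A K C) (x v : Fin 8 → A) :
    (Matrix.of fun i j => D.E (x i) (v j)).det = 0 := by
  let _ : Algebra ℚ K := ((algebraMap F K).comp (algebraMap ℚ F)).toAlgebra
  have h1 := (GRA_vcp D).gram8 (fun i => (GRA_Rad D).mkQ (Finsupp.single (x i) 1))
    (fun j => (GRA_Rad D).mkQ (Finsupp.single (v j) 1))
  have h2 : (Matrix.of fun i j => D.E (x i) (v j)) = (6 : K) • (Matrix.of fun i j =>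
      GRA_frm D ((GRA_Rad D).mkQ (Finsupp.single (x i) 1))
        ((GRA_Rad D).mkQ (Finsupp.single (v j) 1))) := by
    ext i j
    rw [Matrix.smul_apply, Matrix.of_apply, Matrix.of_apply, GRA_frm_mk, smul_eq_mul, ← mul_assoc,
      GRA_k6, one_mul]
    unfold GRA_F
    rw [GRA_bil_single]
  rw [h2, Matrix.det_smul, h1, mul_zero]

end

end Pool.Agent.MalF
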