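import Pool.Agent.MalF.Expand
import Pool.Agent.MalF.Gram

/-!
# Alternation over 69 letters kills `J(p,q,r)` (module ALT, section 6)
-/

set_option linter.unusedSectionVars false

namespace Pool.Agent.MalF

section
variable {F A K C : Type*} [Field F] [CharZero F] [NonUnitalNonAssocRing A] [Module F A]
    [IsScalarTower F A A] [SMulCommClass F A A] [IsMalcev A] [TF A] [CommRing K] [Algebra F K]
    [AddCommGroup C] [Module F C] [Module K C] [IsScalarTower F K C]

private theorem ALT_evm_mul {α : Type*} (x : α → A) (s t : FreeMagma α) :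
    evm x (s * t) = evm x s * evm x t := map_mul _ _ _

private theorem ALT_evm_of {α : Type*} (x : α → A) (a : α) : evm x (FreeMagma.of a) = x a :=
  FreeMagma.lift_of _ _

private theorem ALT_move (D : FD F A K C) {M : ℕ} (i : Fin M) (s : FreeMagma (Fin M)) :
    ∀ t : FreeMagma (Fin M), i ∈ lv s → ∃ (ε : ℤ) (v : FreeMagma (Fin M)),
      ((i :: lv v).Perm (lv s ++ lv t)) ∧
      ∀ x : Fin M → A, D.E (evm x s) (evm x t) = ε • D.E (x i) (evm x v) := by
  induction s with
  | ih1 a =>
    intro t hi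
    have hi' : i = a := by simpa [lv] using hi
    refine ⟨1, t, ?_, fun x => ?_⟩
    · rw [hi']
      exact List.Perm.refl _
    · rw [one_smul, hi']
      rfl
  | ih2 s1 s2 h1 h2 =>
    intro t hi
    rw [show lv (s1 * s2) = lv s1 ++ lv s2 from rfl, List.mem_append] at hi
    rcases hi with hi | hi
    · obtain ⟨ε, v, hv, hx⟩ := h1 (s2 * t) hi
      refine ⟨ε, v, ?_, fun x => ?_⟩
      · refine hv.trans ?_
        show (lv s1 ++ (lv s2 ++ lv t)).Perm ((lv s1 ++ lv s2) ++ lv t)
        rw [List.append_assoc]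
      · rw [← hx, ALT_evm_mul, ALT_evm_mul, D.E_inv]
    · obtain ⟨ε, v, hv, hx⟩ := h2 (s1 * t) hi
      refine ⟨-ε, v, ?_, fun x => ?_⟩
      · refine hv.trans ?_
        show (lv s2 ++ (lv s1 ++ lv t)).Perm ((lv s1 ++ lv s2) ++ lv t)
        rw [← List.append_assoc]
        exact (List.perm_append_comm).append_right _
      · rw [neg_smul, ← hx, ALT_evm_mul, ALT_evm_mul, ← D.E_inv, anti (evm x s1) (evm x s2), map_neg,
          LinearMap.neg_apply]

/-- A scalar `E(s,t)` of trees containing the letter `i` is `± E(x i, v)` with a tree `v` in the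
other letters, or `E` of ... (`E_inv`, `E_symm` and anticommutativity; the tree `v` may be
missing only if ... there is always at least one other leaf, that of the other argument).
Proof: induction on the number of leaves of the argument which contains `i`: if it is a leaf, done
(`E_symm` if necessary); `E(s1 s2, t) = E(s1, s2 t)` if `i` is in `s1`, `= - E(s2 s1, t)
= - E(s2, s1 t)` if `i` is in `s2`. -/
theorem FD.move (D : FD F A K C) {M : ℕ} (s t : FreeMagma (Fin M)) (i : Fin M)
    (hi : i ∈ lv s ++ lv t) : ∃ (ε : ℤ) (v : FreeMagma (Fin M)),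
      ((i :: lv v).Perm (lv s ++ lv t)) ∧
      ∀ x : Fin M → A, D.E (evm x s) (evm x t) = ε • D.E (x i) (evm x v) := by
  rw [List.mem_append] at hi
  rcases hi with hi | hi
  · exact ALT_move D i s t hi
  · obtain ⟨ε, v, hv, hx⟩ := ALT_move D i t s hi
    refine ⟨ε, v, hv.trans List.perm_append_comm, fun x => ?_⟩
    rw [← hx, D.E_symm]

/-- leaves of a list of pairs -/
private def ALT_lp {M : ℕ} (S : List (FreeMagma (Fin M) × FreeMagma (Fin M))) : List (Fin M) :=
  S.flatMap fun s => lv s.1 ++ lv s.2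

private theorem ALT_lp_append {M : ℕ} (S S' : List (FreeMagma (Fin M) × FreeMagma (Fin M))) :
    ALT_lp (S ++ S') = ALT_lp S ++ ALT_lp S' := by
  unfold ALT_lp
  rw [List.flatMap_append]

private theorem ALT_lp_perm {M : ℕ} {S S' : List (FreeMagma (Fin M) × FreeMagma (Fin M))}
    (h : S.Perm S') : (ALT_lp S).Perm (ALT_lp S') := h.flatMap_right _

private theorem ALT_lp_length {M : ℕ} (S : List (FreeMagma (Fin M) × FreeMagma (Fin M)))
    (h : ∀ s ∈ S, s.1.length ≤ 4 ∧ s.2.length ≤ 4) : (ALT_lp S).length ≤ 8 * S.length := by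
  induction S with
  | nil => simp [ALT_lp]
  | cons s S ih =>
    have h1 := ih fun q hq => h q (List.mem_cons_of_mem s hq)
    have h2 := h s List.mem_cons_self
    have e1 : ALT_lp (s :: S) = (lv s.1 ++ lv s.2) ++ ALT_lp S := rfl
    rw [e1, List.length_append, List.length_append, lv_length, lv_length, List.length_cons]
    omega

private theorem ALT_ofFn {α : Type*} (l : List α) : ∀ {n : ℕ} (h : n = l.length),
    (List.ofFn fun j : Fin n => l.get (Fin.cast h j)) = l := by
  rintro n rfl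
  exact List.ofFn_get l

/-- eight scalars with letters of `T` -/
private theorem ALT_choose {M : ℕ} (T : Finset (Fin M)) (hT : T.card = 69)
    (S : List (FreeMagma (Fin M) × FreeMagma (Fin M)))
    (hS : ∀ s ∈ S, s.1.length ≤ 4 ∧ s.2.length ≤ 4) (V : List (Fin M)) (hV : V.length ≤ 12)
    (hl : ∀ i, i ∈ ALT_lp S ++ V) :
    ∃ (s : Fin 8 → FreeMagma (Fin M) × FreeMagma (Fin M))
      (R : List (FreeMagma (Fin M) × FreeMagma (Fin M))),
      S.Perm (List.ofFn s ++ R) ∧ ∀ j, ∃ i ∈ T, i ∈ lv (s j).1 ++ lv (s j).2 := by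
  classical
  obtain ⟨S', hS'⟩ : ∃ S', S' = S.filter fun s => decide (∃ i ∈ T, i ∈ lv s.1 ++ lv s.2) :=
    ⟨_, rfl⟩
  have h1 : T ⊆ (ALT_lp S' ++ V).toFinset := by
    intro i hi
    rw [List.mem_toFinset, List.mem_append]
    have h2 := hl i
    rw [List.mem_append] at h2
    rcases h2 with h2 | h2
    · left
      unfold ALT_lp at h2 ⊢
      rw [List.mem_flatMap] at h2 ⊢
      obtain ⟨s, hs, hsi⟩ := h2
      refine ⟨s, ?_, hsi⟩
      rw [hS', List.mem_filter]
      exact ⟨hs, by simpa using ⟨i, hi, by simpa using hsi⟩⟩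
    · exact Or.inr h2
  have h2 := Finset.card_le_card h1
  have h3 := List.toFinset_card_le (ALT_lp S' ++ V)
  have h4 : (ALT_lp S').length ≤ 8 * S'.length := by
    refine ALT_lp_length S' fun s hs => hS s ?_
    rw [hS'] at hs
    exact List.mem_of_mem_filter hs
  rw [List.length_append] at h3
  have h5 : 8 ≤ S'.length := by omega
  have h6 : (S'.take 8).length = 8 := by
    rw [List.length_take]
    omega
  refine ⟨fun j => (S'.take 8).get (Fin.cast h6.symm j), S'.drop 8 ++
    S.filter (fun s => ! decide (∃ i ∈ T, i ∈ lv s.1 ++ lv s.2)), ?_, fun j => ?_⟩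
  · rw [ALT_ofFn _ h6.symm, ← List.append_assoc, List.take_append_drop, hS']
    exact (List.filter_append_perm _ _).symm
  · have h7 : (S'.take 8).get (Fin.cast h6.symm j) ∈ S' :=
      List.mem_of_mem_take (List.get_mem _ _)
    have h8 : ∀ s ∈ S', ∃ i ∈ T, i ∈ lv s.1 ++ lv s.2 := by
      intro s hs
      rw [hS', List.mem_filter] at hs
      simpa using hs.2
    exact h8 _ h7

/-- evaluation does not see a permutation of the other letters -/
private theorem ALT_evm_perm {M : ℕ} (y : Fin M → A) (τ : Equiv.Perm (Fin M))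
    (t : FreeMagma (Fin M)) (h : ∀ i ∈ lv t, τ i = i) : evm (fun i => y (τ i)) t = evm y t := by
  induction t with
  | ih1 a =>
    have h1 := h a (by simp [lv])
    show y (τ a) = y a
    rw [h1]
  | ih2 s t hs ht =>
    rw [show lv (s * t) = lv s ++ lv t from rfl] at h
    rw [ALT_evm_mul, ALT_evm_mul, hs fun i hi => h i (List.mem_append_left _ hi),
      ht fun i hi => h i (List.mem_append_right _ hi)]

/-- sign of an extended permutation -/
private theorem ALT_sign {M n : ℕ} (ι : Fin n ↪ Fin M) (π : Equiv.Perm (Fin n)) :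
    Equiv.Perm.sign (π.viaEmbedding ι) = Equiv.Perm.sign π := by
  unfold Equiv.Perm.viaEmbedding
  exact @Equiv.Perm.sign_extendDomain _ _ _ _ _ _ π _ (fun _ => Classical.propDecidable _) _

private theorem ALT_det {R : Type*} [CommRing R] {n : ℕ} (a : Fin n → Fin n → R)
    (h : (Matrix.of a).det = 0) : ∑ π : Equiv.Perm (Fin n), (((Equiv.Perm.sign π : ℤˣ) : ℤ) : R) *
      ∏ j, a (π j) j = 0 := by
  rw [Matrix.det_apply'] at h
  exact h

/-- the value of a term -/
private noncomputable def ALT_G (D : FD F A K C) {M : ℕ}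
    (S : List (FreeMagma (Fin M) × FreeMagma (Fin M))) (v1 v2 v3 : FreeMagma (Fin M))
    (y : Fin M → A) : A :=
  D.J3 ((S.map fun s => D.E (evm y s.1) (evm y s.2)).prod • D.c (evm y v1)) (D.c (evm y v2))
    (D.c (evm y v3))

/-- the alternating sum over eight letters -/
private theorem ALT_eight (D : FD F A K C) {M n : ℕ} (ι : Fin n ↪ Fin M)
    (v : Fin n → FreeMagma (Fin M)) (ε : Fin n → ℤ)
    (s : Fin n → FreeMagma (Fin M) × FreeMagma (Fin M))
    (R S : List (FreeMagma (Fin M) × FreeMagma (Fin M)))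
    (hS : S.Perm (List.ofFn s ++ R))
    (hs : ∀ j (x : Fin M → A), D.E (evm x (s j).1) (evm x (s j).2) =
      ε j • D.E (x (ι j)) (evm x (v j)))
    (v1 v2 v3 : FreeMagma (Fin M))
    (h1 : ∀ j k, ι j ∉ lv (v k)) (h2 : ∀ j, ι j ∉ ALT_lp R) (h3 : ∀ j, ι j ∉ lv v1)
    (h4 : ∀ j, ι j ∉ lv v2) (h5 : ∀ j, ι j ∉ lv v3)
    (hgr : ∀ x v : Fin n → A, (Matrix.of fun i j => D.E (x i) (v j)).det = 0) (y : Fin M → A) :
    ∑ π : Equiv.Perm (Fin n), ((Equiv.Perm.sign π : ℤˣ) : ℤ) •
      ALT_G D S v1 v2 v3 (fun i => y (π.viaEmbedding ι i)) = 0 := by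
  have hfix : ∀ (π : Equiv.Perm (Fin n)) (t : FreeMagma (Fin M)), (∀ j, ι j ∉ lv t) →
      evm (fun i => y (π.viaEmbedding ι i)) t = evm y t := by
    intro π t ht
    refine ALT_evm_perm y _ t fun i hi => ?_
    refine Equiv.Perm.viaEmbedding_apply_of_notMem π ι i ?_
    rintro ⟨j, rfl⟩
    exact ht j hi
  have hR : ∀ π : Equiv.Perm (Fin n), (R.map fun q =>
      D.E (evm (fun i => y (π.viaEmbedding ι i)) q.1) (evm (fun i => y (π.viaEmbedding ι i)) q.2)) =
      R.map fun q => D.E (evm y q.1) (evm y q.2) := by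
    intro π
    refine List.map_congr_left fun q hq => ?_
    have h6 : ∀ j, ι j ∉ lv q.1 ∧ ι j ∉ lv q.2 := by
      intro j
      constructor
      · intro h
        apply h2 j
        unfold ALT_lp
        rw [List.mem_flatMap]
        exact ⟨q, hq, List.mem_append_left _ h⟩
      · intro h
        apply h2 j
        unfold ALT_lp
        rw [List.mem_flatMap]
        exact ⟨q, hq, List.mem_append_right _ h⟩
    rw [hfix π q.1 fun j => (h6 j).1, hfix π q.2 fun j => (h6 j).2]
  have hprod : ∀ π : Equiv.Perm (Fin n), (S.map fun q =>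
      D.E (evm (fun i => y (π.viaEmbedding ι i)) q.1)
        (evm (fun i => y (π.viaEmbedding ι i)) q.2)).prod =
      ((∏ j, (ε j : K)) * (R.map fun q => D.E (evm y q.1) (evm y q.2)).prod) *
        ∏ j, D.E (y (ι (π j))) (evm y (v j)) := by
    intro π
    rw [(hS.map _).prod_eq, List.map_append, List.prod_append, hR, List.map_ofFn, List.prod_ofFn]
    have h6 : ∀ j, ((fun q : FreeMagma (Fin M) × FreeMagma (Fin M) =>
        D.E (evm (fun i => y (π.viaEmbedding ι i)) q.1)
          (evm (fun i => y (π.viaEmbedding ι i)) q.2)) ∘ s) j =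
        (ε j : K) * D.E (y (ι (π j))) (evm y (v j)) := by
      intro j
      show D.E (evm (fun i => y (π.viaEmbedding ι i)) (s j).1)
        (evm (fun i => y (π.viaEmbedding ι i)) (s j).2) = _
      rw [hs, hfix π (v j) fun k => h1 k j, zsmul_eq_mul, Equiv.Perm.viaEmbedding_apply]
    rw [Finset.prod_congr rfl fun j _ => h6 j, Finset.prod_mul_distrib]
    ring
  obtain ⟨κ, hκ⟩ : ∃ κ : K, κ = (∏ j, (ε j : K)) *
    (R.map fun q => D.E (evm y q.1) (evm y q.2)).prod := ⟨_, rfl⟩
  rw [← hκ] at hprod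
  have hdet : ∑ π : Equiv.Perm (Fin n), (((Equiv.Perm.sign π : ℤˣ) : ℤ) : K) *
      ∏ j, D.E (y (ι (π j))) (evm y (v j)) = 0 :=
    ALT_det (fun j k => D.E (y (ι j)) (evm y (v k)))
      (hgr (fun j => y (ι j)) (fun j => evm y (v j)))
  have h7 : ∀ π : Equiv.Perm (Fin n), ((Equiv.Perm.sign π : ℤˣ) : ℤ) •
      ALT_G D S v1 v2 v3 (fun i => y (π.viaEmbedding ι i)) =
      D.J3 ((κ * ((((Equiv.Perm.sign π : ℤˣ) : ℤ) : K) *
        ∏ j, D.E (y (ι (π j))) (evm y (v j)))) • D.c (evm y v1)) (D.c (evm y v2))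
          (D.c (evm y v3)) := by
    intro π
    unfold ALT_G
    rw [hprod, hfix π v1 h3, hfix π v2 h4, hfix π v3 h5, ← LinearMap.smul_apply,
      ← LinearMap.smul_apply, ← map_zsmul]
    congr 3
    rw [← Int.cast_smul_eq_zsmul K, smul_smul]
    congr 1
    ring
  rw [Finset.sum_congr rfl fun π _ => h7 π]
  have h8 : ∑ π : Equiv.Perm (Fin n), D.J3 ((κ * ((((Equiv.Perm.sign π : ℤˣ) : ℤ) : K) *
        ∏ j, D.E (y (ι (π j))) (evm y (v j)))) • D.c (evm y v1)) (D.c (evm y v2))
          (D.c (evm y v3)) =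
      D.J3 ((κ * ∑ π : Equiv.Perm (Fin n), (((Equiv.Perm.sign π : ℤˣ) : ℤ) : K) *
        ∏ j, D.E (y (ι (π j))) (evm y (v j))) • D.c (evm y v1)) (D.c (evm y v2))
          (D.c (evm y v3)) := by
    rw [Finset.mul_sum, Finset.sum_smul, map_sum, LinearMap.sum_apply, LinearMap.sum_apply]
  rw [h8, hdet, mul_zero, zero_smul, map_zero, LinearMap.zero_apply, LinearMap.zero_apply]

/-- functions with vanishing alternating sums -/
private def ALT_Z {M : ℕ} (T : Finset (Fin M)) (Φ : (Fin M → A) → A) : Prop :=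
  ∀ x : Fin M → A,
    ∑ σ ∈ (Finset.univ.filter fun σ : Equiv.Perm (Fin M) => ∀ i, i ∉ T → σ i = i),
      ((Equiv.Perm.sign σ : ℤˣ) : ℤ) • Φ (fun i => x (σ i)) = 0

/-- a subgroup of the symmetric group is enough -/
private theorem ALT_Z_of {M n : ℕ} (T : Finset (Fin M)) (ι : Fin n ↪ Fin M) (hι : ∀ j, ι j ∈ T)
    (Φ : (Fin M → A) → A)
    (h : ∀ y : Fin M → A, ∑ π : Equiv.Perm (Fin n), ((Equiv.Perm.sign π : ℤˣ) : ℤ) •
      Φ (fun i => y (π.viaEmbedding ι i)) = 0) : ALT_Z T Φ := by
  intro x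
  obtain ⟨G, hG⟩ : ∃ G : Finset (Equiv.Perm (Fin M)),
    G = Finset.univ.filter fun σ : Equiv.Perm (Fin M) => ∀ i, i ∉ T → σ i = i := ⟨_, rfl⟩
  obtain ⟨Sm, hSm⟩ : ∃ Sm : A, Sm = ∑ σ ∈ G,
    ((Equiv.Perm.sign σ : ℤˣ) : ℤ) • Φ (fun i => x (σ i)) := ⟨_, rfl⟩
  rw [← hG, ← hSm]
  have memG : ∀ σ, σ ∈ G ↔ ∀ i, i ∉ T → σ i = i := by
    intro σ
    rw [hG, Finset.mem_filter]
    simp
  have h1 : ∀ π : Equiv.Perm (Fin n), Sm = ∑ σ ∈ G, ((Equiv.Perm.sign σ : ℤˣ) : ℤ) •
      (((Equiv.Perm.sign π : ℤˣ) : ℤ) • Φ (fun i => x (σ (π.viaEmbedding ι i)))) := by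
    intro π
    have hfix : ∀ i, i ∉ T → π.viaEmbedding ι i = i := by
      intro i hi
      refine Equiv.Perm.viaEmbedding_apply_of_notMem π ι i ?_
      rintro ⟨j, rfl⟩
      exact hi (hι j)
    rw [hSm]
    refine Finset.sum_nbij' (fun σ => σ * (π.viaEmbedding ι)⁻¹) (fun σ => σ * π.viaEmbedding ι)
      ?_ ?_ ?_ ?_ ?_
    · intro σ hσ
      rw [memG] at hσ ⊢
      intro i hi
      show σ ((π.viaEmbedding ι)⁻¹ i) = i
      have h2 : (π.viaEmbedding ι)⁻¹ i = i := by
        rw [Equiv.Perm.inv_eq_iff_eq]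
        exact (hfix i hi).symm
      rw [h2, hσ i hi]
    · intro σ hσ
      rw [memG] at hσ ⊢
      intro i hi
      show σ (π.viaEmbedding ι i) = i
      rw [hfix i hi, hσ i hi]
    · intro σ _
      show σ * (π.viaEmbedding ι)⁻¹ * π.viaEmbedding ι = σ
      rw [inv_mul_cancel_right]
    · intro σ _
      show σ * π.viaEmbedding ι * (π.viaEmbedding ι)⁻¹ = σ
      rw [mul_inv_cancel_right]
    · intro σ _
      have e1 : ∀ i, (σ * (π.viaEmbedding ι)⁻¹) (π.viaEmbedding ι i) = σ i := by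
        intro i
        show σ ((π.viaEmbedding ι)⁻¹ (π.viaEmbedding ι i)) = σ i
        congr 1
        exact Equiv.symm_apply_apply _ _
      simp only [e1]
      rw [Equiv.Perm.sign_mul, Equiv.Perm.sign_inv, ALT_sign, smul_smul]
      congr 1
      push_cast
      rw [mul_assoc, ← Units.val_mul, Int.units_mul_self, Units.val_one, mul_one]
  have h2 : ((Fintype.card (Equiv.Perm (Fin n)) : ℕ) : ℤ) • Sm = 0 := by
    have h3 : ∑ _π : Equiv.Perm (Fin n), Sm = ∑ π : Equiv.Perm (Fin n), ∑ σ ∈ G,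
        ((Equiv.Perm.sign σ : ℤˣ) : ℤ) •
      (((Equiv.Perm.sign π : ℤˣ) : ℤ) • Φ (fun i => x (σ (π.viaEmbedding ι i)))) :=
      Finset.sum_congr rfl fun π _ => h1 π
    rw [Finset.sum_const, Finset.card_univ, ← natCast_zsmul] at h3
    rw [h3, Finset.sum_comm]
    refine Finset.sum_eq_zero fun σ _ => ?_
    rw [← Finset.smul_sum, h fun i => x (σ i), smul_zero]
  refine TF.tf _ _ ?_ h2
  have := Fintype.card_pos (α := Equiv.Perm (Fin n))
  omega

/-- one term of the expansion -/
private theorem ALT_term (D : FD F A K C) {M : ℕ} (T : Finset (Fin M)) (hT : T.card = 69)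
    (S : List (FreeMagma (Fin M) × FreeMagma (Fin M)))
    (hS : ∀ s ∈ S, s.1.length ≤ 4 ∧ s.2.length ≤ 4) (v1 v2 v3 : FreeMagma (Fin M))
    (hv1 : v1.length ≤ 4) (hv2 : v2.length ≤ 4) (hv3 : v3.length ≤ 4)
    (hl : (ALT_lp S ++ (lv v1 ++ (lv v2 ++ lv v3))).Perm (List.finRange M)) :
    ALT_Z T (ALT_G D S v1 v2 v3) := by
  obtain ⟨s, R, hSR, hi⟩ := ALT_choose T hT S hS (lv v1 ++ (lv v2 ++ lv v3)) (by
      rw [List.length_append, List.length_append, lv_length, lv_length, lv_length]
      omega) (fun i => by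
      rw [hl.mem_iff]
      exact List.mem_finRange i)
  choose i hiT hil using hi
  choose ε v hv hE using fun j => D.move (s j).1 (s j).2 (i j) (hil j)
  -- the letters are distinct
  have hnd : (ALT_lp (List.ofFn s ++ R) ++ (lv v1 ++ (lv v2 ++ lv v3))).Nodup := by
    have h1 : (ALT_lp (List.ofFn s ++ R) ++ (lv v1 ++ (lv v2 ++ lv v3))).Perm (List.finRange M) :=
      ((ALT_lp_perm hSR).symm.append_right _).trans hl
    exact h1.nodup_iff.2 (List.nodup_finRange M)
  rw [ALT_lp_append, List.append_assoc, List.nodup_append'] at hnd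
  obtain ⟨hn1, -, hdis⟩ := hnd
  have hnf := hn1
  unfold ALT_lp at hnf
  rw [List.nodup_flatMap] at hnf
  obtain ⟨hn2, hn3⟩ := hnf
  rw [List.pairwise_ofFn] at hn3
  have hdj : ∀ j k : Fin 8, j ≠ k → List.Disjoint (lv (s j).1 ++ lv (s j).2)
      (lv (s k).1 ++ lv (s k).2) := by
    intro j k hjk
    rcases lt_or_gt_of_ne hjk with h | h
    · exact hn3 h
    · exact (hn3 h).symm
  have hself : ∀ j, i j ∉ lv (v j) := by
    intro j
    have h1 : (i j :: lv (v j)).Nodup :=
      (hv j).nodup_iff.2 (hn2 _ (List.mem_ofFn.2 ⟨j, rfl⟩))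
    exact (List.nodup_cons.1 h1).1
  have hinj : Function.Injective i := by
    intro j k hjk
    by_contra hne
    exact hdj j k hne (hil j) (hjk ▸ hil k)
  have hmem : ∀ j, i j ∈ ALT_lp (List.ofFn s) := by
    intro j
    unfold ALT_lp
    rw [List.mem_flatMap]
    exact ⟨s j, List.mem_ofFn.2 ⟨j, rfl⟩, hil j⟩
  have hout : ∀ j, i j ∉ ALT_lp R ++ (lv v1 ++ (lv v2 ++ lv v3)) := fun j h => hdis (hmem j) h
  refine ALT_Z_of T ⟨i, hinj⟩ hiT _ fun y => ?_
  refine ALT_eight D ⟨i, hinj⟩ v ε s R S hSR hE v1 v2 v3 ?_ ?_ ?_ ?_ ?_ (fun x v => D.gram x v) y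
  · intro j k h
    by_cases hjk : j = k
    · rw [hjk] at h
      exact hself k h
    · refine hdj j k hjk (hil j) ?_
      rw [← (hv k).mem_iff]
      exact List.mem_cons_of_mem _ h
  · exact fun j h => hout j (List.mem_append_left _ h)
  · exact fun j h => hout j (List.mem_append_right _ (List.mem_append_left _ h))
  · exact fun j h => hout j (List.mem_append_right _ (List.mem_append_right _
      (List.mem_append_left _ h)))
  · exact fun j h => hout j (List.mem_append_right _ (List.mem_append_right _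
      (List.mem_append_right _ h)))

private theorem ALT_Z_zero {M : ℕ} (T : Finset (Fin M)) : ALT_Z T fun _ => (0 : A) := by
  intro x
  simp

private theorem ALT_Z_add {M : ℕ} (T : Finset (Fin M)) {Φ Ψ : (Fin M → A) → A} (h : ALT_Z T Φ)
    (h' : ALT_Z T Ψ) : ALT_Z T fun y => Φ y + Ψ y := by
  intro x
  simp only [smul_add, Finset.sum_add_distrib]
  rw [h x, h' x, add_zero]

private theorem ALT_Z_smul {M : ℕ} (T : Finset (Fin M)) {Φ : (Fin M → A) → A} (h : ALT_Z T Φ)
    (a : F) : ALT_Z T fun y => a • Φ y := by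
  intro x
  have h1 := congrArg (fun z => a • z) (h x)
  simp only [Finset.smul_sum, smul_zero] at h1
  rw [← h1]
  exact Finset.sum_congr rfl fun σ _ => (smul_comm _ _ _)

private theorem ALT_Z_congr {M : ℕ} (T : Finset (Fin M)) {Φ Ψ : (Fin M → A) → A} (h : ALT_Z T Φ)
    (h' : ∀ y, Ψ y = Φ y) : ALT_Z T Ψ := by
  have : Ψ = Φ := funext h'
  rw [this]
  exact h

/-- product of three terms -/
private theorem ALT_three (D : FD F A K C) {M : ℕ} (T1 T2 T3 : ETerm F (Fin M))
    (y : Fin M → A) : D.J3 (D.evE y T1) (D.evE y T2) (D.evE y T3) =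
      (T1.co * (T2.co * T3.co)) •
        ALT_G D (T1.sc ++ (T2.sc ++ T3.sc)) T1.vec T2.vec T3.vec y := by
  have key : ∀ (a1 a2 a3 : F) (k1 k2 k3 : K) (p q r : C),
      D.J3 (a1 • (k1 • p)) (a2 • (k2 • q)) (a3 • (k3 • r)) =
        (a1 * (a2 * a3)) • D.J3 ((k1 * (k2 * k3)) • p) q r := by
    intro a1 a2 a3 k1 k2 k3 p q r
    have e1 : D.J3 (a1 • (k1 • p)) (a2 • (k2 • q)) (a3 • (k3 • r)) =
        (a1 * (a2 * a3)) • D.J3 (k1 • p) (k2 • q) (k3 • r) := by
      simp only [map_smul, LinearMap.smul_apply, smul_smul]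
      congr 1
      ring
    have e2 : D.J3 (k1 • p) (k2 • q) (k3 • r) = D.J3 ((k1 * (k2 * k3)) • p) q r := by
      rw [← D.J3_bal2, ← D.J3_bal1, ← D.J3_bal1, smul_smul, smul_smul]
      congr 4
      ring
    rw [e1, e2]
  unfold FD.evE ALT_G
  rw [key, List.map_append, List.map_append, List.prod_append, List.prod_append]

/-- ALTERNATION.
Proof: `J (evm p) (evm q) (evm r) = J3 (c ..) (c ..) (c ..)` (`J3_c`), expand the three vectors
(`FD.expand`) and collect all scalars in the first place (`J3_bal1`, `J3_bal2`): a sum of terms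
`J3 ((product of scalars E(s_j,t_j)) • c vec1) (c vec2) (c vec3)`, every letter exactly once, the
vectors have at most 4 leaves each, the `s_j, t_j` at most 4 leaves each.  At most 12 letters of `T`
are in the vectors, so at least 57 are in the scalars, at most 8 in each: at least 8 scalars
contain a letter of `T`.  Choose 8 of them and a letter `i_j ∈ T` in each; by `FD.move` they are
`± E(x i_j, v_j)`.  With `T0 = {i_1, ..., i_8}`: the alternating sum over the permutations of `T0`
of the term is `± det (E (x i_j) (v_k)) • ... = 0` (`FD.gram`; all other factors do not contain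
letters of `T0`).  The alternating sum over `Sym T` is the sum over the cosets of `Sym T0`. -/
theorem FD.alternation (D : FD F A K C) {M : ℕ} (p q r : FreeMagma (Fin M))
    (hp : 2 ≤ p.length) (hq : 2 ≤ q.length) (hr : 2 ≤ r.length)
    (hl : (lv p ++ lv q ++ lv r).Perm (List.finRange M)) (T : Finset (Fin M)) (hT : T.card = 69)
    (x : Fin M → A) :
    ∑ σ ∈ (Finset.univ.filter fun σ : Equiv.Perm (Fin M) => ∀ i, i ∉ T → σ i = i),
      ((Equiv.Perm.sign σ : ℤˣ) : ℤ) • J (evm (fun i => x (σ i)) p) (evm (fun i => x (σ i)) q)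
        (evm (fun i => x (σ i)) r) = 0 := by
  obtain ⟨L1, hL1, hc1⟩ := D.expand p hp
  obtain ⟨L2, hL2, hc2⟩ := D.expand q hq
  obtain ⟨L3, hL3, hc3⟩ := D.expand r hr
  have hBs : ∀ (t : FreeMagma (Fin M)), 2 ≤ t.length → ∀ y : Fin M → A, evm y t ∈ Bs F A := by
    intro t ht y
    cases t with
    | of a => simp [FreeMagma.length] at ht
    | mul s t => exact Submodule.subset_span ⟨evm y s, evm y t, rfl⟩
  have key : ALT_Z T fun y => D.J3 (L1.map (D.evE y)).sum (L2.map (D.evE y)).sum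
      (L3.map (D.evE y)).sum := by
    -- expansion of the first argument
    have step1 : ∀ L : List (ETerm F (Fin M)), (∀ T1 ∈ L, ALT_Z T fun y =>
        D.J3 (D.evE y T1) (L2.map (D.evE y)).sum (L3.map (D.evE y)).sum) →
        ALT_Z T fun y => D.J3 (L.map (D.evE y)).sum (L2.map (D.evE y)).sum
          (L3.map (D.evE y)).sum := by
      intro L
      induction L with
      | nil =>
        intro _
        exact ALT_Z_congr T (ALT_Z_zero T) fun y => by simp
      | cons T1 L ih =>
        intro h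
        refine ALT_Z_congr T (ALT_Z_add T (h T1 List.mem_cons_self)
          (ih fun T' hT' => h T' (List.mem_cons_of_mem _ hT'))) fun y => ?_
        rw [List.map_cons, List.sum_cons, map_add, LinearMap.add_apply, LinearMap.add_apply]
    have step2 : ∀ T1 : ETerm F (Fin M), ∀ L : List (ETerm F (Fin M)), (∀ T2 ∈ L, ALT_Z T fun y =>
        D.J3 (D.evE y T1) (D.evE y T2) (L3.map (D.evE y)).sum) →
        ALT_Z T fun y => D.J3 (D.evE y T1) (L.map (D.evE y)).sum (L3.map (D.evE y)).sum := by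
      intro T1 L
      induction L with
      | nil =>
        intro _
        exact ALT_Z_congr T (ALT_Z_zero T) fun y => by simp
      | cons T2 L ih =>
        intro h
        refine ALT_Z_congr T (ALT_Z_add T (h T2 List.mem_cons_self)
          (ih fun T' hT' => h T' (List.mem_cons_of_mem _ hT'))) fun y => ?_
        rw [List.map_cons, List.sum_cons, map_add, LinearMap.add_apply]
    have step3 : ∀ T1 T2 : ETerm F (Fin M), ∀ L : List (ETerm F (Fin M)), (∀ T3 ∈ L, ALT_Z T
        fun y => D.J3 (D.evE y T1) (D.evE y T2) (D.evE y T3)) →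
        ALT_Z T fun y => D.J3 (D.evE y T1) (D.evE y T2) (L.map (D.evE y)).sum := by
      intro T1 T2 L
      induction L with
      | nil =>
        intro _
        exact ALT_Z_congr T (ALT_Z_zero T) fun y => by simp
      | cons T3 L ih =>
        intro h
        refine ALT_Z_congr T (ALT_Z_add T (h T3 List.mem_cons_self)
          (ih fun T' hT' => h T' (List.mem_cons_of_mem _ hT'))) fun y => ?_
        rw [List.map_cons, List.sum_cons, map_add]
    refine step1 L1 fun T1 hT1 => step2 T1 L2 fun T2 hT2 => step3 T1 T2 L3 fun T3 hT3 => ?_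
    obtain ⟨hs1, hp1⟩ := hL1 T1 hT1
    obtain ⟨hs2, hp2⟩ := hL2 T2 hT2
    obtain ⟨hs3, hp3⟩ := hL3 T3 hT3
    refine ALT_Z_congr T (ALT_Z_smul T (ALT_term D T hT (T1.sc ++ (T2.sc ++ T3.sc)) ?_
      T1.vec T2.vec T3.vec hs1.2.1 hs2.2.1 hs3.2.1 ?_) (T1.co * (T2.co * T3.co)))
      fun y => ALT_three D T1 T2 T3 y
    · intro s hs
      rw [List.mem_append, List.mem_append] at hs
      rcases hs with hs | hs | hs
      · exact hs1.2.2 s hs
      · exact hs2.2.2 s hs
      · exact hs3.2.2 s hs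
    · refine List.Perm.trans ?_ (((hp1.append hp2).append hp3).trans hl)
      rw [ALT_lp_append, ALT_lp_append]
      unfold ETerm.leaves
      rw [← Multiset.coe_eq_coe]
      simp only [← Multiset.coe_add]
      show (ALT_lp T1.sc : Multiset (Fin M)) + _ + _ = (lv T1.vec : Multiset (Fin M)) +
        (ALT_lp T1.sc : Multiset (Fin M)) + ((lv T2.vec : Multiset (Fin M)) +
        (ALT_lp T2.sc : Multiset (Fin M))) + ((lv T3.vec : Multiset (Fin M)) +
        (ALT_lp T3.sc : Multiset (Fin M)))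
      abel
  have h1 := key x
  rw [← h1]
  refine Finset.sum_congr rfl fun σ _ => ?_
  show _ = ((Equiv.Perm.sign σ : ℤˣ) : ℤ) • D.J3 (L1.map (D.evE fun i => x (σ i))).sum
    (L2.map (D.evE fun i => x (σ i))).sum (L3.map (D.evE fun i => x (σ i))).sum
  rw [← hc1, ← hc2, ← hc3, D.J3_c _ (hBs p hp _) _ (hBs q hq _) _ (hBs r hr _)]

end

end Pool.Agent.MalF
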