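import Mathlib

/-!
# Malcev algebras: basic definitions (MP_3f4c28_al)

`J`, `t`, `e`, `om`, `X`, `l`, `Th`, `Z` are integer multiples of the functions used in the
text (`t = 3T`, `e = 6E`, `om = 6 Omega`, `X`, `l` correspondingly).
-/

namespace Pool.Agent.MalF

/-- A nonassociative ring is *Malcev* if it is anticommutative (`x * x = 0`) and satisfies the
Malcev identity. -/
class IsMalcev (A : Type*) [NonUnitalNonAssocRing A] : Prop where
  self_mul : ∀ x : A, x * x = 0
  malcev : ∀ x y z : A,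
    (x * y) * (x * z) = ((x * y) * z) * x + ((y * z) * x) * x + ((z * x) * x) * y

/-- No torsion. -/
class TF (A : Type*) [AddCommGroup A] : Prop where
  tf : ∀ (n : ℤ) (x : A), n ≠ 0 → n • x = 0 → x = 0

section
variable {A : Type*} [NonUnitalNonAssocRing A]

def J (x y z : A) : A := (x * y) * z + (y * z) * x + (z * x) * y

def t (x y z : A) : A := (2 : ℤ) • ((x * y) * z) - (y * z) * x - (z * x) * y

def e (w z y x : A) : A := t w y z * x + t x y z * w + t x w z * y

def om (w z p q r : A) : A := J (t w p z) q r + J (t q p z) w r + J (t q w z) p r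

def X (w z y x q r : A) : A := J (e w z y x) q r - om w z (y * x) q r

def l (w z y x u : A) : A := e w z y x * u - e w z (y * x) u

def Th (m x y z : A) : A := J m x y * z + J (m * z) x y

def Z (m x1 x2 x3 x4 x5 : A) : A :=
  Th m (J x1 x2 x3) x4 x5 - Th m (J x1 x2 x4) x3 x5 + Th m (J x1 x2 x5) x3 x4
  + Th m (J x1 x3 x4) x2 x5 - Th m (J x1 x3 x5) x2 x4 + Th m (J x1 x4 x5) x2 x3
  - Th m (J x2 x3 x4) x1 x5 + Th m (J x2 x3 x5) x1 x4 - Th m (J x2 x4 x5) x1 x3
  + Th m (J x3 x4 x5) x1 x2

end

end Pool.Agent.MalF
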