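import Pool.Agent.MalF.Defs

/-!
# Detection lemma (module DET)
-/

namespace Pool.Agent.MalF

/-- The alternating sum over the symmetric group of a set `T` of letters. -/
def epsT {M : ℕ} {W : Type*} [AddCommGroup W] (ρ : Equiv.Perm (Fin M) →* AddMonoid.End W)
    (T : Finset (Fin M)) (w : W) : W :=
  ∑ σ ∈ (Finset.univ.filter fun σ : Equiv.Perm (Fin M) => ∀ i, i ∉ T → σ i = i),
    ((Equiv.Perm.sign σ : ℤˣ) : ℤ) • ρ σ w

private theorem DET_ai {M : ℕ} (σ : Equiv.Perm (Fin M)) (a : Fin M) : σ (σ⁻¹ a) = a :=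
  Equiv.apply_symm_apply σ a
private theorem DET_eps_empty {M : ℕ} {W : Type*} [AddCommGroup W]
    (ρ : Equiv.Perm (Fin M) →* AddMonoid.End W) (w : W) : epsT ρ ∅ w = w := by
  unfold epsT
  rw [Finset.sum_eq_single (1 : Equiv.Perm (Fin M))]
  · simp
  · intro σ hσ hne
    exfalso
    apply hne
    ext i
    have := (Finset.mem_filter.1 hσ).2 i (Finset.notMem_empty i)
    rw [this]
    rfl
  · intro h
    exfalso
    apply h
    rw [Finset.mem_filter]
    exact ⟨Finset.mem_univ _, fun i _ => rfl⟩

private theorem DET_eps_add {M : ℕ} {W : Type*} [AddCommGroup W]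
    (ρ : Equiv.Perm (Fin M) →* AddMonoid.End W) (T : Finset (Fin M)) (v w : W) :
    epsT ρ T (v + w) = epsT ρ T v + epsT ρ T w := by
  unfold epsT
  rw [← Finset.sum_add_distrib]
  refine Finset.sum_congr rfl fun σ _ => ?_
  rw [map_add, smul_add]

/-- the alternating sum as a homomorphism -/
private def DET_hom {M : ℕ} {W : Type*} [AddCommGroup W]
    (ρ : Equiv.Perm (Fin M) →* AddMonoid.End W) (T : Finset (Fin M)) : W →+ W :=
  AddMonoidHom.mk' (epsT ρ T) (DET_eps_add ρ T)

private theorem DET_eps_insert {M : ℕ} {W : Type*} [AddCommGroup W]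
    (ρ : Equiv.Perm (Fin M) →* AddMonoid.End W) (T : Finset (Fin M)) {a : Fin M} (ha : a ∉ T)
    (w : W) : epsT ρ (insert a T) w =
      epsT ρ T w - ∑ b ∈ T, epsT ρ T (ρ (Equiv.swap a b) w) := by
  have h1 : epsT ρ (insert a T) w = ∑ b ∈ insert a T,
      ∑ τ ∈ (Finset.univ.filter fun σ : Equiv.Perm (Fin M) => ∀ i, i ∉ T → σ i = i),
        ((Equiv.Perm.sign (τ * Equiv.swap a b) : ℤˣ) : ℤ) • ρ (τ * Equiv.swap a b) w := by
    rw [← Finset.sum_product']
    unfold epsT
    refine Finset.sum_nbij' (fun σ => (σ⁻¹ a, σ * Equiv.swap a (σ⁻¹ a)))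
      (fun p => p.2 * Equiv.swap a p.1) ?_ ?_ ?_ ?_ ?_
    · intro σ hσ
      have hσ' := (Finset.mem_filter.1 hσ).2
      have hb : σ⁻¹ a ∈ insert a T := by
        by_contra hb
        have h2 := hσ' _ hb
        rw [DET_ai] at h2
        rw [← h2] at hb
        exact hb (Finset.mem_insert_self _ _)
      rw [Finset.mem_product, Finset.mem_filter]
      refine ⟨hb, Finset.mem_univ _, fun i hi => ?_⟩
      show σ (Equiv.swap a (σ⁻¹ a) i) = i
      by_cases hia : i = a
      · rw [hia, Equiv.swap_apply_left, DET_ai]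
      · have hi2 : i ∉ insert a T := by
          rw [Finset.mem_insert]
          tauto
        have hib : i ≠ σ⁻¹ a := fun h => hi2 (h ▸ hb)
        rw [Equiv.swap_apply_of_ne_of_ne hia hib]
        exact hσ' i hi2
    · rintro ⟨b, τ⟩ hp
      rw [Finset.mem_product, Finset.mem_filter] at hp
      obtain ⟨hb, -, hτ⟩ := hp
      rw [Finset.mem_filter]
      refine ⟨Finset.mem_univ _, fun i hi => ?_⟩
      have hia : i ≠ a := fun h => hi (h ▸ Finset.mem_insert_self _ _)
      have hib : i ≠ b := fun h => hi (h ▸ hb)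
      show τ (Equiv.swap a b i) = i
      rw [Equiv.swap_apply_of_ne_of_ne hia hib]
      exact hτ i fun h => hi (Finset.mem_insert_of_mem h)
    · intro σ _
      show σ * Equiv.swap a (σ⁻¹ a) * Equiv.swap a (σ⁻¹ a) = σ
      rw [mul_assoc, Equiv.swap_mul_self, mul_one]
    · rintro ⟨b, τ⟩ hp
      rw [Finset.mem_product, Finset.mem_filter] at hp
      obtain ⟨hb, -, hτ⟩ := hp
      have h2 : (τ * Equiv.swap a b)⁻¹ a = b := by
        rw [Equiv.Perm.inv_eq_iff_eq]
        show a = τ (Equiv.swap a b b)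
        rw [Equiv.swap_apply_right]
        exact (hτ a ha).symm
      show ((τ * Equiv.swap a b)⁻¹ a, τ * Equiv.swap a b * Equiv.swap a ((τ * Equiv.swap a b)⁻¹ a)) =
        (b, τ)
      rw [h2, mul_assoc, Equiv.swap_mul_self, mul_one]
    · intro σ _
      show _ = ((Equiv.Perm.sign (σ * Equiv.swap a (σ⁻¹ a) * Equiv.swap a (σ⁻¹ a)) : ℤˣ) : ℤ) •
        ρ (σ * Equiv.swap a (σ⁻¹ a) * Equiv.swap a (σ⁻¹ a)) w
      rw [mul_assoc, Equiv.swap_mul_self, mul_one]
  rw [h1, Finset.sum_insert ha]
  have h3 : ∑ τ ∈ (Finset.univ.filter fun σ : Equiv.Perm (Fin M) => ∀ i, i ∉ T → σ i = i),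
        ((Equiv.Perm.sign (τ * Equiv.swap a a) : ℤˣ) : ℤ) • ρ (τ * Equiv.swap a a) w =
      epsT ρ T w := by
    unfold epsT
    refine Finset.sum_congr rfl fun τ _ => ?_
    rw [Equiv.swap_self]
    rfl
  rw [h3, sub_eq_add_neg, ← Finset.sum_neg_distrib]
  congr 1
  refine Finset.sum_congr rfl fun b hb => ?_
  have hab : a ≠ b := fun h => ha (h ▸ hb)
  unfold epsT
  rw [← Finset.sum_neg_distrib]
  refine Finset.sum_congr rfl fun τ _ => ?_
  rw [Equiv.Perm.sign_mul, Equiv.Perm.sign_swap hab, map_mul]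
  simp

/-- the block of the colour `q` -/
private def DET_b {M : ℕ} (c : Fin M → Fin M) (q : Fin M) : Finset (Fin M) :=
  Finset.univ.filter fun i => c i = q

private theorem DET_mem_b {M : ℕ} (c : Fin M → Fin M) (q i : Fin M) :
    i ∈ DET_b c q ↔ c i = q := by
  unfold DET_b
  simp

/-- elimination of the colours one by one -/
private theorem DET_elim {M : ℕ} {W : Type*} [AddCommGroup W] [TF W]
    (ρ : Equiv.Perm (Fin M) →* AddMonoid.End W) (c : Fin M → Fin M) (w : W)
    (hs : ∀ q y : Fin M, q ≠ c y → (DET_b c (c y)).card ≤ (DET_b c q).card →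
      ∑ x ∈ DET_b c q, ρ (Equiv.swap x y) w = - w) :
    ∀ (n : ℕ) (Q : Finset (Fin M)), Q.card = n → (∀ q ∈ Q, (DET_b c q).Nonempty) →
      (∀ T : Finset (Fin M), Set.InjOn c T → T.image c = Q → epsT ρ T w = 0) → w = 0 := by
  intro n
  induction n with
  | zero =>
    intro Q hQ _ hT
    rw [Finset.card_eq_zero] at hQ
    have h1 := hT ∅ (by simp) (by simp [hQ])
    rwa [DET_eps_empty] at h1
  | succ n ih =>
    intro Q hQ hne hT
    have hQne : Q.Nonempty := by
      rw [← Finset.card_pos]
      omega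
    obtain ⟨q, hq, hmax⟩ := Finset.exists_max_image Q (fun q => (DET_b c q).card) hQne
    refine ih (Q.erase q) (by rw [Finset.card_erase_of_mem hq]; omega)
      (fun q' hq' => hne q' (Finset.mem_of_mem_erase hq')) ?_
    intro T hinj himg
    -- the sum over the block
    have h0 : ∀ a ∈ DET_b c q, epsT ρ (insert a T) w = 0 := by
      intro a ha
      rw [DET_mem_b] at ha
      refine hT _ ?_ ?_
      · rw [Finset.coe_insert, Set.injOn_insert]
        · refine ⟨hinj, ?_⟩
          rintro ⟨b, hb, hb'⟩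
          have h2 : q ∈ Q.erase q := by
            rw [← himg, ← ha, ← hb']
            exact Finset.mem_image_of_mem c hb
          exact Finset.notMem_erase q Q h2
        · intro haT
          have h2 : q ∈ Q.erase q := by
            rw [← himg, ← ha]
            exact Finset.mem_image_of_mem c haT
          exact Finset.notMem_erase q Q h2
      · rw [Finset.image_insert, himg, ha, Finset.insert_erase hq]
    have haT : ∀ a ∈ DET_b c q, a ∉ T := by
      intro a ha haT
      rw [DET_mem_b] at ha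
      have h2 : q ∈ Q.erase q := by
        rw [← himg, ← ha]
        exact Finset.mem_image_of_mem c haT
      exact Finset.notMem_erase q Q h2
    have h1 : ∑ a ∈ DET_b c q, epsT ρ (insert a T) w = 0 := Finset.sum_eq_zero h0
    have h2 : ∑ a ∈ DET_b c q, epsT ρ (insert a T) w =
        ∑ a ∈ DET_b c q, (epsT ρ T w - ∑ b ∈ T, epsT ρ T (ρ (Equiv.swap a b) w)) :=
      Finset.sum_congr rfl fun a ha => DET_eps_insert ρ T (haT a ha) w
    rw [h2, Finset.sum_sub_distrib, Finset.sum_comm] at h1
    have h3 : ∀ b ∈ T, ∑ a ∈ DET_b c q, epsT ρ T (ρ (Equiv.swap a b) w) = - epsT ρ T w := by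
      intro b hb
      have hcb : c b ∈ Q.erase q := by
        rw [← himg]
        exact Finset.mem_image_of_mem c hb
      have h4 := hs q b (Finset.ne_of_mem_erase hcb).symm (hmax _ (Finset.mem_of_mem_erase hcb))
      have h5 : ∑ a ∈ DET_b c q, epsT ρ T (ρ (Equiv.swap a b) w) =
          DET_hom ρ T (∑ a ∈ DET_b c q, ρ (Equiv.swap a b) w) := by
        rw [map_sum]
        rfl
      rw [h5, h4, map_neg]
      rfl
    rw [Finset.sum_congr rfl h3, Finset.sum_const, Finset.sum_const] at h1
    have h6 : (((DET_b c q).card + T.card : ℕ) : ℤ) • epsT ρ T w = 0 := by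
      rw [natCast_zsmul, add_smul, ← h1]
      rw [smul_neg, sub_neg_eq_add]
    refine TF.tf _ _ ?_ h6
    have := Finset.card_pos.2 (hne q hq)
    omega

/-- moving one letter -/
private theorem DET_inv {M : ℕ} {W : Type*} [AddCommGroup W]
    (ρ : Equiv.Perm (Fin M) →* AddMonoid.End W) (c : Fin M → Fin M) (w : W)
    (hw : ∀ σ : Equiv.Perm (Fin M), (∀ i, c (σ i) = c i) → ρ σ w = w) (q y : Fin M)
    (hq : q ≠ c y) (σ : Equiv.Perm (Fin M))
    (hσ : ∀ i, Function.update c y q (σ i) = Function.update c y q i) :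
    ρ σ (w + ∑ x ∈ DET_b c q, ρ (Equiv.swap x y) w) =
      w + ∑ x ∈ DET_b c q, ρ (Equiv.swap x y) w := by
  have hy : y ∉ DET_b c q := by
    rw [DET_mem_b]
    exact fun h => hq h.symm
  have e1 : w + ∑ x ∈ DET_b c q, ρ (Equiv.swap x y) w =
      ∑ x ∈ insert y (DET_b c q), ρ (Equiv.swap x y) w := by
    rw [Finset.sum_insert hy, Equiv.swap_self]
    congr 1
    have : ρ (Equiv.refl (Fin M)) = 1 := map_one ρ
    rw [this]
    rfl
  have hB : ∀ x, x ∈ insert y (DET_b c q) ↔ Function.update c y q x = q := by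
    intro x
    rw [Finset.mem_insert, DET_mem_b]
    by_cases hx : x = y
    · subst hx
      simp
    · simp [hx]
  rw [e1, map_sum]
  refine Finset.sum_bij (fun x _ => σ x) ?_ ?_ ?_ ?_
  · intro x hx
    rw [hB] at hx ⊢
    rw [hσ, hx]
  · intro x _ x' _ h
    exact σ.injective h
  · intro x hx
    refine ⟨σ⁻¹ x, ?_, by simp⟩
    rw [hB] at hx ⊢
    rw [← hσ, DET_ai, hx]
  · intro x hx
    -- the permutation in the stabiliser
    obtain ⟨τ, hτ⟩ : ∃ τ : Equiv.Perm (Fin M), τ = Equiv.swap (σ x) y * σ * Equiv.swap x y :=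
      ⟨_, rfl⟩
    have hswap : ∀ u v : Fin M, Function.update c y q u = q → Function.update c y q v = q → ∀ z,
        Function.update c y q (Equiv.swap u v z) = Function.update c y q z := by
      intro u v hu hv z
      by_cases h1 : z = u
      · rw [h1, Equiv.swap_apply_left, hu, hv]
      · by_cases h2 : z = v
        · rw [h2, Equiv.swap_apply_right, hu, hv]
        · rw [Equiv.swap_apply_of_ne_of_ne h1 h2]
    have hyq : Function.update c y q y = q := by simp
    have hx' := (hB x).1 hx
    have hσx : Function.update c y q (σ x) = q := by rw [hσ, hx']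
    have h1 : ∀ z, Function.update c y q (τ z) = Function.update c y q z := by
      intro z
      rw [hτ]
      show Function.update c y q (Equiv.swap (σ x) y (σ (Equiv.swap x y z))) = _
      rw [hswap _ _ hσx hyq, hσ, hswap _ _ hx' hyq]
    have h2 : τ y = y := by
      rw [hτ]
      show Equiv.swap (σ x) y (σ (Equiv.swap x y y)) = y
      rw [Equiv.swap_apply_right, Equiv.swap_apply_left]
    have h3 : ∀ z, c (τ z) = c z := by
      intro z
      by_cases hz : z = y
      · rw [hz, h2]
      · have hz' : τ z ≠ y := by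
          intro h
          apply hz
          apply τ.injective
          rw [h, h2]
        have h4 := h1 z
        rwa [Function.update_of_ne hz', Function.update_of_ne hz] at h4
    have h4 := hw τ h3
    have h5 : σ * Equiv.swap x y = Equiv.swap (σ x) y * τ := by
      rw [hτ, ← mul_assoc, ← mul_assoc, Equiv.swap_mul_self, one_mul]
    have h6 : ρ σ (ρ (Equiv.swap x y) w) = ρ (σ * Equiv.swap x y) w := by
      rw [map_mul]
      rfl
    rw [h6, h5, map_mul]
    show ρ (Equiv.swap (σ x) y) (ρ τ w) = _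
    rw [h4]

/-- sum of the squares of the block sizes -/
private def DET_s {M : ℕ} (c : Fin M → Fin M) : ℕ := ∑ q, (DET_b c q).card ^ 2

private theorem DET_s_le {M : ℕ} (c : Fin M → Fin M) : DET_s c ≤ M * M ^ 2 := by
  unfold DET_s
  have : ∀ q, (DET_b c q).card ^ 2 ≤ M ^ 2 := by
    intro q
    refine Nat.pow_le_pow_left ?_ 2
    have := Finset.card_le_univ (DET_b c q)
    rwa [Fintype.card_fin] at this
  refine (Finset.sum_le_sum fun q _ => this q).trans ?_
  simp

private theorem DET_s_lt {M : ℕ} (c : Fin M → Fin M) (q y : Fin M) (hq : q ≠ c y)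
    (h : (DET_b c (c y)).card ≤ (DET_b c q).card) :
    DET_s c < DET_s (Function.update c y q) := by
  have h1 : DET_b (Function.update c y q) q = insert y (DET_b c q) := by
    ext x
    rw [Finset.mem_insert, DET_mem_b, DET_mem_b]
    by_cases hx : x = y
    · subst hx
      simp
    · simp [hx]
  have h2 : DET_b (Function.update c y q) (c y) = (DET_b c (c y)).erase y := by
    ext x
    rw [Finset.mem_erase, DET_mem_b, DET_mem_b]
    by_cases hx : x = y
    · subst hx
      simp [hq]
    · simp [hx]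
  have h3 : ∀ p, p ≠ q ∧ p ≠ c y → DET_b (Function.update c y q) p = DET_b c p := by
    rintro p ⟨hp1, hp2⟩
    ext x
    rw [DET_mem_b, DET_mem_b]
    by_cases hx : x = y
    · subst hx
      simp only [Function.update_self]
      exact ⟨fun h => absurd h.symm hp1, fun h => absurd h.symm hp2⟩
    · simp [hx]
  have hyq : y ∉ DET_b c q := by
    rw [DET_mem_b]
    exact fun h => hq h.symm
  have hyc : y ∈ DET_b c (c y) := by rw [DET_mem_b]
  have h4 : (DET_b (Function.update c y q) q).card = (DET_b c q).card + 1 := by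
    rw [h1, Finset.card_insert_of_notMem hyq]
  have h5 : (DET_b (Function.update c y q) (c y)).card + 1 = (DET_b c (c y)).card := by
    rw [h2, Finset.card_erase_add_one hyc]
  have h6 : ((DET_s (Function.update c y q) : ℕ) : ℤ) - (DET_s c : ℕ) =
      ∑ p, (((DET_b (Function.update c y q) p).card : ℤ) ^ 2 - ((DET_b c p).card : ℤ) ^ 2) := by
    unfold DET_s
    push_cast
    rw [Finset.sum_sub_distrib]
  have h7 : ∑ p, (((DET_b (Function.update c y q) p).card : ℤ) ^ 2 - ((DET_b c p).card : ℤ) ^ 2) =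
      (((DET_b (Function.update c y q) q).card : ℤ) ^ 2 - ((DET_b c q).card : ℤ) ^ 2) +
      (((DET_b (Function.update c y q) (c y)).card : ℤ) ^ 2 -
        ((DET_b c (c y)).card : ℤ) ^ 2) := by
    refine Finset.sum_eq_add q (c y) hq (fun p _ hp => ?_) (fun h => absurd (Finset.mem_univ _) h)
      (fun h => absurd (Finset.mem_univ _) h)
    rw [h3 p hp, sub_self]
  rw [h7, h4, ← h5] at h6
  rw [← h5] at h
  have h8 : ((DET_b (Function.update c y q) (c y)).card : ℤ) + 1 ≤ (DET_b c q).card := by
    exact_mod_cast h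
  push_cast at h6
  have h9 : (0 : ℤ) < ((DET_s (Function.update c y q) : ℕ) : ℤ) - (DET_s c : ℕ) := by
    rw [h6]
    nlinarith
  omega

/-- one step of the downward induction -/
private theorem DET_step {M : ℕ} {W : Type*} [AddCommGroup W] [TF W]
    (ρ : Equiv.Perm (Fin M) →* AddMonoid.End W) (k : ℕ)
    (h1 : ∀ T : Finset (Fin M), T.card = k + 1 → ∀ w : W, epsT ρ T w = 0)
    (h2 : ∀ c : Fin M → Fin k, ∀ w : W,
      (∀ σ : Equiv.Perm (Fin M), (∀ i, c (σ i) = c i) → ρ σ w = w) → w = 0)
    (c : Fin M → Fin M) (w : W)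
    (hw : ∀ σ : Equiv.Perm (Fin M), (∀ i, c (σ i) = c i) → ρ σ w = w)
    (hs : ∀ q y : Fin M, q ≠ c y → (DET_b c (c y)).card ≤ (DET_b c q).card →
      ∑ x ∈ DET_b c q, ρ (Equiv.swap x y) w = - w) : w = 0 := by
  obtain ⟨C, hC⟩ : ∃ C : Finset (Fin M), C = Finset.univ.image c := ⟨_, rfl⟩
  have hcC : ∀ i, c i ∈ C := by
    intro i
    rw [hC]
    exact Finset.mem_image_of_mem c (Finset.mem_univ i)
  by_cases hk : C.card ≤ k
  · -- few colours
    obtain ⟨f⟩ : Nonempty (C ↪ Fin k) := by
      rw [Function.Embedding.nonempty_iff_card_le]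
      simpa using hk
    refine h2 (fun i => f ⟨c i, hcC i⟩) w fun σ hσ => hw σ fun i => ?_
    have h3 := f.injective (hσ i)
    exact congrArg Subtype.val h3
  · push Not at hk
    obtain ⟨Q, hQC, hQ⟩ := Finset.exists_subset_card_eq (Nat.succ_le_of_lt hk)
    refine DET_elim ρ c w hs (k + 1) Q hQ ?_ ?_
    · intro q hq
      have h3 := hQC hq
      rw [hC, Finset.mem_image] at h3
      obtain ⟨i, -, hi⟩ := h3
      exact ⟨i, (DET_mem_b c q i).2 hi⟩
    · intro T hinj himg
      refine h1 T ?_ w
      have h3 : T.card = Q.card := by rw [← himg, Finset.card_image_of_injOn hinj]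
      rw [h3, hQ]

/-- DETECTION LEMMA.  The symmetric group of `Fin M` acts on a torsion free group `W`; the
alternating sums over `k + 1` letters vanish, and an element invariant under the stabiliser of a
colouring with `k` colours is `0`.  Then `W = 0`.

Proof.  For a colouring `c : Fin M → Fin M` (a set partition) let `s(c) = ∑ |block|²`.  By downward
induction on `s(c) ≤ M²` we show: every `w` with `ρ σ w = w` for all `σ` with `c ∘ σ = c` is `0`;
for `c = id` this is the claim.  If `c` takes at most `k` values, use `h2`.  Otherwise let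
`b_1, b_2, ...` be the blocks, `|b_1| ≥ |b_2| ≥ ...`, more than `k` of them.  Let `i < j`,
`y ∈ b_j`, and let `c'` be `c` with `y` moved to `b_i`.  Then `w' = w + ∑_{x ∈ b_i} ρ (x y) w` is
invariant under the stabiliser of `c'` (on `b_i ∪ {y}` it is the sum over the cosets of
`Sym (b_i ∪ {y}) / Sym b_i`; the permutations of `b_j - {y}` and of the other blocks commute with
everything up to the stabiliser of `c`), and
`s(c') > s(c)` as `(|b_i|+1)² + (|b_j|-1)² > |b_i|² + |b_j|²` for `|b_i| ≥ |b_j|`.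
So `∑_{x ∈ b_i} ρ (x y) w = - w` for all `y ∈ b_j`, `i < j`.   (*)
Take `y_i ∈ b_i` (`1 ≤ i ≤ k+1`), `T_i = {y_i, ..., y_{k+1}}`.  Then
`eps_{T_i} = eps_{T_{i+1}} (1 - ∑_{j > i} (y_i y_j))` (every `σ ∈ Sym T_i` is uniquely `τ` or
`τ (y_i y_j)` with `τ ∈ Sym T_{i+1}`).  If `eps_{T_i} w = 0` for all choices of the `y`, sum over
`y_i ∈ b_i`, the others fixed: by (*) `0 = (|b_i| + (k + 1 - i)) eps_{T_{i+1}} w`, so
`eps_{T_{i+1}} w = 0` for all choices.  Start with `h1` (`i = 1`); at the end `w = 0`. -/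
theorem detection {M : ℕ} {W : Type*} [AddCommGroup W] [TF W]
    (ρ : Equiv.Perm (Fin M) →* AddMonoid.End W) (k : ℕ)
    (h1 : ∀ T : Finset (Fin M), T.card = k + 1 → ∀ w : W, epsT ρ T w = 0)
    (h2 : ∀ c : Fin M → Fin k, ∀ w : W,
      (∀ σ : Equiv.Perm (Fin M), (∀ i, c (σ i) = c i) → ρ σ w = w) → w = 0) :
    ∀ w : W, w = 0 := by
  -- downward induction on the sum of squares
  have main : ∀ (n : ℕ) (c : Fin M → Fin M), M * M ^ 2 ≤ DET_s c + n → ∀ w : W,
      (∀ σ : Equiv.Perm (Fin M), (∀ i, c (σ i) = c i) → ρ σ w = w) → w = 0 := by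
    intro n
    induction n with
    | zero =>
      intro c hc w hw
      exact DET_step ρ k h1 h2 c w hw fun q y hq h => by
        have := DET_s_lt c q y hq h
        have := DET_s_le (Function.update c y q)
        omega
    | succ n ih =>
      intro c hc w hw
      exact DET_step ρ k h1 h2 c w hw fun q y hq h => by
        have h3 := DET_s_lt c q y hq h
        have h4 := ih (Function.update c y q) (by omega) _ (DET_inv ρ c w hw q y hq)
        rw [add_comm] at h4
        exact eq_neg_of_add_eq_zero_left h4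
  intro w
  refine main (M * M ^ 2) id (by omega) w fun σ hσ => ?_
  have h3 : σ = 1 := by
    ext i
    have := hσ i
    simp only [id] at this
    rw [this]
    rfl
  rw [h3, map_one]
  rfl

end Pool.Agent.MalF
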