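import Mathlib

/-!
# Certificate checker for (super) Malcev identities: computable part
-/

namespace Pool.Agent.MalF

/-- Nonassociative monomials in letters `0, 1, 2, ...`. -/
inductive Tr where
  | v : ℕ → Tr
  | m : Tr → Tr → Tr
deriving DecidableEq, Repr

/-- Polynomials: formal integer combinations of monomials. -/
abbrev Pol := List (ℤ × Tr)

namespace Tr

/-- Parity of a monomial, given the parities of the letters. -/
def par (p : ℕ → Bool) : Tr → Bool
  | v i => p i
  | m a b => xor (par p a) (par p b)

/-- A total order used for normal forms. -/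
def cmp : Tr → Tr → Ordering
  | v i, v j => bif Nat.blt i j then .lt else bif Nat.beq i j then .eq else .gt
  | v _, m _ _ => .lt
  | m _ _, v _ => .gt
  | m a b, m c d => match cmp a c with
    | .eq => cmp b d
    | .lt => .lt
    | .gt => .gt

/-- The leaves from left to right. -/
def leaves : Tr → List ℕ
  | v i => [i]
  | m a b => leaves a ++ leaves b

/-- Relabelling of the letters. -/
def relab (g : ℕ → ℕ) : Tr → Tr
  | v i => v (g i)
  | m a b => m (relab g a) (relab g b)

end Tr

open Tr

/-- sign of a Boolean: `true ↦ -1`. -/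
def sg (b : Bool) : ℤ := bif b then -1 else 1

/-- Product of two monomials in normal form, by super anticommutativity. -/
def mulN (p : ℕ → Bool) (a b : Tr) : ℤ × Tr :=
  match cmp a b with
  | .gt => (1, m a b)
  | .eq => bif par p a then (1, m a b) else (0, m a b)
  | .lt => (bif par p a && par p b then 1 else -1, m b a)

/-- Product of signed monomials. -/
def mulS (p : ℕ → Bool) (a b : ℤ × Tr) : ℤ × Tr :=
  let c := mulN p a.2 b.2
  (a.1 * b.1 * c.1, c.2)

/-- Normal form of a monomial. -/
def nf (p : ℕ → Bool) : Tr → ℤ × Tr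
  | v i => (1, v i)
  | m a b => mulS p (nf p a) (nf p b)

/-- Accumulator (binary search tree). -/
inductive BT where
  | nil : BT
  | nd : BT → Tr → ℤ → BT → BT

namespace BT

def ins (c : ℤ) (t : Tr) : BT → BT
  | nil => nd nil t c nil
  | nd l k d r => match cmp t k with
    | .lt => nd (ins c t l) k d r
    | .eq => nd l k (d + c) r
    | .gt => nd l k d (ins c t r)

def allZero : BT → Bool
  | nil => true
  | nd l _ d r => (d == 0) && (allZero l && allZero r)

end BT

/-- Successive right multiplication by the monomials of a list. -/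
def ctxN (p : ℕ → Bool) (a : ℤ × Tr) : List Tr → ℤ × Tr
  | [] => a
  | u :: us => ctxN p (mulS p a (1, u)) us

/-- An instance of the super Malcev identity, with a context. -/
structure Inst where
  c : ℤ
  x : Tr
  y : Tr
  z : Tr
  t : Tr
  ctx : List Tr

/-- The five terms of an instance: `sgn (xz)(yt) - ((xy)z)t - ((yz)t)x - ((zt)x)y - ((tx)y)z`. -/
def Inst.terms (p : ℕ → Bool) (I : Inst) : Pol :=
  let i := par p I.x
  let j := par p I.y
  let k := par p I.z
  let l := par p I.t
  let X := nf p I.x
  let Y := nf p I.y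
  let Z := nf p I.z
  let T := nf p I.t
  let xz := mulS p X Z
  let yt := mulS p Y T
  let xy := mulS p X Y
  let yz := mulS p Y Z
  let zt := mulS p Z T
  let tx := mulS p T X
  let w := fun (s : ℤ) (q : ℤ × Tr) => ctxN p (s * q.1, q.2) I.ctx
  [w (sg (j && k)) (mulS p xz yt),
   w (-1) (mulS p (mulS p xy Z) T),
   w (-sg (i && (xor j (xor k l)))) (mulS p (mulS p yz T) X),
   w (-sg ((xor i j) && (xor k l))) (mulS p (mulS p zt X) Y),
   w (-sg (l && (xor i (xor j k)))) (mulS p (mulS p tx Y) Z)]

def insList (c : ℤ) : Pol → BT → BT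
  | [], T => T
  | q :: L, T => insList c L (T.ins (c * q.1) q.2)

def insCert (p : ℕ → Bool) : List Inst → BT → BT
  | [], T => T
  | I :: L, T => insCert p L (insList (-I.c) (I.terms p) T)

/-- Parity of the number of odd entries of `L` smaller than `a`. -/
def inv1 (o : ℕ → Bool) (a : ℕ) : List ℕ → Bool
  | [] => false
  | b :: L => xor (o b && Nat.blt b a) (inv1 o a L)

/-- Parity of the number of inversions among the odd entries. -/
def oinv (o : ℕ → Bool) : List ℕ → Bool
  | [] => false
  | a :: L => xor (o a && inv1 o a L) (oinv o L)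

/-- Relabelled polynomial with its signs. -/
def superize (g : ℕ → ℕ) (p : ℕ → Bool) : Pol → Pol
  | [] => []
  | q :: L =>
    let s := nf p (q.2.relab g)
    (q.1 * sg (oinv (fun i => p (g i)) q.2.leaves) * s.1, s.2) :: superize g p L

/-- The check: `D * superize P = sum of the certificate`. -/
def check (g : ℕ → ℕ) (p : ℕ → Bool) (P : Pol) (D : ℤ) (cert : List Inst) : Bool :=
  (insCert p cert (insList D (superize g p P) .nil)).allZero

/-! Polynomials. -/

namespace Pol

def var (i : ℕ) : Pol := [(1, v i)]
def smul (c : ℤ) (P : Pol) : Pol := P.map fun q => (c * q.1, q.2)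
def mul1 (q : ℤ × Tr) (R : Pol) : Pol := R.map fun r => (q.1 * r.1, m q.2 r.2)
def mul (P R : Pol) : Pol := P.flatMap fun q => mul1 q R
def neg (P : Pol) : Pol := smul (-1) P
def add (P R : Pol) : Pol := P ++ R
def sub (P R : Pol) : Pol := P ++ neg R

def J (x y z : Pol) : Pol := add (add (mul (mul x y) z) (mul (mul y z) x)) (mul (mul z x) y)
def t (x y z : Pol) : Pol :=
  sub (sub (smul 2 (mul (mul x y) z)) (mul (mul y z) x)) (mul (mul z x) y)
def e (w z y x : Pol) : Pol := add (add (mul (t w y z) x) (mul (t x y z) w)) (mul (t x w z) y)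
def om (w z p q r : Pol) : Pol := add (add (J (t w p z) q r) (J (t q p z) w r)) (J (t q w z) p r)
def X (w z y x q r : Pol) : Pol := sub (J (e w z y x) q r) (om w z (mul y x) q r)
def l (w z y x u : Pol) : Pol := sub (mul (e w z y x) u) (e w z (mul y x) u)
def Th (m' x y z : Pol) : Pol := add (mul (J m' x y) z) (J (mul m' z) x y)
def Z (m x1 x2 x3 x4 x5 : Pol) : Pol :=
  add (sub (add (sub (add (sub (add (add (sub
    (Th m (J x1 x2 x3) x4 x5) (Th m (J x1 x2 x4) x3 x5)) (Th m (J x1 x2 x5) x3 x4))
    (Th m (J x1 x3 x4) x2 x5)) (Th m (J x1 x3 x5) x2 x4)) (Th m (J x1 x4 x5) x2 x3))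
    (Th m (J x2 x3 x4) x1 x5)) (Th m (J x2 x3 x5) x1 x4)) (Th m (J x2 x4 x5) x1 x3))
    (Th m (J x3 x4 x5) x1 x2)

end Pol

end Pool.Agent.MalF
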