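import Pool.Agent.MalF.EngS

/-!
# Evaluation of polynomials
-/

namespace Pool.Agent.MalF

open Tr

section evP
variable {S : Type*} [NonUnitalNonAssocRing S] (x : ℕ → S)

theorem evP_var (i : ℕ) : evP x (Pol.var i) = x i := by
  simp [Pol.var, evP, ev]

theorem evP_append (P Q : Pol) : evP x (P ++ Q) = evP x P + evP x Q := by
  induction P with
  | nil => simp [evP]
  | cons q L ih => simp only [List.cons_append, evP, ih, add_assoc]

theorem evP_smul (c : ℤ) (P : Pol) : evP x (Pol.smul c P) = c • evP x P := by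
  induction P with
  | nil => simp [Pol.smul, evP]
  | cons q L ih =>
    have h : Pol.smul c (q :: L) = (c * q.1, q.2) :: Pol.smul c L := rfl
    rw [h]
    simp only [evP, ih, smul_add, smul_smul]

theorem evP_mul1 (q : ℤ × Tr) (R : Pol) : evP x (Pol.mul1 q R) = (q.1 • ev x q.2) * evP x R := by
  induction R with
  | nil => simp [Pol.mul1, evP]
  | cons r L ih =>
    have h : Pol.mul1 q (r :: L) = (q.1 * r.1, m q.2 r.2) :: Pol.mul1 q L := rfl
    rw [h]
    simp only [evP, ev, ih, mul_add, smul_mul_assoc, mul_smul_comm, smul_smul, mul_comm r.1 q.1]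

theorem evP_mul (P Q : Pol) : evP x (Pol.mul P Q) = evP x P * evP x Q := by
  induction P with
  | nil => simp [Pol.mul, evP]
  | cons q L ih =>
    have h : Pol.mul (q :: L) Q = Pol.mul1 q Q ++ Pol.mul L Q := rfl
    rw [h, evP_append, ih, evP_mul1]
    simp only [evP, add_mul]

theorem evP_add (P Q : Pol) : evP x (Pol.add P Q) = evP x P + evP x Q := evP_append x P Q

theorem evP_sub (P Q : Pol) : evP x (Pol.sub P Q) = evP x P - evP x Q := by
  rw [show Pol.sub P Q = P ++ Pol.smul (-1) Q from rfl, evP_append, evP_smul, neg_one_zsmul,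
    sub_eq_add_neg]

theorem evP_J (P Q R : Pol) : evP x (Pol.J P Q R) = J (evP x P) (evP x Q) (evP x R) := by
  simp only [Pol.J, J, evP_add, evP_mul]

theorem evP_t (P Q R : Pol) : evP x (Pol.t P Q R) = t (evP x P) (evP x Q) (evP x R) := by
  simp only [Pol.t, t, evP_mul, evP_sub, evP_smul]

theorem evP_e (P Q R T : Pol) :
    evP x (Pol.e P Q R T) = e (evP x P) (evP x Q) (evP x R) (evP x T) := by
  simp only [Pol.e, e, evP_add, evP_mul, evP_t]

theorem evP_om (P Q R T U : Pol) :
    evP x (Pol.om P Q R T U) = om (evP x P) (evP x Q) (evP x R) (evP x T) (evP x U) := by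
  simp only [Pol.om, om, evP_add, evP_J, evP_t]

theorem evP_X (P Q R T U V : Pol) : evP x (Pol.X P Q R T U V) =
    X (evP x P) (evP x Q) (evP x R) (evP x T) (evP x U) (evP x V) := by
  simp only [Pol.X, X, evP_sub, evP_J, evP_e, evP_om, evP_mul]

theorem evP_l (P Q R T U : Pol) :
    evP x (Pol.l P Q R T U) = l (evP x P) (evP x Q) (evP x R) (evP x T) (evP x U) := by
  simp only [Pol.l, l, evP_sub, evP_mul, evP_e]

theorem evP_Th (P Q R T : Pol) :
    evP x (Pol.Th P Q R T) = Th (evP x P) (evP x Q) (evP x R) (evP x T) := by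
  simp only [Pol.Th, Th, evP_add, evP_mul, evP_J]

theorem evP_Z (P Q R T U V : Pol) : evP x (Pol.Z P Q R T U V) =
    Z (evP x P) (evP x Q) (evP x R) (evP x T) (evP x U) (evP x V) := by
  simp only [Pol.Z, Z, evP_add, evP_sub, evP_Th, evP_J]

end evP

end Pool.Agent.MalF
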