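import Pool.Agent.MalF.Defs
import Pool.Agent.MalF.EngDef

/-!
# Certificate checker: soundness in a Malcev superalgebra (module ENS)
-/

namespace Pool.Agent.MalF

open Tr

/-- Malcev superalgebra structure on a nonassociative ring (`hom false` = even part). -/
structure Super (S : Type*) [NonUnitalNonAssocRing S] where
  hom : Bool → AddSubgroup S
  mul_mem : ∀ {i j : Bool} {x y : S}, x ∈ hom i → y ∈ hom j → x * y ∈ hom (xor i j)
  sq : ∀ {x : S}, x ∈ hom false → x * x = 0
  ac : ∀ {i j : Bool} {x y : S}, x ∈ hom i → y ∈ hom j → x * y = sg (!(i && j)) • (y * x)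
  mal : ∀ {i j k l : Bool} {x y z t : S}, x ∈ hom i → y ∈ hom j → z ∈ hom k → t ∈ hom l →
    sg (j && k) • ((x * z) * (y * t)) = ((x * y) * z) * t
      + sg (i && (xor j (xor k l))) • (((y * z) * t) * x)
      + sg ((xor i j) && (xor k l)) • (((z * t) * x) * y)
      + sg (l && (xor i (xor j k))) • (((t * x) * y) * z)

/-- Evaluation of a monomial. -/
def ev {S : Type*} [Mul S] (θ : ℕ → S) : Tr → S
  | v i => θ i
  | m a b => ev θ a * ev θ b

/-- Evaluation of a polynomial. -/
def evP {S : Type*} [NonUnitalNonAssocRing S] (θ : ℕ → S) : Pol → S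
  | [] => 0
  | q :: L => q.1 • ev θ q.2 + evP θ L

section ens
variable {S : Type*} [NonUnitalNonAssocRing S]

private theorem ens_cmp : ∀ a b : Tr, Tr.cmp a b = .eq → a = b
  | v i, v j, h => by
    simp only [Tr.cmp] at h
    cases h1 : Nat.blt i j <;> cases h2 : Nat.beq i j <;> rw [h1, h2] at h <;> simp at h
    · rw [Nat.eq_of_beq_eq_true h2]
  | v _, m _ _, h => by simp [Tr.cmp] at h
  | m _ _, v _, h => by simp [Tr.cmp] at h
  | m a b, m c d, h => by
    simp only [Tr.cmp] at h
    cases h1 : Tr.cmp a c <;> rw [h1] at h <;> simp at h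
    rw [ens_cmp a c h1, ens_cmp b d h]

private theorem ens_mem (H : Super S) (p : ℕ → Bool) (θ : ℕ → S) (hθ : ∀ i, θ i ∈ H.hom (p i)) :
    ∀ t : Tr, ev θ t ∈ H.hom (par p t)
  | v i => hθ i
  | m a b => H.mul_mem (ens_mem H p θ hθ a) (ens_mem H p θ hθ b)

/-- evaluation of a signed monomial -/
private def evS (θ : ℕ → S) (a : ℤ × Tr) : S := a.1 • ev θ a.2

private theorem ens_mulN (H : Super S) (p : ℕ → Bool) (θ : ℕ → S)
    (hθ : ∀ i, θ i ∈ H.hom (p i)) (a b : Tr) : evS θ (mulN p a b) = ev θ a * ev θ b := by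
  have ha := ens_mem H p θ hθ a
  have hb := ens_mem H p θ hθ b
  unfold mulN
  cases h : Tr.cmp a b with
  | gt => simp [evS, ev]
  | eq =>
    have hab := ens_cmp a b h
    subst hab
    cases hp : par p a with
    | true => simp [evS, ev]
    | false =>
      rw [hp] at ha
      simp [evS, H.sq ha]
  | lt =>
    rw [H.ac ha hb]
    cases hp : par p a <;> cases hq : par p b <;> simp [evS, ev, sg]

private theorem ens_mulS (H : Super S) (p : ℕ → Bool) (θ : ℕ → S)
    (hθ : ∀ i, θ i ∈ H.hom (p i)) (a b : ℤ × Tr) : evS θ (mulS p a b) = evS θ a * evS θ b := by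
  have h := ens_mulN H p θ hθ a.2 b.2
  simp only [evS] at h
  simp only [evS, mulS, smul_mul_assoc, mul_smul_comm, smul_smul, ← h]
  congr 1
  ring

private theorem ens_nf (H : Super S) (p : ℕ → Bool) (θ : ℕ → S) (hθ : ∀ i, θ i ∈ H.hom (p i)) :
    ∀ t : Tr, evS θ (nf p t) = ev θ t
  | v i => by simp [evS, nf]
  | m a b => by rw [nf, ens_mulS H p θ hθ, ens_nf H p θ hθ a, ens_nf H p θ hθ b]; rfl

/-- multiplication by the context -/
private def ctxR (θ : ℕ → S) : List Tr → S → S
  | [], s => s
  | u :: us, s => ctxR θ us (s * ev θ u)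

private theorem ctxR_add (θ : ℕ → S) (L : List Tr) : ∀ a b : S,
    ctxR θ L (a + b) = ctxR θ L a + ctxR θ L b := by
  induction L with
  | nil => intro a b; rfl
  | cons u us ih => intro a b; simp only [ctxR, add_mul, ih]

private theorem ctxR_zero (θ : ℕ → S) (L : List Tr) : ctxR θ L 0 = 0 := by
  induction L with
  | nil => rfl
  | cons u us ih => simp only [ctxR, zero_mul, ih]

private theorem ens_ctxN (H : Super S) (p : ℕ → Bool) (θ : ℕ → S) (hθ : ∀ i, θ i ∈ H.hom (p i))
    (L : List Tr) : ∀ a : ℤ × Tr, evS θ (ctxN p a L) = ctxR θ L (evS θ a) := by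
  induction L with
  | nil => intro a; rfl
  | cons u us ih =>
    intro a
    simp only [ctxN, ctxR]
    rw [ih, ens_mulS H p θ hθ]
    congr 2
    simp [evS]

private theorem ens_terms (H : Super S) (p : ℕ → Bool) (θ : ℕ → S) (hθ : ∀ i, θ i ∈ H.hom (p i))
    (I : Inst) : evP θ (I.terms p) = 0 := by
  have hx := ens_mem H p θ hθ I.x
  have hy := ens_mem H p θ hθ I.y
  have hz := ens_mem H p θ hθ I.z
  have ht := ens_mem H p θ hθ I.t
  have hm := H.mal hx hy hz ht
  have hw : ∀ (s : ℤ) (q : ℤ × Tr), (ctxN p (s * q.1, q.2) I.ctx).1 •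
      ev θ (ctxN p (s * q.1, q.2) I.ctx).2 = ctxR θ I.ctx (s • evS θ q) := by
    intro s q
    have h := ens_ctxN H p θ hθ I.ctx (s * q.1, q.2)
    simp only [evS] at h ⊢
    rw [h, smul_smul]
  simp only [Inst.terms, evP, hw, ens_mulS H p θ hθ, ens_nf H p θ hθ, add_zero]
  rw [← ctxR_add, ← ctxR_add, ← ctxR_add, ← ctxR_add]
  rw [hm]
  simp only [neg_smul, one_smul]
  convert ctxR_zero θ I.ctx using 2
  abel

/-- value of an accumulator -/
private def BTval (θ : ℕ → S) : BT → S
  | .nil => 0
  | .nd l k d r => BTval θ l + d • ev θ k + BTval θ r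

private theorem ens_ins (θ : ℕ → S) (c : ℤ) (t : Tr) :
    ∀ T : BT, BTval θ (BT.ins c t T) = BTval θ T + c • ev θ t
  | .nil => by simp [BT.ins, BTval]
  | .nd l k d r => by
    unfold BT.ins
    cases h : Tr.cmp t k with
    | lt =>
      simp only [BTval, ens_ins θ c t l]
      abel
    | eq =>
      rw [ens_cmp t k h]
      simp only [BTval, add_smul]
      abel
    | gt =>
      simp only [BTval, ens_ins θ c t r]
      abel

private theorem ens_allZero (θ : ℕ → S) : ∀ T : BT, T.allZero = true → BTval θ T = 0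
  | .nil, _ => rfl
  | .nd l k d r, h => by
    simp only [BT.allZero, Bool.and_eq_true, beq_iff_eq] at h
    simp only [BTval, ens_allZero θ l h.2.1, ens_allZero θ r h.2.2, h.1, zero_smul, add_zero]

private theorem ens_insList (θ : ℕ → S) (c : ℤ) (L : Pol) :
    ∀ T : BT, BTval θ (insList c L T) = BTval θ T + c • evP θ L := by
  induction L with
  | nil => intro T; simp [insList, evP]
  | cons q L ih =>
    intro T
    simp only [insList, evP, ih, ens_ins, smul_add, smul_smul]
    abel

private theorem ens_insCert (H : Super S) (p : ℕ → Bool) (θ : ℕ → S)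
    (hθ : ∀ i, θ i ∈ H.hom (p i)) (L : List Inst) :
    ∀ T : BT, BTval θ (insCert p L T) = BTval θ T := by
  induction L with
  | nil => intro T; rfl
  | cons I L ih =>
    intro T
    simp only [insCert]
    rw [ih, ens_insList, ens_terms H p θ hθ I, smul_zero, add_zero]

end ens

/-- SOUNDNESS of the checker.
Proof: `cmp a b = .eq → a = b` (induction).  `ev θ t ∈ hom (par p t)`.  `mulN`:
`ev a * ev b = c.1 • ev c.2` for `c = mulN p a b` (cases of `cmp`; `.eq` and even: `sq`; `.lt`: `ac`);
`mulS`: the same with coefficients; `nf`: `ev θ t = (nf p t).1 • ev θ (nf p t).2`.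
`BT.val T := ∑ d • ev θ k` over the nodes; `val (ins c t T) = val T + c • ev θ t`;
`allZero T = true → val T = 0`.  `Inst.terms`: the evaluation of the five terms is `0` by `mal`
(each term is `± product`, then multiplied on the right by the context, `ctxN`).
So `val (insCert p cert (insList D (superize g p P) .nil)) = D • evP θ (superize g p P)`. -/
theorem check_sound {S : Type*} [NonUnitalNonAssocRing S] (H : Super S) (g : ℕ → ℕ)
    (p : ℕ → Bool) (P : Pol) (D : ℤ) (cert : List Inst) (θ : ℕ → S)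
    (hθ : ∀ i, θ i ∈ H.hom (p i)) (hc : check g p P D cert = true) :
    D • evP θ (superize g p P) = 0 := by
  have h1 := ens_allZero θ _ hc
  rw [ens_insCert H p θ hθ, ens_insList] at h1
  simpa [BTval] using h1

end Pool.Agent.MalF
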