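import Pool.Agent.MalF.Defs

/-!
# Sagle's form of the Malcev identity (module SAG)
-/

namespace Pool.Agent.MalF

private theorem SAG_anti {A : Type*} [NonUnitalNonAssocRing A] [IsMalcev A] (x y : A) :
    y * x = -(x * y) := by
  have h := IsMalcev.self_mul (x + y)
  rw [add_mul, mul_add, mul_add, IsMalcev.self_mul, IsMalcev.self_mul, zero_add, add_zero] at h
  exact (neg_eq_of_add_eq_zero_right h).symm

private theorem SAG_lin {A : Type*} [NonUnitalNonAssocRing A] [IsMalcev A] (x t y z : A) :
    (x * y) * (t * z) + (t * y) * (x * z) = ((x * y) * z) * t + ((t * y) * z) * x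
      + ((y * z) * x) * t + ((y * z) * t) * x + ((z * x) * t) * y + ((z * t) * x) * y := by
  have h := IsMalcev.malcev (x + t) y z
  have h1 := IsMalcev.malcev x y z
  have h2 := IsMalcev.malcev t y z
  simp only [add_mul, mul_add] at h
  rw [h1, h2] at h
  have h3 : (x * y) * (t * z) + (t * y) * (x * z) =
      (((x * y) * z) * x + ((y * z) * x) * x + ((z * x) * x) * y + (t * y) * (x * z) +
        ((x * y) * (t * z) + (((t * y) * z) * t + ((y * z) * t) * t + ((z * t) * t) * y))) -
      (((x * y) * z) * x + ((y * z) * x) * x + ((z * x) * x) * y) -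
      (((t * y) * z) * t + ((y * z) * t) * t + ((z * t) * t) * y) := by abel
  rw [h3, h]
  abel

/-- Sagle's form of the Malcev identity.
Proof: linearise `malcev` in `x` (`x ↦ x + t`, subtract), combine several substitutions; only
division by `2` is used (`TF`).  (Sagle 1961, (2.4) ⟺ (2.6).) -/
theorem sagle {A : Type*} [NonUnitalNonAssocRing A] [IsMalcev A] [TF A] (x y z t : A) :
    (x * z) * (y * t) = ((x * y) * z) * t + ((y * z) * t) * x + ((z * t) * x) * y
      + ((t * x) * y) * z := by
  have h1 := SAG_lin x y z t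
  have h2 := SAG_lin x z t y
  have h3 := SAG_lin x t y z
  have a1 : y * x = -(x * y) := SAG_anti x y
  have a2 : z * x = -(x * z) := SAG_anti x z
  have a3 : t * x = -(x * t) := SAG_anti x t
  have a4 : z * y = -(y * z) := SAG_anti y z
  have a5 : t * y = -(y * t) := SAG_anti y t
  have a6 : t * z = -(z * t) := SAG_anti z t
  have b1 : (z * t) * (x * y) = -((x * y) * (z * t)) := SAG_anti _ _
  have b2 : (y * t) * (x * z) = -((x * z) * (y * t)) := SAG_anti _ _
  have b3 : (y * z) * (x * t) = -((x * t) * (y * z)) := SAG_anti _ _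
  simp only [a1, a2, a3, a4, a5, a6, neg_mul, mul_neg, neg_neg, b1, b2, b3] at h1 h2 h3 ⊢
  have h4 : (2 : ℤ) • ((x * z) * (y * t) - (((x * y) * z) * t + ((y * z) * t) * x +
      ((z * t) * x) * y + -(((x * t) * y) * z))) = 0 := by
    rw [← sub_eq_zero] at h1 h2 h3
    have h5 : ∀ a b c : A, a = 0 → b = 0 → c = 0 → a - b + c = 0 := by
      intro a b c h6 h7 h8
      rw [h6, h7, h8]
      abel
    rw [← h5 _ _ _ h1 h2 h3]
    abel
  exact sub_eq_zero.1 (TF.tf 2 _ (by norm_num) h4)

end Pool.Agent.MalF
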