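import Pool.Agent.MalF.EngS
import Pool.Agent.MalF.Sagle

/-!
# The Malcev superalgebra `A ⊗ Λ` (module ENT)
-/

namespace Pool.Agent.MalF

open TensorProduct

/-- The exterior algebra on countably many generators over the integers. -/
abbrev Lam : Type := ExteriorAlgebra ℤ (ℕ → ℤ)

/-- The generators. -/
noncomputable def gen (i : ℕ) : Lam := ExteriorAlgebra.ι ℤ (Pi.single i 1)

/-- Products of `k` elements of degree one. -/
def lamSet (b : Bool) : Set Lam :=
  {w | ∃ L : List (ℕ → ℤ), (Nat.bodd L.length = b) ∧ w = (L.map (ExteriorAlgebra.ι ℤ)).prod}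

section ent

private theorem ent_clos {S T : Type*} [AddCommGroup S] [AddCommGroup T] {s : Set S} {F G : S → T}
    (hF : ∀ a b, F (a + b) = F a + F b) (hG : ∀ a b, G (a + b) = G a + G b)
    (h : ∀ x ∈ s, F x = G x) {x : S} (hx : x ∈ AddSubgroup.closure s) : F x = G x := by
  have h0 : F 0 = 0 := by
    have := hF 0 0
    simpa using this
  have h0' : G 0 = 0 := by
    have := hG 0 0
    simpa using this
  have hn : ∀ a, F (-a) = -F a := fun a => by
    have := hF a (-a)
    rw [add_neg_cancel, h0] at this
    exact (neg_eq_of_add_eq_zero_right this.symm).symm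
  have hn' : ∀ a, G (-a) = -G a := fun a => by
    have := hG a (-a)
    rw [add_neg_cancel, h0'] at this
    exact (neg_eq_of_add_eq_zero_right this.symm).symm
  induction hx using AddSubgroup.closure_induction with
  | mem x hx => exact h x hx
  | zero => rw [h0, h0']
  | add a b _ _ ha hb => rw [hF, hG, ha, hb]
  | neg a _ ha => rw [hn, hn', ha]

private theorem ent_sg (n : ℕ) : sg (Nat.bodd n) = (-1 : ℤ) ^ n := by
  induction n with
  | zero => rfl
  | succ n ih =>
    rw [Nat.bodd_succ, pow_succ, ← ih]
    cases Nat.bodd n <;> rfl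

private theorem ent_one (u : ℕ → ℤ) (L : List (ℕ → ℤ)) :
    ExteriorAlgebra.ι ℤ u * (L.map (ExteriorAlgebra.ι ℤ)).prod =
      (-1 : ℤ) ^ L.length • ((L.map (ExteriorAlgebra.ι ℤ)).prod * ExteriorAlgebra.ι ℤ u) := by
  induction L with
  | nil => simp
  | cons v L ih =>
    have h : ExteriorAlgebra.ι ℤ u * ExteriorAlgebra.ι ℤ v =
        -(ExteriorAlgebra.ι ℤ v * ExteriorAlgebra.ι ℤ u) :=
      eq_neg_of_add_eq_zero_left (ExteriorAlgebra.ι_add_mul_swap u v)
    rw [List.map_cons, List.prod_cons, ← mul_assoc, h, neg_mul, mul_assoc, ih, List.length_cons,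
      mul_smul_comm, pow_succ, mul_neg_one, neg_smul, mul_assoc]

private theorem ent_two (K L : List (ℕ → ℤ)) :
    (K.map (ExteriorAlgebra.ι ℤ)).prod * (L.map (ExteriorAlgebra.ι ℤ)).prod =
      (-1 : ℤ) ^ (K.length * L.length) •
        ((L.map (ExteriorAlgebra.ι ℤ)).prod * (K.map (ExteriorAlgebra.ι ℤ)).prod) := by
  induction K with
  | nil => simp
  | cons u K ih =>
    rw [List.map_cons, List.prod_cons, mul_assoc, ih, mul_smul_comm, ← mul_assoc, ent_one,
      smul_mul_assoc, smul_smul, ← pow_add, mul_assoc, List.length_cons]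
    congr 2
    ring

private theorem ent_comm {i j : Bool} {w w' : Lam} (hw : w ∈ lamSet i) (hw' : w' ∈ lamSet j) :
    w * w' = sg (i && j) • (w' * w) := by
  obtain ⟨K, hK, rfl⟩ := hw
  obtain ⟨L, hL, rfl⟩ := hw'
  rw [ent_two, ← ent_sg, Nat.bodd_mul, hK, hL]

private theorem ent_mul {i j : Bool} {w w' : Lam} (hw : w ∈ lamSet i) (hw' : w' ∈ lamSet j) :
    w * w' ∈ lamSet (xor i j) := by
  obtain ⟨K, hK, rfl⟩ := hw
  obtain ⟨L, hL, rfl⟩ := hw'
  refine ⟨K ++ L, ?_, ?_⟩
  · rw [List.length_append, Nat.bodd_add, hK, hL]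
  · rw [List.map_append, List.prod_append]

private theorem ent_sgsg (b : Bool) : sg b * sg b = 1 := by cases b <;> rfl

private theorem ent_not (b : Bool) : sg (!b) = -sg b := by cases b <;> rfl

variable {A : Type*} [NonUnitalNonAssocRing A] {S : Type*} [NonUnitalNonAssocRing S]

/-- the generators of the homogeneous parts -/
private def entG (T : A → Lam → S) (b : Bool) : Set S :=
  {s | ∃ (a : A) (w : Lam), w ∈ lamSet b ∧ s = T a w}

/-- a biadditive multiplicative map -/
private structure EntT (T : A → Lam → S) : Prop where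
  mul : ∀ a b w w', T a w * T b w' = T (a * b) (w * w')
  add : ∀ a b w, T (a + b) w = T a w + T b w
  smul : ∀ (n : ℤ) a w, T a (n • w) = n • T a w

variable {T : A → Lam → S}

private theorem EntT.zero (h : EntT T) (w : Lam) : T 0 w = 0 := by
  have := h.add 0 0 w
  simpa using this

private theorem EntT.neg (h : EntT T) (a : A) (w : Lam) : T (-a) w = -T a w := by
  have := h.add a (-a) w
  rw [add_neg_cancel, h.zero] at this
  exact (neg_eq_of_add_eq_zero_right this.symm).symm

private theorem ent_ac [IsMalcev A] (h : EntT T) {i j : Bool} {x y : S}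
    (hx : x ∈ AddSubgroup.closure (entG T i)) (hy : y ∈ AddSubgroup.closure (entG T j)) :
    x * y = sg (!(i && j)) • (y * x) := by
  refine ent_clos (F := fun x => x * y) (G := fun x => sg (!(i && j)) • (y * x))
    (fun a b => add_mul a b y) (fun a b => by simp only [mul_add, smul_add]) ?_ hx
  rintro _ ⟨a, w, hw, rfl⟩
  refine ent_clos (F := fun y => T a w * y)
    (G := fun y => sg (!(i && j)) • (y * T a w))
    (fun a b => mul_add _ a b) (fun a b => by simp only [add_mul, smul_add]) ?_ hy
  rintro _ ⟨b, w', hw', rfl⟩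
  have hab : a * b = -(b * a) := by
    have h1 := IsMalcev.self_mul (a + b)
    rw [mul_add, add_mul, add_mul, IsMalcev.self_mul, IsMalcev.self_mul, zero_add, add_zero] at h1
    exact eq_neg_of_add_eq_zero_right h1
  simp only [h.mul]
  rw [ent_comm hw hw', hab, h.smul, h.neg, smul_neg, ent_not, neg_smul]

private theorem ent_sq [IsMalcev A] (h : EntT T) {x : S}
    (hx : x ∈ AddSubgroup.closure (entG T false)) : x * x = 0 := by
  induction hx using AddSubgroup.closure_induction with
  | mem x hx =>
    obtain ⟨a, w, _, rfl⟩ := hx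
    rw [h.mul, IsMalcev.self_mul, h.zero]
  | zero => rw [mul_zero]
  | add a b ha hb iha ihb =>
    rw [mul_add, add_mul, add_mul, iha, ihb, ent_ac h hb ha]
    simp [sg]
  | neg a _ ha => rw [neg_mul_neg, ha]

private theorem ent_mul_mem (h : EntT T) {i j : Bool} {x y : S}
    (hx : x ∈ AddSubgroup.closure (entG T i)) (hy : y ∈ AddSubgroup.closure (entG T j)) :
    x * y ∈ AddSubgroup.closure (entG T (xor i j)) := by
  induction hx using AddSubgroup.closure_induction with
  | mem x hx =>
    induction hy using AddSubgroup.closure_induction with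
    | mem y hy =>
      obtain ⟨a, w, hw, rfl⟩ := hx
      obtain ⟨b, w', hw', rfl⟩ := hy
      rw [h.mul]
      exact AddSubgroup.subset_closure ⟨_, _, ent_mul hw hw', rfl⟩
    | zero => rw [mul_zero]; exact AddSubgroup.zero_mem _
    | add a b _ _ ha hb => rw [mul_add]; exact AddSubgroup.add_mem _ ha hb
    | neg a _ ha => rw [mul_neg]; exact AddSubgroup.neg_mem _ ha
  | zero => rw [zero_mul]; exact AddSubgroup.zero_mem _
  | add a b _ _ ha hb => rw [add_mul]; exact AddSubgroup.add_mem _ ha hb
  | neg a _ ha => rw [neg_mul]; exact AddSubgroup.neg_mem _ ha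

private theorem ent_mal [IsMalcev A] [TF A] (h : EntT T) {i j k l : Bool} {x y z t : S}
    (hx : x ∈ AddSubgroup.closure (entG T i)) (hy : y ∈ AddSubgroup.closure (entG T j))
    (hz : z ∈ AddSubgroup.closure (entG T k)) (ht : t ∈ AddSubgroup.closure (entG T l)) :
    sg (j && k) • ((x * z) * (y * t)) = ((x * y) * z) * t
      + sg (i && (xor j (xor k l))) • (((y * z) * t) * x)
      + sg ((xor i j) && (xor k l)) • (((z * t) * x) * y)
      + sg (l && (xor i (xor j k))) • (((t * x) * y) * z) := by
  refine ent_clos (F := fun x => sg (j && k) • ((x * z) * (y * t)))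
    (G := fun x => ((x * y) * z) * t
      + sg (i && (xor j (xor k l))) • (((y * z) * t) * x)
      + sg ((xor i j) && (xor k l)) • (((z * t) * x) * y)
      + sg (l && (xor i (xor j k))) • (((t * x) * y) * z))
    (fun a b => by simp only [add_mul, smul_add])
    (fun a b => by simp only [add_mul, mul_add, smul_add]; abel) ?_ hx
  rintro _ ⟨a, wa, hwa, rfl⟩
  refine ent_clos (F := fun y => sg (j && k) • ((T a wa * z) * (y * t)))
    (G := fun y => ((T a wa * y) * z) * t
      + sg (i && (xor j (xor k l))) • (((y * z) * t) * T a wa)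
      + sg ((xor i j) && (xor k l)) • (((z * t) * T a wa) * y)
      + sg (l && (xor i (xor j k))) • (((t * T a wa) * y) * z))
    (fun a b => by simp only [add_mul, mul_add, smul_add])
    (fun a b => by simp only [add_mul, mul_add, smul_add]; abel) ?_ hy
  rintro _ ⟨b, wb, hwb, rfl⟩
  refine ent_clos (F := fun z => sg (j && k) • ((T a wa * z) * (T b wb * t)))
    (G := fun z => ((T a wa * T b wb) * z) * t
      + sg (i && (xor j (xor k l))) • (((T b wb * z) * t) * T a wa)
      + sg ((xor i j) && (xor k l)) • (((z * t) * T a wa) * T b wb)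
      + sg (l && (xor i (xor j k))) • (((t * T a wa) * T b wb) * z))
    (fun a b => by simp only [add_mul, mul_add, smul_add])
    (fun a b => by simp only [add_mul, mul_add, smul_add]; abel) ?_ hz
  rintro _ ⟨c, wc, hwc, rfl⟩
  refine ent_clos
    (F := fun t => sg (j && k) • ((T a wa * T c wc) * (T b wb * t)))
    (G := fun t => ((T a wa * T b wb) * T c wc) * t
      + sg (i && (xor j (xor k l))) • (((T b wb * T c wc) * t) * T a wa)
      + sg ((xor i j) && (xor k l)) • (((T c wc * t) * T a wa) * T b wb)
      + sg (l && (xor i (xor j k))) • (((t * T a wa) * T b wb) * T c wc))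
    (fun a b => by simp only [mul_add, smul_add])
    (fun a b => by simp only [add_mul, mul_add, smul_add]; abel) ?_ ht
  rintro _ ⟨d, wd, hwd, rfl⟩
  simp only [h.mul]
  -- the words
  have h1 : (wa * wc) * (wb * wd) = sg (j && k) • (wa * wb * wc * wd) := by
    have h : wc * wb = sg (j && k) • (wb * wc) := by
      rw [Bool.and_comm]
      exact ent_comm hwc hwb
    calc (wa * wc) * (wb * wd) = wa * (wc * wb) * wd := by simp only [mul_assoc]
      _ = _ := by rw [h, mul_smul_comm, smul_mul_assoc, ← mul_assoc wa]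
  have h2 : wb * wc * wd * wa = sg (i && (xor j (xor k l))) • (wa * wb * wc * wd) := by
    have h := ent_comm (ent_mul (ent_mul hwb hwc) hwd) hwa
    rw [h, Bool.and_comm, Bool.xor_assoc]
    congr 1
    simp only [mul_assoc]
  have h3 : wc * wd * wa * wb = sg ((xor i j) && (xor k l)) • (wa * wb * wc * wd) := by
    have h := ent_comm (ent_mul hwc hwd) (ent_mul hwa hwb)
    rw [← mul_assoc] at h
    rw [h, Bool.and_comm]
    congr 1
    simp only [mul_assoc]
  have h4 : wd * wa * wb * wc = sg (l && (xor i (xor j k))) • (wa * wb * wc * wd) := by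
    have h := ent_comm hwd (ent_mul (ent_mul hwa hwb) hwc)
    rw [← Bool.xor_assoc]
    rw [← h]
    simp only [mul_assoc]
  rw [h1, h2, h3, h4]
  simp only [h.smul, smul_smul, ent_sgsg, one_smul]
  rw [← h.add, ← h.add, ← h.add, sagle]

private theorem ent_super [IsMalcev A] [TF A] (h : EntT T) :
    ∃ H : Super S, ∀ b, H.hom b = AddSubgroup.closure (entG T b) :=
  ⟨{ hom := fun b => AddSubgroup.closure (entG T b)
     mul_mem := ent_mul_mem h
     sq := ent_sq h
     ac := ent_ac h
     mal := ent_mal h }, fun _ => rfl⟩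

end ent

/-- The superalgebra `A ⊗ Λ`; `hom b` is the additive span of `a ⊗ w`, `w` a product of elements
of degree one, with `b` = parity of their number.
Proof: all axioms are additive in each argument, so they hold on the closures once they hold for
`a ⊗ w` (`AddSubgroup.closure_induction`, or: a homomorphism vanishing on a set vanishes on its
closure); there they follow from `sagle`, anticommutativity and
`w * w' = (-1)^(|w||w'|) w' * w` (double induction over lists from `ι u * ι v = - ι v * ι u`).
`sq`: closure induction, `(x+y)(x+y) = xx + yy + (xy + yx)` and `ac`. -/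
theorem exists_superT (A : Type*) [NonUnitalNonAssocRing A] [IsMalcev A] [TF A] :
    ∃ H : Super (A ⊗[ℤ] Lam), ∀ b, H.hom b =
      AddSubgroup.closure {s | ∃ (a : A) (w : Lam), w ∈ lamSet b ∧ s = a ⊗ₜ[ℤ] w} := by
  exact ent_super (T := fun a w => a ⊗ₜ[ℤ] w)
    ⟨fun a b w w' => Algebra.TensorProduct.tmul_mul_tmul a b w w',
      fun a b w => TensorProduct.add_tmul a b w, fun n a w => TensorProduct.tmul_smul n a w⟩

end Pool.Agent.MalF
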