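import Pool.Agent.MalF.EngT

/-!
# Products of generators in the exterior algebra (module ENY2)
-/

namespace Pool.Agent.MalF

/-- `w i` has degree one if `o i` and is `1` otherwise. -/
def Good (o : ℕ → Bool) (w : ℕ → Lam) : Prop :=
  ∀ i, (o i = true ∧ ∃ u, w i = ExteriorAlgebra.ι ℤ u) ∨ (o i = false ∧ w i = 1)

private theorem ENY2_sg_xor (a b : Bool) : sg (xor a b) = sg a * sg b := by
  cases a <;> cases b <;> simp [sg]

private theorem ENY2_sg_sq (a : Bool) : sg a * sg a = 1 := by
  cases a <;> simp [sg]

private theorem ENY2_comm {o : ℕ → Bool} {w : ℕ → Lam} (hw : Good o w) (i j : ℕ) :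
    w i * w j = sg (o i && o j) • (w j * w i) := by
  rcases hw i with ⟨hi, u, hu⟩ | ⟨hi, hu⟩
  · rcases hw j with ⟨hj, v, hv⟩ | ⟨hj, hv⟩
    · rw [hi, hj, hu, hv]
      have h := ExteriorAlgebra.ι_add_mul_swap (R := ℤ) u v
      have h2 := eq_neg_of_add_eq_zero_left h
      rw [h2]
      simp [sg]
    · rw [hi, hj, hv]
      simp [sg]
  · rw [hi, hu]
    simp [sg]

private theorem ENY2_inv1_perm (o : ℕ → Bool) (a : ℕ) {L L' : List ℕ} (h : L.Perm L') :
    inv1 o a L = inv1 o a L' := by
  induction h with
  | nil => rfl
  | cons b _ ih => simp only [inv1, ih]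
  | swap b c M =>
    simp only [inv1]
    rw [Bool.xor_left_comm]
  | trans _ _ ih1 ih2 => rw [ih1, ih2]

private theorem ENY2_oinv_swap (o : ℕ → Bool) {a b : ℕ} (hab : a ≠ b) (M : List ℕ) :
    oinv o (b :: a :: M) = xor (o a && o b) (oinv o (a :: b :: M)) := by
  simp only [oinv, inv1]
  have h : Nat.blt a b = !(Nat.blt b a) := by
    rcases lt_or_gt_of_ne hab with h | h
    · have h1 : Nat.blt a b = true := by simpa [Nat.blt_eq] using h
      have h2 : Nat.blt b a = false := by
        rw [Bool.eq_false_iff]
        intro h3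
        rw [Nat.blt_eq] at h3
        omega
      rw [h1, h2]
      rfl
    · have h1 : Nat.blt b a = true := by simpa [Nat.blt_eq] using h
      have h2 : Nat.blt a b = false := by
        rw [Bool.eq_false_iff]
        intro h3
        rw [Nat.blt_eq] at h3
        omega
      rw [h1, h2]
      rfl
  rw [h]
  cases o a <;> cases o b <;> cases Nat.blt b a <;> cases inv1 o a M <;> cases inv1 o b M <;>
    cases oinv o M <;> rfl

private theorem ENY2_inv {o : ℕ → Bool} {w : ℕ → Lam} (hw : Good o w) {L L' : List ℕ}
    (h : L.Perm L') : L.Nodup →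
      sg (oinv o L) • (L.map w).prod = sg (oinv o L') • (L'.map w).prod := by
  induction h with
  | nil => intro _; rfl
  | cons a hp ih =>
    rename_i l1 l2
    intro hn
    have h1 := ih (List.nodup_cons.1 hn).2
    simp only [oinv, List.map_cons, List.prod_cons]
    rw [ENY2_inv1_perm o a hp, ENY2_sg_xor, ENY2_sg_xor, mul_smul, mul_smul]
    congr 1
    rw [← mul_smul_comm (sg (oinv o l1)), ← mul_smul_comm (sg (oinv o l2)), h1]
  | swap a b M =>
    intro hn
    have hab : a ≠ b := by
      intro h
      rw [h] at hn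
      simp at hn
    rw [ENY2_oinv_swap o hab, ENY2_sg_xor, mul_comm, mul_smul]
    congr 1
    simp only [List.map_cons, List.prod_cons]
    rw [← mul_assoc, ENY2_comm hw b a, ← mul_assoc, smul_mul_assoc, smul_smul, Bool.and_comm,
      ENY2_sg_sq, one_smul]
  | trans h1 _ ih1 ih2 =>
    intro hn
    rw [ih1 hn, ih2 (h1.nodup_iff.1 hn)]

private theorem ENY2_inv1_false (o : ℕ → Bool) (a : ℕ) (L : List ℕ) (h : ∀ b ∈ L, a < b) :
    inv1 o a L = false := by
  induction L with
  | nil => rfl
  | cons b L ih =>
    simp only [inv1]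
    rw [ih fun c hc => h c (List.mem_cons_of_mem b hc)]
    have h1 := h b List.mem_cons_self
    have h2 : Nat.blt b a = false := by
      rw [Bool.eq_false_iff]
      intro h3
      rw [Nat.blt_eq] at h3
      omega
    rw [h2]
    simp

private theorem ENY2_oinv_sorted (o : ℕ → Bool) (L : List ℕ) (h : L.Pairwise (· < ·)) :
    oinv o L = false := by
  induction L with
  | nil => rfl
  | cons a L ih =>
    rw [List.pairwise_cons] at h
    simp only [oinv]
    rw [ih h.2, ENY2_inv1_false o a L h.1]
    simp

/-- ENY2.  Sorting a product.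
Proof: `w i * w j = sg (o i && o j) • (w j * w i)`; by insertion sort: moving `w a` behind all
smaller entries of a sorted list `L` costs `sg (o a && inv1 o a L)`, and `inv1 o a` is invariant
under permutations of `L`. -/
theorem lam_sort (o : ℕ → Bool) (n : ℕ) (w : ℕ → Lam) (hw : Good o w) (L : List ℕ)
    (hL : L.Perm (List.range n)) :
    (L.map w).prod = sg (oinv o L) • ((List.range n).map w).prod := by
  have h1 := ENY2_inv hw hL (hL.nodup_iff.2 List.nodup_range)
  rw [ENY2_oinv_sorted o _ List.pairwise_lt_range] at h1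
  have h2 : sg false = 1 := rfl
  rw [h2, one_smul] at h1
  rw [← h1, smul_smul, ENY2_sg_sq, one_smul]

/-- two letters in front -/
private theorem ENY2_front {n i j : ℕ} (hi : i < n) (hj : j < n) (hij : i ≠ j) :
    (i :: j :: ((List.range n).erase i).erase j).Perm (List.range n) := by
  have h1 : (List.range n).Perm (i :: (List.range n).erase i) :=
    List.perm_cons_erase (List.mem_range.2 hi)
  have h2 : ((List.range n).erase i).Perm (j :: ((List.range n).erase i).erase j) := by
    refine List.perm_cons_erase ?_
    rw [List.mem_erase_of_ne (Ne.symm hij)]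
    exact List.mem_range.2 hj
  exact (h1.trans (h2.cons i)).symm

/-- ENY2.  A repeated factor kills the product (`ι u * Q = ± Q * ι u` for a product `Q`). -/
theorem lam_zero (o : ℕ → Bool) (n : ℕ) (w : ℕ → Lam) (hw : Good o w) (i j : ℕ) (hi : i < n)
    (hj : j < n) (hij : i ≠ j) (hoi : o i = true) (hoj : o j = true) (h : w i = w j) :
    ((List.range n).map w).prod = 0 := by
  have h1 := lam_sort o n w hw _ (ENY2_front hi hj hij)
  rcases hw i with ⟨-, u, hu⟩ | ⟨hf, -⟩
  · have h2 : ((i :: j :: ((List.range n).erase i).erase j).map w).prod = 0 := by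
      simp only [List.map_cons, List.prod_cons]
      rw [← h, hu, ← mul_assoc, ExteriorAlgebra.ι_sq_zero, zero_mul]
    rw [h2] at h1
    have h3 := congrArg (fun z => sg (oinv o (i :: j :: ((List.range n).erase i).erase j)) • z) h1
    simp only [smul_zero, smul_smul, ENY2_sg_sq, one_smul] at h3
    exact h3.symm
  · rw [hoi] at hf
    exact absurd hf (by simp)

/-- ENY2.  Exchange of two factors of degree one changes the sign
(apply `lam_zero` to the polarisation, or move the factors). -/
theorem lam_swap (o : ℕ → Bool) (n : ℕ) (w : ℕ → Lam) (hw : Good o w) (i j : ℕ) (hi : i < n)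
    (hj : j < n) (hij : i ≠ j) (hoi : o i = true) (hoj : o j = true) :
    ((List.range n).map (fun k => w (Equiv.swap i j k))).prod = - ((List.range n).map w).prod := by
  have ho : ∀ k, o (Equiv.swap i j k) = o k := by
    intro k
    by_cases h1 : k = i
    · rw [h1, Equiv.swap_apply_left, hoi, hoj]
    · by_cases h2 : k = j
      · rw [h2, Equiv.swap_apply_right, hoi, hoj]
      · rw [Equiv.swap_apply_of_ne_of_ne h1 h2]
  have hw' : Good o fun k => w (Equiv.swap i j k) := by
    intro k
    have h1 := hw (Equiv.swap i j k)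
    rwa [ho] at h1
  have h1 := lam_sort o n w hw _ (ENY2_front hi hj hij)
  have h2 := lam_sort o n _ hw' _ (ENY2_front hi hj hij)
  have h3 : (((List.range n).erase i).erase j).map (fun k => w (Equiv.swap i j k)) =
      (((List.range n).erase i).erase j).map w := by
    refine List.map_congr_left fun k hk => ?_
    have hn1 : ((List.range n).erase i).Nodup := List.nodup_range.erase i
    have hk1 := (hn1.mem_erase_iff).1 hk
    have hk2 := (List.nodup_range.mem_erase_iff).1 hk1.2
    rw [Equiv.swap_apply_of_ne_of_ne hk2.1 hk1.1]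
  simp only [List.map_cons, List.prod_cons] at h1 h2
  rw [h3, Equiv.swap_apply_left, Equiv.swap_apply_right, ← mul_assoc, ENY2_comm hw j i, hoi, hoj,
    smul_mul_assoc, mul_assoc, h1, smul_smul] at h2
  have h4 := congrArg (fun z => sg (oinv o (i :: j :: ((List.range n).erase i).erase j)) • z) h2
  simp only [smul_smul] at h4
  rw [ENY2_sg_sq, one_smul, mul_comm (sg (true && true)), ← mul_assoc, ENY2_sg_sq, one_mul] at h4
  rw [← h4]
  simp [sg]

private theorem ENY2_filter (o : ℕ → Bool) (L : List ℕ) :
    (L.map (fun i => if o i then gen i else 1)).prod = ((L.filter fun i => o i).map gen).prod := by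
  induction L with
  | nil => rfl
  | cons a L ih =>
    rw [List.map_cons, List.prod_cons, ih]
    by_cases h : o a = true
    · rw [List.filter_cons_of_pos (by simpa using h), List.map_cons, List.prod_cons]
      simp [h]
    · rw [List.filter_cons_of_neg (by simpa using h)]
      simp [h]

/-- ENY2.  A linear functional which is `1` on the product of the generators with `o i`.
Proof: `k` = length of `L = (List.range n).filter o`; the product is
`ExteriorAlgebra.ιMulti ℤ k (fun i => Pi.single (L.get i) 1)`; take
`ExteriorAlgebra.liftAlternating` of the family which is `Matrix.detRowAlternating` composed with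
`v ↦ fun j => v (L.get j)` in degree `k` and `0` in the other degrees; the value is `det 1 = 1`. -/
theorem lam_phi (o : ℕ → Bool) (n : ℕ) : ∃ φ : Lam →ₗ[ℤ] ℤ,
    φ ((List.range n).map (fun i => if o i then gen i else 1)).prod = 1 := by
  classical
  obtain ⟨L, hL⟩ : ∃ L : List ℕ, L = (List.range n).filter fun i => o i := ⟨_, rfl⟩
  have hn : L.Nodup := by
    rw [hL]
    exact List.nodup_range.filter _
  refine ⟨ExteriorAlgebra.liftAlternating (R := ℤ) (M := ℕ → ℤ) (N := ℤ)
    (Function.update (β := fun m => (ℕ → ℤ) [⋀^Fin m]→ₗ[ℤ] ℤ) 0 L.length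
      ((Matrix.detRowAlternating (R := ℤ) (n := Fin L.length)).compLinearMap
        (LinearMap.funLeft ℤ ℤ L.get))), ?_⟩
  have h1 : ((List.range n).map (fun i => if o i then gen i else 1)).prod =
      ExteriorAlgebra.ιMulti ℤ L.length fun i => (Pi.single (L.get i) 1 : ℕ → ℤ) := by
    rw [ENY2_filter, ← hL, ExteriorAlgebra.ιMulti_apply]
    congr 1
    have h2 : (List.ofFn fun i => ExteriorAlgebra.ι ℤ (Pi.single (L.get i) 1 : ℕ → ℤ)) =
        List.map gen (List.ofFn L.get) := by
      rw [List.map_ofFn]
      rfl
    rw [h2, List.ofFn_get]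
  rw [h1, ExteriorAlgebra.liftAlternating_apply_ιMulti, Function.update_self,
    AlternatingMap.compLinearMap_apply]
  have h3 : (fun i => LinearMap.funLeft ℤ ℤ L.get (Pi.single (L.get i) 1 : ℕ → ℤ)) =
      (1 : Matrix (Fin L.length) (Fin L.length) ℤ) := by
    funext i j
    rw [LinearMap.funLeft_apply, Matrix.one_apply, Pi.single_apply]
    have h4 : L.get j = L.get i ↔ i = j :=
      ⟨fun h => (List.nodup_iff_injective_get.1 hn h).symm, fun h => by rw [h]⟩
    by_cases h : i = j
    · rw [if_pos (h4.2 h), if_pos h]
    · rw [if_neg fun h5 => h (h4.1 h5), if_neg h]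
  exact (congrArg Matrix.det h3).trans Matrix.det_one

end Pool.Agent.MalF
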