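import Pool.Agent.MalF.EngY1
import Pool.Agent.MalF.EngY2

/-!
# The engine: multilinear identities from super certificates (module ENX)
-/

namespace Pool.Agent.MalF

open TensorProduct Tr

/-- Every monomial of `P` contains every variable `0..n-1` exactly once. -/
def multi (n : ℕ) (P : Pol) : Bool :=
  P.all fun q => (Nat.beq q.2.leaves.length n) &&
    (List.range n).all fun i => q.2.leaves.any fun j => Nat.beq i j

namespace EnX

private theorem ev_congr {S : Type*} [Mul S] (x y : ℕ → S) :
    ∀ t : Tr, (∀ i ∈ t.leaves, x i = y i) → ev x t = ev y t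
  | v i, h => h i (by simp [leaves])
  | m a b, h => by
    have ha := ev_congr x y a (fun i hi => h i (by simp [leaves, hi]))
    have hb := ev_congr x y b (fun i hi => h i (by simp [leaves, hi]))
    simp only [ev, ha, hb]

private theorem ev_relab {S : Type*} [Mul S] (θ : ℕ → S) (g : ℕ → ℕ) :
    ∀ t : Tr, ev θ (t.relab g) = ev (fun i => θ (g i)) t
  | v i => rfl
  | m a b => by simp only [relab, ev, ev_relab θ g a, ev_relab θ g b]

section nfs
variable {S : Type*} [NonUnitalNonAssocRing S]

private theorem cmp_eq : ∀ a b : Tr, Tr.cmp a b = .eq → a = b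
  | v i, v j, h => by
    simp only [Tr.cmp] at h
    cases h1 : Nat.blt i j <;> cases h2 : Nat.beq i j <;> rw [h1, h2] at h <;> simp at h
    · rw [Nat.eq_of_beq_eq_true h2]
  | v _, m _ _, h => by simp [Tr.cmp] at h
  | m _ _, v _, h => by simp [Tr.cmp] at h
  | m a b, m c d, h => by
    simp only [Tr.cmp] at h
    cases h1 : Tr.cmp a c <;> rw [h1] at h <;> simp at h
    rw [cmp_eq a c h1, cmp_eq b d h]

private theorem ev_mem (H : Super S) (p : ℕ → Bool) (θ : ℕ → S) (hθ : ∀ i, θ i ∈ H.hom (p i)) :
    ∀ t : Tr, ev θ t ∈ H.hom (par p t)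
  | v i => hθ i
  | m a b => H.mul_mem (ev_mem H p θ hθ a) (ev_mem H p θ hθ b)

private theorem ev_mulN (H : Super S) (p : ℕ → Bool) (θ : ℕ → S)
    (hθ : ∀ i, θ i ∈ H.hom (p i)) (a b : Tr) :
    (mulN p a b).1 • ev θ (mulN p a b).2 = ev θ a * ev θ b := by
  have ha := ev_mem H p θ hθ a
  have hb := ev_mem H p θ hθ b
  unfold mulN
  cases h : Tr.cmp a b with
  | gt => simp [ev]
  | eq =>
    have hab := cmp_eq a b h
    subst hab
    cases hp : par p a with
    | true => simp [ev]
    | false =>
      rw [hp] at ha
      simp [H.sq ha]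
  | lt =>
    rw [H.ac ha hb]
    cases hp : par p a <;> cases hq : par p b <;> simp [ev, sg]

private theorem ev_nf (H : Super S) (p : ℕ → Bool) (θ : ℕ → S) (hθ : ∀ i, θ i ∈ H.hom (p i)) :
    ∀ t : Tr, (nf p t).1 • ev θ (nf p t).2 = ev θ t
  | v i => by simp [nf]
  | m a b => by
    have ha := ev_nf H p θ hθ a
    have hb := ev_nf H p θ hθ b
    have h := ev_mulN H p θ hθ (nf p a).2 (nf p b).2
    have h1 : ev θ (m a b) = ev θ a * ev θ b := rfl
    rw [h1, ← ha, ← hb]
    simp only [nf, mulS, smul_mul_assoc, mul_smul_comm, smul_smul]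
    rw [← h, smul_smul, mul_comm (nf p b).1 (nf p a).1]

end nfs

private theorem sg_sq (b : Bool) : sg b * sg b = 1 := by
  cases b <;> simp [sg]

/-- the extension of a function on `Fin n` by the identity -/
private def exf {n : ℕ} (r : Fin n → Fin n) (i : ℕ) : ℕ :=
  if h : i < n then (r ⟨i, h⟩ : ℕ) else i

private theorem exf_fin {n : ℕ} (r : Fin n → Fin n) (i : Fin n) : exf r (i : ℕ) = r i := by
  unfold exf
  rw [dif_pos i.2]

private theorem exf_id {n : ℕ} : exf (fun i : Fin n => i) = fun i => i := by
  funext i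
  unfold exf
  split_ifs <;> rfl

private theorem exf_swap {n : ℕ} (i j : Fin n) (τ : Fin n → Fin n) :
    exf (fun k => Equiv.swap i j (τ k)) = fun k => Equiv.swap (i : ℕ) (j : ℕ) (exf τ k) := by
  funext k
  unfold exf
  by_cases h : k < n
  · rw [dif_pos h, dif_pos h]
    show ((Equiv.swap i j (τ ⟨k, h⟩) : Fin n) : ℕ) = _
    rcases Decidable.em (τ ⟨k, h⟩ = i) with h1 | h1
    · rw [h1, Equiv.swap_apply_left, Equiv.swap_apply_left]
    · rcases Decidable.em (τ ⟨k, h⟩ = j) with h2 | h2
      · rw [h2, Equiv.swap_apply_right, Equiv.swap_apply_right]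
      · rw [Equiv.swap_apply_of_ne_of_ne h1 h2, Equiv.swap_apply_of_ne_of_ne]
        · exact fun h3 => h1 (Fin.ext h3)
        · exact fun h3 => h2 (Fin.ext h3)
  · rw [dif_neg h, dif_neg h, Equiv.swap_apply_of_ne_of_ne]
    · rintro rfl
      exact h i.2
    · rintro rfl
      exact h j.2

/-- a function which changes sign under the swaps inside the classes -/
private theorem sign_rule {n : ℕ} {X Y : Type*} [AddCommGroup Y] (c : Fin n → ℕ) (o : Fin n → Bool)
    (G : (ℕ → X) → Prop) (Φ : (ℕ → X) → Y)
    (hG : ∀ b, G b → ∀ i j : Fin n, i ≠ j → c i = c j → o i = true → o j = true →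
      G (fun k => b (Equiv.swap (i : ℕ) (j : ℕ) k)) ∧
      Φ (fun k => b (Equiv.swap (i : ℕ) (j : ℕ) k)) = -Φ b)
    (N : ℕ) : ∀ ρ : Equiv.Perm (Fin n), ρ.support.card ≤ N →
      (∀ i, c (ρ i) = c i) → (∀ i, o i = false → ρ i = i) → ∀ b, G b →
      Φ (fun k => b (exf ρ k)) = (Equiv.Perm.sign ρ : ℤ) • Φ b := by
  induction N with
  | zero =>
    intro ρ hρ _ _ b _
    have h1 : ρ = 1 := by
      rw [← Equiv.Perm.support_eq_empty_iff, ← Finset.card_eq_zero]
      omega
    rw [h1]
    have h2 : exf (⇑(1 : Equiv.Perm (Fin n))) = fun i => i := exf_id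
    rw [h2]
    simp
  | succ N ih =>
    intro ρ hρ hc ho b hb
    by_cases h1 : ρ = 1
    · exact ih ρ (by rw [h1]; simp) hc ho b hb
    · obtain ⟨i, hi⟩ : ∃ i, ρ i ≠ i := by
        by_contra hcon
        push Not at hcon
        exact h1 (Equiv.ext hcon)
      have h2 := Equiv.Perm.card_support_swap_mul hi
      set τ : Equiv.Perm (Fin n) := Equiv.swap i (ρ i) * ρ with hτ
      have h3 : ρ = Equiv.swap i (ρ i) * τ := by
        rw [hτ, ← mul_assoc, Equiv.swap_mul_self, one_mul]
      have hoi : o i = true := by
        by_contra hcon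
        exact hi (ho i (by simpa using hcon))
      have hoj : o (ρ i) = true := by
        by_contra hcon
        have h4 := ho (ρ i) (by simpa using hcon)
        exact hi (ρ.injective h4)
      have hsw : ∀ k, c (Equiv.swap i (ρ i) k) = c k := by
        intro k
        rcases Decidable.em (k = i) with h5 | h5
        · rw [h5, Equiv.swap_apply_left, hc]
        · rcases Decidable.em (k = ρ i) with h6 | h6
          · rw [h6, Equiv.swap_apply_right, hc]
          · rw [Equiv.swap_apply_of_ne_of_ne h5 h6]
      have h7 := ih τ (by omega) (fun k => by rw [hτ, Equiv.Perm.mul_apply, hsw, hc])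
        (fun k hk => by
          rw [hτ, Equiv.Perm.mul_apply, ho k hk, Equiv.swap_apply_of_ne_of_ne]
          · rintro rfl
            rw [hoi] at hk
            exact absurd hk (by simp)
          · rintro rfl
            rw [hoj] at hk
            exact absurd hk (by simp))
      obtain ⟨h8, h9⟩ := hG b hb i (ρ i) (Ne.symm hi) (hc i).symm hoi hoj
      have h10 := h7 _ h8
      have h11 : (fun k => b (exf ρ k)) =
          fun k => (fun k => b (Equiv.swap (i : ℕ) (ρ i : ℕ) k)) (exf τ k) := by
        funext k
        have h12 : exf ρ = exf (fun k => Equiv.swap i (ρ i) (τ k)) := by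
          congr 1
          funext k
          conv_lhs => rw [h3]
          rfl
        rw [h12, exf_swap]
      rw [h11, h10, h9]
      have h13 : (Equiv.Perm.sign ρ : ℤ) = - (Equiv.Perm.sign τ : ℤ) := by
        conv_lhs => rw [h3]
        rw [Equiv.Perm.sign_mul, Equiv.Perm.sign_swap (Ne.symm hi)]
        simp
      rw [h13, smul_neg, neg_smul]

private theorem sign_sq {n : ℕ} (ρ : Equiv.Perm (Fin n)) :
    (Equiv.Perm.sign ρ : ℤ) * (Equiv.Perm.sign ρ : ℤ) = 1 := by
  rcases Int.units_eq_one_or (Equiv.Perm.sign ρ) with h | h <;> rw [h] <;> simp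

/-- from neighbouring swaps to all swaps of an interval -/
private theorem swap_all {X Y : Type*} [AddCommGroup Y] (n : ℕ) (g : ℕ → ℕ) (o : ℕ → Bool)
    (Φ : (ℕ → X) → Y)
    (hgr : ∀ k < n, ∀ j < k, ∀ i < j, g i = g k → o i = true → g j = g i)
    (ho : ∀ i j, g i = g j → o i = o j)
    (halt : ∀ b : ℕ → X, ∀ i, i + 1 < n → g i = g (i + 1) → o i = true →
      Φ (fun k => b (Equiv.swap i (i + 1) k)) = - Φ b) (l : ℕ) :
    ∀ b : ℕ → X, ∀ i, i + (l + 1) < n → g i = g (i + (l + 1)) → o i = true →
      Φ (fun k => b (Equiv.swap i (i + (l + 1)) k)) = - Φ b := by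
  induction l with
  | zero => exact halt
  | succ l ih =>
    intro b i hi hg hoi
    have h1 : g (i + (l + 1)) = g i := hgr _ hi _ (by omega) _ (by omega) hg hoi
    have h2 := ih
    set q := i + (l + 1) with hq
    have hq1 : i + (l + 1 + 1) = q + 1 := by omega
    rw [hq1] at hg ⊢
    have hoq : o q = true := by rw [ho q i h1, hoi]
    have h3 : (fun k => b (Equiv.swap i (q + 1) k)) = fun k =>
        (fun k => (fun k => b (Equiv.swap q (q + 1) k)) (Equiv.swap i q k))
          (Equiv.swap q (q + 1) k) := by
      funext k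
      show b _ = b _
      congr 1
      have h4 : Equiv.swap i (q + 1) = Equiv.swap q (q + 1) * Equiv.swap i q * Equiv.swap q (q + 1) := by
        rw [Equiv.swap_mul_swap_mul_swap (by omega) (by omega), Equiv.swap_comm]
      rw [h4]
      rfl
    rw [h3, halt (fun k => (fun k => b (Equiv.swap q (q + 1) k)) (Equiv.swap i q k)) q (by omega)
      (by rw [h1, hg]) hoq, ih (fun k => b (Equiv.swap q (q + 1) k)) i (by omega) h1.symm hoi,
      halt b q (by omega) (by rw [h1, hg]) hoq]
    rw [neg_neg]

end EnX

open EnX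

/-- THE ENGINE.  `P` multilinear in the variables `0..n-1`; `g` = letter of a variable, `p` =
parity of a letter (`true` = odd); the variables of a letter form an interval; `a` is constant on
the even letters and `P` is skew in neighbouring variables of the same odd letter.
Proof.  `o i = p (g i)`.  In `A ⊗ Λ` put `θ L = ∑_{i < n, g i = L} a i ⊗ gen i` for odd `L` and
`θ L = a i ⊗ 1` (`i` the first variable with `g i = L`, or `0` if there is none) for even `L`.
`check_sound` gives `D • evP θ (superize g p P) = 0`.  By the definition of `superize` and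
`nf`-soundness (`ev θ (t.relab g) = ev (θ ∘ g) t`), `ev_sum`, `ev_tmul`, `lam_sort`:
`evP θ (superize g p P) = ∑_r evP (a ∘ r) P ⊗ Ω r`, `r : Fin n → Fin n` with `g (r i) = g i` for
odd and `r i = i` for even variables, `Ω r = ∏_{i<n} (if o i then gen (r i) else 1)`.  If `r` is not
injective, `Ω r = 0` (`lam_zero`).  Otherwise `r` is a permutation preserving the letters, a product
of swaps `(i j)` of variables of the same odd letter (these are products of neighbouring swaps in
the interval), and `evP (a ∘ r) P ⊗ Ω r = evP a P ⊗ Ω 1` (both factors change sign under such a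
swap).  With `m ≥ 1` the number of these `r`: `(D * m) • (evP a P ⊗ Ω 1) = 0`; apply `id ⊗ φ`
(`lam_phi`) and `TF`. -/
theorem engine {A : Type*} [NonUnitalNonAssocRing A] [IsMalcev A] [TF A] (n : ℕ) (g : ℕ → ℕ)
    (p : ℕ → Bool) (P : Pol) (D : ℤ) (cert : List Inst) (hm : multi n P = true) (hD : D ≠ 0)
    (hc : check g p P D cert = true)
    (hgr : ∀ k < n, ∀ j < k, ∀ i < j, g i = g k → p (g i) = true → g j = g i)
    (a : ℕ → A) (hev : ∀ i < n, ∀ j < n, g i = g j → p (g i) = false → a i = a j)
    (halt : ∀ b : ℕ → A, ∀ i, i + 1 < n → g i = g (i + 1) → p (g i) = true →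
      evP (fun k => b (Equiv.swap i (i + 1) k)) P = - evP b P) :
    evP a P = 0 := by
  classical
  -- the elements of the superalgebra
  let o : ℕ → Bool := fun i => p (g i)
  obtain ⟨H, hH⟩ := exists_superT A
  let θ : ℕ → A ⊗[ℤ] Lam := fun L =>
    if p L then ∑ j : Fin n, (if g j = L then a j ⊗ₜ[ℤ] gen j else 0)
    else if h : ∃ i, i < n ∧ g i = L then a h.choose ⊗ₜ[ℤ] 1 else 0
  have hθ : ∀ L, θ L ∈ H.hom (p L) := by
    intro L
    rw [hH]
    show (if p L then ∑ j : Fin n, (if g j = L then a j ⊗ₜ[ℤ] gen j else 0)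
      else if h : ∃ i, i < n ∧ g i = L then a h.choose ⊗ₜ[ℤ] 1 else 0) ∈ _
    cases hp : p L with
    | true =>
      rw [if_pos rfl]
      refine AddSubgroup.sum_mem _ fun j _ => ?_
      split_ifs
      · refine AddSubgroup.subset_closure ⟨a j, gen j, ⟨[Pi.single (j : ℕ) 1], by simp, ?_⟩, rfl⟩
        simp [gen]
      · exact AddSubgroup.zero_mem _
    | false =>
      rw [if_neg (by simp)]
      split_ifs with h
      · exact AddSubgroup.subset_closure ⟨_, 1, ⟨[], by simp, by simp⟩, rfl⟩
      · exact AddSubgroup.zero_mem _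
  have hD0 := check_sound H g p P D cert θ hθ hc
  -- the expansion
  let s : Fin n → Finset (Fin n) := fun i =>
    if o i then Finset.univ.filter (fun j : Fin n => g j = g i) else {i}
  let y : Fin n → Fin n → A ⊗[ℤ] Lam := fun i j => a j ⊗ₜ[ℤ] (if o i then gen j else 1)
  have hx : ∀ i : Fin n, θ (g i) = ∑ j ∈ s i, y i j := by
    intro i
    show (if p (g i) then ∑ j : Fin n, (if g j = g i then a j ⊗ₜ[ℤ] gen j else 0)
      else if h : ∃ k, k < n ∧ g k = g i then a h.choose ⊗ₜ[ℤ] 1 else 0) = _
    cases hp : p (g i) with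
    | true =>
      have ho : o i = true := hp
      show _ = ∑ j ∈ (if o i then Finset.univ.filter (fun j : Fin n => g j = g i) else {i}),
        a j ⊗ₜ[ℤ] (if o i then gen j else 1)
      simp only [ho, if_true]
      rw [Finset.sum_filter]
    | false =>
      have ho : o i = false := hp
      show _ = ∑ j ∈ (if o i then Finset.univ.filter (fun j : Fin n => g j = g i) else {i}),
        a j ⊗ₜ[ℤ] (if o i then gen j else 1)
      have h : ∃ k, k < n ∧ g k = g i := ⟨i, i.2, rfl⟩
      simp only [ho, Bool.false_eq_true, if_false, Finset.sum_singleton]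
      rw [dif_pos h, hev _ h.choose_spec.1 i i.2 h.choose_spec.2 (by rw [h.choose_spec.2, hp])]
  let w : (Fin n → Fin n) → ℕ → Lam := fun r i => if o i then gen (exf r i) else 1
  let a' : (Fin n → Fin n) → ℕ → A := fun r i => if i < n then a (exf r i) else 0
  have hgood : ∀ r, Good o (w r) := by
    intro r i
    cases h : o i with
    | true => exact Or.inl ⟨rfl, Pi.single (exf r i) 1, by simp [w, h, gen]⟩
    | false => exact Or.inr ⟨rfl, by simp [w, h]⟩
  let Ω : (Fin n → Fin n) → Lam := fun r => ((List.range n).map (w r)).prod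
  have hperm : ∀ q ∈ P, q.2.leaves.Perm (List.range n) := by
    intro q hq
    unfold multi at hm
    rw [List.all_eq_true] at hm
    have h1 := hm q hq
    rw [Bool.and_eq_true, List.all_eq_true] at h1
    obtain ⟨h2, h3⟩ := h1
    have h4 : q.2.leaves.length = n := Nat.eq_of_beq_eq_true h2
    have h5 : (List.range n) ⊆ q.2.leaves := by
      intro i hi
      have h6 := h3 i hi
      rw [List.any_eq_true] at h6
      obtain ⟨j, hj, h7⟩ := h6
      rwa [Nat.eq_of_beq_eq_true h7]
    have h8 := List.subperm_of_subset List.nodup_range h5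
    exact (h8.perm_of_length_le (by rw [h4, List.length_range])).symm
  have hfun : ∀ r : Fin n → Fin n, (fun i => if h : i < n then y ⟨i, h⟩ (r ⟨i, h⟩) else 0) =
      fun i => a' r i ⊗ₜ[ℤ] w r i := by
    intro r
    funext i
    by_cases h : i < n
    · rw [dif_pos h]
      show a (r ⟨i, h⟩) ⊗ₜ[ℤ] (if o i then gen (r ⟨i, h⟩) else 1) =
        (if i < n then a (exf r i) else 0) ⊗ₜ[ℤ] (if o i then gen (exf r i) else 1)
      have h1 : exf r i = r ⟨i, h⟩ := by
        unfold exf
        rw [dif_pos h]
      rw [if_pos h, h1]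
    · rw [dif_neg h]
      show 0 = (if i < n then a (exf r i) else 0) ⊗ₜ[ℤ] w r i
      rw [if_neg h, TensorProduct.zero_tmul]
  have hterm : ∀ q ∈ P, ev (fun i => θ (g i)) q.2 = ∑ r ∈ Fintype.piFinset s,
      ev (fun i => a (exf r i)) q.2 ⊗ₜ[ℤ] (sg (oinv o q.2.leaves) • Ω r) := by
    intro q hq
    rw [ev_sum n q.2 (hperm q hq) s y (fun i => θ (g i)) hx]
    refine Finset.sum_congr rfl fun r _ => ?_
    rw [hfun, ev_tmul, lam_sort o n (w r) (hgood r) _ (hperm q hq)]
    congr 1
    refine ev_congr _ _ _ fun i hi => ?_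
    rw [(hperm q hq).mem_iff, List.mem_range] at hi
    show (if i < n then a (exf r i) else 0) = _
    rw [if_pos hi]
  have hsup : ∀ Q : Pol, (∀ q ∈ Q, q ∈ P) → evP θ (superize g p Q) =
      ∑ r ∈ Fintype.piFinset s, evP (fun i => a (exf r i)) Q ⊗ₜ[ℤ] Ω r := by
    intro Q
    induction Q with
    | nil =>
      intro _
      simp [superize, evP]
    | cons q L ih =>
      intro hQ
      have h1 : evP θ (superize g p (q :: L)) =
          (q.1 * sg (oinv o q.2.leaves) * (nf p (q.2.relab g)).1) •
            ev θ (nf p (q.2.relab g)).2 + evP θ (superize g p L) := rfl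
      rw [h1, ih fun q' hq' => hQ q' (List.mem_cons_of_mem _ hq'), mul_smul, ev_nf H p θ hθ,
        ev_relab, hterm q (hQ q List.mem_cons_self), Finset.smul_sum, ← Finset.sum_add_distrib]
      refine Finset.sum_congr rfl fun r _ => ?_
      show _ = (q.1 • ev (fun i => a (exf r i)) q.2 + evP (fun i => a (exf r i)) L) ⊗ₜ[ℤ] Ω r
      rw [TensorProduct.add_tmul, TensorProduct.tmul_smul, smul_smul, mul_assoc, sg_sq, mul_one,
        TensorProduct.smul_tmul']
  rw [hsup P fun q hq => hq] at hD0
  -- the terms
  have ho_congr : ∀ i j, g i = g j → o i = o j := by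
    intro i j h
    show p (g i) = p (g j)
    rw [h]
  have hrs : ∀ r ∈ Fintype.piFinset s, (∀ i, g (r i) = g i) ∧ ∀ i : Fin n, o i = false → r i = i := by
    intro r hr
    rw [Fintype.mem_piFinset] at hr
    have h1 : ∀ i : Fin n, o i = false → r i = i := by
      intro i hi
      have h2 := hr i
      simp only [s, hi, Bool.false_eq_true, if_false, Finset.mem_singleton] at h2
      exact h2
    refine ⟨fun i => ?_, h1⟩
    cases hi : o i with
    | true =>
      have h2 := hr i
      simp only [s, hi, if_true, Finset.mem_filter, Finset.mem_univ, true_and] at h2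
      exact h2
    | false => rw [h1 i hi]
  have hval : ∀ r ∈ Fintype.piFinset s, evP (fun i => a (exf r i)) P ⊗ₜ[ℤ] Ω r =
      if Function.Injective r then evP a P ⊗ₜ[ℤ] Ω (fun i => i) else 0 := by
    intro r hr
    obtain ⟨hg1, ho1⟩ := hrs r hr
    by_cases hinj : Function.Injective r
    · rw [if_pos hinj]
      let ρ : Equiv.Perm (Fin n) := Equiv.ofBijective r
        ⟨hinj, Finite.injective_iff_surjective.1 hinj⟩
      have hρ : (ρ : Fin n → Fin n) = r := rfl
      have e1 := sign_rule (fun i : Fin n => g i) (fun i : Fin n => o i) (fun _ => True)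
        (fun b : ℕ → A => evP b P) (fun b _ i j hij hgij hoi hoj => by
          refine ⟨trivial, ?_⟩
          rcases lt_trichotomy (i : ℕ) (j : ℕ) with h | h | h
          · obtain ⟨l, hl⟩ : ∃ l, (j : ℕ) = i + (l + 1) := ⟨j - i - 1, by omega⟩
            have h2 := swap_all n g o (fun b : ℕ → A => evP b P) hgr ho_congr halt l b i
              (by omega) (by rw [← hl]; exact hgij) hoi
            rw [← hl] at h2
            exact h2
          · exact absurd (Fin.ext h) hij
          · obtain ⟨l, hl⟩ : ∃ l, (i : ℕ) = j + (l + 1) := ⟨i - j - 1, by omega⟩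
            have h2 := swap_all n g o (fun b : ℕ → A => evP b P) hgr ho_congr halt l b j
              (by omega) (by rw [← hl]; exact hgij.symm) hoj
            rw [← hl, Equiv.swap_comm] at h2
            exact h2) ρ.support.card ρ le_rfl hg1 ho1 a trivial
      have e2 := sign_rule (fun i : Fin n => g i) (fun i : Fin n => o i)
        (fun b : ℕ → Lam => Good o b)
        (fun b : ℕ → Lam => ((List.range n).map b).prod) (fun b hb i j hij hgij hoi hoj => by
          refine ⟨?_, lam_swap o n b hb i j i.2 j.2 (fun h => hij (Fin.ext h)) hoi hoj⟩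
          intro k
          rcases Decidable.em (k = (i : ℕ)) with h | h
          · subst h
            show (_ ∧ ∃ u, b (Equiv.swap (i : ℕ) (j : ℕ) (i : ℕ)) = _) ∨
              (_ ∧ b (Equiv.swap (i : ℕ) (j : ℕ) (i : ℕ)) = 1)
            rw [Equiv.swap_apply_left]
            rcases hb j with h1 | h1
            · exact Or.inl ⟨hoi, h1.2⟩
            · exact absurd (hoj.symm.trans h1.1) (by simp)
          · rcases Decidable.em (k = (j : ℕ)) with h' | h'
            · subst h'
              show (_ ∧ ∃ u, b (Equiv.swap (i : ℕ) (j : ℕ) (j : ℕ)) = _) ∨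
                (_ ∧ b (Equiv.swap (i : ℕ) (j : ℕ) (j : ℕ)) = 1)
              rw [Equiv.swap_apply_right]
              rcases hb i with h1 | h1
              · exact Or.inl ⟨hoj, h1.2⟩
              · exact absurd (hoi.symm.trans h1.1) (by simp)
            · show (_ ∧ ∃ u, b (Equiv.swap (i : ℕ) (j : ℕ) k) = _) ∨
                (_ ∧ b (Equiv.swap (i : ℕ) (j : ℕ) k) = 1)
              rw [Equiv.swap_apply_of_ne_of_ne h h']
              exact hb k) ρ.support.card ρ le_rfl hg1 ho1 (w (fun i => i)) (hgood _)
      have e3 : (fun k => w (fun i => i) (exf ρ k)) = w r := by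
        funext k
        show (if o (exf ρ k) then gen (exf (fun i => i) (exf ρ k)) else 1) =
          if o k then gen (exf r k) else 1
        rw [hρ, exf_id]
        have h1 : o (exf r k) = o k := by
          apply ho_congr
          unfold exf
          split_ifs with h
          · exact hg1 ⟨k, h⟩
          · rfl
        rw [h1]
      rw [e3] at e2
      have e4 : Ω r = (Equiv.Perm.sign ρ : ℤ) • Ω (fun i => i) := e2
      have e5 : evP (fun i => a (exf r i)) P = (Equiv.Perm.sign ρ : ℤ) • evP a P := e1
      rw [e4, e5, TensorProduct.tmul_smul, ← TensorProduct.smul_tmul', smul_smul, sign_sq, one_smul]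
    · rw [if_neg hinj]
      unfold Function.Injective at hinj
      push Not at hinj
      obtain ⟨i, j, hij, hne⟩ := hinj
      have hoi : o i = true := by
        by_contra hcon
        have h1 : o i = false := by simpa using hcon
        have h2 := ho1 i h1
        have h3 := hg1 j
        rw [← hij, h2] at h3
        have h4 : o j = false := by rw [← ho_congr _ _ h3]; exact h1
        have h5 := ho1 j h4
        rw [h2, h5] at hij
        exact hne hij
      have hoj : o j = true := by
        by_contra hcon
        have h1 : o j = false := by simpa using hcon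
        have h2 := ho1 j h1
        have h3 := hg1 i
        rw [hij, h2] at h3
        have h4 : o i = false := by rw [← ho_congr _ _ h3]; exact h1
        rw [hoi] at h4
        exact absurd h4 (by simp)
      have h1 : Ω r = 0 := by
        refine lam_zero o n (w r) (hgood r) i j i.2 j.2 (fun h => hne (Fin.ext h)) hoi hoj ?_
        show (if o i then gen (exf r i) else 1) = if o j then gen (exf r j) else 1
        rw [hoi, hoj, exf_fin, exf_fin, hij]
      rw [h1, TensorProduct.tmul_zero]
  rw [Finset.sum_congr rfl hval, ← Finset.sum_filter, Finset.sum_const, ← natCast_zsmul,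
    smul_smul] at hD0
  obtain ⟨φ, hφ⟩ := lam_phi o n
  have hΩ : Ω (fun i => i) = ((List.range n).map (fun i => if o i then gen i else 1)).prod := by
    show ((List.range n).map (w (fun i => i))).prod = _
    congr 2
    funext i
    show (if o i then gen (exf (fun i => i) i) else 1) = _
    rw [exf_id]
  have h1 := congrArg (fun z => TensorProduct.rid ℤ A (LinearMap.lTensor A φ z)) hD0
  simp only [map_smul, LinearMap.lTensor_tmul, TensorProduct.rid_tmul, map_zero] at h1
  rw [hΩ, hφ, one_smul] at h1
  refine TF.tf _ _ (mul_ne_zero hD ?_) h1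
  have h2 : (fun i => i) ∈ (Fintype.piFinset s).filter fun r => Function.Injective r := by
    rw [Finset.mem_filter, Fintype.mem_piFinset]
    refine ⟨fun i => ?_, fun i j h => h⟩
    show i ∈ if o i then Finset.univ.filter (fun j : Fin n => g j = g i) else {i}
    split_ifs
    · exact Finset.mem_filter.2 ⟨Finset.mem_univ _, rfl⟩
    · exact Finset.mem_singleton_self i
  have h3 := Finset.card_pos.2 ⟨_, h2⟩
  omega

/-- The version without odd letters and repetitions. -/
theorem engine0 {A : Type*} [NonUnitalNonAssocRing A] [IsMalcev A] [TF A] (n : ℕ) (P : Pol)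
    (D : ℤ) (cert : List Inst) (hm : multi n P = true) (hD : D ≠ 0)
    (hc : check id (fun _ => false) P D cert = true) (a : ℕ → A) : evP a P = 0 :=
  engine n id (fun _ => false) P D cert hm hD hc (fun k _ j _ i _ _ h => by simp at h) a
    (fun i _ j _ h _ => by rw [show i = j from h]) (fun b i _ _ h => by simp at h)

end Pool.Agent.MalF
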