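import Pool.Agent.MalF.EngT

/-!
# Multilinear expansion of monomials (module ENY1)
-/

namespace Pool.Agent.MalF

open TensorProduct Tr

private theorem evCongr {S : Type*} [Mul S] (x y : ℕ → S) :
    ∀ t : Tr, (∀ i ∈ t.leaves, x i = y i) → ev x t = ev y t
  | v i, h => h i (by simp [leaves])
  | m a b, h => by
    have ha := evCongr x y a (fun i hi => h i (by simp [leaves, hi]))
    have hb := evCongr x y b (fun i hi => h i (by simp [leaves, hi]))
    simp only [ev, ha, hb]

private theorem evAdd {S : Type*} [NonUnitalNonAssocRing S] (x : ℕ → S) (i : ℕ) (u w : S) :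
    ∀ t : Tr, t.leaves.Nodup → i ∈ t.leaves →
      ev (Function.update x i (u + w)) t =
        ev (Function.update x i u) t + ev (Function.update x i w) t
  | v j, _, h => by
    have : i = j := by simpa [leaves] using h
    subst this
    simp [ev]
  | m a b, hn, h => by
    simp only [leaves] at hn h
    rw [List.nodup_append] at hn
    obtain ⟨ha, hb, hd⟩ := hn
    rcases List.mem_append.1 h with h1 | h1
    · have hib : i ∉ b.leaves := fun h2 => hd i h1 i h2 rfl
      have e1 := evAdd x i u w a ha h1
      have e2 : ∀ z, ev (Function.update x i z) b = ev x b := fun z =>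
        evCongr _ _ b (fun j hj => Function.update_of_ne (by rintro rfl; exact hib hj) _ _)
      simp only [ev, e1, e2, add_mul]
    · have hia : i ∉ a.leaves := fun h2 => hd i h2 i h1 rfl
      have e1 := evAdd x i u w b hb h1
      have e2 : ∀ z, ev (Function.update x i z) a = ev x a := fun z =>
        evCongr _ _ a (fun j hj => Function.update_of_ne (by rintro rfl; exact hia hj) _ _)
      simp only [ev, e1, e2, mul_add]

private def ext0 {S : Type*} [Zero S] (n : ℕ) (y : Fin n → S) : ℕ → S :=
  fun i => if h : i < n then y ⟨i, h⟩ else 0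

private theorem ext0_update {S : Type*} [Zero S] (n : ℕ) (y : Fin n → S) (i : Fin n) (u : S) :
    ext0 n (Function.update y i u) = Function.update (ext0 n y) (i : ℕ) u := by
  funext j
  unfold ext0
  by_cases h : j < n
  · rw [dif_pos h]
    by_cases hj : j = i
    · subst hj
      rw [Function.update_self]
      rw [Function.update_self]
    · rw [Function.update_of_ne hj, dif_pos h, Function.update_of_ne]
      intro h2
      apply hj
      rw [← h2]
  · rw [dif_neg h]
    have : j ≠ i := fun h2 => h (h2 ▸ i.2)
    rw [Function.update_of_ne this, dif_neg h]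

private def evMul {S : Type*} [NonUnitalNonAssocRing S] (n : ℕ) (t : Tr)
    (ht : t.leaves.Perm (List.range n)) : MultilinearMap ℤ (fun _ : Fin n => S) S where
  toFun y := ev (ext0 n y) t
  map_update_add' := by
    intro inst y i u w
    have : inst = instDecidableEqFin n := Subsingleton.elim _ _
    subst this
    rw [ext0_update, ext0_update, ext0_update]
    refine evAdd _ _ _ _ _ (ht.nodup_iff.2 List.nodup_range) ?_
    rw [ht.mem_iff, List.mem_range]
    exact i.2
  map_update_smul' := by
    intro inst y i c u
    have : inst = instDecidableEqFin n := Subsingleton.elim _ _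
    subst this
    rw [ext0_update, ext0_update]
    have hadd : ∀ u w, ev (Function.update (ext0 n y) (i : ℕ) (u + w)) t =
        ev (Function.update (ext0 n y) (i : ℕ) u) t +
          ev (Function.update (ext0 n y) (i : ℕ) w) t := by
      intro u w
      refine evAdd _ _ _ _ _ (ht.nodup_iff.2 List.nodup_range) ?_
      rw [ht.mem_iff, List.mem_range]
      exact i.2
    exact map_zsmul (AddMonoidHom.mk' (fun u => ev (Function.update (ext0 n y) (i : ℕ) u) t)
      hadd) c u

/-- ENY1.  Multilinear expansion of a monomial which contains every variable `0..n-1` exactly once.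
Proof: `(u, t) ↦ ev (update x i u) t` is additive in `u` as `i` occurs exactly once in `t`
(induction on `t`: a leaf occurs in exactly one of the two factors), so `x ↦ ev x t` is a
multilinear map of `Fin n → S` (over `ℤ`), then `MultilinearMap.map_sum_finset`. -/
theorem ev_sum {S : Type*} [NonUnitalNonAssocRing S] (n : ℕ) (t : Tr)
    (ht : t.leaves.Perm (List.range n)) (s : Fin n → Finset (Fin n)) (y : Fin n → Fin n → S)
    (x : ℕ → S) (hx : ∀ i : Fin n, x i = ∑ j ∈ s i, y i j) :
    ev x t = ∑ r ∈ Fintype.piFinset s,
      ev (fun i => if h : i < n then y ⟨i, h⟩ (r ⟨i, h⟩) else 0) t := by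
  have h1 : ev x t = evMul n t ht (fun i => ∑ j ∈ s i, y i j) := by
    refine evCongr _ _ t (fun i hi => ?_)
    rw [ht.mem_iff, List.mem_range] at hi
    unfold ext0
    rw [dif_pos hi]
    exact hx ⟨i, hi⟩
  rw [h1, MultilinearMap.map_sum_finset]
  rfl

/-- ENY1.  Evaluation at pure tensors (induction on `t`). -/
theorem ev_tmul {A : Type*} [NonUnitalNonAssocRing A] (a : ℕ → A) (w : ℕ → Lam) (t : Tr) :
    ev (fun i => a i ⊗ₜ[ℤ] w i) t = ev a t ⊗ₜ[ℤ] (t.leaves.map w).prod := by
  induction t with
  | v i => simp [ev, leaves]
  | m p q hp hq =>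
    simp only [ev, leaves, List.map_append, List.prod_append]
    rw [hp, hq, Algebra.TensorProduct.tmul_mul_tmul]

end Pool.Agent.MalF
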