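import Pool.Agent.MalF.Tree

/-!
# Values of trees
-/

namespace Pool.Agent.MalF

theorem evm_mul {X A : Type*} [Mul A] (x : X → A) (s t : FreeMagma X) :
    evm x (s * t) = evm x s * evm x t := rfl

theorem evm_of {X A : Type*} [Mul A] (x : X → A) (i : X) : evm x (FreeMagma.of i) = x i := rfl

end Pool.Agent.MalF
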