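import Pool.Agent.MalF.TreeE

/-!
# Expansion of trees (module EXP, section 6)
-/

namespace Pool.Agent.MalF

namespace EXP

section
variable {F A K C α : Type*} [Field F] [NonUnitalNonAssocRing A] [Module F A]
    [IsScalarTower F A A] [SMulCommClass F A A] [CommRing K] [Algebra F K]
    [AddCommGroup C] [Module F C] [Module K C] [IsScalarTower F K C]

/-- the leaves of the scalars -/
private def fl (L : List (FreeMagma α × FreeMagma α)) : List α :=
  L.flatMap fun q => lv q.1 ++ lv q.2

private theorem fl_append (L L' : List (FreeMagma α × FreeMagma α)) :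
    fl (L ++ L') = fl L ++ fl L' := by
  unfold fl
  rw [List.flatMap_append]

/-- the product of the scalars -/
private def pr (D : FD F A K C) (L : List (FreeMagma α × FreeMagma α)) (x : α → A) : K :=
  (L.map fun q => D.E (evm x q.1) (evm x q.2)).prod

/-- combinations of products of small scalars -/
private def SC (D : FD F A K C) (M : Multiset α) : Submodule F ((α → A) → K) :=
  Submodule.span F {f | ∃ L : List (FreeMagma α × FreeMagma α), L ≠ [] ∧
    (∀ q ∈ L, q.1.length ≤ 4 ∧ q.2.length ≤ 4) ∧ (fl L : Multiset α) = M ∧ f = pr D L}

private theorem SC_mul (D : FD F A K C) {M M' : Multiset α} {f g : (α → A) → K}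
    (hf : f ∈ SC D M) (hg : g ∈ SC D M') : f * g ∈ SC D (M + M') := by
  have h := Submodule.mul_mem_mul hf hg
  unfold SC at h
  rw [Submodule.span_mul_span] at h
  refine Submodule.span_le.2 ?_ h
  rintro _ ⟨f', ⟨L, h1, h2, h3, rfl⟩, g', ⟨L', h4, h5, h6, rfl⟩, rfl⟩
  refine Submodule.subset_span ⟨L ++ L', fun h7 => h1 (List.append_eq_nil_iff.1 h7).1,
    fun q hq => ?_, ?_, ?_⟩
  · rcases List.mem_append.1 hq with h7 | h7
    · exact h2 q h7
    · exact h5 q h7
  · rw [fl_append, ← Multiset.coe_add, h3, h6]
  · funext x
    show pr D L x * pr D L' x = pr D (L ++ L') x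
    unfold pr
    rw [List.map_append, List.prod_append]

private theorem list_SC (D : FD F A K C) {l : List α} {f : (α → A) → K}
    (h : f ∈ SC D (l : Multiset α)) :
    ∃ L : List (F × List (FreeMagma α × FreeMagma α)),
      (∀ T ∈ L, T.2 ≠ [] ∧ (∀ q ∈ T.2, q.1.length ≤ 4 ∧ q.2.length ≤ 4) ∧
        (T.2.flatMap fun q => lv q.1 ++ lv q.2).Perm l) ∧
      ∀ x : α → A, f x =
        (L.map fun T => T.1 • (T.2.map fun q => D.E (evm x q.1) (evm x q.2)).prod).sum := by
  unfold SC at h
  induction h using Submodule.span_induction with
  | mem f hf =>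
    obtain ⟨L, h1, h2, h3, rfl⟩ := hf
    refine ⟨[(1, L)], ?_, fun x => by simp [pr]⟩
    intro u hu
    rw [List.mem_singleton] at hu
    subst hu
    exact ⟨h1, h2, Multiset.coe_eq_coe.1 h3⟩
  | zero => exact ⟨[], by simp, fun x => by simp⟩
  | add f g _ _ hf hg =>
    obtain ⟨L, h1, h2⟩ := hf
    obtain ⟨L', h3, h4⟩ := hg
    refine ⟨L ++ L', fun q hq => ?_, fun x => ?_⟩
    · rcases List.mem_append.1 hq with h | h
      · exact h1 q h
      · exact h3 q h
    · rw [Pi.add_apply, h2, h4, List.map_append, List.sum_append]
  | smul c f _ hf =>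
    obtain ⟨L, h1, h2⟩ := hf
    refine ⟨L.map fun q => (c * q.1, q.2), fun q hq => ?_, fun x => ?_⟩
    · obtain ⟨q', hq', rfl⟩ := List.mem_map.1 hq
      exact h1 q' hq'
    · rw [Pi.smul_apply, h2, List.smul_sum, List.map_map, List.map_map]
      congr 1
      refine List.map_congr_left fun q _ => ?_
      simp only [Function.comp_apply, mul_smul]

/-- combinations of terms -/
private def VC (D : FD F A K C) (M : Multiset α) : Submodule F ((α → A) → C) :=
  Submodule.span F {f | ∃ (L : List (FreeMagma α × FreeMagma α)) (v : FreeMagma α),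
    2 ≤ v.length ∧ v.length ≤ 4 ∧
    (∀ q ∈ L, q.1.length ≤ 4 ∧ q.2.length ≤ 4) ∧ ((lv v ++ fl L : List α) : Multiset α) = M ∧
    f = fun x => pr D L x • D.c (evm x v)}

private theorem VC_smul (D : FD F A K C) {M M' : Multiset α} {f : (α → A) → K}
    {g : (α → A) → C} (hf : f ∈ SC D M) (hg : g ∈ VC D M') :
    (fun x => f x • g x) ∈ VC D (M + M') := by
  unfold SC at hf
  induction hf using Submodule.span_induction with
  | mem f hf =>
    obtain ⟨L, h1, h2, h3, rfl⟩ := hf
    unfold VC at hg
    induction hg using Submodule.span_induction with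
    | mem g hg =>
      obtain ⟨L', v, h4, h5, h6, h7, rfl⟩ := hg
      refine Submodule.subset_span ⟨L ++ L', v, h4, h5, fun q hq => ?_, ?_, ?_⟩
      · rcases List.mem_append.1 hq with h | h
        · exact h2 q h
        · exact h6 q h
      · rw [fl_append, ← h3, ← h7]
        simp only [← Multiset.coe_add]
        abel
      · funext x
        unfold pr
        rw [List.map_append, List.prod_append, mul_smul]
    | zero =>
      convert Submodule.zero_mem (VC D (M + M')) using 1
      funext x
      simp
    | add g g' _ _ h h' =>
      convert Submodule.add_mem _ h h' using 1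
      funext x
      simp only [Pi.add_apply, smul_add]
    | smul c g _ h =>
      convert Submodule.smul_mem _ c h using 1
      funext x
      simp only [Pi.smul_apply]
      rw [smul_comm]
  | zero =>
    convert Submodule.zero_mem (VC D (M + M')) using 1
    funext x
    simp
  | add f f' _ _ h h' =>
    convert Submodule.add_mem _ h h' using 1
    funext x
    simp only [Pi.add_apply, add_smul]
  | smul c f _ h =>
    convert Submodule.smul_mem _ c h using 1
    funext x
    simp only [Pi.smul_apply]
    rw [smul_assoc]

private theorem list_VC (D : FD F A K C) {l : List α} {f : (α → A) → C}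
    (h : f ∈ VC D (l : Multiset α)) :
    ∃ L : List (ETerm F α), (∀ T ∈ L, T.small ∧ T.leaves.Perm l) ∧
      ∀ x : α → A, f x = (L.map (D.evE x)).sum := by
  unfold VC at h
  induction h using Submodule.span_induction with
  | mem f hf =>
    obtain ⟨L, v, h1, h2, h3, h4, rfl⟩ := hf
    refine ⟨[⟨1, L, v⟩], ?_, fun x => by simp [pr, FD.evE]⟩
    intro u hu
    rw [List.mem_singleton] at hu
    subst hu
    exact ⟨⟨h1, h2, h3⟩, Multiset.coe_eq_coe.1 h4⟩
  | zero => exact ⟨[], by simp, fun x => by simp⟩
  | add f g _ _ hf hg =>
    obtain ⟨L, h1, h2⟩ := hf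
    obtain ⟨L', h3, h4⟩ := hg
    refine ⟨L ++ L', fun q hq => ?_, fun x => ?_⟩
    · rcases List.mem_append.1 hq with h | h
      · exact h1 q h
      · exact h3 q h
    · rw [Pi.add_apply, h2, h4, List.map_append, List.sum_append]
  | smul c f _ hf =>
    obtain ⟨L, h1, h2⟩ := hf
    refine ⟨L.map fun q => ⟨c * q.co, q.sc, q.vec⟩, fun q hq => ?_, fun x => ?_⟩
    · obtain ⟨q', hq', rfl⟩ := List.mem_map.1 hq
      exact h1 q' hq'
    · rw [Pi.smul_apply, h2, List.smul_sum, List.map_map, List.map_map]
      congr 1
      refine List.map_congr_left fun q _ => ?_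
      simp only [Function.comp_apply, FD.evE, mul_smul]

end

section
variable {F A K C α : Type*} [Field F] [CharZero F] [NonUnitalNonAssocRing A] [Module F A]
    [IsScalarTower F A A] [SMulCommClass F A A] [IsMalcev A] [TF A] [CommRing K] [Algebra F K]
    [AddCommGroup C] [Module F C] [Module K C] [IsScalarTower F K C]

private theorem scal (D : FD F A K C) (n : ℕ) : ∀ s u : FreeMagma α, s.length + u.length ≤ n →
    (fun x : α → A => D.E (evm x s) (evm x u)) ∈ SC D ((lv s ++ lv u : List α) : Multiset α) := by
  induction n with
  | zero =>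
    intro s u h
    have := FreeMagma.length_pos s
    omega
  | succ n ih =>
    -- one side has at least five leaves
    have key : ∀ s u : FreeMagma α, s.length + u.length ≤ n + 1 → 5 ≤ s.length →
        (fun x : α → A => D.E (evm x s) (evm x u)) ∈
          SC D ((lv s ++ lv u : List α) : Multiset α) := by
      intro s u h hs
      obtain ⟨L, h1, h2⟩ := tree_e (F := F) (A := A) s hs
      have h3 : (fun x : α → A => D.E (evm x s) (evm x u)) = fun x => D.E
          (L.map fun q => q.1 • e (evm x q.2.1) (evm x q.2.2.1) (evm x q.2.2.2.1)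
          (evm x q.2.2.2.2)).sum (evm x u) := by
        funext x
        rw [h2 x]
      rw [h3]
      clear h3 h2
      induction L with
      | nil =>
        convert Submodule.zero_mem (SC D ((lv s ++ lv u : List α) : Multiset α)) using 1
        funext x
        simp
      | cons q L ihL =>
        have h4 := ihL fun q' hq' => h1 q' (List.mem_cons_of_mem _ hq')
        have h5 := h1 q List.mem_cons_self
        have h6 : q.2.1.length + q.2.2.1.length + q.2.2.2.1.length + q.2.2.2.2.length =
            s.length := by
          have := h5.length_eq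
          simpa only [List.length_append, lv_length] using this
        have p1 := FreeMagma.length_pos q.2.1
        have p2 := FreeMagma.length_pos q.2.2.1
        have p3 := FreeMagma.length_pos q.2.2.2.1
        have p4 := FreeMagma.length_pos q.2.2.2.2
        have p5 := FreeMagma.length_pos u
        have e1 := ih q.2.1 q.2.2.1 (by omega)
        have e2 := ih (q.2.2.2.1 * q.2.2.2.2) u (by
          have : (q.2.2.2.1 * q.2.2.2.2).length = q.2.2.2.1.length + q.2.2.2.2.length := rfl
          omega)
        have e3 := Submodule.smul_mem _ q.1 (SC_mul D e1 e2)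
        have h7 : ((lv s ++ lv u : List α) : Multiset α) =
            ((lv q.2.1 ++ lv q.2.2.1 : List α) : Multiset α) +
              ((lv (q.2.2.2.1 * q.2.2.2.2) ++ lv u : List α) : Multiset α) := by
          rw [lv_mul, Multiset.coe_add, Multiset.coe_eq_coe]
          refine (h5.symm.append_right _).trans ?_
          simp only [List.append_assoc]
          exact List.Perm.refl _
        rw [← h7] at e3
        convert Submodule.add_mem _ e3 h4 using 1
        funext x
        simp only [List.map_cons, List.sum_cons, map_add, LinearMap.add_apply, Pi.add_apply,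
          Pi.smul_apply, Pi.mul_apply, map_smul, LinearMap.smul_apply]
        rw [D.E_e]
        rfl
    intro s u h
    by_cases hs : 5 ≤ s.length
    · exact key s u h hs
    · by_cases hu : 5 ≤ u.length
      · have h1 := key u s (by omega) hu
        have h2 : ((lv s ++ lv u : List α) : Multiset α) = ((lv u ++ lv s : List α) : Multiset α) :=
          Multiset.coe_eq_coe.2 List.perm_append_comm
        rw [h2]
        convert h1 using 1
        funext x
        rw [D.E_symm]
      · refine Submodule.subset_span ⟨[(s, u)], by simp, ?_, ?_, ?_⟩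
        · intro q hq
          rw [List.mem_singleton] at hq
          subst hq
          exact ⟨Nat.lt_succ_iff.1 (not_le.1 hs), Nat.lt_succ_iff.1 (not_le.1 hu)⟩
        · unfold fl
          simp
        · funext x
          simp [pr]

private theorem vect (D : FD F A K C) (n : ℕ) : ∀ s : FreeMagma α, 2 ≤ s.length → s.length ≤ n →
    (fun x : α → A => D.c (evm x s)) ∈ VC D (lv s : Multiset α) := by
  induction n with
  | zero => intro s h1 h2; omega
  | succ n ih =>
    intro s h1 h2
    by_cases hs : 5 ≤ s.length
    · obtain ⟨L, h3, h4⟩ := tree_e (F := F) (A := A) s hs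
      have h5 : (fun x : α → A => D.c (evm x s)) = fun x => D.c
          (L.map fun q => q.1 • e (evm x q.2.1) (evm x q.2.2.1) (evm x q.2.2.2.1)
          (evm x q.2.2.2.2)).sum := by
        funext x
        rw [h4 x]
      rw [h5]
      clear h4 h5
      induction L with
      | nil =>
        convert Submodule.zero_mem (VC D (lv s : Multiset α)) using 1
        funext x
        simp
      | cons q L ihL =>
        have h4 := ihL fun q' hq' => h3 q' (List.mem_cons_of_mem _ hq')
        have h5 := h3 q List.mem_cons_self
        have h6 : q.2.1.length + q.2.2.1.length + q.2.2.2.1.length + q.2.2.2.2.length =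
            s.length := by
          have := h5.length_eq
          simpa only [List.length_append, lv_length] using this
        have p1 := FreeMagma.length_pos q.2.1
        have p2 := FreeMagma.length_pos q.2.2.1
        have p3 := FreeMagma.length_pos q.2.2.2.1
        have p4 := FreeMagma.length_pos q.2.2.2.2
        have p5 : (q.2.2.2.1 * q.2.2.2.2).length = q.2.2.2.1.length + q.2.2.2.2.length := rfl
        have e1 := scal D (q.2.1.length + q.2.2.1.length) q.2.1 q.2.2.1 le_rfl
        have e2 := ih (q.2.2.2.1 * q.2.2.2.2) (by omega) (by omega)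
        have e3 := Submodule.smul_mem _ q.1 (VC_smul D e1 e2)
        have h7 : (lv s : Multiset α) =
            ((lv q.2.1 ++ lv q.2.2.1 : List α) : Multiset α) +
              (lv (q.2.2.2.1 * q.2.2.2.2) : Multiset α) := by
          rw [lv_mul, Multiset.coe_add, Multiset.coe_eq_coe]
          refine h5.symm.trans ?_
          simp only [List.append_assoc]
          exact List.Perm.refl _
        rw [← h7] at e3
        convert Submodule.add_mem _ e3 h4 using 1
        funext x
        simp only [List.map_cons, List.sum_cons, map_add, Pi.add_apply, Pi.smul_apply, map_smul]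
        rw [← D.c_E]
        rfl
    · refine Submodule.subset_span ⟨[], s, h1, by omega, by simp, ?_, ?_⟩
      · unfold fl
        simp
      · funext x
        simp [pr]

end

end EXP

open EXP

section
variable {F A K C α : Type*} [Field F] [CharZero F] [NonUnitalNonAssocRing A] [Module F A]
    [IsScalarTower F A A] [SMulCommClass F A A] [IsMalcev A] [TF A] [CommRing K] [Algebra F K]
    [AddCommGroup C] [Module F C] [Module K C] [IsScalarTower F K C]

/-- A scalar `E(s,t)` is a combination of products of scalars `E(s',t')`, `s', t'` with at most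
four leaves.
Proof: induction on the number of leaves of `s` and `t` together.  If `s` has at least five leaves,
`tree_e` for `s` and `E_e`: `E(e(w,z|y,x),t) = E(w,z) E(y x,t)`, both with fewer leaves; the same
for `t` by `E_symm`. -/
theorem FD.expandS (D : FD F A K C) (s t : FreeMagma α) :
    ∃ L : List (F × List (FreeMagma α × FreeMagma α)),
      (∀ T ∈ L, T.2 ≠ [] ∧ (∀ q ∈ T.2, q.1.length ≤ 4 ∧ q.2.length ≤ 4) ∧
        (T.2.flatMap fun q => lv q.1 ++ lv q.2).Perm (lv s ++ lv t)) ∧
      ∀ x : α → A, D.E (evm x s) (evm x t) =
        (L.map fun T => T.1 • (T.2.map fun q => D.E (evm x q.1) (evm x q.2)).prod).sum :=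
  list_SC D (scal D _ s t le_rfl)

/-- EXPANSION.
Proof: induction on the number of leaves; if there are at least five, `tree_e`, `c_E` (the class of
`e(w,z|y,x)` is `E(w,z) c(y x)`, `y * x` has fewer leaves), `expandS` for `E(w,z)`. -/
theorem FD.expand (D : FD F A K C) (s : FreeMagma α) (hs : 2 ≤ s.length) :
    ∃ L : List (ETerm F α), (∀ T ∈ L, T.small ∧ T.leaves.Perm (lv s)) ∧
      ∀ x : α → A, D.c (evm x s) = (L.map (D.evE x)).sum :=
  list_VC D (vect D _ s hs le_rfl)

end

end Pool.Agent.MalF
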