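import Pool.Agent.MalF.Tree

/-!
# The scalar structure on `A²` (interface)
-/

namespace Pool.Agent.MalF

/-- The interface.  `C` is `A²` modulo its intersection with the ideal `N`, `c` the class of an
element of `A²` (outside of `A²` a fixed linear extension without meaning), `K` the commutative
algebra generated by the operators `E w z : c (y * x) ↦ c (e w z y x)`, `R u` right multiplication
by `u`, `EC u` the map `c b ↦ E b u`, `mu` the product of `C`, `J3` the function `J` on `C³`. -/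
structure FD (F A K C : Type*) [Field F] [NonUnitalNonAssocRing A] [Module F A]
    [IsScalarTower F A A] [SMulCommClass F A A] [CommRing K] [Algebra F K] [AddCommGroup C]
    [Module F C] [Module K C] [IsScalarTower F K C] where
  c : A →ₗ[F] C
  E : A →ₗ[F] A →ₗ[F] K
  R : A →ₗ[F] C →ₗ[K] C
  EC : A →ₗ[F] C →ₗ[K] K
  mu : C →ₗ[K] C →ₗ[K] C
  J3 : C →ₗ[F] C →ₗ[F] C →ₗ[F] A
  c_surj : ∀ p : C, ∃ b ∈ Bs F A, c b = p
  c_E : ∀ w z y x : A, E w z • c (y * x) = c (e w z y x)
  E_symm : ∀ w z : A, E w z = E z w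
  E_inv : ∀ w v z : A, E (w * v) z = E w (v * z)
  E_e : ∀ w z y x u : A, E (e w z y x) u = E w z * E (y * x) u
  E_t : ∀ x y z u : A, 2 * E (t x y z) u = E x z * E y u - E y z * E x u
  gen : Algebra.adjoin F {k : K | ∃ w z : A, k = E w z} = ⊤
  R_c : ∀ u : A, ∀ b ∈ Bs F A, R u (c b) = c (b * u)
  EC_c : ∀ u : A, ∀ b ∈ Bs F A, EC u (c b) = E b u
  mu_c : ∀ p ∈ Bs F A, ∀ q ∈ Bs F A, mu (c p) (c q) = c (p * q)
  J3_c : ∀ p ∈ Bs F A, ∀ q ∈ Bs F A, ∀ r ∈ Bs F A, J3 (c p) (c q) (c r) = J p q r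
  J3_bal1 : ∀ (k : K) (p q r : C), J3 (k • p) q r = J3 p (k • q) r
  J3_bal2 : ∀ (k : K) (p q r : C), J3 p (k • q) r = J3 p q (k • r)

section
variable {F A K C : Type*} [Field F] [NonUnitalNonAssocRing A] [Module F A]
    [IsScalarTower F A A] [SMulCommClass F A A] [CommRing K] [Algebra F K] [AddCommGroup C]
    [Module F C] [Module K C] [IsScalarTower F K C]

/-- The ideal generated by the scalars `E w z`. -/
def FD.I (D : FD F A K C) : Ideal K := Ideal.span {k : K | ∃ w z : A, k = D.E w z}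

/-- K5: `2 c(t(x,y,z) u) = E(x,z) c(y u) - E(y,z) c(x u)`. -/
theorem FD.K5 (D : FD F A K C) [IsMalcev A] (x y z u : A) :
    (2 : ℤ) • D.c (t x y z * u) = D.E x z • D.c (y * u) - D.E y z • D.c (x * u) := by
  rw [D.c_E, D.c_E, ← map_sub, ← tt, map_zsmul]

/-- A term of the expansion: coefficient, scalars `E(s.1, s.2)`, vector. -/
structure ETerm (F α : Type*) where
  co : F
  sc : List (FreeMagma α × FreeMagma α)
  vec : FreeMagma α

/-- All leaves of a term. -/
def ETerm.leaves {F α : Type*} (T : ETerm F α) : List α :=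
  lv T.vec ++ T.sc.flatMap fun s => lv s.1 ++ lv s.2

/-- The trees of the term have at most four leaves. -/
def ETerm.small {F α : Type*} (T : ETerm F α) : Prop :=
  2 ≤ T.vec.length ∧ T.vec.length ≤ 4 ∧ ∀ s ∈ T.sc, s.1.length ≤ 4 ∧ s.2.length ≤ 4

/-- Value of a term. -/
def FD.evE (D : FD F A K C) {α : Type*} (x : α → A) (T : ETerm F α) : C :=
  T.co • ((T.sc.map fun s => D.E (evm x s.1) (evm x s.2)).prod • D.c (evm x T.vec))

end

end Pool.Agent.MalF
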