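import Pool.Agent.MalF.GE
import Pool.Agent.MalF.FD

/-!
# Operators on the quotient `C` of `A²` (modules CQ, FE1, FE2, section 4)
-/

namespace Pool.Agent.MalF

/-- The operators on `C = A² / (A² ∩ N)`, over `F`. -/
structure FE (F A C : Type*) [Field F] [NonUnitalNonAssocRing A] [Module F A]
    [IsScalarTower F A A] [SMulCommClass F A A] [AddCommGroup C] [Module F C] where
  c : A →ₗ[F] C
  E : A →ₗ[F] A →ₗ[F] Module.End F C
  R : A →ₗ[F] Module.End F C
  J3 : C →ₗ[F] C →ₗ[F] C →ₗ[F] A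
  c_surj : ∀ p : C, ∃ b ∈ Bs F A, c b = p
  c_ker : ∀ b ∈ Bs F A, c b = 0 → b ∈ NS F A
  c_E : ∀ w z y x : A, E w z (c (y * x)) = c (e w z y x)
  E_symm : ∀ w z : A, E w z = E z w
  E_comm : ∀ w z w' z' : A, E w z * E w' z' = E w' z' * E w z
  E_R : ∀ w z u : A, E w z * R u = R u * E w z
  E_inv : ∀ w v z : A, E (w * v) z = E w (v * z)
  E_N : ∀ n ∈ NS F A, ∀ u : A, E n u = 0
  R_N : ∀ n ∈ NS F A, R n = 0
  R_c : ∀ u : A, ∀ b ∈ Bs F A, R u (c b) = c (b * u)
  J3_c : ∀ p ∈ Bs F A, ∀ q ∈ Bs F A, ∀ r ∈ Bs F A, J3 (c p) (c q) (c r) = J p q r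
  J3_bal : ∀ (w z : A) (p q r : C), J3 (E w z p) q r = J3 p (E w z q) r

set_option linter.unusedSectionVars false

section
variable (F A : Type*) [Field F] [NonUnitalNonAssocRing A] [Module F A]
  [IsScalarTower F A A] [SMulCommClass F A A]

/-- the quotient -/
private abbrev CQ_C : Submodule F (A ⧸ NS F A) := (Bs F A).map (NS F A).mkQ

/-- the class of an element of `A²` -/
private noncomputable def CQ_q : Bs F A →ₗ[F] CQ_C F A :=
  LinearMap.codRestrict (CQ_C F A) ((NS F A).mkQ ∘ₗ (Bs F A).subtype)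
    (fun b => Submodule.mem_map_of_mem b.2)

private theorem CQ_q_surj : Function.Surjective (CQ_q F A) := by
  rintro ⟨p, hp⟩
  obtain ⟨b, hb, rfl⟩ := hp
  exact ⟨⟨b, hb⟩, rfl⟩

private theorem CQ_q_zero {F A : Type*} [Field F] [NonUnitalNonAssocRing A] [Module F A]
    [IsScalarTower F A A] [SMulCommClass F A A] (b : Bs F A) :
    CQ_q F A b = 0 ↔ (b : A) ∈ NS F A := by
  rw [← Subtype.coe_inj]
  exact Submodule.Quotient.mk_eq_zero _

private theorem CQ_sec : ∃ s : CQ_C F A →ₗ[F] Bs F A, ∀ p, CQ_q F A (s p) = p := by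
  obtain ⟨s, hs⟩ := LinearMap.exists_rightInverse_of_surjective (CQ_q F A)
    (LinearMap.range_eq_top.2 (CQ_q_surj F A))
  exact ⟨s, fun p => LinearMap.congr_fun hs p⟩

/-- a linear section -/
private noncomputable def CQ_s : CQ_C F A →ₗ[F] Bs F A := (CQ_sec F A).choose

private theorem CQ_qs {F A : Type*} [Field F] [NonUnitalNonAssocRing A] [Module F A]
    [IsScalarTower F A A] [SMulCommClass F A A] (p : CQ_C F A) :
    CQ_q F A (CQ_s F A p) = p := (CQ_sec F A).choose_spec p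

private theorem CQ_sq {F A : Type*} [Field F] [NonUnitalNonAssocRing A] [Module F A]
    [IsScalarTower F A A] [SMulCommClass F A A] (b : Bs F A) :
    ((CQ_s F A (CQ_q F A b) : Bs F A) : A) - (b : A) ∈ NS F A := by
  have h := CQ_q_zero (CQ_s F A (CQ_q F A b) - b)
  rw [map_sub, CQ_qs, sub_self] at h
  exact h.1 rfl

private theorem CQ_pro : ∃ π : A →ₗ[F] Bs F A, ∀ b : Bs F A, π b = b := by
  obtain ⟨π, hπ⟩ := LinearMap.exists_leftInverse_of_injective (Bs F A).subtype
    (Submodule.ker_subtype _)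
  exact ⟨π, fun b => LinearMap.congr_fun hπ b⟩

/-- the linear extension of the class -/
private noncomputable def CQ_c : A →ₗ[F] CQ_C F A := CQ_q F A ∘ₗ (CQ_pro F A).choose

end

section
variable {F A : Type*} [Field F] [NonUnitalNonAssocRing A] [Module F A]
  [IsScalarTower F A A] [SMulCommClass F A A]

private theorem CQ_c_q {b : A} (hb : b ∈ Bs F A) : CQ_c F A b = CQ_q F A ⟨b, hb⟩ := by
  have h := (CQ_pro F A).choose_spec ⟨b, hb⟩
  show CQ_q F A ((CQ_pro F A).choose b) = _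
  exact congrArg _ h

private theorem CQ_c_s (p : CQ_C F A) : CQ_c F A (CQ_s F A p : A) = p := by
  rw [CQ_c_q (CQ_s F A p).2]
  exact CQ_qs p

private theorem CQ_s_c {b : A} (hb : b ∈ Bs F A) : ((CQ_s F A (CQ_c F A b) : Bs F A) : A) - b ∈
    NS F A := by
  rw [CQ_c_q hb]
  exact CQ_sq ⟨b, hb⟩

private theorem CQ_c_zero {b : A} (hb : b ∈ Bs F A) : CQ_c F A b = 0 ↔ b ∈ NS F A := by
  rw [CQ_c_q hb]
  exact CQ_q_zero _

private theorem CQ_c_eq {b b' : A} (hb : b ∈ Bs F A) (hb' : b' ∈ Bs F A) (h : b - b' ∈ NS F A) :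
    CQ_c F A b = CQ_c F A b' := by
  rw [← sub_eq_zero, ← map_sub, CQ_c_zero (Submodule.sub_mem _ hb hb')]
  exact h

private theorem CQ_ext {f g : Module.End F (CQ_C F A)}
    (h : ∀ y x : A, f (CQ_c F A (y * x)) = g (CQ_c F A (y * x))) : f = g := by
  refine LinearMap.ext fun p => ?_
  have h1 : ∀ b ∈ Bs F A, f (CQ_c F A b) = g (CQ_c F A b) := by
    intro b hb
    refine Submodule.span_induction (p := fun b _ => f (CQ_c F A b) = g (CQ_c F A b))
      ?_ ?_ ?_ ?_ hb
    · rintro _ ⟨y, x, rfl⟩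
      exact h y x
    · rw [map_zero, map_zero, map_zero]
    · intro a b _ _ ha hb
      rw [map_add, map_add, map_add, ha, hb]
    · intro k a _ ha
      rw [map_smul, map_smul, map_smul, ha]
  have h2 := h1 _ (CQ_s F A p).2
  rw [CQ_c_s] at h2
  exact h2

/-- right multiplication -/
private noncomputable def CQ_R : A →ₗ[F] CQ_C F A →ₗ[F] CQ_C F A :=
  LinearMap.mk₂ F (fun (u : A) (p : CQ_C F A) => CQ_c F A ((CQ_s F A p : A) * u))
    (fun u u' p => by rw [mul_add, map_add])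
    (fun k u p => by rw [mul_smul_comm, map_smul])
    (fun u p p' => by rw [map_add, Submodule.coe_add, add_mul, map_add])
    (fun k u p => by rw [map_smul, Submodule.coe_smul, smul_mul_assoc, map_smul])

/-- the function `J` -/
private noncomputable def CQ_J : CQ_C F A →ₗ[F] CQ_C F A →ₗ[F] CQ_C F A →ₗ[F] A :=
  LinearMap.mk₂ F (fun p q : CQ_C F A =>
    ({ toFun := fun r => J (CQ_s F A p : A) (CQ_s F A q : A) (CQ_s F A r : A)
       map_add' := fun r r' => by rw [map_add, Submodule.coe_add, J_add3]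
       map_smul' := fun k r => by
        rw [map_smul, Submodule.coe_smul, J_smul3, RingHom.id_apply] } : CQ_C F A →ₗ[F] A))
    (fun p p' q => LinearMap.ext fun r => by
      show J (CQ_s F A (p + p') : A) (CQ_s F A q : A) (CQ_s F A r : A) =
        J (CQ_s F A p : A) (CQ_s F A q : A) (CQ_s F A r : A) +
          J (CQ_s F A p' : A) (CQ_s F A q : A) (CQ_s F A r : A)
      rw [map_add, Submodule.coe_add, J_add1])
    (fun k p q => LinearMap.ext fun r => by
      show J (CQ_s F A (k • p) : A) (CQ_s F A q : A) (CQ_s F A r : A) =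
        k • J (CQ_s F A p : A) (CQ_s F A q : A) (CQ_s F A r : A)
      rw [map_smul, Submodule.coe_smul, J_smul1])
    (fun p q q' => LinearMap.ext fun r => by
      show J (CQ_s F A p : A) (CQ_s F A (q + q') : A) (CQ_s F A r : A) =
        J (CQ_s F A p : A) (CQ_s F A q : A) (CQ_s F A r : A) +
          J (CQ_s F A p : A) (CQ_s F A q' : A) (CQ_s F A r : A)
      rw [map_add, Submodule.coe_add, J_add2])
    (fun k p q => LinearMap.ext fun r => by
      show J (CQ_s F A p : A) (CQ_s F A (k • q) : A) (CQ_s F A r : A) =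
        k • J (CQ_s F A p : A) (CQ_s F A q : A) (CQ_s F A r : A)
      rw [map_smul, Submodule.coe_smul, J_smul2])

end

section
variable {F A : Type*} [Field F] [CharZero F] [NonUnitalNonAssocRing A] [Module F A]
  [IsScalarTower F A A] [SMulCommClass F A A] [IsMalcev A] [TF A]

private theorem CQ_mul_N {n : A} (hn : n ∈ NS F A) (u : A) : u * n ∈ NS F A := by
  rw [anti u n]
  exact Submodule.neg_mem _ (NS_mul hn u)

private theorem CQ_R_c (u : A) {b : A} (hb : b ∈ Bs F A) :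
    CQ_R u (CQ_c F A b) = CQ_c F A (b * u) := by
  refine CQ_c_eq (mul_mem_Bs _ _) (mul_mem_Bs _ _) ?_
  rw [← sub_mul]
  exact NS_mul (CQ_s_c hb) u

private theorem CQ_J_c {p q r : A} (hp : p ∈ Bs F A) (hq : q ∈ Bs F A) (hr : r ∈ Bs F A) :
    CQ_J (CQ_c F A p) (CQ_c F A q) (CQ_c F A r) = J p q r := by
  show J (CQ_s F A (CQ_c F A p) : A) (CQ_s F A (CQ_c F A q) : A) (CQ_s F A (CQ_c F A r) : A) = _
  have h1 : ∀ {n : A}, n ∈ NS F A → ∀ {q r : A}, q ∈ Bs F A → r ∈ Bs F A → J n q r = 0 :=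
    fun hn _ _ hq hr => hn.1 _ hq _ hr
  have e1 := h1 (CQ_s_c hp) (CQ_s F A (CQ_c F A q)).2 (CQ_s F A (CQ_c F A r)).2
  have e2 := h1 (CQ_s_c hq) hp (CQ_s F A (CQ_c F A r)).2
  have e3 := h1 (CQ_s_c hr) hp hq
  rw [J_sub1, sub_eq_zero] at e1 e2 e3
  have e4 : J p (CQ_s F A (CQ_c F A q) : A) (CQ_s F A (CQ_c F A r) : A) =
      J p q (CQ_s F A (CQ_c F A r) : A) := by
    rw [J_swap12, e2, J_swap12 p q, neg_neg]
  rw [e1, e4]
  exact (J_cyc _ p q).trans (e3.trans (J_cyc r p q).symm)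

private theorem CQ_exists (w z : A) (p : CQ_C F A) :
    ∃ b', ((CQ_s F A p : A), b') ∈ GE F w z := GE_exists w z (CQ_s F A p).2

private theorem CQ_wd {w z b b' a a' : A} (h : (b, b') ∈ GE F w z) (h' : (a, a') ∈ GE F w z)
    (hn : b - a ∈ NS F A) : CQ_c F A b' = CQ_c F A a' := by
  refine CQ_c_eq (GE_right h) (GE_right h') ?_
  have h1 : (b - a, b' - a') ∈ GE F w z := Submodule.sub_mem _ h h'
  exact GE_N h1 hn

private theorem CQ_choose {w z b b' : A} (h : (b, b') ∈ GE F w z) :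
    CQ_c F A (CQ_exists w z (CQ_c F A b)).choose = CQ_c F A b' :=
  CQ_wd (CQ_exists w z (CQ_c F A b)).choose_spec h (CQ_s_c (GE_left h))

private noncomputable def CQ_f (w z : A) (p : CQ_C F A) : CQ_C F A :=
  CQ_c F A (CQ_exists w z p).choose

private theorem CQ_f_of {w z b b' : A} (h : (b, b') ∈ GE F w z) {p : CQ_C F A}
    (hp : CQ_c F A b = p) : CQ_f w z p = CQ_c F A b' := by
  rw [← hp]
  exact CQ_choose h

/-- the operator `E w z` -/
private noncomputable def CQ_E1 (w z : A) : CQ_C F A →ₗ[F] CQ_C F A where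
  toFun p := CQ_f w z p
  map_add' p p' := by
    have h1 := (CQ_exists w z p).choose_spec
    have h2 := (CQ_exists w z p').choose_spec
    have h3 : ((CQ_s F A p : A) + (CQ_s F A p' : A), (CQ_exists w z p).choose +
      (CQ_exists w z p').choose) ∈ GE F w z := Submodule.add_mem _ h1 h2
    rw [CQ_f_of h3 (p := p + p') (by rw [map_add, CQ_c_s, CQ_c_s]), map_add]
    rfl
  map_smul' k p := by
    have h1 := (CQ_exists w z p).choose_spec
    have h3 : (k • (CQ_s F A p : A), k • (CQ_exists w z p).choose) ∈ GE F w z :=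
      Submodule.smul_mem _ k h1
    rw [CQ_f_of h3 (p := k • p) (by rw [map_smul, CQ_c_s]), map_smul]
    rfl

private theorem CQ_E1_c {w z b b' : A} (h : (b, b') ∈ GE F w z) :
    CQ_E1 w z (CQ_c F A b) = CQ_c F A b' := CQ_choose h

private theorem CQ_E1_g (w z y x : A) :
    CQ_E1 w z (CQ_c F A (y * x)) = CQ_c F A (e w z y x) := CQ_choose (GE_gen w z y x)

/-- `E` -/
private noncomputable def CQ_E : A →ₗ[F] A →ₗ[F] Module.End F (CQ_C F A) :=
  LinearMap.mk₂ F (fun w z => (CQ_E1 w z : Module.End F (CQ_C F A)))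
    (fun w w' z => CQ_ext fun y x => by
      rw [LinearMap.add_apply, CQ_E1_g, CQ_E1_g, CQ_E1_g, e_add1, map_add])
    (fun k w z => CQ_ext fun y x => by
      rw [LinearMap.smul_apply, CQ_E1_g, CQ_E1_g, e_smul1, map_smul])
    (fun w z z' => CQ_ext fun y x => by
      rw [LinearMap.add_apply, CQ_E1_g, CQ_E1_g, CQ_E1_g, e_add2, map_add])
    (fun k w z => CQ_ext fun y x => by
      rw [LinearMap.smul_apply, CQ_E1_g, CQ_E1_g, e_smul2, map_smul])

private theorem CQ_E_c {w z b b' : A} (h : (b, b') ∈ GE F w z) :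
    CQ_E w z (CQ_c F A b) = CQ_c F A b' := CQ_choose h

private theorem CQ_E_g (w z y x : A) :
    CQ_E w z (CQ_c F A (y * x)) = CQ_c F A (e w z y x) := CQ_choose (GE_gen w z y x)

/-- CQ.  Construction.  `C = (Bs F A).map (NS F A).mkQ` (a submodule of `A ⧸ N`), `π : A →ₗ Bs`
a linear projection (left inverse of the inclusion, `F` is a field), `c a` = class of `π a`.
`E w z` is the linear map with `E w z (class b) = class b'` for `(b, b') ∈ GE F w z`
(well defined by `GE_N`, everywhere defined by `GE_exists`); two linear maps on `C` are equal if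
they agree on all `c (y * x)`; so `E` is bilinear in `w, z` (`e_add1`, ...), symmetric (`e_symm`),
`E_comm` by `GE_comm`, `E_R` by `GE_l`, `E_N` as `e(n,u|y,x) ∈ N` (`NS_mul`), `E_inv` by `id_INV`
(all `l ∈ N`, `l_mem_NS`) and anticommutativity, `R u (class b) = class (b u)` (`NS_mul`), `J3` by
`J(N,A²,A²) = 0` (all three places), `J3_bal` by `GE_bal`. -/
theorem exists_FE (F A : Type*) [Field F] [CharZero F] [NonUnitalNonAssocRing A] [Module F A]
    [IsScalarTower F A A] [SMulCommClass F A A] [IsMalcev A] [TF A] :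
    Nonempty (FE F A ((Bs F A).map (NS F A).mkQ)) := by
  refine ⟨{ c := CQ_c F A, E := CQ_E, R := CQ_R, J3 := CQ_J, c_surj := ?_, c_ker := ?_,
            c_E := CQ_E_g, E_symm := ?_, E_comm := ?_, E_R := ?_, E_inv := ?_, E_N := ?_,
            R_N := ?_, R_c := fun u b hb => CQ_R_c u hb,
            J3_c := fun p hp q hq r hr => CQ_J_c hp hq hr, J3_bal := ?_ }⟩
  · exact fun p => ⟨_, (CQ_s F A p).2, CQ_c_s p⟩
  · exact fun b hb h => (CQ_c_zero hb).1 h
  · intro w z
    refine CQ_ext fun y x => ?_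
    rw [CQ_E_g, CQ_E_g, e_symm]
  · intro w z w' z'
    refine CQ_ext fun y x => ?_
    obtain ⟨b1, h1⟩ := GE_exists (F := F) w z (mul_mem_Bs y x)
    obtain ⟨b12, h12⟩ := GE_exists (F := F) w' z' (GE_right h1)
    obtain ⟨b2, h2⟩ := GE_exists (F := F) w' z' (mul_mem_Bs y x)
    obtain ⟨b21, h21⟩ := GE_exists (F := F) w z (GE_right h2)
    show CQ_E w z (CQ_E w' z' (CQ_c F A (y * x))) = CQ_E w' z' (CQ_E w z (CQ_c F A (y * x)))
    rw [CQ_E_c h2, CQ_E_c h21, CQ_E_c h1, CQ_E_c h12]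
    exact (CQ_c_eq (GE_right h12) (GE_right h21) (GE_comm h1 h12 h2 h21)).symm
  · intro w z u
    refine CQ_ext fun y x => ?_
    obtain ⟨b1, h1⟩ := GE_exists (F := F) w z (mul_mem_Bs y x)
    show CQ_E w z (CQ_R u (CQ_c F A (y * x))) = CQ_R u (CQ_E w z (CQ_c F A (y * x)))
    rw [CQ_R_c u (mul_mem_Bs y x), CQ_E_g, CQ_E_c h1, CQ_R_c u (GE_right h1)]
    exact (CQ_c_eq (mul_mem_Bs _ _) (e_mem_Bs _ _ _ _) (GE_l h1 u)).symm
  · intro w v z
    refine CQ_ext fun y x => ?_
    rw [CQ_E_g, CQ_E_g]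
    refine CQ_c_eq (e_mem_Bs _ _ _ _) (e_mem_Bs _ _ _ _) ?_
    have h := id_INV w v z y x
    have hl : ∀ w z y x u : A, l w z y x u ∈ NS F A := l_mem_NS
    have hz : ∀ (k : ℤ) {a : A}, a ∈ NS F A → k • a ∈ NS F A := fun k a ha => by
      rw [← Int.cast_smul_eq_zsmul F]
      exact Submodule.smul_mem _ _ ha
    have h2 : (2 : ℤ) • (e (w * v) z y x - e w (v * z) y x) ∈ NS F A := by
      have h3 : (2 : ℤ) • (e (w * v) z y x - e w (v * z) y x) =
          ((1 : ℤ) • (l w z y x v)) + ((-1 : ℤ) • (l w v y x z)) + ((-1 : ℤ) • (l w v z x y)) +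
          ((-2 : ℤ) • (l w z v y x)) + ((1 : ℤ) • (l w z v x y)) + ((1 : ℤ) • (l w y v x z)) +
          ((1 : ℤ) • (l w y z x v)) := by
        rw [anti v z, e_neg2, sub_neg_eq_add, smul_add, ← sub_eq_zero, ← h]
        abel
      rw [h3]
      exact Submodule.add_mem _ (Submodule.add_mem _ (Submodule.add_mem _ (Submodule.add_mem _
        (Submodule.add_mem _ (Submodule.add_mem _ (hz _ (hl _ _ _ _ _)) (hz _ (hl _ _ _ _ _)))
        (hz _ (hl _ _ _ _ _))) (hz _ (hl _ _ _ _ _))) (hz _ (hl _ _ _ _ _)))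
        (hz _ (hl _ _ _ _ _))) (hz _ (hl _ _ _ _ _))
    have h3 := Submodule.smul_mem (NS F A) ((2 : F)⁻¹) h2
    rw [← Int.cast_smul_eq_zsmul F, smul_smul] at h3
    have h4 : ((2 : F)⁻¹ * ((2 : ℤ) : F)) = 1 := by
      push_cast
      exact inv_mul_cancel₀ two_ne_zero
    rw [h4, one_smul] at h3
    exact h3
  · intro n hn u
    refine CQ_ext fun y x => ?_
    rw [CQ_E_g, LinearMap.zero_apply, CQ_c_zero (e_mem_Bs _ _ _ _)]
    have ht : ∀ y : A, t n y u ∈ NS F A := by
      intro y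
      unfold t
      refine Submodule.sub_mem _ (Submodule.sub_mem _ ?_ (CQ_mul_N hn _))
        (NS_mul (CQ_mul_N hn _) _)
      rw [← Int.cast_smul_eq_zsmul F]
      exact Submodule.smul_mem _ _ (NS_mul (NS_mul hn _) _)
    unfold e
    refine Submodule.add_mem _ (Submodule.add_mem _ (NS_mul (ht y) x) (CQ_mul_N hn _)) ?_
    rw [t_swap12 n x u]
    exact NS_mul (Submodule.neg_mem _ (ht x)) y
  · intro n hn
    refine CQ_ext fun y x => ?_
    show CQ_R n (CQ_c F A (y * x)) = 0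
    rw [CQ_R_c n (mul_mem_Bs y x), CQ_c_zero (mul_mem_Bs _ _)]
    exact CQ_mul_N hn _
  · intro w z p q r
    obtain ⟨p', hp⟩ := GE_exists (F := F) w z (CQ_s F A p).2
    obtain ⟨q', hq⟩ := GE_exists (F := F) w z (CQ_s F A q).2
    have ep : CQ_E w z p = CQ_c F A p' := by
      have h := CQ_E_c hp
      rw [CQ_c_s] at h
      exact h
    have eq : CQ_E w z q = CQ_c F A q' := by
      have h := CQ_E_c hq
      rw [CQ_c_s] at h
      exact h
    rw [ep, eq]
    have h1 := CQ_J_c (GE_right hp) (CQ_s F A q).2 (CQ_s F A r).2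
    have h2 := CQ_J_c (CQ_s F A p).2 (GE_right hq) (CQ_s F A r).2
    rw [CQ_c_s, CQ_c_s] at h1 h2
    rw [h1, h2]
    exact GE_bal hp hq (CQ_s F A r).2

end

end Pool.Agent.MalF
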