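import Pool.Agent.MalF.FE

/-!
# The laws K5, K7, K9 (module FE1, section 4)
-/

namespace Pool.Agent.MalF

set_option linter.unusedSectionVars false

section
variable {F A C : Type*} [Field F] [CharZero F] [NonUnitalNonAssocRing A] [Module F A]
  [IsScalarTower F A A] [SMulCommClass F A A] [IsMalcev A] [TF A] [AddCommGroup C] [Module F C]

/-- Two endomorphisms of `C` which agree on all `c (y * x)` are equal. -/
theorem FE.ext_c (D : FE F A C) {f g : Module.End F C}
    (h : ∀ y x : A, f (D.c (y * x)) = g (D.c (y * x))) : f = g := by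
  refine LinearMap.ext fun p => ?_
  obtain ⟨b, hb, rfl⟩ := D.c_surj p
  refine Submodule.span_induction (p := fun b _ => f (D.c b) = g (D.c b)) ?_ ?_ ?_ ?_ hb
  · rintro _ ⟨y, x, rfl⟩
    exact h y x
  · rw [map_zero, map_zero, map_zero]
  · intro a b _ _ ha hb
    rw [map_add, map_add, map_add, ha, hb]
  · intro k a _ ha
    rw [map_smul, map_smul, map_smul, ha]

private theorem FE1_ER (D : FE F A C) (w z u : A) (q : C) :
    D.E w z (D.R u q) = D.R u (D.E w z q) := by
  have h := congrArg (fun f : Module.End F C => f q) (D.E_R w z u)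
  exact h

private theorem FE1_t (D : FE F A C) (P a u : A) :
    D.c (t P a u) = (2 : ℤ) • D.R u (D.c (P * a)) + D.c (P * (a * u)) + D.R a (D.c (P * u)) := by
  rw [D.R_c u _ (mul_mem_Bs P a), D.R_c a _ (mul_mem_Bs P u), ← map_zsmul, ← map_add, ← map_add]
  congr 1
  unfold t
  rw [anti (a * u) P, anti u P, neg_mul]
  abel

private theorem FE1_e (D : FE F A C) (P u a b : A) :
    D.c (e P u a b) =
      D.R b ((2 : ℤ) • D.R u (D.c (P * a)) + D.c (P * (a * u)) + D.R a (D.c (P * u)))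
        - D.c (P * t b a u)
        - D.R a ((2 : ℤ) • D.R u (D.c (P * b)) + D.c (P * (b * u)) + D.R b (D.c (P * u))) := by
  rw [← FE1_t, ← FE1_t, D.R_c b _ (t_mem_Bs P a u), D.R_c a _ (t_mem_Bs P b u), ← map_sub,
    ← map_sub]
  congr 1
  unfold e
  rw [anti (t b a u) P, t_swap12 P b u, neg_mul]
  abel

/-- the value of `c (e P u a b)` as a function of `v ↦ c (P * v)` -/
private def FE1_W (D : FE F A C) (u a b : A) (φ : A → C) : C :=
  D.R b ((2 : ℤ) • D.R u (φ a) + φ (a * u) + D.R a (φ u)) - φ (t b a u)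
    - D.R a ((2 : ℤ) • D.R u (φ b) + φ (b * u) + D.R b (φ u))

private theorem FE1_W_e (D : FE F A C) (P u a b : A) :
    D.c (e P u a b) = FE1_W D u a b (fun v => D.c (P * v)) := FE1_e D P u a b

private theorem FE1_W_smul (D : FE F A C) (u a b : A) (φ : A → C) :
    (2 : ℤ) • FE1_W D u a b φ = FE1_W D u a b (fun v => (2 : ℤ) • φ v) := by
  unfold FE1_W
  simp only [map_add, map_zsmul, smul_add, smul_sub]

private theorem FE1_W_sub (D : FE F A C) (u a b w z w' z' : A) (φ ψ : A → C) :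
    FE1_W D u a b (fun v => D.E w z (φ v) - D.E w' z' (ψ v)) =
      D.E w z (FE1_W D u a b φ) - D.E w' z' (FE1_W D u a b ψ) := by
  unfold FE1_W
  simp only [map_add, map_sub, map_zsmul, smul_sub, FE1_ER]
  abel

/-- an operator identity for the left factor -/
private theorem FE1_pull (D : FE F A C) (w z w' z' P Q T : A)
    (h : ∀ v, (2 : ℤ) • D.c (T * v) = D.E w z (D.c (P * v)) - D.E w' z' (D.c (Q * v)))
    (u a b : A) :
    (2 : ℤ) • D.c (e T u a b) = D.E w z (D.c (e P u a b)) - D.E w' z' (D.c (e Q u a b)) := by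
  rw [FE1_W_e D T, FE1_W_e D P, FE1_W_e D Q, FE1_W_smul, ← FE1_W_sub]
  congr 1
  exact funext h

/-- K5. -/
theorem FE.K5 (D : FE F A C) (x y z u : A) :
    (2 : ℤ) • D.c (t x y z * u) = D.E x z (D.c (y * u)) - D.E y z (D.c (x * u)) := by
  rw [D.c_E, D.c_E, ← map_sub, ← tt, map_zsmul]

/-- K7: `E(e(s|y,x),u) = E(s) E(y x,u)`.
Proof: let `p = y x`, `p' = e(s|y,x)`, so `c p' = E_s (c p)`.  For `a b : A`:
`E(p',u) c(a b) = c(e(p',u|a,b))`, `e(p',u|a,b) = t(p',a,u) b + t(b,a,u) p' + t(b,p',u) a`, where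
`t(p',a,u) = 2 (p' a) u + p' (a u) + (p' u) a`, so `c (t(p',a,u)) = (2 R_u R_a + R_{au} + R_a R_u) (c p')`
commutes with `E_s` (`E_R`), `c (t(b,a,u) p') = - R_{t(b,a,u)} (c p')`,
`t(b,p',u) = - t(p',b,u)`; so the value is `E_s` applied to the same expression with `p`,
`= E_s E(p,u) c(a b)`. -/
theorem FE.K7 (D : FE F A C) (w z y x u : A) : D.E (e w z y x) u = D.E w z * D.E (y * x) u := by
  refine D.ext_c fun a b => ?_
  have h1 : ∀ v, D.c (e w z y x * v) = D.E w z (D.c ((y * x) * v)) := by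
    intro v
    rw [← D.R_c v _ (e_mem_Bs w z y x), ← D.R_c v _ (mul_mem_Bs y x), FE1_ER, D.c_E]
  show D.E (e w z y x) u (D.c (a * b)) = D.E w z (D.E (y * x) u (D.c (a * b)))
  rw [D.c_E, D.c_E, FE1_e D (e w z y x), FE1_e D (y * x)]
  simp only [h1, map_sub, map_add, map_zsmul, FE1_ER]

/-- K9: `2 E(t(x,y,z),u) = E(x,z) E(y,u) - E(y,z) E(x,u)`.
Proof: with `T = t(x,y,z)`, `2 c(T v) = E(x,z) c(y v) - E(y,z) c(x v)` for all `v` (K5).  In
`e(T,u|a,b) = t(T,a,u) b + t(b,a,u) T + t(b,T,u) a` every term is a product containing `T` once and, by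
anticommutativity, of the form `± ((T v) v') v''` or `± (T v) v'`, `± T v`: write all with `T` on the
left and use `R_c`, `E_R` to pull `E(x,z)`, `E(y,z)` out.  Result
`2 c(e(T,u|a,b)) = E(x,z) c(e(y,u|a,b)) - E(y,z) c(e(x,u|a,b))`. -/
theorem FE.K9 (D : FE F A C) (x y z u : A) :
    (2 : ℤ) • D.E (t x y z) u = D.E x z * D.E y u - D.E y z * D.E x u := by
  refine D.ext_c fun a b => ?_
  show (2 : ℤ) • D.E (t x y z) u (D.c (a * b)) = D.E x z (D.E y u (D.c (a * b))) -
    D.E y z (D.E x u (D.c (a * b)))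
  rw [D.c_E, D.c_E, D.c_E]
  exact FE1_pull D x z y z y x (t x y z) (fun v => D.K5 x y z v) u a b

/-- `E_s (c (a b)) ` from the other side: `R b (E_s (c a))`, `a ∈ A²`; product on `C`:
`c (a * b') = E_s (c (a * b))` for `a, b ∈ A²`, `c b' = E_s (c b)`, `b' ∈ A²`. -/
theorem FE.K2 (D : FE F A C) (w z : A) {a b b' : A} (ha : a ∈ Bs F A) (hb : b ∈ Bs F A)
    (hb' : b' ∈ Bs F A) (h : D.c b' = D.E w z (D.c b)) :
    D.c (a * b') = D.E w z (D.c (a * b)) := by
  rw [anti a b', anti a b, map_neg, map_neg, map_neg, ← D.R_c a _ hb', ← D.R_c a _ hb, FE1_ER, h]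

end

end Pool.Agent.MalF
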