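import Pool.Agent.MalF.FE1

/-!
# The scalar ring (module FE2, section 4)
-/

set_option linter.unusedSectionVars false

namespace Pool.Agent.MalF

universe u v w

section
variable {F : Type u} {A : Type v} {C : Type w} [Field F] [CharZero F]
    [NonUnitalNonAssocRing A] [Module F A] [IsScalarTower F A A] [SMulCommClass F A A]
    [IsMalcev A] [TF A] [AddCommGroup C] [Module F C]

private def FE2_S (D : FE F A C) : Set (Module.End F C) := {f | ∃ w z : A, f = D.E w z}

private theorem FE2_comm (D : FE F A C) :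
    ∀ a ∈ FE2_S D, ∀ b ∈ FE2_S D, a * b = b * a := by
  rintro _ ⟨w, z, rfl⟩ _ ⟨w', z', rfl⟩
  exact D.E_comm w z w' z'

private def FE2_K (D : FE F A C) : Type w := ↥(Algebra.adjoin F (FE2_S D))

private noncomputable instance (D : FE F A C) : CommRing (FE2_K D) :=
  Algebra.adjoinCommRingOfComm F (FE2_comm D)

private noncomputable instance (D : FE F A C) : Algebra F (FE2_K D) :=
  inferInstanceAs (Algebra F ↥(Algebra.adjoin F (FE2_S D)))

private noncomputable instance (D : FE F A C) : Module (FE2_K D) C :=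
  inferInstanceAs (Module ↥(Algebra.adjoin F (FE2_S D)) C)

private instance (D : FE F A C) : IsScalarTower F (FE2_K D) C :=
  inferInstanceAs (IsScalarTower F ↥(Algebra.adjoin F (FE2_S D)) C)

private def FE2_E0 (D : FE F A C) (w z : A) : FE2_K D :=
  ⟨D.E w z, Algebra.subset_adjoin ⟨w, z, rfl⟩⟩

private def FE2_val (D : FE F A C) (k : FE2_K D) : Module.End F C := k.1

private theorem FE2_ext (D : FE F A C) {k k' : FE2_K D} (h : FE2_val D k = FE2_val D k') :
    k = k' := Subtype.ext h

private theorem FE2_smul (D : FE F A C) (k : FE2_K D) (p : C) : k • p = FE2_val D k p := rfl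

private theorem FE2_E0_smul (D : FE F A C) (w z : A) (p : C) :
    FE2_E0 D w z • p = D.E w z p := rfl

private theorem FE2_ind (D : FE F A C) (P : FE2_K D → Prop) (h1 : ∀ w z, P (FE2_E0 D w z))
    (h2 : ∀ r : F, P (algebraMap F (FE2_K D) r)) (h3 : ∀ a b, P a → P b → P (a + b))
    (h4 : ∀ a b, P a → P b → P (a * b)) (k : FE2_K D) : P k := by
  obtain ⟨k, hk⟩ := k
  induction hk using Algebra.adjoin_induction with
  | mem x hx =>
    obtain ⟨w, z, rfl⟩ := hx
    exact h1 w z
  | algebraMap r => exact h2 r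
  | add x y hx hy h h' => exact h3 _ _ h h'
  | mul x y hx hy h h' => exact h4 _ _ h h'

private theorem FE2_mul_smul (D : FE F A C) (a b : FE2_K D) (p : C) :
    (a * b) • p = a • b • p := rfl

private theorem FE2_add_smul (D : FE F A C) (a b : FE2_K D) (p : C) :
    (a + b) • p = a • p + b • p := rfl

private noncomputable def FE2_E (D : FE F A C) : A →ₗ[F] A →ₗ[F] FE2_K D :=
  LinearMap.mk₂ F (FE2_E0 D)
    (fun a b c => FE2_ext D (by change D.E (a + b) c = D.E a c + D.E b c; rw [map_add]; rfl))
    (fun r a b => FE2_ext D (by change D.E (r • a) b = r • D.E a b; rw [map_smul]; rfl))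
    (fun a b c => FE2_ext D (by change D.E a (b + c) = D.E a b + D.E a c; rw [map_add]))
    (fun r a b => FE2_ext D (by change D.E a (r • b) = r • D.E a b; rw [map_smul]))

private theorem FE2_E_apply (D : FE F A C) (w z : A) : FE2_E D w z = FE2_E0 D w z := rfl

private theorem FE2_alg_smul (D : FE F A C) (r : F) (p : C) :
    (algebraMap F (FE2_K D) r) • p = r • p := algebraMap_smul (FE2_K D) r p

private def FE2_R (D : FE F A C) (u : A) : C →ₗ[FE2_K D] C where
  toFun := D.R u
  map_add' := map_add (D.R u)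
  map_smul' := by
    intro k p
    change D.R u (k • p) = k • D.R u p
    revert p
    refine FE2_ind D (fun k => ∀ p : C, D.R u (k • p) = k • D.R u p) ?_ ?_ ?_ ?_ k
    · intro w z p
      rw [FE2_E0_smul, FE2_E0_smul]
      exact (LinearMap.congr_fun (D.E_R w z u) p).symm
    · intro r p
      rw [FE2_alg_smul, FE2_alg_smul, map_smul]
    · intro a b ha hb p
      rw [FE2_add_smul, FE2_add_smul, map_add, ha, hb]
    · intro a b ha hb p
      rw [FE2_mul_smul, FE2_mul_smul, ha, hb]

private theorem FE2_R_apply (D : FE F A C) (u : A) (p : C) : FE2_R D u p = D.R u p := rfl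

/-- A section of `c`. -/
private theorem FE2_exists_s (D : FE F A C) : ∃ s : C →ₗ[F] ↥(Bs F A), ∀ p, D.c (s p : A) = p := by
  have hsurj : Function.Surjective (D.c.comp (Bs F A).subtype) := by
    intro p
    obtain ⟨b, hb, h⟩ := D.c_surj p
    exact ⟨⟨b, hb⟩, h⟩
  obtain ⟨s, hs⟩ := (D.c.comp (Bs F A).subtype).exists_rightInverse_of_surjective
    (LinearMap.range_eq_top.2 hsurj)
  exact ⟨s, fun p => LinearMap.congr_fun hs p⟩

/-- Induction over `C`. -/
private theorem FE2_indC (D : FE F A C) (P : C → Prop) (h1 : ∀ y x : A, P (D.c (y * x)))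
    (h3 : ∀ a b, P a → P b → P (a + b)) (h2 : ∀ (r : F) a, P a → P (r • a)) (p : C) : P p := by
  obtain ⟨b, hb, rfl⟩ := D.c_surj p
  induction hb using Submodule.span_induction with
  | mem x hx =>
    obtain ⟨y, x, rfl⟩ := hx
    exact h1 y x
  | zero =>
    have := h2 0 _ (h1 0 0)
    rw [zero_smul] at this
    rw [map_zero]
    exact this
  | add x y _ _ hx hy => rw [map_add]; exact h3 _ _ hx hy
  | smul r x _ hx => rw [map_smul]; exact h2 _ _ hx

theorem FE.exists_FD (D : FE F A C) :
    ∃ (K : Type w) (_ : CommRing K) (_ : Algebra F K) (_ : Module K C)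
      (_ : IsScalarTower F K C), Nonempty (FD F A K C) := by
  obtain ⟨s, hs⟩ := FE2_exists_s D
  -- values of the section
  have hsc : ∀ b ∈ Bs F A, ((s (D.c b) : A) - b) ∈ NS F A := by
    intro b hb
    apply D.c_ker _ ((Bs F A).sub_mem (s (D.c b)).2 hb)
    rw [map_sub, hs, sub_self]
  have hEs : ∀ b ∈ Bs F A, ∀ u, FE2_E D (s (D.c b) : A) u = FE2_E D b u := by
    intro b hb u
    have h := D.E_N _ (hsc b hb) u
    rw [map_sub, LinearMap.sub_apply, sub_eq_zero] at h
    exact FE2_ext D h
  have hRs : ∀ b ∈ Bs F A, D.R (s (D.c b) : A) = D.R b := by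
    intro b hb
    have h := D.R_N _ (hsc b hb)
    rw [map_sub, sub_eq_zero] at h
    exact h
  -- cyclic symmetry of J3
  have hcyc : ∀ p q r : C, D.J3 p q r = D.J3 q r p := by
    intro p q r
    obtain ⟨a, ha, rfl⟩ := D.c_surj p
    obtain ⟨b, hb, rfl⟩ := D.c_surj q
    obtain ⟨c, hc, rfl⟩ := D.c_surj r
    rw [D.J3_c a ha b hb c hc, D.J3_c b hb c hc a ha, ← J_cyc a b c]
  have hbal1 : ∀ (k : FE2_K D) (p q r : C), D.J3 (k • p) q r = D.J3 p (k • q) r := by
    intro k
    refine FE2_ind D (fun k => ∀ (p q r : C), D.J3 (k • p) q r = D.J3 p (k • q) r) ?_ ?_ ?_ ?_ k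
    · intro w z p q r
      exact D.J3_bal w z p q r
    · intro c p q r
      rw [FE2_alg_smul, FE2_alg_smul]
      simp only [map_smul, LinearMap.smul_apply]
    · intro a b ha hb p q r
      rw [FE2_add_smul, FE2_add_smul]
      simp only [map_add, LinearMap.add_apply, ha, hb]
    · intro a b ha hb p q r
      rw [FE2_mul_smul, ha, hb, ← FE2_mul_smul, mul_comm]
  let EC0 : A →ₗ[F] C →ₗ[F] FE2_K D := ((FE2_E D).comp ((Bs F A).subtype.comp s)).flip
  have hEC0 : ∀ (u : A) (p : C), EC0 u p = FE2_E D (s p : A) u := fun u p => rfl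
  have hECc : ∀ u : A, ∀ b ∈ Bs F A, EC0 u (D.c b) = FE2_E D b u := by
    intro u b hb
    rw [hEC0, hEs b hb]
  have hECK : ∀ (u : A) (k : FE2_K D) (p : C), EC0 u (k • p) = k * EC0 u p := by
    intro u k
    refine FE2_ind D (fun k => ∀ p : C, EC0 u (k • p) = k * EC0 u p) ?_ ?_ ?_ ?_ k
    · intro w z p
      refine FE2_indC D (fun p => EC0 u (FE2_E0 D w z • p) = FE2_E0 D w z * EC0 u p) ?_ ?_ ?_ p
      · intro y x
        rw [FE2_E0_smul, D.c_E, hECc u _ (e_mem_Bs w z y x), hECc u _ (mul_mem_Bs y x)]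
        exact FE2_ext D (D.K7 w z y x u)
      · intro a b ha hb
        rw [smul_add, map_add, map_add, ha, hb, mul_add]
      · intro r a ha
        have e1 : FE2_E0 D w z • r • a = r • FE2_E0 D w z • a := map_smul (D.E w z) r a
        rw [e1, map_smul (EC0 u), map_smul (EC0 u), ha, mul_smul_comm]
    · intro r p
      rw [FE2_alg_smul, map_smul, Algebra.smul_def]
    · intro a b ha hb p
      rw [FE2_add_smul, map_add, ha, hb, add_mul]
    · intro a b ha hb p
      rw [FE2_mul_smul, ha, hb, mul_assoc]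
  let EC1 : A →ₗ[F] C →ₗ[FE2_K D] FE2_K D :=
    { toFun := fun u =>
        { toFun := EC0 u
          map_add' := map_add (EC0 u)
          map_smul' := fun k p => hECK u k p }
      map_add' := fun u v => by
        apply LinearMap.ext
        intro p
        change EC0 (u + v) p = EC0 u p + EC0 v p
        rw [map_add, LinearMap.add_apply]
      map_smul' := fun r u => by
        apply LinearMap.ext
        intro p
        change EC0 (r • u) p = r • EC0 u p
        rw [map_smul, LinearMap.smul_apply] }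
  let R1 : A →ₗ[F] C →ₗ[FE2_K D] C :=
    { toFun := FE2_R D
      map_add' := fun u v => by
        apply LinearMap.ext
        intro p
        change D.R (u + v) p = D.R u p + D.R v p
        rw [map_add, LinearMap.add_apply]
      map_smul' := fun r u => by
        apply LinearMap.ext
        intro p
        change D.R (r • u) p = r • D.R u p
        rw [map_smul, LinearMap.smul_apply] }
  -- the product of `C`
  have hmuK : ∀ (p : C) (k : FE2_K D) (q : C),
      D.R (s (k • q) : A) p = k • D.R (s q : A) p := by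
    intro p k
    refine FE2_ind D (fun k => ∀ q : C, D.R (s (k • q) : A) p = k • D.R (s q : A) p)
      ?_ ?_ ?_ ?_ k
    · intro w z q
      obtain ⟨a, ha, rfl⟩ := D.c_surj p
      rw [D.R_c _ a ha, D.R_c _ a ha, FE2_E0_smul, FE2_E0_smul]
      exact D.K2 w z ha (s q).2 (s (D.E w z q)).2 (by rw [hs, hs])
    · intro r q
      rw [FE2_alg_smul, FE2_alg_smul, map_smul, Submodule.coe_smul, map_smul,
        LinearMap.smul_apply]
    · intro a b ha hb q
      rw [FE2_add_smul, FE2_add_smul, map_add, Submodule.coe_add, map_add, LinearMap.add_apply, ha, hb]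
    · intro a b ha hb q
      rw [FE2_mul_smul, FE2_mul_smul, ha, hb]
  let mu1 : C →ₗ[FE2_K D] C →ₗ[FE2_K D] C :=
    LinearMap.mk₂ (FE2_K D) (fun p q => FE2_R D (s q : A) p)
      (fun a b c => map_add _ _ _) (fun r a b => map_smul _ _ _)
      (fun a b c => by
        change D.R (s (b + c) : A) a = D.R (s b : A) a + D.R (s c : A) a
        rw [map_add, Submodule.coe_add, map_add, LinearMap.add_apply])
      (fun r a b => hmuK a r b)
  refine ⟨FE2_K D, inferInstance, inferInstance, inferInstance, inferInstance, ⟨{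
    c := D.c
    E := FE2_E D
    R := R1
    EC := EC1
    mu := mu1
    J3 := D.J3
    c_surj := D.c_surj
    c_E := fun w z y x => D.c_E w z y x
    E_symm := fun w z => FE2_ext D (D.E_symm w z)
    E_inv := fun w v z => FE2_ext D (D.E_inv w v z)
    E_e := fun w z y x u => FE2_ext D (D.K7 w z y x u)
    E_t := fun x y z u => ?_
    gen := ?_
    R_c := fun u b hb => D.R_c u b hb
    EC_c := fun u b hb => hECc u b hb
    mu_c := fun p hp q hq => ?_
    J3_c := D.J3_c
    J3_bal1 := hbal1
    J3_bal2 := fun k p q r => ?_ }⟩⟩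
  · have h : (2 : ℤ) • FE2_E D (t x y z) u
        = FE2_E D x z * FE2_E D y u - FE2_E D y z * FE2_E D x u := FE2_ext D (D.K9 x y z u)
    rw [← h, zsmul_eq_mul]
    norm_num
  · rw [eq_top_iff]
    intro k _
    refine FE2_ind D (fun k => k ∈ Algebra.adjoin F {k : FE2_K D | ∃ w z : A, k = FE2_E D w z})
      ?_ ?_ ?_ ?_ k
    · intro w z
      exact Algebra.subset_adjoin ⟨w, z, rfl⟩
    · intro r
      exact Subalgebra.algebraMap_mem _ r
    · intro a b ha hb
      exact Subalgebra.add_mem _ ha hb
    · intro a b ha hb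
      exact Subalgebra.mul_mem _ ha hb
  · change D.R (s (D.c q) : A) (D.c p) = D.c (p * q)
    rw [hRs q hq, D.R_c q p hp]
  · rw [hcyc, hbal1, ← hcyc]

/-- The interface exists. -/
theorem exists_FD (F : Type u) (A : Type v) [Field F] [CharZero F] [NonUnitalNonAssocRing A]
    [Module F A] [IsScalarTower F A A] [SMulCommClass F A A] [IsMalcev A] [TF A] :
    ∃ (K C : Type v) (_ : CommRing K) (_ : Algebra F K) (_ : AddCommGroup C) (_ : Module F C)
      (_ : Module K C) (_ : IsScalarTower F K C), Nonempty (FD F A K C) := by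
  obtain ⟨D⟩ := exists_FE F A
  obtain ⟨K, h1, h2, h3, h4, h5⟩ := D.exists_FD
  exact ⟨K, ((Bs F A).map (NS F A).mkQ), h1, h2, inferInstance, inferInstance, h3, h4, h5⟩

end

end Pool.Agent.MalF
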