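import Pool.Agent.MalF.Tree

/-!
# Basic facts on the powers `A^n` (module PWB)
-/

namespace Pool.Agent.MalF

/-- `IsProd n a`: `a` is a product of `n` elements under some arrangement of brackets. -/
inductive IsProd {A : Type*} [Mul A] : ℕ → A → Prop
  | one (a : A) : IsProd 1 a
  | mul {i j : ℕ} {a b : A} : IsProd i a → IsProd j b → IsProd (i + j) (a * b)

theorem IsProd.pos {A : Type*} [Mul A] {n : ℕ} {a : A} (h : IsProd n a) : 1 ≤ n := by
  induction h with
  | one a => exact le_rfl
  | mul _ _ ih1 ih2 => omega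

/-- A product of `n + 1 ≥ 2` elements is a product of `n` elements. -/
theorem IsProd.pred {A : Type*} [Mul A] {n : ℕ} {a : A} (h : IsProd (n + 1) a) (hn : 1 ≤ n) :
    IsProd n a := by
  suffices H : ∀ m (a : A), IsProd m a → 2 ≤ m → IsProd (m - 1) a by
    exact H (n + 1) a h (by omega)
  intro m a h
  induction h with
  | one a => intro h2; omega
  | @mul i j a b h1 h2 ih1 ih2 =>
    intro _
    have p1 := h1.pos
    have p2 := h2.pos
    by_cases hi : 2 ≤ i
    · have := IsProd.mul (ih1 hi) h2
      convert this using 1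
      omega
    · by_cases hj : 2 ≤ j
      · have := IsProd.mul h1 (ih2 hj)
        convert this using 1
        omega
      · have e : i + j - 1 = 1 := by omega
        rw [e]
        exact IsProd.one _

theorem IsProd.of_le {A : Type*} [Mul A] {n m : ℕ} {a : A} (h : IsProd m a) (hn : 1 ≤ n)
    (hnm : n ≤ m) : IsProd n a := by
  obtain ⟨k, rfl⟩ := Nat.exists_eq_add_of_le hnm
  clear hnm
  induction k with
  | zero => exact h
  | succ k ih => exact ih (IsProd.pred h (by omega))

theorem isProd_lift {A α : Type*} [Mul A] (x : α → A) (t : FreeMagma α) :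
    IsProd t.length (FreeMagma.lift x t) := by
  induction t with
  | ih1 a => exact IsProd.one _
  | ih2 s t hs ht =>
    rw [map_mul]
    exact IsProd.mul hs ht

private theorem length_map {α β : Type*} (f : α → β) (t : FreeMagma α) :
    (FreeMagma.map f t).length = t.length := by
  induction t with
  | ih1 a => rfl
  | ih2 s t hs ht =>
    rw [map_mul]
    change (FreeMagma.map f s).length + (FreeMagma.map f t).length = s.length + t.length
    rw [hs, ht]

private theorem lift_map {α β A : Type*} [Mul A] (f : α → β) (x : β → A) (t : FreeMagma α) :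
    FreeMagma.lift x (FreeMagma.map f t) = FreeMagma.lift (fun i => x (f i)) t := by
  induction t with
  | ih1 a => rfl
  | ih2 s t hs ht => rw [map_mul, map_mul, map_mul, hs, ht]

theorem isProd_iff {A : Type*} [Mul A] {n : ℕ} {a : A} :
    IsProd n a ↔ ∃ (t : FreeMagma ℕ) (x : ℕ → A), t.length = n ∧ a = FreeMagma.lift x t := by
  constructor
  · intro h
    induction h with
    | one a => exact ⟨FreeMagma.of 0, fun _ => a, rfl, rfl⟩
    | mul _ _ ih1 ih2 =>
      obtain ⟨t1, x1, l1, rfl⟩ := ih1
      obtain ⟨t2, x2, l2, rfl⟩ := ih2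
      refine ⟨FreeMagma.map (fun i => 2 * i) t1 * FreeMagma.map (fun i => 2 * i + 1) t2,
        fun k => if k % 2 = 0 then x1 (k / 2) else x2 (k / 2), ?_, ?_⟩
      · change (FreeMagma.map (fun i => 2 * i) t1).length +
          (FreeMagma.map (fun i => 2 * i + 1) t2).length = _
        rw [length_map, length_map, l1, l2]
      · rw [map_mul, lift_map, lift_map]
        congr 2
        · congr 1
          funext i
          rw [if_pos (by omega)]
          congr 1
          omega
        · congr 1
          funext i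
          rw [if_neg (by omega)]
          congr 1
          omega
  · rintro ⟨t, x, rfl, rfl⟩
    exact isProd_lift x t

section
variable {F A : Type*} [Field F] [NonUnitalNonAssocRing A] [Module F A]

theorem pw_eq_span (n : ℕ) : pw F A n = Submodule.span F {a | IsProd n a} := by
  unfold pw
  congr 1
  ext a
  exact isProd_iff.symm

theorem IsProd.mem_pw {n : ℕ} {a : A} (h : IsProd n a) : a ∈ pw F A n := by
  rw [pw_eq_span]
  exact Submodule.subset_span h

/-- Induction over `A ^ n`. -/
theorem pw_induction {n : ℕ} {p : A → Prop} (hp : ∀ a, IsProd n a → p a) (h0 : p 0)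
    (hadd : ∀ a b, p a → p b → p (a + b)) (hsmul : ∀ (c : F) a, p a → p (c • a)) {a : A}
    (ha : a ∈ pw F A n) : p a := by
  rw [pw_eq_span] at ha
  exact Submodule.span_induction (p := fun a _ => p a) hp h0 (fun a b _ _ => hadd a b)
    (fun c a _ => hsmul c a) ha

variable [IsScalarTower F A A] [SMulCommClass F A A]

/-- `A^i A^j ⊆ A^(i+j)`: relabel the letters of the two trees by even and odd numbers;
`pw F A 0 = ⊥` as trees are not empty. -/
theorem pw_mul {i j : ℕ} {a b : A} (ha : a ∈ pw F A i) (hb : b ∈ pw F A j) :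
    a * b ∈ pw F A (i + j) := by
  refine pw_induction (F := F) (p := fun a => a * b ∈ pw F A (i + j)) ?_ ?_ ?_ ?_ ha
  · intro x hx
    refine pw_induction (F := F) (p := fun b => x * b ∈ pw F A (i + j)) ?_ ?_ ?_ ?_ hb
    · intro y hy
      exact (IsProd.mul hx hy).mem_pw
    · rw [mul_zero]; exact Submodule.zero_mem _
    · intro y z h1 h2
      rw [mul_add]; exact Submodule.add_mem _ h1 h2
    · intro c y h1
      rw [mul_smul_comm]; exact Submodule.smul_mem _ _ h1
  · rw [zero_mul]; exact Submodule.zero_mem _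
  · intro y z h1 h2
    rw [add_mul]; exact Submodule.add_mem _ h1 h2
  · intro c y h1
    rw [smul_mul_assoc]; exact Submodule.smul_mem _ _ h1

omit [IsScalarTower F A A] [SMulCommClass F A A] in
theorem pw_one : pw F A 1 = ⊤ := by
  rw [eq_top_iff]
  intro a _
  exact (IsProd.one a).mem_pw

omit [IsScalarTower F A A] [SMulCommClass F A A] in
theorem pw_two : pw F A 2 = Bs F A := by
  rw [pw_eq_span]
  unfold Bs
  congr 1
  ext a
  simp only [Set.mem_ofPred_eq]
  constructor
  · intro h
    have key : ∀ (m : ℕ) (a : A), IsProd m a → 2 ≤ m → ∃ x y : A, a = x * y := by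
      intro m a h
      induction h with
      | one a => intro h2; omega
      | mul _ _ _ _ => intro _; exact ⟨_, _, rfl⟩
    exact key 2 a h le_rfl
  · rintro ⟨x, y, rfl⟩
    exact IsProd.mul (IsProd.one x) (IsProd.one y)

omit [IsScalarTower F A A] [SMulCommClass F A A] in
theorem pw_anti {m n : ℕ} (hm : 1 ≤ m) (hmn : m ≤ n) : pw F A n ≤ pw F A m := by
  rw [pw_eq_span, pw_eq_span]
  exact Submodule.span_mono fun _ h => IsProd.of_le h hm hmn

omit [IsScalarTower F A A] [SMulCommClass F A A] in
/-- `A^(n+1) ⊆ A^n`: strong induction on `n`; a tree with `n+1 ≥ 3` leaves is a product with a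
factor with at least two leaves. -/
theorem pw_succ_le (n : ℕ) (hn : 1 ≤ n) : pw F A (n + 1) ≤ pw F A n :=
  pw_anti hn (Nat.le_succ n)

omit [IsScalarTower F A A] [SMulCommClass F A A] in
theorem evm_mem_pw {α : Type*} (x : α → A) (s : FreeMagma α) : evm x s ∈ pw F A s.length :=
  (isProd_lift x s).mem_pw

/-- Substitution: if `x i ∈ A^k` for all `i` (`k ≥ 1`), then `evm x s ∈ A^(k * length)`. -/
theorem evm_mem_pw' {α : Type*} (x : α → A) (k : ℕ) (hk : 1 ≤ k) (hx : ∀ i, x i ∈ pw F A k)
    (s : FreeMagma α) : evm x s ∈ pw F A (k * s.length) := by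
  induction s with
  | ih1 a =>
    change x a ∈ pw F A (k * 1)
    rw [mul_one]
    exact hx a
  | ih2 s t hs ht =>
    change evm x (s * t) ∈ pw F A (k * (s.length + t.length))
    have e2 : evm x (s * t) = evm x s * evm x t := map_mul _ _ _
    rw [e2, mul_add]
    exact pw_mul hs ht

omit [IsScalarTower F A A] [SMulCommClass F A A] in
theorem IsProd.map' {B : Type*} [NonUnitalNonAssocRing B] [Module F B] (φ : A →ₗ[F] B)
    (hφ : ∀ a b, φ (a * b) = φ a * φ b) {n : ℕ} {a : A} (h : IsProd n a) : IsProd n (φ a) := by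
  induction h with
  | one a => exact IsProd.one _
  | mul _ _ ih1 ih2 => rw [hφ]; exact IsProd.mul ih1 ih2

omit [IsScalarTower F A A] [SMulCommClass F A A] in
/-- A homomorphism maps `A^n` to `B^n`. -/
theorem pw_map {B : Type*} [NonUnitalNonAssocRing B] [Module F B] (φ : A →ₗ[F] B)
    (hφ : ∀ a b, φ (a * b) = φ a * φ b) (n : ℕ) {a : A} (ha : a ∈ pw F A n) :
    φ a ∈ pw F B n := by
  refine pw_induction (F := F) (p := fun a => φ a ∈ pw F B n) ?_ ?_ ?_ ?_ ha
  · intro x hx; exact (IsProd.map' φ hφ hx).mem_pw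
  · rw [map_zero]; exact Submodule.zero_mem _
  · intro x y h1 h2; rw [map_add]; exact Submodule.add_mem _ h1 h2
  · intro c x h1; rw [map_smul]; exact Submodule.smul_mem _ _ h1

omit [IsScalarTower F A A] [SMulCommClass F A A] in
theorem IsProd.lift' {B : Type*} [NonUnitalNonAssocRing B] [Module F B] (φ : A →ₗ[F] B)
    (hφ : ∀ a b, φ (a * b) = φ a * φ b) (hs : Function.Surjective φ) {n : ℕ} {b : B}
    (h : IsProd n b) : ∃ a, IsProd n a ∧ φ a = b := by
  induction h with
  | one b =>
    obtain ⟨a, ha⟩ := hs b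
    exact ⟨a, IsProd.one a, ha⟩
  | mul _ _ ih1 ih2 =>
    obtain ⟨a1, h1, e1⟩ := ih1
    obtain ⟨a2, h2, e2⟩ := ih2
    exact ⟨a1 * a2, IsProd.mul h1 h2, by rw [hφ, e1, e2]⟩

omit [IsScalarTower F A A] [SMulCommClass F A A] in
/-- A surjective homomorphism maps `A^n` onto `B^n`. -/
theorem pw_map_surj {B : Type*} [NonUnitalNonAssocRing B] [Module F B] (φ : A →ₗ[F] B)
    (hφ : ∀ a b, φ (a * b) = φ a * φ b) (hs : Function.Surjective φ) (n : ℕ) {b : B}
    (hb : b ∈ pw F B n) : ∃ a ∈ pw F A n, φ a = b := by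
  refine pw_induction (F := F) (p := fun b => ∃ a ∈ pw F A n, φ a = b) ?_ ?_ ?_ ?_ hb
  · intro x hx
    obtain ⟨a, ha, e⟩ := IsProd.lift' φ hφ hs hx
    exact ⟨a, ha.mem_pw, e⟩
  · exact ⟨0, Submodule.zero_mem _, map_zero _⟩
  · rintro x y ⟨a, ha, e⟩ ⟨b, hb, e'⟩
    exact ⟨a + b, Submodule.add_mem _ ha hb, by rw [map_add, e, e']⟩
  · rintro c x ⟨a, ha, e⟩
    exact ⟨c • a, Submodule.smul_mem _ _ ha, by rw [map_smul, e]⟩

/-- `e(w,z|y,x) ∈ A^(i+j+2)` for `y ∈ A^i`, `x ∈ A^j`. -/
theorem e_mem_pw {i j : ℕ} {y x : A} (w z : A) (hy : y ∈ pw F A i) (hx : x ∈ pw F A j) :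
    e w z y x ∈ pw F A (i + j + 2) := by
  have hw : w ∈ pw F A 1 := (IsProd.one w).mem_pw
  have hz : z ∈ pw F A 1 := (IsProd.one z).mem_pw
  have key : ∀ {a b c n : ℕ} {p q r s : A}, p ∈ pw F A a → q ∈ pw F A b → r ∈ pw F A c →
      s ∈ pw F A n → t p q r * s ∈ pw F A (a + b + c + n) := by
    intro a b c n p q r s hp hq hr hs
    refine pw_mul ?_ hs
    unfold t
    refine Submodule.sub_mem _ (Submodule.sub_mem _ ?_ ?_) ?_
    · exact Submodule.smul_of_tower_mem _ _ (pw_mul (pw_mul hp hq) hr)
    · have := pw_mul (pw_mul hq hr) hp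
      have e1 : b + c + a = a + b + c := by omega
      rwa [e1] at this
    · have := pw_mul (pw_mul hr hp) hq
      have e1 : c + a + b = a + b + c := by omega
      rwa [e1] at this
  unfold e
  refine Submodule.add_mem _ (Submodule.add_mem _ ?_ ?_) ?_
  · have := key hw hy hz hx
    have e1 : 1 + i + 1 + j = i + j + 2 := by omega
    rwa [e1] at this
  · have := key hx hy hz hw
    have e1 : j + i + 1 + 1 = i + j + 2 := by omega
    rwa [e1] at this
  · have := key hx hw hz hy
    have e1 : j + 1 + 1 + i = i + j + 2 := by omega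
    rwa [e1] at this

end

end Pool.Agent.MalF
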