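import Pool.Agent.MalF.Expand
import Pool.Agent.MalF.Pw

/-!
# Powers of `A` and powers of the ideal `I` (module FG2, section 7)
-/

namespace Pool.Agent.MalF

private theorem FG2_split {A : Type*} [Mul A] {n : ℕ} {a : A} (h : IsProd n a) (hn : 2 ≤ n) :
    ∃ (i j : ℕ) (y x : A), IsProd i y ∧ IsProd j x ∧ i + j = n ∧ a = y * x := by
  cases h with
  | one a => omega
  | @mul i j a b h1 h2 => exact ⟨i, j, a, b, h1, h2, rfl, rfl⟩

section
variable {F A K C : Type*} [Field F] [CharZero F] [NonUnitalNonAssocRing A] [Module F A]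
    [IsScalarTower F A A] [SMulCommClass F A A] [IsMalcev A] [TF A] [CommRing K] [Algebra F K]
    [AddCommGroup C] [Module F C] [Module K C] [IsScalarTower F K C]

omit [CharZero F] [IsMalcev A] [TF A] in
private theorem FG2_E (D : FD F A K C) (n : ℕ) (w z b : A) (hb : b ∈ pw F A (n + 2)) :
    ∃ b' ∈ pw F A (n + 1 + 2), D.c b' = D.E w z • D.c b := by
  refine pw_induction (F := F)
    (p := fun b => ∃ b' ∈ pw F A (n + 1 + 2), D.c b' = D.E w z • D.c b) ?_ ?_ ?_ ?_ hb
  · intro b hb
    obtain ⟨i, j, y, x, hy, hx, hij, rfl⟩ := FG2_split hb (by omega)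
    refine ⟨e w z y x, ?_, (D.c_E w z y x).symm⟩
    have h1 := e_mem_pw (F := F) w z hy.mem_pw hx.mem_pw
    exact pw_anti (by omega) (by omega) h1
  · exact ⟨0, Submodule.zero_mem _, by rw [map_zero, smul_zero]⟩
  · rintro a b ⟨a', ha', ea⟩ ⟨b', hb', eb⟩
    exact ⟨a' + b', Submodule.add_mem _ ha' hb', by rw [map_add, map_add, ea, eb, smul_add]⟩
  · rintro c a ⟨a', ha', ea⟩
    refine ⟨c • a', Submodule.smul_mem _ _ ha', ?_⟩
    rw [map_smul, map_smul, ea, smul_comm]

/-- FG2.  Elements of `I^n C` have representatives in `A^(n+2)`.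
Proof: `I^n C` is additively generated by the `E(w_1,z_1) ... E(w_n,z_n) p` (`gen` is not needed:
`I` is generated by the `E(w,z)` as an ideal, absorb the factors from `K` in `p`), `p = c b`,
`b ∈ Bs = A^2`; if `b ∈ A^j`, `j ≥ 2`, then `b` is a combination of products `y * x`,
`y ∈ A^i`, `x ∈ A^(j-i)`, and `E w z • c (y * x) = c (e w z y x)` with
`e w z y x ∈ A^(j+2) ⊆ A^(j+1)`. -/
theorem FD.ideal_pow_rep (D : FD F A K C) (n : ℕ) (p : C)
    (hp : p ∈ (D.I ^ n • (⊤ : Submodule K C))) : ∃ b ∈ pw F A (n + 2), D.c b = p := by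
  induction n generalizing p with
  | zero =>
    obtain ⟨b, hb, rfl⟩ := D.c_surj p
    exact ⟨b, by rw [zero_add, pw_two]; exact hb, rfl⟩
  | succ n ih =>
    rw [pow_succ', ← smul_eq_mul, Submodule.smul_assoc] at hp
    refine Submodule.smul_induction_on hp ?_ ?_
    · intro r hr m hm
      unfold FD.I at hr
      induction hr using Submodule.span_induction generalizing m with
      | mem r hr =>
        obtain ⟨w, z, rfl⟩ := hr
        obtain ⟨b, hb, rfl⟩ := ih m hm
        exact FG2_E D n w z b hb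
      | zero => exact ⟨0, Submodule.zero_mem _, by rw [map_zero, zero_smul]⟩
      | add x y _ _ hx hy =>
        obtain ⟨b1, hb1, e1⟩ := hx m hm
        obtain ⟨b2, hb2, e2⟩ := hy m hm
        exact ⟨b1 + b2, Submodule.add_mem _ hb1 hb2, by rw [map_add, e1, e2, add_smul]⟩
      | smul a x _ hx =>
        obtain ⟨b1, hb1, e1⟩ := hx (a • m) (Submodule.smul_mem _ _ hm)
        refine ⟨b1, hb1, ?_⟩
        rw [e1, smul_smul, smul_eq_mul, mul_comm]
    · rintro x y ⟨b1, hb1, e1⟩ ⟨b2, hb2, e2⟩
      exact ⟨b1 + b2, Submodule.add_mem _ hb1 hb2, by rw [map_add, e1, e2]⟩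

omit [CharZero F] [IsMalcev A] [TF A] in
private theorem FG2_prod (D : FD F A K C) {α : Type*} (x : α → A)
    (l : List (FreeMagma α × FreeMagma α)) :
    (l.map fun s => D.E (evm x s.1) (evm x s.2)).prod ∈ D.I ^ l.length := by
  induction l with
  | nil => simp
  | cons s l ih =>
    rw [List.map_cons, List.prod_cons, List.length_cons, pow_succ']
    exact Ideal.mul_mem_mul (Ideal.subset_span ⟨_, _, rfl⟩) ih

private theorem FG2_len {α : Type*} (l : List (FreeMagma α × FreeMagma α))
    (h : ∀ s ∈ l, s.1.length ≤ 4 ∧ s.2.length ≤ 4) :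
    (l.flatMap fun s => lv s.1 ++ lv s.2).length ≤ 8 * l.length := by
  induction l with
  | nil => simp
  | cons s l ih =>
    rw [List.flatMap_cons, List.length_append, List.length_append, lv_length, lv_length,
      List.length_cons]
    have h1 := h s (by simp)
    have h2 := ih (fun q hq => h q (by simp [hq]))
    omega

/-- FG2.  Classes of elements of `A^N`, `N ≥ 8e + 4`, are in `I^e C`.
Proof: `expand` for a tree with `N` leaves: a term has vector with at most four leaves and
scalars with at most eight leaves each, so at least `e` scalars. -/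
theorem FD.pw_ideal (D : FD F A K C) (e' N : ℕ) (hN : 8 * e' + 4 ≤ N) (b : A)
    (hb : b ∈ pw F A N) : D.c b ∈ (D.I ^ e' • (⊤ : Submodule K C)) := by
  unfold pw at hb
  induction hb using Submodule.span_induction with
  | mem b hb =>
    obtain ⟨t, x, ht, rfl⟩ := hb
    obtain ⟨L, hL, hev⟩ := D.expand (F := F) t (by omega)
    have h0 : D.c (FreeMagma.lift x t) = D.c (evm x t) := rfl
    rw [h0, hev x]
    refine list_sum_mem ?_
    intro y hy
    obtain ⟨T, hT, rfl⟩ := List.mem_map.1 hy
    unfold FD.evE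
    refine Submodule.smul_of_tower_mem _ _ ?_
    refine Submodule.smul_mem_smul ?_ Submodule.mem_top
    obtain ⟨⟨_, h4, h8⟩, hperm⟩ := hL T hT
    have h1 := FG2_len T.sc h8
    have h2 := hperm.length_eq
    unfold ETerm.leaves at h2
    rw [List.length_append, lv_length, lv_length, ht] at h2
    have h3 : e' ≤ T.sc.length := by omega
    exact Ideal.pow_le_pow_right h3 (FG2_prod D x T.sc)
  | zero => rw [map_zero]; exact Submodule.zero_mem _
  | add x y _ _ hx hy => rw [map_add]; exact Submodule.add_mem _ hx hy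
  | smul a x _ hx => rw [map_smul]; exact Submodule.smul_of_tower_mem _ _ hx

end

end Pool.Agent.MalF
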