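import Mathlib

/-!
# Uniform torsion bound over noetherian rings (module TOR)
-/

namespace Pool.Agent.MalF

/-- `K` noetherian, `I` an ideal, `Q` a finitely generated module, `Z` a submodule: the exponent of
`I`-torsion modulo `Z` is bounded.
Proof: `H = {m | ∃ n, ∀ k ∈ I^n, k • m ∈ Z}` is a submodule (`I^(max n n')`); it is finitely
generated; take the maximal exponent of the generators. -/
theorem tors_bound {K Q : Type*} [CommRing K] [IsNoetherianRing K] [AddCommGroup Q] [Module K Q]
    [Module.Finite K Q] (I : Ideal K) (Z : Submodule K Q) :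
    ∃ e : ℕ, ∀ m : Q, (∃ n : ℕ, ∀ k ∈ I ^ n, k • m ∈ Z) → ∀ k ∈ I ^ e, k • m ∈ Z := by
  let H : ℕ →o Submodule K Q :=
    { toFun := fun e =>
        { carrier := {t | ∀ k ∈ I ^ e, k • t ∈ Z}
          zero_mem' := fun k _ => by rw [smul_zero]; exact Z.zero_mem
          add_mem' := fun {a b} ha hb k hk => by
            rw [smul_add]; exact Z.add_mem (ha k hk) (hb k hk)
          smul_mem' := fun r t ht k hk => by
            rw [← mul_smul]
            exact ht _ (Ideal.mul_mem_right _ _ hk) }
      monotone' := fun e e' hee t ht k hk => ht k (Ideal.pow_le_pow_right hee hk) }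
  obtain ⟨e₀, he₀⟩ := monotone_stabilizes_iff_noetherian.mpr
    (inferInstance : IsNoetherian K Q) H
  refine ⟨e₀, fun t ⟨e, he⟩ => ?_⟩
  have h1 : t ∈ H (max e₀ e) := H.monotone (le_max_right e₀ e) he
  rw [← he₀ (max e₀ e) (le_max_left e₀ e)] at h1
  exact h1

end Pool.Agent.MalF
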