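import Pool.Agent.MalF.FG1
import Pool.Agent.MalF.FG2
import Pool.Agent.MalF.Tors

/-!
# The finitely generated case (module FG3, section 7)
-/

open scoped TensorProduct

namespace Pool.Agent.MalF

section
variable {F A K C : Type*} [Field F] [NonUnitalNonAssocRing A] [Module F A]
    [IsScalarTower F A A] [SMulCommClass F A A] [CommRing K] [Algebra F K]
    [AddCommGroup C] [Module F C] [Module K C] [IsScalarTower F K C]

/-- `J3` on `C × C`, with values additive maps -/
private def FG3_phi0 (D : FD F A K C) : C →+ C →+ C →+ A where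
  toFun p :=
    { toFun := fun q => (D.J3 p q).toAddMonoidHom
      map_zero' := by ext r; simp
      map_add' := by intro a b; ext r; simp }
  map_zero' := by ext q r; simp
  map_add' := by intro a b; ext q r; simp

private theorem FG3_phi0_apply (D : FD F A K C) (p q r : C) :
    FG3_phi0 D p q r = D.J3 p q r := rfl

private noncomputable def FG3_phi1 (D : FD F A K C) : C ⊗[K] C →+ C →+ A :=
  TensorProduct.liftAddHom (FG3_phi0 D) (by
    intro k p q
    ext r
    rw [FG3_phi0_apply, FG3_phi0_apply]
    exact D.J3_bal1 k p q r)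

private theorem FG3_phi1_tmul (D : FD F A K C) (p q r : C) :
    FG3_phi1 D (p ⊗ₜ[K] q) r = D.J3 p q r := rfl

private noncomputable def FG3_phi (D : FD F A K C) : (C ⊗[K] C) ⊗[K] C →+ A :=
  TensorProduct.liftAddHom (FG3_phi1 D) (by
    intro k m r
    induction m using TensorProduct.induction_on with
    | zero => rw [smul_zero, map_zero]; rfl
    | tmul p q =>
      rw [TensorProduct.smul_tmul', FG3_phi1_tmul, FG3_phi1_tmul, D.J3_bal1, D.J3_bal2]
    | add x y hx hy =>
      rw [smul_add, map_add, map_add, AddMonoidHom.add_apply, AddMonoidHom.add_apply, hx, hy])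

private theorem FG3_phi_tmul (D : FD F A K C) (p q r : C) :
    FG3_phi D ((p ⊗ₜ[K] q) ⊗ₜ[K] r) = D.J3 p q r := rfl

/-- value of a tree with the product `mu` -/
private def FG3_val (D : FD F A K C) {α : Type*} (b : α → C) : FreeMagma α → C
  | .of a => b a
  | .mul s t => D.mu (FG3_val D b s) (FG3_val D b t)

omit [IsScalarTower F A A] [SMulCommClass F A A] in
private theorem FG3_mem_Bs (x y : A) : x * y ∈ Bs F A := Submodule.subset_span ⟨x, y, rfl⟩

omit [IsScalarTower F A A] [SMulCommClass F A A] in
private theorem FG3_evm_Bs {α : Type*} (b : α → A) (hb : ∀ i, b i ∈ Bs F A) (s : FreeMagma α) :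
    evm b s ∈ Bs F A := by
  cases s with
  | of a => exact hb a
  | mul s t => exact FG3_mem_Bs _ _

private theorem FG3_val_evm (D : FD F A K C) {α : Type*} (b : α → A) (hb : ∀ i, b i ∈ Bs F A)
    (s : FreeMagma α) : FG3_val D (fun i => D.c (b i)) s = D.c (evm b s) := by
  induction s with
  | ih1 a => rfl
  | ih2 s t hs ht =>
    have e1 : FG3_val D (fun i => D.c (b i)) (s * t)
      = D.mu (FG3_val D (fun i => D.c (b i)) s) (FG3_val D (fun i => D.c (b i)) t) := rfl
    have e2 : evm b (s * t) = evm b s * evm b t := map_mul _ _ _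
    rw [e1, e2, hs, ht, D.mu_c _ (FG3_evm_Bs b hb s) _ (FG3_evm_Bs b hb t)]

private theorem FG3_val_smul (D : FD F A K C) {α : Type*} (k : α → K) (b : α → C)
    (s : FreeMagma α) :
    FG3_val D (fun i => k i • b i) s = ((lv s).map k).prod • FG3_val D b s := by
  induction s with
  | ih1 a =>
    rw [lv_of, List.map_singleton, List.prod_singleton]; rfl
  | ih2 s t hs ht =>
    have e1 : ∀ b : α → C, FG3_val D b (s * t) = D.mu (FG3_val D b s) (FG3_val D b t) :=
      fun b => rfl
    rw [e1, e1, hs, ht, lv_mul, List.map_append, List.prod_append, map_smul, map_smul,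
      LinearMap.smul_apply, smul_smul, mul_comm]

private theorem FG3_val_notMem (D : FD F A K C) {α : Type*} [DecidableEq α] (b : α → C) (i : α)
    (p : C) (s : FreeMagma α) (h : i ∉ lv s) :
    FG3_val D (Function.update b i p) s = FG3_val D b s := by
  induction s with
  | ih1 a =>
    rw [lv_of, List.mem_singleton] at h
    change Function.update b i p a = b a
    rw [Function.update_of_ne (Ne.symm h)]
  | ih2 s t hs ht =>
    have e1 : ∀ b : α → C, FG3_val D b (s * t) = D.mu (FG3_val D b s) (FG3_val D b t) :=
      fun b => rfl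
    rw [lv_mul, List.mem_append, not_or] at h
    rw [e1, e1, hs h.1, ht h.2]

private theorem FG3_val_add (D : FD F A K C) {α : Type*} [DecidableEq α] (b : α → C) (i : α)
    (p q : C) (s : FreeMagma α) (h : (lv s).count i = 1) :
    FG3_val D (Function.update b i (p + q)) s
      = FG3_val D (Function.update b i p) s + FG3_val D (Function.update b i q) s := by
  induction s with
  | ih1 a =>
    rw [lv_of] at h
    have h1 : a = i := by
      by_contra hne
      rw [List.count_singleton] at h
      simp [hne] at h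
    subst h1
    change Function.update b a (p + q) a = Function.update b a p a + Function.update b a q a
    rw [Function.update_self, Function.update_self, Function.update_self]
  | ih2 s t hs ht =>
    have e1 : ∀ b : α → C, FG3_val D b (s * t) = D.mu (FG3_val D b s) (FG3_val D b t) :=
      fun b => rfl
    rw [lv_mul, List.count_append] at h
    rw [e1, e1, e1]
    by_cases h0 : (lv s).count i = 0
    · have h1 : (lv t).count i = 1 := by omega
      have h2 : i ∉ lv s := List.count_eq_zero.1 h0
      rw [FG3_val_notMem D b i _ s h2, FG3_val_notMem D b i _ s h2, FG3_val_notMem D b i _ s h2,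
        ht h1, map_add]
    · have h1 : (lv s).count i = 1 := by omega
      have h3 : (lv t).count i = 0 := by omega
      have h2 : i ∉ lv t := List.count_eq_zero.1 h3
      rw [FG3_val_notMem D b i _ t h2, FG3_val_notMem D b i _ t h2, FG3_val_notMem D b i _ t h2,
        hs h1, map_add, LinearMap.add_apply]

/-- one term of the form -/
private noncomputable def FG3_T (D : FD F A K C) {α : Type*} (b : α → C)
    (q : F × FreeMagma α × FreeMagma α × FreeMagma α) : (C ⊗[K] C) ⊗[K] C :=
  algebraMap F K q.1 •
    ((FG3_val D b q.2.1 ⊗ₜ[K] FG3_val D b q.2.2.1) ⊗ₜ[K] FG3_val D b q.2.2.2)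

private noncomputable def FG3_g (D : FD F A K C) {α : Type*} (f : JForm F α) (b : α → C) :
    (C ⊗[K] C) ⊗[K] C := (f.map (FG3_T D b)).sum

private theorem FG3_phi_g (D : FD F A K C) {α : Type*} (f : JForm F α) (b : α → A)
    (hb : ∀ i, b i ∈ Bs F A) : FG3_phi D (FG3_g D f (fun i => D.c (b i))) = evJ b f := by
  unfold FG3_g evJ
  rw [map_list_sum, List.map_map]
  congr 1
  refine List.map_congr_left ?_
  intro q _
  change FG3_phi D (FG3_T D _ q) = _
  unfold FG3_T
  rw [TensorProduct.smul_tmul', TensorProduct.smul_tmul', FG3_phi_tmul, algebraMap_smul, map_smul,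
    LinearMap.smul_apply, LinearMap.smul_apply, FG3_val_evm D b hb, FG3_val_evm D b hb,
    FG3_val_evm D b hb, D.J3_c _ (FG3_evm_Bs b hb _) _ (FG3_evm_Bs b hb _) _ (FG3_evm_Bs b hb _)]

private theorem FG3_T_smul (D : FD F A K C) {α : Type*} (k : α → K) (b : α → C)
    (q : F × FreeMagma α × FreeMagma α × FreeMagma α) :
    FG3_T D (fun i => k i • b i) q
      = (((lv q.2.1 ++ lv q.2.2.1 ++ lv q.2.2.2).map k).prod) • FG3_T D b q := by
  unfold FG3_T
  rw [FG3_val_smul, FG3_val_smul, FG3_val_smul, List.map_append, List.map_append,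
    List.prod_append, List.prod_append, TensorProduct.smul_tmul_smul,
    TensorProduct.smul_tmul_smul, smul_smul, smul_smul, mul_comm]

private theorem FG3_g_smul (D : FD F A K C) {m : ℕ} (f : JForm F (Fin m)) (hf : JMulti f)
    (k : Fin m → K) (b : Fin m → C) :
    FG3_g D f (fun i => k i • b i) = (∏ i, k i) • FG3_g D f b := by
  unfold FG3_g
  rw [List.smul_sum, List.map_map]
  congr 1
  refine List.map_congr_left ?_
  intro q hq
  change FG3_T D _ q = (∏ i, k i) • FG3_T D _ q
  rw [FG3_T_smul]
  congr 1
  have h2 := ((hf q hq).map k).prod_eq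
  rw [h2, ← List.prod_ofFn, List.ofFn_eq_map]

private theorem FG3_T_add (D : FD F A K C) {α : Type*} [DecidableEq α] (b : α → C) (i : α)
    (x y : C) (q : F × FreeMagma α × FreeMagma α × FreeMagma α)
    (h : (lv q.2.1 ++ lv q.2.2.1 ++ lv q.2.2.2).count i = 1) :
    FG3_T D (Function.update b i (x + y)) q
      = FG3_T D (Function.update b i x) q + FG3_T D (Function.update b i y) q := by
  unfold FG3_T
  rw [List.count_append, List.count_append] at h
  by_cases h1 : (lv q.2.1).count i = 0
  · have n1 : i ∉ lv q.2.1 := List.count_eq_zero.1 h1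
    by_cases h2 : (lv q.2.2.1).count i = 0
    · have n2 : i ∉ lv q.2.2.1 := List.count_eq_zero.1 h2
      have h3 : (lv q.2.2.2).count i = 1 := by omega
      rw [FG3_val_add D b i x y _ h3, FG3_val_notMem D b i _ _ n1, FG3_val_notMem D b i _ _ n1,
        FG3_val_notMem D b i _ _ n1, FG3_val_notMem D b i _ _ n2, FG3_val_notMem D b i _ _ n2,
        FG3_val_notMem D b i _ _ n2, TensorProduct.tmul_add, smul_add]
    · have h2' : (lv q.2.2.1).count i = 1 := by omega
      have h3 : (lv q.2.2.2).count i = 0 := by omega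
      have n3 : i ∉ lv q.2.2.2 := List.count_eq_zero.1 h3
      rw [FG3_val_add D b i x y _ h2', FG3_val_notMem D b i _ _ n1, FG3_val_notMem D b i _ _ n1,
        FG3_val_notMem D b i _ _ n1, FG3_val_notMem D b i _ _ n3, FG3_val_notMem D b i _ _ n3,
        FG3_val_notMem D b i _ _ n3, TensorProduct.tmul_add, TensorProduct.add_tmul, smul_add]
  · have h1' : (lv q.2.1).count i = 1 := by omega
    have h2 : (lv q.2.2.1).count i = 0 := by omega
    have h3 : (lv q.2.2.2).count i = 0 := by omega
    have n2 : i ∉ lv q.2.2.1 := List.count_eq_zero.1 h2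
    have n3 : i ∉ lv q.2.2.2 := List.count_eq_zero.1 h3
    rw [FG3_val_add D b i x y _ h1', FG3_val_notMem D b i _ _ n2, FG3_val_notMem D b i _ _ n2,
      FG3_val_notMem D b i _ _ n2, FG3_val_notMem D b i _ _ n3, FG3_val_notMem D b i _ _ n3,
      FG3_val_notMem D b i _ _ n3, TensorProduct.add_tmul, TensorProduct.add_tmul, smul_add]

private theorem FG3_g_add (D : FD F A K C) {m : ℕ} (f : JForm F (Fin m)) (hf : JMulti f)
    (b : Fin m → C) (i : Fin m) (x y : C) :
    FG3_g D f (Function.update b i (x + y))
      = FG3_g D f (Function.update b i x) + FG3_g D f (Function.update b i y) := by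
  unfold FG3_g
  rw [← List.sum_map_add]
  congr 1
  refine List.map_congr_left ?_
  intro q hq
  refine FG3_T_add D b i x y q ?_
  rw [(hf q hq).count_eq]
  exact List.count_eq_one_of_mem (List.nodup_finRange m) (List.mem_finRange i)

/-- the elements all of whose `K`-multiples are killed by `Φ` -/
private noncomputable def FG3_Z0 (D : FD F A K C) : Submodule K ((C ⊗[K] C) ⊗[K] C) where
  carrier := {m | ∀ k : K, FG3_phi D (k • m) = 0}
  add_mem' := by
    intro a b ha hb k
    rw [smul_add, map_add, ha k, hb k, add_zero]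
  zero_mem' := by
    intro k
    rw [smul_zero, map_zero]
  smul_mem' := by
    intro c a ha k
    rw [smul_smul]
    exact ha _

omit [IsScalarTower F A A] [SMulCommClass F A A] [Algebra F K] [Module F C]
  [IsScalarTower F K C] in
private theorem FG3_pow_le {K : Type*} [CommRing K] (J : Ideal K) (r : ℕ) (a : Ideal K)
    (h : ∀ k : Fin r → K, (∀ i, k i ∈ J) → (∏ i, k i) ∈ a) : J ^ r ≤ a := by
  induction r generalizing a with
  | zero =>
    have h1 := h (fun i => i.elim0) (fun i => i.elim0)
    rw [Fin.prod_univ_zero] at h1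
    rw [(Ideal.eq_top_iff_one a).2 h1]
    exact le_top
  | succ r ih =>
    rw [pow_succ', Ideal.mul_le]
    intro x hx y hy
    have h2 : J ^ r ≤ Submodule.comap (LinearMap.mulLeft K x) a := by
      refine ih _ ?_
      intro k hk
      rw [Submodule.mem_comap, LinearMap.mulLeft_apply]
      have h3 := h (Fin.cons x k) (by
        intro i
        refine Fin.cases ?_ ?_ i
        · exact hx
        · intro j; exact hk j)
      rw [Fin.prod_univ_succ] at h3
      exact h3
    exact h2 hy

private theorem FG3_kill (D : FD F A K C) {m n : ℕ} (f : JForm F (Fin (m + 1))) (hf : JMulti f)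
    (hn : 1 ≤ n)
    (h : ∀ b : Fin (m + 1) → A, (∀ i, b i ∈ pw F A n) → evJ b f = 0)
    (hrep : ∀ p ∈ (D.I ^ n • (⊤ : Submodule K C)), ∃ b ∈ pw F A (n + 2), D.c b = p)
    (b : Fin (m + 1) → C) : ∀ k ∈ D.I ^ (n * (m + 1)), k • FG3_g D f b ∈ FG3_Z0 D := by
  have h1 : ∀ k : Fin (m + 1) → K, (∀ i, k i ∈ D.I ^ n) →
      FG3_phi D ((∏ i, k i) • FG3_g D f b) = 0 := by
    intro k hk
    rw [← FG3_g_smul D f hf]
    have h2 : ∀ i, ∃ a ∈ pw F A (n + 2), D.c a = k i • b i := fun i =>
      hrep _ (Submodule.smul_mem_smul (hk i) Submodule.mem_top)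
    choose a ha hca using h2
    have h3 : (fun i => k i • b i) = fun i => D.c (a i) := by
      funext i; exact (hca i).symm
    rw [h3, FG3_phi_g D f a]
    · exact h a fun i => pw_anti hn (by omega) (ha i)
    · intro i
      rw [← pw_two]
      exact pw_anti (by omega) (by omega) (ha i)
  intro k hk
  rw [pow_mul] at hk
  have h4 : (D.I ^ n) ^ (m + 1) ≤
      Submodule.comap (LinearMap.toSpanSingleton K _ (FG3_g D f b)) (FG3_Z0 D) := by
    refine FG3_pow_le _ (m + 1) _ ?_
    intro k hk
    rw [Submodule.mem_comap, LinearMap.toSpanSingleton_apply]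
    intro k'
    have h5 := h1 (Function.update k 0 (k' * k 0)) (by
      intro i
      by_cases hi : i = 0
      · subst hi
        rw [Function.update_self]
        exact Ideal.mul_mem_left _ _ (hk 0)
      · rw [Function.update_of_ne hi]
        exact hk i)
    have h6 : (∏ i, Function.update k 0 (k' * k 0) i) = k' * ∏ i, k i := by
      rw [Fin.prod_univ_succ, Fin.prod_univ_succ, Function.update_self, mul_assoc]
      congr 1
    rw [h6] at h5
    rw [smul_smul]
    exact h5
  have h7 := h4 hk
  rw [Submodule.mem_comap, LinearMap.toSpanSingleton_apply] at h7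
  exact h7

end

section
variable {F A K C : Type*} [Field F] [CharZero F] [NonUnitalNonAssocRing A] [Module F A]
    [IsScalarTower F A A] [SMulCommClass F A A] [IsMalcev A] [TF A] [CommRing K] [Algebra F K]
    [AddCommGroup C] [Module F C] [Module K C] [IsScalarTower F K C]

/-- FG3.  The bound for finitely generated algebras.
Proof.  `Q = C ⊗[K] C ⊗[K] C`, `Φ : Q →+ A` from `J3` (`TensorProduct.liftAddHom` twice, the
balance conditions are `J3_bal1`, `J3_bal2`), `Z0 = {m | ∀ k : K, Φ (k • m) = 0}`; `e0` from
`tors_bound` for `D.I` (`noeth`, `finC`).  For a tree `s` and `b : Fin m → C` let `val b s : C` be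
the value with the product `mu`; for `b i ∈ A²`: `c (evm b s) = val (c ∘ b) s` (`mu_c`).  For a
multilinear J-form `f` put `g(b) = ∑ coeff • val b p ⊗ val b q ⊗ val b r`, `b : Fin m → C`.  Then
`Φ (k • g(b)) = ∑ coeff • J3 (k • val b p) ..`, and for `k_i ∈ K`:
`Φ (k • g(k_i • b_i)) = Φ ((k ∏ k_i) • g(b))` as every variable occurs exactly once.
If `f` vanishes on `A^n`, then `(∏ k_i) • g(b) ∈ Z0` for `k_i ∈ I^n` (`ideal_pow_rep`: `k_i • b_i`
has a representative in `A^(n+2) ⊆ A^n`; also a factor `k : K` can be absorbed in `k_0`), so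
`I^(n m) g(b) ⊆ Z0`, so `I^e0 g(b) ⊆ Z0` for all `b`.  Let `N = 8 e0 + 4` and `b_i ∈ A^N`: then
`c b_0 ∈ I^e0 C` (`pw_ideal`), and `f(b) = Φ (g (c b_0, c b_1, ...))` is additive in `c b_0` and `0`
for `c b_0 = k • p`, `k ∈ I^e0`.  (`m = 0` is impossible for a nonempty `f`.) -/
theorem FD.fg_bound (D : FD F A K C) (h : FGen F A) :
    ∃ N : ℕ, 2 ≤ N ∧ ∀ (m : ℕ) (f : JForm F (Fin m)), JMulti f →
      (∃ n, 1 ≤ n ∧ ∀ b : Fin m → A, (∀ i, b i ∈ pw F A n) → evJ b f = 0) →
      ∀ b : Fin m → A, (∀ i, b i ∈ pw F A N) → evJ b f = 0 := by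
  have : IsNoetherianRing K := D.noeth h
  have : Module.Finite K C := D.finC h
  obtain ⟨e0, he0⟩ := tors_bound (Q := (C ⊗[K] C) ⊗[K] C) D.I (FG3_Z0 D)
  refine ⟨8 * e0 + 4, by omega, ?_⟩
  intro m f hf hn b hb
  obtain ⟨n, hn1, hvan⟩ := hn
  cases m with
  | zero =>
    cases f with
    | nil => rfl
    | cons q f =>
      exfalso
      have h1 := (hf q (by simp)).length_eq
      rw [List.length_append, List.length_append, lv_length, List.length_finRange] at h1
      have h2 : 0 < q.2.1.length := FreeMagma.length_pos _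
      omega
  | succ m =>
    have hbB : ∀ i, b i ∈ Bs F A := by
      intro i
      rw [← pw_two]
      exact pw_anti (by omega) (by omega) (hb i)
    rw [← FG3_phi_g D f b hbB]
    have h1 : ∀ b : Fin (m + 1) → C, ∀ k ∈ D.I ^ e0, FG3_phi D (k • FG3_g D f b) = 0 := by
      intro b k hk
      have h2 := he0 (FG3_g D f b) ⟨n * (m + 1),
        FG3_kill D f hf hn1 hvan (fun p hp => D.ideal_pow_rep n p hp) b⟩ k hk 1
      rw [one_smul] at h2
      exact h2
    have h3 : ∀ p ∈ (D.I ^ e0 • (⊤ : Submodule K C)),
        FG3_phi D (FG3_g D f (Function.update (fun i => D.c (b i)) 0 p)) = 0 := by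
      intro p hp
      refine Submodule.smul_induction_on hp ?_ ?_
      · intro k hk p _
        have e1 : Function.update (fun i => D.c (b i)) 0 (k • p)
            = fun i => (Function.update (1 : Fin (m + 1) → K) 0 k) i •
              (Function.update (fun i => D.c (b i)) 0 p) i := by
          funext i
          by_cases hi : i = 0
          · subst hi
            rw [Function.update_self, Function.update_self, Function.update_self]
          · rw [Function.update_of_ne hi, Function.update_of_ne hi, Function.update_of_ne hi,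
              Pi.one_apply, one_smul]
        rw [e1, FG3_g_smul D f hf]
        have e2 : (∏ i, Function.update (1 : Fin (m + 1) → K) 0 k i) = k := by
          rw [Fin.prod_univ_succ, Function.update_self]
          have e3 : ∀ i : Fin m, Function.update (1 : Fin (m + 1) → K) 0 k i.succ = 1 := by
            intro i
            rw [Function.update_of_ne (Fin.succ_ne_zero i), Pi.one_apply]
          rw [Finset.prod_congr rfl fun i _ => e3 i, Finset.prod_const_one, mul_one]
        rw [e2]
        exact h1 _ k hk
      · intro x y hx hy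
        rw [FG3_g_add D f hf, map_add, hx, hy, add_zero]
    have h4 := h3 (D.c (b 0)) (D.pw_ideal e0 (8 * e0 + 4) le_rfl (b 0) (hb 0))
    have e5 : Function.update (fun i => D.c (b i)) 0 (D.c (b 0)) = fun i => D.c (b i) :=
      Function.update_eq_self 0 _
    rw [e5] at h4
    exact h4

end

end Pool.Agent.MalF
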