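import Pool.Agent.MalF.FS
import Pool.Agent.MalF.FG3

/-!
# Assembly
-/

set_option autoImplicit false

namespace Pool.Agent.MalF

section letters

variable {A : Type*} [NonUnitalNonAssocRing A]

theorem lift_eq_evf {X : Type*} (w : FreeMagma X) (x : X → A) :
    FreeMagma.lift x w = evf w (fun p => x (lab w p)) := by
  rw [← lift_relabel', relabel_lab]

/-- Products of `N` elements are values of trees with `N` leaves in disjoint letters. -/
theorem exists_fam {N m : ℕ} (b : Fin m → A) (hb : ∀ i, IsProd N (b i)) :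
    ∃ (M : ℕ) (u : Fin m → FreeMagma (Fin M)) (x : Fin M → A), Fam N u ∧ ∀ i, b i = evm x (u i) := by
  classical
  choose t y ht hbt using fun i => isProd_iff.mp (hb i)
  let κ : Type := Σ i : Fin m, Pos (t i)
  let e : κ ≃ Fin (Fintype.card κ) := Fintype.equivFin κ
  refine ⟨Fintype.card κ, fun i => relabel (t i) (fun p => e ⟨i, p⟩),
    fun j => y (e.symm j).1 (lab (t (e.symm j).1) (e.symm j).2), ⟨?_, ?_⟩, ?_⟩
  · intro i
    rw [← lv_length, ← ht i, ← lv_length]
    have h1 := congrArg Multiset.card (leaves_eq_lv (relabel (t i) (fun p => e ⟨i, p⟩)))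
    have h2 := congrArg Multiset.card (leaves_eq_lv (t i))
    rw [Multiset.coe_card] at h1 h2
    rw [← h1, ← h2, leaves_relabel, Multiset.card_map, card_leaves]
    rfl
  · have hlv : ∀ i, ((lv (relabel (t i) (fun p => e ⟨i, p⟩)) : List _) : Multiset _) =
        (Finset.univ : Finset (Pos (t i))).val.map (fun p => e ⟨i, p⟩) := by
      intro i
      rw [← leaves_eq_lv, leaves_relabel]
    have hmem : ∀ i j, j ∈ lv (relabel (t i) (fun p => e ⟨i, p⟩)) ↔ ∃ p, e ⟨i, p⟩ = j := by
      intro i j
      rw [← Multiset.mem_coe, hlv, Multiset.mem_map]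
      constructor
      · rintro ⟨p, _, hp⟩; exact ⟨p, hp⟩
      · rintro ⟨p, hp⟩; exact ⟨p, Finset.mem_univ_val p, hp⟩
    rw [List.perm_ext_iff_of_nodup]
    · intro j
      rw [List.mem_flatMap]
      constructor
      · intro _; exact List.mem_finRange j
      · intro _
        refine ⟨(e.symm j).1, List.mem_finRange _, ?_⟩
        rw [hmem]
        exact ⟨(e.symm j).2, by simp⟩
    · rw [List.nodup_flatMap]
      refine ⟨fun i _ => ?_, ?_⟩
      · rw [← Multiset.coe_nodup, hlv]
        refine Multiset.Nodup.map ?_ Finset.univ.nodup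
        intro p q hpq
        have h1 : (⟨i, p⟩ : κ) = ⟨i, q⟩ := e.injective hpq
        exact eq_of_heq (Sigma.mk.inj h1).2
      · refine List.Pairwise.imp ?_ (List.nodup_finRange m)
        intro i j hij
        rw [Function.onFun, List.disjoint_left]
        intro a ha hb
        rw [hmem] at ha hb
        obtain ⟨p, hp⟩ := ha
        obtain ⟨q, hq⟩ := hb
        have h1 := e.injective (hp.trans hq.symm)
        exact hij (congrArg Sigma.fst h1)
    · exact List.nodup_finRange _
  · intro i
    rw [hbt i]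
    change _ = FreeMagma.lift _ (relabel (t i) (fun p => e ⟨i, p⟩))
    rw [lift_relabel', lift_eq_evf]
    congr 1
    funext p
    change y i (lab (t i) p) = y (e.symm (e ⟨i, p⟩)).1 (lab (t (e.symm (e ⟨i, p⟩)).1) (e.symm (e ⟨i, p⟩)).2)
    rw [Equiv.symm_apply_apply]

end letters

section step

variable {F A K C : Type*} [Field F] [CharZero F] [NonUnitalNonAssocRing A] [Module F A]
    [IsScalarTower F A A] [SMulCommClass F A A] [IsMalcev A] [TF A] [CommRing K] [Algebra F K]
    [AddCommGroup C] [Module F C] [Module K C] [IsScalarTower F K C]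

/-- A multilinear J-form vanishing on `A_68 ^ N` vanishes on `A ^ N`. -/
theorem jfinal (D : FD F A K C) {N m : ℕ} (hN : 2 ≤ N) (f : JForm F (Fin m)) (hf : JMulti f)
    (h68 : ∀ b : Fin m → FreeMalcev F (Fin 68),
      (∀ i, b i ∈ pw F (FreeMalcev F (Fin 68)) N) → evJ b f = 0)
    (b : Fin m → A) (hb : ∀ i, b i ∈ pw F A N) : evJ b f = 0 := by
  obtain ⟨H, hH⟩ := exists_jml (A := A) f hf
  rw [← hH]
  refine vanish_span H {a | IsProd N a} ?_ b ?_
  · intro b hb
    obtain ⟨M, u, x, hu, hbu⟩ := exists_fam b hb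
    rw [hH, show b = fun i => evm x (u i) from funext hbu]
    exact jstep D hN f hf h68 u hu x
  · intro i
    rw [← pw_eq_span]
    exact hb i

end step

section hom

theorem evm_hom {F A B α : Type*} [Field F] [NonUnitalNonAssocRing A] [Module F A]
    [NonUnitalNonAssocRing B] [Module F B] (φ : A →ₙₐ[F] B) (b : α → A) (p : FreeMagma α) :
    evm (fun i => φ (b i)) p = φ (evm b p) := by
  induction p with
  | ih1 a => rfl
  | ih2 s t hs ht =>
    have e1 : evm (fun i => φ (b i)) (s * t) = evm (fun i => φ (b i)) s *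
      evm (fun i => φ (b i)) t := map_mul _ _ _
    have e2 : evm b (s * t) = evm b s * evm b t := map_mul _ _ _
    rw [e1, e2, hs, ht, map_mul]

theorem evJ_hom {F A B α : Type*} [Field F] [NonUnitalNonAssocRing A] [Module F A]
    [NonUnitalNonAssocRing B] [Module F B] (φ : A →ₙₐ[F] B) (b : α → A) (g : JForm F α) :
    evJ (fun i => φ (b i)) g = φ (evJ b g) := by
  induction g with
  | nil => simp [evJ]
  | cons q g ih =>
    rw [evJ_cons, evJ_cons, ih, map_add, map_smul, evm_hom, evm_hom, evm_hom]
    congr 2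
    unfold J
    simp only [map_add, map_mul]

end hom

section free

variable (F : Type*) [Field F]

/-- The free Malcev algebra on finitely many generators is finitely generated. -/
theorem fgen_free (k : ℕ) : FGen F (FreeMalcev F (Fin k)) := by
  refine ⟨k, FreeMalcev.of F, ?_⟩
  rw [eq_top_iff]
  intro a _
  obtain ⟨p, rfl⟩ := FreeMalcev.mk_surjective F a
  obtain ⟨s, c, rfl⟩ := exists_sum_wd p
  rw [map_sum]
  refine Submodule.sum_mem _ fun w _ => ?_
  rw [map_smul, FreeMalcev.mk_eq_lift, lift_wd]
  exact Submodule.smul_mem _ _ (Submodule.subset_span ⟨w, rfl⟩)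

end free

end Pool.Agent.MalF
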