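import Pool.Agent.MalF.FM

/-!
# Powers of an algebra as algebras, varieties
-/

set_option autoImplicit false

namespace Pool.Agent.MalF

universe u v w

/-- The power `A ^ n` as a subalgebra of `A`. -/
def powAlg (F : Type u) (A : Type v) [Field F] [NonUnitalNonAssocRing A] [Module F A]
    [IsScalarTower F A A] [SMulCommClass F A A] (n : ℕ) : NonUnitalSubalgebra F A where
  toSubmodule := pw F A n
  mul_mem' := fun {a b} ha hb => by
    change a * b ∈ pw F A n
    have h := pw_mul (F := F) ha hb
    rcases Nat.eq_zero_or_pos n with h0 | h0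
    · rw [h0] at h ⊢
      exact h
    · exact pw_anti h0 (by omega) h

/-- `C` lies in the variety generated by the algebra `B`: it satisfies every polynomial identity
which holds in `B`. -/
def InVar (F : Type u) (B : Type v) (C : Type w) [Field F] [NonUnitalNonAssocRing B] [Module F B]
    [IsScalarTower F B B] [SMulCommClass F B B] [NonUnitalNonAssocRing C] [Module F C]
    [IsScalarTower F C C] [SMulCommClass F C C] : Prop :=
  ∀ p : FreeNonUnitalNonAssocAlgebra F ℕ,
    (∀ x : ℕ → B, FreeNonUnitalNonAssocAlgebra.lift F x p = 0) →
      ∀ y : ℕ → C, FreeNonUnitalNonAssocAlgebra.lift F y p = 0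

end Pool.Agent.MalF
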