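import Pool.Agent.MalF.JRed
import Pool.Agent.MalF.FE2
import Pool.Agent.MalF.Var

/-!
# The final theorem
-/

set_option autoImplicit false

namespace Pool.Agent.MalF

universe u v w

theorem holds_iff_powAlg {F : Type u} {A : Type v} [Field F] [NonUnitalNonAssocRing A] [Module F A]
    [IsScalarTower F A A] [SMulCommClass F A A] (n : ℕ) (p : FreeNonUnitalNonAssocAlgebra F ℕ) :
    Holds (pw F A n) p ↔
      ∀ x : ℕ → powAlg F A n, FreeNonUnitalNonAssocAlgebra.lift F x p = 0 := by
  let ι : powAlg F A n →ₙₐ[F] A := NonUnitalSubalgebraClass.subtype (powAlg F A n)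
  have hι : ∀ (x : ℕ → powAlg F A n), ((FreeNonUnitalNonAssocAlgebra.lift F x p : powAlg F A n) : A) =
      FreeNonUnitalNonAssocAlgebra.lift F (fun i => (x i : A)) p := fun x => lift_comp ι x p
  constructor
  · intro h x
    apply Subtype.ext
    rw [hι]
    exact h _ fun i => (x i).2
  · intro h x hx
    have h1 := hι (fun i => ⟨x i, hx i⟩)
    rw [h] at h1
    exact h1.symm

/-- THE THEOREM for identities: from some `N` on all powers of the free Malcev algebra of countable
rank satisfy the same identities. -/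
theorem stabilise (F : Type u) [Field F] [CharZero F] :
    ∃ N : ℕ, 1 ≤ N ∧ ∀ n, N ≤ n → ∀ p : FreeNonUnitalNonAssocAlgebra F ℕ,
      (Holds (pw F (FreeMalcev F ℕ) n) p ↔ Holds (pw F (FreeMalcev F ℕ) N) p) := by
  have tf1 : TF (FreeMalcev F ℕ) := tf_of_field F _
  have tf2 : TF (FreeMalcev F (Fin 68)) := tf_of_field F _
  obtain ⟨K, C, _, _, _, _, _, _, ⟨D⟩⟩ := exists_FD F (FreeMalcev F ℕ)
  obtain ⟨K', C', _, _, _, _, _, _, ⟨D'⟩⟩ := exists_FD F (FreeMalcev F (Fin 68))
  obtain ⟨N, hN2, hN⟩ := D'.fg_bound (fgen_free F 68)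
  refine ⟨N, by omega, fun n hn p => ⟨?_, ?_⟩⟩
  · refine linearise (pw F (FreeMalcev F ℕ) n) (pw F (FreeMalcev F ℕ) N) ?_ p
    intro m g hg hgn
    obtain ⟨f, hf, hfg⟩ := jred (by omega) g hg hgn
    -- the J-form vanishes on the powers of the free algebra with 68 generators
    have h68n : ∀ b : Fin m → FreeMalcev F (Fin 68),
        (∀ i, b i ∈ pw F (FreeMalcev F (Fin 68)) n) → evJ b f = 0 := by
      obtain ⟨φ, ρ, e⟩ := exists_retract (F := F) (fun i : Fin 68 => (i : ℕ)) Fin.val_injective
      have hinj : Function.Injective φ := by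
        intro a b hab
        have h1 := DFunLike.congr_fun e a
        have h2 := DFunLike.congr_fun e b
        rw [NonUnitalAlgHom.comp_apply] at h1 h2
        have h3 : a = b := by
          calc a = ρ (φ a) := h1.symm
            _ = ρ (φ b) := by rw [hab]
            _ = b := h2
        exact h3
      intro b hb
      apply hinj
      rw [map_zero, ← evJ_hom, ← hfg]
      exact hgn _ fun i => map_mem_pw φ (hb i)
    have h68 := hN m f hf ⟨n, by omega, h68n⟩
    intro b hb
    rw [hfg]
    exact jfinal D hN2 f hf h68 b hb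
  · intro h x hx
    exact h x fun i => pw_anti (by omega) hn (hx i)

/-- The sequence of varieties generated by the powers of the free Malcev algebra stabilises. -/
theorem final (F : Type u) [Field F] [CharZero F] :
    ∃ N : ℕ, 1 ≤ N ∧ ∀ n, N ≤ n → ∀ (C : Type w) [NonUnitalNonAssocRing C] [Module F C]
      [IsScalarTower F C C] [SMulCommClass F C C],
      InVar F (powAlg F (FreeMalcev F ℕ) n) C ↔ InVar F (powAlg F (FreeMalcev F ℕ) N) C := by
  obtain ⟨N, hN, h⟩ := stabilise F
  refine ⟨N, hN, fun n hn C _ _ _ _ => ?_⟩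
  unfold InVar
  refine forall_congr' fun p => ?_
  rw [← holds_iff_powAlg, ← holds_iff_powAlg, h n hn p]

end Pool.Agent.MalF
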