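import Pool.Agent.MalF.Expand
import Pool.Agent.MalF.Pw

/-!
# Finiteness of `K` and `C` (module FG1, section 7)
-/

namespace Pool.Agent.MalF

private theorem FG1_finite_le (α : Type*) [Finite α] (n : ℕ) :
    {s : FreeMagma α | s.length ≤ n}.Finite := by
  induction n with
  | zero =>
    refine Set.Finite.subset Set.finite_empty ?_
    intro s hs
    have h1 : 0 < s.length := FreeMagma.length_pos s
    have h2 : s.length ≤ 0 := hs
    omega
  | succ n ih =>
    refine Set.Finite.subset ((Set.finite_range (FreeMagma.of : α → FreeMagma α)).union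
      (Set.Finite.image2 (fun a b : FreeMagma α => a * b) ih ih)) ?_
    intro s hs
    have h2 : s.length ≤ n + 1 := hs
    cases s with
    | of a => exact Or.inl ⟨a, rfl⟩
    | mul a b =>
      right
      have h3 : a.length + b.length ≤ n + 1 := h2
      have h4 : 0 < a.length := FreeMagma.length_pos a
      have h5 : 0 < b.length := FreeMagma.length_pos b
      refine ⟨a, ?_, b, ?_, rfl⟩
      · change a.length ≤ n
        omega
      · change b.length ≤ n
        omega

section
variable {F A K C : Type*} [Field F] [CharZero F] [NonUnitalNonAssocRing A] [Module F A]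
    [IsScalarTower F A A] [SMulCommClass F A A] [IsMalcev A] [TF A] [CommRing K] [Algebra F K]
    [AddCommGroup C] [Module F C] [Module K C] [IsScalarTower F K C]

/-- The algebra is generated by finitely many elements. -/
def FGen (F A : Type*) [Field F] [NonUnitalNonAssocRing A] [Module F A] : Prop :=
  ∃ (k : ℕ) (g : Fin k → A), Submodule.span F {a | ∃ s : FreeMagma (Fin k), a = evm g s} = ⊤

/-- FG1.  `K` is noetherian: by `gen`, bilinearity of `E` and `expandS` it is generated as an
`F`-algebra by the finitely many `E(evm g s, evm g t)`, `s, t` trees with at most four leaves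
in `Fin k`.
(Finiteness of the set of trees with at most four leaves: every one is in the image of
a finite type, or `Set.Finite` by induction on the length.) -/
theorem FD.noeth (D : FD F A K C) (h : FGen F A) : IsNoetherianRing K := by
  obtain ⟨k, g, hg⟩ := h
  let S : Set K := Set.image2 (fun s t : FreeMagma (Fin k) => D.E (evm g s) (evm g t))
    {s | s.length ≤ 4} {s | s.length ≤ 4}
  have hS : S.Finite := Set.Finite.image2 _ (FG1_finite_le _ 4) (FG1_finite_le _ 4)
  have h1 : ∀ s t : FreeMagma (Fin k), D.E (evm g s) (evm g t) ∈ Algebra.adjoin F S := by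
    intro s t
    obtain ⟨L, hL, hev⟩ := D.expandS (F := F) s t
    rw [hev g]
    refine Subalgebra.list_sum_mem _ ?_
    intro y hy
    obtain ⟨T, hT, rfl⟩ := List.mem_map.1 hy
    refine Subalgebra.smul_mem _ ?_ _
    refine Subalgebra.list_prod_mem _ ?_
    intro z hz
    obtain ⟨q, hq, rfl⟩ := List.mem_map.1 hz
    exact Algebra.subset_adjoin ⟨q.1, ((hL T hT).2.1 q hq).1, q.2, ((hL T hT).2.1 q hq).2, rfl⟩
  have h2 : ∀ w z : A, D.E w z ∈ Algebra.adjoin F S := by
    intro w z
    have hw : w ∈ Submodule.span F {a | ∃ s : FreeMagma (Fin k), a = evm g s} := by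
      rw [hg]; exact Submodule.mem_top
    have hz : z ∈ Submodule.span F {a | ∃ s : FreeMagma (Fin k), a = evm g s} := by
      rw [hg]; exact Submodule.mem_top
    induction hw using Submodule.span_induction with
    | mem w hw =>
      obtain ⟨s, rfl⟩ := hw
      induction hz using Submodule.span_induction with
      | mem z hz =>
        obtain ⟨t, rfl⟩ := hz
        exact h1 s t
      | zero => rw [map_zero]; exact Subalgebra.zero_mem _
      | add x y _ _ hx hy => rw [map_add]; exact Subalgebra.add_mem _ hx hy
      | smul a x _ hx => rw [map_smul]; exact Subalgebra.smul_mem _ hx a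
    | zero => rw [map_zero, LinearMap.zero_apply]; exact Subalgebra.zero_mem _
    | add x y _ _ hx hy => rw [map_add, LinearMap.add_apply]; exact Subalgebra.add_mem _ hx hy
    | smul a x _ hx =>
      rw [map_smul, LinearMap.smul_apply]; exact Subalgebra.smul_mem _ hx a
  have h3 : Algebra.adjoin F S = ⊤ := by
    rw [eq_top_iff, ← D.gen]
    refine Algebra.adjoin_le ?_
    rintro _ ⟨w, z, rfl⟩
    exact h2 w z
  have h4 : Algebra.FiniteType F K := ⟨⟨hS.toFinset, by rw [hS.coe_toFinset]; exact h3⟩⟩
  exact Algebra.FiniteType.isNoetherianRing F K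

/-- FG1.  `C` is a finitely generated `K`-module: by `c_surj` and `expand` it is generated by the
`c (evm g s)`, `2 ≤` length of `s` `≤ 4` (every `b ∈ Bs` is a combination of
`evm g s * evm g t`). -/
theorem FD.finC (D : FD F A K C) (h : FGen F A) : Module.Finite K C := by
  obtain ⟨k, g, hg⟩ := h
  let S : Set C := (fun s : FreeMagma (Fin k) => D.c (evm g s)) '' {s | s.length ≤ 4}
  have hS : S.Finite := Set.Finite.image _ (FG1_finite_le _ 4)
  have h1 : ∀ s : FreeMagma (Fin k), 2 ≤ s.length → D.c (evm g s) ∈ Submodule.span K S := by
    intro s hs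
    obtain ⟨L, hL, hev⟩ := D.expand (F := F) s hs
    rw [hev g]
    refine list_sum_mem ?_
    intro y hy
    obtain ⟨T, hT, rfl⟩ := List.mem_map.1 hy
    unfold FD.evE
    refine Submodule.smul_of_tower_mem _ _ (Submodule.smul_mem _ _ (Submodule.subset_span ?_))
    exact ⟨T.vec, (hL T hT).1.2.1, rfl⟩
  have h2 : ∀ w z : A, D.c (w * z) ∈ Submodule.span K S := by
    intro w z
    have hw : w ∈ Submodule.span F {a | ∃ s : FreeMagma (Fin k), a = evm g s} := by
      rw [hg]; exact Submodule.mem_top
    have hz : z ∈ Submodule.span F {a | ∃ s : FreeMagma (Fin k), a = evm g s} := by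
      rw [hg]; exact Submodule.mem_top
    induction hw using Submodule.span_induction with
    | mem w hw =>
      obtain ⟨s, rfl⟩ := hw
      induction hz using Submodule.span_induction with
      | mem z hz =>
        obtain ⟨t, rfl⟩ := hz
        have e1 : evm g s * evm g t = evm g (s * t) := (map_mul _ _ _).symm
        rw [e1]
        refine h1 _ ?_
        change 2 ≤ s.length + t.length
        have h4 : 0 < s.length := FreeMagma.length_pos s
        have h5 : 0 < t.length := FreeMagma.length_pos t
        omega
      | zero => rw [mul_zero, map_zero]; exact Submodule.zero_mem _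
      | add x y _ _ hx hy => rw [mul_add, map_add]; exact Submodule.add_mem _ hx hy
      | smul a x _ hx =>
        rw [mul_smul_comm, map_smul]; exact Submodule.smul_of_tower_mem _ _ hx
    | zero => rw [zero_mul, map_zero]; exact Submodule.zero_mem _
    | add x y _ _ hx hy => rw [add_mul, map_add]; exact Submodule.add_mem _ hx hy
    | smul a x _ hx =>
      rw [smul_mul_assoc, map_smul]; exact Submodule.smul_of_tower_mem _ _ hx
  have h3 : Submodule.span K S = ⊤ := by
    rw [eq_top_iff]
    intro p _
    obtain ⟨b, hb, rfl⟩ := D.c_surj p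
    unfold Bs at hb
    induction hb using Submodule.span_induction with
    | mem b hb =>
      obtain ⟨x, y, rfl⟩ := hb
      exact h2 x y
    | zero => rw [map_zero]; exact Submodule.zero_mem _
    | add x y _ _ hx hy => rw [map_add]; exact Submodule.add_mem _ (hx trivial) (hy trivial)
    | smul a x _ hx => rw [map_smul]; exact Submodule.smul_of_tower_mem _ _ (hx trivial)
  exact ⟨⟨hS.toFinset, by rw [hS.coe_toFinset]; exact h3⟩⟩

end

end Pool.Agent.MalF
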