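import Pool.Agent.MalF.Defs

/-!
# Polarisation of multilinear maps (module POL)
-/

namespace Pool.Agent.MalF

theorem polar_sign {κ : Type*} [Fintype κ] [DecidableEq κ] (R : Finset κ) :
    ∑ T : Finset κ, (if R ⊆ T then ((-1 : ℤ) ^ (Fintype.card κ - T.card)) else 0) =
      if R = Finset.univ then 1 else 0 := by
  have h1 : ∑ T : Finset κ, (if R ⊆ T then ((-1 : ℤ) ^ (Fintype.card κ - T.card)) else 0) =
      ∑ U : Finset κ, (if U ⊆ Rᶜ then ((-1 : ℤ) ^ U.card) else 0) := by
    refine Fintype.sum_bijective (fun T : Finset κ => Tᶜ) compl_involutive.bijective _ _ ?_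
    intro T
    have e1 : (R ⊆ T) ↔ Tᶜ ⊆ Rᶜ := Finset.compl_subset_compl.symm
    by_cases h : R ⊆ T
    · rw [if_pos h, if_pos (e1.mp h), Finset.card_compl]
    · rw [if_neg h, if_neg (fun h' => h (e1.mpr h'))]
  rw [h1, ← Finset.sum_filter]
  have h2 : (Finset.univ.filter fun U : Finset κ => U ⊆ Rᶜ) = (Rᶜ).powerset := by
    ext U; simp
  rw [h2, Finset.sum_powerset_neg_one_pow_card]
  simp only [Finset.compl_eq_empty_iff]

/-- Inclusion-exclusion for multilinear maps, general form. -/
theorem incl_excl_gen {F V V' ι κ : Type*} [CommRing F] [AddCommGroup V] [Module F V]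
    [AddCommGroup V'] [Module F V'] [Fintype ι] [DecidableEq ι] [Fintype κ] [DecidableEq κ]
    (H : MultilinearMap F (fun _ : ι => V) V') (s : ι → Finset κ) (u : κ → V) :
    ∑ T : Finset κ, ((-1 : ℤ) ^ (Fintype.card κ - T.card)) • H (fun i => ∑ j ∈ s i ∩ T, u j)
      = ∑ r ∈ (Fintype.piFinset s).filter (fun r => Finset.univ.image r = Finset.univ),
          H (fun i => u (r i)) := by
  classical
  have h1 : ∀ T : Finset κ, H (fun i => ∑ j ∈ s i ∩ T, u j) =
      ∑ r ∈ Fintype.piFinset s, if Finset.univ.image r ⊆ T then H (fun i => u (r i)) else 0 := by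
    intro T
    rw [MultilinearMap.map_sum_finset H (fun _ j => u j) (fun i => s i ∩ T), ← Finset.sum_filter]
    refine Finset.sum_congr ?_ fun _ _ => rfl
    ext r
    simp only [Fintype.mem_piFinset, Finset.mem_inter, Finset.mem_filter, Finset.image_subset_iff,
      Finset.mem_univ, true_implies]
    exact forall_and
  simp_rw [h1, Finset.smul_sum]
  rw [Finset.sum_comm, Finset.sum_filter]
  refine Finset.sum_congr rfl fun r _ => ?_
  have h2 : ∀ T : Finset κ, ((-1 : ℤ) ^ (Fintype.card κ - T.card)) •
      (if Finset.univ.image r ⊆ T then H (fun i => u (r i)) else 0) =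
      (if Finset.univ.image r ⊆ T then ((-1 : ℤ) ^ (Fintype.card κ - T.card)) else 0) •
        H (fun i => u (r i)) := by
    intro T
    split_ifs
    · rfl
    · rw [smul_zero, zero_smul]
  simp_rw [h2]
  rw [← Finset.sum_smul, polar_sign]
  split_ifs
  · rw [one_smul]
  · rw [zero_smul]

/-- Inclusion-exclusion: for a multilinear map `H` on `Fin M`, sets `s i`, vectors `u j`:
`∑_{T ⊆ Fin M} (-1)^(M - |T|) H (fun i => ∑_{j ∈ s i ∩ T} u j) = ∑_{r bijective, r i ∈ s i} H (u ∘ r)`.
Proof: expand with `MultilinearMap.map_sum_finset` (over all functions `r` with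
`r i ∈ s i`, the condition `r i ∈ T` as an indicator), exchange the sums; for a fixed `r` the sum
of `(-1)^(M-|T|)` over `T ⊇ image r` is `0` unless `image r = univ`. -/
theorem incl_excl {F V V' : Type*} [CommRing F] [AddCommGroup V] [Module F V] [AddCommGroup V']
    [Module F V'] {M : ℕ} (H : MultilinearMap F (fun _ : Fin M => V) V')
    (s : Fin M → Finset (Fin M)) (u : Fin M → V) :
    ∑ T : Finset (Fin M), ((-1 : ℤ) ^ (M - T.card)) • H (fun i => ∑ j ∈ s i ∩ T, u j)
      = ∑ σ ∈ (Finset.univ.filter fun σ : Equiv.Perm (Fin M) => ∀ i, σ i ∈ s i),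
          H (fun i => u (σ i)) := by
  classical
  have h := incl_excl_gen H s u
  rw [Fintype.card_fin] at h
  rw [h]
  symm
  refine Finset.sum_bij (fun σ _ => (σ : Fin M → Fin M)) ?_ ?_ ?_ ?_
  · intro σ hσ
    simp only [Finset.mem_filter, Finset.mem_univ, true_and] at hσ
    simp only [Finset.mem_filter, Fintype.mem_piFinset]
    exact ⟨hσ, Finset.image_univ_of_surjective σ.surjective⟩
  · intro σ _ τ _ h
    exact DFunLike.coe_injective h
  · intro r hr
    simp only [Finset.mem_filter, Fintype.mem_piFinset] at hr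
    have hs : Function.Surjective r := by
      intro j
      have : j ∈ Finset.univ.image r := by rw [hr.2]; exact Finset.mem_univ _
      simpa using this
    refine ⟨Equiv.ofBijective r (Function.Surjective.bijective_of_finite hs), ?_, rfl⟩
    simp only [Finset.mem_filter, Finset.mem_univ, true_and]
    exact hr.1
  · intro σ _
    rfl

/-- POLARISATION.  A multilinear map invariant under the stabiliser of a colouring `c` which vanishes
on all families constant on the colours is `0`.
Proof: `incl_excl` with `s i = {j | c j = c i}`: every term on the left is `0`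
(`∑_{j ∈ s i ∩ T} u j` depends only on `c i`), the right side is (number of `σ`) times `H u`, the
number is positive (`σ = 1`), and `V'` is torsion free. -/
theorem polarisation {F V V' : Type*} [CommRing F] [AddCommGroup V] [Module F V] [AddCommGroup V']
    [Module F V'] [TF V'] {M k : ℕ} (H : MultilinearMap F (fun _ : Fin M => V) V')
    (c : Fin M → Fin k)
    (hinv : ∀ σ : Equiv.Perm (Fin M), (∀ i, c (σ i) = c i) → ∀ x : Fin M → V,
      H (fun i => x (σ i)) = H x)
    (hz : ∀ y : Fin k → V, H (fun i => y (c i)) = 0) (x : Fin M → V) : H x = 0 := by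
  classical
  have h := incl_excl H (fun i => Finset.univ.filter fun j => c j = c i) x
  have h1 : ∀ T : Finset (Fin M),
      H (fun i => ∑ j ∈ (Finset.univ.filter fun j => c j = c i) ∩ T, x j) = 0 := by
    intro T
    exact hz fun b => ∑ j ∈ (Finset.univ.filter fun j => c j = b) ∩ T, x j
  simp_rw [h1, smul_zero] at h
  rw [Finset.sum_const_zero] at h
  have h2 : ∑ σ ∈ (Finset.univ.filter fun σ : Equiv.Perm (Fin M) =>
      ∀ i, σ i ∈ (Finset.univ.filter fun j => c j = c i)), H (fun i => x (σ i)) =
      ∑ σ ∈ (Finset.univ.filter fun σ : Equiv.Perm (Fin M) =>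
      ∀ i, σ i ∈ (Finset.univ.filter fun j => c j = c i)), H x := by
    refine Finset.sum_congr rfl fun σ hσ => ?_
    simp only [Finset.mem_filter, Finset.mem_univ, true_and] at hσ
    exact hinv σ hσ x
  rw [h2, Finset.sum_const] at h
  have hpos : 0 < (Finset.univ.filter fun σ : Equiv.Perm (Fin M) =>
      ∀ i, σ i ∈ (Finset.univ.filter fun j => c j = c i)).card := by
    apply Finset.card_pos.mpr
    exact ⟨1, by simp⟩
  refine TF.tf ((Finset.univ.filter fun σ : Equiv.Perm (Fin M) =>
      ∀ i, σ i ∈ (Finset.univ.filter fun j => c j = c i)).card : ℤ) (H x) (by positivity) ?_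
  rw [natCast_zsmul]
  exact h.symm

end Pool.Agent.MalF
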