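import Pool.Agent.MalF.FW
import Pool.Agent.MalF.Polar

/-!
# Linearisation of identities in characteristic zero

If every multilinear identity of the subspace `V` is an identity of the subspace `V'`, then every
identity of `V` is an identity of `V'`.
-/

set_option autoImplicit false

namespace Pool.Agent.MalF

/-- Vector spaces over a field of characteristic zero are torsion free. -/
theorem tf_of_field (F : Type*) (A : Type*) [Field F] [CharZero F] [AddCommGroup A] [Module F A] :
    TF A where
  tf n x hn h := by
    rw [← Int.cast_smul_eq_zsmul F] at h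
    rcases smul_eq_zero.mp h with h1 | h1
    · exact absurd h1 (by exact_mod_cast hn)
    · exact h1

/-- A polynomial with coefficients in a vector space which vanishes on the whole (infinite) field
is zero. -/
theorem coeff_vanish {F A : Type*} [Field F] [Infinite F] [AddCommGroup A] [Module F A] (D : ℕ)
    (a : ℕ → A) (h : ∀ t : F, ∑ m ∈ Finset.range D, t ^ m • a m = 0) : ∀ m < D, a m = 0 := by
  intro m hm
  rw [← Module.forall_dual_apply_eq_zero_iff F]
  intro φ
  set P : Polynomial F := ∑ m ∈ Finset.range D, Polynomial.monomial m (φ (a m)) with hP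
  have h1 : P = 0 := by
    apply Polynomial.funext
    intro t
    rw [hP, Polynomial.eval_finsetSum, Polynomial.eval_zero]
    have h2 := congrArg φ (h t)
    rw [map_sum, map_zero] at h2
    rw [← h2]
    refine Finset.sum_congr rfl fun k _ => ?_
    rw [Polynomial.eval_monomial, map_smul, smul_eq_mul, mul_comm]
  have h3 : P.coeff m = φ (a m) := by
    rw [hP, Polynomial.finsetSum_coeff]
    simp only [Polynomial.coeff_monomial]
    rw [Finset.sum_ite_eq' (Finset.range D) m (fun k => φ (a k)), if_pos (Finset.mem_range.mpr hm)]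
  rw [← h3, h1, Polynomial.coeff_zero]

/-- Inclusion-exclusion when the number of arguments is the number of vectors. -/
theorem incl_excl_equiv {F V V' ι κ : Type*} [CommRing F] [AddCommGroup V] [Module F V]
    [AddCommGroup V'] [Module F V'] [Fintype ι] [DecidableEq ι] [Fintype κ] [DecidableEq κ]
    (hc : Fintype.card ι = Fintype.card κ)
    (H : MultilinearMap F (fun _ : ι => V) V') (s : ι → Finset κ) (u : κ → V) :
    ∑ T : Finset κ, ((-1 : ℤ) ^ (Fintype.card κ - T.card)) • H (fun i => ∑ j ∈ s i ∩ T, u j)
      = ∑ σ ∈ (Finset.univ.filter fun σ : ι ≃ κ => ∀ i, σ i ∈ s i), H (fun i => u (σ i)) := by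
  classical
  rw [incl_excl_gen]
  symm
  refine Finset.sum_bij (fun σ _ => (σ : ι → κ)) ?_ ?_ ?_ ?_
  · intro σ hσ
    simp only [Finset.mem_filter, Finset.mem_univ, true_and] at hσ
    simp only [Finset.mem_filter, Fintype.mem_piFinset]
    exact ⟨hσ, Finset.image_univ_of_surjective σ.surjective⟩
  · intro σ _ τ _ h
    exact DFunLike.coe_injective h
  · intro r hr
    simp only [Finset.mem_filter, Fintype.mem_piFinset] at hr
    have hs : Function.Surjective r := by
      intro j
      have : j ∈ Finset.univ.image r := by rw [hr.2]; exact Finset.mem_univ _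
      simpa using this
    refine ⟨Equiv.ofBijective r ((Fintype.bijective_iff_surjective_and_card r).mpr ⟨hs, hc⟩), ?_, rfl⟩
    simp only [Finset.mem_filter, Finset.mem_univ, true_and]
    exact hr.1
  · intro σ _
    rfl

variable {F : Type*} {A : Type*} [Field F] [NonUnitalNonAssocRing A] [Module F A]
  [IsScalarTower F A A] [SMulCommClass F A A]

/-- The multilinear polynomials in the variables of `Fin m`. -/
noncomputable def MultLin (F : Type*) [Field F] (m : ℕ) :
    Submodule F (FreeNonUnitalNonAssocAlgebra F (Fin m)) :=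
  Submodule.span F {p | ∃ w : FreeMagma (Fin m), leaves w = Finset.univ.val ∧ p = wd F w}

theorem lift_smul_word {X : Type*} (t : F) (x : X → A) (w : FreeMagma X) :
    FreeMagma.lift (fun i => t • x i) w = t ^ (Fintype.card (Pos w)) • FreeMagma.lift x w := by
  rw [lift_eq_evw (F := F), lift_eq_evw (F := F) w x]
  have := (evw F w).map_smul_univ (fun _ => t) (fun p => x (lab w p))
  rw [this, Finset.prod_const, Finset.card_univ]

theorem lift_sum_wd {X : Type*} (x : X → A) (S : Finset (FreeMagma X)) (c : FreeMagma X → F) :
    FreeNonUnitalNonAssocAlgebra.lift F x (∑ w ∈ S, c w • wd F w) =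
      ∑ w ∈ S, c w • FreeMagma.lift x w := by
  rw [map_sum]
  exact Finset.sum_congr rfl fun w _ => by rw [map_smul, lift_wd]

/-- The homogeneous components of an identity of a subspace are identities. -/
theorem homog [Infinite F] {X : Type*} (V : Submodule F A) (S : Finset (FreeMagma X))
    (c : FreeMagma X → F) (h : Holds V (∑ w ∈ S, c w • wd F w)) (m : ℕ) :
    Holds V (∑ w ∈ S.filter (fun w => Fintype.card (Pos w) = m), c w • wd F w) := by
  classical
  intro x hx
  rw [lift_sum_wd]
  obtain ⟨D, hD⟩ : ∃ D, ∀ w ∈ S, Fintype.card (Pos w) < D := by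
    refine ⟨S.sup (fun w => Fintype.card (Pos w)) + 1, fun w hw => ?_⟩
    exact Nat.lt_succ_of_le (Finset.le_sup (f := fun w => Fintype.card (Pos w)) hw)
  have key := coeff_vanish (F := F) D
    (fun m => ∑ w ∈ S.filter (fun w => Fintype.card (Pos w) = m), c w • FreeMagma.lift x w) ?_
  · by_cases hm : m < D
    · exact key m hm
    · rw [Finset.filter_eq_empty_iff.mpr, Finset.sum_empty]
      intro w hw h1
      have := hD w hw
      omega
  · intro t
    have h1 := h (fun i => t • x i) (fun i => V.smul_mem t (hx i))
    rw [lift_sum_wd] at h1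
    rw [← h1]
    have h2 : ∀ w ∈ S, c w • FreeMagma.lift (fun i => t • x i) w =
        ∑ m ∈ Finset.range D, if Fintype.card (Pos w) = m then
          t ^ m • (c w • FreeMagma.lift x w) else 0 := by
      intro w hw
      rw [Finset.sum_ite_eq, if_pos (Finset.mem_range.mpr (hD w hw)), lift_smul_word, smul_comm]
    rw [Finset.sum_congr rfl h2, Finset.sum_comm]
    refine Finset.sum_congr rfl fun k _ => ?_
    rw [Finset.smul_sum, Finset.sum_filter]

theorem map_univ_equiv {α β : Type*} [Fintype α] [Fintype β] (σ : α ≃ β) :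
    (Finset.univ : Finset α).val.map σ = (Finset.univ : Finset β).val := by
  have h := congrArg Finset.val (Finset.map_univ_equiv σ)
  rwa [Finset.map_val] at h

/-- LINEARISATION. -/
theorem linearise [CharZero F] {X : Type*} (V V' : Submodule F A)
    (hML : ∀ (m : ℕ), ∀ g ∈ MultLin F m, Holds V g → Holds V' g)
    (f : FreeNonUnitalNonAssocAlgebra F X) (hf : Holds V f) : Holds V' f := by
  classical
  obtain ⟨S, c, rfl⟩ := exists_sum_wd f
  have : Infinite F := CharZero.infinite F
  -- it is enough to treat the homogeneous components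
  suffices H : ∀ m, Holds V' (∑ w ∈ S.filter (fun w => Fintype.card (Pos w) = m), c w • wd F w) by
    intro x hx
    rw [lift_sum_wd]
    obtain ⟨D, hD⟩ : ∃ D, ∀ w ∈ S, Fintype.card (Pos w) < D := by
      refine ⟨S.sup (fun w => Fintype.card (Pos w)) + 1, fun w hw => ?_⟩
      exact Nat.lt_succ_of_le (Finset.le_sup (f := fun w => Fintype.card (Pos w)) hw)
    have h1 : ∑ w ∈ S, c w • FreeMagma.lift x w = ∑ m ∈ Finset.range D,
        ∑ w ∈ S.filter (fun w => Fintype.card (Pos w) = m), c w • FreeMagma.lift x w := by
      rw [Finset.sum_fiberwise_of_maps_to]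
      intro w hw
      exact Finset.mem_range.mpr (hD w hw)
    rw [h1]
    refine Finset.sum_eq_zero fun m _ => ?_
    have h2 := H m x hx
    rwa [lift_sum_wd] at h2
  intro m
  have hm := homog V S c hf m
  set S' := S.filter (fun w => Fintype.card (Pos w) = m) with hS'
  have hcard : ∀ w ∈ S', Fintype.card (Pos w) = m := fun w hw => (Finset.mem_filter.mp hw).2
  -- the linearisations
  let g : (Fin m → X) → FreeNonUnitalNonAssocAlgebra F (Fin m) := fun a =>
    ∑ w ∈ S', c w • ∑ σ ∈ (Finset.univ.filter fun σ : Pos w ≃ Fin m => ∀ p, a (σ p) = lab w p),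
      wd F (relabel w σ)
  have hg1 : ∀ a, g a ∈ MultLin F m := by
    intro a
    refine Submodule.sum_mem _ fun w _ => Submodule.smul_mem _ _ (Submodule.sum_mem _ fun σ _ => ?_)
    apply Submodule.subset_span
    refine ⟨relabel w σ, ?_, rfl⟩
    rw [leaves_relabel]
    exact map_univ_equiv σ
  have hlift : ∀ (a : Fin m → X) (y : Fin m → A),
      FreeNonUnitalNonAssocAlgebra.lift F y (g a) = ∑ w ∈ S', c w •
        ∑ σ ∈ (Finset.univ.filter fun σ : Pos w ≃ Fin m => ∀ p, a (σ p) = lab w p),
          evw F w (fun p => y (σ p)) := by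
    intro a y
    rw [map_sum]
    refine Finset.sum_congr rfl fun w _ => ?_
    rw [map_smul, map_sum]
    congr 1
    refine Finset.sum_congr rfl fun σ _ => ?_
    rw [lift_wd, lift_relabel (F := F)]
  have hg2 : ∀ a, Holds V (g a) := by
    intro a y hy
    rw [hlift]
    have h1 : ∀ w ∈ S', c w •
        ∑ σ ∈ (Finset.univ.filter fun σ : Pos w ≃ Fin m => ∀ p, a (σ p) = lab w p),
          evw F w (fun p => y (σ p)) =
        ∑ T : Finset (Fin m), ((-1 : ℤ) ^ (m - T.card)) • (c w • FreeMagma.lift
          (fun z => ∑ j ∈ (Finset.univ.filter fun j => a j = z) ∩ T, y j) w) := by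
      intro w hw
      have h2 := incl_excl_equiv (by rw [hcard w hw, Fintype.card_fin]) (evw F w (A := A))
        (fun p => Finset.univ.filter fun j => a j = lab w p) y
      have h3 : (Finset.univ.filter fun σ : Pos w ≃ Fin m => ∀ p, a (σ p) = lab w p) =
          (Finset.univ.filter fun σ : Pos w ≃ Fin m =>
            ∀ p, σ p ∈ (Finset.univ.filter fun j => a j = lab w p)) := by
        ext σ; simp
      rw [h3, ← h2, Finset.smul_sum, Fintype.card_fin]
      refine Finset.sum_congr rfl fun T _ => ?_
      rw [smul_comm, lift_eq_evw (F := F)]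
    rw [Finset.sum_congr rfl h1, Finset.sum_comm]
    refine Finset.sum_eq_zero fun T _ => ?_
    rw [← Finset.smul_sum]
    have h4 := hm (fun z => ∑ j ∈ (Finset.univ.filter fun j => a j = z) ∩ T, y j)
      (fun z => Submodule.sum_mem _ fun j _ => hy j)
    rw [lift_sum_wd] at h4
    rw [h4, smul_zero]
  have hg3 : ∀ a, Holds V' (g a) := fun a => hML m (g a) (hg1 a) (hg2 a)
  -- recover the component
  intro x hx
  rw [lift_sum_wd]
  let s : Finset X := S'.biUnion fun w => Finset.univ.image (lab w)
  have hsum : ∑ a ∈ Fintype.piFinset (fun _ : Fin m => s),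
      FreeNonUnitalNonAssocAlgebra.lift F (fun j => x (a j)) (g a) =
      (m.factorial : F) • ∑ w ∈ S', c w • FreeMagma.lift x w := by
    have h1 : ∀ a ∈ Fintype.piFinset (fun _ : Fin m => s),
        FreeNonUnitalNonAssocAlgebra.lift F (fun j => x (a j)) (g a) =
        ∑ w ∈ S', ∑ σ : Pos w ≃ Fin m, if (∀ p, a (σ p) = lab w p) then
          c w • FreeMagma.lift x w else 0 := by
      intro a _
      rw [hlift]
      refine Finset.sum_congr rfl fun w _ => ?_
      rw [Finset.smul_sum, Finset.sum_filter]
      refine Finset.sum_congr rfl fun σ _ => ?_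
      split_ifs with h2
      · rw [lift_eq_evw (F := F)]
        congr 3
        funext p
        rw [h2]
      · rfl
    rw [Finset.sum_congr rfl h1, Finset.sum_comm, Finset.smul_sum]
    refine Finset.sum_congr rfl fun w hw => ?_
    rw [Finset.sum_comm]
    have h2 : ∀ σ : Pos w ≃ Fin m, ∑ a ∈ Fintype.piFinset (fun _ : Fin m => s),
        (if (∀ p, a (σ p) = lab w p) then c w • FreeMagma.lift x w else 0) =
        c w • FreeMagma.lift x w := by
      intro σ
      rw [Finset.sum_eq_single (fun j => lab w (σ.symm j))]
      · rw [if_pos]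
        intro p
        change lab w (σ.symm (σ p)) = lab w p
        rw [Equiv.symm_apply_apply]
      · intro a _ ha
        rw [if_neg]
        intro h3
        apply ha
        funext j
        rw [← h3, Equiv.apply_symm_apply]
      · intro h3
        exfalso
        apply h3
        rw [Fintype.mem_piFinset]
        intro j
        simp only [s, Finset.mem_biUnion, Finset.mem_image, Finset.mem_univ, true_and]
        exact ⟨w, hw, σ.symm j, rfl⟩
    rw [Finset.sum_congr rfl fun σ _ => h2 σ, Finset.sum_const, Finset.card_univ]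
    have h4 : Fintype.card (Pos w ≃ Fin m) = m.factorial := by
      rw [Fintype.card_equiv (Fintype.equivFinOfCardEq (hcard w hw)), hcard w hw]
    rw [h4, ← Nat.cast_smul_eq_nsmul F]
  have hzero : ∑ a ∈ Fintype.piFinset (fun _ : Fin m => s),
      FreeNonUnitalNonAssocAlgebra.lift F (fun j => x (a j)) (g a) = 0 :=
    Finset.sum_eq_zero fun a _ => hg3 a _ fun j => hx _
  rw [hsum] at hzero
  rcases smul_eq_zero.mp hzero with h | h
  · exact absurd h (by exact_mod_cast Nat.factorial_ne_zero m)
  · exact h

end Pool.Agent.MalF
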