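import Pool.Agent.MalF.Pw

/-!
# The free Malcev algebra, powers of an algebra, identities

`FreeMalcev F X` is the quotient of the free non-associative algebra `FreeNonUnitalNonAssocAlgebra F X`
by the ideal generated by all `a a` and all
`(x y) (x z) - ((x y) z) x - ((y z) x) x - ((z x) x) y`, built as Mathlib's `FreeLieAlgebra`.
-/

set_option autoImplicit false

namespace Pool.Agent.MalF

universe u v w

/-- The congruence generated by the Malcev relations. -/
inductive Rel (F : Type u) (X : Type v) [CommRing F] :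
    FreeNonUnitalNonAssocAlgebra F X → FreeNonUnitalNonAssocAlgebra F X → Prop
  | sq (a : FreeNonUnitalNonAssocAlgebra F X) : Rel F X (a * a) 0
  | malcev (x y z : FreeNonUnitalNonAssocAlgebra F X) :
      Rel F X ((x * y) * (x * z)) (((x * y) * z) * x + ((y * z) * x) * x + ((z * x) * x) * y)
  | smul (t : F) {a b : FreeNonUnitalNonAssocAlgebra F X} : Rel F X a b → Rel F X (t • a) (t • b)
  | add_right {a b : FreeNonUnitalNonAssocAlgebra F X} (c : FreeNonUnitalNonAssocAlgebra F X) :
      Rel F X a b → Rel F X (a + c) (b + c)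
  | mul_left (a : FreeNonUnitalNonAssocAlgebra F X) {b c : FreeNonUnitalNonAssocAlgebra F X} :
      Rel F X b c → Rel F X (a * b) (a * c)
  | mul_right {a b : FreeNonUnitalNonAssocAlgebra F X} (c : FreeNonUnitalNonAssocAlgebra F X) :
      Rel F X a b → Rel F X (a * c) (b * c)

section

variable {F : Type u} {X : Type v} [CommRing F]

theorem Rel.addLeft (a : FreeNonUnitalNonAssocAlgebra F X) {b c : FreeNonUnitalNonAssocAlgebra F X}
    (h : Rel F X b c) : Rel F X (a + b) (a + c) := by
  rw [add_comm _ b, add_comm _ c]; exact h.add_right _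

theorem Rel.neg {a b : FreeNonUnitalNonAssocAlgebra F X} (h : Rel F X a b) :
    Rel F X (-a) (-b) := by
  simpa only [neg_one_smul] using h.smul (-1)

theorem Rel.subLeft (a : FreeNonUnitalNonAssocAlgebra F X) {b c : FreeNonUnitalNonAssocAlgebra F X}
    (h : Rel F X b c) : Rel F X (a - b) (a - c) := by
  simpa only [sub_eq_add_neg] using h.neg.addLeft a

theorem Rel.subRight {a b : FreeNonUnitalNonAssocAlgebra F X} (c : FreeNonUnitalNonAssocAlgebra F X)
    (h : Rel F X a b) : Rel F X (a - c) (b - c) := by
  simpa only [sub_eq_add_neg] using h.add_right (-c)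

theorem Rel.smulOfTower {S : Type*} [Monoid S] [DistribMulAction S F] [IsScalarTower S F F] (t : S)
    (a b : FreeNonUnitalNonAssocAlgebra F X) (h : Rel F X a b) : Rel F X (t • a) (t • b) := by
  rw [← smul_one_smul F t a, ← smul_one_smul F t b]
  exact h.smul _

end

/-- The free Malcev algebra over `F` on the set `X`. -/
def FreeMalcev (F : Type u) (X : Type v) [CommRing F] := Quot (Rel F X)

namespace FreeMalcev

variable (F : Type u) (X : Type v) [CommRing F]

noncomputable instance {S : Type*} [Monoid S] [DistribMulAction S F] [IsScalarTower S F F] :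
    SMul S (FreeMalcev F X) where smul t := Quot.map (t • ·) (Rel.smulOfTower t)

noncomputable instance : Zero (FreeMalcev F X) where zero := Quot.mk _ 0

noncomputable instance : Add (FreeMalcev F X) where
  add := Quot.map₂ (· + ·) (fun _ _ _ => Rel.addLeft _) fun _ _ _ => Rel.add_right _

noncomputable instance : Neg (FreeMalcev F X) where neg := Quot.map Neg.neg fun _ _ => Rel.neg

noncomputable instance : Sub (FreeMalcev F X) where
  sub := Quot.map₂ Sub.sub (fun _ _ _ => Rel.subLeft _) fun _ _ _ => Rel.subRight _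

noncomputable instance : Mul (FreeMalcev F X) where
  mul := Quot.map₂ (· * ·) (fun _ _ _ => Rel.mul_left _) fun _ _ _ => Rel.mul_right _

noncomputable instance : AddGroup (FreeMalcev F X) :=
  Function.Surjective.addGroup (Quot.mk _) Quot.mk_surjective rfl (fun _ _ => rfl)
    (fun _ => rfl) (fun _ _ => rfl) (fun _ _ => rfl) fun _ _ => rfl

noncomputable instance : AddCommSemigroup (FreeMalcev F X) :=
  Function.Surjective.addCommSemigroup (Quot.mk _) Quot.mk_surjective fun _ _ => rfl

noncomputable instance : AddCommGroup (FreeMalcev F X) :=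
  { (inferInstance : AddGroup (FreeMalcev F X)),
    (inferInstance : AddCommSemigroup (FreeMalcev F X)) with }

noncomputable instance {S : Type*} [Semiring S] [Module S F] [IsScalarTower S F F] :
    Module S (FreeMalcev F X) :=
  Function.Surjective.module S ⟨⟨Quot.mk (Rel F X), rfl⟩, fun _ _ => rfl⟩
    Quot.mk_surjective (fun _ _ => rfl)

noncomputable instance : NonUnitalNonAssocRing (FreeMalcev F X) :=
  { (inferInstance : AddCommGroup (FreeMalcev F X)) with
    mul := (· * ·)
    left_distrib := by
      rintro ⟨a⟩ ⟨b⟩ ⟨c⟩; change Quot.mk _ _ = Quot.mk _ _; simp_rw [mul_add]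
    right_distrib := by
      rintro ⟨a⟩ ⟨b⟩ ⟨c⟩; change Quot.mk _ _ = Quot.mk _ _; simp_rw [add_mul]
    zero_mul := by
      rintro ⟨a⟩; change Quot.mk _ _ = Quot.mk _ _; simp_rw [zero_mul]
    mul_zero := by
      rintro ⟨a⟩; change Quot.mk _ _ = Quot.mk _ _; simp_rw [mul_zero] }

instance : IsScalarTower F (FreeMalcev F X) (FreeMalcev F X) where
  smul_assoc := by
    rintro t ⟨a⟩ ⟨c⟩
    change Quot.mk _ ((t • a) * c) = Quot.mk _ (t • (a * c))
    rw [smul_mul_assoc]

instance : SMulCommClass F (FreeMalcev F X) (FreeMalcev F X) where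
  smul_comm := by
    rintro t ⟨a⟩ ⟨c⟩
    change Quot.mk _ (t • (a * c)) = Quot.mk _ (a * (t • c))
    rw [mul_smul_comm]

instance : IsMalcev (FreeMalcev F X) where
  self_mul := by rintro ⟨a⟩; exact Quot.sound (Rel.sq a)
  malcev := by rintro ⟨x⟩ ⟨y⟩ ⟨z⟩; exact Quot.sound (Rel.malcev x y z)

variable {X}

/-- The class of a polynomial in the free Malcev algebra. -/
noncomputable def mk : FreeNonUnitalNonAssocAlgebra F X →ₙₐ[F] FreeMalcev F X where
  toFun := Quot.mk _
  map_smul' _ _ := rfl
  map_zero' := rfl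
  map_add' _ _ := rfl
  map_mul' _ _ := rfl

theorem mk_surjective : Function.Surjective (mk F : FreeNonUnitalNonAssocAlgebra F X → FreeMalcev F X) :=
  Quot.mk_surjective

/-- The free generators. -/
noncomputable def of (x : X) : FreeMalcev F X := mk F (FreeNonUnitalNonAssocAlgebra.of F x)

variable {F}
variable {B : Type w} [NonUnitalNonAssocRing B] [Module F B] [IsScalarTower F B B]
  [SMulCommClass F B B] [IsMalcev B]

theorem lift_rel (f : X → B) (a b : FreeNonUnitalNonAssocAlgebra F X) (h : Rel F X a b) :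
    FreeNonUnitalNonAssocAlgebra.lift F f a = FreeNonUnitalNonAssocAlgebra.lift F f b := by
  induction h with
  | sq a => rw [map_mul, map_zero, IsMalcev.self_mul]
  | malcev x y z => simp only [map_mul, map_add]; exact IsMalcev.malcev _ _ _
  | smul t _ ih => simp only [map_smul, ih]
  | add_right c _ ih => simp only [map_add, ih]
  | mul_left a _ ih => simp only [map_mul, ih]
  | mul_right c _ ih => simp only [map_mul, ih]

/-- The universal property. -/
noncomputable def lift (f : X → B) : FreeMalcev F X →ₙₐ[F] B where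
  toFun := Quot.lift (FreeNonUnitalNonAssocAlgebra.lift F f) (lift_rel f)
  map_smul' t := by rintro ⟨a⟩; exact map_smul (FreeNonUnitalNonAssocAlgebra.lift F f) t a
  map_zero' := map_zero (FreeNonUnitalNonAssocAlgebra.lift F f)
  map_add' := by rintro ⟨a⟩ ⟨b⟩; exact map_add (FreeNonUnitalNonAssocAlgebra.lift F f) a b
  map_mul' := by rintro ⟨a⟩ ⟨b⟩; exact map_mul (FreeNonUnitalNonAssocAlgebra.lift F f) a b

@[simp]
theorem lift_mk (f : X → B) (p : FreeNonUnitalNonAssocAlgebra F X) :
    lift f (mk F p) = FreeNonUnitalNonAssocAlgebra.lift F f p := rfl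

@[simp]
theorem lift_of (f : X → B) (x : X) : lift f (of F x) = f x := by
  rw [of, lift_mk, FreeNonUnitalNonAssocAlgebra.lift_of_apply]

theorem mk_eq_lift : (mk F : FreeNonUnitalNonAssocAlgebra F X →ₙₐ[F] FreeMalcev F X) =
    FreeNonUnitalNonAssocAlgebra.lift F (of F) := by
  apply FreeNonUnitalNonAssocAlgebra.hom_ext
  intro x
  rw [FreeNonUnitalNonAssocAlgebra.lift_of_apply, of]

omit [IsMalcev B] in
theorem hom_ext {φ ψ : FreeMalcev F X →ₙₐ[F] B} (h : ∀ x, φ (of F x) = ψ (of F x)) : φ = ψ := by
  have h1 : φ.comp (mk F) = ψ.comp (mk F) := by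
    apply FreeNonUnitalNonAssocAlgebra.hom_ext
    exact h
  ext a
  obtain ⟨p, rfl⟩ := mk_surjective F a
  exact DFunLike.congr_fun h1 p

end FreeMalcev

/-- The polynomial `f` is an identity of the subspace (subalgebra) `V` of `A`. -/
def Holds {F : Type u} {A : Type v} {X : Type w} [CommRing F] [NonUnitalNonAssocRing A] [Module F A]
    [IsScalarTower F A A] [SMulCommClass F A A] (V : Submodule F A)
    (f : FreeNonUnitalNonAssocAlgebra F X) : Prop :=
  ∀ x : X → A, (∀ i, x i ∈ V) → FreeNonUnitalNonAssocAlgebra.lift F x f = 0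

end Pool.Agent.MalF
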