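import Pool.Agent.MalF.FM

/-!
# Powers of an algebra: basic facts
-/

set_option autoImplicit false

namespace Pool.Agent.MalF

universe u v w

variable {F : Type u} {A : Type v} [Field F] [NonUnitalNonAssocRing A] [Module F A]
  [IsScalarTower F A A] [SMulCommClass F A A]
variable {B : Type w} [NonUnitalNonAssocRing B] [Module F B]

omit [IsScalarTower F A A] [SMulCommClass F A A] in
theorem map_mem_pw (φ : A →ₙₐ[F] B) {n : ℕ} {a : A} (h : a ∈ pw F A n) : φ a ∈ pw F B n :=
  pw_map (φ : A →ₗ[F] B) (fun a b => map_mul φ a b) n h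

omit [IsScalarTower F A A] [SMulCommClass F A A] in
/-- A surjective homomorphism maps `A ^ n` onto `B ^ n`. -/
theorem exists_mem_pw (φ : A →ₙₐ[F] B) (hφ : Function.Surjective φ) {n : ℕ} {b : B}
    (h : b ∈ pw F B n) : ∃ a ∈ pw F A n, φ a = b :=
  pw_map_surj (φ : A →ₗ[F] B) (fun a b => map_mul φ a b) hφ n h

variable {X : Type*}

theorem lift_comp [IsScalarTower F B B] [SMulCommClass F B B] (φ : A →ₙₐ[F] B) (x : X → A)
    (f : FreeNonUnitalNonAssocAlgebra F X) :
    φ (FreeNonUnitalNonAssocAlgebra.lift F x f) =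
      FreeNonUnitalNonAssocAlgebra.lift F (fun i => φ (x i)) f := by
  have : φ.comp (FreeNonUnitalNonAssocAlgebra.lift F x) =
      FreeNonUnitalNonAssocAlgebra.lift F (fun i => φ (x i)) := by
    apply FreeNonUnitalNonAssocAlgebra.hom_ext
    intro i
    rw [FreeNonUnitalNonAssocAlgebra.lift_of_apply, NonUnitalAlgHom.comp_apply,
      FreeNonUnitalNonAssocAlgebra.lift_of_apply]
  exact DFunLike.congr_fun this f

/-- Identities of `A ^ n` pass to `B ^ n` under surjections. -/
theorem Holds.surjective [IsScalarTower F B B] [SMulCommClass F B B] (φ : A →ₙₐ[F] B)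
    (hφ : Function.Surjective φ) {n : ℕ} {f : FreeNonUnitalNonAssocAlgebra F X}
    (h : Holds (pw F A n) f) : Holds (pw F B n) f := by
  intro y hy
  choose x hx e using fun i => exists_mem_pw φ hφ (hy i)
  have h1 := lift_comp φ x f
  rw [h x hx, map_zero] at h1
  rw [h1]
  congr 2
  funext i
  rw [e]

/-- Identities of `B ^ n` pass to `A ^ n` under injections. -/
theorem Holds.injective [IsScalarTower F B B] [SMulCommClass F B B] (φ : A →ₙₐ[F] B)
    (hφ : Function.Injective φ) {n : ℕ} {f : FreeNonUnitalNonAssocAlgebra F X}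
    (h : Holds (pw F B n) f) : Holds (pw F A n) f := by
  intro x hx
  apply hφ
  rw [lift_comp, map_zero]
  exact h _ fun i => map_mem_pw φ (hx i)

omit [IsScalarTower F A A] [SMulCommClass F A A] in
/-- `FreeMalcev F X` embeds in `FreeMalcev F Y` for `X` embedded in `Y`, as a retract. -/
theorem exists_retract {X : Type*} {Y : Type*} [Nonempty X] (j : X → Y) (hj : Function.Injective j) :
    ∃ (φ : FreeMalcev F X →ₙₐ[F] FreeMalcev F Y) (ρ : FreeMalcev F Y →ₙₐ[F] FreeMalcev F X),
      ρ.comp φ = NonUnitalAlgHom.id F (FreeMalcev F X) := by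
  refine ⟨FreeMalcev.lift fun x => FreeMalcev.of F (j x),
    FreeMalcev.lift fun y => FreeMalcev.of F (Function.invFun j y), ?_⟩
  apply FreeMalcev.hom_ext
  intro x
  rw [NonUnitalAlgHom.comp_apply, FreeMalcev.lift_of, FreeMalcev.lift_of,
    Function.leftInverse_invFun hj]
  rfl

/-- An identity of the `n`-th power of the free Malcev algebra on `Y` is an identity of the `n`-th
power of the free Malcev algebra on any `X` embedded in `Y`. -/
theorem Holds.sub {X Y Z : Type*} [Nonempty X] (j : X → Y) (hj : Function.Injective j) {n : ℕ}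
    {f : FreeNonUnitalNonAssocAlgebra F Z} (h : Holds (pw F (FreeMalcev F Y) n) f) :
    Holds (pw F (FreeMalcev F X) n) f := by
  obtain ⟨φ, ρ, e⟩ := exists_retract (F := F) j hj
  refine h.injective φ ?_
  intro a b hab
  have h1 := DFunLike.congr_fun e a
  have h2 := DFunLike.congr_fun e b
  rw [NonUnitalAlgHom.comp_apply] at h1 h2
  have h3 : a = b := by
    calc a = ρ (φ a) := h1.symm
      _ = ρ (φ b) := by rw [hab]
      _ = b := h2
  exact h3

end Pool.Agent.MalF
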