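import Pool.Agent.MalF.FL
import Pool.Agent.MalF.Alt
import Pool.Agent.MalF.Det

/-!
# The last step (section 8): detection
-/

set_option autoImplicit false

namespace Pool.Agent.MalF

section words

variable {F A : Type*} [Field F] [NonUnitalNonAssocRing A] [Module F A] [IsScalarTower F A A]
  [SMulCommClass F A A]

/-- A word containing every variable of `Fin M` once defines a multilinear map. -/
theorem exists_mlw {M : ℕ} (w : FreeMagma (Fin M)) (hw : (lv w).Perm (List.finRange M)) :
    ∃ H : MultilinearMap F (fun _ : Fin M => A) A, ∀ x, H x = evm x w := by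
  have h1 := (leaves_eq_univ w).mpr hw
  rw [leaves_eq] at h1
  have hinj : Function.Injective (lab w) := by
    have h2 : ((Finset.univ : Finset (Pos w)).val.map (lab w)).Nodup := by
      rw [h1]; exact Finset.univ.nodup
    intro p q hpq
    exact Multiset.inj_on_of_nodup_map h2 p (Finset.mem_univ_val p) q (Finset.mem_univ_val q) hpq
  have hsurj : Function.Surjective (lab w) := by
    intro j
    have h2 : j ∈ (Finset.univ : Finset (Pos w)).val.map (lab w) := by
      rw [h1]; exact Finset.mem_univ_val j
    rw [Multiset.mem_map] at h2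
    obtain ⟨p, _, hp⟩ := h2
    exact ⟨p, hp⟩
  refine ⟨(evw F w).domDomCongr (Equiv.ofBijective (lab w) ⟨hinj, hsurj⟩), fun x => ?_⟩
  rw [MultilinearMap.domDomCongr_apply]
  exact (lift_eq_evw w x).symm

omit [IsScalarTower F A A] [SMulCommClass F A A] in
theorem evJ_cons {α : Type*} (x : α → A) (q : F × FreeMagma α × FreeMagma α × FreeMagma α)
    (f : JForm F α) :
    evJ x (q :: f) = q.1 • J (evm x q.2.1) (evm x q.2.2.1) (evm x q.2.2.2) + evJ x f := by
  unfold evJ
  rw [List.map_cons, List.sum_cons]

/-- A multilinear J-form defines a multilinear map. -/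
theorem exists_jml {M : ℕ} (f : JForm F (Fin M)) (hf : JMulti f) :
    ∃ H : MultilinearMap F (fun _ : Fin M => A) A, ∀ x, H x = evJ x f := by
  induction f with
  | nil => exact ⟨0, fun x => by simp [evJ]⟩
  | cons q f ih =>
    obtain ⟨H, hH⟩ := ih fun q' hq' => hf q' (List.mem_cons_of_mem _ hq')
    have hq := hf q List.mem_cons_self
    obtain ⟨H1, h1⟩ := exists_mlw (F := F) (A := A) ((q.2.1 * q.2.2.1) * q.2.2.2) (by
      rw [lv_mul, lv_mul]; exact hq)
    obtain ⟨H2, h2⟩ := exists_mlw (F := F) (A := A) ((q.2.2.1 * q.2.2.2) * q.2.1) (by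
      rw [lv_mul, lv_mul]
      refine List.Perm.trans ?_ hq
      rw [List.append_assoc (lv q.2.1)]
      exact List.perm_append_comm)
    obtain ⟨H3, h3⟩ := exists_mlw (F := F) (A := A) ((q.2.2.2 * q.2.1) * q.2.2.1) (by
      rw [lv_mul, lv_mul]
      refine List.Perm.trans ?_ hq
      rw [List.append_assoc (lv q.2.2.2)]
      exact List.perm_append_comm)
    refine ⟨q.1 • (H1 + H2 + H3) + H, fun x => ?_⟩
    rw [evJ_cons, _root_.add_apply, _root_.smul_apply, _root_.add_apply,
      _root_.add_apply, h1, h2, h3, hH]
    rfl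

omit [NonUnitalNonAssocRing A] [IsScalarTower F A A] [SMulCommClass F A A] in
/-- A multilinear map which vanishes on a set vanishes on its span. -/
theorem vanish_span {F A B : Type*} [Field F] [AddCommGroup A] [Module F A] [AddCommGroup B]
    [Module F B] {m : ℕ} (H : MultilinearMap F (fun _ : Fin m => A) B)
    (S : Set A) (h : ∀ b : Fin m → A, (∀ i, b i ∈ S) → H b = 0) (b : Fin m → A)
    (hb : ∀ i, b i ∈ Submodule.span F S) : H b = 0 := by
  classical
  suffices key : ∀ T : Finset (Fin m), ∀ b : Fin m → A, (∀ i ∈ T, b i ∈ Submodule.span F S) →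
      (∀ i, i ∉ T → b i ∈ S) → H b = 0 by
    exact key Finset.univ b (fun i _ => hb i) (fun i hi => absurd (Finset.mem_univ i) hi)
  intro T
  induction T using Finset.induction_on with
  | empty =>
    intro b _ h2
    exact h b fun i => h2 i (Finset.notMem_empty i)
  | insert i0 T hi0 ih =>
    intro b h1 h2
    have h3 : ∀ y ∈ Submodule.span F S, H (Function.update b i0 y) = 0 := by
      intro y hy
      refine Submodule.span_induction (p := fun y _ => H (Function.update b i0 y) = 0) ?_ ?_ ?_ ?_ hy
      · intro y hy
        refine ih (Function.update b i0 y) ?_ ?_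
        · intro i hi
          have hne : i ≠ i0 := fun h => hi0 (h ▸ hi)
          rw [Function.update_of_ne hne]
          exact h1 i (Finset.mem_insert_of_mem hi)
        · intro i hi
          by_cases hii : i = i0
          · subst hii; rw [Function.update_self]; exact hy
          · rw [Function.update_of_ne hii]
            exact h2 i (by rw [Finset.mem_insert]; push Not; exact ⟨hii, hi⟩)
      · exact H.map_update_zero b i0
      · intro y z _ _ hy hz
        rw [H.map_update_add, hy, hz, add_zero]
      · intro c y _ hy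
        rw [H.map_update_smul, hy, smul_zero]
    have h4 := h3 (b i0) (h1 i0 (Finset.mem_insert_self _ _))
    rwa [Function.update_eq_self] at h4

end words

section subst

variable {α β : Type*}

/-- Substitution of words in a word. -/
abbrev sbst (u : α → FreeMagma β) (p : FreeMagma α) : FreeMagma β := FreeMagma.lift u p

theorem evm_sbst {A : Type*} [Mul A] (x : β → A) (u : α → FreeMagma β) (p : FreeMagma α) :
    evm x (sbst u p) = evm (fun i => evm x (u i)) p := by
  induction p with
  | ih1 a => rfl
  | ih2 s t hs ht =>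
    have h1 : sbst u (s * t) = sbst u s * sbst u t := map_mul _ _ _
    have h2 : evm x (sbst u s * sbst u t) = evm x (sbst u s) * evm x (sbst u t) := map_mul _ _ _
    have h3 : evm (fun i => evm x (u i)) (s * t) =
      evm (fun i => evm x (u i)) s * evm (fun i => evm x (u i)) t := map_mul _ _ _
    rw [h1, h2, h3, hs, ht]

theorem lv_sbst (u : α → FreeMagma β) (p : FreeMagma α) :
    lv (sbst u p) = (lv p).flatMap fun i => lv (u i) := by
  induction p with
  | ih1 a =>
    rw [lv_of]
    simp [sbst]
  | ih2 s t hs ht =>
    have h1 : sbst u (s * t) = sbst u s * sbst u t := map_mul _ _ _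
    rw [h1, lv_mul, hs, ht, lv_mul, List.flatMap_append]

theorem length_sbst (u : α → FreeMagma β) (hu : ∀ i, 2 ≤ (u i).length) (p : FreeMagma α) :
    2 ≤ (sbst u p).length := by
  induction p with
  | ih1 a => exact hu a
  | ih2 s t hs ht =>
    have h1 : sbst u (s * t) = sbst u s * sbst u t := map_mul _ _ _
    rw [h1]
    change 2 ≤ (sbst u s).length + (sbst u t).length
    omega

theorem length_map' (τ : α → β) (p : FreeMagma α) : (FreeMagma.map τ p).length = p.length := by
  induction p with
  | ih1 a => rfl
  | ih2 s t hs ht =>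
    rw [map_mul]
    change (FreeMagma.map τ s).length + (FreeMagma.map τ t).length = s.length + t.length
    rw [hs, ht]

theorem lv_map (τ : α → β) (p : FreeMagma α) : lv (FreeMagma.map τ p) = (lv p).map τ := by
  induction p with
  | ih1 a => rfl
  | ih2 s t hs ht => rw [map_mul, lv_mul, lv_mul, List.map_append, hs, ht]

theorem evm_map {A : Type*} [Mul A] (x : β → A) (τ : α → β) (p : FreeMagma α) :
    evm x (FreeMagma.map τ p) = evm (fun i => x (τ i)) p := by
  induction p with
  | ih1 a => rfl
  | ih2 s t hs ht =>
    have h2 : evm x (FreeMagma.map τ s * FreeMagma.map τ t) =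
      evm x (FreeMagma.map τ s) * evm x (FreeMagma.map τ t) := map_mul _ _ _
    have h3 : evm (fun i => x (τ i)) (s * t) =
      evm (fun i => x (τ i)) s * evm (fun i => x (τ i)) t := map_mul _ _ _
    rw [map_mul, h2, h3, hs, ht]

end subst

section step

variable {F A K C : Type*} [Field F] [CharZero F] [NonUnitalNonAssocRing A] [Module F A]
    [IsScalarTower F A A] [SMulCommClass F A A] [IsMalcev A] [TF A] [CommRing K] [Algebra F K]
    [AddCommGroup C] [Module F C] [Module K C] [IsScalarTower F K C]

/-- A family of trees with `N` leaves, all letters of `Fin M` exactly once. -/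
def Fam (N : ℕ) {m M : ℕ} (u : Fin m → FreeMagma (Fin M)) : Prop :=
  (∀ i, (u i).length = N) ∧ ((List.finRange m).flatMap fun i => lv (u i)).Perm (List.finRange M)

theorem Fam.map {N m M : ℕ} {u : Fin m → FreeMagma (Fin M)} (hu : Fam N u)
    (τ : Equiv.Perm (Fin M)) : Fam N (fun i => FreeMagma.map τ (u i)) := by
  refine ⟨fun i => by rw [length_map', hu.1], ?_⟩
  have h1 : ((List.finRange m).flatMap fun i => lv (FreeMagma.map τ (u i))) =
      ((List.finRange m).flatMap fun i => lv (u i)).map τ := by
    rw [List.map_flatMap]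
    simp only [lv_map]
  rw [h1]
  refine (hu.2.map τ).trans ?_
  rw [List.perm_ext_iff_of_nodup]
  · intro j; simp
    exact ⟨τ.symm j, by simp⟩
  · exact (List.nodup_finRange M).map τ.injective
  · exact List.nodup_finRange M

/-- The J-form obtained by substitution. -/
def subJ {m M : ℕ} (u : Fin m → FreeMagma (Fin M)) (f : JForm F (Fin m)) : JForm F (Fin M) :=
  f.map fun q => (q.1, sbst u q.2.1, sbst u q.2.2.1, sbst u q.2.2.2)

omit [CharZero F] [IsScalarTower F A A] [SMulCommClass F A A] [IsMalcev A] [TF A] in
theorem evJ_subJ {m M : ℕ} (u : Fin m → FreeMagma (Fin M)) (f : JForm F (Fin m))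
    (x : Fin M → A) : evJ x (subJ u f) = evJ (fun i => evm x (u i)) f := by
  induction f with
  | nil => rfl
  | cons q f ih =>
    have h1 : subJ u (q :: f) =
      (q.1, sbst u q.2.1, sbst u q.2.2.1, sbst u q.2.2.2) :: subJ u f := rfl
    rw [h1, evJ_cons, evJ_cons, ih]
    simp only [evm_sbst]

omit [CharZero F] in
theorem subJ_multi {N m M : ℕ} {u : Fin m → FreeMagma (Fin M)} (hu : Fam N u)
    {f : JForm F (Fin m)} (hf : JMulti f) : JMulti (subJ u f) := by
  intro q hq
  unfold subJ at hq
  rw [List.mem_map] at hq
  obtain ⟨q', hq', rfl⟩ := hq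
  change (lv (sbst u q'.2.1) ++ lv (sbst u q'.2.2.1) ++ lv (sbst u q'.2.2.2)).Perm _
  rw [lv_sbst, lv_sbst, lv_sbst, ← List.flatMap_append, ← List.flatMap_append]
  exact ((hf q' hq').flatMap_right _).trans hu.2

/-- Alternation for J-forms. -/
theorem altJ (D : FD F A K C) {M : ℕ} (f : JForm F (Fin M)) (hf : JMulti f)
    (hlen : ∀ q ∈ f, 2 ≤ q.2.1.length ∧ 2 ≤ q.2.2.1.length ∧ 2 ≤ q.2.2.2.length)
    (T : Finset (Fin M)) (hT : T.card = 69) (x : Fin M → A) :
    ∑ σ ∈ (Finset.univ.filter fun σ : Equiv.Perm (Fin M) => ∀ i, i ∉ T → σ i = i),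
      ((Equiv.Perm.sign σ : ℤˣ) : ℤ) • evJ (fun i => x (σ i)) f = 0 := by
  induction f with
  | nil => simp [evJ]
  | cons q f ih =>
    simp only [evJ_cons, smul_add]
    rw [Finset.sum_add_distrib, ih (fun q' hq' => hf q' (List.mem_cons_of_mem _ hq'))
      (fun q' hq' => hlen q' (List.mem_cons_of_mem _ hq')), add_zero]
    obtain ⟨h1, h2, h3⟩ := hlen q List.mem_cons_self
    have h := D.alternation q.2.1 q.2.2.1 q.2.2.2 h1 h2 h3 (hf q List.mem_cons_self) T hT x
    simp only [smul_comm _ q.1]
    rw [← Finset.smul_sum, h, smul_zero]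

/-- THE STEP: a multilinear J-form vanishing on `A_68 ^ N` vanishes on products of `N` letters. -/
theorem jstep (D : FD F A K C) {N m M : ℕ} (hN : 2 ≤ N) (f : JForm F (Fin m)) (hf : JMulti f)
    (h68 : ∀ b : Fin m → FreeMalcev F (Fin 68),
      (∀ i, b i ∈ pw F (FreeMalcev F (Fin 68)) N) → evJ b f = 0)
    (u : Fin m → FreeMagma (Fin M)) (hu : Fam N u) (x : Fin M → A) :
    evJ (fun i => evm x (u i)) f = 0 := by
  classical
  -- the space of multilinear maps
  let MM := MultilinearMap F (fun _ : Fin M => A) A
  let S : Set MM := {H | ∃ u : Fin m → FreeMagma (Fin M), Fam N u ∧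
    ∀ x, H x = evJ (fun i => evm x (u i)) f}
  let W : Submodule F MM := Submodule.span F S
  have hSτ : ∀ (τ : Equiv.Perm (Fin M)) (H : MM), H ∈ S → MultilinearMap.domDomCongr τ H ∈ S := by
    rintro τ H ⟨u, hu, hH⟩
    refine ⟨fun i => FreeMagma.map τ (u i), hu.map τ, fun x => ?_⟩
    rw [MultilinearMap.domDomCongr_apply, hH]
    simp only [evm_map]
  have hWτ : ∀ (τ : Equiv.Perm (Fin M)) (H : MM), H ∈ W → MultilinearMap.domDomCongr τ H ∈ W := by
    intro τ H hH
    refine Submodule.span_induction (p := fun H _ => MultilinearMap.domDomCongr τ H ∈ W)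
      ?_ ?_ ?_ ?_ hH
    · intro H hH; exact Submodule.subset_span (hSτ τ H hH)
    · have : MultilinearMap.domDomCongr τ (0 : MM) = 0 := by
        ext x; rfl
      rw [this]; exact W.zero_mem
    · intro a b _ _ ha hb
      have : MultilinearMap.domDomCongr τ (a + b) =
          MultilinearMap.domDomCongr τ a + MultilinearMap.domDomCongr τ b := by
        ext x; rfl
      rw [this]; exact W.add_mem ha hb
    · intro c a _ ha
      have : MultilinearMap.domDomCongr τ (c • a) = c • MultilinearMap.domDomCongr τ a := by
        ext x; rfl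
      rw [this]; exact W.smul_mem c ha
  let ρ : Equiv.Perm (Fin M) →* AddMonoid.End W :=
    { toFun := fun τ =>
        { toFun := fun H => ⟨MultilinearMap.domDomCongr τ H.1, hWτ τ H.1 H.2⟩
          map_zero' := by ext x; rfl
          map_add' := fun a b => by ext x; rfl }
      map_one' := by ext H x; rfl
      map_mul' := fun σ τ => by ext H x; rfl }
  have hρ : ∀ (τ : Equiv.Perm (Fin M)) (H : W) (x : Fin M → A),
      ((ρ τ H : W) : MM) x = (H : MM) (fun i => x (τ i)) := fun τ H x => rfl
  have : TF W := tf_of_field F W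
  have hdet := detection ρ 68 ?_ ?_
  · -- conclusion
    obtain ⟨H, hH⟩ := exists_jml (A := A) (subJ u f) (subJ_multi hu hf)
    have hHS : H ∈ S := ⟨u, hu, fun x => by rw [hH, evJ_subJ]⟩
    have h0 := hdet ⟨H, Submodule.subset_span hHS⟩
    have h1 : H = 0 := congrArg Subtype.val h0
    rw [← evJ_subJ, ← hH, h1]
    rfl
  · -- alternation
    intro T hT w
    obtain ⟨w, hw⟩ := w
    apply Subtype.ext
    ext x
    have hsum : ((epsT ρ T ⟨w, hw⟩ : W) : MM) x =
        ∑ σ ∈ (Finset.univ.filter fun σ : Equiv.Perm (Fin M) => ∀ i, i ∉ T → σ i = i),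
          ((Equiv.Perm.sign σ : ℤˣ) : ℤ) • w (fun i => x (σ i)) := by
      unfold epsT
      rw [AddSubmonoidClass.coe_finsetSum, _root_.sum_apply]
      refine Finset.sum_congr rfl fun σ _ => ?_
      rfl
    rw [hsum]
    change _ = (0 : A)
    refine Submodule.span_induction (p := fun w _ =>
      ∑ σ ∈ (Finset.univ.filter fun σ : Equiv.Perm (Fin M) => ∀ i, i ∉ T → σ i = i),
        ((Equiv.Perm.sign σ : ℤˣ) : ℤ) • w (fun i => x (σ i)) = 0) ?_ ?_ ?_ ?_ hw
    · rintro H ⟨u, hu, hH⟩
      have h1 := altJ D (subJ u f) (subJ_multi hu hf) ?_ T hT x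
      · rw [← h1]
        refine Finset.sum_congr rfl fun σ _ => ?_
        rw [hH, evJ_subJ]
      · intro q hq
        unfold subJ at hq
        rw [List.mem_map] at hq
        obtain ⟨q', hq', rfl⟩ := hq
        have hu2 : ∀ i, 2 ≤ (u i).length := fun i => by rw [hu.1 i]; exact hN
        exact ⟨length_sbst u hu2 _, length_sbst u hu2 _, length_sbst u hu2 _⟩
    · simp
    · intro a b _ _ ha hb
      simp only [_root_.add_apply, smul_add]
      rw [Finset.sum_add_distrib, ha, hb, add_zero]
    · intro c a _ ha
      simp only [_root_.smul_apply]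
      simp only [smul_comm _ c]
      rw [← Finset.smul_sum, ha, smul_zero]
  · -- Young subgroups
    intro c w hw
    apply Subtype.ext
    ext x
    change w.1 x = 0
    refine polarisation w.1 c ?_ ?_ x
    · intro σ hσ x
      have h1 := hw σ hσ
      have h2 := hρ σ w x
      rw [h1] at h2
      exact h2.symm
    · intro y
      obtain ⟨w, hwW⟩ := w
      change w (fun i => y (c i)) = 0
      refine Submodule.span_induction (p := fun w _ => w (fun i => y (c i)) = 0) ?_ ?_ ?_ ?_ hwW
      · rintro H ⟨u, hu, hH⟩
        rw [hH]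
        let φ : FreeMalcev F (Fin 68) →ₙₐ[F] A := FreeMalcev.lift y
        have hφ : ∀ p : FreeMagma (Fin M), evm (fun i => y (c i)) p =
            φ (evm (fun i => FreeMalcev.of F (c i)) p) := by
          intro p
          induction p with
          | ih1 a => exact (FreeMalcev.lift_of y (c a)).symm
          | ih2 s t hs ht =>
            have e1 : evm (fun i => y (c i)) (s * t) = evm (fun i => y (c i)) s *
              evm (fun i => y (c i)) t := map_mul _ _ _
            have e2 : evm (fun i => FreeMalcev.of F (c i)) (s * t) =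
              evm (fun i => FreeMalcev.of F (c i)) s * evm (fun i => FreeMalcev.of F (c i)) t :=
              map_mul _ _ _
            rw [e1, e2, hs, ht, map_mul]
        have hφJ : ∀ (b : Fin m → FreeMalcev F (Fin 68)) (g : JForm F (Fin m)),
            evJ (fun i => φ (b i)) g = φ (evJ b g) := by
          intro b g
          have hev : ∀ p : FreeMagma (Fin m), evm (fun i => φ (b i)) p = φ (evm b p) := by
            intro p
            induction p with
            | ih1 a => rfl
            | ih2 s t hs ht =>
              have e1 : evm (fun i => φ (b i)) (s * t) = evm (fun i => φ (b i)) s *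
                evm (fun i => φ (b i)) t := map_mul _ _ _
              have e2 : evm b (s * t) = evm b s * evm b t := map_mul _ _ _
              rw [e1, e2, hs, ht, map_mul]
          induction g with
          | nil => simp [evJ]
          | cons q g ih =>
            rw [evJ_cons, evJ_cons, ih, map_add, map_smul, hev, hev, hev]
            congr 2
            unfold J
            simp only [map_add, map_mul]
            rfl
        simp only [hφ]
        rw [hφJ, h68, map_zero]
        intro i
        have := evm_mem_pw (F := F) (fun i => FreeMalcev.of F (c i)) (u i)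
        rwa [hu.1 i] at this
      · rfl
      · intro a b _ _ ha hb
        rw [_root_.add_apply, ha, hb, add_zero]
      · intro k a _ ha
        rw [_root_.smul_apply, ha, smul_zero]

end step

end Pool.Agent.MalF
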