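import Pool.Agent.MalF.FP

/-!
# Words, their positions, and the multilinear maps they define
-/

set_option autoImplicit false

namespace Pool.Agent.MalF

universe u v w

/-- The positions (leaves) of a word. -/
def Pos {X : Type u} : FreeMagma X → Type
  | .of _ => Unit
  | .mul a b => Pos a ⊕ Pos b

instance instFintypePos {X : Type u} : (w : FreeMagma X) → Fintype (Pos w)
  | .of _ => inferInstanceAs (Fintype Unit)
  | .mul a b =>
    letI := instFintypePos a
    letI := instFintypePos b
    inferInstanceAs (Fintype (Pos a ⊕ Pos b))

instance instDecidableEqPos {X : Type u} : (w : FreeMagma X) → DecidableEq (Pos w)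
  | .of _ => inferInstanceAs (DecidableEq Unit)
  | .mul a b =>
    letI := instDecidableEqPos a
    letI := instDecidableEqPos b
    inferInstanceAs (DecidableEq (Pos a ⊕ Pos b))

instance instNonemptyPos {X : Type u} : (w : FreeMagma X) → Nonempty (Pos w)
  | .of _ => inferInstanceAs (Nonempty Unit)
  | .mul a b =>
    letI := instNonemptyPos a
    inferInstanceAs (Nonempty (Pos a ⊕ Pos b))

/-- The positions of the left factor. -/
def inlP {X : Type u} (a b : FreeMagma X) (i : Pos a) : Pos (.mul a b) := Sum.inl i

/-- The positions of the right factor. -/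
def inrP {X : Type u} (a b : FreeMagma X) (i : Pos b) : Pos (.mul a b) := Sum.inr i

theorem pos_cases {X : Type u} (a b : FreeMagma X) (p : Pos (.mul a b)) :
    (∃ i, p = inlP a b i) ∨ ∃ i, p = inrP a b i := by
  rcases p with i | i
  · exact Or.inl ⟨i, rfl⟩
  · exact Or.inr ⟨i, rfl⟩

theorem inlP_inj {X : Type u} (a b : FreeMagma X) {i j : Pos a} (h : inlP a b i = inlP a b j) :
    i = j := Sum.inl_injective h

theorem inrP_inj {X : Type u} (a b : FreeMagma X) {i j : Pos b} (h : inrP a b i = inrP a b j) :
    i = j := Sum.inr_injective h

theorem inl_ne_inr {X : Type u} (a b : FreeMagma X) (i : Pos a) (j : Pos b) :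
    inlP a b i ≠ inrP a b j := Sum.inl_ne_inr

/-- The letter at a position. -/
def lab {X : Type u} : (w : FreeMagma X) → Pos w → X
  | .of x, _ => x
  | .mul a _, Sum.inl i => lab a i
  | .mul _ b, Sum.inr i => lab b i

/-- The multiset of the letters of a word. -/
def leaves {X : Type u} : FreeMagma X → Multiset X
  | .of x => {x}
  | .mul a b => leaves a + leaves b

/-- Replace the letters of a word. -/
def relabel {X : Type u} {Y : Type v} : (w : FreeMagma X) → (Pos w → Y) → FreeMagma Y
  | .of _, f => .of (f ())
  | .mul a b, f => .mul (relabel a fun i => f (inlP a b i)) (relabel b fun i => f (inrP a b i))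

@[simp]
theorem leaves_of {X : Type u} (x : X) : leaves (FreeMagma.of x) = {x} := rfl

@[simp]
theorem leaves_mul {X : Type u} (a b : FreeMagma X) : leaves (a * b) = leaves a + leaves b := rfl

theorem univ_pos {X : Type u} (a b : FreeMagma X) :
    (Finset.univ : Finset (Pos (.mul a b))).val =
      (Finset.univ : Finset (Pos a)).val.map (inlP a b) +
      (Finset.univ : Finset (Pos b)).val.map (inrP a b) := by
  change (Finset.univ : Finset (Pos a ⊕ Pos b)).val = _
  rw [← Finset.univ_disjSum_univ, Finset.val_disjSum]
  rfl

theorem leaves_relabel {X : Type u} {Y : Type v} : ∀ (w : FreeMagma X) (f : Pos w → Y),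
    leaves (relabel w f) = (Finset.univ : Finset (Pos w)).val.map f
  | .of x, f => by
    change ({f ()} : Multiset Y) = (Finset.univ : Finset Unit).val.map f
    rfl
  | .mul a b, f => by
    change leaves (relabel a fun i => f (inlP a b i)) + leaves (relabel b fun i => f (inrP a b i)) = _
    rw [leaves_relabel a, leaves_relabel b, univ_pos, Multiset.map_add, Multiset.map_map,
      Multiset.map_map]
    rfl

theorem relabel_lab {X : Type u} : ∀ (w : FreeMagma X), relabel w (lab w) = w
  | .of x => rfl
  | .mul a b => by
    change FreeMagma.mul (relabel a (lab a)) (relabel b (lab b)) = FreeMagma.mul a b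
    rw [relabel_lab a, relabel_lab b]

theorem leaves_eq {X : Type u} (w : FreeMagma X) :
    leaves w = (Finset.univ : Finset (Pos w)).val.map (lab w) := by
  rw [← leaves_relabel, relabel_lab]

/-- The multiset of the letters is the list of helper definition `lv`. -/
theorem leaves_eq_lv {X : Type u} : ∀ w : FreeMagma X, leaves w = (lv w : Multiset X)
  | .of _ => rfl
  | .mul a b => by
    change leaves a + leaves b = ((lv a ++ lv b : List X) : Multiset X)
    rw [leaves_eq_lv a, leaves_eq_lv b]
    rfl

theorem leaves_eq_univ {m : ℕ} (w : FreeMagma (Fin m)) :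
    leaves w = (Finset.univ : Finset (Fin m)).val ↔ (lv w).Perm (List.finRange m) := by
  rw [leaves_eq_lv]
  exact Multiset.coe_eq_coe

theorem card_leaves {X : Type u} (w : FreeMagma X) :
    (leaves w).card = Fintype.card (Pos w) := by
  rw [leaves_eq, Multiset.card_map]
  rfl

theorem card_leaves_pos {X : Type u} (w : FreeMagma X) : 0 < (leaves w).card := by
  rw [card_leaves]
  exact Fintype.card_pos

section evw

variable {F : Type u} {A : Type v} [CommRing F] [NonUnitalNonAssocRing A] [Module F A]
  [IsScalarTower F A A] [SMulCommClass F A A]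

/-- The value of a word when the elements `x p` are put at its positions `p`. -/
def evf {X : Type w} : (w : FreeMagma X) → (Pos w → A) → A
  | .of _, x => x ()
  | .mul a b, x => evf a (fun i => x (inlP a b i)) * evf b (fun i => x (inrP a b i))

omit [CommRing F] [Module F A] [IsScalarTower F A A] [SMulCommClass F A A] in
theorem evf_mul {X : Type w} (a b : FreeMagma X) (x : Pos (.mul a b) → A) :
    evf (.mul a b) x = evf a (fun i => x (inlP a b i)) * evf b (fun i => x (inrP a b i)) := rfl

omit [CommRing F] [Module F A] [IsScalarTower F A A] [SMulCommClass F A A] in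
theorem evf_update_inl {X : Type w} (a b : FreeMagma X) [DecidableEq (Pos a)]
    [DecidableEq (Pos (.mul a b))] (x : Pos (.mul a b) → A) (i : Pos a) (y : A) :
    evf (.mul a b) (Function.update x (inlP a b i) y) =
      evf a (Function.update (fun i => x (inlP a b i)) i y) * evf b (fun i => x (inrP a b i)) := by
  rw [evf_mul]
  congr 2
  · funext j
    by_cases h : j = i
    · subst h; simp
    · rw [Function.update_of_ne (fun h' => h (inlP_inj a b h')), Function.update_of_ne h]
  · funext j
    rw [Function.update_of_ne (inl_ne_inr a b i j).symm]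

omit [CommRing F] [Module F A] [IsScalarTower F A A] [SMulCommClass F A A] in
theorem evf_update_inr {X : Type w} (a b : FreeMagma X) [DecidableEq (Pos b)]
    [DecidableEq (Pos (.mul a b))] (x : Pos (.mul a b) → A) (i : Pos b) (y : A) :
    evf (.mul a b) (Function.update x (inrP a b i) y) =
      evf a (fun i => x (inlP a b i)) * evf b (Function.update (fun i => x (inrP a b i)) i y) := by
  rw [evf_mul]
  congr 2
  · funext j
    rw [Function.update_of_ne (inl_ne_inr a b j i)]
  · funext j
    by_cases h : j = i
    · subst h; simp
    · rw [Function.update_of_ne (fun h' => h (inrP_inj a b h')), Function.update_of_ne h]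

omit [CommRing F] [Module F A] [IsScalarTower F A A] [SMulCommClass F A A] in
theorem update_of {X : Type w} (z : X) [DecidableEq (Pos (FreeMagma.of z))]
    (x : Pos (FreeMagma.of z) → A) (i : Pos (FreeMagma.of z)) (y : A) :
    evf (FreeMagma.of z) (Function.update x i y) = y := by
  have h : evf (FreeMagma.of z) (Function.update x i y) = Function.update x i y i := by
    cases i
    rfl
  rw [h, Function.update_self]

omit [CommRing F] [Module F A] [IsScalarTower F A A] [SMulCommClass F A A] in
theorem evf_add {X : Type w} : ∀ (w : FreeMagma X) [DecidableEq (Pos w)] (x : Pos w → A) (i : Pos w)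
    (y z : A), evf w (Function.update x i (y + z)) =
      evf w (Function.update x i y) + evf w (Function.update x i z)
  | .of _, _, x, i, y, z => by
    rw [update_of, update_of, update_of]
  | .mul a b, _, x, i, y, z => by
    classical
    rcases pos_cases a b i with ⟨i, rfl⟩ | ⟨i, rfl⟩
    · rw [evf_update_inl, evf_update_inl, evf_update_inl, evf_add a, add_mul]
    · rw [evf_update_inr, evf_update_inr, evf_update_inr, evf_add b, mul_add]

theorem evf_smul {X : Type w} : ∀ (w : FreeMagma X) [DecidableEq (Pos w)] (x : Pos w → A) (i : Pos w)
    (c : F) (y : A), evf w (Function.update x i (c • y)) = c • evf w (Function.update x i y)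
  | .of _, _, x, i, c, y => by
    rw [update_of, update_of]
  | .mul a b, _, x, i, c, y => by
    classical
    rcases pos_cases a b i with ⟨i, rfl⟩ | ⟨i, rfl⟩
    · rw [evf_update_inl, evf_update_inl, evf_smul a, smul_mul_assoc]
    · rw [evf_update_inr, evf_update_inr, evf_smul b, mul_smul_comm]

variable (F) in
/-- The multilinear map of a word: its value when elements are put at its positions. -/
def evw {X : Type w} (w : FreeMagma X) :
    MultilinearMap F (fun _ : Pos w => A) A where
  toFun := evf w
  map_update_add' := fun {_} x i y z => evf_add w x i y z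
  map_update_smul' := fun {_} x i c y => evf_smul w x i c y

theorem evw_mul {X : Type w} (a b : FreeMagma X) (x : Pos (.mul a b) → A) :
    evw F (a * b) x = evw F a (fun i => x (inlP a b i)) * evw F b (fun i => x (inrP a b i)) := rfl

omit [CommRing F] [Module F A] [IsScalarTower F A A] [SMulCommClass F A A] in
theorem lift_relabel' {X Y : Type*} (y : Y → A) : ∀ (w : FreeMagma X) (f : Pos w → Y),
    FreeMagma.lift y (relabel w f) = evf w (fun p => y (f p))
  | .of _, f => rfl
  | .mul a b, f => by
    change FreeMagma.lift y (relabel a (fun i => f (inlP a b i)) *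
      relabel b (fun i => f (inrP a b i))) = _
    rw [map_mul, lift_relabel' y a, lift_relabel' y b]
    rfl

theorem lift_relabel {X Y : Type*} (w : FreeMagma X) (f : Pos w → Y) (y : Y → A) :
    FreeMagma.lift y (relabel w f) = evw F w (fun p => y (f p)) := lift_relabel' y w f

theorem lift_eq_evw {X : Type*} (w : FreeMagma X) (x : X → A) :
    FreeMagma.lift x w = evw F w (fun p => x (lab w p)) := by
  rw [← lift_relabel, relabel_lab]

/-- The word `w` as an element of the free algebra. -/
noncomputable def wd (F : Type u) [CommRing F] {X : Type w} (w : FreeMagma X) :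
    FreeNonUnitalNonAssocAlgebra F X := MonoidAlgebra.single w 1

theorem wd_of {X : Type w} (x : X) : wd F (FreeMagma.of x) = FreeNonUnitalNonAssocAlgebra.of F x := rfl

theorem wd_mul {X : Type w} (a b : FreeMagma X) : wd F (a * b) = wd F a * wd F b := by
  unfold wd
  rw [MonoidAlgebra.single_mul_single, one_mul]

theorem lift_wd {X : Type w} (x : X → A) (w : FreeMagma X) :
    FreeNonUnitalNonAssocAlgebra.lift F x (wd F w) = FreeMagma.lift x w := by
  induction w with
  | ih1 x => rw [wd_of, FreeNonUnitalNonAssocAlgebra.lift_of_apply, FreeMagma.lift_of]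
  | ih2 a b iha ihb => rw [wd_mul, map_mul, map_mul, iha, ihb]

/-- Every polynomial is a combination of words. -/
theorem exists_sum_wd {X : Type w} (f : FreeNonUnitalNonAssocAlgebra F X) :
    ∃ (s : Finset (FreeMagma X)) (c : FreeMagma X → F), f = ∑ w ∈ s, c w • wd F w := by
  classical
  induction f using MonoidAlgebra.induction_linear with
  | zero => exact ⟨∅, 0, by simp⟩
  | add f g hf hg =>
    obtain ⟨s, c, rfl⟩ := hf
    obtain ⟨t, d, rfl⟩ := hg
    refine ⟨s ∪ t, fun w => (if w ∈ s then c w else 0) + (if w ∈ t then d w else 0), ?_⟩
    simp_rw [add_smul]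
    rw [Finset.sum_add_distrib]
    congr 1
    · rw [← Finset.sum_subset Finset.subset_union_left]
      · exact Finset.sum_congr rfl fun w hw => by rw [if_pos hw]
      · intro w _ hw; rw [if_neg hw, zero_smul]
    · rw [← Finset.sum_subset Finset.subset_union_right]
      · exact Finset.sum_congr rfl fun w hw => by rw [if_pos hw]
      · intro w _ hw; rw [if_neg hw, zero_smul]
  | single w r =>
    refine ⟨{w}, fun _ => r, ?_⟩
    rw [Finset.sum_singleton, wd, MonoidAlgebra.smul_single, smul_eq_mul, mul_one]

end evw

end Pool.Agent.MalF
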