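import Pool.Agent.MalF.EvB

/-!
# Trees are combinations of left-normed words modulo J-forms (module FRC1)
-/

set_option linter.unusedSectionVars false

noncomputable section

namespace Pool.Agent.MalF

section
variable {F : Type*} [Field F] {X A : Type*} [NonUnitalNonAssocRing A] [Module F A]

/-- The left-normed product `((x_a x_(w 0)) x_(w 1)) ...`. -/
def lnorm (x : X → A) (a : X) (w : List X) : A := (w.map x).foldl (· * ·) (x a)

variable (F) in
/-- Span of the left-normed words which begin with `a`, the other letters in any order. -/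
def LN (x : X → A) (a : X) (L : List X) : Submodule F A :=
  Submodule.span F {y | ∃ w : List X, w.Perm L ∧ y = lnorm x a w}

variable (F) in
/-- Span of the `J(p,q,r)` with given letters. -/
def JS (x : X → A) (L : List X) : Submodule F A :=
  Submodule.span F {y | ∃ p q r : FreeMagma X, (lv p ++ lv q ++ lv r).Perm L ∧
    y = J (evm x p) (evm x q) (evm x r)}

private theorem LN_perm (x : X → A) (a : X) {L L' : List X} (h : L.Perm L') :
    LN F x a L = LN F x a L' := by
  unfold LN
  congr 1
  ext y
  constructor
  · rintro ⟨w, hw, rfl⟩; exact ⟨w, hw.trans h, rfl⟩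
  · rintro ⟨w, hw, rfl⟩; exact ⟨w, hw.trans h.symm, rfl⟩

private theorem JS_perm (x : X → A) {L L' : List X} (h : L.Perm L') :
    JS F x L = JS F x L' := by
  unfold JS
  congr 1
  ext y
  constructor
  · rintro ⟨p, q, r, hw, rfl⟩; exact ⟨p, q, r, hw.trans h, rfl⟩
  · rintro ⟨p, q, r, hw, rfl⟩; exact ⟨p, q, r, hw.trans h.symm, rfl⟩

variable [CharZero F] [IsScalarTower F A A] [SMulCommClass F A A] [IsMalcev A] [TF A]

private theorem half_mem (S : Submodule F A) {y : A} (h : (2 : ℤ) • y ∈ S) : y ∈ S := by
  have h1 : y = (2 : F)⁻¹ • ((2 : ℤ) • y) := by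
    rw [← Int.cast_smul_eq_zsmul F, smul_smul]
    norm_num
  rw [h1]
  exact S.smul_mem _ h

/-- `id_S3`: `2 v J(p,q,r) = J(v,p,qr) + J(v,q,rp) + J(v,r,pq)`, and `y * v = - v * y`;
`Submodule.span_induction`, division by `2` in `F`. -/
theorem JS_mul (x : X → A) (L : List X) (v : FreeMagma X) {y : A} (hy : y ∈ JS F x L) :
    y * evm x v ∈ JS F x (L ++ lv v) := by
  refine Submodule.span_induction (p := fun y _ => y * evm x v ∈ JS F x (L ++ lv v))
    ?_ ?_ ?_ ?_ hy
  · rintro y ⟨p, q, r, h, rfl⟩
    apply half_mem
    have h3 := id_S3 (evm x v) (evm x p) (evm x q) (evm x r)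
    have e1 : (2 : ℤ) • (J (evm x p) (evm x q) (evm x r) * evm x v) =
        -(J (evm x v) (evm x p) (evm x (q * r)) + J (evm x v) (evm x q) (evm x (r * p)) +
          J (evm x v) (evm x r) (evm x (p * q))) := by
      rw [anti (J (evm x p) (evm x q) (evm x r)) (evm x v), smul_neg, neg_inj, evm_mul, evm_mul,
        evm_mul]
      have h4 := eq_of_sub_eq_zero h3
      rw [sub_eq_iff_eq_add, sub_eq_iff_eq_add] at h4
      rw [h4]
      abel
    rw [e1]
    have hperm : ∀ {a b c : List X}, (a ++ b ++ c).Perm L → (lv v ++ (a ++ b ++ c)).Perm (L ++ lv v) :=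
      fun h => (List.perm_append_comm).trans (h.append_right _)
    refine Submodule.neg_mem _ (Submodule.add_mem _ (Submodule.add_mem _ ?_ ?_) ?_)
    · refine Submodule.subset_span ⟨v, p, q * r, ?_, rfl⟩
      rw [lv_mul, List.append_assoc, ← List.append_assoc (lv p)]
      exact hperm h
    · refine Submodule.subset_span ⟨v, q, r * p, ?_, rfl⟩
      rw [lv_mul, List.append_assoc, ← List.append_assoc (lv q)]
      refine hperm (List.Perm.trans ?_ h)
      rw [List.append_assoc (lv p)]
      exact List.perm_append_comm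
    · refine Submodule.subset_span ⟨v, r, p * q, ?_, rfl⟩
      rw [lv_mul, List.append_assoc, ← List.append_assoc (lv r)]
      refine hperm (List.Perm.trans ?_ h)
      rw [List.append_assoc (lv r)]
      exact List.perm_append_comm
  · rw [zero_mul]; exact Submodule.zero_mem _
  · intro a b _ _ ha hb
    rw [add_mul]; exact Submodule.add_mem _ ha hb
  · intro c a _ ha
    rw [smul_mul_assoc]; exact Submodule.smul_mem _ _ ha

omit [CharZero F] [IsScalarTower F A A] [SMulCommClass F A A] [IsMalcev A] [TF A] [Module F A] in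
private theorem lnorm_tree (x : X → A) (a : X) : ∀ w : List X, ∃ s : FreeMagma X,
    lnorm x a w = evm x s ∧ lv s = a :: w := by
  intro w
  induction w using List.reverseRecOn with
  | nil => exact ⟨FreeMagma.of a, rfl, rfl⟩
  | append_singleton w b ih =>
    obtain ⟨s, h1, h2⟩ := ih
    refine ⟨s * FreeMagma.of b, ?_, ?_⟩
    · rw [evm_mul, evm_of, ← h1]
      unfold lnorm
      rw [List.map_append, List.foldl_append]
      rfl
    · rw [lv_mul, h2]
      rfl

/-- Induction on `v` (for all `L`, `y`).  Leaf: `lnorm x a w * x b = lnorm x a (w ++ [b])`.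
`v = v1 * v2`: `y (v1 v2) = (y v1) v2 - (y v2) v1 - J(y,v1,v2)`; the first two by the induction
hypothesis twice (permute the letters), the third: `y ↦ J(y,v1,v2)` is linear, for
`y = lnorm x a w = evm x (left-normed tree)` it is in `JS`, for `y ∈ JS` by `JS_mul`:
`J(y,v1,v2) = (y v1) v2 + (v1 v2) y + (v2 y) v1`. -/
theorem LN_mul (x : X → A) (a : X) (v : FreeMagma X) (L : List X) {y : A}
    (hy : y ∈ LN F x a L ⊔ JS F x (a :: L)) :
    y * evm x v ∈ LN F x a (L ++ lv v) ⊔ JS F x (a :: (L ++ lv v)) := by
  induction v generalizing L y with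
  | ih1 b =>
    rw [Submodule.mem_sup] at hy
    obtain ⟨y1, h1, y2, h2, rfl⟩ := hy
    rw [add_mul]
    refine Submodule.add_mem_sup ?_ ?_
    · refine Submodule.span_induction
        (p := fun y _ => y * evm x (FreeMagma.of b) ∈ LN F x a (L ++ lv (FreeMagma.of b)))
        ?_ ?_ ?_ ?_ h1
      · rintro y ⟨w, hw, rfl⟩
        refine Submodule.subset_span ⟨w ++ [b], hw.append_right _, ?_⟩
        unfold lnorm
        rw [List.map_append, List.foldl_append]
        rfl
      · rw [zero_mul]; exact Submodule.zero_mem _
      · intro a b _ _ ha hb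
        rw [add_mul]; exact Submodule.add_mem _ ha hb
      · intro c a _ ha
        rw [smul_mul_assoc]; exact Submodule.smul_mem _ _ ha
    · exact JS_mul x (a :: L) (FreeMagma.of b) h2
  | ih2 v1 v2 ih1 ih2 =>
    have e1 : y * evm x (v1 * v2) = (y * evm x v1) * evm x v2 - (y * evm x v2) * evm x v1 -
        J y (evm x v1) (evm x v2) := by
      rw [evm_mul]
      unfold J
      rw [anti (evm x v1 * evm x v2) y, anti (evm x v2) y, neg_mul]
      abel
    rw [e1, lv_mul]
    refine Submodule.sub_mem _ (Submodule.sub_mem _ ?_ ?_) ?_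
    · have h := ih2 (L ++ lv v1) (ih1 L hy)
      rwa [List.append_assoc] at h
    · have h := ih1 (L ++ lv v2) (ih2 L hy)
      have hp : (L ++ lv v2 ++ lv v1).Perm (L ++ (lv v1 ++ lv v2)) := by
        rw [List.append_assoc]
        exact List.Perm.append_left _ List.perm_append_comm
      rw [LN_perm x a hp, JS_perm x (hp.cons a)] at h
      exact h
    · refine (le_sup_right : JS F x (a :: (L ++ (lv v1 ++ lv v2))) ≤ _) ?_
      rw [Submodule.mem_sup] at hy
      obtain ⟨y1, h1, y2, h2, rfl⟩ := hy
      rw [J_add1]
      refine Submodule.add_mem _ ?_ ?_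
      · refine Submodule.span_induction
          (p := fun y _ => J y (evm x v1) (evm x v2) ∈ JS F x (a :: (L ++ (lv v1 ++ lv v2))))
          ?_ ?_ ?_ ?_ h1
        · rintro y ⟨w, hw, rfl⟩
          obtain ⟨s, hs1, hs2⟩ := lnorm_tree x a w
          rw [hs1]
          refine Submodule.subset_span ⟨s, v1, v2, ?_, rfl⟩
          rw [hs2, List.append_assoc]
          exact (hw.append_right _).cons a
        · rw [J_zero1]; exact Submodule.zero_mem _
        · intro a b _ _ ha hb
          rw [J_add1]; exact Submodule.add_mem _ ha hb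
        · intro c a _ ha
          rw [J_smul1]; exact Submodule.smul_mem _ _ ha
      · unfold J
        have k1 := JS_mul x _ v2 (JS_mul x _ v1 h2)
        have k2 := JS_mul x _ (v1 * v2) h2
        have k3 := JS_mul x _ v1 (JS_mul x _ v2 h2)
        rw [evm_mul, lv_mul] at k2
        rw [anti (evm x v1 * evm x v2) y2, anti (evm x v2) y2, neg_mul]
        have hp1 : (a :: L ++ lv v1 ++ lv v2).Perm (a :: (L ++ (lv v1 ++ lv v2))) := by
          rw [List.append_assoc]
          exact List.Perm.refl _
        have hp3 : (a :: L ++ lv v2 ++ lv v1).Perm (a :: (L ++ (lv v1 ++ lv v2))) := by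
          rw [List.append_assoc]
          exact List.Perm.append_left (a :: L) List.perm_append_comm
        rw [JS_perm x hp1] at k1
        rw [JS_perm x hp3] at k3
        exact Submodule.add_mem _ (Submodule.add_mem _ k1 (Submodule.neg_mem _ k2))
          (Submodule.neg_mem _ k3)

/-- Induction on `t`: `t = t1 * t2`, `a` in `t1` (then `LN_mul` with `v = t2`) or in `t2`
(anticommutativity). -/
theorem tree_mem (x : X → A) (t : FreeMagma X) (a : X) (L : List X)
    (h : (lv t).Perm (a :: L)) : evm x t ∈ LN F x a L ⊔ JS F x (a :: L) := by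
  classical
  induction t generalizing L with
  | ih1 b =>
    rw [lv_of] at h
    have h1 := List.perm_singleton.mp h.symm
    have h2 : b = a ∧ L = [] := by
      have := h1
      rw [List.cons.injEq] at this
      exact ⟨this.1.symm, this.2⟩
    obtain ⟨rfl, rfl⟩ := h2
    refine (le_sup_left : LN F x b [] ≤ _) (Submodule.subset_span ⟨[], List.Perm.refl _, rfl⟩)
  | ih2 t1 t2 ih1 ih2 =>
    rw [lv_mul] at h
    have ha : a ∈ lv t1 ++ lv t2 := by
      rw [h.mem_iff]; exact List.mem_cons_self
    rw [List.mem_append] at ha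
    rcases ha with ha | ha
    · have p1 : (lv t1).Perm (a :: (lv t1).erase a) := List.perm_cons_erase ha
      have h1 := LN_mul x a t2 _ (ih1 _ p1)
      have p2 : ((lv t1).erase a ++ lv t2).Perm L := by
        have : (a :: ((lv t1).erase a ++ lv t2)).Perm (a :: L) :=
          (p1.symm.append_right (lv t2)).trans h
        exact this.cons_inv
      rw [LN_perm x a p2, JS_perm x (p2.cons a)] at h1
      exact h1
    · have p1 : (lv t2).Perm (a :: (lv t2).erase a) := List.perm_cons_erase ha
      have h1 := LN_mul x a t1 _ (ih2 _ p1)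
      have p2 : ((lv t2).erase a ++ lv t1).Perm L := by
        have : (a :: ((lv t2).erase a ++ lv t1)).Perm (a :: L) :=
          ((p1.symm.append_right (lv t1)).trans List.perm_append_comm).trans h
        exact this.cons_inv
      rw [LN_perm x a p2, JS_perm x (p2.cons a)] at h1
      rw [evm_mul, anti]
      exact Submodule.neg_mem _ h1

end

end Pool.Agent.MalF
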