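import Pool.Agent.MalF.FrC1
import Pool.Agent.MalF.FM

/-!
# Evaluation in the Lie algebra of finitary matrices (module FRC2)
-/

set_option linter.unusedSectionVars false

noncomputable section

namespace Pool.Agent.MalF

/-- The ring `R` with the commutator as multiplication. -/
def Com (R : Type*) : Type _ := R

section com
variable {R : Type*} [Ring R]

instance : AddCommGroup (Com R) := inferInstanceAs (AddCommGroup R)

instance {F : Type*} [Field F] [Module F R] : Module F (Com R) := inferInstanceAs (Module F R)

/-- The commutator. -/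
def comMul (a b : R) : R := a * b - b * a

theorem comMul_add (a b c : R) : comMul a (b + c) = comMul a b + comMul a c := by
  simp only [comMul, mul_add, add_mul]
  abel

theorem add_comMul (a b c : R) : comMul (a + b) c = comMul a c + comMul b c := by
  simp only [comMul, mul_add, add_mul]
  abel

theorem zero_comMul (a : R) : comMul 0 a = 0 := by simp [comMul]

theorem comMul_zero (a : R) : comMul a 0 = 0 := by simp [comMul]

theorem smul_comMul {F : Type*} [Field F] [Algebra F R] (c : F) (a b : R) :
    comMul (c • a) b = c • comMul a b := by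
  simp only [comMul, smul_sub, smul_mul_assoc, mul_smul_comm]

theorem comMul_smul {F : Type*} [Field F] [Algebra F R] (c : F) (a b : R) :
    comMul a (c • b) = c • comMul a b := by
  simp only [comMul, smul_sub, smul_mul_assoc, mul_smul_comm]

theorem comMul_J (x y z : R) : comMul (comMul x y) z + comMul (comMul y z) x
    + comMul (comMul z x) y = 0 := by
  simp only [comMul]
  noncomm_ring

theorem comMul_malcev (x y z : R) : comMul (comMul x y) (comMul x z)
    = comMul (comMul (comMul x y) z) x + comMul (comMul (comMul y z) x) x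
      + comMul (comMul (comMul z x) x) y := by
  simp only [comMul]
  noncomm_ring

instance : NonUnitalNonAssocRing (Com R) where
  mul a b := comMul (R := R) a b
  left_distrib a b c := comMul_add (R := R) a b c
  right_distrib a b c := add_comMul (R := R) a b c
  zero_mul a := zero_comMul (R := R) a
  mul_zero a := comMul_zero (R := R) a

theorem com_mul (a b : Com R) : a * b = comMul (R := R) a b := rfl

instance {F : Type*} [Field F] [Algebra F R] : IsScalarTower F (Com R) (Com R) where
  smul_assoc c a b := smul_comMul (R := R) c a b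

instance {F : Type*} [Field F] [Algebra F R] : SMulCommClass F (Com R) (Com R) where
  smul_comm c a b := (comMul_smul (R := R) c a b).symm

/-- The Jacobi identity. -/
theorem J_com (x y z : Com R) : J x y z = 0 := comMul_J (R := R) x y z

instance : IsMalcev (Com R) where
  self_mul x := sub_self (G := R) _
  malcev x y z := comMul_malcev (R := R) x y z

end com

/-- Endomorphisms of the space with basis `ℕ`, multiplication = commutator. -/
abbrev Gl (F : Type*) [Field F] := Com (Module.End F (ℕ →₀ F))

/-- The matrix unit `e_j ↦ e_i`. -/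
def Eu (F : Type*) [Field F] (i j : ℕ) : Gl F :=
  (((Finsupp.lsingle i : F →ₗ[F] (ℕ →₀ F)).comp (Finsupp.lapply j)) :
    Module.End F (ℕ →₀ F))

section
variable {F : Type*} [Field F]

/-- Matrix units as endomorphisms. -/
private def eu (F : Type*) [Field F] (i j : ℕ) : Module.End F (ℕ →₀ F) :=
  (Finsupp.lsingle i : F →ₗ[F] (ℕ →₀ F)).comp (Finsupp.lapply j)

private theorem eu_comp (i j k l : ℕ) :
    eu F i j * eu F k l = if j = k then eu F i l else 0 := by
  apply LinearMap.ext
  intro x
  change Finsupp.single i ((Finsupp.single k (x l) : ℕ →₀ F) j) = _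
  by_cases h : j = k
  · subst h
    rw [Finsupp.single_eq_same, if_pos rfl]
    rfl
  · rw [Finsupp.single_eq_of_ne (by exact h), if_neg h, Finsupp.single_zero]
    rfl

private theorem eu_comMul (i j k l : ℕ) : comMul (eu F i j) (eu F k l)
    = (if j = k then eu F i l else 0) - (if l = i then eu F k j else 0) := by
  rw [comMul, eu_comp, eu_comp]

/-- `[E_ij, E_kl] = δ_jk E_il - δ_li E_kj`. -/
theorem Eu_mul (i j k l : ℕ) : Eu F i j * Eu F k l
    = (if j = k then Eu F i l else 0) - (if l = i then Eu F k j else 0) :=
  eu_comMul i j k l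

/-- There is a homomorphism from the free Malcev algebra to `Gl F` such that all matrix units
`E_ij`, `i ≠ j`, are images of elements of every power: generator `i ↦ E_(unpair i)` and
`E_ij = [E_ii, E_ij]` (induction on `n`, `pw_mul`). -/
theorem exists_hom : ∃ φ : FreeMalcev F ℕ →ₙₐ[F] Gl F, ∀ n, 1 ≤ n → ∀ i j, i ≠ j →
    ∃ a ∈ pw F (FreeMalcev F ℕ) n, φ a = Eu F i j := by
  refine ⟨FreeMalcev.lift fun k => Eu F (Nat.unpair k).1 (Nat.unpair k).2, ?_⟩
  intro n hn i j hij
  induction n, hn using Nat.le_induction with
  | base =>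
    refine ⟨FreeMalcev.of F (Nat.pair i j), ?_, ?_⟩
    · rw [pw_one]
      trivial
    · rw [FreeMalcev.lift_of, Nat.unpair_pair]
  | succ n _ ih =>
    obtain ⟨a, ha, hφ⟩ := ih
    refine ⟨FreeMalcev.of F (Nat.pair i i) * a, ?_, ?_⟩
    · rw [Nat.add_comm]
      refine pw_mul ?_ ha
      rw [pw_one]
      trivial
    · rw [map_mul, hφ, FreeMalcev.lift_of, Nat.unpair_pair, Eu_mul, if_pos rfl,
        if_neg (Ne.symm hij)]
      exact sub_zero (Eu F i j)

private theorem lnorm_append {X A : Type*} [NonUnitalNonAssocRing A] (x : X → A) (a : X)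
    (u : List X) (b : X) : lnorm x a (u ++ [b]) = lnorm x a u * x b := by
  unfold lnorm
  rw [List.map_append, List.foldl_append]
  rfl

private theorem lnorm_zero {X A : Type*} [NonUnitalNonAssocRing A] (x : X → A) (a : X)
    (u v : List X) (h : lnorm x a u = 0) : lnorm x a (u ++ v) = 0 := by
  induction v using List.reverseRecOn with
  | nil => rwa [List.append_nil]
  | append_singleton v b ih => rw [← List.append_assoc, lnorm_append, ih, zero_mul]

private theorem split_ne {X : Type*} : ∀ (w w0 : List X), w.length = w0.length → w ≠ w0 →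
    ∃ (u v v' : List X) (b c : X), w = u ++ b :: v ∧ w0 = u ++ c :: v' ∧ b ≠ c
  | [], [], _, h => absurd rfl h
  | [], _ :: _, h, _ => by simp at h
  | _ :: _, [], h, _ => by simp at h
  | b :: w, c :: w0, hl, h => by
    by_cases hbc : b = c
    · subst hbc
      have h1 : w ≠ w0 := fun h' => h (by rw [h'])
      obtain ⟨u, v, v', b', c', e1, e2, e3⟩ := split_ne w w0 (by simpa using hl) h1
      exact ⟨b :: u, v, v', b', c', by rw [e1]; rfl, by rw [e2]; rfl, e3⟩
    · exact ⟨[], w, w0, b, c, rfl, rfl, hbc⟩

/-- Separation of the left-normed words.  `x i = E_(k, k+1)` with `k = idxOf i (a :: w0)`; the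
partial products of `w0` are `E_(0,1), E_(0,2), ...`; for another permutation `w` of `w0` the
partial product is `0` from the first letter on in which `w` differs from `w0`. -/
theorem exists_eval {X : Type*} (a : X) (w0 : List X) (hn : (a :: w0).Nodup) :
    ∃ x : X → Gl F, (∀ i, ∃ p q, p ≠ q ∧ x i = Eu F p q) ∧ lnorm x a w0 ≠ 0 ∧
      ∀ w : List X, w.Perm w0 → w ≠ w0 → lnorm x a w = 0 := by
  classical
  let x : X → Gl F := fun i => Eu F ((a :: w0).idxOf i) ((a :: w0).idxOf i + 1)
  have hx : ∀ i, x i = Eu F ((a :: w0).idxOf i) ((a :: w0).idxOf i + 1) := fun i => rfl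
  have hidx : ∀ (u v : List X) (c : X), w0 = u ++ c :: v → (a :: w0).idxOf c = u.length + 1 := by
    intro u v c h
    have h1 : (a :: w0).idxOf ((a :: w0)[u.length + 1]'(by rw [h]; simp)) = u.length + 1 :=
      List.Nodup.idxOf_getElem hn _ _
    have h2 : (a :: w0)[u.length + 1]'(by rw [h]; simp) = c := by
      simp only [List.getElem_cons_succ]
      simp only [h]
      rw [List.getElem_append_right (le_refl _)]
      simp
    rwa [h2] at h1
  have hpre : ∀ (u v : List X), w0 = u ++ v → lnorm x a u = Eu F 0 (u.length + 1) := by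
    intro u
    induction u using List.reverseRecOn with
    | nil =>
      intro v _
      change x a = _
      rw [hx, List.idxOf_cons_self]
      rfl
    | append_singleton u b ih =>
      intro v h
      have h' : w0 = u ++ b :: v := by rw [h, List.append_assoc]; rfl
      rw [lnorm_append, ih (b :: v) h', hx, hidx u v b h', Eu_mul, if_pos rfl,
        if_neg (Nat.succ_ne_zero _), List.length_append]
      exact sub_zero (Eu F 0 (u.length + 1 + 1))
  refine ⟨x, fun i => ⟨_, _, Nat.ne_of_lt (Nat.lt_succ_self _), hx i⟩, ?_, ?_⟩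
  · rw [hpre w0 [] (List.append_nil _).symm]
    intro h
    have h2 : eu F 0 (w0.length + 1) = 0 := h
    have h3 : (eu F 0 (w0.length + 1)) (Finsupp.single (w0.length + 1) (1 : F)) = 0 := by
      rw [h2]
      rfl
    change Finsupp.single 0 ((Finsupp.single (w0.length + 1) (1 : F) : ℕ →₀ F) (w0.length + 1)) =
      (0 : ℕ →₀ F) at h3
    rw [Finsupp.single_eq_same, Finsupp.single_eq_zero] at h3
    exact one_ne_zero h3
  · intro w hw hne
    obtain ⟨u, v, v', b, c, e1, e2, e3⟩ := split_ne w w0 hw.length_eq hne
    have hb : b ∈ w0 := by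
      rw [← hw.mem_iff, e1]
      simp
    have e4 : w = (u ++ [b]) ++ v := by rw [e1, List.append_assoc]; rfl
    rw [e4]
    apply lnorm_zero
    rw [lnorm_append, hpre u (c :: v') e2, hx, Eu_mul, if_neg, if_neg (Nat.succ_ne_zero _)]
    · exact sub_zero (0 : Gl F)
    · intro h
      apply e3
      have h1 := hidx u v' c e2
      have hb' : b ∈ a :: w0 := List.mem_cons_of_mem _ hb
      have hc' : c ∈ a :: w0 := List.mem_cons_of_mem _ (by rw [e2]; simp)
      have h2 : (a :: w0).idxOf b = (a :: w0).idxOf c := by rw [h1, ← h]
      exact (List.idxOf_inj hb').mp h2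

end

end Pool.Agent.MalF
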