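import Pool.Agent.MalF.NId

/-!
# The relation `p' = E(w,z) p` (modules GE1, GE2, section 4)
-/

namespace Pool.Agent.MalF

/-- Span of the pairs `(y x, e(w,z|y,x))`. -/
def GE (F : Type*) {A : Type*} [Field F] [NonUnitalNonAssocRing A] [Module F A] (w z : A) :
    Submodule F (A × A) :=
  Submodule.span F {q | ∃ y x : A, q = (y * x, e w z y x)}

section
variable {F A : Type*} [Field F] [CharZero F] [NonUnitalNonAssocRing A] [Module F A]
  [IsScalarTower F A A] [SMulCommClass F A A] [IsMalcev A] [TF A]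

theorem GE_gen (w z y x : A) : (y * x, e w z y x) ∈ GE F w z :=
  Submodule.subset_span ⟨y, x, rfl⟩

/-- induction on the relation -/
private theorem GE_ind {w z : A} (Pr : A → A → Prop) (h0 : Pr 0 0)
    (hg : ∀ y x, Pr (y * x) (e w z y x))
    (ha : ∀ a a' b b', Pr a a' → Pr b b' → Pr (a + b) (a' + b'))
    (hs : ∀ (c : F) a a', Pr a a' → Pr (c • a) (c • a')) {p p' : A} (h : (p, p') ∈ GE F w z) :
    Pr p p' := by
  have key : ∀ q : A × A, q ∈ GE F w z → Pr q.1 q.2 := by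
    intro q hq
    unfold GE at hq
    induction hq using Submodule.span_induction with
    | mem q hq =>
      obtain ⟨y, x, rfl⟩ := hq
      exact hg y x
    | zero => exact h0
    | add a b _ _ h1 h2 => exact ha _ _ _ _ h1 h2
    | smul c a _ h1 => exact hs _ _ _ h1
  exact key _ h

theorem GE_exists (w z : A) {b : A} (hb : b ∈ Bs F A) : ∃ b', (b, b') ∈ GE F w z := by
  unfold Bs at hb
  induction hb using Submodule.span_induction with
  | mem b hb =>
    obtain ⟨y, x, rfl⟩ := hb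
    exact ⟨_, GE_gen w z y x⟩
  | zero => exact ⟨0, (GE F w z).zero_mem⟩
  | add a b _ _ ha hb =>
    obtain ⟨a', ha'⟩ := ha
    obtain ⟨b', hb'⟩ := hb
    exact ⟨a' + b', (GE F w z).add_mem ha' hb'⟩
  | smul c a _ ha =>
    obtain ⟨a', ha'⟩ := ha
    exact ⟨c • a', (GE F w z).smul_mem c ha'⟩

theorem GE_left {w z p p' : A} (h : (p, p') ∈ GE F w z) : p ∈ Bs F A :=
  GE_ind (fun p _ => p ∈ Bs F A) (Submodule.zero_mem _) (fun y x => mul_mem_Bs y x)
    (fun _ _ _ _ h1 h2 => Submodule.add_mem _ h1 h2) (fun c _ _ h1 => Submodule.smul_mem _ c h1) h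

theorem GE_right {w z p p' : A} (h : (p, p') ∈ GE F w z) : p' ∈ Bs F A :=
  GE_ind (fun _ p' => p' ∈ Bs F A) (Submodule.zero_mem _) (fun y x => e_mem_Bs w z y x)
    (fun _ _ _ _ h1 h2 => Submodule.add_mem _ h1 h2) (fun c _ _ h1 => Submodule.smul_mem _ c h1) h

/-- `J(p',q,r) = om(w,z|p,q,r)` for `q, r ∈ A²` (`X1`, definition of `X`, linearity). -/
theorem GE_J1 {w z p p' : A} (h : (p, p') ∈ GE F w z) {q r : A} (hq : q ∈ Bs F A)
    (hr : r ∈ Bs F A) : J p' q r = om w z p q r := by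
  refine GE_ind (fun p p' => J p' q r = om w z p q r) ?_ ?_ ?_ ?_ h
  · rw [J_zero1, om_zero3]
  · intro y x
    have h1 := X1 (F := F) hq hr w z y x
    unfold X at h1
    exact sub_eq_zero.1 h1
  · intro a a' b b' h1 h2
    rw [J_add1, om_add3, h1, h2]
  · intro c a a' h1
    rw [J_smul1, om_smul3, h1]

/-- Balance: `J(p',q,r) = J(p,q',r)`, `r ∈ A²`. -/
theorem GE_bal {w z p p' q q' : A} (hp : (p, p') ∈ GE F w z) (hq : (q, q') ∈ GE F w z) {r : A}
    (hr : r ∈ Bs F A) : J p' q r = J p q' r := by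
  rw [GE_J1 hp (GE_left hq) hr, J_swap12 q' p r, GE_J1 hq (GE_left hp) hr, om_swap34]

/-- `J(p',v,q r) = J(e(w,z|q,r),p,v)` for `q, r ∈ A²`.
`J(e(w,z|y,x),v,qr) = om(w,z|yx,v,qr)` (`X3`, `qr ∈ BBs`) `= om(w,z|qr,yx,v)` (alternating)
`= J(e(w,z|q,r),yx,v)` (`X1` with `q, r` in the places 3, 4, using that `X` is alternating). -/
theorem GE_J2 {w z p p' : A} (h : (p, p') ∈ GE F w z) {q r : A} (hq : q ∈ Bs F A)
    (hr : r ∈ Bs F A) (v : A) : J p' v (q * r) = J (e w z q r) p v := by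
  refine GE_ind (fun p p' => J p' v (q * r) = J (e w z q r) p v) ?_ ?_ ?_ ?_ h
  · rw [J_zero1, J_zero2]
  · intro y x
    have h1 := X3 (F := F) (BB_le_BBs (mul_mem_BB hq hr)) w z y x v
    unfold X at h1
    have h2 : X w z q r (y * x) v = 0 := by
      have h3 : X w z (y * x) v q r = 0 := X1 (F := F) hq hr w z (y * x) v
      -- move `q, r` to the front
      have h4 : X w z q r (y * x) v = X w z (y * x) v q r := by
        rw [X_swap45 w z q (y * x) r v, X_swap34 w z (y * x) q r v, X_swap56 w z (y * x) q v r,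
          X_swap45 w z (y * x) v q r]
        simp only [neg_neg]
      rw [h4, h3]
    unfold X at h2
    rw [sub_eq_zero.1 h1, sub_eq_zero.1 h2]
    rw [om_swap45 w z (y * x) (q * r) v, om_swap34 w z (q * r) (y * x) v, neg_neg]
  · intro a a' b b' h1 h2
    rw [J_add1, J_add2, h1, h2]
  · intro c a a' h1
    rw [J_smul1, J_smul2, h1]

/-- `p' u - e(w,z|p,u) ∈ N` (`l_mem_NS`). -/
theorem GE_l {w z p p' : A} (h : (p, p') ∈ GE F w z) (u : A) : p' * u - e w z p u ∈ NS F A := by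
  refine GE_ind (fun p p' => p' * u - e w z p u ∈ NS F A) ?_ ?_ ?_ ?_ h
  · rw [zero_mul, e_zero3, sub_zero]
    exact (NS F A).zero_mem
  · intro y x
    exact l_mem_NS w z y x u
  · intro a a' b b' h1 h2
    have h3 : (a' + b') * u - e w z (a + b) u = (a' * u - e w z a u) + (b' * u - e w z b u) := by
      rw [add_mul, e_add3]
      abel
    rw [h3]
    exact (NS F A).add_mem h1 h2
  · intro c a a' h1
    have h3 : (c • a') * u - e w z (c • a) u = c • (a' * u - e w z a u) := by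
      rw [smul_mul_assoc, e_smul3, smul_sub]
    rw [h3]
    exact (NS F A).smul_mem c h1

/-- `J(e(w,z|q,r),v,b) = J(q' r,v,b)` for `r, b ∈ A²` (`l_prime`). -/
theorem GE_l' {w z q q' : A} (h : (q, q') ∈ GE F w z) {r b : A} (hr : r ∈ Bs F A)
    (hb : b ∈ Bs F A) (v : A) : J (e w z q r) v b = J (q' * r) v b := by
  refine GE_ind (fun q q' => J (e w z q r) v b = J (q' * r) v b) ?_ ?_ ?_ ?_ h
  · rw [zero_mul, e_zero3]
  · intro y x
    have h1 := l_prime (F := F) hr hb w z y x v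
    unfold l at h1
    rw [J_sub1, sub_eq_zero] at h1
    exact h1.symm
  · intro a a' b' b'' h1 h2
    rw [add_mul, e_add3, J_add1, J_add1, h1, h2]
  · intro c a a' h1
    rw [smul_mul_assoc, e_smul3, J_smul1, J_smul1, h1]

/-- `E(w,z)` maps `N` to `N`.
`J(n',q,r) = om(w,z|n,q,r) = om(w,z|q,r,n)`, all three terms are `0` (`t(w,q,z)`, `t(r,w,z) ∈ A²`,
`t(r,q,z) ∈ BBs`, `NS_BBs`); `J(n',v,qr) = J(e(w,z|q,r),n,v) = 0` as `e(w,z|q,r) ∈ BBs`. -/
theorem GE_N {w z n n' : A} (h : (n, n') ∈ GE F w z) (hn : n ∈ NS F A) : n' ∈ NS F A := by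
  refine ⟨fun q hq r hr => ?_, fun v q hq r hr => ?_⟩
  · rw [GE_J1 h hq hr, om_swap34 w z q n r, om_swap45 w z q r n, neg_neg]
    unfold om
    have h1 : J (t w q z) r n = 0 := by
      rw [J_cyc n (t w q z) r]
      exact hn.1 _ (t_mem_Bs _ _ _) r hr
    have h2 : J (t r q z) w n = 0 := by
      rw [J_cyc n (t r q z) w, J_swap23 n w, NS_BBs hn (t_mem_BBs hr hq z) w, neg_zero]
    have h3 : J (t r w z) q n = 0 := by
      rw [J_cyc n (t r w z) q]
      exact hn.1 _ (t_mem_Bs _ _ _) q hq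
    rw [h1, h2, h3, add_zero, add_zero]
  · rw [GE_J2 h hq hr v, J_swap12 n _ v, J_swap23 n v, NS_BBs hn (e_mem_BBs hr hq w z) v]
    simp only [neg_zero]

/-- Commutativity of the operators modulo `N`.
Let `δ = b12 - b21`.  `J(δ,q,r) = 0` for `q, r ∈ A²`: `J(E_s E_s' b,q,r) = J(E_s' b,q,E_s r)
= J(b,E_s' q,E_s r)` and `J(E_s' E_s b,q,r) = J(E_s b,E_s' q,r) = J(b,E_s' q,E_s r)`
(`GE_bal`, `GE_exists`; the values depend only on the classes modulo `N` as `J(N,A²,A²) = 0`).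
`J(δ,v,qr) = 0`: with `q1 = E_s q`, `r2 = E_s' r` (`GE_exists`):
`J(b12,v,qr)`, `b12 = E_s' b1`: `= J(e(s'|q,r),b1,v)` (`GE_J2`) `= J(q r2,b1,v)` (`GE_l'` for
`e(s'|q,r) = - e(s'|r,q)`) `= J(b1,v,q r2) = J(e(s|q,r2),b,v)` (`GE_J2`) `= J(q1 r2,b,v)` (`GE_l'`);
`J(b21,v,qr)`, `b21 = E_s b2`: `= J(e(s|q,r),b2,v) = J(q1 r,b2,v) = J(b2,v,q1 r)
= J(e(s'|q1,r),b,v) = J(q1 r2,b,v)`. -/
theorem GE_comm {w z w' z' b b1 b12 b2 b21 : A} (h1 : (b, b1) ∈ GE F w z)
    (h12 : (b1, b12) ∈ GE F w' z') (h2 : (b, b2) ∈ GE F w' z') (h21 : (b2, b21) ∈ GE F w z) :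
    b12 - b21 ∈ NS F A := by
  have hb : b ∈ Bs F A := GE_left h1
  have hb1 : b1 ∈ Bs F A := GE_right h1
  have hb2 : b2 ∈ Bs F A := GE_right h2
  refine ⟨fun q hq r hr => ?_, fun v q hq r hr => ?_⟩
  · obtain ⟨q2, hq2⟩ := GE_exists w' z' hq
    obtain ⟨r1, hr1⟩ := GE_exists w z hr
    have hq2B : q2 ∈ Bs F A := GE_right hq2
    have hr1B : r1 ∈ Bs F A := GE_right hr1
    -- `J(b12,q,r) = J(b1,q2,r) = J(b,q2,r1)`
    have e1 : J b12 q r = J b1 q2 r := GE_bal h12 hq2 hr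
    have e2 : J b1 q2 r = J b q2 r1 := by
      rw [J_swap23 b1 r q2, GE_bal h1 hr1 hq2B, J_swap23 b q2 r1, neg_neg]
    -- `J(b21,q,r) = J(b2,q,r1) = J(b,q2,r1)`
    have e3 : J b21 q r = J b2 q r1 := by
      rw [J_swap23 b21 r q, GE_bal h21 hr1 hq, J_swap23 b2 q r1, neg_neg]
    have e4 : J b2 q r1 = J b q2 r1 := GE_bal h2 hq2 hr1B
    rw [J_sub1, e1, e2, e3, e4, sub_self]
  · obtain ⟨q1, hq1⟩ := GE_exists w z hq
    obtain ⟨r2, hr2⟩ := GE_exists w' z' hr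
    have hq1B : q1 ∈ Bs F A := GE_right hq1
    have hr2B : r2 ∈ Bs F A := GE_right hr2
    have e1 : J b12 v (q * r) = J (q1 * r2) b v := by
      rw [GE_J2 h12 hq hr v, e_swap34 w' z' r q, J_neg1, J_swap23 (e w' z' r q) v b1, neg_neg,
        GE_l' hr2 hq hb1 v, J_swap23 (r2 * q) b1 v, anti r2 q, J_neg1, neg_neg,
        ← J_cyc (q * r2) b1 v, GE_J2 h1 hq hr2B v, J_swap23 _ v b, GE_l' hq1 hr2B hb v,
        J_swap23 (q1 * r2) b v, neg_neg]
    have e2 : J b21 v (q * r) = J (q1 * r2) b v := by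
      rw [GE_J2 h21 hq hr v, J_swap23 _ v b2, GE_l' hq1 hr hb2 v, J_swap23 (q1 * r) b2 v, neg_neg,
        ← J_cyc (q1 * r) b2 v, GE_J2 h2 hq1B hr v, e_swap34 w' z' r q1, J_neg1,
        J_swap23 (e w' z' r q1) v b, neg_neg, GE_l' hr2 hq1B hb v, J_swap23 (r2 * q1) b v,
        anti r2 q1, J_neg1, neg_neg]
    rw [J_sub1, e1, e2, sub_self]

end

end Pool.Agent.MalF
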