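import Mathlib

/-!
# Words in Grassmann variables
-/

set_option autoImplicit false
set_option linter.unusedSectionVars false

namespace Pool.Agent.MalF

open scoped TensorProduct

/-- vector cross product algebras over a commutative ring -/
structure VCP {K V : Type*} [CommRing K] [AddCommGroup V] [Module K V]
    (mul : V →ₗ[K] V →ₗ[K] V) (frm : V →ₗ[K] V →ₗ[K] K) : Prop where
  alt : ∀ x, mul x x = 0
  symm : ∀ x y, frm x y = frm y x
  inv : ∀ x y z, frm (mul x y) z = frm x (mul y z)
  law : ∀ x y, mul (mul x y) y = frm x y • y - frm y y • x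

namespace Gr

section words

variable (K : Type*) [CommRing K] (I : Type*) [Fintype I] [DecidableEq I]

/-- the Grassmann algebra -/
abbrev GA := ExteriorAlgebra K (I → K)

variable {I}

/-- the generators -/
noncomputable def e (a : I) : GA K I := ExteriorAlgebra.ι K (Pi.single a 1)

/-- the words -/
noncomputable def wd {n : ℕ} (i : Fin n → I) : GA K I :=
  ExteriorAlgebra.ιMulti K n fun j => Pi.single (i j) 1

variable {K}

theorem wd_zero (i : Fin 0 → I) : wd K i = 1 := by
  unfold wd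
  exact ExteriorAlgebra.ιMulti_zero_apply _

theorem wd_cons {n : ℕ} (i : Fin (n + 1) → I) :
    wd K i = e K (i 0) * wd K fun j => i j.succ := by
  unfold wd e
  exact ExteriorAlgebra.ιMulti_succ_apply _

theorem wd_perm {n : ℕ} (i : Fin n → I) (σ : Equiv.Perm (Fin n)) :
    wd K (i ∘ σ) = Equiv.Perm.sign σ • wd K i := by
  unfold wd
  have h1 := (ExteriorAlgebra.ιMulti K n).map_perm
    (fun j => (Pi.single (i j) 1 : I → K)) σ
  exact h1

theorem e_mul_self (a : I) : e K a * e K a = 0 := by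
  unfold e
  exact ExteriorAlgebra.ι_sq_zero _

theorem e_swap (a b : I) : e K a * e K b = - (e K b * e K a) := by
  unfold e
  exact eq_neg_of_add_eq_zero_left (ExteriorAlgebra.ι_add_mul_swap _ _)

variable {W W' W'' : Type*} [AddCommGroup W] [Module K W] [AddCommGroup W'] [Module K W']
  [AddCommGroup W''] [Module K W'']

/-- the sum over all words -/
noncomputable def S {n : ℕ} (F : (Fin n → I) → W) : GA K I ⊗[K] W := ∑ i, wd K i ⊗ₜ[K] F i

theorem S_add {n : ℕ} (F G : (Fin n → I) → W) :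
    (S fun i => F i + G i : GA K I ⊗[K] W) = S F + S G := by
  unfold S
  rw [← Finset.sum_add_distrib]
  exact Finset.sum_congr rfl fun i _ => TensorProduct.tmul_add _ _ _

theorem S_neg {n : ℕ} (F : (Fin n → I) → W) : (S fun i => - F i : GA K I ⊗[K] W) = - S F := by
  unfold S
  rw [← Finset.sum_neg_distrib]
  exact Finset.sum_congr rfl fun i _ => TensorProduct.tmul_neg _ _

theorem S_sub {n : ℕ} (F G : (Fin n → I) → W) :
    (S fun i => F i - G i : GA K I ⊗[K] W) = S F - S G := by
  unfold S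
  rw [← Finset.sum_sub_distrib]
  exact Finset.sum_congr rfl fun i _ => TensorProduct.tmul_sub _ _ _

theorem S_smul {n : ℕ} (c : K) (F : (Fin n → I) → W) :
    (S fun i => c • F i : GA K I ⊗[K] W) = c • S F := by
  unfold S
  rw [Finset.smul_sum]
  exact Finset.sum_congr rfl fun i _ => TensorProduct.tmul_smul _ _ _

theorem S_perm {n : ℕ} (σ : Equiv.Perm (Fin n)) (F : (Fin n → I) → W) :
    (S fun i => F (i ∘ σ) : GA K I ⊗[K] W) = Equiv.Perm.sign σ • S F := by
  unfold S
  rw [Finset.smul_sum]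
  refine Fintype.sum_equiv (Equiv.arrowCongr σ.symm (Equiv.refl I)) _ _ fun i => ?_
  have e1 : (Equiv.arrowCongr σ.symm (Equiv.refl I)) i = i ∘ σ := by
    funext j
    simp [Equiv.arrowCongr]
  rw [e1, wd_perm]
  rcases Int.units_eq_one_or (Equiv.Perm.sign σ) with h | h <;> rw [h] <;>
    simp [TensorProduct.neg_tmul]

theorem S_odd {n : ℕ} {a b : Fin n} (hab : a ≠ b) (F G : (Fin n → I) → W)
    (h : ∀ i, G i = F fun j => i (Equiv.swap a b j)) : (S G : GA K I ⊗[K] W) = - S F := by
  have h1 := S_perm (K := K) (Equiv.swap a b) F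
  rw [Equiv.Perm.sign_swap hab] at h1
  have h2 : G = fun i => F (i ∘ Equiv.swap a b) := funext h
  rw [h2, h1]
  simp

theorem S_even {n : ℕ} {a b c d : Fin n} (hab : a ≠ b) (hcd : c ≠ d) (F G : (Fin n → I) → W)
    (h : ∀ i, G i = F fun j => i (Equiv.swap a b (Equiv.swap c d j))) :
    (S G : GA K I ⊗[K] W) = S F := by
  have h1 := S_perm (K := K) (Equiv.swap a b * Equiv.swap c d) F
  rw [Equiv.Perm.sign_mul, Equiv.Perm.sign_swap hab, Equiv.Perm.sign_swap hcd] at h1
  have h2 : G = fun i => F (i ∘ (Equiv.swap a b * Equiv.swap c d : Equiv.Perm (Fin n))) := funext h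
  rw [h2, h1]
  simp

/-- operators -/
noncomputable def Op (T : I → W →ₗ[K] W') : GA K I ⊗[K] W →ₗ[K] GA K I ⊗[K] W' :=
  ∑ a, TensorProduct.map (LinearMap.mulLeft K (e K a)) (T a)

theorem Op_tmul (T : I → W →ₗ[K] W') (g : GA K I) (w : W) :
    Op T (g ⊗ₜ[K] w) = ∑ a, (e K a * g) ⊗ₜ[K] T a w := by
  unfold Op
  simp [LinearMap.sum_apply]

theorem Op_S (T : I → W →ₗ[K] W') {n : ℕ} (F : (Fin n → I) → W) :
    Op T (S F : GA K I ⊗[K] W) = S fun i : Fin (n + 1) → I => T (i 0) (F fun j => i j.succ) := by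
  unfold S
  rw [map_sum]
  simp only [Op_tmul]
  rw [Finset.sum_comm, ← Fintype.sum_prod_type']
  refine Fintype.sum_equiv (Fin.consEquiv fun _ => I) _ _ fun p => ?_
  rw [wd_cons]
  simp [Fin.consEquiv]

/-- left multiplication -/
noncomputable def lm (g : GA K I) : GA K I ⊗[K] W →ₗ[K] GA K I ⊗[K] W :=
  TensorProduct.map (LinearMap.mulLeft K g) LinearMap.id

theorem lm_tmul (g h : GA K I) (w : W) : lm g (h ⊗ₜ[K] w) = (g * h) ⊗ₜ[K] w := by
  unfold lm
  simp

theorem lm_zero : (lm (0 : GA K I) : GA K I ⊗[K] W →ₗ[K] GA K I ⊗[K] W) = 0 := by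
  unfold lm
  ext
  simp

theorem lm_add (g h : GA K I) :
    (lm (g + h) : GA K I ⊗[K] W →ₗ[K] GA K I ⊗[K] W) = lm g + lm h := by
  ext x w
  simp only [TensorProduct.AlgebraTensorModule.curry_apply, LinearMap.restrictScalars_self,
    TensorProduct.curry_apply, LinearMap.add_apply, lm_tmul, add_mul, TensorProduct.add_tmul]

theorem lm_mul (g h : GA K I) (t : GA K I ⊗[K] W) : lm (g * h) t = lm g (lm h t) := by
  induction t with
  | zero => simp
  | add x y hx hy => rw [map_add, hx, hy, map_add, map_add]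
  | tmul x w => rw [lm_tmul, lm_tmul, lm_tmul, mul_assoc]

/-- change of the module -/
noncomputable def mp (f : W →ₗ[K] W') : GA K I ⊗[K] W →ₗ[K] GA K I ⊗[K] W' :=
  TensorProduct.map LinearMap.id f

theorem mp_tmul (f : W →ₗ[K] W') (g : GA K I) (w : W) : mp f (g ⊗ₜ[K] w) = g ⊗ₜ[K] f w := by
  unfold mp
  simp

theorem mp_S (f : W →ₗ[K] W') {n : ℕ} (F : (Fin n → I) → W) :
    mp f (S F : GA K I ⊗[K] W) = S fun i => f (F i) := by
  unfold S
  rw [map_sum]
  exact Finset.sum_congr rfl fun i _ => mp_tmul _ _ _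

theorem lm_mp (g : GA K I) (f : W →ₗ[K] W') (t : GA K I ⊗[K] W) :
    lm g (mp f t) = mp f (lm g t) := by
  induction t with
  | zero => simp
  | add x y hx hy => rw [map_add, map_add, hx, hy, map_add, map_add]
  | tmul x w => rw [lm_tmul, mp_tmul, mp_tmul, lm_tmul]

/-- odd scalars anticommute with the operators -/
theorem Op_lm {g : GA K I} (hg : ∀ a, e K a * g = - (g * e K a)) (T : I → W →ₗ[K] W')
    (t : GA K I ⊗[K] W) : Op T (lm g t) = - lm g (Op T t) := by
  induction t with
  | zero => simp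
  | add x y hx hy => rw [map_add, map_add, hx, hy, map_add, map_add]; abel
  | tmul x w =>
    rw [lm_tmul, Op_tmul, Op_tmul, map_sum, ← Finset.sum_neg_distrib]
    refine Finset.sum_congr rfl fun a _ => ?_
    rw [lm_tmul, ← mul_assoc, hg, neg_mul, TensorProduct.neg_tmul, mul_assoc]

end words

end Gr

end Pool.Agent.MalF
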