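import Pool.Agent.MalF.GrA

/-!
# Vector cross products: the identities for four and five alternating arguments
-/

set_option autoImplicit false
set_option linter.unusedSectionVars false

namespace Pool.Agent.MalF

open scoped TensorProduct

section law

variable {K V : Type*} [CommRing K] [AddCommGroup V] [Module K V]
  {mul : V →ₗ[K] V →ₗ[K] V} {frm : V →ₗ[K] V →ₗ[K] K}

theorem VCP.skew (h : VCP mul frm) (x y : V) : mul x y = - mul y x := by
  have h1 := h.alt (x + y)
  simp only [map_add, LinearMap.add_apply, h.alt, zero_add, add_zero] at h1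
  exact eq_neg_of_add_eq_zero_right h1

theorem VCP.law' (h : VCP mul frm) (x y z : V) :
    mul (mul x y) z + mul (mul x z) y = frm x y • z + frm x z • y - (2 : K) • (frm y z • x) := by
  have h1 := h.law x (y + z)
  have h2 := h.law x y
  have h3 := h.law x z
  simp only [map_add, LinearMap.add_apply, smul_add, add_smul, h2, h3] at h1
  rw [h.symm z y] at h1
  have h4 : mul (mul x y) z + mul (mul x z) y = (frm x y • y - frm y y • x + mul (mul x z) y +
      (mul (mul x y) z + (frm x z • z - frm z z • x))) - (frm x y • y - frm y y • x) -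
      (frm x z • z - frm z z • x) := by abel
  rw [h4, h1, two_smul]
  abel

/-- `y (z x) + z (y x) = [y, x] z + [z, x] y - 2 [y, z] x` -/
theorem VCP.law1 (h : VCP mul frm) (x y z : V) :
    mul y (mul z x) + mul z (mul y x) =
      frm y x • z + frm z x • y - (2 : K) • (frm y z • x) := by
  have h1 := h.law' x z y
  rw [h.skew y (mul z x), h.skew z x, h.skew z (mul y x), h.skew y x]
  simp only [map_neg, LinearMap.neg_apply, neg_neg]
  rw [h1, h.symm x z, h.symm x y, h.symm z y]
  abel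

/-- `2 (x y) z - (y z) x - (z x) y = 3 ([x, z] y - [y, z] x)` -/
theorem VCP.law2 (h : VCP mul frm) (x y z : V) :
    (2 : K) • mul (mul x y) z - mul (mul y z) x - mul (mul z x) y =
      (3 : K) • (frm x z • y - frm y z • x) := by
  have h1 := h.law' x y z
  have h2 := h.law' y x z
  rw [h.skew y x, h.symm y x] at h2
  simp only [map_neg, LinearMap.neg_apply] at h2
  rw [h.skew z x]
  simp only [map_neg, LinearMap.neg_apply]
  have e1 : (2 : K) • mul (mul x y) z - mul (mul y z) x - - mul (mul x z) y =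
      (mul (mul x y) z + mul (mul x z) y) - (- mul (mul x y) z + mul (mul y z) x) := by
    rw [two_smul]; abel
  rw [e1, h1, h2]
  module

/-- `[x, y z] = [z, x y]` -/
theorem VCP.cyc (h : VCP mul frm) (x y z : V) : frm x (mul y z) = frm z (mul x y) := by
  rw [← h.inv, h.symm]

end law

namespace Gr

variable {K V I : Type*} [CommRing K] [Algebra ℚ K] [AddCommGroup V] [Module K V]
  [Fintype I] [DecidableEq I]
  {mul : V →ₗ[K] V →ₗ[K] V} {frm : V →ₗ[K] V →ₗ[K] K}

/-- division by rational numbers -/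
theorem smul_cancel {W : Type*} [AddCommGroup W] [Module K W] {c : ℚ} (hc : c ≠ 0) {x y : W}
    (h : algebraMap ℚ K c • x = algebraMap ℚ K c • y) : x = y := by
  have h1 := congrArg (fun z => algebraMap ℚ K c⁻¹ • z) h
  simp only [smul_smul, ← map_mul, inv_mul_cancel₀ hc, map_one, one_smul] at h1
  exact h1

theorem eq_zero_of_eq_neg {W : Type*} [AddCommGroup W] [Module K W] {x : W} (h : x = - x) :
    x = 0 := by
  refine smul_cancel (K := K) (c := 2) (by norm_num) ?_
  rw [smul_zero, map_ofNat, two_smul]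
  nth_rewrite 2 [h]
  abel

/-- identity for four arguments -/
theorem id_four (h : VCP mul frm) (x : I → V) :
    (S fun i : Fin 4 → I => mul (x (i 0)) (mul (x (i 1)) (mul (x (i 2)) (x (i 3)))) :
      GA K I ⊗[K] V) =
    (-3 : K) • S fun i : Fin 4 → I => frm (x (i 1)) (mul (x (i 2)) (x (i 3))) • x (i 0) := by
  -- names
  obtain ⟨A, hA⟩ : ∃ A : GA K I ⊗[K] V, A =
      S fun i : Fin 4 → I => frm (x (i 1)) (mul (x (i 2)) (x (i 3))) • x (i 0) := ⟨_, rfl⟩
  rw [← hA]
  have key : (S fun i : Fin 4 → I => (mul (x (i 0)) (mul (mul (x (i 2)) (x (i 3))) (x (i 1))) +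
      mul (mul (x (i 2)) (x (i 3))) (mul (x (i 0)) (x (i 1)))) : GA K I ⊗[K] V) =
      S fun i : Fin 4 → I => (frm (x (i 0)) (x (i 1)) • mul (x (i 2)) (x (i 3)) +
        frm (mul (x (i 2)) (x (i 3))) (x (i 1)) • x (i 0) -
        (2 : K) • (frm (x (i 0)) (mul (x (i 2)) (x (i 3))) • x (i 1))) := by
    congr 1
    funext i
    exact h.law1 _ _ _
  rw [S_add, S_sub, S_add, S_smul] at key
  have k1 : (S fun i : Fin 4 → I => mul (x (i 0)) (mul (mul (x (i 2)) (x (i 3))) (x (i 1))) :
      GA K I ⊗[K] V) =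
      - S fun i : Fin 4 → I => mul (x (i 0)) (mul (x (i 1)) (mul (x (i 2)) (x (i 3)))) := by
    rw [← S_neg]
    congr 1
    funext i
    rw [h.skew (mul (x (i 2)) (x (i 3))) (x (i 1)), map_neg]
  have k2 : (S fun i : Fin 4 → I => mul (mul (x (i 2)) (x (i 3))) (mul (x (i 0)) (x (i 1))) :
      GA K I ⊗[K] V) = 0 := by
    apply eq_zero_of_eq_neg (K := K)
    rw [← S_neg]
    refine (S_even (a := 0) (b := 2) (c := 1) (d := 3) (by decide) (by decide) _ _ fun i => ?_)
    have e0 : Equiv.swap (0 : Fin 4) 2 (Equiv.swap 1 3 0) = 2 := by decide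
    have e1 : Equiv.swap (0 : Fin 4) 2 (Equiv.swap 1 3 1) = 3 := by decide
    have e2 : Equiv.swap (0 : Fin 4) 2 (Equiv.swap 1 3 2) = 0 := by decide
    have e3 : Equiv.swap (0 : Fin 4) 2 (Equiv.swap 1 3 3) = 1 := by decide
    simp only [e0, e1, e2, e3]
    exact h.skew _ _
  have k3 : (S fun i : Fin 4 → I => frm (x (i 0)) (x (i 1)) • mul (x (i 2)) (x (i 3)) :
      GA K I ⊗[K] V) = 0 := by
    apply eq_zero_of_eq_neg (K := K)
    refine S_odd (a := 0) (b := 1) (by decide) _ _ fun i => ?_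
    have e0 : Equiv.swap (0 : Fin 4) 1 0 = 1 := by decide
    have e1 : Equiv.swap (0 : Fin 4) 1 1 = 0 := by decide
    have e2 : Equiv.swap (0 : Fin 4) 1 2 = 2 := by decide
    have e3 : Equiv.swap (0 : Fin 4) 1 3 = 3 := by decide
    simp only [e0, e1, e2, e3]
    rw [h.symm]
  have k4 : (S fun i : Fin 4 → I => frm (mul (x (i 2)) (x (i 3))) (x (i 1)) • x (i 0) :
      GA K I ⊗[K] V) = A := by
    rw [hA]
    congr 1
    funext i
    rw [h.symm]
  have k5 : (S fun i : Fin 4 → I => frm (x (i 0)) (mul (x (i 2)) (x (i 3))) • x (i 1) :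
      GA K I ⊗[K] V) = - A := by
    rw [hA]
    refine S_odd (a := 0) (b := 1) (by decide) _ _ fun i => ?_
    have e0 : Equiv.swap (0 : Fin 4) 1 0 = 1 := by decide
    have e1 : Equiv.swap (0 : Fin 4) 1 1 = 0 := by decide
    have e2 : Equiv.swap (0 : Fin 4) 1 2 = 2 := by decide
    have e3 : Equiv.swap (0 : Fin 4) 1 3 = 3 := by decide
    simp only [e0, e1, e2, e3]
  rw [k1, k2, k3, k4, k5] at key
  have key2 := congrArg Neg.neg key
  simp only [neg_add, neg_neg] at key2
  have e1 : (S fun i : Fin 4 → I => mul (x (i 0)) (mul (x (i 1)) (mul (x (i 2)) (x (i 3)))) :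
      GA K I ⊗[K] V) = - (0 + A - (2 : K) • -A) := by
    rw [← key2]; simp
  rw [e1]
  module

/-- identity for five arguments -/
theorem id_five (h : VCP mul frm) (x : I → V) :
    (S fun i : Fin 5 → I => frm (mul (x (i 1)) (x (i 2))) (mul (x (i 3)) (x (i 4))) • x (i 0) :
      GA K I ⊗[K] V) =
    S fun i : Fin 5 → I =>
      frm (x (i 2)) (mul (x (i 3)) (x (i 4))) • mul (x (i 0)) (x (i 1)) := by
  obtain ⟨A, hA⟩ : ∃ A : GA K I ⊗[K] V, A = S fun i : Fin 5 → I =>
      frm (x (i 2)) (mul (x (i 3)) (x (i 4))) • mul (x (i 0)) (x (i 1)) := ⟨_, rfl⟩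
  obtain ⟨B, hB⟩ : ∃ B : GA K I ⊗[K] V, B = S fun i : Fin 5 → I =>
      frm (mul (x (i 1)) (x (i 2))) (mul (x (i 3)) (x (i 4))) • x (i 0) := ⟨_, rfl⟩
  obtain ⟨U, hU⟩ : ∃ U : GA K I ⊗[K] V, U = S fun i : Fin 5 → I =>
      mul (mul (x (i 0)) (x (i 1))) (mul (x (i 2)) (mul (x (i 3)) (x (i 4)))) := ⟨_, rfl⟩
  rw [← hA, ← hB]
  have p0 : Equiv.swap (0 : Fin 5) 3 (Equiv.swap 1 4 0) = 3 := by decide
  have p1 : Equiv.swap (0 : Fin 5) 3 (Equiv.swap 1 4 1) = 4 := by decide
  have p2 : Equiv.swap (0 : Fin 5) 3 (Equiv.swap 1 4 2) = 2 := by decide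
  have p3 : Equiv.swap (0 : Fin 5) 3 (Equiv.swap 1 4 3) = 0 := by decide
  have p4 : Equiv.swap (0 : Fin 5) 3 (Equiv.swap 1 4 4) = 1 := by decide
  have q0 : Equiv.swap (0 : Fin 5) 1 (Equiv.swap 0 2 0) = 2 := by decide
  have q1 : Equiv.swap (0 : Fin 5) 1 (Equiv.swap 0 2 1) = 0 := by decide
  have q2 : Equiv.swap (0 : Fin 5) 1 (Equiv.swap 0 2 2) = 1 := by decide
  have q3 : Equiv.swap (0 : Fin 5) 1 (Equiv.swap 0 2 3) = 3 := by decide
  have q4 : Equiv.swap (0 : Fin 5) 1 (Equiv.swap 0 2 4) = 4 := by decide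
  have s0 : Equiv.swap (0 : Fin 5) 1 0 = 1 := by decide
  have s1 : Equiv.swap (0 : Fin 5) 1 1 = 0 := by decide
  have s2 : Equiv.swap (0 : Fin 5) 1 2 = 2 := by decide
  have s3 : Equiv.swap (0 : Fin 5) 1 3 = 3 := by decide
  have s4 : Equiv.swap (0 : Fin 5) 1 4 = 4 := by decide
  -- first relation
  have r1 : U = B - A := by
    have key : (S fun i : Fin 5 → I =>
        (mul (mul (x (i 0)) (x (i 1))) (mul (x (i 2)) (mul (x (i 3)) (x (i 4)))) +
        mul (x (i 2)) (mul (mul (x (i 0)) (x (i 1))) (mul (x (i 3)) (x (i 4))))) :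
        GA K I ⊗[K] V) =
        S fun i : Fin 5 → I =>
          (frm (mul (x (i 0)) (x (i 1))) (mul (x (i 3)) (x (i 4))) • x (i 2) +
          frm (x (i 2)) (mul (x (i 3)) (x (i 4))) • mul (x (i 0)) (x (i 1)) -
          (2 : K) • (frm (mul (x (i 0)) (x (i 1))) (x (i 2)) • mul (x (i 3)) (x (i 4)))) := by
      congr 1
      funext i
      exact h.law1 _ _ _
    rw [S_add, S_sub, S_add, S_smul, ← hU, ← hA] at key
    have k1 : (S fun i : Fin 5 → I =>
        mul (x (i 2)) (mul (mul (x (i 0)) (x (i 1))) (mul (x (i 3)) (x (i 4)))) :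
        GA K I ⊗[K] V) = 0 := by
      apply eq_zero_of_eq_neg (K := K)
      rw [← S_neg]
      refine (S_even (a := 0) (b := 3) (c := 1) (d := 4) (by decide) (by decide) _ _ fun i => ?_)
      simp only [p0, p1, p2, p3, p4]
      rw [h.skew (mul (x (i 0)) (x (i 1))) (mul (x (i 3)) (x (i 4))), map_neg]
    have k2 : (S fun i : Fin 5 → I =>
        frm (mul (x (i 0)) (x (i 1))) (mul (x (i 3)) (x (i 4))) • x (i 2) :
        GA K I ⊗[K] V) = B := by
      rw [hB]
      refine (S_even (a := 0) (b := 1) (c := 0) (d := 2) (by decide) (by decide) _ _ fun i => ?_)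
      simp only [q0, q1, q2, q3, q4]
    have k3 : (S fun i : Fin 5 → I =>
        frm (mul (x (i 0)) (x (i 1))) (x (i 2)) • mul (x (i 3)) (x (i 4)) :
        GA K I ⊗[K] V) = A := by
      rw [hA]
      refine (S_even (a := 0) (b := 3) (c := 1) (d := 4) (by decide) (by decide) _ _ fun i => ?_)
      simp only [p0, p1, p2, p3, p4]
      rw [h.symm]
    rw [k1, k2, k3, add_zero] at key
    rw [key]
    module
  -- second relation
  have r2 : U = (3 : K) • A - (3 : K) • B := by
    have key : (S fun i : Fin 5 → I =>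
        ((2 : K) • mul (mul (x (i 0)) (x (i 1))) (mul (x (i 2)) (mul (x (i 3)) (x (i 4)))) -
          mul (mul (x (i 1)) (mul (x (i 2)) (mul (x (i 3)) (x (i 4))))) (x (i 0)) -
          mul (mul (mul (x (i 2)) (mul (x (i 3)) (x (i 4)))) (x (i 0))) (x (i 1))) :
        GA K I ⊗[K] V) =
        S fun i : Fin 5 → I => (3 : K) •
          (frm (x (i 0)) (mul (x (i 2)) (mul (x (i 3)) (x (i 4)))) • x (i 1) -
          frm (x (i 1)) (mul (x (i 2)) (mul (x (i 3)) (x (i 4)))) • x (i 0)) := by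
      congr 1
      funext i
      exact h.law2 _ _ _
    rw [S_sub, S_sub, S_smul, S_smul, S_sub, ← hU] at key
    have hT : (S fun i : Fin 5 → I =>
        mul (x (i 0)) (mul (x (i 1)) (mul (x (i 2)) (mul (x (i 3)) (x (i 4))))) :
        GA K I ⊗[K] V) = (-3 : K) • A := by
      have h4 := congrArg (Op fun a => mul (x a)) (id_four (K := K) h x)
      rw [Op_S, map_smul, Op_S] at h4
      have h5 : (S fun i : Fin 5 → I =>
        mul (x (i 0)) (mul (x (i 1)) (mul (x (i 2)) (mul (x (i 3)) (x (i 4))))) :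
        GA K I ⊗[K] V) = (-3 : K) • (S fun i : Fin 5 → I =>
          mul (x (i 0)) (frm (x (i 2)) (mul (x (i 3)) (x (i 4))) • x (i 1))) := h4
      rw [h5, hA]
      congr 2
      funext i
      rw [map_smul]
    have k1 : (S fun i : Fin 5 → I =>
        mul (mul (x (i 1)) (mul (x (i 2)) (mul (x (i 3)) (x (i 4))))) (x (i 0)) :
        GA K I ⊗[K] V) = (3 : K) • A := by
      have e1 : (S fun i : Fin 5 → I =>
        mul (mul (x (i 1)) (mul (x (i 2)) (mul (x (i 3)) (x (i 4))))) (x (i 0)) :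
        GA K I ⊗[K] V) = - S fun i : Fin 5 → I =>
        mul (x (i 0)) (mul (x (i 1)) (mul (x (i 2)) (mul (x (i 3)) (x (i 4))))) := by
        rw [← S_neg]
        congr 1
        funext i
        exact h.skew _ _
      rw [e1, hT]
      module
    have k2 : (S fun i : Fin 5 → I =>
        mul (mul (mul (x (i 2)) (mul (x (i 3)) (x (i 4)))) (x (i 0))) (x (i 1)) :
        GA K I ⊗[K] V) = (3 : K) • A := by
      have e1 : (S fun i : Fin 5 → I =>
        mul (mul (mul (x (i 2)) (mul (x (i 3)) (x (i 4)))) (x (i 0))) (x (i 1)) :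
        GA K I ⊗[K] V) = - S fun i : Fin 5 → I =>
        mul (x (i 0)) (mul (x (i 1)) (mul (x (i 2)) (mul (x (i 3)) (x (i 4))))) := by
        refine S_odd (a := 0) (b := 1) (by decide) _ _ fun i => ?_
        simp only [s0, s1, s2, s3, s4]
        rw [h.skew (mul (mul (x (i 2)) (mul (x (i 3)) (x (i 4)))) (x (i 0))) (x (i 1)),
          h.skew (mul (x (i 2)) (mul (x (i 3)) (x (i 4)))) (x (i 0)), map_neg, neg_neg]
      rw [e1, hT]
      module
    have k3 : (S fun i : Fin 5 → I =>
        frm (x (i 1)) (mul (x (i 2)) (mul (x (i 3)) (x (i 4)))) • x (i 0) :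
        GA K I ⊗[K] V) = B := by
      rw [hB]
      congr 1
      funext i
      rw [h.inv]
    have k4 : (S fun i : Fin 5 → I =>
        frm (x (i 0)) (mul (x (i 2)) (mul (x (i 3)) (x (i 4)))) • x (i 1) :
        GA K I ⊗[K] V) = - B := by
      rw [← k3]
      refine S_odd (a := 0) (b := 1) (by decide) _ _ fun i => ?_
      simp only [s0, s1, s2, s3, s4]
    rw [k1, k2, k3, k4] at key
    refine smul_cancel (K := K) (c := 2) (by norm_num) ?_
    rw [map_ofNat]
    have e1 : (2 : K) • U = ((2 : K) • U - (3 : K) • A - (3 : K) • A) + (6 : K) • A := by module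
    rw [e1, key]
    module
  refine smul_cancel (K := K) (c := 4) (by norm_num) ?_
  rw [map_ofNat]
  have e1 : (4 : K) • B = (B - A) + (3 : K) • B + A := by module
  rw [e1, ← r1, r2]
  module

end Gr

end Pool.Agent.MalF
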