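import Pool.Agent.MalF.EngX
import Pool.Agent.MalF.EngP

/-!
# Identities of Malcev algebras without repetitions
-/

set_option maxRecDepth 100000
set_option linter.unusedSimpArgs false

namespace Pool.Agent.MalF

open Tr

variable {A : Type*} [NonUnitalNonAssocRing A] [IsMalcev A] [TF A]

/-- Certificate. -/
def cert_id_Sag : List Inst :=
  [⟨-1, v 3, v 1, v 0, v 2, []⟩,
  ⟨-1, v 3, v 0, v 2, v 1, []⟩,
  ⟨-1, v 3, v 2, v 0, v 1, []⟩,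
  ⟨-1, v 3, v 1, v 2, v 0, []⟩,
  ⟨-1, v 3, v 2, v 1, v 0, []⟩]

def pol_id_Sag : Pol := (Pol.sub (Pol.sub (Pol.sub (Pol.sub (Pol.mul (Pol.mul (Pol.var 0) (Pol.var 2)) (Pol.mul (Pol.var 1) (Pol.var 3))) (Pol.mul (Pol.mul (Pol.mul (Pol.var 0) (Pol.var 1)) (Pol.var 2)) (Pol.var 3))) (Pol.mul (Pol.mul (Pol.mul (Pol.var 1) (Pol.var 2)) (Pol.var 3)) (Pol.var 0))) (Pol.mul (Pol.mul (Pol.mul (Pol.var 2) (Pol.var 3)) (Pol.var 0)) (Pol.var 1))) (Pol.mul (Pol.mul (Pol.mul (Pol.var 3) (Pol.var 0)) (Pol.var 1)) (Pol.var 2)))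

theorem ok_id_Sag : check id (fun _ => false) pol_id_Sag 1 cert_id_Sag = true := by decide +kernel

/-- id_Sag -/
theorem id_Sag (x y z u : A) :
    (x * z) * (y * u) - (((x * y) * z) * u) - (((y * z) * u) * x) - (((z * u) * x) * y) - (((u * x) * y) * z) = 0 := by
  have h := engine0 4 pol_id_Sag 1 cert_id_Sag (by decide +kernel) (by decide) ok_id_Sag
    (fun i => [x, y, z, u].getD i 0)
  simp only [pol_id_Sag, evP_var, evP_smul, evP_mul, evP_add, evP_sub, evP_J, evP_t, evP_e, evP_om, evP_X, evP_l, evP_Th, evP_Z] at h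
  exact h

/-- Certificate. -/
def cert_id_S2 : List Inst :=
  [⟨1, v 3, v 1, v 0, v 2, []⟩,
  ⟨1, v 3, v 2, v 0, v 1, []⟩,
  ⟨2, v 3, v 1, v 2, v 0, []⟩,
  ⟨-1, v 3, v 0, v 2, v 1, []⟩]

def pol_id_S2 : Pol := (Pol.sub (Pol.add (Pol.add (Pol.sub (Pol.smul (3) (Pol.J (Pol.mul (Pol.var 0) (Pol.var 1)) (Pol.var 2) (Pol.var 3))) (Pol.mul (Pol.J (Pol.var 1) (Pol.var 2) (Pol.var 3)) (Pol.var 0))) (Pol.mul (Pol.J (Pol.var 2) (Pol.var 3) (Pol.var 0)) (Pol.var 1))) (Pol.smul (2) (Pol.mul (Pol.J (Pol.var 3) (Pol.var 0) (Pol.var 1)) (Pol.var 2)))) (Pol.smul (2) (Pol.mul (Pol.J (Pol.var 0) (Pol.var 1) (Pol.var 2)) (Pol.var 3))))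

theorem ok_id_S2 : check id (fun _ => false) pol_id_S2 1 cert_id_S2 = true := by decide +kernel

/-- id_S2 -/
theorem id_S2 (w x y z : A) :
    (3 : ℤ) • (J (w * x) y z) - ((J x y z) * w) + ((J y z w) * x) + ((2 : ℤ) • ((J z w x) * y)) - ((2 : ℤ) • ((J w x y) * z)) = 0 := by
  have h := engine0 4 pol_id_S2 1 cert_id_S2 (by decide +kernel) (by decide) ok_id_S2
    (fun i => [w, x, y, z].getD i 0)
  simp only [pol_id_S2, evP_var, evP_smul, evP_mul, evP_add, evP_sub, evP_J, evP_t, evP_e, evP_om, evP_X, evP_l, evP_Th, evP_Z] at h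
  exact h

/-- Certificate. -/
def cert_id_S3 : List Inst :=
  [⟨-1, v 3, v 0, v 2, v 1, []⟩,
  ⟨-1, v 3, v 2, v 0, v 1, []⟩,
  ⟨-1, v 3, v 2, v 1, v 0, []⟩]

def pol_id_S3 : Pol := (Pol.sub (Pol.sub (Pol.sub (Pol.smul (2) (Pol.mul (Pol.var 0) (Pol.J (Pol.var 1) (Pol.var 2) (Pol.var 3)))) (Pol.J (Pol.var 0) (Pol.var 1) (Pol.mul (Pol.var 2) (Pol.var 3)))) (Pol.J (Pol.var 0) (Pol.var 2) (Pol.mul (Pol.var 3) (Pol.var 1)))) (Pol.J (Pol.var 0) (Pol.var 3) (Pol.mul (Pol.var 1) (Pol.var 2))))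

theorem ok_id_S3 : check id (fun _ => false) pol_id_S3 1 cert_id_S3 = true := by decide +kernel

/-- id_S3 -/
theorem id_S3 (w x y z : A) :
    (2 : ℤ) • (w * (J x y z)) - (J w x (y * z)) - (J w y (z * x)) - (J w z (x * y)) = 0 := by
  have h := engine0 4 pol_id_S3 1 cert_id_S3 (by decide +kernel) (by decide) ok_id_S3
    (fun i => [w, x, y, z].getD i 0)
  simp only [pol_id_S3, evP_var, evP_smul, evP_mul, evP_add, evP_sub, evP_J, evP_t, evP_e, evP_om, evP_X, evP_l, evP_Th, evP_Z] at h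
  exact h

/-- Certificate. -/
def cert_id_S4 : List Inst :=
  [⟨1, v 3, v 1, v 0, v 2, []⟩,
  ⟨1, v 3, v 0, v 2, v 1, []⟩,
  ⟨1, v 3, v 2, v 0, v 1, []⟩]

def pol_id_S4 : Pol := (Pol.add (Pol.add (Pol.sub (Pol.smul (2) (Pol.J (Pol.var 0) (Pol.var 1) (Pol.mul (Pol.var 2) (Pol.var 3)))) (Pol.mul (Pol.J (Pol.var 0) (Pol.var 2) (Pol.var 3)) (Pol.var 1))) (Pol.mul (Pol.J (Pol.var 1) (Pol.var 2) (Pol.var 3)) (Pol.var 0))) (Pol.J (Pol.mul (Pol.var 0) (Pol.var 1)) (Pol.var 2) (Pol.var 3)))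

theorem ok_id_S4 : check id (fun _ => false) pol_id_S4 1 cert_id_S4 = true := by decide +kernel

/-- id_S4 -/
theorem id_S4 (p r a b : A) :
    (2 : ℤ) • (J p r (a * b)) - ((J p a b) * r) + ((J r a b) * p) + (J (p * r) a b) = 0 := by
  have h := engine0 4 pol_id_S4 1 cert_id_S4 (by decide +kernel) (by decide) ok_id_S4
    (fun i => [p, r, a, b].getD i 0)
  simp only [pol_id_S4, evP_var, evP_smul, evP_mul, evP_add, evP_sub, evP_J, evP_t, evP_e, evP_om, evP_X, evP_l, evP_Th, evP_Z] at h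
  exact h

/-- Certificate. -/
def cert_id_S5 : List Inst :=
  [⟨1, v 3, v 1, v 0, v 2, []⟩,
  ⟨1, v 3, v 0, v 2, v 1, []⟩,
  ⟨1, v 3, v 2, v 0, v 1, []⟩]

def pol_id_S5 : Pol := (Pol.sub (Pol.sub (Pol.add (Pol.J (Pol.mul (Pol.var 0) (Pol.var 1)) (Pol.var 2) (Pol.var 3)) (Pol.smul (2) (Pol.mul (Pol.mul (Pol.var 0) (Pol.var 1)) (Pol.mul (Pol.var 2) (Pol.var 3))))) (Pol.mul (Pol.add (Pol.J (Pol.var 0) (Pol.var 2) (Pol.var 3)) (Pol.smul (2) (Pol.mul (Pol.var 0) (Pol.mul (Pol.var 2) (Pol.var 3))))) (Pol.var 1))) (Pol.mul (Pol.var 0) (Pol.add (Pol.J (Pol.var 1) (Pol.var 2) (Pol.var 3)) (Pol.smul (2) (Pol.mul (Pol.var 1) (Pol.mul (Pol.var 2) (Pol.var 3)))))))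

theorem ok_id_S5 : check id (fun _ => false) pol_id_S5 1 cert_id_S5 = true := by decide +kernel

/-- id_S5 -/
theorem id_S5 (a b u v : A) :
    J (a * b) u v + ((2 : ℤ) • ((a * b) * (u * v))) - ((J a u v + ((2 : ℤ) • (a * (u * v)))) * b) - (a * (J b u v + ((2 : ℤ) • (b * (u * v))))) = 0 := by
  have h := engine0 4 pol_id_S5 1 cert_id_S5 (by decide +kernel) (by decide) ok_id_S5
    (fun i => [a, b, u, v].getD i 0)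
  simp only [pol_id_S5, evP_var, evP_smul, evP_mul, evP_add, evP_sub, evP_J, evP_t, evP_e, evP_om, evP_X, evP_l, evP_Th, evP_Z] at h
  exact h

/-- Certificate. -/
def cert_id_E1 : List Inst :=
  [⟨2, v 3, v 1, v 0, v 2, []⟩,
  ⟨2, v 3, v 2, v 0, v 1, []⟩,
  ⟨1, v 3, v 0, v 2, v 1, []⟩,
  ⟨1, v 3, v 1, v 2, v 0, []⟩]

def pol_id_E1 : Pol := (Pol.sub (Pol.e (Pol.var 0) (Pol.var 1) (Pol.var 2) (Pol.var 3)) (Pol.e (Pol.var 1) (Pol.var 0) (Pol.var 2) (Pol.var 3)))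

theorem ok_id_E1 : check id (fun _ => false) pol_id_E1 1 cert_id_E1 = true := by decide +kernel

/-- id_E1 -/
theorem id_E1 (w z y x : A) :
    e w z y x - (e z w y x) = 0 := by
  have h := engine0 4 pol_id_E1 1 cert_id_E1 (by decide +kernel) (by decide) ok_id_E1
    (fun i => [w, z, y, x].getD i 0)
  simp only [pol_id_E1, evP_var, evP_smul, evP_mul, evP_add, evP_sub, evP_J, evP_t, evP_e, evP_om, evP_X, evP_l, evP_Th, evP_Z] at h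
  exact h

/-- Certificate. -/
def cert_id_E2s : List Inst :=
  [⟨2, v 3, v 0, v 2, v 1, [v 4]⟩,
  ⟨2, v 3, v 1, v 2, v 0, [v 4]⟩,
  ⟨-1, v 4, v 2, v 1, m (v 3) (v 0), []⟩,
  ⟨1, v 4, v 3, v 1, m (v 2) (v 0), []⟩,
  ⟨2, v 4, v 1, v 0, m (v 3) (v 2), []⟩,
  ⟨2, v 4, v 3, v 2, m (v 1) (v 0), []⟩,
  ⟨1, v 4, m (v 2) (v 1), v 0, v 3, []⟩,
  ⟨1, v 4, v 1, m (v 2) (v 0), v 3, []⟩,
  ⟨2, v 4, v 2, m (v 1) (v 0), v 3, []⟩,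
  ⟨-1, v 4, m (v 3) (v 1), v 0, v 2, []⟩,
  ⟨1, v 4, v 3, m (v 2) (v 1), v 0, []⟩,
  ⟨1, v 4, m (v 2) (v 0), v 3, v 1, []⟩,
  ⟨-1, v 4, v 0, v 2, m (v 3) (v 1), []⟩,
  ⟨1, v 4, v 0, v 3, m (v 2) (v 1), []⟩,
  ⟨-1, v 4, v 2, m (v 3) (v 1), v 0, []⟩,
  ⟨-1, v 4, v 1, m (v 3) (v 0), v 2, []⟩,
  ⟨2, v 4, m (v 3) (v 2), v 1, v 0, []⟩,
  ⟨-1, v 4, m (v 3) (v 0), v 2, v 1, []⟩,
  ⟨2, v 4, m (v 1) (v 0), v 3, v 2, []⟩,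
  ⟨4, v 3, v 1, v 0, v 2, [v 4]⟩,
  ⟨4, v 3, v 2, v 0, v 1, [v 4]⟩,
  ⟨2, v 4, v 0, m (v 3) (v 2), v 1, []⟩]

def pol_id_E2s : Pol := (Pol.sub (Pol.om (Pol.var 0) (Pol.var 1) (Pol.var 2) (Pol.var 3) (Pol.var 4)) (Pol.om (Pol.var 1) (Pol.var 0) (Pol.var 2) (Pol.var 3) (Pol.var 4)))

theorem ok_id_E2s : check id (fun _ => false) pol_id_E2s 1 cert_id_E2s = true := by decide +kernel

/-- id_E2s -/
theorem id_E2s (w z p q r : A) :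
    om w z p q r - (om z w p q r) = 0 := by
  have h := engine0 5 pol_id_E2s 1 cert_id_E2s (by decide +kernel) (by decide) ok_id_E2s
    (fun i => [w, z, p, q, r].getD i 0)
  simp only [pol_id_E2s, evP_var, evP_smul, evP_mul, evP_add, evP_sub, evP_J, evP_t, evP_e, evP_om, evP_X, evP_l, evP_Th, evP_Z] at h
  exact h

/-- Certificate. -/
def cert_id_E2a : List Inst :=
  [⟨4, v 3, v 2, v 1, v 0, [v 4]⟩,
  ⟨1, v 4, v 3, m (v 1) (v 0), v 2, []⟩,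
  ⟨4, v 4, v 3, v 2, m (v 1) (v 0), []⟩,
  ⟨1, v 4, v 0, v 3, v 1, [v 2]⟩,
  ⟨-4, v 4, v 3, v 1, v 2, [v 0]⟩,
  ⟨5, v 4, v 3, m (v 2) (v 1), v 0, []⟩,
  ⟨4, v 4, v 2, m (v 1) (v 0), v 3, []⟩,
  ⟨-3, v 4, v 2, m (v 3) (v 0), v 1, []⟩,
  ⟨1, v 4, v 3, v 1, v 0, [v 2]⟩,
  ⟨-3, v 4, v 1, v 0, v 3, [v 2]⟩,
  ⟨4, v 4, v 1, v 2, v 0, [v 3]⟩,
  ⟨1, v 4, m (v 3) (v 2), v 0, v 1, []⟩,
  ⟨6, v 3, v 2, v 0, v 1, [v 4]⟩,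
  ⟨-3, v 4, v 1, v 3, m (v 2) (v 0), []⟩,
  ⟨6, v 3, v 1, v 0, v 2, [v 4]⟩,
  ⟨1, v 4, v 2, v 0, v 3, [v 1]⟩,
  ⟨1, v 4, v 0, v 3, v 2, [v 1]⟩,
  ⟨4, v 3, v 2, m (v 4) (v 1), v 0, []⟩,
  ⟨2, v 4, m (v 3) (v 2), v 1, v 0, []⟩,
  ⟨-5, v 4, v 1, v 2, m (v 3) (v 0), []⟩,
  ⟨-5, v 4, m (v 3) (v 0), v 2, v 1, []⟩,
  ⟨3, v 4, v 0, v 2, v 1, [v 3]⟩,
  ⟨-3, v 4, v 0, v 2, m (v 3) (v 1), []⟩,
  ⟨6, v 3, v 2, m (v 4) (v 0), v 1, []⟩,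
  ⟨1, v 4, v 2, v 3, m (v 1) (v 0), []⟩,
  ⟨1, v 4, m (v 2) (v 1), v 3, v 0, []⟩,
  ⟨-3, v 4, m (v 3) (v 1), v 2, v 0, []⟩,
  ⟨2, v 4, m (v 2) (v 1), v 0, v 3, []⟩,
  ⟨-4, v 4, v 1, m (v 3) (v 0), v 2, []⟩,
  ⟨4, v 3, v 1, v 2, v 0, [v 4]⟩,
  ⟨-4, v 4, v 2, v 1, m (v 3) (v 0), []⟩,
  ⟨-3, v 4, v 1, v 3, v 2, [v 0]⟩,
  ⟨-4, v 4, v 2, v 0, m (v 3) (v 1), []⟩,
  ⟨-3, v 4, v 2, m (v 3) (v 1), v 0, []⟩,
  ⟨-1, v 4, v 0, v 3, m (v 2) (v 1), []⟩,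
  ⟨5, v 4, v 1, v 0, m (v 3) (v 2), []⟩,
  ⟨1, v 4, v 3, v 2, v 0, [v 1]⟩,
  ⟨-1, v 4, v 3, m (v 2) (v 0), v 1, []⟩,
  ⟨-3, v 4, v 2, v 1, v 3, [v 0]⟩,
  ⟨2, v 4, v 1, v 3, v 0, [v 2]⟩,
  ⟨3, v 4, m (v 1) (v 0), v 3, v 2, []⟩,
  ⟨-4, v 4, v 1, m (v 2) (v 0), v 3, []⟩,
  ⟨-3, v 4, v 2, v 1, v 0, [v 3]⟩,
  ⟨1, v 4, v 1, v 0, v 2, [v 3]⟩,
  ⟨1, v 4, m (v 2) (v 0), v 3, v 1, []⟩,
  ⟨7, v 4, v 0, m (v 3) (v 2), v 1, []⟩,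
  ⟨-3, v 4, v 3, v 2, v 1, [v 0]⟩,
  ⟨-2, v 3, v 2, v 0, m (v 4) (v 1), []⟩,
  ⟨6, v 3, v 0, v 2, v 1, [v 4]⟩,
  ⟨4, v 3, m (v 4) (v 2), v 1, v 0, []⟩,
  ⟨4, v 4, v 1, m (v 3) (v 2), v 0, []⟩]

def pol_id_E2a : Pol := (Pol.add (Pol.om (Pol.var 0) (Pol.var 1) (Pol.var 2) (Pol.var 3) (Pol.var 4)) (Pol.om (Pol.var 0) (Pol.var 1) (Pol.var 4) (Pol.var 3) (Pol.var 2)))

theorem ok_id_E2a : check id (fun _ => false) pol_id_E2a 2 cert_id_E2a = true := by decide +kernel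

/-- id_E2a -/
theorem id_E2a (w z p q r : A) :
    om w z p q r + (om w z r q p) = 0 := by
  have h := engine0 5 pol_id_E2a 2 cert_id_E2a (by decide +kernel) (by decide) ok_id_E2a
    (fun i => [w, z, p, q, r].getD i 0)
  simp only [pol_id_E2a, evP_var, evP_smul, evP_mul, evP_add, evP_sub, evP_J, evP_t, evP_e, evP_om, evP_X, evP_l, evP_Th, evP_Z] at h
  exact h

/-- Certificate. -/
def cert_id_E3 : List Inst :=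
  [⟨1, v 3, v 1, v 0, v 2, []⟩,
  ⟨1, v 3, v 2, v 1, v 0, []⟩]

def pol_id_E3 : Pol := (Pol.add (Pol.Th (Pol.var 0) (Pol.var 1) (Pol.var 2) (Pol.var 3)) (Pol.Th (Pol.var 0) (Pol.var 1) (Pol.var 3) (Pol.var 2)))

theorem ok_id_E3 : check id (fun _ => false) pol_id_E3 1 cert_id_E3 = true := by decide +kernel

/-- id_E3 -/
theorem id_E3 (m x y z : A) :
    Th m x y z + (Th m x z y) = 0 := by
  have h := engine0 4 pol_id_E3 1 cert_id_E3 (by decide +kernel) (by decide) ok_id_E3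
    (fun i => [m, x, y, z].getD i 0)
  simp only [pol_id_E3, evP_var, evP_smul, evP_mul, evP_add, evP_sub, evP_J, evP_t, evP_e, evP_om, evP_X, evP_l, evP_Th, evP_Z] at h
  exact h

/-- Certificate. -/
def cert_id_INV : List Inst :=
  [⟨1, v 3, v 2, v 0, v 1, [v 4]⟩,
  ⟨5, v 4, v 3, v 2, m (v 1) (v 0), []⟩,
  ⟨1, v 4, v 2, m (v 1) (v 0), v 3, []⟩,
  ⟨6, v 4, v 2, v 0, v 1, [v 3]⟩,
  ⟨2, v 4, v 1, v 2, v 0, [v 3]⟩,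
  ⟨5, v 4, v 0, v 2, v 1, [v 3]⟩,
  ⟨7, v 3, v 1, v 0, v 2, [v 4]⟩,
  ⟨-3, v 4, v 3, v 1, m (v 2) (v 0), []⟩,
  ⟨2, v 4, v 0, v 3, v 2, [v 1]⟩,
  ⟨2, v 4, v 2, v 3, m (v 1) (v 0), []⟩,
  ⟨5, v 4, v 1, v 0, m (v 3) (v 2), []⟩,
  ⟨-2, v 4, v 1, v 2, m (v 3) (v 0), []⟩,
  ⟨3, v 4, v 3, v 2, v 0, [v 1]⟩,
  ⟨-3, v 4, v 1, m (v 2) (v 0), v 3, []⟩,
  ⟨-5, v 4, v 2, v 0, m (v 3) (v 1), []⟩,
  ⟨-4, v 3, v 2, m (v 4) (v 1), v 0, []⟩,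
  ⟨3, v 4, v 1, v 3, v 0, [v 2]⟩,
  ⟨1, v 4, v 1, v 3, m (v 2) (v 0), []⟩,
  ⟨4, v 3, v 2, m (v 4) (v 0), v 1, []⟩,
  ⟨2, v 3, v 0, v 2, v 1, [v 4]⟩,
  ⟨-1, v 4, m (v 3) (v 1), v 0, v 2, []⟩,
  ⟨2, v 3, v 2, v 1, v 0, [v 4]⟩,
  ⟨-2, v 4, v 1, m (v 3) (v 0), v 2, []⟩,
  ⟨2, v 3, v 1, v 2, v 0, [v 4]⟩,
  ⟨-3, v 4, m (v 3) (v 0), v 2, v 1, []⟩,
  ⟨1, v 4, v 2, m (v 3) (v 0), v 1, []⟩,
  ⟨3, v 4, v 3, v 0, v 1, [v 2]⟩,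
  ⟨1, v 4, v 2, v 1, m (v 3) (v 0), []⟩,
  ⟨-1, v 4, v 0, v 3, m (v 2) (v 1), []⟩,
  ⟨-3, v 4, v 2, v 1, v 3, [v 0]⟩,
  ⟨-3, v 4, m (v 3) (v 1), v 2, v 0, []⟩,
  ⟨3, v 4, v 3, m (v 2) (v 1), v 0, []⟩,
  ⟨-1, v 4, v 3, v 0, v 2, [v 1]⟩,
  ⟨-2, v 4, v 1, v 3, v 2, [v 0]⟩,
  ⟨2, v 4, v 0, v 3, v 1, [v 2]⟩,
  ⟨-1, v 4, v 2, v 1, v 0, [v 3]⟩,
  ⟨2, v 4, v 1, v 0, v 2, [v 3]⟩,
  ⟨1, v 4, v 2, v 0, v 3, [v 1]⟩,
  ⟨-1, v 4, v 0, v 2, m (v 3) (v 1), []⟩,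
  ⟨3, v 3, m (v 4) (v 2), v 1, v 0, []⟩,
  ⟨3, v 4, m (v 1) (v 0), v 3, v 2, []⟩,
  ⟨5, v 4, v 0, m (v 3) (v 2), v 1, []⟩,
  ⟨-2, v 4, v 3, v 2, v 1, [v 0]⟩,
  ⟨3, v 3, v 2, v 1, m (v 4) (v 0), []⟩,
  ⟨-3, v 4, m (v 2) (v 1), v 3, v 0, []⟩,
  ⟨-3, v 3, m (v 4) (v 2), v 0, v 1, []⟩,
  ⟨-3, v 4, v 3, m (v 2) (v 0), v 1, []⟩,
  ⟨-3, v 3, v 2, v 0, m (v 4) (v 1), []⟩,
  ⟨3, v 4, m (v 3) (v 2), v 1, v 0, []⟩,
  ⟨2, v 4, m (v 3) (v 2), v 0, v 1, []⟩,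
  ⟨-2, v 4, v 2, v 3, v 0, [v 1]⟩,
  ⟨3, v 4, v 2, v 3, v 1, [v 0]⟩,
  ⟨-1, v 4, v 3, v 1, v 2, [v 0]⟩]

def pol_id_INV : Pol := (Pol.sub (Pol.sub (Pol.sub (Pol.sub (Pol.sub (Pol.sub (Pol.sub (Pol.add (Pol.smul (2) (Pol.e (Pol.mul (Pol.var 0) (Pol.var 1)) (Pol.var 2) (Pol.var 3) (Pol.var 4))) (Pol.smul (2) (Pol.e (Pol.var 0) (Pol.mul (Pol.var 2) (Pol.var 1)) (Pol.var 3) (Pol.var 4)))) (Pol.smul (1) (Pol.l (Pol.var 0) (Pol.var 2) (Pol.var 3) (Pol.var 4) (Pol.var 1)))) (Pol.smul (-1) (Pol.l (Pol.var 0) (Pol.var 1) (Pol.var 3) (Pol.var 4) (Pol.var 2)))) (Pol.smul (-1) (Pol.l (Pol.var 0) (Pol.var 1) (Pol.var 2) (Pol.var 4) (Pol.var 3)))) (Pol.smul (-2) (Pol.l (Pol.var 0) (Pol.var 2) (Pol.var 1) (Pol.var 3) (Pol.var 4)))) (Pol.smul (1) (Pol.l (Pol.var 0) (Pol.var 2) (Pol.var 1) (Pol.var 4) (Pol.var 3)))) (Pol.smul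 (1) (Pol.l (Pol.var 0) (Pol.var 3) (Pol.var 1) (Pol.var 4) (Pol.var 2)))) (Pol.smul (1) (Pol.l (Pol.var 0) (Pol.var 3) (Pol.var 2) (Pol.var 4) (Pol.var 1))))

theorem ok_id_INV : check id (fun _ => false) pol_id_INV 1 cert_id_INV = true := by decide +kernel

/-- id_INV -/
theorem id_INV (w v z y x : A) :
    (2 : ℤ) • (e (w * v) z y x) + ((2 : ℤ) • (e w (z * v) y x)) - ((1 : ℤ) • (l w z y x v)) - ((-1 : ℤ) • (l w v y x z)) - ((-1 : ℤ) • (l w v z x y)) - ((-2 : ℤ) • (l w z v y x)) - ((1 : ℤ) • (l w z v x y)) - ((1 : ℤ) • (l w y v x z)) - ((1 : ℤ) • (l w y z x v)) = 0 := by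
  have h := engine0 5 pol_id_INV 1 cert_id_INV (by decide +kernel) (by decide) ok_id_INV
    (fun i => [w, v, z, y, x].getD i 0)
  simp only [pol_id_INV, evP_var, evP_smul, evP_mul, evP_add, evP_sub, evP_J, evP_t, evP_e, evP_om, evP_X, evP_l, evP_Th, evP_Z] at h
  exact h

/-- Certificate. -/
def cert_id_D4a : List Inst :=
  [⟨2, v 3, v 1, v 2, v 0, []⟩,
  ⟨-1, v 3, v 0, v 2, v 1, []⟩]

def pol_id_D4a : Pol := (Pol.add (Pol.add (Pol.sub (Pol.sub (Pol.add (Pol.add (Pol.smul (3) (Pol.mul (Pol.mul (Pol.mul (Pol.var 0) (Pol.var 1)) (Pol.var 2)) (Pol.var 3))) (Pol.t (Pol.mul (Pol.var 0) (Pol.var 1)) (Pol.var 3) (Pol.var 2))) (Pol.t (Pol.mul (Pol.var 0) (Pol.var 2)) (Pol.var 3) (Pol.var 1))) (Pol.t (Pol.mul (Pol.var 0) (Pol.var 3)) (Pol.var 1) (Pol.var 2))) (Pol.smul (2) (Pol.t (Pol.mul (Pol.var 0) (Pol.var 1)) (Pol.var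 2) (Pol.var 3)))) (Pol.t (Pol.mul (Pol.var 1) (Pol.var 3)) (Pol.var 2) (Pol.var 0))) (Pol.t (Pol.var 0) (Pol.mul (Pol.var 1) (Pol.var 2)) (Pol.var 3)))

theorem ok_id_D4a : check id (fun _ => false) pol_id_D4a 1 cert_id_D4a = true := by decide +kernel

/-- id_D4a -/
theorem id_D4a (a b c d : A) :
    (3 : ℤ) • (((a * b) * c) * d) + (t (a * b) d c) + (t (a * c) d b) - (t (a * d) b c) - ((2 : ℤ) • (t (a * b) c d)) + (t (b * d) c a) + (t a (b * c) d) = 0 := by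
  have h := engine0 4 pol_id_D4a 1 cert_id_D4a (by decide +kernel) (by decide) ok_id_D4a
    (fun i => [a, b, c, d].getD i 0)
  simp only [pol_id_D4a, evP_var, evP_smul, evP_mul, evP_add, evP_sub, evP_J, evP_t, evP_e, evP_om, evP_X, evP_l, evP_Th, evP_Z] at h
  exact h

/-- Certificate. -/
def cert_id_D4b : List Inst :=
  [⟨-2, v 3, v 1, v 2, v 0, []⟩,
  ⟨1, v 3, v 0, v 2, v 1, []⟩]

def pol_id_D4b : Pol := (Pol.sub (Pol.sub (Pol.add (Pol.sub (Pol.smul (3) (Pol.mul (Pol.mul (Pol.var 0) (Pol.var 1)) (Pol.mul (Pol.var 2) (Pol.var 3)))) (Pol.t (Pol.mul (Pol.var 0) (Pol.var 2)) (Pol.var 3) (Pol.var 1))) (Pol.t (Pol.mul (Pol.var 0) (Pol.var 3)) (Pol.var 1) (Pol.var 2))) (Pol.t (Pol.mul (Pol.var 1) (Pol.var 3)) (Pol.var 2) (Pol.var 0))) (Pol.t (Pol.var 0) (Pol.mul (Pol.var 1) (Pol.var 2)) (Pol.var 3)))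

theorem ok_id_D4b : check id (fun _ => false) pol_id_D4b 1 cert_id_D4b = true := by decide +kernel

/-- id_D4b -/
theorem id_D4b (a b c d : A) :
    (3 : ℤ) • ((a * b) * (c * d)) - (t (a * c) d b) + (t (a * d) b c) - (t (b * d) c a) - (t a (b * c) d) = 0 := by
  have h := engine0 4 pol_id_D4b 1 cert_id_D4b (by decide +kernel) (by decide) ok_id_D4b
    (fun i => [a, b, c, d].getD i 0)
  simp only [pol_id_D4b, evP_var, evP_smul, evP_mul, evP_add, evP_sub, evP_J, evP_t, evP_e, evP_om, evP_X, evP_l, evP_Th, evP_Z] at h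
  exact h

def cert_S1 : List Inst :=
  [⟨-1, v 2, v 0, v 1, v 0, []⟩,
  ⟨-1, v 2, v 1, v 0, v 0, []⟩]

def pol_S1 : Pol := (Pol.sub (Pol.J (Pol.var 0) (Pol.var 1) (Pol.mul (Pol.var 3) (Pol.var 2))) (Pol.mul (Pol.J (Pol.var 0) (Pol.var 1) (Pol.var 2)) (Pol.var 3)))

def g_S1 : ℕ → ℕ := fun i => [0, 1, 2, 0].getD i 2
def p_S1 : ℕ → Bool := fun i => [false, false, false].getD i false

theorem ok_S1 : check g_S1 p_S1 pol_S1 1 cert_S1 = true := by decide +kernel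

/-- S1 -/
theorem id_S1 (x y z : A) : J x y (x * z) - J x y z * x = 0 := by
  have h := engine 4 g_S1 p_S1 pol_S1 1 cert_S1 (by decide +kernel) (by decide) ok_S1
    (by decide +kernel) (fun i => [x, y, z, x].getD i 0) ?_ ?_
  · simp only [pol_S1, evP_var, evP_smul, evP_mul, evP_add, evP_sub, evP_J, evP_t, evP_e, evP_om, evP_X, evP_l, evP_Th, evP_Z] at h
    exact h
  · intro i hi j hj hg hp
    interval_cases i <;> interval_cases j <;> first | rfl | (exfalso; revert hg hp; decide)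
  · intro b i hi hg hp
    exfalso
    have h2 : p_S1 (g_S1 i) = false := by
      have : i < 4 := by omega
      clear hi hg hp
      interval_cases i <;> rfl
    rw [h2] at hp
    exact absurd hp (by decide)

end Pool.Agent.MalF
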