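import Pool.Agent.MalF.Defs

/-!
# Multilinearity of `J`, `t`, `e`, `om`, `Th`, `X`, `l`, `Z`
-/

set_option linter.unusedSimpArgs false

namespace Pool.Agent.MalF

variable {A : Type*} [NonUnitalNonAssocRing A]

theorem J_add1 (x y z x' : A) :
    J (x + x') y z = J x y z + J x' y z := by
  simp only [J, mul_add, add_mul, smul_add]
  abel

theorem J_neg1 (x y z : A) : J (-x) y z = - J x y z := by
  simp only [J, mul_neg, neg_mul, smul_neg]
  abel

theorem J_smul1 {R : Type*} [CommRing R] [Module R A] [IsScalarTower R A A]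
    [SMulCommClass R A A] (c : R) (x y z : A) : J (c • x) y z = c • J x y z := by
  simp only [J, mul_smul_comm, smul_mul_assoc, smul_add, smul_sub]

theorem J_zero1 (y z : A) : J 0 y z = 0 := by
  have h := J_add1 0 y z 0
  rw [add_zero] at h
  exact left_eq_add.mp h

theorem J_sub1 (x y z x' : A) :
    J (x - x') y z = J x y z - J x' y z := by
  rw [sub_eq_add_neg, J_add1, J_neg1, ← sub_eq_add_neg]

theorem J_add2 (x y z y' : A) :
    J x (y + y') z = J x y z + J x y' z := by
  simp only [J, mul_add, add_mul, smul_add]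
  abel

theorem J_neg2 (x y z : A) : J x (-y) z = - J x y z := by
  simp only [J, mul_neg, neg_mul, smul_neg]
  abel

theorem J_smul2 {R : Type*} [CommRing R] [Module R A] [IsScalarTower R A A]
    [SMulCommClass R A A] (c : R) (x y z : A) : J x (c • y) z = c • J x y z := by
  simp only [J, mul_smul_comm, smul_mul_assoc, smul_add, smul_sub]

theorem J_zero2 (x z : A) : J x 0 z = 0 := by
  have h := J_add2 x 0 z 0
  rw [add_zero] at h
  exact left_eq_add.mp h

theorem J_sub2 (x y z y' : A) :
    J x (y - y') z = J x y z - J x y' z := by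
  rw [sub_eq_add_neg, J_add2, J_neg2, ← sub_eq_add_neg]

theorem J_add3 (x y z z' : A) :
    J x y (z + z') = J x y z + J x y z' := by
  simp only [J, mul_add, add_mul, smul_add]
  abel

theorem J_neg3 (x y z : A) : J x y (-z) = - J x y z := by
  simp only [J, mul_neg, neg_mul, smul_neg]
  abel

theorem J_smul3 {R : Type*} [CommRing R] [Module R A] [IsScalarTower R A A]
    [SMulCommClass R A A] (c : R) (x y z : A) : J x y (c • z) = c • J x y z := by
  simp only [J, mul_smul_comm, smul_mul_assoc, smul_add, smul_sub]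

theorem J_zero3 (x y : A) : J x y 0 = 0 := by
  have h := J_add3 x y 0 0
  rw [add_zero] at h
  exact left_eq_add.mp h

theorem J_sub3 (x y z z' : A) :
    J x y (z - z') = J x y z - J x y z' := by
  rw [sub_eq_add_neg, J_add3, J_neg3, ← sub_eq_add_neg]

theorem t_add1 (x y z x' : A) :
    t (x + x') y z = t x y z + t x' y z := by
  simp only [t, mul_add, add_mul, smul_add]
  abel

theorem t_neg1 (x y z : A) : t (-x) y z = - t x y z := by
  simp only [t, mul_neg, neg_mul, smul_neg]
  abel

theorem t_smul1 {R : Type*} [CommRing R] [Module R A] [IsScalarTower R A A]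
    [SMulCommClass R A A] (c : R) (x y z : A) : t (c • x) y z = c • t x y z := by
  simp only [t, mul_smul_comm, smul_mul_assoc, smul_add, smul_sub, smul_comm (2 : ℤ) c]

theorem t_zero1 (y z : A) : t 0 y z = 0 := by
  have h := t_add1 0 y z 0
  rw [add_zero] at h
  exact left_eq_add.mp h

theorem t_sub1 (x y z x' : A) :
    t (x - x') y z = t x y z - t x' y z := by
  rw [sub_eq_add_neg, t_add1, t_neg1, ← sub_eq_add_neg]

theorem t_add2 (x y z y' : A) :
    t x (y + y') z = t x y z + t x y' z := by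
  simp only [t, mul_add, add_mul, smul_add]
  abel

theorem t_neg2 (x y z : A) : t x (-y) z = - t x y z := by
  simp only [t, mul_neg, neg_mul, smul_neg]
  abel

theorem t_smul2 {R : Type*} [CommRing R] [Module R A] [IsScalarTower R A A]
    [SMulCommClass R A A] (c : R) (x y z : A) : t x (c • y) z = c • t x y z := by
  simp only [t, mul_smul_comm, smul_mul_assoc, smul_add, smul_sub, smul_comm (2 : ℤ) c]

theorem t_zero2 (x z : A) : t x 0 z = 0 := by
  have h := t_add2 x 0 z 0
  rw [add_zero] at h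
  exact left_eq_add.mp h

theorem t_sub2 (x y z y' : A) :
    t x (y - y') z = t x y z - t x y' z := by
  rw [sub_eq_add_neg, t_add2, t_neg2, ← sub_eq_add_neg]

theorem t_add3 (x y z z' : A) :
    t x y (z + z') = t x y z + t x y z' := by
  simp only [t, mul_add, add_mul, smul_add]
  abel

theorem t_neg3 (x y z : A) : t x y (-z) = - t x y z := by
  simp only [t, mul_neg, neg_mul, smul_neg]
  abel

theorem t_smul3 {R : Type*} [CommRing R] [Module R A] [IsScalarTower R A A]
    [SMulCommClass R A A] (c : R) (x y z : A) : t x y (c • z) = c • t x y z := by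
  simp only [t, mul_smul_comm, smul_mul_assoc, smul_add, smul_sub, smul_comm (2 : ℤ) c]

theorem t_zero3 (x y : A) : t x y 0 = 0 := by
  have h := t_add3 x y 0 0
  rw [add_zero] at h
  exact left_eq_add.mp h

theorem t_sub3 (x y z z' : A) :
    t x y (z - z') = t x y z - t x y z' := by
  rw [sub_eq_add_neg, t_add3, t_neg3, ← sub_eq_add_neg]

theorem e_add1 (w z y x w' : A) :
    e (w + w') z y x = e w z y x + e w' z y x := by
  simp only [e, mul_add, add_mul, smul_add, t_add1, t_add2, t_add3]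
  abel

theorem e_neg1 (w z y x : A) : e (-w) z y x = - e w z y x := by
  simp only [e, mul_neg, neg_mul, smul_neg, t_neg1, t_neg2, t_neg3]
  abel

theorem e_smul1 {R : Type*} [CommRing R] [Module R A] [IsScalarTower R A A]
    [SMulCommClass R A A] (c : R) (w z y x : A) : e (c • w) z y x = c • e w z y x := by
  simp only [e, mul_smul_comm, smul_mul_assoc, smul_add, smul_sub, t_smul1, t_smul2, t_smul3]

theorem e_zero1 (z y x : A) : e 0 z y x = 0 := by
  have h := e_add1 0 z y x 0
  rw [add_zero] at h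
  exact left_eq_add.mp h

theorem e_sub1 (w z y x w' : A) :
    e (w - w') z y x = e w z y x - e w' z y x := by
  rw [sub_eq_add_neg, e_add1, e_neg1, ← sub_eq_add_neg]

theorem e_add2 (w z y x z' : A) :
    e w (z + z') y x = e w z y x + e w z' y x := by
  simp only [e, mul_add, add_mul, smul_add, t_add1, t_add2, t_add3]
  abel

theorem e_neg2 (w z y x : A) : e w (-z) y x = - e w z y x := by
  simp only [e, mul_neg, neg_mul, smul_neg, t_neg1, t_neg2, t_neg3]
  abel

theorem e_smul2 {R : Type*} [CommRing R] [Module R A] [IsScalarTower R A A]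
    [SMulCommClass R A A] (c : R) (w z y x : A) : e w (c • z) y x = c • e w z y x := by
  simp only [e, mul_smul_comm, smul_mul_assoc, smul_add, smul_sub, t_smul1, t_smul2, t_smul3]

theorem e_zero2 (w y x : A) : e w 0 y x = 0 := by
  have h := e_add2 w 0 y x 0
  rw [add_zero] at h
  exact left_eq_add.mp h

theorem e_sub2 (w z y x z' : A) :
    e w (z - z') y x = e w z y x - e w z' y x := by
  rw [sub_eq_add_neg, e_add2, e_neg2, ← sub_eq_add_neg]

theorem e_add3 (w z y x y' : A) :
    e w z (y + y') x = e w z y x + e w z y' x := by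
  simp only [e, mul_add, add_mul, smul_add, t_add1, t_add2, t_add3]
  abel

theorem e_neg3 (w z y x : A) : e w z (-y) x = - e w z y x := by
  simp only [e, mul_neg, neg_mul, smul_neg, t_neg1, t_neg2, t_neg3]
  abel

theorem e_smul3 {R : Type*} [CommRing R] [Module R A] [IsScalarTower R A A]
    [SMulCommClass R A A] (c : R) (w z y x : A) : e w z (c • y) x = c • e w z y x := by
  simp only [e, mul_smul_comm, smul_mul_assoc, smul_add, smul_sub, t_smul1, t_smul2, t_smul3]

theorem e_zero3 (w z x : A) : e w z 0 x = 0 := by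
  have h := e_add3 w z 0 x 0
  rw [add_zero] at h
  exact left_eq_add.mp h

theorem e_sub3 (w z y x y' : A) :
    e w z (y - y') x = e w z y x - e w z y' x := by
  rw [sub_eq_add_neg, e_add3, e_neg3, ← sub_eq_add_neg]

theorem e_add4 (w z y x x' : A) :
    e w z y (x + x') = e w z y x + e w z y x' := by
  simp only [e, mul_add, add_mul, smul_add, t_add1, t_add2, t_add3]
  abel

theorem e_neg4 (w z y x : A) : e w z y (-x) = - e w z y x := by
  simp only [e, mul_neg, neg_mul, smul_neg, t_neg1, t_neg2, t_neg3]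
  abel

theorem e_smul4 {R : Type*} [CommRing R] [Module R A] [IsScalarTower R A A]
    [SMulCommClass R A A] (c : R) (w z y x : A) : e w z y (c • x) = c • e w z y x := by
  simp only [e, mul_smul_comm, smul_mul_assoc, smul_add, smul_sub, t_smul1, t_smul2, t_smul3]

theorem e_zero4 (w z y : A) : e w z y 0 = 0 := by
  have h := e_add4 w z y 0 0
  rw [add_zero] at h
  exact left_eq_add.mp h

theorem e_sub4 (w z y x x' : A) :
    e w z y (x - x') = e w z y x - e w z y x' := by
  rw [sub_eq_add_neg, e_add4, e_neg4, ← sub_eq_add_neg]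

theorem om_add1 (w z p q r w' : A) :
    om (w + w') z p q r = om w z p q r + om w' z p q r := by
  simp only [om, mul_add, add_mul, smul_add, J_add1, J_add2, J_add3, t_add1, t_add2, t_add3]
  abel

theorem om_neg1 (w z p q r : A) : om (-w) z p q r = - om w z p q r := by
  simp only [om, mul_neg, neg_mul, smul_neg, J_neg1, J_neg2, J_neg3, t_neg1, t_neg2, t_neg3]
  abel

theorem om_smul1 {R : Type*} [CommRing R] [Module R A] [IsScalarTower R A A]
    [SMulCommClass R A A] (c : R) (w z p q r : A) : om (c • w) z p q r = c • om w z p q r := by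
  simp only [om, mul_smul_comm, smul_mul_assoc, smul_add, smul_sub, J_smul1, J_smul2, J_smul3, t_smul1, t_smul2, t_smul3]

theorem om_zero1 (z p q r : A) : om 0 z p q r = 0 := by
  have h := om_add1 0 z p q r 0
  rw [add_zero] at h
  exact left_eq_add.mp h

theorem om_sub1 (w z p q r w' : A) :
    om (w - w') z p q r = om w z p q r - om w' z p q r := by
  rw [sub_eq_add_neg, om_add1, om_neg1, ← sub_eq_add_neg]

theorem om_add2 (w z p q r z' : A) :
    om w (z + z') p q r = om w z p q r + om w z' p q r := by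
  simp only [om, mul_add, add_mul, smul_add, J_add1, J_add2, J_add3, t_add1, t_add2, t_add3]
  abel

theorem om_neg2 (w z p q r : A) : om w (-z) p q r = - om w z p q r := by
  simp only [om, mul_neg, neg_mul, smul_neg, J_neg1, J_neg2, J_neg3, t_neg1, t_neg2, t_neg3]
  abel

theorem om_smul2 {R : Type*} [CommRing R] [Module R A] [IsScalarTower R A A]
    [SMulCommClass R A A] (c : R) (w z p q r : A) : om w (c • z) p q r = c • om w z p q r := by
  simp only [om, mul_smul_comm, smul_mul_assoc, smul_add, smul_sub, J_smul1, J_smul2, J_smul3, t_smul1, t_smul2, t_smul3]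

theorem om_zero2 (w p q r : A) : om w 0 p q r = 0 := by
  have h := om_add2 w 0 p q r 0
  rw [add_zero] at h
  exact left_eq_add.mp h

theorem om_sub2 (w z p q r z' : A) :
    om w (z - z') p q r = om w z p q r - om w z' p q r := by
  rw [sub_eq_add_neg, om_add2, om_neg2, ← sub_eq_add_neg]

theorem om_add3 (w z p q r p' : A) :
    om w z (p + p') q r = om w z p q r + om w z p' q r := by
  simp only [om, mul_add, add_mul, smul_add, J_add1, J_add2, J_add3, t_add1, t_add2, t_add3]
  abel

theorem om_neg3 (w z p q r : A) : om w z (-p) q r = - om w z p q r := by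
  simp only [om, mul_neg, neg_mul, smul_neg, J_neg1, J_neg2, J_neg3, t_neg1, t_neg2, t_neg3]
  abel

theorem om_smul3 {R : Type*} [CommRing R] [Module R A] [IsScalarTower R A A]
    [SMulCommClass R A A] (c : R) (w z p q r : A) : om w z (c • p) q r = c • om w z p q r := by
  simp only [om, mul_smul_comm, smul_mul_assoc, smul_add, smul_sub, J_smul1, J_smul2, J_smul3, t_smul1, t_smul2, t_smul3]

theorem om_zero3 (w z q r : A) : om w z 0 q r = 0 := by
  have h := om_add3 w z 0 q r 0
  rw [add_zero] at h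
  exact left_eq_add.mp h

theorem om_sub3 (w z p q r p' : A) :
    om w z (p - p') q r = om w z p q r - om w z p' q r := by
  rw [sub_eq_add_neg, om_add3, om_neg3, ← sub_eq_add_neg]

theorem om_add4 (w z p q r q' : A) :
    om w z p (q + q') r = om w z p q r + om w z p q' r := by
  simp only [om, mul_add, add_mul, smul_add, J_add1, J_add2, J_add3, t_add1, t_add2, t_add3]
  abel

theorem om_neg4 (w z p q r : A) : om w z p (-q) r = - om w z p q r := by
  simp only [om, mul_neg, neg_mul, smul_neg, J_neg1, J_neg2, J_neg3, t_neg1, t_neg2, t_neg3]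
  abel

theorem om_smul4 {R : Type*} [CommRing R] [Module R A] [IsScalarTower R A A]
    [SMulCommClass R A A] (c : R) (w z p q r : A) : om w z p (c • q) r = c • om w z p q r := by
  simp only [om, mul_smul_comm, smul_mul_assoc, smul_add, smul_sub, J_smul1, J_smul2, J_smul3, t_smul1, t_smul2, t_smul3]

theorem om_zero4 (w z p r : A) : om w z p 0 r = 0 := by
  have h := om_add4 w z p 0 r 0
  rw [add_zero] at h
  exact left_eq_add.mp h

theorem om_sub4 (w z p q r q' : A) :
    om w z p (q - q') r = om w z p q r - om w z p q' r := by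
  rw [sub_eq_add_neg, om_add4, om_neg4, ← sub_eq_add_neg]

theorem om_add5 (w z p q r r' : A) :
    om w z p q (r + r') = om w z p q r + om w z p q r' := by
  simp only [om, mul_add, add_mul, smul_add, J_add1, J_add2, J_add3, t_add1, t_add2, t_add3]
  abel

theorem om_neg5 (w z p q r : A) : om w z p q (-r) = - om w z p q r := by
  simp only [om, mul_neg, neg_mul, smul_neg, J_neg1, J_neg2, J_neg3, t_neg1, t_neg2, t_neg3]
  abel

theorem om_smul5 {R : Type*} [CommRing R] [Module R A] [IsScalarTower R A A]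
    [SMulCommClass R A A] (c : R) (w z p q r : A) : om w z p q (c • r) = c • om w z p q r := by
  simp only [om, mul_smul_comm, smul_mul_assoc, smul_add, smul_sub, J_smul1, J_smul2, J_smul3, t_smul1, t_smul2, t_smul3]

theorem om_zero5 (w z p q : A) : om w z p q 0 = 0 := by
  have h := om_add5 w z p q 0 0
  rw [add_zero] at h
  exact left_eq_add.mp h

theorem om_sub5 (w z p q r r' : A) :
    om w z p q (r - r') = om w z p q r - om w z p q r' := by
  rw [sub_eq_add_neg, om_add5, om_neg5, ← sub_eq_add_neg]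

theorem Th_add1 (m x y z m' : A) :
    Th (m + m') x y z = Th m x y z + Th m' x y z := by
  simp only [Th, mul_add, add_mul, smul_add, J_add1, J_add2, J_add3]
  abel

theorem Th_neg1 (m x y z : A) : Th (-m) x y z = - Th m x y z := by
  simp only [Th, mul_neg, neg_mul, smul_neg, J_neg1, J_neg2, J_neg3]
  abel

theorem Th_smul1 {R : Type*} [CommRing R] [Module R A] [IsScalarTower R A A]
    [SMulCommClass R A A] (c : R) (m x y z : A) : Th (c • m) x y z = c • Th m x y z := by
  simp only [Th, mul_smul_comm, smul_mul_assoc, smul_add, smul_sub, J_smul1, J_smul2, J_smul3]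

theorem Th_zero1 (x y z : A) : Th 0 x y z = 0 := by
  have h := Th_add1 0 x y z 0
  rw [add_zero] at h
  exact left_eq_add.mp h

theorem Th_sub1 (m x y z m' : A) :
    Th (m - m') x y z = Th m x y z - Th m' x y z := by
  rw [sub_eq_add_neg, Th_add1, Th_neg1, ← sub_eq_add_neg]

theorem Th_add2 (m x y z x' : A) :
    Th m (x + x') y z = Th m x y z + Th m x' y z := by
  simp only [Th, mul_add, add_mul, smul_add, J_add1, J_add2, J_add3]
  abel

theorem Th_neg2 (m x y z : A) : Th m (-x) y z = - Th m x y z := by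
  simp only [Th, mul_neg, neg_mul, smul_neg, J_neg1, J_neg2, J_neg3]
  abel

theorem Th_smul2 {R : Type*} [CommRing R] [Module R A] [IsScalarTower R A A]
    [SMulCommClass R A A] (c : R) (m x y z : A) : Th m (c • x) y z = c • Th m x y z := by
  simp only [Th, mul_smul_comm, smul_mul_assoc, smul_add, smul_sub, J_smul1, J_smul2, J_smul3]

theorem Th_zero2 (m y z : A) : Th m 0 y z = 0 := by
  have h := Th_add2 m 0 y z 0
  rw [add_zero] at h
  exact left_eq_add.mp h

theorem Th_sub2 (m x y z x' : A) :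
    Th m (x - x') y z = Th m x y z - Th m x' y z := by
  rw [sub_eq_add_neg, Th_add2, Th_neg2, ← sub_eq_add_neg]

theorem Th_add3 (m x y z y' : A) :
    Th m x (y + y') z = Th m x y z + Th m x y' z := by
  simp only [Th, mul_add, add_mul, smul_add, J_add1, J_add2, J_add3]
  abel

theorem Th_neg3 (m x y z : A) : Th m x (-y) z = - Th m x y z := by
  simp only [Th, mul_neg, neg_mul, smul_neg, J_neg1, J_neg2, J_neg3]
  abel

theorem Th_smul3 {R : Type*} [CommRing R] [Module R A] [IsScalarTower R A A]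
    [SMulCommClass R A A] (c : R) (m x y z : A) : Th m x (c • y) z = c • Th m x y z := by
  simp only [Th, mul_smul_comm, smul_mul_assoc, smul_add, smul_sub, J_smul1, J_smul2, J_smul3]

theorem Th_zero3 (m x z : A) : Th m x 0 z = 0 := by
  have h := Th_add3 m x 0 z 0
  rw [add_zero] at h
  exact left_eq_add.mp h

theorem Th_sub3 (m x y z y' : A) :
    Th m x (y - y') z = Th m x y z - Th m x y' z := by
  rw [sub_eq_add_neg, Th_add3, Th_neg3, ← sub_eq_add_neg]

theorem Th_add4 (m x y z z' : A) :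
    Th m x y (z + z') = Th m x y z + Th m x y z' := by
  simp only [Th, mul_add, add_mul, smul_add, J_add1, J_add2, J_add3]
  abel

theorem Th_neg4 (m x y z : A) : Th m x y (-z) = - Th m x y z := by
  simp only [Th, mul_neg, neg_mul, smul_neg, J_neg1, J_neg2, J_neg3]
  abel

theorem Th_smul4 {R : Type*} [CommRing R] [Module R A] [IsScalarTower R A A]
    [SMulCommClass R A A] (c : R) (m x y z : A) : Th m x y (c • z) = c • Th m x y z := by
  simp only [Th, mul_smul_comm, smul_mul_assoc, smul_add, smul_sub, J_smul1, J_smul2, J_smul3]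

theorem Th_zero4 (m x y : A) : Th m x y 0 = 0 := by
  have h := Th_add4 m x y 0 0
  rw [add_zero] at h
  exact left_eq_add.mp h

theorem Th_sub4 (m x y z z' : A) :
    Th m x y (z - z') = Th m x y z - Th m x y z' := by
  rw [sub_eq_add_neg, Th_add4, Th_neg4, ← sub_eq_add_neg]

theorem X_add1 (w z y x q r w' : A) :
    X (w + w') z y x q r = X w z y x q r + X w' z y x q r := by
  simp only [X, mul_add, add_mul, smul_add, J_add1, J_add2, J_add3, e_add1, e_add2, e_add3, e_add4, om_add1, om_add2, om_add3, om_add4, om_add5]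
  abel

theorem X_neg1 (w z y x q r : A) : X (-w) z y x q r = - X w z y x q r := by
  simp only [X, mul_neg, neg_mul, smul_neg, J_neg1, J_neg2, J_neg3, e_neg1, e_neg2, e_neg3, e_neg4, om_neg1, om_neg2, om_neg3, om_neg4, om_neg5]
  abel

theorem X_smul1 {R : Type*} [CommRing R] [Module R A] [IsScalarTower R A A]
    [SMulCommClass R A A] (c : R) (w z y x q r : A) : X (c • w) z y x q r = c • X w z y x q r := by
  simp only [X, mul_smul_comm, smul_mul_assoc, smul_add, smul_sub, J_smul1, J_smul2, J_smul3, e_smul1, e_smul2, e_smul3, e_smul4, om_smul1, om_smul2, om_smul3, om_smul4, om_smul5]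

theorem X_zero1 (z y x q r : A) : X 0 z y x q r = 0 := by
  have h := X_add1 0 z y x q r 0
  rw [add_zero] at h
  exact left_eq_add.mp h

theorem X_sub1 (w z y x q r w' : A) :
    X (w - w') z y x q r = X w z y x q r - X w' z y x q r := by
  rw [sub_eq_add_neg, X_add1, X_neg1, ← sub_eq_add_neg]

theorem X_add2 (w z y x q r z' : A) :
    X w (z + z') y x q r = X w z y x q r + X w z' y x q r := by
  simp only [X, mul_add, add_mul, smul_add, J_add1, J_add2, J_add3, e_add1, e_add2, e_add3, e_add4, om_add1, om_add2, om_add3, om_add4, om_add5]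
  abel

theorem X_neg2 (w z y x q r : A) : X w (-z) y x q r = - X w z y x q r := by
  simp only [X, mul_neg, neg_mul, smul_neg, J_neg1, J_neg2, J_neg3, e_neg1, e_neg2, e_neg3, e_neg4, om_neg1, om_neg2, om_neg3, om_neg4, om_neg5]
  abel

theorem X_smul2 {R : Type*} [CommRing R] [Module R A] [IsScalarTower R A A]
    [SMulCommClass R A A] (c : R) (w z y x q r : A) : X w (c • z) y x q r = c • X w z y x q r := by
  simp only [X, mul_smul_comm, smul_mul_assoc, smul_add, smul_sub, J_smul1, J_smul2, J_smul3, e_smul1, e_smul2, e_smul3, e_smul4, om_smul1, om_smul2, om_smul3, om_smul4, om_smul5]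

theorem X_zero2 (w y x q r : A) : X w 0 y x q r = 0 := by
  have h := X_add2 w 0 y x q r 0
  rw [add_zero] at h
  exact left_eq_add.mp h

theorem X_sub2 (w z y x q r z' : A) :
    X w (z - z') y x q r = X w z y x q r - X w z' y x q r := by
  rw [sub_eq_add_neg, X_add2, X_neg2, ← sub_eq_add_neg]

theorem X_add3 (w z y x q r y' : A) :
    X w z (y + y') x q r = X w z y x q r + X w z y' x q r := by
  simp only [X, mul_add, add_mul, smul_add, J_add1, J_add2, J_add3, e_add1, e_add2, e_add3, e_add4, om_add1, om_add2, om_add3, om_add4, om_add5]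
  abel

theorem X_neg3 (w z y x q r : A) : X w z (-y) x q r = - X w z y x q r := by
  simp only [X, mul_neg, neg_mul, smul_neg, J_neg1, J_neg2, J_neg3, e_neg1, e_neg2, e_neg3, e_neg4, om_neg1, om_neg2, om_neg3, om_neg4, om_neg5]
  abel

theorem X_smul3 {R : Type*} [CommRing R] [Module R A] [IsScalarTower R A A]
    [SMulCommClass R A A] (c : R) (w z y x q r : A) : X w z (c • y) x q r = c • X w z y x q r := by
  simp only [X, mul_smul_comm, smul_mul_assoc, smul_add, smul_sub, J_smul1, J_smul2, J_smul3, e_smul1, e_smul2, e_smul3, e_smul4, om_smul1, om_smul2, om_smul3, om_smul4, om_smul5]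

theorem X_zero3 (w z x q r : A) : X w z 0 x q r = 0 := by
  have h := X_add3 w z 0 x q r 0
  rw [add_zero] at h
  exact left_eq_add.mp h

theorem X_sub3 (w z y x q r y' : A) :
    X w z (y - y') x q r = X w z y x q r - X w z y' x q r := by
  rw [sub_eq_add_neg, X_add3, X_neg3, ← sub_eq_add_neg]

theorem X_add4 (w z y x q r x' : A) :
    X w z y (x + x') q r = X w z y x q r + X w z y x' q r := by
  simp only [X, mul_add, add_mul, smul_add, J_add1, J_add2, J_add3, e_add1, e_add2, e_add3, e_add4, om_add1, om_add2, om_add3, om_add4, om_add5]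
  abel

theorem X_neg4 (w z y x q r : A) : X w z y (-x) q r = - X w z y x q r := by
  simp only [X, mul_neg, neg_mul, smul_neg, J_neg1, J_neg2, J_neg3, e_neg1, e_neg2, e_neg3, e_neg4, om_neg1, om_neg2, om_neg3, om_neg4, om_neg5]
  abel

theorem X_smul4 {R : Type*} [CommRing R] [Module R A] [IsScalarTower R A A]
    [SMulCommClass R A A] (c : R) (w z y x q r : A) : X w z y (c • x) q r = c • X w z y x q r := by
  simp only [X, mul_smul_comm, smul_mul_assoc, smul_add, smul_sub, J_smul1, J_smul2, J_smul3, e_smul1, e_smul2, e_smul3, e_smul4, om_smul1, om_smul2, om_smul3, om_smul4, om_smul5]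

theorem X_zero4 (w z y q r : A) : X w z y 0 q r = 0 := by
  have h := X_add4 w z y 0 q r 0
  rw [add_zero] at h
  exact left_eq_add.mp h

theorem X_sub4 (w z y x q r x' : A) :
    X w z y (x - x') q r = X w z y x q r - X w z y x' q r := by
  rw [sub_eq_add_neg, X_add4, X_neg4, ← sub_eq_add_neg]

theorem X_add5 (w z y x q r q' : A) :
    X w z y x (q + q') r = X w z y x q r + X w z y x q' r := by
  simp only [X, mul_add, add_mul, smul_add, J_add1, J_add2, J_add3, e_add1, e_add2, e_add3, e_add4, om_add1, om_add2, om_add3, om_add4, om_add5]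
  abel

theorem X_neg5 (w z y x q r : A) : X w z y x (-q) r = - X w z y x q r := by
  simp only [X, mul_neg, neg_mul, smul_neg, J_neg1, J_neg2, J_neg3, e_neg1, e_neg2, e_neg3, e_neg4, om_neg1, om_neg2, om_neg3, om_neg4, om_neg5]
  abel

theorem X_smul5 {R : Type*} [CommRing R] [Module R A] [IsScalarTower R A A]
    [SMulCommClass R A A] (c : R) (w z y x q r : A) : X w z y x (c • q) r = c • X w z y x q r := by
  simp only [X, mul_smul_comm, smul_mul_assoc, smul_add, smul_sub, J_smul1, J_smul2, J_smul3, e_smul1, e_smul2, e_smul3, e_smul4, om_smul1, om_smul2, om_smul3, om_smul4, om_smul5]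

theorem X_zero5 (w z y x r : A) : X w z y x 0 r = 0 := by
  have h := X_add5 w z y x 0 r 0
  rw [add_zero] at h
  exact left_eq_add.mp h

theorem X_sub5 (w z y x q r q' : A) :
    X w z y x (q - q') r = X w z y x q r - X w z y x q' r := by
  rw [sub_eq_add_neg, X_add5, X_neg5, ← sub_eq_add_neg]

theorem X_add6 (w z y x q r r' : A) :
    X w z y x q (r + r') = X w z y x q r + X w z y x q r' := by
  simp only [X, mul_add, add_mul, smul_add, J_add1, J_add2, J_add3, e_add1, e_add2, e_add3, e_add4, om_add1, om_add2, om_add3, om_add4, om_add5]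
  abel

theorem X_neg6 (w z y x q r : A) : X w z y x q (-r) = - X w z y x q r := by
  simp only [X, mul_neg, neg_mul, smul_neg, J_neg1, J_neg2, J_neg3, e_neg1, e_neg2, e_neg3, e_neg4, om_neg1, om_neg2, om_neg3, om_neg4, om_neg5]
  abel

theorem X_smul6 {R : Type*} [CommRing R] [Module R A] [IsScalarTower R A A]
    [SMulCommClass R A A] (c : R) (w z y x q r : A) : X w z y x q (c • r) = c • X w z y x q r := by
  simp only [X, mul_smul_comm, smul_mul_assoc, smul_add, smul_sub, J_smul1, J_smul2, J_smul3, e_smul1, e_smul2, e_smul3, e_smul4, om_smul1, om_smul2, om_smul3, om_smul4, om_smul5]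

theorem X_zero6 (w z y x q : A) : X w z y x q 0 = 0 := by
  have h := X_add6 w z y x q 0 0
  rw [add_zero] at h
  exact left_eq_add.mp h

theorem X_sub6 (w z y x q r r' : A) :
    X w z y x q (r - r') = X w z y x q r - X w z y x q r' := by
  rw [sub_eq_add_neg, X_add6, X_neg6, ← sub_eq_add_neg]

theorem l_add1 (w z y x u w' : A) :
    l (w + w') z y x u = l w z y x u + l w' z y x u := by
  simp only [l, mul_add, add_mul, smul_add, e_add1, e_add2, e_add3, e_add4]
  abel

theorem l_neg1 (w z y x u : A) : l (-w) z y x u = - l w z y x u := by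
  simp only [l, mul_neg, neg_mul, smul_neg, e_neg1, e_neg2, e_neg3, e_neg4]
  abel

theorem l_smul1 {R : Type*} [CommRing R] [Module R A] [IsScalarTower R A A]
    [SMulCommClass R A A] (c : R) (w z y x u : A) : l (c • w) z y x u = c • l w z y x u := by
  simp only [l, mul_smul_comm, smul_mul_assoc, smul_add, smul_sub, e_smul1, e_smul2, e_smul3, e_smul4]

theorem l_zero1 (z y x u : A) : l 0 z y x u = 0 := by
  have h := l_add1 0 z y x u 0
  rw [add_zero] at h
  exact left_eq_add.mp h

theorem l_sub1 (w z y x u w' : A) :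
    l (w - w') z y x u = l w z y x u - l w' z y x u := by
  rw [sub_eq_add_neg, l_add1, l_neg1, ← sub_eq_add_neg]

theorem l_add2 (w z y x u z' : A) :
    l w (z + z') y x u = l w z y x u + l w z' y x u := by
  simp only [l, mul_add, add_mul, smul_add, e_add1, e_add2, e_add3, e_add4]
  abel

theorem l_neg2 (w z y x u : A) : l w (-z) y x u = - l w z y x u := by
  simp only [l, mul_neg, neg_mul, smul_neg, e_neg1, e_neg2, e_neg3, e_neg4]
  abel

theorem l_smul2 {R : Type*} [CommRing R] [Module R A] [IsScalarTower R A A]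
    [SMulCommClass R A A] (c : R) (w z y x u : A) : l w (c • z) y x u = c • l w z y x u := by
  simp only [l, mul_smul_comm, smul_mul_assoc, smul_add, smul_sub, e_smul1, e_smul2, e_smul3, e_smul4]

theorem l_zero2 (w y x u : A) : l w 0 y x u = 0 := by
  have h := l_add2 w 0 y x u 0
  rw [add_zero] at h
  exact left_eq_add.mp h

theorem l_sub2 (w z y x u z' : A) :
    l w (z - z') y x u = l w z y x u - l w z' y x u := by
  rw [sub_eq_add_neg, l_add2, l_neg2, ← sub_eq_add_neg]

theorem l_add3 (w z y x u y' : A) :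
    l w z (y + y') x u = l w z y x u + l w z y' x u := by
  simp only [l, mul_add, add_mul, smul_add, e_add1, e_add2, e_add3, e_add4]
  abel

theorem l_neg3 (w z y x u : A) : l w z (-y) x u = - l w z y x u := by
  simp only [l, mul_neg, neg_mul, smul_neg, e_neg1, e_neg2, e_neg3, e_neg4]
  abel

theorem l_smul3 {R : Type*} [CommRing R] [Module R A] [IsScalarTower R A A]
    [SMulCommClass R A A] (c : R) (w z y x u : A) : l w z (c • y) x u = c • l w z y x u := by
  simp only [l, mul_smul_comm, smul_mul_assoc, smul_add, smul_sub, e_smul1, e_smul2, e_smul3, e_smul4]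

theorem l_zero3 (w z x u : A) : l w z 0 x u = 0 := by
  have h := l_add3 w z 0 x u 0
  rw [add_zero] at h
  exact left_eq_add.mp h

theorem l_sub3 (w z y x u y' : A) :
    l w z (y - y') x u = l w z y x u - l w z y' x u := by
  rw [sub_eq_add_neg, l_add3, l_neg3, ← sub_eq_add_neg]

theorem l_add4 (w z y x u x' : A) :
    l w z y (x + x') u = l w z y x u + l w z y x' u := by
  simp only [l, mul_add, add_mul, smul_add, e_add1, e_add2, e_add3, e_add4]
  abel

theorem l_neg4 (w z y x u : A) : l w z y (-x) u = - l w z y x u := by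
  simp only [l, mul_neg, neg_mul, smul_neg, e_neg1, e_neg2, e_neg3, e_neg4]
  abel

theorem l_smul4 {R : Type*} [CommRing R] [Module R A] [IsScalarTower R A A]
    [SMulCommClass R A A] (c : R) (w z y x u : A) : l w z y (c • x) u = c • l w z y x u := by
  simp only [l, mul_smul_comm, smul_mul_assoc, smul_add, smul_sub, e_smul1, e_smul2, e_smul3, e_smul4]

theorem l_zero4 (w z y u : A) : l w z y 0 u = 0 := by
  have h := l_add4 w z y 0 u 0
  rw [add_zero] at h
  exact left_eq_add.mp h

theorem l_sub4 (w z y x u x' : A) :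
    l w z y (x - x') u = l w z y x u - l w z y x' u := by
  rw [sub_eq_add_neg, l_add4, l_neg4, ← sub_eq_add_neg]

theorem l_add5 (w z y x u u' : A) :
    l w z y x (u + u') = l w z y x u + l w z y x u' := by
  simp only [l, mul_add, add_mul, smul_add, e_add1, e_add2, e_add3, e_add4]
  abel

theorem l_neg5 (w z y x u : A) : l w z y x (-u) = - l w z y x u := by
  simp only [l, mul_neg, neg_mul, smul_neg, e_neg1, e_neg2, e_neg3, e_neg4]
  abel

theorem l_smul5 {R : Type*} [CommRing R] [Module R A] [IsScalarTower R A A]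
    [SMulCommClass R A A] (c : R) (w z y x u : A) : l w z y x (c • u) = c • l w z y x u := by
  simp only [l, mul_smul_comm, smul_mul_assoc, smul_add, smul_sub, e_smul1, e_smul2, e_smul3, e_smul4]

theorem l_zero5 (w z y x : A) : l w z y x 0 = 0 := by
  have h := l_add5 w z y x 0 0
  rw [add_zero] at h
  exact left_eq_add.mp h

theorem l_sub5 (w z y x u u' : A) :
    l w z y x (u - u') = l w z y x u - l w z y x u' := by
  rw [sub_eq_add_neg, l_add5, l_neg5, ← sub_eq_add_neg]

theorem Z_add1 (m x1 x2 x3 x4 x5 m' : A) :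
    Z (m + m') x1 x2 x3 x4 x5 = Z m x1 x2 x3 x4 x5 + Z m' x1 x2 x3 x4 x5 := by
  simp only [Z, mul_add, add_mul, smul_add, Th_add1, Th_add2, Th_add3, Th_add4, J_add1, J_add2, J_add3]
  abel

theorem Z_neg1 (m x1 x2 x3 x4 x5 : A) : Z (-m) x1 x2 x3 x4 x5 = - Z m x1 x2 x3 x4 x5 := by
  simp only [Z, mul_neg, neg_mul, smul_neg, Th_neg1, Th_neg2, Th_neg3, Th_neg4, J_neg1, J_neg2, J_neg3]
  abel

theorem Z_smul1 {R : Type*} [CommRing R] [Module R A] [IsScalarTower R A A]
    [SMulCommClass R A A] (c : R) (m x1 x2 x3 x4 x5 : A) : Z (c • m) x1 x2 x3 x4 x5 = c • Z m x1 x2 x3 x4 x5 := by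
  simp only [Z, mul_smul_comm, smul_mul_assoc, smul_add, smul_sub, Th_smul1, Th_smul2, Th_smul3, Th_smul4, J_smul1, J_smul2, J_smul3]

theorem Z_zero1 (x1 x2 x3 x4 x5 : A) : Z 0 x1 x2 x3 x4 x5 = 0 := by
  have h := Z_add1 0 x1 x2 x3 x4 x5 0
  rw [add_zero] at h
  exact left_eq_add.mp h

theorem Z_sub1 (m x1 x2 x3 x4 x5 m' : A) :
    Z (m - m') x1 x2 x3 x4 x5 = Z m x1 x2 x3 x4 x5 - Z m' x1 x2 x3 x4 x5 := by
  rw [sub_eq_add_neg, Z_add1, Z_neg1, ← sub_eq_add_neg]

theorem Z_add2 (m x1 x2 x3 x4 x5 x1' : A) :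
    Z m (x1 + x1') x2 x3 x4 x5 = Z m x1 x2 x3 x4 x5 + Z m x1' x2 x3 x4 x5 := by
  simp only [Z, mul_add, add_mul, smul_add, Th_add1, Th_add2, Th_add3, Th_add4, J_add1, J_add2, J_add3]
  abel

theorem Z_neg2 (m x1 x2 x3 x4 x5 : A) : Z m (-x1) x2 x3 x4 x5 = - Z m x1 x2 x3 x4 x5 := by
  simp only [Z, mul_neg, neg_mul, smul_neg, Th_neg1, Th_neg2, Th_neg3, Th_neg4, J_neg1, J_neg2, J_neg3]
  abel

theorem Z_smul2 {R : Type*} [CommRing R] [Module R A] [IsScalarTower R A A]
    [SMulCommClass R A A] (c : R) (m x1 x2 x3 x4 x5 : A) : Z m (c • x1) x2 x3 x4 x5 = c • Z m x1 x2 x3 x4 x5 := by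
  simp only [Z, mul_smul_comm, smul_mul_assoc, smul_add, smul_sub, Th_smul1, Th_smul2, Th_smul3, Th_smul4, J_smul1, J_smul2, J_smul3]

theorem Z_zero2 (m x2 x3 x4 x5 : A) : Z m 0 x2 x3 x4 x5 = 0 := by
  have h := Z_add2 m 0 x2 x3 x4 x5 0
  rw [add_zero] at h
  exact left_eq_add.mp h

theorem Z_sub2 (m x1 x2 x3 x4 x5 x1' : A) :
    Z m (x1 - x1') x2 x3 x4 x5 = Z m x1 x2 x3 x4 x5 - Z m x1' x2 x3 x4 x5 := by
  rw [sub_eq_add_neg, Z_add2, Z_neg2, ← sub_eq_add_neg]

theorem Z_add3 (m x1 x2 x3 x4 x5 x2' : A) :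
    Z m x1 (x2 + x2') x3 x4 x5 = Z m x1 x2 x3 x4 x5 + Z m x1 x2' x3 x4 x5 := by
  simp only [Z, mul_add, add_mul, smul_add, Th_add1, Th_add2, Th_add3, Th_add4, J_add1, J_add2, J_add3]
  abel

theorem Z_neg3 (m x1 x2 x3 x4 x5 : A) : Z m x1 (-x2) x3 x4 x5 = - Z m x1 x2 x3 x4 x5 := by
  simp only [Z, mul_neg, neg_mul, smul_neg, Th_neg1, Th_neg2, Th_neg3, Th_neg4, J_neg1, J_neg2, J_neg3]
  abel

theorem Z_smul3 {R : Type*} [CommRing R] [Module R A] [IsScalarTower R A A]
    [SMulCommClass R A A] (c : R) (m x1 x2 x3 x4 x5 : A) : Z m x1 (c • x2) x3 x4 x5 = c • Z m x1 x2 x3 x4 x5 := by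
  simp only [Z, mul_smul_comm, smul_mul_assoc, smul_add, smul_sub, Th_smul1, Th_smul2, Th_smul3, Th_smul4, J_smul1, J_smul2, J_smul3]

theorem Z_zero3 (m x1 x3 x4 x5 : A) : Z m x1 0 x3 x4 x5 = 0 := by
  have h := Z_add3 m x1 0 x3 x4 x5 0
  rw [add_zero] at h
  exact left_eq_add.mp h

theorem Z_sub3 (m x1 x2 x3 x4 x5 x2' : A) :
    Z m x1 (x2 - x2') x3 x4 x5 = Z m x1 x2 x3 x4 x5 - Z m x1 x2' x3 x4 x5 := by
  rw [sub_eq_add_neg, Z_add3, Z_neg3, ← sub_eq_add_neg]

theorem Z_add4 (m x1 x2 x3 x4 x5 x3' : A) :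
    Z m x1 x2 (x3 + x3') x4 x5 = Z m x1 x2 x3 x4 x5 + Z m x1 x2 x3' x4 x5 := by
  simp only [Z, mul_add, add_mul, smul_add, Th_add1, Th_add2, Th_add3, Th_add4, J_add1, J_add2, J_add3]
  abel

theorem Z_neg4 (m x1 x2 x3 x4 x5 : A) : Z m x1 x2 (-x3) x4 x5 = - Z m x1 x2 x3 x4 x5 := by
  simp only [Z, mul_neg, neg_mul, smul_neg, Th_neg1, Th_neg2, Th_neg3, Th_neg4, J_neg1, J_neg2, J_neg3]
  abel

theorem Z_smul4 {R : Type*} [CommRing R] [Module R A] [IsScalarTower R A A]
    [SMulCommClass R A A] (c : R) (m x1 x2 x3 x4 x5 : A) : Z m x1 x2 (c • x3) x4 x5 = c • Z m x1 x2 x3 x4 x5 := by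
  simp only [Z, mul_smul_comm, smul_mul_assoc, smul_add, smul_sub, Th_smul1, Th_smul2, Th_smul3, Th_smul4, J_smul1, J_smul2, J_smul3]

theorem Z_zero4 (m x1 x2 x4 x5 : A) : Z m x1 x2 0 x4 x5 = 0 := by
  have h := Z_add4 m x1 x2 0 x4 x5 0
  rw [add_zero] at h
  exact left_eq_add.mp h

theorem Z_sub4 (m x1 x2 x3 x4 x5 x3' : A) :
    Z m x1 x2 (x3 - x3') x4 x5 = Z m x1 x2 x3 x4 x5 - Z m x1 x2 x3' x4 x5 := by
  rw [sub_eq_add_neg, Z_add4, Z_neg4, ← sub_eq_add_neg]

theorem Z_add5 (m x1 x2 x3 x4 x5 x4' : A) :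
    Z m x1 x2 x3 (x4 + x4') x5 = Z m x1 x2 x3 x4 x5 + Z m x1 x2 x3 x4' x5 := by
  simp only [Z, mul_add, add_mul, smul_add, Th_add1, Th_add2, Th_add3, Th_add4, J_add1, J_add2, J_add3]
  abel

theorem Z_neg5 (m x1 x2 x3 x4 x5 : A) : Z m x1 x2 x3 (-x4) x5 = - Z m x1 x2 x3 x4 x5 := by
  simp only [Z, mul_neg, neg_mul, smul_neg, Th_neg1, Th_neg2, Th_neg3, Th_neg4, J_neg1, J_neg2, J_neg3]
  abel

theorem Z_smul5 {R : Type*} [CommRing R] [Module R A] [IsScalarTower R A A]
    [SMulCommClass R A A] (c : R) (m x1 x2 x3 x4 x5 : A) : Z m x1 x2 x3 (c • x4) x5 = c • Z m x1 x2 x3 x4 x5 := by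
  simp only [Z, mul_smul_comm, smul_mul_assoc, smul_add, smul_sub, Th_smul1, Th_smul2, Th_smul3, Th_smul4, J_smul1, J_smul2, J_smul3]

theorem Z_zero5 (m x1 x2 x3 x5 : A) : Z m x1 x2 x3 0 x5 = 0 := by
  have h := Z_add5 m x1 x2 x3 0 x5 0
  rw [add_zero] at h
  exact left_eq_add.mp h

theorem Z_sub5 (m x1 x2 x3 x4 x5 x4' : A) :
    Z m x1 x2 x3 (x4 - x4') x5 = Z m x1 x2 x3 x4 x5 - Z m x1 x2 x3 x4' x5 := by
  rw [sub_eq_add_neg, Z_add5, Z_neg5, ← sub_eq_add_neg]

theorem Z_add6 (m x1 x2 x3 x4 x5 x5' : A) :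
    Z m x1 x2 x3 x4 (x5 + x5') = Z m x1 x2 x3 x4 x5 + Z m x1 x2 x3 x4 x5' := by
  simp only [Z, mul_add, add_mul, smul_add, Th_add1, Th_add2, Th_add3, Th_add4, J_add1, J_add2, J_add3]
  abel

theorem Z_neg6 (m x1 x2 x3 x4 x5 : A) : Z m x1 x2 x3 x4 (-x5) = - Z m x1 x2 x3 x4 x5 := by
  simp only [Z, mul_neg, neg_mul, smul_neg, Th_neg1, Th_neg2, Th_neg3, Th_neg4, J_neg1, J_neg2, J_neg3]
  abel

theorem Z_smul6 {R : Type*} [CommRing R] [Module R A] [IsScalarTower R A A]
    [SMulCommClass R A A] (c : R) (m x1 x2 x3 x4 x5 : A) : Z m x1 x2 x3 x4 (c • x5) = c • Z m x1 x2 x3 x4 x5 := by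
  simp only [Z, mul_smul_comm, smul_mul_assoc, smul_add, smul_sub, Th_smul1, Th_smul2, Th_smul3, Th_smul4, J_smul1, J_smul2, J_smul3]

theorem Z_zero6 (m x1 x2 x3 x4 : A) : Z m x1 x2 x3 x4 0 = 0 := by
  have h := Z_add6 m x1 x2 x3 x4 0 0
  rw [add_zero] at h
  exact left_eq_add.mp h

theorem Z_sub6 (m x1 x2 x3 x4 x5 x5' : A) :
    Z m x1 x2 x3 x4 (x5 - x5') = Z m x1 x2 x3 x4 x5 - Z m x1 x2 x3 x4 x5' := by
  rw [sub_eq_add_neg, Z_add6, Z_neg6, ← sub_eq_add_neg]

end Pool.Agent.MalF
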