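import Pool.Agent.MalF.Id0
import Pool.Agent.MalF.Lin

/-!
# Symmetries of `J`, `t`, `e`, `om`, `Th`, `Z`, `X`
-/

set_option linter.unusedSimpArgs false

namespace Pool.Agent.MalF

section
variable {A : Type*} [NonUnitalNonAssocRing A] [IsMalcev A]

theorem anti (x y : A) : x * y = -(y * x) := by
  have h := IsMalcev.self_mul (x + y)
  have h1 := IsMalcev.self_mul x
  have h2 := IsMalcev.self_mul y
  rw [mul_add, add_mul, add_mul, h1, h2, zero_add, add_zero] at h
  rw [eq_neg_iff_add_eq_zero, add_comm]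
  exact h

theorem J_swap12 (x y z : A) : J y x z = - J x y z := by
  simp only [J]
  rw [anti y x, anti x z, anti z y]
  simp only [neg_mul]
  abel

theorem J_swap23 (x y z : A) : J x z y = - J x y z := by
  simp only [J]
  rw [anti x z, anti z y, anti y x]
  simp only [neg_mul]
  abel

theorem J_cyc (x y z : A) : J y z x = J x y z := by
  rw [J_swap23 y x z, J_swap12, neg_neg]

theorem J_swap13 (x y z : A) : J z y x = - J x y z := by
  rw [J_swap12 y z x, J_cyc]

theorem J_self12 (x z : A) : J x x z = 0 := by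
  simp only [J, IsMalcev.self_mul, zero_mul, zero_add]
  rw [anti z x, neg_mul]
  abel

theorem t_swap12 (x y z : A) : t y x z = - t x y z := by
  simp only [t]
  rw [anti y x, anti x z, anti z y]
  simp only [neg_mul, smul_neg]
  abel

theorem e_swap34 (w z y x : A) : e w z x y = - e w z y x := by
  simp only [e]
  rw [t_swap12 x w z, t_swap12 x y z, t_swap12 w y z]
  simp only [neg_mul]
  abel

/-- `2 t(x,y,z) u = e(x,z|y,u) - e(y,z|x,u)`. -/
theorem tt (x y z u : A) : (2 : ℤ) • (t x y z * u) = e x z y u - e y z x u := by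
  simp only [e]
  rw [t_swap12 x y z, t_swap12 y u z]
  simp only [neg_mul]
  abel

theorem om_swap34 (w z p q r : A) : om w z q p r = - om w z p q r := by
  simp only [om]
  rw [t_swap12 q w z, t_swap12 q p z, t_swap12 w p z, J_neg1, J_neg1, J_neg1]
  abel

end

section
variable {A : Type*} [NonUnitalNonAssocRing A] [IsMalcev A] [TF A]

/-- two_Jt0 -/
theorem two_Jt0 (x y z q r : A) :
    (2 : ℤ) • (J (t x y z) q r) - (om x z y q r) + (om y z x q r) = 0 := by
  have h := engine0 5 (Pol.add (Pol.sub (Pol.smul (2) (Pol.J (Pol.t (Pol.var 0) (Pol.var 1) (Pol.var 2)) (Pol.var 3) (Pol.var 4))) (Pol.om (Pol.var 0) (Pol.var 2) (Pol.var 1) (Pol.var 3) (Pol.var 4))) (Pol.om (Pol.var 1) (Pol.var 2) (Pol.var 0) (Pol.var 3) (Pol.var 4)))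
    1 [] (by decide +kernel) (by decide) (by decide +kernel)
    (fun i => [x, y, z, q, r].getD i 0)
  simp only [evP_var, evP_smul, evP_mul, evP_add, evP_sub, evP_J, evP_t, evP_e, evP_om, evP_X, evP_l, evP_Th, evP_Z] at h
  exact h

/-- `2 J(t(x,y,z),q,r) = om(x,z|y,q,r) - om(y,z|x,q,r)`. -/
theorem two_Jt (x y z q r : A) :
    (2 : ℤ) • J (t x y z) q r = om x z y q r - om y z x q r := by
  have h := two_Jt0 x y z q r
  rw [sub_add, sub_eq_zero] at h
  exact h

theorem e_symm (w z y x : A) : e w z y x = e z w y x := sub_eq_zero.1 (id_E1 w z y x)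

theorem om_symm (w z p q r : A) : om w z p q r = om z w p q r := sub_eq_zero.1 (id_E2s w z p q r)

theorem om_swap35 (w z p q r : A) : om w z r q p = - om w z p q r := by
  rw [eq_neg_iff_add_eq_zero, add_comm]
  exact id_E2a w z p q r

theorem om_swap45 (w z p q r : A) : om w z p r q = - om w z p q r := by
  rw [om_swap34 w z r p q, om_swap35 w z q p r, om_swap34 w z p q r, neg_neg]

theorem Th_swap34 (m x y z : A) : Th m x z y = - Th m x y z := by
  rw [eq_neg_iff_add_eq_zero, add_comm]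
  exact id_E3 m x y z

theorem Th_swap23 (m x y z : A) : Th m y x z = - Th m x y z := by
  simp only [Th]
  rw [J_swap23 m x y, J_swap23 (m * z) x y, neg_mul]
  abel

theorem X_swap34 (w z y x q r : A) : X w z x y q r = - X w z y x q r := by
  simp only [X]
  rw [e_swap34, anti x y, J_neg1, om_neg3]
  abel

theorem X_swap56 (w z y x q r : A) : X w z y x r q = - X w z y x q r := by
  simp only [X]
  rw [J_swap23, om_swap45]
  abel

theorem X_symm (w z y x q r : A) : X w z y x q r = X z w y x q r := by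
  simp only [X]
  rw [e_symm w z y x, om_symm w z]

theorem l_swap34 (w z y x u : A) : l w z x y u = - l w z y x u := by
  simp only [l]
  rw [e_swap34, anti x y, e_neg3, neg_mul]
  abel

theorem l_symm (w z y x u : A) : l w z y x u = l z w y x u := by
  simp only [l]
  rw [e_symm w z y x, e_symm w z (y * x) u]

theorem Z_swap23 (m x1 x2 x3 x4 x5 : A) : Z m x2 x1 x3 x4 x5 = - Z m x1 x2 x3 x4 x5 := by
  simp only [Z]
  rw [J_swap12 x1 x2 x3, J_swap12 x1 x2 x4, J_swap12 x1 x2 x5, Th_swap34 m (J x3 x4 x5) x1 x2]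
  simp only [Th_neg2]
  abel

theorem Z_swap34 (m x1 x2 x3 x4 x5 : A) : Z m x1 x3 x2 x4 x5 = - Z m x1 x2 x3 x4 x5 := by
  simp only [Z]
  rw [J_swap23 x1 x2 x3, Th_swap34 m (J x1 x4 x5) x2 x3, J_swap12 x2 x3 x4, J_swap12 x2 x3 x5]
  simp only [Th_neg2]
  abel

theorem Z_swap45 (m x1 x2 x3 x4 x5 : A) : Z m x1 x2 x4 x3 x5 = - Z m x1 x2 x3 x4 x5 := by
  simp only [Z]
  rw [Th_swap34 m (J x1 x2 x5) x3 x4, J_swap23 x1 x3 x4, J_swap23 x2 x3 x4, J_swap12 x3 x4 x5]
  simp only [Th_neg2]
  abel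

theorem Z_swap56 (m x1 x2 x3 x4 x5 : A) : Z m x1 x2 x3 x5 x4 = - Z m x1 x2 x3 x4 x5 := by
  simp only [Z]
  rw [Th_swap34 m (J x1 x2 x3) x4 x5, J_swap23 x1 x4 x5, J_swap23 x2 x4 x5, J_swap23 x3 x4 x5]
  simp only [Th_neg2]
  abel

end

end Pool.Agent.MalF
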