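import Pool.Agent.MalF.EngX
import Pool.Agent.MalF.EngP
import Pool.Agent.MalF.Swap

/-!
# Identity A2: `Z(m;x..)aa - 2 Z(ma;x..)a + Z((ma)a;x..) = 0`
-/

set_option maxRecDepth 100000
set_option linter.unusedSimpArgs false

namespace Pool.Agent.MalF

open Tr

variable {A : Type*} [NonUnitalNonAssocRing A] [IsMalcev A] [TF A]

/-- Certificate. -/
def cert_id_A2 : List Inst :=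
  [⟨-10327820, v 2, v 2, v 2, v 0, [v 2, v 1, v 1, v 2]⟩,
  ⟨14187596, v 2, v 2, v 2, v 0, [m (v 2) (v 1), v 1, v 2]⟩,
  ⟨707904, v 2, v 1, m (m (m (m (v 2) (v 2)) (v 0)) (v 2)) (v 2), v 1, []⟩,
  ⟨425592, v 2, v 1, v 1, m (m (m (m (v 2) (v 2)) (v 0)) (v 2)) (v 2), []⟩,
  ⟨-670150, v 2, v 2, v 2, v 0, [v 2, v 2, v 1, v 1]⟩,
  ⟨-1598640, v 2, v 2, v 2, v 0, [v 2, m (v 2) (v 1), v 1]⟩,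
  ⟨534592, v 2, v 1, m (m (m (v 2) (v 2)) (m (v 2) (v 0))) (v 2), v 1, []⟩,
  ⟨99720, v 2, v 1, v 1, m (m (m (v 2) (v 2)) (m (v 2) (v 0))) (v 2), []⟩,
  ⟨-4209808, v 2, v 2, v 2, m (m (v 2) (v 0)) (v 2), [v 1, v 1]⟩,
  ⟨2303110, v 2, v 2, v 2, m (v 2) (v 0), [v 2, v 1, v 1]⟩,
  ⟨-99720, v 2, v 2, v 2, m (v 2) (v 0), [v 1, m (v 2) (v 1)]⟩,
  ⟨-4603260, v 2, v 2, v 2, m (v 2) (v 0), [m (v 2) (v 1), v 1]⟩,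
  ⟨-2590382, v 2, v 2, v 2, m (v 2) (v 0), [v 1, v 1, v 2]⟩,
  ⟨14565396, m (m (v 2) (v 2)) (v 2), v 1, v 1, m (v 2) (v 0), [v 2]⟩,
  ⟨805208, v 2, v 1, m (m (m (v 2) (v 0)) (v 2)) (m (v 2) (v 2)), v 1, []⟩,
  ⟨936584, v 2, v 1, v 1, m (m (m (v 2) (v 0)) (v 2)) (m (v 2) (v 2)), []⟩,
  ⟨-264512, m (v 2) (v 2), v 1, v 1, m (m (m (v 2) (v 0)) (v 2)) (v 2), []⟩,
  ⟨33633856, v 2, v 2, m (v 2) (v 1), v 0, [v 2, v 1, v 2]⟩,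
  ⟨9181142, v 2, m (v 2) (v 2), v 0, v 1, [v 2, v 1, v 2]⟩,
  ⟨5121236, v 2, v 2, v 0, v 1, [v 2, v 2, v 1, v 2]⟩,
  ⟨30785824, v 2, v 2, v 0, m (v 2) (v 1), [v 2, v 1, v 2]⟩,
  ⟨21305098, v 2, v 2, m (v 2) (v 0), v 1, [v 2, v 1, v 2]⟩,
  ⟨9181142, v 2, v 2, v 2, v 0, [v 1, v 2, v 1, v 2]⟩,
  ⟨28987156, v 2, v 2, m (v 2) (v 1), m (v 2) (v 0), [v 1, v 2]⟩,
  ⟨2383644, v 2, v 2, v 1, m (m (v 2) (v 0)) (v 2), [v 1, v 2]⟩,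
  ⟨12360856, m (v 2) (v 2), v 1, v 1, m (m (v 2) (v 0)) (v 2), [v 2]⟩,
  ⟨-489260, v 2, v 1, m (m (m (v 2) (v 2)) (v 0)) (m (v 2) (v 2)), v 1, []⟩,
  ⟨-631228, v 2, v 1, v 1, m (m (m (v 2) (v 2)) (v 0)) (m (v 2) (v 2)), []⟩,
  ⟨-665820, v 2, v 2, v 2, m (m (v 2) (v 2)) (v 0), [v 1, v 1]⟩,
  ⟨323776, v 2, m (v 2) (v 2), m (v 2) (v 2), v 0, [v 1, v 1]⟩,
  ⟨1290070, v 2, v 2, v 2, m (v 2) (v 2), [v 0, v 1, v 1]⟩,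
  ⟨2919763, m (v 2) (v 2), v 1, m (m (v 2) (v 2)) (v 1), v 0, [v 2]⟩,
  ⟨20168761, m (v 2) (v 2), m (v 2) (v 2), v 1, m (v 1) (v 0), [v 2]⟩,
  ⟨7168805, m (v 2) (v 2), m (v 2) (v 2), m (v 1) (v 0), v 1, [v 2]⟩,
  ⟨-229024, m (v 2) (v 2), v 1, v 1, m (m (m (v 2) (v 2)) (v 0)) (v 2), []⟩,
  ⟨270004, v 2, v 2, v 2, v 0, [v 1, m (m (v 2) (v 2)) (v 1)]⟩,
  ⟨-1127648, v 2, v 2, v 2, v 0, [m (m (v 2) (v 2)) (v 1), v 1]⟩,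
  ⟨13668783, m (v 2) (v 2), v 1, v 1, v 0, [m (v 2) (v 2), v 2]⟩,
  ⟨-205012, m (m (v 2) (v 2)) (v 2), v 1, v 1, m (m (v 2) (v 2)) (v 0), []⟩,
  ⟨1963460, m (v 2) (v 2), v 1, m (m (v 2) (v 0)) (v 2), v 1, [v 2]⟩,
  ⟨3789262, v 2, v 2, v 0, m (v 2) (v 2), [v 1, v 1, v 2]⟩,
  ⟨-10327820, v 2, m (v 2) (v 2), v 2, v 0, [v 1, v 1, v 2]⟩,
  ⟨500118, v 2, v 2, m (m (v 2) (v 2)) (v 1), v 0, [v 1, v 2]⟩,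
  ⟨-14170330, v 2, v 2, v 2, v 1, [v 0, v 2, v 1, v 2]⟩,
  ⟨2529000, m (v 2) (v 2), m (v 2) (v 2), v 1, v 0, [v 1, v 2]⟩,
  ⟨-30542496, v 2, v 2, m (m (v 2) (v 1)) (v 2), v 0, [v 1, v 2]⟩,
  ⟨6109936, v 2, v 2, v 2, m (v 2) (v 1), [v 0, v 1, v 2]⟩,
  ⟨2658596, v 2, v 2, v 1, m (v 2) (v 2), [v 0, v 1, v 2]⟩,
  ⟨-1433044, v 2, v 2, v 2, v 1, [m (v 2) (v 0), v 1, v 2]⟩,
  ⟨-30542496, v 2, v 2, m (v 2) (v 0), m (v 2) (v 1), [v 1, v 2]⟩,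
  ⟨26582328, v 2, v 2, m (m (v 2) (v 0)) (v 2), v 1, [v 1, v 2]⟩,
  ⟨932926, v 2, v 2, v 0, m (m (v 2) (v 2)) (v 1), [v 1, v 2]⟩,
  ⟨-15939486, v 2, v 2, v 1, m (v 2) (v 0), [v 2, v 1, v 2]⟩,
  ⟨-422222, v 2, v 2, v 1, m (m (v 2) (v 2)) (v 0), [v 1, v 2]⟩,
  ⟨-2108478, v 2, m (v 2) (v 2), v 1, m (v 2) (v 0), [v 1, v 2]⟩,
  ⟨-7308030, v 2, v 1, v 2, m (v 2) (v 0), [v 2, v 1, v 2]⟩,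
  ⟨-8457734, v 2, v 2, v 2, m (m (v 2) (v 0)) (v 1), [v 1, v 2]⟩,
  ⟨5348307, v 2, m (v 2) (v 2), v 2, m (v 1) (v 0), [v 1, v 2]⟩,
  ⟨5348307, v 2, v 2, v 2, m (v 1) (v 0), [v 2, v 1, v 2]⟩,
  ⟨-190234, m (v 2) (v 2), v 1, v 1, m (m (v 2) (v 2)) (v 0), [v 2]⟩,
  ⟨5073087, v 2, v 2, v 2, m (m (v 1) (v 0)) (v 2), [v 1, v 2]⟩,
  ⟨3884148, m (v 2) (v 2), m (v 2) (v 2), v 0, v 1, [v 1, v 2]⟩,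
  ⟨5448763, v 2, v 2, v 0, v 1, [m (v 2) (v 2), v 1, v 2]⟩,
  ⟨-5448763, v 2, v 2, v 1, v 0, [m (v 2) (v 2), v 1, v 2]⟩,
  ⟨5448763, v 2, v 1, v 2, v 0, [m (v 2) (v 2), v 1, v 2]⟩,
  ⟨14117082, m (m (m (v 2) (v 2)) (v 2)) (v 2), v 1, v 1, v 0, [v 2]⟩,
  ⟨22706890, v 2, m (v 2) (v 2), v 0, m (v 2) (v 1), [v 1, v 2]⟩,
  ⟨-8519294, v 2, m (m (v 2) (v 2)) (v 2), v 1, v 0, [v 1, v 2]⟩,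
  ⟨1725670, v 2, m (v 2) (v 2), v 2, v 1, [v 0, v 1, v 2]⟩,
  ⟨1725670, v 2, v 2, v 2, v 1, [v 2, v 0, v 1, v 2]⟩,
  ⟨-2404828, v 2, v 1, v 2, m (m (v 2) (v 0)) (v 2), [v 1, v 2]⟩,
  ⟨9995927, v 2, v 2, m (m (v 2) (v 2)) (v 1), v 1, [v 0, v 2]⟩,
  ⟨-9298389, v 2, m (v 2) (v 2), v 1, v 1, [v 2, v 0, v 2]⟩,
  ⟨160840, v 2, v 2, v 2, v 1, [v 1, v 2, v 0, v 2]⟩,
  ⟨3310319, v 2, v 2, v 1, m (m (v 2) (v 2)) (v 1), [v 0, v 2]⟩,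
  ⟨7990512, v 2, v 2, v 2, m (v 2) (v 1), [v 1, v 0, v 2]⟩,
  ⟨-5946, v 2, v 2, v 2, v 1, [m (v 2) (v 1), v 0, v 2]⟩,
  ⟨-5946, v 2, m (m (v 2) (v 2)) (v 2), v 1, v 1, [v 0, v 2]⟩,
  ⟨-19870190, v 2, v 2, m (v 2) (v 1), m (v 2) (v 1), [v 0, v 2]⟩,
  ⟨-13882120, v 2, v 2, v 1, v 1, [v 2, v 2, v 0, v 2]⟩,
  ⟨-1019218, v 2, v 2, m (v 2) (v 1), v 1, [v 2, v 0, v 2]⟩,
  ⟨5988070, v 2, v 2, v 1, m (v 2) (v 1), [v 2, v 0, v 2]⟩,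
  ⟨-15983997, v 2, v 2, m (m (v 2) (v 1)) (v 2), v 1, [v 0, v 2]⟩,
  ⟨1468717, v 2, v 2, v 1, m (v 2) (v 2), [v 1, v 0, v 2]⟩,
  ⟨-9995927, v 2, v 2, v 1, m (m (v 2) (v 1)) (v 2), [v 0, v 2]⟩,
  ⟨9995927, v 2, v 1, v 2, m (m (v 2) (v 1)) (v 2), [v 0, v 2]⟩,
  ⟨2933203, v 2, m (v 2) (v 1), v 2, m (v 2) (v 1), [v 0, v 2]⟩,
  ⟨-10156767, v 2, v 1, m (v 2) (v 2), v 1, [v 2, v 0, v 2]⟩,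
  ⟨-9901071, v 2, v 2, v 2, m (m (v 2) (v 1)) (v 1), [v 0, v 2]⟩,
  ⟨-2933203, v 2, v 2, v 1, v 1, [m (v 2) (v 2), v 0, v 2]⟩,
  ⟨-533725, m (v 2) (v 2), m (v 2) (v 2), v 1, v 1, [v 0, v 2]⟩,
  ⟨-1471690, v 2, v 2, v 2, v 1, [v 2, v 1, v 0, v 2]⟩,
  ⟨-9465175, v 2, v 1, m (m (v 2) (v 2)) (v 2), v 1, [v 0, v 2]⟩,
  ⟨7993485, v 2, m (v 2) (v 2), v 2, v 1, [v 1, v 0, v 2]⟩,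
  ⟨-6499978, v 2, v 2, v 1, m (v 1) (v 0), [m (v 2) (v 2), v 2]⟩,
  ⟨8968416, v 2, v 1, v 0, v 1, [v 2, m (v 2) (v 2), v 2]⟩,
  ⟨-2131534, v 2, v 1, v 1, v 0, [v 2, m (v 2) (v 2), v 2]⟩,
  ⟨10749020, v 2, v 2, v 0, v 1, [v 1, m (v 2) (v 2), v 2]⟩,
  ⟨6499978, v 2, v 1, v 2, m (v 1) (v 0), [m (v 2) (v 2), v 2]⟩,
  ⟨6499978, v 2, v 2, m (v 1) (v 0), v 1, [m (v 2) (v 2), v 2]⟩,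
  ⟨10749020, v 2, v 1, v 2, v 0, [v 1, m (v 2) (v 2), v 2]⟩,
  ⟨-10749020, v 2, v 2, v 1, v 0, [v 1, m (v 2) (v 2), v 2]⟩,
  ⟨10749020, m (v 2) (v 2), v 1, v 0, v 1, [m (v 2) (v 2), v 2]⟩,
  ⟨-460928, m (v 2) (v 2), m (v 2) (v 2), m (v 2) (v 1), v 0, [v 1]⟩,
  ⟨219956, m (v 2) (v 2), m (v 2) (v 2), v 1, v 0, [m (v 2) (v 1)]⟩,
  ⟨-456409, v 2, v 2, v 2, m (v 2) (v 2), [m (m (v 1) (v 0)) (v 1)]⟩,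
  ⟨-338672, m (v 2) (v 2), v 1, v 1, m (m (v 2) (v 2)) (m (v 2) (v 0)), []⟩,
  ⟨-2453240, m (v 2) (v 2), m (v 2) (v 2), m (v 2) (v 0), v 1, [v 1]⟩,
  ⟨-26939276, v 2, v 2, v 2, m (m (v 1) (v 0)) (v 1), [v 2, v 2]⟩,
  ⟨-8768532, v 2, v 2, m (m (v 2) (v 2)) (v 0), v 1, [v 1, v 2]⟩,
  ⟨8768532, v 2, m (v 2) (v 2), m (v 2) (v 1), v 0, [v 1, v 2]⟩,
  ⟨-15044984, v 2, m (v 2) (v 2), v 1, v 0, [v 2, v 1, v 2]⟩,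
  ⟨11879021, v 2, v 2, m (v 1) (v 0), m (v 2) (v 2), [v 1, v 2]⟩,
  ⟨13206140, v 2, v 2, v 2, m (m (m (v 1) (v 0)) (v 1)) (v 2), [v 2]⟩,
  ⟨7586368, m (m (m (v 2) (v 2)) (v 2)) (v 2), v 1, v 0, v 1, [v 2]⟩,
  ⟨15477792, v 2, v 2, v 1, v 0, [v 2, v 2, v 1, v 2]⟩,
  ⟨-120312, v 2, v 2, m (m (v 1) (v 0)) (v 1), m (v 2) (v 2), [v 2]⟩,
  ⟨-8653800, v 2, m (v 2) (v 2), v 2, m (m (v 1) (v 0)) (v 1), [v 2]⟩,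
  ⟨-8086146, v 2, m (v 2) (v 2), v 1, m (m (v 1) (v 0)) (v 2), [v 2]⟩,
  ⟨36015928, v 2, v 1, v 0, m (m (v 2) (v 2)) (v 1), [v 2, v 2]⟩,
  ⟨-29901640, v 2, v 1, v 2, m (v 1) (v 0), [v 2, v 2, v 2]⟩,
  ⟨-3968600, v 2, v 1, v 1, v 0, [v 2, v 2, v 2, v 2]⟩,
  ⟨5757328, v 2, v 1, m (v 2) (v 0), v 1, [v 2, v 2, v 2]⟩,
  ⟨-15247208, v 2, v 1, v 1, m (m (m (v 2) (v 2)) (v 0)) (v 2), [v 2]⟩,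
  ⟨14810588, v 2, v 2, v 2, v 0, [v 1, m (v 2) (v 1), v 2]⟩,
  ⟨-5757328, v 2, v 1, v 1, m (v 2) (v 0), [v 2, v 2, v 2]⟩,
  ⟨34535908, v 2, v 2, v 1, v 0, [v 1, v 2, v 2, v 2]⟩,
  ⟨-34535908, m (v 2) (v 2), v 1, v 0, v 1, [v 2, v 2, v 2]⟩,
  ⟨-30862548, v 2, v 2, m (v 2) (v 1), v 0, [v 1, v 2, v 2]⟩,
  ⟨-29256182, v 2, v 2, m (v 2) (v 0), v 1, [v 1, v 2, v 2]⟩,
  ⟨-16258042, m (v 2) (v 2), v 1, m (v 2) (v 0), v 1, [v 2, v 2]⟩,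
  ⟨29112972, m (v 2) (v 2), v 1, v 1, m (v 2) (v 0), [v 2, v 2]⟩,
  ⟨30862548, v 2, m (v 2) (v 2), v 0, v 1, [v 1, v 2, v 2]⟩,
  ⟨35646016, v 2, v 2, v 1, m (m (v 2) (v 1)) (v 0), [v 2, v 2]⟩,
  ⟨5170080, v 2, v 1, m (m (v 2) (v 2)) (v 0), v 1, [v 2, v 2]⟩,
  ⟨14317000, v 2, v 2, m (v 1) (v 0), v 1, [v 2, v 2, v 2]⟩,
  ⟨18042272, v 2, v 2, v 1, m (v 1) (v 0), [v 2, v 2, v 2]⟩,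
  ⟨1369763, v 2, v 2, v 2, m (m (m (v 2) (v 0)) (v 1)) (v 1), [v 2]⟩,
  ⟨-675434, m (m (v 2) (v 2)) (v 2), v 1, m (v 2) (v 0), v 1, [v 2]⟩,
  ⟨-61880380, v 2, v 2, v 1, m (m (v 1) (v 0)) (v 2), [v 2, v 2]⟩,
  ⟨-59223716, v 2, v 2, v 0, v 1, [v 2, v 1, v 2, v 2]⟩,
  ⟨-28594496, v 2, v 1, v 2, v 0, [m (v 2) (v 1), v 2, v 2]⟩,
  ⟨-14810588, v 2, v 1, v 1, m (m (v 2) (v 2)) (m (v 2) (v 0)), [v 2]⟩,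
  ⟨5170080, v 2, m (v 2) (v 2), v 1, v 0, [v 1, v 2, v 2]⟩,
  ⟨-38601868, v 2, v 2, m (m (v 1) (v 0)) (v 2), v 1, [v 2, v 2]⟩,
  ⟨22895032, v 2, v 2, v 1, v 0, [v 2, v 1, v 2, v 2]⟩,
  ⟨-18018980, m (m (v 2) (v 2)) (v 2), v 1, v 0, v 1, [v 2, v 2]⟩,
  ⟨-21000500, v 2, m (v 2) (v 2), m (v 1) (v 0), v 1, [v 2, v 2]⟩,
  ⟨13877116, v 2, v 2, v 2, m (v 1) (v 0), [v 1, v 2, v 2]⟩,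
  ⟨22184696, v 2, v 1, v 0, v 1, [m (v 2) (v 2), v 2, v 2]⟩,
  ⟨-21648074, m (v 2) (v 2), v 1, v 1, v 0, [v 2, v 2, v 2]⟩,
  ⟨22184696, v 2, v 1, v 2, m (m (v 2) (v 1)) (v 0), [v 2, v 2]⟩,
  ⟨37119552, v 2, v 2, m (v 2) (v 1), m (v 1) (v 0), [v 2, v 2]⟩,
  ⟨-21531772, v 2, v 1, m (v 2) (v 1), m (v 2) (v 0), [v 2, v 2]⟩,
  ⟨5161844, v 2, v 1, m (v 2) (v 1), v 0, [v 2, v 2, v 2]⟩,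
  ⟨-11981240, v 2, v 1, v 0, m (v 2) (v 1), [v 2, v 2, v 2]⟩,
  ⟨-5393072, v 2, v 2, m (m (v 2) (v 1)) (v 1), v 0, [v 2, v 2]⟩,
  ⟨5161844, v 2, v 2, v 1, v 1, [v 0, v 2, v 2, v 2]⟩,
  ⟨-21531772, v 2, v 2, v 1, v 1, [m (v 2) (v 0), v 2, v 2]⟩,
  ⟨5647744, v 2, v 1, m (v 2) (v 2), v 1, [v 0, v 2, v 2]⟩,
  ⟨6514244, v 2, m (v 2) (v 2), v 1, v 1, [v 0, v 2, v 2]⟩,
  ⟨7950816, v 2, v 1, m (m (v 2) (v 2)) (v 1), v 0, [v 2, v 2]⟩,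
  ⟨-14269780, v 2, v 2, v 2, v 1, [m (v 1) (v 0), v 2, v 2]⟩,
  ⟨-21775100, v 2, v 1, m (v 2) (v 0), m (v 2) (v 1), [v 2, v 2]⟩,
  ⟨-20111346, v 2, v 1, v 1, m (m (v 2) (v 2)) (v 0), [v 2, v 2]⟩,
  ⟨-21775100, v 2, v 2, v 0, v 1, [m (v 2) (v 1), v 2, v 2]⟩,
  ⟨22184696, v 2, v 1, m (v 1) (v 0), m (v 2) (v 2), [v 2, v 2]⟩,
  ⟨47721184, v 2, v 2, v 2, v 0, [v 1, v 1, v 2, v 2]⟩,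
  ⟨9959148, v 2, v 2, v 1, m (m (m (v 1) (v 0)) (v 2)) (v 2), [v 2]⟩,
  ⟨3725272, v 2, v 1, v 0, v 1, [v 2, v 2, v 2, v 2]⟩,
  ⟨10664054, v 2, v 2, v 2, v 0, [m (m (v 2) (v 1)) (v 1), v 2]⟩,
  ⟨-4847222, v 2, m (v 2) (v 2), m (v 2) (v 0), v 1, [v 1, v 2]⟩,
  ⟨-14810588, v 2, v 2, m (v 2) (v 1), v 0, [m (v 2) (v 1), v 2]⟩,
  ⟨14810588, v 2, m (v 2) (v 2), v 0, v 1, [m (v 2) (v 1), v 2]⟩,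
  ⟨-22801780, v 2, v 2, v 0, v 1, [v 2, m (v 2) (v 1), v 2]⟩,
  ⟨-11042236, v 2, v 2, v 1, m (m (m (v 2) (v 1)) (v 0)) (v 2), [v 2]⟩,
  ⟨2172198, v 2, v 2, v 1, m (m (v 2) (v 2)) (m (v 1) (v 0)), [v 2]⟩,
  ⟨23713500, v 2, v 2, m (v 2) (v 1), m (m (v 1) (v 0)) (v 2), [v 2]⟩,
  ⟨3451604, v 2, v 2, m (m (m (v 2) (v 1)) (v 1)) (v 2), v 0, [v 2]⟩,
  ⟨-7925100, v 2, v 2, v 0, m (m (v 2) (v 1)) (v 1), [v 2, v 2]⟩,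
  ⟨1606366, v 2, v 1, v 2, m (v 2) (v 0), [v 1, v 2, v 2]⟩,
  ⟨8584554, v 2, v 2, v 1, m (v 2) (v 0), [v 1, v 2, v 2]⟩,
  ⟨7620736, v 2, v 2, m (v 2) (v 1), v 1, [v 0, v 2, v 2]⟩,
  ⟨1436572, v 2, v 2, v 1, m (v 2) (v 1), [v 0, v 2, v 2]⟩,
  ⟨1436572, v 2, v 2, v 1, v 1, [v 2, v 0, v 2, v 2]⟩,
  ⟨-38053708, v 2, v 1, v 2, v 0, [v 2, v 1, v 2, v 2]⟩,
  ⟨16858636, m (m (v 2) (v 2)) (v 2), v 1, v 1, v 0, [v 2, v 2]⟩,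
  ⟨-28778580, v 2, v 1, v 2, v 0, [v 1, v 2, v 2, v 2]⟩,
  ⟨-28778580, v 2, v 2, v 0, v 1, [v 1, v 2, v 2, v 2]⟩,
  ⟨-17693776, v 2, v 2, v 1, m (m (m (v 2) (v 0)) (v 2)) (v 1), [v 2]⟩,
  ⟨10190920, v 2, v 1, m (m (v 2) (v 0)) (v 2), v 1, [v 2, v 2]⟩,
  ⟨-9059976, v 2, v 1, v 1, m (m (v 2) (v 0)) (v 2), [v 2, v 2]⟩,
  ⟨5477890, v 2, v 1, m (m (v 2) (v 2)) (m (v 2) (v 0)), v 1, [v 2]⟩,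
  ⟨22184696, v 2, v 1, v 1, v 0, [m (v 2) (v 2), v 2, v 2]⟩,
  ⟨-4996842, v 2, v 1, m (m (m (v 2) (v 2)) (v 0)) (v 2), v 1, [v 2]⟩,
  ⟨-21850828, v 2, m (v 2) (v 2), v 1, m (v 1) (v 0), [v 2, v 2]⟩,
  ⟨-40030428, v 2, v 2, m (m (v 2) (v 0)) (v 1), v 1, [v 2, v 2]⟩,
  ⟨-30304500, v 2, v 2, v 1, m (m (v 2) (v 0)) (v 1), [v 2, v 2]⟩,
  ⟨-5434036, v 2, v 1, v 2, m (m (v 2) (v 0)) (v 1), [v 2, v 2]⟩,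
  ⟨-1679900, v 2, v 1, v 0, m (m (v 2) (v 1)) (v 2), [v 2, v 2]⟩,
  ⟨-7991192, v 2, v 2, v 1, m (v 2) (v 0), [m (v 2) (v 1), v 2]⟩,
  ⟨-14567260, v 2, v 1, v 2, v 0, [v 2, m (v 2) (v 1), v 2]⟩,
  ⟨-3787085, v 2, v 2, v 1, m (m (m (v 2) (v 2)) (v 0)) (v 1), [v 2]⟩,
  ⟨9986456, v 2, v 2, m (m (v 2) (v 1)) (v 2), m (v 1) (v 0), [v 2]⟩,
  ⟨-18837000, v 2, v 2, m (v 1) (v 0), m (v 2) (v 1), [v 2, v 2]⟩,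
  ⟨5245294, v 2, m (v 2) (v 2), v 2, v 1, [m (v 1) (v 0), v 2]⟩,
  ⟨-3366972, v 2, v 2, v 2, m (v 2) (v 1), [m (v 1) (v 0), v 2]⟩,
  ⟨6455268, v 2, v 2, v 1, m (v 2) (v 2), [m (v 1) (v 0), v 2]⟩,
  ⟨5245294, v 2, v 2, v 2, v 1, [v 2, m (v 1) (v 0), v 2]⟩,
  ⟨-7062724, v 2, v 2, v 1, v 1, [m (m (v 2) (v 0)) (v 2), v 2]⟩,
  ⟨9193910, v 2, v 1, m (v 2) (v 2), v 1, [m (v 2) (v 0), v 2]⟩,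
  ⟨5677008, v 2, m (v 2) (v 2), v 1, v 1, [m (v 2) (v 0), v 2]⟩,
  ⟨-9563822, v 2, v 2, v 2, v 1, [v 1, m (v 2) (v 0), v 2]⟩,
  ⟨13080724, v 2, v 2, m (v 2) (v 1), v 1, [m (v 2) (v 0), v 2]⟩,
  ⟨-28363372, v 2, v 2, v 2, v 1, [v 1, v 0, v 2, v 2]⟩,
  ⟨-2694408, v 2, v 2, m (m (m (v 2) (v 2)) (v 1)) (v 1), v 0, [v 2]⟩,
  ⟨-7103312, v 2, v 2, v 0, m (m (m (v 2) (v 1)) (v 1)) (v 2), [v 2]⟩,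
  ⟨7388272, v 2, v 2, v 1, v 1, [m (m (v 2) (v 2)) (v 0), v 2]⟩,
  ⟨-7388272, v 2, v 2, v 0, m (m (m (v 2) (v 1)) (v 2)) (v 1), [v 2]⟩,
  ⟨7404454, v 2, v 2, v 0, m (m (m (v 2) (v 2)) (v 1)) (v 1), [v 2]⟩,
  ⟨31920744, v 2, v 2, m (m (v 2) (v 1)) (v 0), v 1, [v 2, v 2]⟩,
  ⟨23189060, v 2, v 1, v 0, m (v 2) (v 2), [v 1, v 2, v 2]⟩,
  ⟨-8086146, v 2, v 2, v 2, v 1, [m (m (v 1) (v 0)) (v 2), v 2]⟩,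
  ⟨9625448, v 2, v 2, m (v 2) (v 0), m (m (v 2) (v 1)) (v 1), [v 2]⟩,
  ⟨-12527666, v 2, v 2, m (v 1) (v 0), m (m (v 2) (v 2)) (v 1), [v 2]⟩,
  ⟨-13029392, v 2, v 2, m (m (v 1) (v 0)) (v 2), m (v 2) (v 1), [v 2]⟩,
  ⟨14810588, v 2, v 1, v 2, m (v 2) (v 0), [m (v 2) (v 1), v 2]⟩,
  ⟨-2894104, v 2, v 2, m (m (m (v 1) (v 0)) (v 2)) (v 2), v 1, [v 2]⟩,
  ⟨-5312224, v 2, v 2, m (m (m (v 2) (v 0)) (v 1)) (v 2), v 1, [v 2]⟩,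
  ⟨15309896, v 2, v 2, m (m (m (v 2) (v 1)) (v 0)) (v 2), v 1, [v 2]⟩,
  ⟨-7035048, v 2, v 2, m (m (v 2) (v 2)) (m (v 1) (v 0)), v 1, [v 2]⟩,
  ⟨8513501, v 2, v 2, m (m (m (v 2) (v 2)) (v 0)) (v 1), v 1, [v 2]⟩,
  ⟨8060336, v 2, m (v 2) (v 2), v 1, m (m (v 2) (v 0)) (v 1), [v 2]⟩,
  ⟨3088296, v 2, m (v 2) (v 2), m (v 2) (v 1), m (v 1) (v 0), [v 2]⟩,
  ⟨10664054, v 2, m (v 2) (v 2), v 0, m (m (v 2) (v 1)) (v 1), [v 2]⟩,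
  ⟨-12043194, v 2, m (v 2) (v 2), m (v 1) (v 0), m (v 2) (v 1), [v 2]⟩,
  ⟨863914, v 2, v 2, v 2, m (v 1) (v 0), [m (v 2) (v 1), v 2]⟩,
  ⟨-2418120, v 2, m (v 2) (v 2), m (m (v 1) (v 0)) (v 2), v 1, [v 2]⟩,
  ⟨5648744, v 2, v 2, m (m (v 2) (v 2)) (v 1), m (v 1) (v 0), [v 2]⟩,
  ⟨8753924, v 2, m (v 2) (v 2), m (m (v 2) (v 1)) (v 0), v 1, [v 2]⟩,
  ⟨-10015996, v 2, v 2, m (v 2) (v 1), m (m (v 2) (v 1)) (v 0), [v 2]⟩,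
  ⟨-9393948, v 2, v 1, v 0, m (v 2) (v 2), [v 2, v 1, v 2]⟩,
  ⟨8753924, v 2, v 2, v 2, m (m (v 2) (v 1)) (v 0), [v 1, v 2]⟩,
  ⟨12907108, v 2, m (m (v 2) (v 2)) (v 2), v 1, m (v 1) (v 0), [v 2]⟩,
  ⟨-21498040, v 2, v 1, v 2, m (m (m (v 1) (v 0)) (v 2)) (v 2), [v 2]⟩,
  ⟨-21498040, v 2, v 1, v 2, m (m (m (v 2) (v 0)) (v 1)) (v 2), [v 2]⟩,
  ⟨21498040, v 2, v 1, v 2, m (m (m (v 2) (v 1)) (v 0)) (v 2), [v 2]⟩,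
  ⟨8012640, v 2, v 1, m (m (v 2) (v 1)) (v 2), v 0, [v 2, v 2]⟩,
  ⟨-3809911, v 2, v 1, v 2, m (m (m (v 2) (v 2)) (v 0)) (v 1), [v 2]⟩,
  ⟨-7062724, v 2, v 1, m (v 2) (v 1), m (m (v 2) (v 0)) (v 2), [v 2]⟩,
  ⟨-6819396, v 2, m (m (v 2) (v 1)) (v 2), v 0, m (v 2) (v 1), [v 2]⟩,
  ⟨6576068, v 2, m (v 2) (v 1), m (m (v 2) (v 1)) (v 2), v 0, [v 2]⟩,
  ⟨-6819396, v 2, v 2, v 1, v 0, [v 2, m (v 2) (v 1), v 2]⟩,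
  ⟨-6819396, v 2, v 2, v 0, m (v 2) (v 1), [m (v 2) (v 1), v 2]⟩,
  ⟨6819396, v 2, m (v 2) (v 2), v 1, v 0, [m (v 2) (v 1), v 2]⟩,
  ⟨-6819396, v 2, v 2, m (v 2) (v 0), v 1, [m (v 2) (v 1), v 2]⟩,
  ⟨-6132260, v 2, v 1, v 2, v 0, [m (m (v 2) (v 1)) (v 2), v 2]⟩,
  ⟨-6576068, v 2, v 2, v 0, v 1, [m (m (v 2) (v 1)) (v 2), v 2]⟩,
  ⟨-4734184, v 2, v 2, v 1, m (m (m (v 2) (v 0)) (v 1)) (v 2), [v 2]⟩,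
  ⟨2029876, v 2, v 1, v 2, v 0, [v 2, v 2, v 1, v 2]⟩,
  ⟨8535916, v 2, v 2, m (m (v 2) (v 1)) (v 0), m (v 2) (v 1), [v 2]⟩,
  ⟨6819396, v 2, v 1, v 0, m (v 2) (v 2), [m (v 2) (v 1), v 2]⟩,
  ⟨-7502856, v 2, v 2, m (m (m (v 2) (v 0)) (v 2)) (v 1), v 1, [v 2]⟩,
  ⟨6783096, v 2, m (v 2) (v 2), m (m (v 2) (v 0)) (v 1), v 1, [v 2]⟩,
  ⟨19301812, v 2, v 2, m (v 2) (v 1), m (m (v 2) (v 0)) (v 1), [v 2]⟩,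
  ⟨-1616980, v 2, v 1, v 2, m (m (m (v 2) (v 0)) (v 2)) (v 1), [v 2]⟩,
  ⟨7388272, v 2, v 1, m (v 2) (v 1), m (m (v 2) (v 2)) (v 0), [v 2]⟩,
  ⟨6819396, v 2, v 1, m (m (v 2) (v 1)) (v 2), m (v 2) (v 0), [v 2]⟩,
  ⟨-6195028, v 2, v 2, m (m (m (v 2) (v 1)) (v 2)) (v 1), v 0, [v 2]⟩,
  ⟨-5287276, v 2, v 2, m (m (v 2) (v 0)) (v 1), m (v 2) (v 1), [v 2]⟩,
  ⟨5677008, v 2, v 1, m (m (v 2) (v 2)) (v 1), m (v 2) (v 0), [v 2]⟩,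
  ⟨-6914668, v 2, v 2, v 2, v 1, [m (m (v 2) (v 0)) (v 1), v 2]⟩,
  ⟨-631284, v 2, m (m (v 2) (v 2)) (v 1), m (m (v 2) (v 2)) (v 1), v 0, []⟩,
  ⟨-13300300, v 2, v 1, m (m (m (v 2) (v 2)) (v 1)) (v 2), v 0, [v 2]⟩,
  ⟨19876136, v 2, v 1, m (m (v 2) (v 2)) (m (v 2) (v 1)), v 0, [v 2]⟩,
  ⟨369912, v 2, v 1, v 0, m (m (m (v 2) (v 2)) (v 1)) (v 2), [v 2]⟩,
  ⟨178240, v 2, v 2, v 2, v 1, [m (m (v 2) (v 1)) (v 0), v 2]⟩,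
  ⟨2971440, v 2, v 2, v 1, m (m (m (m (v 2) (v 1)) (v 0)) (v 2)) (v 2), []⟩,
  ⟨21184, v 2, v 1, m (m (m (v 2) (v 0)) (v 2)) (v 2), v 1, [v 2]⟩,
  ⟨333904, v 2, m (v 2) (v 2), v 1, m (m (v 2) (v 1)) (v 0), [v 2]⟩,
  ⟨-6973360, v 2, v 2, v 1, m (m (m (m (v 2) (v 0)) (v 1)) (v 2)) (v 2), []⟩,
  ⟨-2971440, v 2, v 2, v 1, m (m (m (m (v 1) (v 0)) (v 2)) (v 2)) (v 2), []⟩,
  ⟨2256364, v 2, v 2, m (m (v 2) (v 2)) (v 2), v 0, [v 1, v 1]⟩,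
  ⟨-1349598, v 2, v 2, v 0, m (v 2) (v 2), [v 2, v 1, v 1]⟩,
  ⟨1315006, v 2, m (v 2) (v 2), v 2, v 0, [v 2, v 1, v 1]⟩,
  ⟨-5919424, v 2, v 2, m (m (m (v 2) (v 0)) (v 2)) (v 2), v 1, [v 1]⟩,
  ⟨-827178, v 2, v 2, v 0, m (v 2) (v 2), [v 1, v 2, v 1]⟩,
  ⟨-827178, v 2, m (v 2) (v 2), v 2, v 0, [v 1, v 2, v 1]⟩,
  ⟨-827178, v 2, v 2, v 2, v 0, [v 2, v 1, v 2, v 1]⟩,
  ⟨-1528276, v 2, v 2, m (v 2) (v 0), m (v 2) (v 2), [v 1, v 1]⟩,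
  ⟨-2699266, v 2, v 2, v 2, m (v 2) (v 0), [v 1, v 2, v 1]⟩,
  ⟨-3613336, v 2, v 2, m (v 2) (v 0), m (v 2) (v 1), [v 2, v 1]⟩,
  ⟨-2324772, v 2, m (v 2) (v 2), v 1, m (v 2) (v 0), [v 2, v 1]⟩,
  ⟨-3314660, v 2, m (v 2) (v 2), m (v 2) (v 0), v 1, [v 2, v 1]⟩,
  ⟨4968152, v 2, v 2, v 1, m (m (v 2) (v 0)) (v 2), [v 2, v 1]⟩,
  ⟨3221592, v 2, v 2, m (v 2) (v 1), m (v 2) (v 0), [v 2, v 1]⟩,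
  ⟨-2324772, v 2, v 2, v 2, v 1, [m (v 2) (v 0), v 2, v 1]⟩,
  ⟨-598328, v 2, v 2, m (v 2) (v 0), v 1, [v 2, v 2, v 1]⟩,
  ⟨-1598640, v 2, v 2, v 0, m (v 2) (v 2), [m (v 2) (v 1), v 1]⟩,
  ⟨-1598640, v 2, m (v 2) (v 2), v 2, v 0, [m (v 2) (v 1), v 1]⟩,
  ⟨1379856, v 2, v 2, v 1, m (m (v 2) (v 2)) (m (v 2) (v 0)), [v 1]⟩,
  ⟨-910404, v 2, m (v 2) (v 2), v 2, v 1, [m (v 2) (v 0), v 1]⟩,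
  ⟨2142960, v 2, v 2, v 2, m (v 2) (v 1), [m (v 2) (v 0), v 1]⟩,
  ⟨-1093220, v 2, v 2, v 1, m (v 2) (v 2), [m (v 2) (v 0), v 1]⟩,
  ⟨-910404, v 2, v 2, v 2, v 1, [v 2, m (v 2) (v 0), v 1]⟩,
  ⟨1577264, v 2, v 2, m (m (v 2) (v 2)) (v 1), m (v 2) (v 0), [v 1]⟩,
  ⟨7071552, v 2, v 2, m (v 2) (v 1), m (m (v 2) (v 0)) (v 2), [v 1]⟩,
  ⟨-1791584, v 2, v 2, v 2, v 1, [m (m (v 2) (v 0)) (v 2), v 1]⟩,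
  ⟨5256392, v 2, v 2, v 0, m (v 2) (v 1), [v 2, v 2, v 1]⟩,
  ⟨2361080, v 2, v 2, m (v 2) (v 1), m (m (v 2) (v 2)) (v 0), [v 1]⟩,
  ⟨-1333580, v 2, v 2, m (m (v 2) (v 2)) (v 2), v 1, [v 0, v 1]⟩,
  ⟨17522, v 2, v 2, v 1, m (v 2) (v 2), [v 2, v 0, v 1]⟩,
  ⟨-1316058, v 2, m (v 2) (v 2), v 2, v 1, [v 2, v 0, v 1]⟩,
  ⟨1405664, v 2, v 2, v 0, m (m (v 2) (v 2)) (m (v 2) (v 1)), [v 1]⟩,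
  ⟨-3124240, v 2, v 2, m (v 2) (v 0), m (m (v 2) (v 1)) (v 2), [v 1]⟩,
  ⟨2255048, v 2, v 2, m (v 2) (v 0), m (m (v 2) (v 2)) (v 1), [v 1]⟩,
  ⟨414658, v 2, v 2, v 2, v 1, [v 2, v 2, v 0, v 1]⟩,
  ⟨-414658, v 2, v 2, v 2, m (v 2) (v 1), [v 2, v 0, v 1]⟩,
  ⟨-174220, v 2, v 2, v 2, v 0, [m (v 2) (v 1), v 2, v 1]⟩,
  ⟨-255800, m (v 2) (v 2), m (v 2) (v 2), v 1, v 0, [v 2, v 1]⟩,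
  ⟨580308, m (v 2) (v 2), m (v 2) (v 2), v 0, v 1, [v 2, v 1]⟩,
  ⟨-853548, v 2, m (v 2) (v 2), v 1, v 0, [v 2, v 2, v 1]⟩,
  ⟨255800, v 2, v 2, v 1, v 0, [m (v 2) (v 2), v 2, v 1]⟩,
  ⟨37564, v 2, m (v 2) (v 2), v 0, m (v 2) (v 1), [v 2, v 1]⟩,
  ⟨-255800, v 2, v 1, v 2, v 0, [m (v 2) (v 2), v 2, v 1]⟩,
  ⟨-211784, v 2, m (m (v 2) (v 2)) (v 2), v 1, v 0, [v 2, v 1]⟩,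
  ⟨284533, v 2, v 2, m (v 1) (v 0), m (v 2) (v 2), [v 2, v 1]⟩,
  ⟨1000025, v 2, m (v 2) (v 2), v 2, m (v 1) (v 0), [v 2, v 1]⟩,
  ⟨2177597, v 2, v 2, v 2, m (v 1) (v 0), [v 2, v 2, v 1]⟩,
  ⟨-876539, v 2, v 2, v 2, m (m (v 1) (v 0)) (v 2), [v 2, v 1]⟩,
  ⟨265824, v 2, v 2, v 1, m (m (v 2) (v 2)) (v 0), [v 2, v 1]⟩,
  ⟨-8380632, v 2, v 2, m (m (v 2) (v 1)) (v 2), v 0, [v 2, v 1]⟩,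
  ⟨2046660, v 2, v 2, m (m (v 2) (v 2)) (v 1), v 0, [v 2, v 1]⟩,
  ⟨-255800, v 2, v 2, v 0, v 1, [m (v 2) (v 2), v 2, v 1]⟩,
  ⟨169676, v 2, m (v 2) (v 2), v 0, v 1, [v 2, v 2, v 1]⟩,
  ⟨169676, v 2, v 2, v 2, v 0, [v 1, v 2, v 2, v 1]⟩,
  ⟨3651324, v 2, v 2, m (m (v 2) (v 2)) (m (v 2) (v 1)), v 0, [v 1]⟩,
  ⟨5520560, v 2, v 2, v 2, m (v 2) (v 1), [v 0, v 2, v 1]⟩,
  ⟨552484, v 2, m (v 2) (v 2), v 2, v 1, [v 0, v 2, v 1]⟩,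
  ⟨552484, v 2, v 2, v 2, v 1, [v 2, v 0, v 2, v 1]⟩,
  ⟨-1256588, v 2, v 2, m (m (v 2) (v 2)) (v 0), v 1, [v 2, v 1]⟩,
  ⟨2252512, v 2, v 2, v 0, m (m (v 2) (v 2)) (v 1), [v 2, v 1]⟩,
  ⟨6284828, v 2, m (v 2) (v 2), m (v 2) (v 1), v 0, [v 2, v 1]⟩,
  ⟨385456, v 2, m (v 2) (v 2), m (v 2) (v 2), v 1, [v 0, v 1]⟩,
  ⟨-2040728, v 2, v 2, m (m (m (v 2) (v 2)) (v 1)) (v 2), v 0, [v 1]⟩,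
  ⟨-657364, v 2, v 2, m (m (v 1) (v 0)) (v 2), m (v 2) (v 2), [v 1]⟩,
  ⟨-100988, v 2, v 2, m (m (v 2) (v 2)) (v 2), m (v 1) (v 0), [v 1]⟩,
  ⟨-2116362, v 2, m (v 2) (v 2), m (v 2) (v 2), m (v 1) (v 0), [v 1]⟩,
  ⟨2376466, v 2, v 2, v 2, m (m (v 2) (v 2)) (m (v 1) (v 0)), [v 1]⟩,
  ⟨-403068, v 2, v 2, v 2, v 1, [v 0, v 2, v 2, v 1]⟩,
  ⟨-1108675, v 2, v 2, v 2, m (v 2) (v 2), [m (v 1) (v 0), v 1]⟩,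
  ⟨3124240, v 2, v 2, m (m (m (v 2) (v 1)) (v 2)) (v 2), v 0, [v 1]⟩,
  ⟨-3124240, v 2, v 2, v 0, m (m (v 2) (v 1)) (v 2), [v 2, v 1]⟩,
  ⟨2667160, v 2, v 2, v 2, m (m (v 2) (v 1)) (v 2), [v 0, v 1]⟩,
  ⟨-1298536, v 2, v 2, v 2, m (m (v 2) (v 2)) (v 1), [v 0, v 1]⟩,
  ⟨-652604, v 2, v 2, m (m (v 2) (v 2)) (m (v 2) (v 0)), v 1, [v 1]⟩,
  ⟨4272560, v 2, v 2, m (v 2) (v 1), v 0, [v 2, v 2, v 1]⟩,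
  ⟨-885260, v 2, v 2, m (m (v 2) (v 0)) (v 1), m (v 2) (v 2), [v 1]⟩,
  ⟨200856, v 2, v 2, v 2, m (m (m (v 2) (v 0)) (v 2)) (v 1), [v 1]⟩,
  ⟨324508, v 2, v 2, v 2, m (m (m (v 2) (v 2)) (v 0)) (v 1), [v 1]⟩,
  ⟨-200856, v 2, v 1, v 2, m (m (v 2) (v 0)) (v 2), [v 2, v 1]⟩,
  ⟨675784, v 2, v 2, v 1, m (v 2) (v 0), [m (v 2) (v 2), v 1]⟩,
  ⟨-1653736, v 2, v 2, v 0, v 1, [v 2, m (v 2) (v 2), v 1]⟩,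
  ⟨-2146856, v 2, v 2, v 1, v 0, [v 2, m (v 2) (v 2), v 1]⟩,
  ⟨2566816, v 2, m (v 2) (v 2), v 0, v 1, [m (v 2) (v 2), v 1]⟩,
  ⟨-2781672, v 2, v 2, m (v 2) (v 0), v 1, [m (v 2) (v 2), v 1]⟩,
  ⟨2566816, v 2, v 2, v 2, v 0, [v 1, m (v 2) (v 2), v 1]⟩,
  ⟨-206416, v 2, v 2, v 2, v 0, [m (m (m (v 2) (v 2)) (v 1)) (v 1)]⟩,
  ⟨-675784, v 2, v 1, v 2, m (v 2) (v 0), [m (v 2) (v 2), v 1]⟩,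
  ⟨2329424, v 2, v 1, v 0, m (v 2) (v 2), [m (v 2) (v 2), v 1]⟩,
  ⟨-1360792, v 2, v 1, v 2, v 0, [v 2, m (v 2) (v 2), v 1]⟩,
  ⟨-2329424, m (v 2) (v 2), m (v 2) (v 2), v 0, m (v 2) (v 1), [v 1]⟩,
  ⟨2329424, v 2, m (v 2) (v 2), v 1, v 0, [m (v 2) (v 2), v 1]⟩,
  ⟨-1154292, v 2, v 2, v 2, m (m (m (v 2) (v 0)) (v 1)) (v 2), [v 1]⟩,
  ⟨-548136, v 2, v 2, m (m (m (v 2) (v 2)) (v 0)) (v 2), v 1, [v 1]⟩,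
  ⟨-474062, v 2, v 2, v 2, m (v 2) (v 2), [v 1, v 0, v 1]⟩,
  ⟨-885260, v 2, m (v 2) (v 2), v 2, m (m (v 2) (v 0)) (v 1), [v 1]⟩,
  ⟨885260, v 2, v 2, v 2, m (m (v 2) (v 0)) (v 1), [v 2, v 1]⟩,
  ⟨1838172, v 2, m (v 2) (v 2), v 2, m (m (v 2) (v 1)) (v 0), [v 1]⟩,
  ⟨-1838172, v 2, v 2, v 2, m (m (v 2) (v 1)) (v 0), [v 2, v 1]⟩,
  ⟨-890568, m (v 2) (v 2), m (v 2) (v 2), v 1, m (v 2) (v 0), [v 1]⟩,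
  ⟨1838172, v 2, v 2, m (m (v 2) (v 1)) (v 0), m (v 2) (v 2), [v 1]⟩,
  ⟨-1244348, v 2, v 2, v 2, m (m (m (v 2) (v 1)) (v 0)) (v 2), [v 1]⟩,
  ⟨-1445104, v 2, m (v 2) (v 2), v 1, m (m (v 2) (v 0)) (v 2), [v 1]⟩,
  ⟨22932, v 2, m (v 2) (v 2), v 1, m (m (v 2) (v 2)) (v 0), [v 1]⟩,
  ⟨1049740, v 2, m (v 2) (v 2), m (v 2) (v 1), m (v 2) (v 0), [v 1]⟩,
  ⟨8449232, v 2, v 2, m (m (v 2) (v 0)) (v 2), v 1, [v 2, v 1]⟩,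
  ⟨-1310216, v 2, m (v 2) (v 2), m (m (v 2) (v 2)) (v 1), v 0, [v 1]⟩,
  ⟨-2105888, v 2, v 2, m (v 2) (v 1), v 0, [m (v 2) (v 2), v 1]⟩,
  ⟨913080, v 2, v 2, v 2, v 1, [m (m (v 2) (v 2)) (v 0), v 1]⟩,
  ⟨-1127648, v 2, m (v 2) (v 2), v 0, m (m (v 2) (v 2)) (v 1), [v 1]⟩,
  ⟨-1105040, v 2, v 2, v 1, m (m (m (v 2) (v 2)) (v 0)) (v 2), [v 1]⟩,
  ⟨-397136, v 2, v 2, v 0, m (m (m (v 2) (v 2)) (v 1)) (v 2), [v 1]⟩,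
  ⟨-1912040, v 2, v 2, v 0, v 1, [v 2, v 2, v 2, v 1]⟩,
  ⟨1059400, v 2, v 2, v 1, v 0, [v 2, v 2, v 2, v 1]⟩,
  ⟨397136, v 2, v 2, v 1, m (m (v 2) (v 2)) (v 2), [v 0, v 1]⟩,
  ⟨936444, v 2, v 2, m (v 2) (v 1), m (v 2) (v 2), [v 0, v 1]⟩,
  ⟨-2270024, v 2, v 2, m (m (v 2) (v 2)) (v 0), m (v 2) (v 1), [v 1]⟩,
  ⟨2270024, v 2, m (v 2) (v 2), m (m (v 2) (v 1)) (v 2), v 0, [v 1]⟩,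
  ⟨-137032, v 2, v 2, v 0, m (m (v 2) (v 2)) (v 2), [v 1, v 1]⟩,
  ⟨1730800, v 2, v 2, v 2, m (m (m (v 1) (v 0)) (v 2)) (v 2), [v 1]⟩,
  ⟨260104, v 2, v 2, m (v 1) (v 0), m (m (v 2) (v 2)) (v 2), [v 1]⟩,
  ⟨-928208, v 2, v 1, v 2, v 0, [v 2, v 2, v 2, v 1]⟩,
  ⟨-137032, m (m (m (m (v 2) (v 2)) (v 2)) (v 2)) (v 2), v 1, v 1, v 0, []⟩,
  ⟨457080, v 2, m (v 2) (v 2), v 0, m (m (v 2) (v 1)) (v 2), [v 1]⟩,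
  ⟨457080, v 2, v 2, v 2, v 0, [m (m (v 2) (v 1)) (v 2), v 1]⟩,
  ⟨985848, v 2, v 1, v 2, m (v 2) (v 0), [v 2, v 2, v 1]⟩,
  ⟨182816, m (m (m (v 2) (v 2)) (v 2)) (v 2), v 1, v 1, m (v 2) (v 0), []⟩,
  ⟨-7891536, v 2, v 2, m (m (v 2) (v 1)) (v 2), m (v 2) (v 0), [v 1]⟩,
  ⟨7891536, v 2, v 2, m (m (v 2) (v 0)) (v 2), m (v 2) (v 1), [v 1]⟩,
  ⟨-6201900, v 2, m (v 2) (v 2), m (v 2) (v 0), m (v 2) (v 1), [v 1]⟩,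
  ⟨-2729392, v 2, m (v 2) (v 2), m (m (v 2) (v 0)) (v 2), v 1, [v 1]⟩,
  ⟨-4731440, v 2, v 2, v 1, m (v 2) (v 0), [v 2, v 2, v 1]⟩,
  ⟨764268, v 2, v 2, v 1, m (v 2) (v 2), [v 0, v 2, v 1]⟩,
  ⟨1152128, v 2, v 1, v 2, m (m (m (v 2) (v 0)) (v 2)) (v 2), [v 1]⟩,
  ⟨-1152128, v 2, v 2, v 1, m (m (m (v 2) (v 0)) (v 2)) (v 2), [v 1]⟩,
  ⟨255696, v 2, m (m (v 2) (v 2)) (v 2), v 1, v 1, [v 2, v 0]⟩,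
  ⟨1039236, v 2, m (v 2) (v 2), v 1, v 1, [v 2, v 2, v 0]⟩,
  ⟨-343080, v 2, v 2, m (v 2) (v 1), m (v 2) (v 1), [v 2, v 0]⟩,
  ⟨-694976, v 2, v 2, v 1, v 1, [v 2, v 2, v 2, v 0]⟩,
  ⟨-1549448, v 2, v 2, m (v 2) (v 1), v 1, [v 2, v 2, v 0]⟩,
  ⟨-149694, v 2, v 2, v 1, m (v 2) (v 2), [v 1, v 2, v 0]⟩,
  ⟨537646, v 2, v 2, v 2, v 1, [v 2, v 1, v 2, v 0]⟩,
  ⟨-286358, v 2, v 2, v 2, m (v 2) (v 1), [v 1, v 2, v 0]⟩,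
  ⟨-427236, v 2, v 2, v 1, m (m (v 2) (v 2)) (v 1), [v 2, v 0]⟩,
  ⟨603184, v 2, v 2, v 2, v 1, [v 1, v 2, v 2, v 0]⟩,
  ⟨255696, v 2, v 2, v 2, v 1, [m (v 2) (v 1), v 2, v 0]⟩,
  ⟨440460, v 2, v 2, m (m (v 2) (v 1)) (v 2), v 1, [v 2, v 0]⟩,
  ⟨-3384, v 2, m (v 2) (v 2), m (v 2) (v 2), v 1, [v 1, v 0]⟩,
  ⟨-256720, v 2, v 2, v 2, m (m (v 2) (v 2)) (v 1), [v 1, v 0]⟩,
  ⟨-475336, m (v 2) (v 2), m (v 2) (v 2), v 1, v 1, [v 2, v 0]⟩,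
  ⟨520208, v 2, v 2, m (v 2) (v 1), m (m (v 2) (v 1)) (v 2), [v 0]⟩,
  ⟨-436052, v 2, m (v 2) (v 1), v 2, m (v 2) (v 1), [v 2, v 0]⟩,
  ⟨171540, v 2, v 2, m (m (v 2) (v 2)) (v 1), v 1, [v 2, v 0]⟩,
  ⟨88564, v 2, v 2, v 1, m (m (v 2) (v 1)) (v 2), [v 2, v 0]⟩,
  ⟨431644, v 2, v 1, v 2, m (m (v 2) (v 1)) (v 2), [v 2, v 0]⟩,
  ⟨691748, v 2, v 1, m (m (v 2) (v 2)) (v 2), v 1, [v 2, v 0]⟩,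
  ⟨-514620, v 2, v 1, m (v 2) (v 2), v 1, [v 2, v 2, v 0]⟩,
  ⟨600092, v 2, v 2, v 2, m (m (v 2) (v 1)) (v 1), [v 2, v 0]⟩,
  ⟨436052, v 2, v 2, v 1, v 1, [m (v 2) (v 2), v 2, v 0]⟩,
  ⟨498362, v 2, m (v 2) (v 2), v 2, v 1, [v 2, v 1, v 0]⟩,
  ⟨260104, v 2, v 2, m (m (v 2) (v 2)) (v 2), v 1, [v 1, v 0]⟩,
  ⟨-108206, v 2, v 2, v 2, m (v 2) (v 1), [m (v 2) (v 1), v 0]⟩,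
  ⟨108206, v 2, v 2, v 1, m (v 2) (v 2), [m (v 2) (v 1), v 0]⟩,
  ⟨87384, v 2, v 2, v 1, m (m (v 2) (v 2)) (m (v 2) (v 1)), [v 0]⟩,
  ⟨260104, v 2, v 2, m (v 2) (v 1), m (m (v 2) (v 2)) (v 1), [v 0]⟩,
  ⟨-520208, v 2, v 2, m (m (m (v 2) (v 1)) (v 2)) (v 2), v 1, [v 0]⟩,
  ⟨-520208, v 2, v 2, v 2, m (m (v 2) (v 1)) (v 2), [v 1, v 0]⟩,
  ⟨-351896, v 2, v 2, v 1, m (v 2) (v 1), [v 2, v 2, v 0]⟩,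
  ⟨-520208, v 2, v 2, m (m (v 2) (v 2)) (m (v 2) (v 1)), v 1, [v 0]⟩,
  ⟨91656, v 2, m (v 2) (v 2), v 2, m (m (v 2) (v 1)) (v 1), [v 0]⟩,
  ⟨-39284, v 2, v 2, v 2, m (m (m (v 2) (v 2)) (v 1)) (v 1), [v 0]⟩,
  ⟨43692, v 2, v 1, m (v 2) (v 2), v 1, [m (v 2) (v 2), v 0]⟩,
  ⟨733236, v 2, v 1, m (v 2) (v 2), m (m (v 2) (v 2)) (v 1), [v 0]⟩,
  ⟨216412, m (v 2) (v 2), m (v 2) (v 2), m (v 2) (v 1), v 1, [v 0]⟩,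
  ⟨-154102, v 2, m (v 2) (v 2), v 2, v 1, [v 1, v 2, v 0]⟩,
  ⟨-21846, v 2, v 2, v 1, m (v 2) (v 2), [v 2, v 1, v 0]⟩,
  ⟨-21846, v 2, v 2, v 2, v 1, [v 2, v 2, v 1, v 0]⟩,
  ⟨281950, v 2, v 2, v 2, m (v 2) (v 1), [v 2, v 1, v 0]⟩,
  ⟨108206, v 2, m (v 2) (v 2), v 2, v 1, [m (v 2) (v 1), v 0]⟩,
  ⟨108206, v 2, v 2, v 2, v 1, [v 2, m (v 2) (v 1), v 0]⟩,
  ⟨-168448, v 2, v 2, m (m (v 2) (v 1)) (v 1), m (v 2) (v 2), [v 0]⟩,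
  ⟨-1112936, v 2, v 2, v 2, m (m (m (v 2) (v 1)) (v 1)) (v 2), [v 0]⟩,
  ⟨776928, m (v 2) (v 2), m (v 2) (v 2), v 1, m (v 2) (v 1), [v 0]⟩,
  ⟨-776928, v 2, m (v 2) (v 2), v 1, v 1, [m (v 2) (v 2), v 0]⟩,
  ⟨-776928, v 2, v 2, v 2, v 1, [v 1, m (v 2) (v 2), v 0]⟩,
  ⟨-260104, v 2, v 2, m (m (m (v 2) (v 2)) (v 1)) (v 2), v 1, [v 0]⟩,
  ⟨128360, v 2, v 2, v 2, m (v 2) (v 2), [v 1, v 1, v 0]⟩,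
  ⟨-538880, v 2, v 2, m (m (v 2) (v 2)) (v 2), m (m (v 1) (v 0)) (v 1), []⟩,
  ⟨411272, v 2, v 2, m (m (v 2) (v 2)) (v 0), v 1, [m (v 2) (v 1)]⟩,
  ⟨310872, v 2, v 2, v 1, m (v 2) (v 0), [v 2, m (v 2) (v 1)]⟩,
  ⟨-2101360, v 2, v 2, v 0, v 1, [v 2, v 2, m (v 2) (v 1)]⟩,
  ⟨426272, v 2, v 2, v 1, v 0, [v 2, v 2, m (v 2) (v 1)]⟩,
  ⟨325872, v 2, v 2, m (v 2) (v 1), v 0, [v 2, m (v 2) (v 1)]⟩,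
  ⟨397632, v 2, m (v 2) (v 2), v 1, v 0, [v 2, m (v 2) (v 1)]⟩,
  ⟨-3675368, v 2, v 1, v 2, v 0, [v 2, v 2, m (v 2) (v 1)]⟩,
  ⟨1248136, v 2, v 2, m (m (v 2) (v 1)) (v 2), v 0, [m (v 2) (v 1)]⟩,
  ⟨-1248136, v 2, v 2, v 0, m (v 2) (v 1), [v 2, m (v 2) (v 1)]⟩,
  ⟨-308794, v 2, m (v 2) (v 2), v 2, v 1, [v 0, m (v 2) (v 1)]⟩,
  ⟨-514430, v 2, v 2, v 2, m (v 2) (v 1), [v 0, m (v 2) (v 1)]⟩,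
  ⟨103158, v 2, v 2, v 1, m (v 2) (v 2), [v 0, m (v 2) (v 1)]⟩,
  ⟨-308794, v 2, v 2, v 2, v 1, [v 2, v 0, m (v 2) (v 1)]⟩,
  ⟨592427, v 2, m (v 2) (v 2), v 2, m (v 1) (v 0), [m (v 2) (v 1)]⟩,
  ⟨592427, v 2, v 2, v 2, m (v 1) (v 0), [v 2, m (v 2) (v 1)]⟩,
  ⟨-411272, v 2, m (v 2) (v 2), m (v 2) (v 1), v 0, [m (v 2) (v 1)]⟩,
  ⟨411952, v 2, v 2, v 0, m (m (v 2) (v 2)) (v 1), [m (v 2) (v 1)]⟩,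
  ⟨1003615, v 2, v 2, v 2, m (m (v 1) (v 0)) (v 2), [m (v 2) (v 1)]⟩,
  ⟨-1149096, v 2, m (v 2) (v 2), v 0, v 1, [v 2, m (v 2) (v 1)]⟩,
  ⟨-1149096, v 2, v 2, v 2, v 0, [v 1, v 2, m (v 2) (v 1)]⟩,
  ⟨425592, v 2, v 2, v 1, m (m (v 2) (v 2)) (v 0), [m (v 2) (v 1)]⟩,
  ⟨-737144, v 2, v 2, m (v 2) (v 1), m (v 2) (v 0), [m (v 2) (v 1)]⟩,
  ⟨1248136, v 2, v 2, m (v 2) (v 0), m (v 2) (v 1), [m (v 2) (v 1)]⟩,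
  ⟨592427, v 2, v 2, m (v 1) (v 0), m (v 2) (v 2), [m (v 2) (v 1)]⟩,
  ⟨-411952, v 2, v 2, m (m (v 2) (v 2)) (v 1), v 0, [m (v 2) (v 1)]⟩,
  ⟨-219956, v 2, v 2, v 1, v 0, [m (v 2) (v 2), m (v 2) (v 1)]⟩,
  ⟨411952, v 2, v 2, v 2, v 1, [v 0, v 2, m (v 2) (v 1)]⟩,
  ⟨219956, v 2, v 2, v 0, v 1, [m (v 2) (v 2), m (v 2) (v 1)]⟩,
  ⟨206316, m (v 2) (v 2), m (v 2) (v 2), v 0, v 1, [m (v 2) (v 1)]⟩,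
  ⟨219956, v 2, v 1, v 2, v 0, [m (v 2) (v 2), m (v 2) (v 1)]⟩,
  ⟨312232, v 2, m (v 2) (v 2), m (v 2) (v 0), v 1, [m (v 2) (v 1)]⟩,
  ⟨1063696, v 2, v 2, m (v 2) (v 0), v 1, [v 2, m (v 2) (v 1)]⟩,
  ⟨-424912, v 2, m (v 2) (v 2), v 0, m (v 2) (v 1), [m (v 2) (v 1)]⟩,
  ⟨-411952, v 2, m (m (v 2) (v 2)) (v 2), v 1, v 0, [m (v 2) (v 1)]⟩,
  ⟨-631284, v 2, v 2, m (v 2) (v 0), v 1, [m (m (v 2) (v 2)) (v 1)]⟩,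
  ⟨1623848, v 2, v 1, v 2, v 0, [v 2, m (m (v 2) (v 2)) (v 1)]⟩,
  ⟨361280, v 2, v 2, m (v 2) (v 1), v 0, [m (m (v 2) (v 2)) (v 1)]⟩,
  ⟨-992564, v 2, v 1, v 2, m (v 2) (v 0), [m (m (v 2) (v 2)) (v 1)]⟩,
  ⟨992564, v 2, v 2, v 1, m (v 2) (v 0), [m (m (v 2) (v 2)) (v 1)]⟩,
  ⟨270004, v 2, m (v 2) (v 2), v 0, v 1, [m (m (v 2) (v 2)) (v 1)]⟩,
  ⟨1985128, v 2, v 2, v 0, v 1, [v 2, m (m (v 2) (v 2)) (v 1)]⟩,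
  ⟨631284, v 2, v 1, v 0, m (v 2) (v 2), [m (m (v 2) (v 2)) (v 1)]⟩,
  ⟨235464, v 2, v 2, m (m (v 2) (v 2)) (v 1), v 1, [m (v 2) (v 0)]⟩,
  ⟨235464, v 2, m (v 2) (v 2), v 1, v 1, [v 2, m (v 2) (v 0)]⟩,
  ⟨470928, v 2, v 2, v 2, v 1, [v 1, v 2, m (v 2) (v 0)]⟩,
  ⟨-706392, v 2, v 2, v 1, m (m (v 2) (v 2)) (v 1), [m (v 2) (v 0)]⟩,
  ⟨470928, v 2, v 2, v 2, m (v 2) (v 1), [v 1, m (v 2) (v 0)]⟩,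
  ⟨470928, v 2, v 2, v 2, v 1, [m (v 2) (v 1), m (v 2) (v 0)]⟩,
  ⟨470928, v 2, m (m (v 2) (v 2)) (v 2), v 1, v 1, [m (v 2) (v 0)]⟩,
  ⟨-470928, v 2, v 2, m (v 2) (v 1), m (v 2) (v 1), [m (v 2) (v 0)]⟩,
  ⟨-1412784, v 2, v 2, m (v 2) (v 1), v 1, [v 2, m (v 2) (v 0)]⟩,
  ⟨470928, v 2, v 2, v 1, m (v 2) (v 1), [v 2, m (v 2) (v 0)]⟩,
  ⟨-706392, v 2, v 2, m (m (v 2) (v 1)) (v 2), v 1, [m (v 2) (v 0)]⟩,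
  ⟨-235464, v 2, v 2, v 1, m (v 2) (v 2), [v 1, m (v 2) (v 0)]⟩,
  ⟨-235464, v 2, v 2, v 1, m (m (v 2) (v 1)) (v 2), [m (v 2) (v 0)]⟩,
  ⟨235464, v 2, v 1, v 2, m (m (v 2) (v 1)) (v 2), [m (v 2) (v 0)]⟩,
  ⟨235464, v 2, m (v 2) (v 1), v 2, m (v 2) (v 1), [m (v 2) (v 0)]⟩,
  ⟨-706392, v 2, v 1, m (v 2) (v 2), v 1, [v 2, m (v 2) (v 0)]⟩,
  ⟨495568, v 2, v 2, v 2, m (m (v 2) (v 1)) (v 1), [m (v 2) (v 0)]⟩,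
  ⟨-235464, v 2, v 2, v 1, v 1, [m (v 2) (v 2), m (v 2) (v 0)]⟩,
  ⟨-235464, m (v 2) (v 2), m (v 2) (v 2), v 1, v 1, [m (v 2) (v 0)]⟩,
  ⟨470928, v 2, v 2, v 2, v 1, [v 2, v 1, m (v 2) (v 0)]⟩,
  ⟨235464, v 2, v 1, m (m (v 2) (v 2)) (v 2), v 1, [m (v 2) (v 0)]⟩,
  ⟨235464, v 2, m (v 2) (v 2), v 2, v 1, [v 1, m (v 2) (v 0)]⟩,
  ⟨99720, v 2, v 2, v 1, m (m (v 2) (v 0)) (v 2), [m (v 2) (v 1)]⟩,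
  ⟨-21184, v 2, v 1, v 1, m (m (m (v 2) (v 0)) (v 2)) (v 2), [v 2]⟩,
  ⟨-3483536, v 2, v 2, v 1, m (m (m (v 2) (v 2)) (m (v 1) (v 0))) (v 2), []⟩,
  ⟨-3737408, v 2, v 2, v 1, m (m (m (m (v 2) (v 0)) (v 2)) (v 1)) (v 2), []⟩,
  ⟨-443808, v 2, m (m (v 2) (v 1)) (v 2), v 0, m (m (v 2) (v 1)) (v 2), []⟩,
  ⟨-443808, v 2, m (m (v 2) (v 1)) (v 2), m (m (v 2) (v 1)) (v 2), v 0, []⟩,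
  ⟨-631284, v 2, v 1, v 2, v 0, [m (m (v 2) (v 2)) (v 1), v 2]⟩,
  ⟨-631284, v 2, v 2, v 0, v 1, [m (m (v 2) (v 2)) (v 1), v 2]⟩,
  ⟨631284, v 2, v 2, v 1, v 0, [m (m (v 2) (v 2)) (v 1), v 2]⟩,
  ⟨-631284, v 2, m (m (v 2) (v 2)) (v 1), v 0, m (m (v 2) (v 2)) (v 1), []⟩,
  ⟨-631284, v 2, v 2, v 2, v 1, [v 0, m (m (v 2) (v 2)) (v 1)]⟩,
  ⟨-594576, v 2, v 2, m (v 1) (v 0), m (m (v 2) (v 1)) (v 2), [v 2]⟩,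
  ⟨243328, v 2, v 1, m (m (m (v 2) (v 1)) (v 2)) (v 2), v 0, [v 2]⟩,
  ⟨3264776, v 2, v 2, v 1, m (m (m (m (v 2) (v 2)) (v 0)) (v 1)) (v 2), []⟩,
  ⟨-905028, v 2, v 2, v 1, m (m (m (v 1) (v 0)) (v 2)) (m (v 2) (v 2)), []⟩,
  ⟨985848, v 2, v 2, v 1, m (m (m (v 2) (v 0)) (v 1)) (m (v 2) (v 2)), []⟩,
  ⟨1248816, v 2, v 1, v 2, m (v 2) (v 0), [v 2, m (v 2) (v 1)]⟩,
  ⟨662264, v 2, v 2, v 1, m (m (m (v 2) (v 1)) (v 0)) (m (v 2) (v 2)), []⟩,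
  ⟨-662264, v 2, v 1, v 0, m (v 2) (v 2), [v 2, v 2, v 1]⟩,
  ⟨-426272, v 2, v 1, v 0, m (v 2) (v 2), [v 2, m (v 2) (v 1)]⟩,
  ⟨-132256, v 2, v 2, v 1, m (m (m (m (v 2) (v 2)) (v 0)) (v 2)) (v 1), []⟩,
  ⟨264512, v 2, v 2, v 1, m (m (m (m (v 2) (v 0)) (v 2)) (v 2)) (v 1), []⟩,
  ⟨-443808, v 2, v 2, v 0, m (v 2) (v 1), [m (m (v 2) (v 1)) (v 2)]⟩,
  ⟨-738528, v 2, v 2, m (v 2) (v 1), m (m (m (v 1) (v 0)) (v 2)) (v 2), []⟩,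
  ⟨443808, v 2, v 2, v 1, m (v 2) (v 0), [m (m (v 2) (v 1)) (v 2)]⟩,
  ⟨-443808, v 2, v 2, v 1, v 0, [v 2, m (m (v 2) (v 1)) (v 2)]⟩,
  ⟨443808, v 2, m (v 2) (v 2), v 1, v 0, [m (m (v 2) (v 1)) (v 2)]⟩,
  ⟨-443808, v 2, v 2, m (v 2) (v 0), v 1, [m (m (v 2) (v 1)) (v 2)]⟩,
  ⟨2387452, v 2, v 2, m (v 2) (v 1), m (m (v 2) (v 2)) (m (v 1) (v 0)), []⟩,
  ⟨-1640928, v 2, v 2, m (v 2) (v 1), m (m (m (v 2) (v 2)) (v 0)) (v 1), []⟩,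
  ⟨-1775448, v 2, v 2, m (m (v 2) (v 1)) (v 2), m (m (v 2) (v 0)) (v 1), []⟩,
  ⟨3637512, v 2, v 2, m (m (v 2) (v 1)) (v 2), m (m (v 1) (v 0)) (v 2), []⟩,
  ⟨-443808, v 2, v 1, v 2, v 0, [m (m (m (v 2) (v 1)) (v 2)) (v 2)]⟩,
  ⟨-1238541, v 2, m (v 2) (v 2), v 2, v 1, [m (m (v 1) (v 0)) (v 2)]⟩,
  ⟨-1603215, v 2, v 2, v 2, m (v 2) (v 1), [m (m (v 1) (v 0)) (v 2)]⟩,
  ⟨-1238541, v 2, v 2, v 1, m (v 2) (v 2), [m (m (v 1) (v 0)) (v 2)]⟩,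
  ⟨-1238541, v 2, v 2, v 2, v 1, [v 2, m (m (v 1) (v 0)) (v 2)]⟩,
  ⟨472686, v 2, m (v 2) (v 2), v 2, v 1, [m (m (v 2) (v 0)) (v 1)]⟩,
  ⟨825634, v 2, v 2, v 2, m (v 2) (v 1), [m (m (v 2) (v 0)) (v 1)]⟩,
  ⟨-119738, v 2, v 2, v 1, m (v 2) (v 2), [m (m (v 2) (v 0)) (v 1)]⟩,
  ⟨472686, v 2, v 2, v 2, v 1, [v 2, m (m (v 2) (v 0)) (v 1)]⟩,
  ⟨-1959848, v 2, v 2, m (m (v 2) (v 1)) (v 2), m (m (v 2) (v 1)) (v 0), []⟩,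
  ⟨348790, v 2, m (v 2) (v 2), v 2, v 1, [m (m (v 2) (v 1)) (v 0)]⟩,
  ⟨890706, v 2, v 2, v 2, m (v 2) (v 1), [m (m (v 2) (v 1)) (v 0)]⟩,
  ⟨193126, v 2, v 2, v 1, m (v 2) (v 2), [m (m (v 2) (v 1)) (v 0)]⟩,
  ⟨348790, v 2, v 2, v 2, v 1, [v 2, m (m (v 2) (v 1)) (v 0)]⟩,
  ⟨-397136, v 2, v 2, m (m (v 1) (v 0)) (v 1), m (m (v 2) (v 2)) (v 2), []⟩,
  ⟨-204448, v 2, v 1, m (m (v 2) (v 2)) (v 0), v 1, [m (v 2) (v 2)]⟩,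
  ⟨28278, v 2, v 1, v 0, v 1, [m (v 2) (v 2), m (v 2) (v 2)]⟩,
  ⟨-137176, v 2, v 2, v 0, v 1, [v 2, v 1, m (v 2) (v 2)]⟩,
  ⟨271720, m (v 2) (v 2), m (v 2) (v 2), v 0, m (m (v 2) (v 1)) (v 1), []⟩,
  ⟨-2361230, m (v 2) (v 2), m (v 2) (v 2), m (m (v 1) (v 0)) (v 2), v 1, []⟩,
  ⟨159508, v 2, v 2, v 2, v 0, [v 1, v 1, m (v 2) (v 2)]⟩,
  ⟨-215752, m (v 2) (v 2), v 1, v 1, m (v 2) (v 0), [m (v 2) (v 2)]⟩,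
  ⟨-249388, m (m (v 2) (v 2)) (v 2), v 1, v 1, v 0, [m (v 2) (v 2)]⟩,
  ⟨-408896, v 2, v 2, m (v 2) (v 1), v 0, [v 1, m (v 2) (v 2)]⟩,
  ⟨-204448, v 2, m (v 2) (v 2), v 1, v 0, [v 1, m (v 2) (v 2)]⟩,
  ⟨-204448, v 2, v 2, v 1, v 0, [v 2, v 1, m (v 2) (v 2)]⟩,
  ⟨-238084, v 2, v 2, v 1, m (v 2) (v 0), [v 1, m (v 2) (v 2)]⟩,
  ⟨-271720, m (v 2) (v 2), m (v 2) (v 2), m (m (v 2) (v 1)) (v 1), v 0, []⟩,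
  ⟨204448, v 2, v 1, m (v 2) (v 2), v 1, [v 0, m (v 2) (v 2)]⟩,
  ⟨204448, v 2, m (v 2) (v 2), v 1, v 1, [v 0, m (v 2) (v 2)]⟩,
  ⟨-170812, v 2, v 2, m (v 2) (v 0), v 1, [v 1, m (v 2) (v 2)]⟩,
  ⟨-453836, v 2, v 2, v 2, m (m (v 1) (v 0)) (v 1), [m (v 2) (v 2)]⟩,
  ⟨-453836, m (m (v 2) (v 2)) (v 2), v 1, v 0, v 1, [m (v 2) (v 2)]⟩,
  ⟨1077076, m (v 2) (v 2), v 1, v 1, v 0, [v 2, m (v 2) (v 2)]⟩,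
  ⟨238084, v 2, v 1, v 2, m (v 2) (v 0), [v 1, m (v 2) (v 2)]⟩,
  ⟨271720, v 2, v 1, v 2, v 0, [v 2, v 1, m (v 2) (v 2)]⟩,
  ⟨-673314, v 2, v 2, v 2, m (v 1) (v 0), [v 1, m (v 2) (v 2)]⟩,
  ⟨408896, v 2, m (v 2) (v 2), v 0, v 1, [v 1, m (v 2) (v 2)]⟩,
  ⟨-1726206, m (v 2) (v 2), m (v 2) (v 2), v 1, m (m (v 1) (v 0)) (v 2), []⟩,
  ⟨249388, v 2, v 1, v 0, m (v 2) (v 2), [v 1, m (v 2) (v 2)]⟩,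
  ⟨685136, v 2, v 1, m (v 2) (v 2), v 1, [m (m (v 2) (v 2)) (v 0)]⟩,
  ⟨-685136, v 2, v 2, v 2, v 1, [v 1, m (m (v 2) (v 2)) (v 0)]⟩,
  ⟨204448, v 2, v 1, m (m (v 2) (v 2)) (v 1), v 0, [m (v 2) (v 2)]⟩,
  ⟨-204448, v 2, v 2, v 2, v 1, [m (v 1) (v 0), m (v 2) (v 2)]⟩,
  ⟨-204448, v 2, v 1, v 0, m (m (v 2) (v 2)) (v 1), [m (v 2) (v 2)]⟩,
  ⟨23198, v 2, v 2, v 2, m (m (m (v 1) (v 0)) (v 1)) (m (v 2) (v 2)), []⟩,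
  ⟨118448, m (v 2) (v 2), m (v 2) (v 2), v 1, m (m (v 2) (v 1)) (v 0), []⟩,
  ⟨-373938, v 2, m (v 2) (v 2), m (v 2) (v 2), m (m (v 1) (v 0)) (v 1), []⟩,
  ⟨-6236, m (v 2) (v 2), m (v 2) (v 2), m (m (v 2) (v 1)) (v 0), v 1, []⟩,
  ⟨-1344256, v 2, v 2, m (m (v 2) (v 2)) (v 1), m (m (v 1) (v 0)) (v 2), []⟩,
  ⟨-631284, v 2, v 2, v 1, v 0, [m (m (m (v 2) (v 2)) (v 1)) (v 2)]⟩,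
  ⟨631284, v 2, v 1, v 2, v 0, [m (m (m (v 2) (v 2)) (v 1)) (v 2)]⟩,
  ⟨631284, v 2, v 2, v 0, v 1, [m (m (m (v 2) (v 2)) (v 1)) (v 2)]⟩,
  ⟨631284, v 2, v 2, v 2, v 1, [m (m (m (v 2) (v 2)) (v 0)) (v 1)]⟩,
  ⟨708624, v 2, v 2, m (m (v 2) (v 2)) (v 1), m (m (v 2) (v 0)) (v 1), []⟩,
  ⟨548152, v 2, v 2, m (m (v 2) (v 2)) (v 1), m (m (v 2) (v 1)) (v 0), []⟩,
  ⟨-20692, v 2, v 2, m (m (v 2) (v 2)) (v 2), v 1, [m (v 1) (v 0)]⟩,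
  ⟨532049, v 2, v 2, v 1, m (v 2) (v 2), [v 2, m (v 1) (v 0)]⟩,
  ⟨395017, v 2, v 2, v 2, v 1, [v 2, v 2, m (v 1) (v 0)]⟩,
  ⟨-395017, v 2, v 2, v 2, m (v 2) (v 1), [v 2, m (v 1) (v 0)]⟩,
  ⟨1043406, v 2, v 2, v 2, m (m (v 2) (v 2)) (v 1), [m (v 1) (v 0)]⟩,
  ⟨622338, v 2, m (v 2) (v 2), m (v 2) (v 2), v 1, [m (v 1) (v 0)]⟩,
  ⟨300823, v 2, v 2, v 2, m (v 2) (v 2), [v 1, m (v 1) (v 0)]⟩,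
  ⟨511357, v 2, m (v 2) (v 2), v 2, v 1, [v 2, m (v 1) (v 0)]⟩,
  ⟨263776, v 2, v 2, m (m (v 2) (v 1)) (v 1), m (v 2) (v 0), [v 2]⟩,
  ⟨-877762, v 2, m (v 2) (v 2), m (v 1) (v 0), v 1, [m (v 2) (v 2)]⟩,
  ⟨437340, v 2, v 2, m (m (m (v 2) (v 2)) (v 1)) (v 2), m (v 1) (v 0), []⟩,
  ⟨-436692, v 2, v 2, m (m (v 2) (v 2)) (m (v 2) (v 1)), m (v 1) (v 0), []⟩,
  ⟨-690568, v 2, v 1, m (v 2) (v 2), v 1, [m (m (v 2) (v 0)) (v 2)]⟩,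
  ⟨690568, v 2, v 2, v 2, v 1, [v 1, m (m (v 2) (v 0)) (v 2)]⟩,
  ⟨-397136, m (m (m (m (v 2) (v 2)) (v 2)) (v 2)) (v 2), v 1, v 0, v 1, []⟩,
  ⟨306144, v 2, v 2, m (m (m (v 2) (v 1)) (v 1)) (v 2), m (v 2) (v 0), []⟩,
  ⟨-282312, v 2, v 2, m (m (v 2) (v 1)) (v 1), m (m (v 2) (v 2)) (v 0), []⟩,
  ⟨-435896, v 2, m (v 2) (v 2), m (m (v 2) (v 1)) (v 1), v 0, [v 2]⟩,
  ⟨-1381136, v 2, v 2, m (v 2) (v 1), v 1, [m (m (v 2) (v 0)) (v 2)]⟩,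
  ⟨228480, v 2, v 2, m (m (m (m (v 2) (v 1)) (v 1)) (v 2)) (v 2), v 0, []⟩,
  ⟨-264512, v 2, v 2, m (m (m (v 2) (v 2)) (v 1)) (v 1), m (v 2) (v 0), []⟩,
  ⟨-260104, v 2, v 2, v 1, m (m (v 2) (v 2)) (v 2), [v 1, v 0]⟩,
  ⟨260104, v 2, v 2, m (v 2) (v 1), m (v 2) (v 2), [v 1, v 0]⟩,
  ⟨260104, v 2, v 1, m (m (m (v 2) (v 2)) (v 2)) (v 2), v 1, [v 0]⟩,
  ⟨502576, v 2, v 2, v 0, m (m (m (m (v 2) (v 1)) (v 2)) (v 1)) (v 2), []⟩,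
  ⟨502576, v 2, v 2, v 0, m (m (m (m (v 2) (v 1)) (v 1)) (v 2)) (v 2), []⟩,
  ⟨513440, v 2, v 2, m (m (m (m (v 2) (v 1)) (v 2)) (v 1)) (v 2), v 0, []⟩,
  ⟨1381136, v 2, v 2, m (v 2) (v 1), v 1, [m (v 2) (v 2), v 0]⟩,
  ⟨-1066320, v 2, v 2, m (m (m (m (v 2) (v 2)) (v 1)) (v 1)) (v 2), v 0, []⟩,
  ⟨-255696, v 2, v 2, m (m (m (v 2) (v 1)) (v 1)) (m (v 2) (v 2)), v 0, []⟩,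
  ⟨1370272, v 2, v 2, m (v 2) (v 1), v 1, [m (m (v 2) (v 2)) (v 0)]⟩,
  ⟨-1457656, v 2, v 2, v 0, m (m (m (m (v 2) (v 2)) (v 1)) (v 1)) (v 2), []⟩,
  ⟨-946264, v 2, v 2, v 0, m (m (m (v 2) (v 1)) (v 1)) (m (v 2) (v 2)), []⟩,
  ⟨1152656, v 2, v 2, m (v 2) (v 0), m (m (m (v 2) (v 1)) (v 1)) (v 2), []⟩,
  ⟨867696, v 2, v 2, m (v 2) (v 0), m (m (m (v 2) (v 1)) (v 2)) (v 1), []⟩,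
  ⟨640264, v 2, v 2, m (v 2) (v 0), m (m (m (v 2) (v 2)) (v 1)) (v 1), []⟩,
  ⟨-306144, v 2, v 2, m (m (v 2) (v 0)) (v 2), m (m (v 2) (v 1)) (v 1), []⟩,
  ⟨413688, v 2, v 2, m (m (v 2) (v 2)) (v 0), m (m (v 2) (v 1)) (v 1), []⟩,
  ⟨137032, v 2, v 2, m (v 1) (v 0), m (m (m (v 2) (v 2)) (v 1)) (v 2), []⟩,
  ⟨-137032, v 2, v 2, v 1, m (m (v 2) (v 2)) (v 2), [m (v 1) (v 0)]⟩,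
  ⟨157724, v 2, v 2, m (v 2) (v 1), m (v 2) (v 2), [m (v 1) (v 0)]⟩,
  ⟨-1675716, v 2, v 2, m (v 1) (v 0), m (m (v 2) (v 2)) (m (v 2) (v 1)), []⟩,
  ⟨574372, v 2, v 2, m (m (v 1) (v 0)) (v 2), m (m (v 2) (v 2)) (v 1), []⟩,
  ⟨-3637512, v 2, v 2, m (m (m (v 1) (v 0)) (v 2)) (v 2), m (v 2) (v 1), []⟩,
  ⟨-592424, v 2, v 2, m (m (v 2) (v 0)) (v 1), m (m (v 2) (v 2)) (v 1), []⟩,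
  ⟨2219256, v 2, v 2, m (m (m (v 2) (v 0)) (v 1)) (v 2), m (v 2) (v 1), []⟩,
  ⟨265392, v 2, v 2, m (m (v 2) (v 2)) (m (v 1) (v 0)), m (v 2) (v 1), []⟩,
  ⟨1182336, v 2, v 2, m (m (m (m (v 1) (v 0)) (v 2)) (v 2)) (v 2), v 1, []⟩,
  ⟨-3861248, v 2, v 2, m (m (m (m (v 2) (v 0)) (v 1)) (v 2)) (v 2), v 1, []⟩,
  ⟨144080, v 2, v 2, m (m (m (m (v 2) (v 1)) (v 0)) (v 2)) (v 2), v 1, []⟩,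
  ⟨-3005556, v 2, v 2, m (m (m (v 2) (v 2)) (m (v 1) (v 0))) (v 2), v 1, []⟩,
  ⟨-1377328, v 2, v 2, m (m (m (m (v 2) (v 0)) (v 2)) (v 1)) (v 2), v 1, []⟩,
  ⟨1640928, v 2, v 2, m (m (m (m (v 2) (v 2)) (v 0)) (v 1)) (v 2), v 1, []⟩,
  ⟨-3422596, v 2, v 2, m (m (m (v 1) (v 0)) (v 2)) (m (v 2) (v 2)), v 1, []⟩,
  ⟨837904, v 2, v 2, m (m (m (v 2) (v 1)) (v 2)) (v 2), m (v 1) (v 0), []⟩,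
  ⟨41384, v 2, v 2, v 2, m (m (v 2) (v 1)) (v 2), [m (v 1) (v 0)]⟩,
  ⟨837904, v 2, v 2, m (m (v 1) (v 0)) (v 2), m (m (v 2) (v 1)) (v 2), []⟩,
  ⟨1149704, v 2, v 2, m (m (m (v 2) (v 0)) (v 1)) (m (v 2) (v 2)), v 1, []⟩,
  ⟨443808, v 2, v 1, v 0, m (v 2) (v 2), [m (m (v 2) (v 1)) (v 2)]⟩,
  ⟨443808, v 2, v 2, m (m (m (v 2) (v 0)) (v 2)) (v 1), m (v 2) (v 1), []⟩,
  ⟨-99720, v 2, v 1, v 2, m (m (v 2) (v 0)) (v 2), [m (v 2) (v 1)]⟩,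
  ⟨1516040, v 2, v 2, m (m (m (v 2) (v 1)) (v 0)) (v 2), m (v 2) (v 1), []⟩,
  ⟨640024, v 2, v 2, m (m (m (v 2) (v 1)) (v 0)) (m (v 2) (v 2)), v 1, []⟩,
  ⟨-887616, v 2, v 2, m (m (m (m (v 2) (v 0)) (v 2)) (v 2)) (v 1), v 1, []⟩,
  ⟨443808, v 2, v 1, v 2, m (v 2) (v 0), [m (m (v 2) (v 1)) (v 2)]⟩,
  ⟨443808, v 2, v 2, m (m (m (m (v 2) (v 2)) (v 0)) (v 2)) (v 1), v 1, []⟩,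
  ⟨-527776, v 2, v 2, m (m (m (v 1) (v 0)) (v 1)) (v 2), m (v 2) (v 2), []⟩,
  ⟨942005, v 2, m (v 2) (v 2), v 2, m (m (m (v 1) (v 0)) (v 2)) (v 1), []⟩,
  ⟨-942005, v 2, v 2, v 2, m (m (m (v 1) (v 0)) (v 2)) (v 1), [v 2]⟩,
  ⟨890148, v 2, v 2, v 2, m (m (m (m (v 2) (v 2)) (v 0)) (v 1)) (v 1), []⟩,
  ⟨-890148, m (m (v 2) (v 2)) (v 2), v 1, m (m (v 2) (v 2)) (v 0), v 1, []⟩,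
  ⟨2982894, m (v 2) (v 2), m (v 2) (v 2), m (v 2) (v 1), m (v 1) (v 0), []⟩,
  ⟨2042866, v 2, v 2, v 1, m (m (v 1) (v 0)) (v 2), [m (v 2) (v 2)]⟩,
  ⟨-166870, v 2, v 2, m (v 1) (v 0), v 1, [v 2, m (v 2) (v 2)]⟩,
  ⟨1216754, m (v 2) (v 2), m (v 2) (v 2), m (v 1) (v 0), m (v 2) (v 1), []⟩,
  ⟨1269182, v 2, v 1, v 2, m (v 1) (v 0), [v 2, m (v 2) (v 2)]⟩,
  ⟨-1900684, v 2, v 2, m (v 2) (v 1), m (v 1) (v 0), [m (v 2) (v 2)]⟩,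
  ⟨-74910, v 2, v 2, m (m (v 1) (v 0)) (v 2), v 1, [m (v 2) (v 2)]⟩,
  ⟨-1149482, v 2, m (v 2) (v 2), v 1, m (v 1) (v 0), [m (v 2) (v 2)]⟩,
  ⟨-1975594, v 2, v 1, v 2, m (m (v 1) (v 0)) (v 2), [m (v 2) (v 2)]⟩,
  ⟨-1194422, v 2, v 1, m (v 1) (v 0), m (v 2) (v 2), [m (v 2) (v 2)]⟩,
  ⟨182816, m (m (m (v 2) (v 2)) (v 2)) (v 2), v 1, m (v 2) (v 0), v 1, []⟩,
  ⟨942005, v 2, v 2, m (m (m (v 1) (v 0)) (v 2)) (v 1), m (v 2) (v 2), []⟩,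
  ⟨-1009070, v 2, v 2, v 1, m (v 1) (v 0), [v 2, m (v 2) (v 2)]⟩,
  ⟨-942005, v 2, v 2, v 2, m (m (m (m (v 1) (v 0)) (v 2)) (v 1)) (v 2), []⟩,
  ⟨-877145, v 2, v 2, m (m (m (v 2) (v 0)) (v 1)) (v 1), m (v 2) (v 2), []⟩,
  ⟨-346480, v 2, v 2, v 2, m (m (m (m (v 2) (v 0)) (v 2)) (v 1)) (v 1), []⟩,
  ⟨346480, m (m (v 2) (v 2)) (v 2), v 1, m (m (v 2) (v 0)) (v 2), v 1, []⟩,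
  ⟨67272, v 2, v 1, v 1, m (m (v 2) (v 2)) (v 0), [m (v 2) (v 2)]⟩,
  ⟨-22608, m (v 2) (v 2), v 1, m (m (m (v 2) (v 2)) (v 0)) (v 2), v 1, []⟩,
  ⟨571718, v 2, v 1, v 1, v 0, [m (v 2) (v 2), m (v 2) (v 2)]⟩,
  ⟨266072, m (v 2) (v 2), m (v 2) (v 2), v 1, m (m (v 2) (v 0)) (v 1), []⟩,
  ⟨-333068, m (v 2) (v 2), m (v 2) (v 2), m (m (v 2) (v 0)) (v 1), v 1, []⟩,
  ⟨-22608, m (v 2) (v 2), v 1, m (m (v 2) (v 2)) (v 1), m (v 2) (v 0), []⟩,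
  ⟨78576, m (v 2) (v 2), v 1, m (v 2) (v 0), v 1, [m (v 2) (v 2)]⟩,
  ⟨-776212, m (v 2) (v 2), v 1, v 0, v 1, [v 2, m (v 2) (v 2)]⟩,
  ⟨-1082736, v 2, v 1, m (v 2) (v 1), v 0, [v 2, m (v 2) (v 2)]⟩,
  ⟨592608, v 2, v 1, v 1, v 0, [v 2, v 2, m (v 2) (v 2)]⟩,
  ⟨-667424, v 2, v 1, v 1, m (v 2) (v 0), [v 2, m (v 2) (v 2)]⟩,
  ⟨776212, v 2, v 2, v 1, v 0, [v 1, v 2, m (v 2) (v 2)]⟩,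
  ⟨-600892, v 2, v 1, v 2, v 0, [v 1, v 2, m (v 2) (v 2)]⟩,
  ⟨-600892, v 2, v 2, v 0, v 1, [v 1, v 2, m (v 2) (v 2)]⟩,
  ⟨215040, v 2, v 1, v 0, m (v 2) (v 1), [v 2, m (v 2) (v 2)]⟩,
  ⟨-254768, v 2, v 2, v 1, m (m (v 2) (v 0)) (v 1), [m (v 2) (v 2)]⟩,
  ⟨-422856, v 2, v 1, v 0, v 1, [v 2, v 2, m (v 2) (v 2)]⟩,
  ⟨67272, v 2, v 2, m (m (v 2) (v 1)) (v 1), v 0, [m (v 2) (v 2)]⟩,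
  ⟨-1082736, v 2, v 2, v 1, v 1, [v 0, v 2, m (v 2) (v 2)]⟩,
  ⟨389312, v 2, v 2, m (m (v 2) (v 0)) (v 1), v 1, [m (v 2) (v 2)]⟩,
  ⟨255624, v 2, v 2, m (m (v 2) (v 1)) (v 0), v 1, [m (v 2) (v 2)]⟩,
  ⟨322040, v 2, v 1, v 2, m (m (v 2) (v 0)) (v 1), [m (v 2) (v 2)]⟩,
  ⟨255624, v 2, v 1, v 2, m (m (v 2) (v 1)) (v 0), [m (v 2) (v 2)]⟩,
  ⟨67272, v 2, v 1, m (v 2) (v 1), m (v 2) (v 0), [m (v 2) (v 2)]⟩,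
  ⟨67272, v 2, v 2, v 1, v 1, [m (v 2) (v 0), m (v 2) (v 2)]⟩,
  ⟨67272, v 2, v 1, m (v 2) (v 0), m (v 2) (v 1), [m (v 2) (v 2)]⟩,
  ⟨67272, v 2, v 2, v 0, v 1, [m (v 2) (v 1), m (v 2) (v 2)]⟩,
  ⟨67272, v 2, v 1, v 2, v 0, [m (v 2) (v 1), m (v 2) (v 2)]⟩,
  ⟨467537, v 2, v 2, v 2, m (m (m (m (v 2) (v 0)) (v 1)) (v 1)) (v 2), []⟩,
  ⟨-694329, v 2, m (v 2) (v 2), v 2, m (m (m (v 2) (v 0)) (v 1)) (v 1), []⟩,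
  ⟨-176015, v 2, m (v 2) (v 2), v 2, m (m (m (v 2) (v 1)) (v 0)) (v 1), []⟩,
  ⟨176015, v 2, v 2, v 2, m (m (m (v 2) (v 1)) (v 0)) (v 1), [v 2]⟩,
  ⟨-176015, v 2, v 2, m (m (m (v 2) (v 1)) (v 0)) (v 1), m (v 2) (v 2), []⟩,
  ⟨20351, v 2, v 2, v 2, m (m (m (m (v 2) (v 1)) (v 0)) (v 1)) (v 2), []⟩,
  ⟨870080, v 2, m (v 2) (v 2), v 1, m (m (m (v 2) (v 1)) (v 0)) (v 2), []⟩,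
  ⟨4305056, v 2, v 2, m (v 2) (v 1), m (m (m (v 2) (v 0)) (v 1)) (v 2), []⟩,
  ⟨-587888, v 2, v 2, m (v 2) (v 1), m (m (m (v 2) (v 1)) (v 0)) (v 2), []⟩,
  ⟨-1378768, v 2, m (v 2) (v 2), v 1, m (m (m (v 2) (v 0)) (v 1)) (v 2), []⟩,
  ⟨-55344, v 2, m (v 2) (v 2), v 1, m (m (m (v 1) (v 0)) (v 2)) (v 2), []⟩,
  ⟨-55344, v 2, v 2, v 2, v 1, [m (m (m (v 1) (v 0)) (v 2)) (v 2)]⟩,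
  ⟨-1378768, v 2, v 2, v 2, v 1, [m (m (m (v 2) (v 0)) (v 1)) (v 2)]⟩,
  ⟨870080, v 2, v 2, v 2, v 1, [m (m (m (v 2) (v 1)) (v 0)) (v 2)]⟩,
  ⟨-2297028, v 2, m (v 2) (v 2), v 1, m (m (v 2) (v 2)) (m (v 1) (v 0)), []⟩,
  ⟨175320, v 2, v 1, m (v 2) (v 0), v 1, [v 2, m (v 2) (v 2)]⟩,
  ⟨-2297028, v 2, v 2, v 2, v 1, [m (m (v 2) (v 2)) (m (v 1) (v 0))]⟩,
  ⟨-344088, v 2, m (v 2) (v 2), v 1, m (m (m (v 2) (v 0)) (v 2)) (v 1), []⟩,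
  ⟨-344088, m (m (v 2) (v 2)) (v 2), v 1, v 1, m (m (v 2) (v 0)) (v 2), []⟩,
  ⟨426272, v 2, m (v 2) (v 2), v 1, m (m (m (v 2) (v 2)) (v 0)) (v 1), []⟩,
  ⟨-2841756, v 2, m (v 2) (v 2), m (v 2) (v 1), m (m (v 1) (v 0)) (v 2), []⟩,
  ⟨705896, v 2, m (v 2) (v 2), m (v 2) (v 1), m (m (v 2) (v 0)) (v 1), []⟩,
  ⟨1083832, v 2, m (v 2) (v 2), m (v 2) (v 1), m (m (v 2) (v 1)) (v 0), []⟩,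
  ⟨-419344, v 2, v 2, v 2, m (m (m (m (v 1) (v 0)) (v 1)) (v 2)) (v 2), []⟩,
  ⟨-322896, v 2, v 2, v 1, m (m (v 2) (v 1)) (v 0), [m (v 2) (v 2)]⟩,
  ⟨178416, v 2, m (v 2) (v 2), m (m (v 2) (v 1)) (v 2), m (v 1) (v 0), []⟩,
  ⟨-836864, v 2, v 2, v 2, v 0, [m (v 2) (v 1), m (v 2) (v 1)]⟩,
  ⟨-836864, v 2, v 2, m (m (v 2) (v 0)) (v 2), v 1, [m (v 2) (v 1)]⟩,
  ⟨1802776, v 2, m (v 2) (v 2), m (m (v 2) (v 2)) (v 1), m (v 1) (v 0), []⟩,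
  ⟨260104, v 2, m (v 2) (v 2), m (m (v 2) (v 1)) (v 1), m (v 2) (v 0), []⟩,
  ⟨-1281384, v 2, m (v 2) (v 2), m (m (m (v 2) (v 1)) (v 1)) (v 2), v 0, []⟩,
  ⟨-867696, v 2, m (v 2) (v 2), m (m (m (v 2) (v 1)) (v 2)) (v 1), v 0, []⟩,
  ⟨-867696, v 2, v 2, v 2, m (m (m (v 2) (v 1)) (v 2)) (v 1), [v 0]⟩,
  ⟨-772520, v 2, m (v 2) (v 2), m (m (m (v 2) (v 2)) (v 1)) (v 1), v 0, []⟩,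
  ⟨-131376, v 2, m (v 2) (v 2), v 0, m (m (m (v 2) (v 1)) (v 1)) (v 2), []⟩,
  ⟨-131376, v 2, v 2, v 2, v 0, [m (m (m (v 2) (v 1)) (v 1)) (v 2)]⟩,
  ⟨-206416, v 2, m (v 2) (v 2), v 0, m (m (m (v 2) (v 2)) (v 1)) (v 1), []⟩,
  ⟨434872, v 2, m (v 2) (v 2), m (v 2) (v 0), m (m (v 2) (v 1)) (v 1), []⟩,
  ⟨434872, v 2, v 2, v 2, m (v 2) (v 0), [m (m (v 2) (v 1)) (v 1)]⟩,
  ⟨796520, v 2, m (v 2) (v 2), m (v 1) (v 0), m (m (v 2) (v 1)) (v 2), []⟩,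
  ⟨796520, v 2, v 2, v 2, m (v 1) (v 0), [m (m (v 2) (v 1)) (v 2)]⟩,
  ⟨-1228404, v 2, m (v 2) (v 2), m (v 1) (v 0), m (m (v 2) (v 2)) (v 1), []⟩,
  ⟨-1228404, v 2, v 2, v 2, m (v 1) (v 0), [m (m (v 2) (v 2)) (v 1)]⟩,
  ⟨-764, v 2, m (v 2) (v 2), m (m (v 1) (v 0)) (v 2), m (v 2) (v 1), []⟩,
  ⟨-477128, v 2, m (v 2) (v 2), m (m (v 2) (v 0)) (v 1), m (v 2) (v 1), []⟩,
  ⟨-886736, v 2, v 2, v 2, m (m (v 2) (v 0)) (v 1), [m (v 2) (v 1)]⟩,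
  ⟨-720352, v 2, m (v 2) (v 2), m (m (v 2) (v 1)) (v 0), m (v 2) (v 1), []⟩,
  ⟨-876016, v 2, v 2, v 2, m (m (v 2) (v 1)) (v 0), [m (v 2) (v 1)]⟩,
  ⟨357944, v 2, m (v 2) (v 2), m (m (m (v 1) (v 0)) (v 2)) (v 2), v 1, []⟩,
  ⟨-2449160, v 2, m (v 2) (v 2), m (m (m (v 2) (v 0)) (v 1)) (v 2), v 1, []⟩,
  ⟨438160, v 2, m (v 2) (v 2), m (m (m (v 2) (v 1)) (v 0)) (v 2), v 1, []⟩,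
  ⟨-489712, v 2, m (v 2) (v 2), m (m (m (v 2) (v 0)) (v 2)) (v 1), v 1, []⟩,
  ⟨489712, v 2, v 2, m (v 2) (v 1), m (m (m (v 2) (v 0)) (v 2)) (v 1), []⟩,
  ⟨1009644, v 2, m (v 2) (v 2), m (m (m (v 2) (v 2)) (v 0)) (v 1), v 1, []⟩,
  ⟨409608, v 2, m (m (v 2) (v 2)) (v 2), v 1, m (m (v 2) (v 0)) (v 1), []⟩,
  ⟨155664, v 2, m (m (v 2) (v 2)) (v 2), v 1, m (m (v 2) (v 1)) (v 0), []⟩,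
  ⟨-155664, v 2, v 2, m (m (v 2) (v 1)) (v 0), m (m (v 2) (v 2)) (v 1), []⟩]

def pol_id_A2 : Pol := (Pol.add (Pol.sub (Pol.mul (Pol.mul (Pol.Z (Pol.var 0) (Pol.var 3) (Pol.var 4) (Pol.var 5) (Pol.var 6) (Pol.var 7)) (Pol.var 1)) (Pol.var 2)) (Pol.smul (2) (Pol.mul (Pol.Z (Pol.mul (Pol.var 0) (Pol.var 1)) (Pol.var 3) (Pol.var 4) (Pol.var 5) (Pol.var 6) (Pol.var 7)) (Pol.var 2)))) (Pol.Z (Pol.mul (Pol.mul (Pol.var 0) (Pol.var 1)) (Pol.var 2)) (Pol.var 3) (Pol.var 4) (Pol.var 5) (Pol.var 6) (Pol.var 7)))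

def g_id_A2 : ℕ → ℕ := fun i => [0, 1, 1, 2, 2, 2, 2, 2].getD i 2
def p_id_A2 : ℕ → Bool := fun i => [false, false, true].getD i false

theorem ok_id_A2 : check g_id_A2 p_id_A2 pol_id_A2 (13608) cert_id_A2 = true := by decide +kernel

/-- A2 -/
theorem id_A2 (m a x1 x2 x3 x4 x5 : A) :
    ((Z m x1 x2 x3 x4 x5) * a) * a - ((2 : ℤ) • ((Z (m * a) x1 x2 x3 x4 x5) * a)) + (Z ((m * a) * a) x1 x2 x3 x4 x5) = 0 := by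
  have h := engine 8 g_id_A2 p_id_A2 pol_id_A2 (13608) cert_id_A2 (by decide +kernel) (by decide) ok_id_A2
    (by decide +kernel) (fun i => [m, a, a, x1, x2, x3, x4, x5].getD i 0) ?_ ?_
  · simp only [pol_id_A2, evP_var, evP_smul, evP_mul, evP_add, evP_sub, evP_J, evP_t, evP_e, evP_om, evP_X, evP_l, evP_Th, evP_Z] at h
    exact h
  · intro i hi j hj hg hp
    interval_cases i <;> interval_cases j <;> first | rfl | (exfalso; revert hg hp; decide)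
  · intro b i hi hg hp
    have hi' : i < 7 := by omega
    clear hi
    interval_cases i
    · exfalso; revert hg hp; decide
    · exfalso; revert hg hp; decide
    · exfalso; revert hg hp; decide
    · simp only [pol_id_A2, evP_var, evP_smul, evP_mul, evP_add, evP_sub, evP_J, evP_t, evP_e, evP_om, evP_X, evP_l, evP_Th, evP_Z]
      show ((Z (b 0) (b 4) (b 3) (b 5) (b 6) (b 7)) * (b 1)) * (b 2) - ((2 : ℤ) • ((Z ((b 0) * (b 1)) (b 4) (b 3) (b 5) (b 6) (b 7)) * (b 2))) + (Z (((b 0) * (b 1)) * (b 2)) (b 4) (b 3) (b 5) (b 6) (b 7)) = - (((Z (b 0) (b 3) (b 4) (b 5) (b 6) (b 7)) * (b 1)) * (b 2) - ((2 : ℤ) • ((Z ((b 0) * (b 1)) (b 3) (b 4) (b 5) (b 6) (b 7)) * (b 2))) + (Z (((b 0) * (b 1)) * (b 2)) (b 3) (b 4) (b 5) (b 6) (b 7)))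
      rw [Z_swap23 (b 0) (b 3) (b 4) (b 5) (b 6) (b 7), Z_swap23 ((b 0) * (b 1)) (b 3) (b 4) (b 5) (b 6) (b 7), Z_swap23 (((b 0) * (b 1)) * (b 2)) (b 3) (b 4) (b 5) (b 6) (b 7)]
      simp only [neg_mul, smul_neg]
      abel
    · simp only [pol_id_A2, evP_var, evP_smul, evP_mul, evP_add, evP_sub, evP_J, evP_t, evP_e, evP_om, evP_X, evP_l, evP_Th, evP_Z]
      show ((Z (b 0) (b 3) (b 5) (b 4) (b 6) (b 7)) * (b 1)) * (b 2) - ((2 : ℤ) • ((Z ((b 0) * (b 1)) (b 3) (b 5) (b 4) (b 6) (b 7)) * (b 2))) + (Z (((b 0) * (b 1)) * (b 2)) (b 3) (b 5) (b 4) (b 6) (b 7)) = - (((Z (b 0) (b 3) (b 4) (b 5) (b 6) (b 7)) * (b 1)) * (b 2) - ((2 : ℤ) • ((Z ((b 0) * (b 1)) (b 3) (b 4) (b 5) (b 6) (b 7)) * (b 2))) + (Z (((b 0) * (b 1)) * (b 2)) (b 3) (b 4)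 (b 5) (b 6) (b 7)))
      rw [Z_swap34 (b 0) (b 3) (b 4) (b 5) (b 6) (b 7), Z_swap34 ((b 0) * (b 1)) (b 3) (b 4) (b 5) (b 6) (b 7), Z_swap34 (((b 0) * (b 1)) * (b 2)) (b 3) (b 4) (b 5) (b 6) (b 7)]
      simp only [neg_mul, smul_neg]
      abel
    · simp only [pol_id_A2, evP_var, evP_smul, evP_mul, evP_add, evP_sub, evP_J, evP_t, evP_e, evP_om, evP_X, evP_l, evP_Th, evP_Z]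
      show ((Z (b 0) (b 3) (b 4) (b 6) (b 5) (b 7)) * (b 1)) * (b 2) - ((2 : ℤ) • ((Z ((b 0) * (b 1)) (b 3) (b 4) (b 6) (b 5) (b 7)) * (b 2))) + (Z (((b 0) * (b 1)) * (b 2)) (b 3) (b 4) (b 6) (b 5) (b 7)) = - (((Z (b 0) (b 3) (b 4) (b 5) (b 6) (b 7)) * (b 1)) * (b 2) - ((2 : ℤ) • ((Z ((b 0) * (b 1)) (b 3) (b 4) (b 5) (b 6) (b 7)) * (b 2))) + (Z (((b 0) * (b 1)) * (b 2)) (b 3) (b 4) (b 5) (b 6) (b 7)))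
      rw [Z_swap45 (b 0) (b 3) (b 4) (b 5) (b 6) (b 7), Z_swap45 ((b 0) * (b 1)) (b 3) (b 4) (b 5) (b 6) (b 7), Z_swap45 (((b 0) * (b 1)) * (b 2)) (b 3) (b 4) (b 5) (b 6) (b 7)]
      simp only [neg_mul, smul_neg]
      abel
    · simp only [pol_id_A2, evP_var, evP_smul, evP_mul, evP_add, evP_sub, evP_J, evP_t, evP_e, evP_om, evP_X, evP_l, evP_Th, evP_Z]
      show ((Z (b 0) (b 3) (b 4) (b 5) (b 7) (b 6)) * (b 1)) * (b 2) - ((2 : ℤ) • ((Z ((b 0) * (b 1)) (b 3) (b 4) (b 5) (b 7) (b 6)) * (b 2))) + (Z (((b 0) * (b 1)) * (b 2)) (b 3) (b 4) (b 5) (b 7) (b 6)) = - (((Z (b 0) (b 3) (b 4) (b 5) (b 6) (b 7)) * (b 1)) * (b 2) - ((2 : ℤ) • ((Z ((b 0) * (b 1)) (b 3) (b 4) (b 5) (b 6) (b 7)) * (b 2))) + (Z (((b 0) * (b 1)) * (b 2)) (b 3) (b 4)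 (b 5) (b 6) (b 7)))
      rw [Z_swap56 (b 0) (b 3) (b 4) (b 5) (b 6) (b 7), Z_swap56 ((b 0) * (b 1)) (b 3) (b 4) (b 5) (b 6) (b 7), Z_swap56 (((b 0) * (b 1)) * (b 2)) (b 3) (b 4) (b 5) (b 6) (b 7)]
      simp only [neg_mul, smul_neg]
      abel

end Pool.Agent.MalF
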