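import Pool.Agent.MalF.EngX
import Pool.Agent.MalF.EngP

/-!
# Identity D5
-/

set_option maxRecDepth 100000
set_option linter.unusedSimpArgs false

namespace Pool.Agent.MalF

open Tr

variable {A : Type*} [NonUnitalNonAssocRing A] [IsMalcev A] [TF A]

/-- Certificate. -/
def cert_id_D5 : List Inst :=
  [⟨28, v 3, v 1, v 0, v 2, [v 4]⟩,
  ⟨26, v 3, v 2, v 1, v 0, [v 4]⟩,
  ⟨20, v 3, v 0, v 2, v 1, [v 4]⟩,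
  ⟨19, v 4, v 3, m (v 1) (v 0), v 2, []⟩,
  ⟨10, v 3, v 2, v 0, v 1, [v 4]⟩,
  ⟨-8, v 4, v 3, v 0, m (v 2) (v 1), []⟩,
  ⟨-9, v 4, v 1, v 3, v 2, [v 0]⟩,
  ⟨9, v 4, v 3, m (v 2) (v 1), v 0, []⟩,
  ⟨11, v 4, v 1, v 0, v 2, [v 3]⟩,
  ⟨-15, v 4, v 3, m (v 2) (v 0), v 1, []⟩,
  ⟨11, v 4, v 0, v 2, v 1, [v 3]⟩,
  ⟨16, v 4, v 2, m (v 1) (v 0), v 3, []⟩,
  ⟨3, v 4, v 2, v 1, v 0, [v 3]⟩,
  ⟨-3, v 4, v 2, m (v 3) (v 1), v 0, []⟩,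
  ⟨3, v 4, v 3, v 1, v 0, [v 2]⟩,
  ⟨1, v 4, v 1, v 0, v 3, [v 2]⟩,
  ⟨4, v 4, v 3, v 1, m (v 2) (v 0), []⟩,
  ⟨10, v 4, v 1, v 2, v 0, [v 3]⟩,
  ⟨2, v 4, v 2, v 1, m (v 3) (v 0), []⟩,
  ⟨14, v 4, v 3, v 2, m (v 1) (v 0), []⟩,
  ⟨1, v 4, m (v 3) (v 2), v 0, v 1, []⟩,
  ⟨-11, v 4, v 2, m (v 3) (v 0), v 1, []⟩,
  ⟨-9, v 4, v 1, v 3, m (v 2) (v 0), []⟩,
  ⟨-7, v 4, v 2, v 0, v 3, [v 1]⟩,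
  ⟨15, v 4, v 2, v 3, m (v 1) (v 0), []⟩,
  ⟨-6, v 4, v 2, v 0, m (v 3) (v 1), []⟩,
  ⟨-7, v 4, v 1, v 2, m (v 3) (v 0), []⟩,
  ⟨-17, v 4, m (v 2) (v 1), v 3, v 0, []⟩,
  ⟨1, v 4, m (v 3) (v 1), v 2, v 0, []⟩,
  ⟨-13, v 4, v 0, v 3, v 1, [v 2]⟩,
  ⟨-11, v 4, v 0, v 3, m (v 2) (v 1), []⟩,
  ⟨3, v 4, v 2, v 1, v 3, [v 0]⟩,
  ⟨10, v 4, v 1, v 3, v 0, [v 2]⟩,
  ⟨-5, v 4, m (v 3) (v 0), v 2, v 1, []⟩,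
  ⟨5, v 4, v 0, v 3, v 2, [v 1]⟩,
  ⟨-2, v 4, v 1, m (v 2) (v 0), v 3, []⟩,
  ⟨3, v 4, m (v 2) (v 0), v 3, v 1, []⟩,
  ⟨3, v 4, v 0, v 2, m (v 3) (v 1), []⟩,
  ⟨4, v 3, v 2, m (v 4) (v 0), v 1, []⟩,
  ⟨-8, v 4, m (v 3) (v 1), v 0, v 2, []⟩,
  ⟨-14, v 4, m (v 2) (v 1), v 0, v 3, []⟩,
  ⟨4, v 4, v 3, v 0, v 1, [v 2]⟩,
  ⟨-6, v 4, v 1, m (v 3) (v 0), v 2, []⟩,
  ⟨6, v 3, v 1, v 2, v 0, [v 4]⟩,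
  ⟨2, v 3, v 2, v 0, m (v 4) (v 1), []⟩,
  ⟨8, v 3, m (v 4) (v 2), v 1, v 0, []⟩,
  ⟨9, v 4, v 1, v 0, m (v 3) (v 2), []⟩,
  ⟨-7, v 4, v 3, v 2, v 0, [v 1]⟩,
  ⟨9, v 4, m (v 1) (v 0), v 3, v 2, []⟩,
  ⟨13, v 4, v 0, m (v 3) (v 2), v 1, []⟩,
  ⟨-1, v 4, v 3, v 2, v 1, [v 0]⟩,
  ⟨8, v 3, v 2, v 1, m (v 4) (v 0), []⟩,
  ⟨-10, v 3, m (v 4) (v 2), v 0, v 1, []⟩,
  ⟨10, v 4, v 2, v 0, v 1, [v 3]⟩,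
  ⟨2, v 4, v 1, m (v 3) (v 2), v 0, []⟩,
  ⟨-16, v 4, v 2, v 3, v 0, [v 1]⟩,
  ⟨12, v 4, v 2, v 3, v 1, [v 0]⟩,
  ⟨-2, v 4, v 3, v 1, v 2, [v 0]⟩]

def pol_id_D5 : Pol := (Pol.add (Pol.add (Pol.add (Pol.add (Pol.add (Pol.add (Pol.add (Pol.add (Pol.add (Pol.add (Pol.add (Pol.add (Pol.add (Pol.add (Pol.add (Pol.add (Pol.add (Pol.add (Pol.add (Pol.add (Pol.add (Pol.add (Pol.add (Pol.add (Pol.add (Pol.add (Pol.add (Pol.add (Pol.add (Pol.smul (12) (Pol.mul (Pol.mul (Pol.mul (Pol.var 0) (Pol.var 1)) (Pol.var 2)) (Pol.mul (Pol.var 3) (Pol.var 4)))) (Pol.smul (1) (Pol.e (Pol.mul (Pol.var 0) (Pol.var 1)) (Pol.var 3) (Pol.var 2) (Pol.var 4)))) (Pol.smul (2) (Pol.e (Pol.mul (Pol.var 0) (Pol.var 1)) (Pol.var 4) (Pol.var 2) (Pol.var 3)))) (Pol.smul (-3) (Pol.e (Pol.mul (Pol.var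 0) (Pol.var 2)) (Pol.var 4) (Pol.var 1) (Pol.var 3)))) (Pol.smul (1) (Pol.e (Pol.mul (Pol.var 0) (Pol.var 3)) (Pol.var 4) (Pol.var 1) (Pol.var 2)))) (Pol.smul (3) (Pol.e (Pol.mul (Pol.var 0) (Pol.var 4)) (Pol.var 1) (Pol.var 2) (Pol.var 3)))) (Pol.smul (-4) (Pol.e (Pol.mul (Pol.var 0) (Pol.var 4)) (Pol.var 2) (Pol.var 1) (Pol.var 3)))) (Pol.smul (-2) (Pol.e (Pol.mul (Pol.var 0) (Pol.var 4)) (Pol.var 3) (Pol.var 1) (Pol.var 2)))) (Pol.smul (-3) (Pol.e (Pol.mul (Pol.var 1) (Pol.var 2)) (Pol.var 0) (Pol.var 3) (Pol.var 4)))) (Pol.smul (1) (Pol.e (Pol.mul (Pol.var 1) (Pol.var 2)) (Pol.var 3) (Pol.var 0) (Pol.var 4)))) (Pol.smul (-1) (Pol.e (Pol.mul (Pol.var 1) (Pol.var 2)) (Pol.var 4) (Pol.var 0) (Pol.var 3)))) (Pol.smul (-1) (Pol.e (Pol.mul (Pol.var 1) (Pol.var 3))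 (Pol.var 4) (Pol.var 0) (Pol.var 2)))) (Pol.smul (3) (Pol.e (Pol.mul (Pol.var 1) (Pol.var 4)) (Pol.var 3) (Pol.var 0) (Pol.var 2)))) (Pol.smul (-1) (Pol.e (Pol.mul (Pol.var 2) (Pol.var 3)) (Pol.var 0) (Pol.var 1) (Pol.var 4)))) (Pol.smul (-3) (Pol.e (Pol.mul (Pol.var 2) (Pol.var 4)) (Pol.var 3) (Pol.var 0) (Pol.var 1)))) (Pol.smul (1) (Pol.e (Pol.mul (Pol.var 3) (Pol.var 4)) (Pol.var 1) (Pol.var 0) (Pol.var 2)))) (Pol.smul (-2) (Pol.e (Pol.var 2) (Pol.var 4) (Pol.mul (Pol.var 0) (Pol.var 1)) (Pol.var 3)))) (Pol.smul (-2) (Pol.e (Pol.var 2) (Pol.var 3) (Pol.mul (Pol.var 0) (Pol.var 1)) (Pol.var 4)))) (Pol.smul (2) (Pol.e (Pol.var 1) (Pol.var 4) (Pol.mul (Pol.var 0) (Pol.var 2)) (Pol.var 3)))) (Pol.smul (2) (Pol.e (Pol.var 1) (Pol.var 3) (Pol.mul (Pol.var 0) (Pol.var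 2)) (Pol.var 4)))) (Pol.smul (-2) (Pol.e (Pol.var 2) (Pol.var 3) (Pol.mul (Pol.var 0) (Pol.var 4)) (Pol.var 1)))) (Pol.smul (2) (Pol.e (Pol.var 1) (Pol.var 3) (Pol.mul (Pol.var 0) (Pol.var 4)) (Pol.var 2)))) (Pol.smul (-2) (Pol.e (Pol.var 0) (Pol.var 4) (Pol.mul (Pol.var 1) (Pol.var 2)) (Pol.var 3)))) (Pol.smul (-2) (Pol.e (Pol.var 0) (Pol.var 3) (Pol.mul (Pol.var 1) (Pol.var 2)) (Pol.var 4)))) (Pol.smul (2) (Pol.e (Pol.var 2) (Pol.var 3) (Pol.mul (Pol.var 1) (Pol.var 4)) (Pol.var 0)))) (Pol.smul (-2) (Pol.e (Pol.var 0) (Pol.var 3) (Pol.mul (Pol.var 1) (Pol.var 4)) (Pol.var 2)))) (Pol.smul (-2) (Pol.e (Pol.var 1) (Pol.var 3) (Pol.mul (Pol.var 2) (Pol.var 4)) (Pol.var 0)))) (Pol.smul (2) (Pol.e (Pol.var 0) (Pol.var 3) (Pol.mul (Pol.var 2) (Pol.var 4)) (Pol.var 1))))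 (Pol.smul (-2) (Pol.e (Pol.var 1) (Pol.var 2) (Pol.mul (Pol.var 3) (Pol.var 4)) (Pol.var 0)))) (Pol.smul (2) (Pol.e (Pol.var 0) (Pol.var 2) (Pol.mul (Pol.var 3) (Pol.var 4)) (Pol.var 1))))

theorem ok_id_D5 : check id (fun _ => false) pol_id_D5 2 cert_id_D5 = true := by decide +kernel

/-- `((xz)c)(ab)` is a combination of `e`s. -/
theorem id_D5 (x z c a b : A) :
    (12 : ℤ) • (((x * z) * c) * (a * b)) + ((1 : ℤ) • (e (x * z) a c b)) + ((2 : ℤ) • (e (x * z) b c a)) + ((-3 : ℤ) • (e (x * c) b z a)) + ((1 : ℤ) • (e (x * a) b z c)) + ((3 : ℤ) • (e (x * b) z c a)) + ((-4 : ℤ) • (e (x * b) c z a)) + ((-2 : ℤ) • (e (x * b) a z c)) + ((-3 : ℤ) • (e (z * c) x a b)) + ((1 : ℤ) • (e (z * c) a x b)) + ((-1 : ℤ) • (e (z * c) b x a)) + ((-1 : ℤ) • (e (z * a) b x c)) + ((3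 : ℤ) • (e (z * b) a x c)) + ((-1 : ℤ) • (e (c * a) x z b)) + ((-3 : ℤ) • (e (c * b) a x z)) + ((1 : ℤ) • (e (a * b) z x c)) + ((-2 : ℤ) • (e c b (x * z) a)) + ((-2 : ℤ) • (e c a (x * z) b)) + ((2 : ℤ) • (e z b (x * c) a)) + ((2 : ℤ) • (e z a (x * c) b)) + ((-2 : ℤ) • (e c a (x * b) z)) + ((2 : ℤ) • (e z a (x * b) c)) + ((-2 : ℤ) • (e x b (z * c) a)) + ((-2 : ℤ) • (e x a (z * c) b)) + ((2 : ℤ) • (e c a (z * b) x)) + ((-2 : ℤ) • (e x a (z * b) c)) + ((-2 : ℤ) • (e z a (c * b) x)) + ((2 : ℤ) • (e x a (c * b) z)) + ((-2 : ℤ) • (e z c (a * b) x)) + ((2 : ℤ) • (e x c (a * b) z)) = 0 := by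
  have h := engine0 5 pol_id_D5 2 cert_id_D5 (by decide +kernel) (by decide) ok_id_D5
    (fun i => [x, z, c, a, b].getD i 0)
  simp only [pol_id_D5, evP_var, evP_smul, evP_mul, evP_add, evP_sub, evP_J, evP_t, evP_e, evP_om, evP_X, evP_l, evP_Th, evP_Z] at h
  exact h

end Pool.Agent.MalF
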