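import Pool.Agent.MalF.EngX
import Pool.Agent.MalF.EngP
import Pool.Agent.MalF.Swap

/-!
# Identity F4: `2 J(l(w,w;y,x,r),a,b) = X(w,w|y,x,ab,r)+X(w,w|y,x,r,a)b+X(w,w|y,x,b,r)a`
-/

set_option maxRecDepth 100000
set_option linter.unusedSimpArgs false

namespace Pool.Agent.MalF

open Tr

variable {A : Type*} [NonUnitalNonAssocRing A] [IsMalcev A] [TF A]

/-- Certificate. -/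
def cert_id_F4 : List Inst :=
  [⟨20, v 3, m (m (m (v 2) (v 1)) (v 1)) (v 3), v 0, v 0, []⟩,
  ⟨-11, v 2, m (v 1) (v 1), v 0, v 0, [v 3, v 3]⟩,
  ⟨-37, v 2, v 0, v 1, v 1, [v 0, v 3, v 3]⟩,
  ⟨1, v 2, v 1, v 0, v 1, [v 0, v 3, v 3]⟩,
  ⟨26, v 3, m (m (v 1) (v 1)) (v 2), v 0, v 0, [v 3]⟩,
  ⟨-23, v 3, m (m (m (v 1) (v 1)) (v 2)) (v 3), v 0, v 0, []⟩,
  ⟨19, v 2, v 1, v 1, v 0, [v 0, v 3, v 3]⟩,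
  ⟨30, v 3, m (v 1) (v 1), v 0, v 2, [v 0, v 3]⟩,
  ⟨4, v 2, v 1, v 1, v 0, [v 3, v 0, v 3]⟩,
  ⟨-25, v 2, v 0, v 1, v 1, [v 3, v 0, v 3]⟩,
  ⟨-2, v 3, v 2, m (v 1) (v 1), v 0, [v 0, v 3]⟩,
  ⟨-4, v 2, v 1, v 0, v 1, [v 3, v 0, v 3]⟩,
  ⟨7, v 3, m (v 1) (v 1), v 2, v 0, [v 0, v 3]⟩,
  ⟨9, v 3, v 2, v 0, m (v 1) (v 1), [v 0, v 3]⟩,
  ⟨11, v 3, v 0, v 1, v 1, [v 2, v 0, v 3]⟩,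
  ⟨5, v 3, v 1, v 1, v 0, [v 2, v 0, v 3]⟩,
  ⟨-5, v 3, v 1, v 0, v 1, [v 2, v 0, v 3]⟩,
  ⟨17, v 3, v 2, m (m (v 1) (v 1)) (v 0), v 0, [v 3]⟩,
  ⟨-20, v 3, m (m (v 2) (v 1)) (v 1), v 0, v 0, [v 3]⟩,
  ⟨-11, v 3, v 1, v 1, v 0, [m (v 2) (v 0), v 3]⟩,
  ⟨11, v 3, v 1, v 0, v 1, [m (v 2) (v 0), v 3]⟩,
  ⟨-11, v 3, m (m (v 3) (v 2)) (m (v 1) (v 1)), v 0, v 0, []⟩,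
  ⟨-3, v 3, v 0, v 2, m (v 1) (v 1), [v 0, v 3]⟩,
  ⟨2, v 2, v 0, v 1, v 1, [m (v 3) (v 0), v 3]⟩,
  ⟨-2, v 3, v 2, v 0, m (m (v 1) (v 1)) (v 0), [v 3]⟩,
  ⟨-5, v 2, v 1, v 1, v 0, [m (v 3) (v 0), v 3]⟩,
  ⟨5, v 2, v 1, v 0, v 1, [m (v 3) (v 0), v 3]⟩,
  ⟨-1, v 3, m (m (m (v 1) (v 1)) (v 3)) (v 2), v 0, v 0, []⟩,
  ⟨-20, v 3, v 0, m (v 1) (v 1), v 0, [v 2, v 3]⟩,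
  ⟨13, m (v 3) (v 2), m (v 1) (v 1), v 0, v 0, [v 3]⟩,
  ⟨9, v 3, v 2, v 0, v 0, [m (v 1) (v 1), v 3]⟩,
  ⟨3, m (v 3) (v 2), v 0, m (v 1) (v 1), v 0, [v 3]⟩,
  ⟨-8, v 3, m (v 1) (v 1), v 0, m (v 2) (v 0), [v 3]⟩,
  ⟨-28, v 3, m (v 1) (v 1), m (v 2) (v 0), v 0, [v 3]⟩,
  ⟨18, v 3, v 0, v 2, m (m (v 1) (v 1)) (v 0), [v 3]⟩,
  ⟨-22, v 3, v 0, m (m (v 1) (v 1)) (v 0), v 2, [v 3]⟩,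
  ⟨-22, v 3, m (v 1) (v 1), v 0, v 0, [v 2, v 3]⟩,
  ⟨3, v 3, v 0, v 2, v 0, [m (v 1) (v 1), v 3]⟩,
  ⟨-9, v 3, v 0, m (v 1) (v 1), m (v 2) (v 0), [v 3]⟩,
  ⟨26, v 2, v 0, m (m (v 1) (v 1)) (v 3), v 0, [v 3]⟩,
  ⟨-23, v 3, v 0, m (v 2) (v 0), m (v 1) (v 1), [v 3]⟩,
  ⟨-32, v 3, m (v 2) (v 0), m (v 1) (v 1), v 0, [v 3]⟩,
  ⟨-4, v 3, v 3, v 2, m (m (m (v 1) (v 0)) (v 1)) (v 0), []⟩,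
  ⟨-12, v 3, v 3, v 2, m (m (m (v 1) (v 0)) (v 0)) (v 1), []⟩,
  ⟨16, v 3, v 0, v 1, v 1, [v 3, v 0, v 2]⟩,
  ⟨-18, v 3, v 3, v 0, m (v 1) (v 1), [v 0, v 2]⟩,
  ⟨-12, v 3, v 1, v 1, v 0, [v 3, v 0, v 2]⟩,
  ⟨10, v 3, m (m (v 1) (v 1)) (v 3), v 0, v 0, [v 2]⟩,
  ⟨-10, v 3, v 3, v 0, m (m (v 1) (v 1)) (v 0), [v 2]⟩,
  ⟨-17, v 3, m (v 1) (v 1), v 0, v 0, [v 3, v 2]⟩,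
  ⟨-4, v 3, v 1, v 1, v 0, [v 0, v 3, v 2]⟩,
  ⟨-21, v 3, v 0, v 1, v 1, [v 0, v 3, v 2]⟩,
  ⟨10, v 3, v 3, m (m (v 1) (v 1)) (v 0), v 0, [v 2]⟩,
  ⟨6, v 3, m (v 1) (v 1), v 3, v 0, [v 0, v 2]⟩,
  ⟨12, v 3, v 1, v 0, v 1, [v 3, v 0, v 2]⟩,
  ⟨-10, v 3, m (v 1) (v 1), v 0, m (v 3) (v 0), [v 2]⟩,
  ⟨-10, v 3, m (v 1) (v 1), m (v 3) (v 0), v 0, [v 2]⟩,
  ⟨-10, m (v 3) (v 3), m (v 1) (v 1), v 0, v 0, [v 2]⟩,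
  ⟨4, v 3, v 1, v 0, v 1, [v 0, v 3, v 2]⟩,
  ⟨-16, m (v 3) (v 2), m (m (v 1) (v 1)) (v 3), v 0, v 0, []⟩,
  ⟨-2, m (m (v 3) (v 3)) (v 2), m (v 1) (v 1), v 0, v 0, []⟩,
  ⟨2, v 3, v 3, v 2, m (v 1) (v 1), [v 0, v 0]⟩,
  ⟨1, v 2, v 1, v 0, v 1, [v 3, m (v 3) (v 0)]⟩,
  ⟨-23, v 2, v 0, v 1, v 1, [v 3, m (v 3) (v 0)]⟩,
  ⟨-10, v 3, v 0, v 1, v 1, [v 2, m (v 3) (v 0)]⟩,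
  ⟨-1, v 3, v 1, v 0, v 1, [v 2, m (v 3) (v 0)]⟩,
  ⟨-11, v 3, m (v 1) (v 1), v 0, v 2, [m (v 3) (v 0)]⟩,
  ⟨-1, v 2, v 1, v 1, v 0, [v 3, m (v 3) (v 0)]⟩,
  ⟨-22, v 3, v 2, m (v 1) (v 1), v 0, [m (v 3) (v 0)]⟩,
  ⟨1, v 3, m (v 1) (v 1), v 2, v 0, [m (v 3) (v 0)]⟩,
  ⟨1, v 3, v 1, v 1, v 0, [v 2, m (v 3) (v 0)]⟩,
  ⟨-1, v 3, v 0, v 2, m (v 1) (v 1), [m (v 3) (v 0)]⟩,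
  ⟨28, v 2, m (m (m (v 1) (v 1)) (v 3)) (v 3), v 0, v 0, []⟩,
  ⟨-12, v 3, v 3, m (v 1) (v 1), v 2, [v 0, v 0]⟩,
  ⟨-12, v 2, m (m (v 3) (v 3)) (m (v 1) (v 1)), v 0, v 0, []⟩,
  ⟨-3, v 3, v 3, v 2, m (m (m (v 1) (v 1)) (v 0)) (v 0), []⟩,
  ⟨-10, v 3, m (v 1) (v 1), m (v 3) (v 2), v 0, [v 0]⟩,
  ⟨23, v 3, v 0, v 2, m (v 1) (v 1), [v 3, v 0]⟩,
  ⟨13, v 3, v 3, v 0, m (m (v 1) (v 1)) (v 2), [v 0]⟩,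
  ⟨-2, v 3, v 3, m (v 1) (v 1), m (v 2) (v 0), [v 0]⟩,
  ⟨-5, v 3, v 3, v 2, v 0, [m (v 1) (v 1), v 0]⟩,
  ⟨-14, v 3, v 2, v 3, v 0, [m (v 1) (v 1), v 0]⟩,
  ⟨19, v 3, v 2, m (v 1) (v 1), m (v 3) (v 0), [v 0]⟩,
  ⟨-14, v 3, v 3, m (v 2) (v 0), m (v 1) (v 1), [v 0]⟩,
  ⟨-32, v 3, v 2, v 0, m (m (v 1) (v 1)) (v 3), [v 0]⟩,
  ⟨19, v 3, v 2, m (v 3) (v 0), m (v 1) (v 1), [v 0]⟩,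
  ⟨-1, v 3, v 3, m (m (v 1) (v 1)) (v 2), v 0, [v 0]⟩,
  ⟨-6, v 3, v 2, v 3, m (v 1) (v 1), [v 0, v 0]⟩,
  ⟨12, v 2, v 0, v 1, v 1, [v 3, v 3, v 0]⟩,
  ⟨30, v 3, v 2, m (v 1) (v 1), v 0, [v 3, v 0]⟩,
  ⟨-10, v 3, v 3, v 0, m (m (v 2) (v 1)) (v 1), [v 0]⟩,
  ⟨-5, v 2, v 1, v 0, v 1, [v 3, v 3, v 0]⟩,
  ⟨32, v 3, m (v 1) (v 1), v 2, v 0, [v 3, v 0]⟩,
  ⟨-16, v 3, v 0, v 1, v 1, [v 2, v 3, v 0]⟩,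
  ⟨12, v 3, v 1, v 1, v 0, [v 2, v 3, v 0]⟩,
  ⟨-12, v 3, v 1, v 0, v 1, [v 2, v 3, v 0]⟩,
  ⟨-1, v 3, v 2, m (m (v 1) (v 1)) (v 3), v 0, [v 0]⟩,
  ⟨-5, v 3, v 1, v 0, v 1, [m (v 3) (v 2), v 0]⟩,
  ⟨5, v 3, m (v 3) (v 2), m (v 1) (v 1), v 0, [v 0]⟩,
  ⟨17, v 3, m (v 3) (v 2), v 0, m (v 1) (v 1), [v 0]⟩,
  ⟨30, v 3, v 2, v 0, m (v 1) (v 1), [v 3, v 0]⟩,
  ⟨1, v 3, m (v 1) (v 1), v 3, m (v 2) (v 0), [v 0]⟩,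
  ⟨-1, v 2, v 1, v 0, v 1, [m (v 3) (v 3), v 0]⟩,
  ⟨-11, v 3, v 2, v 3, m (m (v 1) (v 1)) (v 0), [v 0]⟩,
  ⟨-9, v 2, v 1, v 1, v 0, [m (v 3) (v 3), v 0]⟩,
  ⟨10, v 3, v 0, v 1, v 1, [v 3, v 2, v 0]⟩,
  ⟨20, v 3, m (v 1) (v 1), m (v 3) (v 0), v 2, [v 0]⟩,
  ⟨18, v 3, v 3, m (v 1) (v 1), v 0, [v 2, v 0]⟩,
  ⟨5, v 3, v 1, v 1, v 0, [m (v 3) (v 2), v 0]⟩,
  ⟨1, v 3, v 1, v 0, v 1, [v 3, v 2, v 0]⟩,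
  ⟨-15, v 3, m (v 1) (v 1), v 2, m (v 3) (v 0), [v 0]⟩,
  ⟨-1, v 3, m (v 1) (v 1), v 0, m (v 3) (v 2), [v 0]⟩,
  ⟨11, v 3, v 0, v 1, v 1, [m (v 3) (v 2), v 0]⟩,
  ⟨10, v 3, v 3, m (m (v 2) (v 1)) (v 1), v 0, [v 0]⟩,
  ⟨-24, v 3, m (m (v 1) (v 1)) (v 2), v 3, v 0, [v 0]⟩,
  ⟨30, v 2, v 0, v 1, v 1, [m (v 3) (v 3), v 0]⟩,
  ⟨10, v 3, m (m (v 2) (v 1)) (v 1), v 3, v 0, [v 0]⟩,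
  ⟨-19, v 3, v 0, m (v 3) (v 2), m (v 1) (v 1), [v 0]⟩,
  ⟨-15, v 2, v 1, v 1, v 0, [v 3, v 3, v 0]⟩,
  ⟨7, v 3, m (v 1) (v 1), v 0, v 2, [v 3, v 0]⟩,
  ⟨19, v 3, v 0, v 2, m (m (v 1) (v 1)) (v 3), [v 0]⟩,
  ⟨-1, v 3, v 3, m (m (v 1) (v 1)) (v 0), v 2, [v 0]⟩,
  ⟨-3, v 3, m (v 1) (v 1), v 3, v 0, [v 2, v 0]⟩,
  ⟨6, v 3, v 0, v 1, v 1, [m (v 2) (v 0), v 3]⟩,
  ⟨14, v 3, v 3, m (v 1) (v 1), m (m (v 2) (v 0)) (v 0), []⟩,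
  ⟨3, v 3, v 2, v 0, m (v 3) (v 0), [m (v 1) (v 1)]⟩,
  ⟨9, v 3, v 2, m (v 3) (v 0), v 0, [m (v 1) (v 1)]⟩,
  ⟨1, v 3, v 2, v 0, v 0, [v 3, m (v 1) (v 1)]⟩,
  ⟨-3, v 3, m (v 3) (v 2), v 0, v 0, [m (v 1) (v 1)]⟩,
  ⟨-12, m (m (v 3) (v 2)) (v 3), m (v 1) (v 1), v 0, v 0, []⟩,
  ⟨12, v 3, v 2, v 0, v 0, [m (m (v 1) (v 1)) (v 3)]⟩,
  ⟨12, m (v 3) (v 2), v 0, m (m (v 1) (v 1)) (v 3), v 0, []⟩,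
  ⟨-14, v 2, v 0, m (m (v 3) (v 3)) (m (v 1) (v 1)), v 0, []⟩,
  ⟨-1, v 3, v 1, v 1, v 0, [v 3, v 2, v 0]⟩,
  ⟨10, v 3, v 3, v 0, m (m (m (v 1) (v 1)) (v 0)) (v 2), []⟩,
  ⟨7, v 3, v 3, v 0, m (m (m (v 1) (v 0)) (v 1)) (v 2), []⟩,
  ⟨-7, v 2, v 0, v 1, v 1, [m (m (v 3) (v 3)) (v 0)]⟩,
  ⟨10, v 2, v 1, v 1, v 0, [m (m (v 3) (v 3)) (v 0)]⟩,
  ⟨-7, v 3, v 3, v 0, m (m (m (v 2) (v 1)) (v 0)) (v 1), []⟩,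
  ⟨-10, v 3, v 3, v 0, m (m (m (v 1) (v 0)) (v 2)) (v 1), []⟩,
  ⟨-17, v 3, v 3, v 0, m (m (m (v 2) (v 0)) (v 1)) (v 1), []⟩,
  ⟨3, v 3, v 3, v 0, m (m (v 2) (v 1)) (m (v 1) (v 0)), []⟩,
  ⟨8, v 3, v 3, m (v 1) (v 1), v 0, [m (v 2) (v 0)]⟩,
  ⟨-11, v 3, v 0, v 1, v 1, [v 3, m (v 2) (v 0)]⟩,
  ⟨5, v 3, v 1, v 0, v 1, [v 3, m (v 2) (v 0)]⟩,
  ⟨-2, v 3, v 3, v 0, m (v 1) (v 1), [m (v 2) (v 0)]⟩,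
  ⟨5, v 3, v 3, m (v 2) (v 0), m (m (v 1) (v 1)) (v 0), []⟩,
  ⟨-5, v 3, v 1, v 1, v 0, [v 3, m (v 2) (v 0)]⟩,
  ⟨-5, v 3, v 3, m (m (v 1) (v 1)) (v 0), m (v 2) (v 0), []⟩,
  ⟨-3, v 3, m (v 1) (v 1), v 3, v 0, [m (v 2) (v 0)]⟩,
  ⟨-2, v 3, v 3, v 2, v 0, [m (m (v 1) (v 1)) (v 0)]⟩,
  ⟨5, v 3, v 2, v 3, v 0, [m (m (v 1) (v 1)) (v 0)]⟩,
  ⟨2, v 3, v 3, m (m (m (v 1) (v 1)) (v 0)) (v 2), v 0, []⟩,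
  ⟨-31, v 3, v 3, m (m (m (v 1) (v 0)) (v 1)) (v 2), v 0, []⟩,
  ⟨-35, v 2, v 0, v 1, v 1, [m (m (v 3) (v 0)) (v 3)]⟩,
  ⟨14, v 2, v 1, v 1, v 0, [m (m (v 3) (v 0)) (v 3)]⟩,
  ⟨6, v 2, v 1, v 0, v 1, [m (m (v 3) (v 0)) (v 3)]⟩,
  ⟨39, v 3, v 3, m (m (m (v 2) (v 0)) (v 1)) (v 1), v 0, []⟩,
  ⟨29, v 3, v 3, m (m (m (v 2) (v 1)) (v 0)) (v 1), v 0, []⟩,
  ⟨8, v 3, v 3, m (m (m (v 1) (v 0)) (v 2)) (v 1), v 0, []⟩,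
  ⟨21, v 3, v 3, m (m (v 2) (v 1)) (m (v 1) (v 0)), v 0, []⟩,
  ⟨9, v 3, v 3, m (m (v 2) (v 0)) (v 0), m (v 1) (v 1), []⟩,
  ⟨14, v 2, v 0, m (m (m (v 1) (v 1)) (v 3)) (v 3), v 0, []⟩,
  ⟨7, m (v 3) (v 3), m (m (v 1) (v 1)) (v 2), v 0, v 0, []⟩,
  ⟨1, v 2, v 0, m (v 1) (v 1), v 0, [m (v 3) (v 3)]⟩,
  ⟨5, v 2, v 1, v 1, v 0, [v 0, m (v 3) (v 3)]⟩,
  ⟨-10, m (v 3) (v 3), m (m (v 2) (v 1)) (v 1), v 0, v 0, []⟩,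
  ⟨12, v 3, v 2, v 3, m (m (m (v 1) (v 0)) (v 0)) (v 1), []⟩,
  ⟨-5, v 2, v 0, v 1, v 1, [v 0, m (v 3) (v 3)]⟩,
  ⟨4, v 3, v 3, m (m (m (v 1) (v 0)) (v 1)) (v 0), v 2, []⟩,
  ⟨-18, v 3, v 3, m (m (m (v 1) (v 1)) (v 0)) (v 0), v 2, []⟩,
  ⟨4, v 3, v 2, v 3, m (m (m (v 1) (v 0)) (v 1)) (v 0), []⟩,
  ⟨-3, v 3, v 2, v 3, m (m (m (v 1) (v 1)) (v 0)) (v 0), []⟩,
  ⟨5, v 2, v 1, v 0, v 1, [v 0, m (v 3) (v 3)]⟩,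
  ⟨7, v 3, v 2, v 0, m (m (m (v 1) (v 1)) (v 0)) (v 3), []⟩,
  ⟨-9, v 3, v 2, v 0, m (m (m (v 1) (v 0)) (v 1)) (v 3), []⟩,
  ⟨1, v 3, v 1, v 1, v 0, [m (m (v 3) (v 2)) (v 0)]⟩,
  ⟨-1, v 3, v 1, v 0, v 1, [m (m (v 3) (v 2)) (v 0)]⟩,
  ⟨-2, v 3, v 2, v 0, m (m (m (v 1) (v 0)) (v 3)) (v 1), []⟩,
  ⟨9, v 3, v 2, v 0, m (m (v 3) (v 1)) (m (v 1) (v 0)), []⟩,
  ⟨14, v 3, v 2, m (v 3) (v 0), m (m (v 1) (v 1)) (v 0), []⟩,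
  ⟨11, v 3, v 2, v 0, m (m (m (v 3) (v 1)) (v 0)) (v 1), []⟩,
  ⟨11, v 3, v 2, v 0, m (m (m (v 3) (v 0)) (v 1)) (v 1), []⟩,
  ⟨-10, v 3, v 0, v 1, v 1, [m (m (v 3) (v 2)) (v 0)]⟩,
  ⟨-27, v 3, v 0, v 1, v 1, [m (m (v 3) (v 0)) (v 2)]⟩,
  ⟨-6, v 3, v 2, m (m (m (v 3) (v 0)) (v 1)) (v 1), v 0, []⟩,
  ⟨16, v 3, v 2, m (m (m (v 1) (v 0)) (v 1)) (v 3), v 0, []⟩,
  ⟨-3, v 3, v 2, m (m (v 1) (v 1)) (v 0), m (v 3) (v 0), []⟩,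
  ⟨7, v 3, v 1, v 1, v 0, [m (m (v 3) (v 0)) (v 2)]⟩,
  ⟨-7, v 3, v 1, v 0, v 1, [m (m (v 3) (v 0)) (v 2)]⟩,
  ⟨10, v 3, v 2, m (m (m (v 1) (v 1)) (v 0)) (v 3), v 0, []⟩,
  ⟨-6, v 3, v 2, m (m (m (v 3) (v 1)) (v 0)) (v 1), v 0, []⟩,
  ⟨-10, v 3, v 2, m (m (m (v 1) (v 0)) (v 3)) (v 1), v 0, []⟩,
  ⟨-16, v 3, v 2, m (m (v 3) (v 1)) (m (v 1) (v 0)), v 0, []⟩,
  ⟨-5, v 3, m (v 3) (v 2), v 0, m (m (v 1) (v 1)) (v 0), []⟩,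
  ⟨4, v 3, m (v 3) (v 2), m (m (v 1) (v 1)) (v 0), v 0, []⟩,
  ⟨6, m (v 3) (v 3), v 0, m (v 1) (v 1), v 0, [v 2]⟩,
  ⟨-16, v 3, v 0, v 1, v 1, [v 0, m (v 3) (v 2)]⟩,
  ⟨11, v 3, m (v 1) (v 1), v 3, m (m (v 2) (v 0)) (v 0), []⟩,
  ⟨8, v 3, v 0, m (m (v 3) (v 2)) (m (v 1) (v 1)), v 0, []⟩,
  ⟨14, v 3, v 0, v 2, v 0, [v 3, m (v 1) (v 1)]⟩,
  ⟨-14, v 3, m (v 1) (v 1), m (m (v 3) (v 0)) (v 0), v 2, []⟩,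
  ⟨14, v 3, v 0, m (m (v 1) (v 1)) (v 3), v 0, [v 2]⟩,
  ⟨-6, v 3, m (v 1) (v 1), v 0, m (m (v 2) (v 0)) (v 3), []⟩,
  ⟨-21, v 3, m (v 1) (v 1), v 0, m (m (v 3) (v 0)) (v 2), []⟩,
  ⟨-6, v 3, m (v 1) (v 1), m (v 3) (v 0), m (v 2) (v 0), []⟩,
  ⟨-5, v 3, m (v 1) (v 1), m (v 2) (v 0), m (v 3) (v 0), []⟩,
  ⟨-1, v 3, m (v 1) (v 1), m (m (v 2) (v 0)) (v 3), v 0, []⟩,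
  ⟨1, v 3, m (v 1) (v 1), m (m (v 3) (v 0)) (v 2), v 0, []⟩,
  ⟨1, v 3, m (v 1) (v 1), m (m (v 3) (v 2)) (v 0), v 0, []⟩,
  ⟨-17, v 3, m (m (v 1) (v 1)) (v 3), v 0, m (v 2) (v 0), []⟩,
  ⟨24, v 3, m (m (v 1) (v 1)) (v 2), v 0, m (v 3) (v 0), []⟩,
  ⟨-20, v 3, m (m (v 2) (v 1)) (v 1), v 0, m (v 3) (v 0), []⟩,
  ⟨10, v 3, v 0, v 3, m (m (m (v 1) (v 0)) (v 1)) (v 2), []⟩,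
  ⟨35, v 3, m (m (v 1) (v 1)) (v 2), m (v 3) (v 0), v 0, []⟩,
  ⟨-20, v 3, m (m (v 2) (v 1)) (v 1), m (v 3) (v 0), v 0, []⟩,
  ⟨2, v 3, v 0, v 3, m (m (m (v 1) (v 1)) (v 0)) (v 2), []⟩,
  ⟨-10, v 3, v 0, v 3, m (m (m (v 2) (v 0)) (v 1)) (v 1), []⟩,
  ⟨28, v 3, v 0, v 2, m (m (m (v 3) (v 0)) (v 1)) (v 1), []⟩,
  ⟨-4, v 3, v 0, v 2, m (m (m (v 1) (v 0)) (v 1)) (v 3), []⟩,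
  ⟨9, v 3, v 3, v 0, v 2, [v 0, m (v 1) (v 1)]⟩,
  ⟨3, v 3, v 3, v 0, m (v 2) (v 0), [m (v 1) (v 1)]⟩,
  ⟨-9, v 3, v 3, m (v 2) (v 0), v 0, [m (v 1) (v 1)]⟩,
  ⟨12, v 3, v 0, m (m (v 1) (v 1)) (v 2), v 0, [v 3]⟩,
  ⟨28, v 3, v 0, v 2, m (m (m (v 3) (v 1)) (v 0)) (v 1), []⟩,
  ⟨12, v 3, v 3, m (m (m (v 1) (v 0)) (v 0)) (v 1), v 2, []⟩,
  ⟨-24, v 3, v 0, v 2, m (m (m (v 1) (v 0)) (v 3)) (v 1), []⟩,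
  ⟨4, v 3, v 0, v 2, m (m (v 3) (v 1)) (m (v 1) (v 0)), []⟩,
  ⟨-6, m (v 3) (v 3), v 0, v 2, v 0, [m (v 1) (v 1)]⟩,
  ⟨-3, v 3, v 0, m (v 1) (v 1), v 0, [v 3, v 2]⟩,
  ⟨-6, v 3, v 0, m (v 1) (v 1), m (m (v 3) (v 0)) (v 2), []⟩,
  ⟨-15, m (m (v 3) (v 2)) (v 3), v 0, m (v 1) (v 1), v 0, []⟩,
  ⟨3, m (v 3) (v 3), v 2, v 0, v 0, [m (v 1) (v 1)]⟩,
  ⟨-3, v 3, v 2, m (m (v 3) (v 0)) (v 0), m (v 1) (v 1), []⟩,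
  ⟨-3, v 3, v 0, m (v 3) (v 2), v 0, [m (v 1) (v 1)]⟩,
  ⟨-3, v 3, v 0, m (m (m (v 1) (v 1)) (v 3)) (v 2), v 0, []⟩,
  ⟨-6, v 3, v 0, m (v 1) (v 1), m (m (v 2) (v 0)) (v 3), []⟩,
  ⟨-12, v 3, v 0, m (m (v 1) (v 1)) (v 3), m (v 2) (v 0), []⟩,
  ⟨12, v 3, v 0, m (v 2) (v 0), m (m (v 1) (v 1)) (v 3), []⟩,
  ⟨-12, v 3, v 0, m (v 3) (v 2), m (m (v 1) (v 1)) (v 0), []⟩,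
  ⟨12, v 3, v 1, v 1, v 0, [v 0, m (v 3) (v 2)]⟩,
  ⟨4, v 3, v 3, m (v 1) (v 1), v 0, [v 0, v 2]⟩,
  ⟨-12, v 3, v 1, v 0, v 1, [v 0, m (v 3) (v 2)]⟩,
  ⟨-6, m (v 3) (v 3), v 0, m (m (v 1) (v 1)) (v 2), v 0, []⟩,
  ⟨2, v 3, v 3, v 0, m (v 1) (v 1), [v 2, v 0]⟩,
  ⟨6, v 3, v 0, m (m (v 2) (v 0)) (v 3), m (v 1) (v 1), []⟩,
  ⟨-3, v 3, v 2, v 3, v 0, [v 0, m (v 1) (v 1)]⟩,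
  ⟨3, m (m (v 3) (v 3)) (v 2), v 0, m (v 1) (v 1), v 0, []⟩,
  ⟨3, v 3, v 3, v 2, m (m (v 1) (v 1)) (v 0), [v 0]⟩,
  ⟨6, v 3, v 0, m (m (v 3) (v 0)) (v 2), m (v 1) (v 1), []⟩,
  ⟨-6, v 3, v 2, m (v 1) (v 1), m (m (v 3) (v 0)) (v 0), []⟩,
  ⟨6, v 3, v 0, v 2, v 0, [m (m (v 1) (v 1)) (v 3)]⟩,
  ⟨-6, v 3, v 0, m (m (v 3) (v 2)) (v 0), m (v 1) (v 1), []⟩,
  ⟨12, v 3, v 0, m (m (v 1) (v 1)) (v 0), m (v 3) (v 2), []⟩,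
  ⟨12, v 3, m (v 1) (v 1), v 0, v 0, [m (v 3) (v 2)]⟩]

def pol_id_F4 : Pol := (Pol.sub (Pol.sub (Pol.sub (Pol.smul (2) (Pol.J (Pol.l (Pol.var 0) (Pol.var 1) (Pol.var 2) (Pol.var 3) (Pol.var 4)) (Pol.var 5) (Pol.var 6))) (Pol.X (Pol.var 0) (Pol.var 1) (Pol.var 2) (Pol.var 3) (Pol.mul (Pol.var 5) (Pol.var 6)) (Pol.var 4))) (Pol.mul (Pol.X (Pol.var 0) (Pol.var 1) (Pol.var 2) (Pol.var 3) (Pol.var 4) (Pol.var 5)) (Pol.var 6))) (Pol.mul (Pol.X (Pol.var 0) (Pol.var 1) (Pol.var 2) (Pol.var 3) (Pol.var 6) (Pol.var 4)) (Pol.var 5)))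

def g_id_F4 : ℕ → ℕ := fun i => [0, 0, 1, 1, 2, 3, 3].getD i 3
def p_id_F4 : ℕ → Bool := fun i => [false, true, false, true].getD i false

theorem ok_id_F4 : check g_id_F4 p_id_F4 pol_id_F4 (2) cert_id_F4 = true := by decide +kernel

/-- F4 -/
theorem id_F4 (w y x r a b : A) :
    (2 : ℤ) • (J (l w w y x r) a b) - (X w w y x (a * b) r) - ((X w w y x r a) * b) - ((X w w y x b r) * a) = 0 := by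
  have h := engine 7 g_id_F4 p_id_F4 pol_id_F4 (2) cert_id_F4 (by decide +kernel) (by decide) ok_id_F4
    (by decide +kernel) (fun i => [w, w, y, x, r, a, b].getD i 0) ?_ ?_
  · simp only [pol_id_F4, evP_var, evP_smul, evP_mul, evP_add, evP_sub, evP_J, evP_t, evP_e, evP_om, evP_X, evP_l, evP_Th, evP_Z] at h
    exact h
  · intro i hi j hj hg hp
    interval_cases i <;> interval_cases j <;> first | rfl | (exfalso; revert hg hp; decide)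
  · intro b i hi hg hp
    have hi' : i < 6 := by omega
    clear hi
    interval_cases i
    · exfalso; revert hg hp; decide
    · exfalso; revert hg hp; decide
    · simp only [pol_id_F4, evP_var, evP_smul, evP_mul, evP_add, evP_sub, evP_J, evP_t, evP_e, evP_om, evP_X, evP_l, evP_Th, evP_Z]
      show (2 : ℤ) • (J (l (b 0) (b 1) (b 3) (b 2) (b 4)) (b 5) (b 6)) - (X (b 0) (b 1) (b 3) (b 2) ((b 5) * (b 6)) (b 4)) - ((X (b 0) (b 1) (b 3) (b 2) (b 4) (b 5)) * (b 6)) - ((X (b 0) (b 1) (b 3) (b 2) (b 6) (b 4)) * (b 5)) = - ((2 : ℤ) • (J (l (b 0) (b 1) (b 2) (b 3) (b 4)) (b 5) (b 6)) - (X (b 0) (b 1) (b 2) (b 3) ((b 5) * (b 6)) (b 4)) - ((X (b 0) (b 1) (b 2) (b 3) (b 4) (b 5)) * (b 6)) - ((X (b 0) (b 1) (b 2) (b 3) (b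 6) (b 4)) * (b 5)))
      rw [l_swap34]
      rw [X_swap34 (b 0) (b 1) (b 2) (b 3) (b 5 * b 6) (b 4), X_swap34 (b 0) (b 1) (b 2) (b 3) (b 4) (b 5),
        X_swap34 (b 0) (b 1) (b 2) (b 3) (b 6) (b 4)]
      simp only [J_neg1, neg_mul, smul_neg]
      abel
    · exfalso; revert hg hp; decide
    · exfalso; revert hg hp; decide
    · simp only [pol_id_F4, evP_var, evP_smul, evP_mul, evP_add, evP_sub, evP_J, evP_t, evP_e, evP_om, evP_X, evP_l, evP_Th, evP_Z]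
      show (2 : ℤ) • (J (l (b 0) (b 1) (b 2) (b 3) (b 4)) (b 6) (b 5)) - (X (b 0) (b 1) (b 2) (b 3) ((b 6) * (b 5)) (b 4)) - ((X (b 0) (b 1) (b 2) (b 3) (b 4) (b 6)) * (b 5)) - ((X (b 0) (b 1) (b 2) (b 3) (b 5) (b 4)) * (b 6)) = - ((2 : ℤ) • (J (l (b 0) (b 1) (b 2) (b 3) (b 4)) (b 5) (b 6)) - (X (b 0) (b 1) (b 2) (b 3) ((b 5) * (b 6)) (b 4)) - ((X (b 0) (b 1) (b 2) (b 3) (b 4) (b 5)) * (b 6)) - ((X (b 0) (b 1) (b 2) (b 3) (b 6) (b 4)) * (b 5)))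
      rw [J_swap23 _ (b 5) (b 6), anti (b 6) (b 5), X_neg5, X_swap56 (b 0) (b 1) (b 2) (b 3) (b 6) (b 4),
        X_swap56 (b 0) (b 1) (b 2) (b 3) (b 4) (b 5)]
      simp only [neg_mul, smul_neg]
      abel

end Pool.Agent.MalF
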