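import Pool.Agent.MalF.EngX
import Pool.Agent.MalF.EngP
import Pool.Agent.MalF.Swap

/-!
# Identity G: `Z(m;m,x1..x4) r + Z(m;m r,x1..x4) = 0`
-/

set_option maxRecDepth 100000
set_option linter.unusedSimpArgs false

namespace Pool.Agent.MalF

open Tr

variable {A : Type*} [NonUnitalNonAssocRing A] [IsMalcev A] [TF A]

/-- Certificate. -/
def cert_id_G : List Inst :=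
  [⟨-162, v 2, v 2, v 1, v 0, [v 0, v 2, v 2]⟩,
  ⟨-96, v 2, m (m (m (v 2) (v 2)) (v 1)) (v 2), v 0, v 0, []⟩,
  ⟨126, v 2, v 2, v 2, v 1, [m (v 2) (v 0), v 0]⟩,
  ⟨-33, v 2, v 2, v 2, v 1, [v 2, v 0, v 0]⟩,
  ⟨-96, v 2, v 2, v 2, v 1, [v 0, m (v 2) (v 0)]⟩,
  ⟨10, v 2, v 1, v 2, v 0, [v 0, v 2, v 2]⟩,
  ⟨18, v 2, v 2, v 0, v 1, [v 0, v 2, v 2]⟩,
  ⟨218, m (v 2) (v 2), v 1, v 0, v 0, [v 2, v 2]⟩,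
  ⟨-268, v 2, v 2, v 2, m (m (v 1) (v 0)) (v 0), [v 2]⟩,
  ⟨-12, v 2, m (m (m (v 2) (v 1)) (v 2)) (v 2), v 0, v 0, []⟩,
  ⟨-180, v 2, m (m (v 2) (v 2)) (m (v 2) (v 1)), v 0, v 0, []⟩,
  ⟨-96, v 2, v 2, v 2, v 1, [v 0, v 0, v 2]⟩,
  ⟨72, m (m (v 2) (v 2)) (v 2), m (v 2) (v 1), v 0, v 0, []⟩,
  ⟨60, v 2, v 1, v 0, v 0, [v 2, v 2, v 2]⟩,
  ⟨116, v 2, v 2, m (v 1) (v 0), v 0, [v 2, v 2]⟩,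
  ⟨-243, v 2, v 2, v 2, m (v 2) (v 1), [v 0, v 0]⟩,
  ⟨-222, m (v 2) (v 2), m (v 2) (v 1), v 0, v 0, [v 2]⟩,
  ⟨130, v 2, m (v 2) (v 2), v 1, v 0, [v 0, v 2]⟩,
  ⟨178, v 2, v 2, v 2, m (v 1) (v 0), [v 0, v 2]⟩,
  ⟨80, v 2, v 2, v 0, m (m (v 1) (v 0)) (v 2), [v 2]⟩,
  ⟨244, v 2, v 1, v 0, m (v 2) (v 0), [v 2, v 2]⟩,
  ⟨192, v 2, v 1, m (v 2) (v 0), v 0, [v 2, v 2]⟩,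
  ⟨232, v 2, m (v 2) (v 1), v 0, v 0, [v 2, v 2]⟩,
  ⟨46, v 2, v 2, v 1, m (v 2) (v 0), [v 0, v 2]⟩,
  ⟨-4, v 2, v 2, m (v 2) (v 1), v 0, [v 0, v 2]⟩,
  ⟨-126, v 2, v 2, v 1, v 0, [v 2, v 0, v 2]⟩,
  ⟨-324, v 2, v 2, v 0, m (v 2) (v 1), [v 0, v 2]⟩,
  ⟨-370, v 2, v 2, m (v 2) (v 0), v 1, [v 0, v 2]⟩,
  ⟨-302, v 2, v 1, v 2, v 0, [v 2, v 0, v 2]⟩,
  ⟨60, v 2, v 2, v 1, v 0, [m (v 2) (v 0), v 2]⟩,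
  ⟨72, v 2, v 1, v 2, v 0, [m (v 2) (v 0), v 2]⟩,
  ⟨-180, v 2, v 2, v 0, v 1, [m (v 2) (v 0), v 2]⟩,
  ⟨200, v 2, v 2, m (v 1) (v 0), m (v 2) (v 0), [v 2]⟩,
  ⟨176, v 2, v 2, m (v 2) (v 0), m (v 1) (v 0), [v 2]⟩,
  ⟨-20, v 2, v 2, m (m (v 2) (v 0)) (v 1), v 0, [v 2]⟩,
  ⟨264, v 2, v 1, v 0, m (v 2) (v 2), [v 0, v 2]⟩,
  ⟨240, v 2, v 2, v 2, v 0, [v 1, v 0, v 2]⟩,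
  ⟨112, v 2, v 2, v 0, m (v 1) (v 0), [v 2, v 2]⟩,
  ⟨182, v 2, v 1, v 2, m (v 2) (v 0), [v 0, v 2]⟩,
  ⟨-12, v 2, v 2, m (m (v 2) (v 1)) (v 0), v 0, [v 2]⟩,
  ⟨274, v 2, m (v 2) (v 2), v 0, v 1, [v 0, v 2]⟩,
  ⟨-334, v 2, v 2, v 0, v 1, [v 2, v 0, v 2]⟩,
  ⟨-100, v 2, v 2, m (m (v 1) (v 0)) (v 2), v 0, [v 2]⟩,
  ⟨-38, m (m (v 2) (v 2)) (v 2), v 1, v 0, v 0, [v 2]⟩,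
  ⟨-60, v 2, m (m (v 2) (v 2)) (v 1), v 0, v 0, [v 2]⟩,
  ⟨-596, v 2, m (v 2) (v 2), v 0, m (v 1) (v 0), [v 2]⟩,
  ⟨-252, v 2, m (m (v 2) (v 1)) (v 2), v 0, v 0, [v 2]⟩,
  ⟨-288, v 2, v 2, v 0, m (m (v 2) (v 1)) (v 0), [v 2]⟩,
  ⟨-56, v 2, v 2, v 1, m (m (v 2) (v 0)) (v 0), [v 2]⟩,
  ⟨-4, v 2, v 0, m (m (v 2) (v 2)) (v 1), v 0, [v 2]⟩,
  ⟨-104, v 2, v 0, m (v 2) (v 1), v 0, [v 2, v 2]⟩,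
  ⟨64, v 2, v 0, v 1, v 0, [v 2, v 2, v 2]⟩,
  ⟨230, v 2, m (v 2) (v 2), m (v 1) (v 0), v 0, [v 2]⟩,
  ⟨-96, v 2, v 1, v 0, m (m (v 2) (v 2)) (v 0), [v 2]⟩,
  ⟨-4, m (m (v 2) (v 2)) (v 2), v 0, v 1, v 0, [v 2]⟩,
  ⟨8, v 2, v 2, m (m (v 2) (v 0)) (v 0), v 1, [v 2]⟩,
  ⟨176, v 2, v 2, v 0, m (m (v 2) (v 0)) (v 1), [v 2]⟩,
  ⟨4, v 2, v 0, m (v 2) (v 2), v 0, [v 1, v 2]⟩,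
  ⟨-4, v 2, v 2, v 2, v 0, [v 0, v 1, v 2]⟩,
  ⟨-192, v 2, v 1, v 0, m (m (v 2) (v 0)) (v 2), [v 2]⟩,
  ⟨8, v 2, v 2, m (v 2) (v 0), v 0, [v 1, v 2]⟩,
  ⟨-120, v 2, v 1, m (v 2) (v 0), m (v 2) (v 0), [v 2]⟩,
  ⟨-120, v 2, v 2, v 0, v 0, [v 2, v 1, v 2]⟩,
  ⟨-320, v 2, v 1, m (m (v 2) (v 0)) (v 2), v 0, [v 2]⟩,
  ⟨-28, v 2, v 0, m (m (v 2) (v 1)) (v 2), v 0, [v 2]⟩,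
  ⟨-122, v 2, v 1, m (m (v 2) (v 2)) (v 0), v 0, [v 2]⟩,
  ⟨-130, v 2, v 2, v 2, v 0, [m (v 1) (v 0), v 2]⟩,
  ⟨-48, v 2, m (v 2) (v 0), m (m (v 2) (v 0)) (v 2), v 1, []⟩,
  ⟨-48, v 2, v 0, m (m (v 2) (v 0)) (v 2), v 1, [v 2]⟩,
  ⟨48, v 2, v 0, v 1, m (v 2) (v 0), [v 2, v 2]⟩,
  ⟨237, v 2, v 2, v 2, m (v 2) (v 0), [v 1, v 0]⟩,
  ⟨-21, v 2, v 2, v 0, m (v 2) (v 2), [v 1, v 0]⟩,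
  ⟨63, v 2, m (v 2) (v 2), v 2, v 0, [v 1, v 0]⟩,
  ⟨63, v 2, v 2, v 2, v 0, [v 2, v 1, v 0]⟩,
  ⟨-90, v 2, v 2, v 2, v 0, [m (v 2) (v 1), v 0]⟩,
  ⟨156, v 2, v 2, m (m (v 2) (v 2)) (v 0), v 1, [v 0]⟩,
  ⟨150, v 2, v 2, v 1, m (v 2) (v 0), [v 2, v 0]⟩,
  ⟨-426, v 2, v 2, m (m (v 2) (v 0)) (v 2), v 1, [v 0]⟩,
  ⟨432, v 2, m (v 2) (v 2), v 1, v 0, [v 2, v 0]⟩,
  ⟨-198, v 2, v 1, v 2, v 0, [v 2, v 2, v 0]⟩,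
  ⟨300, v 2, v 2, m (m (v 2) (v 1)) (v 2), v 0, [v 0]⟩,
  ⟨-240, v 2, v 2, v 0, m (v 2) (v 1), [v 2, v 0]⟩,
  ⟨-33, v 2, m (v 2) (v 2), v 2, v 1, [v 0, v 0]⟩,
  ⟨3, v 2, v 2, v 1, m (v 2) (v 2), [v 0, v 0]⟩,
  ⟨-243, v 2, m (v 2) (v 2), v 2, m (v 1) (v 0), [v 0]⟩,
  ⟨-243, v 2, v 2, v 2, m (v 1) (v 0), [v 2, v 0]⟩,
  ⟨-168, v 2, m (v 2) (v 2), m (v 2) (v 1), v 0, [v 0]⟩,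
  ⟨51, v 2, v 2, v 2, m (m (v 1) (v 0)) (v 2), [v 0]⟩,
  ⟨-78, v 2, m (v 2) (v 2), v 0, v 1, [v 2, v 0]⟩,
  ⟨-78, v 2, v 2, v 2, v 0, [v 1, v 2, v 0]⟩,
  ⟨-504, v 2, v 2, m (v 2) (v 1), m (v 2) (v 0), [v 0]⟩,
  ⟨384, v 2, v 2, m (v 2) (v 0), m (v 2) (v 1), [v 0]⟩,
  ⟨-75, v 2, v 2, m (v 1) (v 0), m (v 2) (v 2), [v 0]⟩,
  ⟨-294, v 2, v 2, m (m (v 2) (v 2)) (v 1), v 0, [v 0]⟩,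
  ⟨54, v 2, v 2, v 1, v 0, [m (v 2) (v 2), v 0]⟩,
  ⟨234, v 2, v 2, v 2, v 1, [v 0, v 2, v 0]⟩,
  ⟨-54, v 2, v 2, v 0, v 1, [m (v 2) (v 2), v 0]⟩,
  ⟨114, m (v 2) (v 2), m (v 2) (v 2), v 0, v 1, [v 0]⟩,
  ⟨-114, m (v 2) (v 2), m (v 2) (v 2), v 1, v 0, [v 0]⟩,
  ⟨-24, v 2, v 1, v 2, v 0, [m (v 2) (v 2), v 0]⟩,
  ⟨336, v 2, m (v 2) (v 2), m (v 2) (v 0), v 1, [v 0]⟩,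
  ⟨6, v 2, m (v 2) (v 2), v 0, m (v 2) (v 1), [v 0]⟩,
  ⟨-120, v 2, m (m (v 2) (v 2)) (v 2), v 1, v 0, [v 0]⟩,
  ⟨132, v 2, v 2, v 0, m (m (v 2) (v 2)) (v 1), [v 0]⟩,
  ⟨-18, v 2, v 2, m (m (v 2) (v 0)) (v 2), v 0, [v 1]⟩,
  ⟨-48, v 2, v 2, v 0, m (v 2) (v 0), [v 2, v 1]⟩,
  ⟨48, v 2, v 2, v 2, m (v 2) (v 0), [v 0, v 1]⟩,
  ⟨168, m (m (m (v 2) (v 2)) (v 2)) (v 2), v 0, v 1, v 0, []⟩,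
  ⟨84, m (m (m (v 2) (v 2)) (v 2)) (v 2), v 1, v 0, v 0, []⟩,
  ⟨-30, v 2, m (v 2) (v 2), v 2, v 0, [v 0, v 1]⟩,
  ⟨-6, v 2, v 2, v 0, m (m (v 2) (v 0)) (v 2), [v 1]⟩,
  ⟨144, v 2, m (v 2) (v 2), v 0, v 0, [v 2, v 1]⟩,
  ⟨-18, v 2, v 2, v 0, m (m (v 2) (v 2)) (v 0), [v 1]⟩,
  ⟨60, v 2, v 2, v 2, v 0, [m (v 2) (v 0), v 1]⟩,
  ⟨-60, v 2, v 2, m (v 2) (v 0), m (v 2) (v 0), [v 1]⟩,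
  ⟨-42, v 2, v 0, v 2, m (m (v 2) (v 0)) (v 2), [v 1]⟩,
  ⟨-42, v 2, m (v 2) (v 0), v 2, m (v 2) (v 0), [v 1]⟩,
  ⟨42, v 2, v 0, m (v 2) (v 2), v 0, [v 2, v 1]⟩,
  ⟨42, v 2, v 2, v 2, m (m (v 2) (v 0)) (v 0), [v 1]⟩,
  ⟨42, v 2, v 2, v 0, v 0, [m (v 2) (v 2), v 1]⟩,
  ⟨-366, v 2, v 2, v 0, v 1, [v 2, v 2, v 0]⟩,
  ⟨-6, v 2, v 2, v 1, v 0, [v 2, v 2, v 0]⟩,
  ⟨-18, v 2, v 2, m (v 2) (v 0), v 1, [v 2, v 0]⟩,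
  ⟨78, v 2, v 1, v 0, m (v 2) (v 2), [v 2, v 0]⟩,
  ⟨-78, v 2, v 2, v 2, m (m (v 2) (v 1)) (v 0), [v 0]⟩,
  ⟨-456, v 2, v 2, m (v 2) (v 1), v 0, [v 2, v 0]⟩,
  ⟨60, m (v 2) (v 2), v 0, m (m (v 2) (v 2)) (v 1), v 0, []⟩,
  ⟨150, m (v 2) (v 2), m (m (v 2) (v 2)) (v 1), v 0, v 0, []⟩,
  ⟨-150, v 2, v 2, v 1, m (v 2) (v 0), [m (v 2) (v 0)]⟩,
  ⟨240, v 2, m (v 2) (v 2), v 0, v 1, [m (v 2) (v 0)]⟩,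
  ⟨-324, v 2, v 2, m (v 2) (v 1), v 0, [m (v 2) (v 0)]⟩,
  ⟨-402, v 2, v 2, v 0, v 1, [v 2, m (v 2) (v 0)]⟩,
  ⟨6, v 2, v 2, v 1, v 0, [v 2, m (v 2) (v 0)]⟩,
  ⟨-6, v 2, m (v 2) (v 2), v 1, v 0, [m (v 2) (v 0)]⟩,
  ⟨-102, v 2, v 2, m (v 2) (v 0), v 1, [m (v 2) (v 0)]⟩,
  ⟨-108, v 2, v 2, v 0, v 1, [m (m (v 2) (v 0)) (v 2)]⟩,
  ⟨-108, v 2, v 1, v 2, v 0, [m (m (v 2) (v 0)) (v 2)]⟩,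
  ⟨-84, v 2, v 2, m (v 2) (v 1), m (m (v 2) (v 0)) (v 0), []⟩,
  ⟨-132, v 2, v 0, m (m (v 2) (v 2)) (m (v 2) (v 1)), v 0, []⟩,
  ⟨162, v 2, v 1, v 2, m (m (v 2) (v 0)) (v 2), [v 0]⟩,
  ⟨-42, v 2, v 2, v 1, m (m (v 2) (v 0)) (v 2), [v 0]⟩,
  ⟨126, v 2, m (v 2) (v 2), v 1, m (v 2) (v 0), [v 0]⟩,
  ⟨-360, v 2, v 2, v 0, m (m (m (v 1) (v 0)) (v 2)) (v 2), []⟩,
  ⟨12, v 2, v 2, v 0, m (m (v 2) (v 1)) (v 2), [v 0]⟩,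
  ⟨-78, v 2, v 1, v 2, v 0, [v 2, m (v 2) (v 0)]⟩,
  ⟨132, v 2, v 2, v 2, m (v 1) (v 0), [m (v 2) (v 0)]⟩,
  ⟨-12, v 2, v 2, v 0, m (v 2) (v 1), [m (v 2) (v 0)]⟩,
  ⟨-150, v 2, v 2, v 1, v 0, [m (m (v 2) (v 2)) (v 0)]⟩,
  ⟨132, v 2, v 1, v 2, v 0, [m (m (v 2) (v 2)) (v 0)]⟩,
  ⟨102, v 2, v 2, v 0, v 1, [m (m (v 2) (v 2)) (v 0)]⟩,
  ⟨-396, v 2, v 2, v 0, m (m (m (v 2) (v 0)) (v 1)) (v 2), []⟩,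
  ⟨408, v 2, v 2, v 0, m (m (m (v 2) (v 1)) (v 0)) (v 2), []⟩,
  ⟨48, v 2, v 2, v 0, m (m (v 2) (v 2)) (m (v 1) (v 0)), []⟩,
  ⟨36, v 2, v 2, v 0, m (m (m (v 2) (v 0)) (v 2)) (v 1), []⟩,
  ⟨102, v 2, v 2, v 0, m (m (m (v 2) (v 2)) (v 0)) (v 1), []⟩,
  ⟨-192, v 2, v 2, m (v 2) (v 0), m (m (v 1) (v 0)) (v 2), []⟩,
  ⟨-264, v 2, v 2, m (v 2) (v 0), m (m (v 2) (v 0)) (v 1), []⟩,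
  ⟨156, v 2, v 2, m (v 2) (v 0), m (m (v 2) (v 1)) (v 0), []⟩,
  ⟨-96, v 2, v 2, m (m (v 2) (v 0)) (v 2), m (v 1) (v 0), []⟩,
  ⟨210, v 2, m (v 2) (v 2), v 2, v 0, [m (v 1) (v 0)]⟩,
  ⟨258, v 2, v 2, v 2, m (v 2) (v 0), [m (v 1) (v 0)]⟩,
  ⟨-162, v 2, v 2, v 0, m (v 2) (v 2), [m (v 1) (v 0)]⟩,
  ⟨210, v 2, v 2, v 2, v 0, [v 2, m (v 1) (v 0)]⟩,
  ⟨354, v 2, v 2, m (m (v 2) (v 2)) (v 0), m (v 1) (v 0), []⟩,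
  ⟨102, v 2, v 2, v 2, v 0, [m (m (v 1) (v 0)) (v 2)]⟩,
  ⟨-36, v 2, v 2, m (v 1) (v 0), m (m (v 2) (v 0)) (v 2), []⟩,
  ⟨-60, v 2, m (v 2) (v 2), v 1, m (m (v 2) (v 0)) (v 0), []⟩,
  ⟨-48, v 2, v 1, v 2, m (m (v 2) (v 0)) (v 0), [v 2]⟩,
  ⟨-72, v 2, v 0, v 1, v 0, [v 2, m (v 2) (v 2)]⟩,
  ⟨48, v 2, v 0, v 1, v 0, [m (v 2) (v 2), v 2]⟩,
  ⟨-564, v 2, v 1, v 0, v 0, [v 2, m (v 2) (v 2)]⟩,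
  ⟨48, v 2, v 1, v 0, v 0, [m (v 2) (v 2), v 2]⟩,
  ⟨24, v 2, v 2, v 2, m (m (m (v 2) (v 1)) (v 0)) (v 0), []⟩,
  ⟨48, v 2, v 2, v 2, m (m (v 2) (v 0)) (m (v 1) (v 0)), []⟩,
  ⟨-366, v 2, v 2, m (m (v 1) (v 0)) (v 0), m (v 2) (v 2), []⟩,
  ⟨-432, v 2, m (v 2) (v 1), v 0, v 0, [m (v 2) (v 2)]⟩,
  ⟨48, v 2, v 0, v 2, m (m (v 1) (v 0)) (v 2), [v 2]⟩,
  ⟨432, v 2, v 2, m (v 1) (v 0), v 0, [m (v 2) (v 2)]⟩,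
  ⟨-432, v 2, v 2, v 0, m (v 1) (v 0), [m (v 2) (v 2)]⟩,
  ⟨216, v 2, v 2, v 1, v 0, [v 0, m (v 2) (v 2)]⟩,
  ⟨216, v 2, v 1, v 2, v 0, [v 0, m (v 2) (v 2)]⟩,
  ⟨-216, v 2, v 2, v 0, v 1, [v 0, m (v 2) (v 2)]⟩,
  ⟨-306, m (v 2) (v 2), v 1, v 0, v 0, [m (v 2) (v 2)]⟩,
  ⟨-306, m (v 2) (v 2), m (v 2) (v 2), m (v 1) (v 0), v 0, []⟩,
  ⟨126, m (v 2) (v 2), m (v 2) (v 2), v 0, m (v 1) (v 0), []⟩,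
  ⟨-432, v 2, v 1, v 0, m (v 2) (v 0), [m (v 2) (v 2)]⟩,
  ⟨-432, v 2, v 1, m (v 2) (v 0), v 0, [m (v 2) (v 2)]⟩,
  ⟨90, v 2, v 2, v 2, m (m (m (v 1) (v 0)) (v 0)) (v 2), []⟩,
  ⟨-252, v 2, v 2, m (v 1) (v 0), m (m (v 2) (v 2)) (v 0), []⟩,
  ⟨132, v 2, v 2, m (m (v 1) (v 0)) (v 2), m (v 2) (v 0), []⟩,
  ⟨-132, v 2, v 2, m (m (v 2) (v 0)) (v 1), m (v 2) (v 0), []⟩,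
  ⟨234, v 2, v 1, v 2, m (v 2) (v 0), [m (v 2) (v 0)]⟩,
  ⟨120, v 2, v 2, m (m (v 2) (v 1)) (v 0), m (v 2) (v 0), []⟩,
  ⟨90, v 2, v 1, v 0, m (v 2) (v 2), [m (v 2) (v 0)]⟩,
  ⟨240, v 2, v 2, v 2, v 0, [v 1, m (v 2) (v 0)]⟩,
  ⟨-288, v 2, v 2, m (m (m (v 1) (v 0)) (v 2)) (v 2), v 0, []⟩,
  ⟨-186, v 2, v 2, v 1, m (m (v 2) (v 2)) (v 0), [v 0]⟩,
  ⟨-396, v 2, v 2, m (m (m (v 2) (v 0)) (v 1)) (v 2), v 0, []⟩,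
  ⟨144, v 2, v 2, m (m (m (v 2) (v 1)) (v 0)) (v 2), v 0, []⟩,
  ⟨-192, v 2, v 2, m (m (v 2) (v 2)) (m (v 1) (v 0)), v 0, []⟩,
  ⟨-192, v 2, v 2, m (m (m (v 2) (v 0)) (v 2)) (v 1), v 0, []⟩,
  ⟨60, v 2, v 2, m (m (m (v 2) (v 2)) (v 0)) (v 1), v 0, []⟩,
  ⟨-282, v 2, m (v 2) (v 2), v 2, m (m (v 1) (v 0)) (v 0), []⟩,
  ⟨-24, v 2, v 2, m (m (m (v 2) (v 0)) (v 0)) (v 2), v 1, []⟩,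
  ⟨-60, v 2, v 2, m (m (v 2) (v 0)) (v 0), m (v 2) (v 1), []⟩,
  ⟨60, v 2, v 0, m (m (m (v 2) (v 1)) (v 2)) (v 2), v 0, []⟩,
  ⟨-60, v 2, v 0, m (m (m (v 2) (v 2)) (v 1)) (v 2), v 0, []⟩,
  ⟨-60, v 2, v 2, v 2, v 1, [m (m (v 2) (v 0)) (v 0)]⟩,
  ⟨-144, v 2, v 2, m (v 2) (v 0), v 0, [v 2, v 1]⟩,
  ⟨78, v 2, v 0, m (m (v 2) (v 2)) (v 2), v 0, [v 1]⟩,
  ⟨102, v 2, m (v 2) (v 2), v 0, m (m (v 1) (v 0)) (v 2), []⟩,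
  ⟨12, v 2, m (v 2) (v 2), m (m (v 2) (v 0)) (v 0), v 1, []⟩,
  ⟨174, v 2, v 2, v 2, v 0, [v 0, v 2, v 1]⟩,
  ⟨-108, v 2, v 2, v 0, v 0, [v 2, v 2, v 1]⟩,
  ⟨108, v 2, m (m (v 2) (v 2)) (v 2), v 0, v 0, [v 1]⟩,
  ⟨-18, v 2, v 2, m (m (v 2) (v 2)) (v 0), v 0, [v 1]⟩,
  ⟨-12, v 2, v 2, v 1, m (m (m (v 2) (v 0)) (v 0)) (v 2), []⟩,
  ⟨102, v 2, m (v 2) (v 2), v 0, m (m (v 2) (v 0)) (v 1), []⟩,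
  ⟨30, v 2, m (v 2) (v 2), v 0, m (m (v 2) (v 1)) (v 0), []⟩,
  ⟨144, v 2, m (v 2) (v 2), m (v 2) (v 0), m (v 1) (v 0), []⟩,
  ⟨-372, v 2, m (v 2) (v 2), m (v 1) (v 0), m (v 2) (v 0), []⟩,
  ⟨162, v 2, m (v 2) (v 2), m (m (v 2) (v 0)) (v 1), v 0, []⟩,
  ⟨162, v 2, v 1, v 2, m (v 2) (v 0), [v 2, v 0]⟩,
  ⟨162, v 2, v 2, v 2, m (m (v 2) (v 0)) (v 1), [v 0]⟩,
  ⟨462, v 2, m (v 2) (v 2), m (m (v 1) (v 0)) (v 2), v 0, []⟩,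
  ⟨-126, v 2, m (v 2) (v 2), m (m (v 2) (v 1)) (v 0), v 0, []⟩,
  ⟨90, v 2, v 1, v 2, m (m (m (v 2) (v 2)) (v 0)) (v 0), []⟩,
  ⟨-60, v 2, v 2, v 1, m (m (m (v 2) (v 2)) (v 0)) (v 0), []⟩,
  ⟨-90, m (v 2) (v 2), v 0, v 1, v 0, [m (v 2) (v 2)]⟩,
  ⟨60, v 2, v 2, m (m (m (v 2) (v 2)) (v 0)) (v 0), v 1, []⟩,
  ⟨48, v 2, v 2, v 2, v 0, [v 2, v 0, v 1]⟩,
  ⟨-30, m (v 2) (v 2), v 0, m (m (v 2) (v 1)) (v 2), v 0, []⟩,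
  ⟨-30, m (v 2) (v 2), m (m (v 2) (v 1)) (v 2), v 0, v 0, []⟩,
  ⟨-150, m (v 2) (v 2), v 0, m (v 2) (v 1), v 0, [v 2]⟩,
  ⟨456, v 2, m (m (v 2) (v 2)) (v 2), v 0, m (v 1) (v 0), []⟩,
  ⟨120, v 2, v 1, v 0, m (m (m (v 2) (v 0)) (v 2)) (v 2), []⟩,
  ⟨30, v 2, v 2, v 0, m (v 2) (v 2), [v 0, v 1]⟩,
  ⟨18, m (v 2) (v 2), m (v 2) (v 2), v 0, v 0, [v 1]⟩,
  ⟨120, m (v 2) (v 2), v 0, v 1, v 0, [v 2, v 2]⟩,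
  ⟨-102, v 2, v 1, v 0, m (m (m (v 2) (v 2)) (v 0)) (v 2), []⟩,
  ⟨102, v 2, v 2, v 2, v 0, [m (m (v 2) (v 1)) (v 0)]⟩,
  ⟨-132, v 2, v 1, v 0, m (m (v 2) (v 2)) (m (v 2) (v 0)), []⟩,
  ⟨-156, v 2, v 1, m (v 2) (v 0), m (m (v 2) (v 0)) (v 2), []⟩,
  ⟨-48, v 2, v 1, m (v 2) (v 0), m (m (v 2) (v 2)) (v 0), []⟩,
  ⟨72, v 2, v 1, m (m (v 2) (v 0)) (v 2), m (v 2) (v 0), []⟩,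
  ⟨-18, v 2, v 1, m (m (v 2) (v 2)) (v 0), m (v 2) (v 0), []⟩,
  ⟨102, v 2, v 2, v 2, v 0, [m (m (v 2) (v 0)) (v 1)]⟩,
  ⟨-36, v 2, v 1, m (m (m (v 2) (v 0)) (v 2)) (v 2), v 0, []⟩,
  ⟨-48, v 2, v 0, v 1, m (m (m (v 2) (v 0)) (v 2)) (v 2), []⟩,
  ⟨48, v 2, m (m (v 2) (v 0)) (v 2), v 1, m (v 2) (v 0), []⟩,
  ⟨48, v 2, v 2, m (v 2) (v 0), v 0, [m (v 2) (v 1)]⟩,
  ⟨48, v 2, v 2, v 0, m (v 2) (v 0), [m (v 2) (v 1)]⟩,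
  ⟨48, v 2, v 2, v 0, v 0, [v 2, m (v 2) (v 1)]⟩,
  ⟨-48, v 2, m (v 2) (v 2), v 0, v 0, [m (v 2) (v 1)]⟩,
  ⟨48, m (m (v 2) (v 2)) (v 2), v 0, m (v 2) (v 1), v 0, []⟩,
  ⟨120, v 2, v 1, m (m (m (v 2) (v 2)) (v 0)) (v 2), v 0, []⟩]

def pol_id_G : Pol := (Pol.add (Pol.mul (Pol.Z (Pol.var 0) (Pol.var 1) (Pol.var 3) (Pol.var 4) (Pol.var 5) (Pol.var 6)) (Pol.var 2)) (Pol.Z (Pol.var 0) (Pol.mul (Pol.var 1) (Pol.var 2)) (Pol.var 3) (Pol.var 4) (Pol.var 5) (Pol.var 6)))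

def g_id_G : ℕ → ℕ := fun i => [0, 0, 1, 2, 2, 2, 2].getD i 2
def p_id_G : ℕ → Bool := fun i => [false, false, true].getD i false

theorem ok_id_G : check g_id_G p_id_G pol_id_G (4) cert_id_G = true := by decide +kernel

/-- G -/
theorem id_G (m r x1 x2 x3 x4 : A) :
    (Z m m x1 x2 x3 x4) * r + (Z m (m * r) x1 x2 x3 x4) = 0 := by
  have h := engine 7 g_id_G p_id_G pol_id_G (4) cert_id_G (by decide +kernel) (by decide) ok_id_G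
    (by decide +kernel) (fun i => [m, m, r, x1, x2, x3, x4].getD i 0) ?_ ?_
  · simp only [pol_id_G, evP_var, evP_smul, evP_mul, evP_add, evP_sub, evP_J, evP_t, evP_e, evP_om, evP_X, evP_l, evP_Th, evP_Z] at h
    exact h
  · intro i hi j hj hg hp
    interval_cases i <;> interval_cases j <;> first | rfl | (exfalso; revert hg hp; decide)
  · intro b i hi hg hp
    have hi' : i < 6 := by omega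
    clear hi
    interval_cases i
    · exfalso; revert hg hp; decide
    · exfalso; revert hg hp; decide
    · exfalso; revert hg hp; decide
    · simp only [pol_id_G, evP_var, evP_smul, evP_mul, evP_add, evP_sub, evP_J, evP_t, evP_e, evP_om, evP_X, evP_l, evP_Th, evP_Z]
      show (Z (b 0) (b 1) (b 4) (b 3) (b 5) (b 6)) * (b 2) + (Z (b 0) ((b 1) * (b 2)) (b 4) (b 3) (b 5) (b 6)) = - ((Z (b 0) (b 1) (b 3) (b 4) (b 5) (b 6)) * (b 2) + (Z (b 0) ((b 1) * (b 2)) (b 3) (b 4) (b 5) (b 6)))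
      rw [Z_swap34 (b 0) (b 1) (b 3) (b 4) (b 5) (b 6), Z_swap34 (b 0) (b 1 * b 2) (b 3) (b 4) (b 5) (b 6)]
      simp only [neg_mul]
      abel
    · simp only [pol_id_G, evP_var, evP_smul, evP_mul, evP_add, evP_sub, evP_J, evP_t, evP_e, evP_om, evP_X, evP_l, evP_Th, evP_Z]
      show (Z (b 0) (b 1) (b 3) (b 5) (b 4) (b 6)) * (b 2) + (Z (b 0) ((b 1) * (b 2)) (b 3) (b 5) (b 4) (b 6)) = - ((Z (b 0) (b 1) (b 3) (b 4) (b 5) (b 6)) * (b 2) + (Z (b 0) ((b 1) * (b 2)) (b 3) (b 4) (b 5) (b 6)))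
      rw [Z_swap45 (b 0) (b 1) (b 3) (b 4) (b 5) (b 6), Z_swap45 (b 0) (b 1 * b 2) (b 3) (b 4) (b 5) (b 6)]
      simp only [neg_mul]
      abel
    · simp only [pol_id_G, evP_var, evP_smul, evP_mul, evP_add, evP_sub, evP_J, evP_t, evP_e, evP_om, evP_X, evP_l, evP_Th, evP_Z]
      show (Z (b 0) (b 1) (b 3) (b 4) (b 6) (b 5)) * (b 2) + (Z (b 0) ((b 1) * (b 2)) (b 3) (b 4) (b 6) (b 5)) = - ((Z (b 0) (b 1) (b 3) (b 4) (b 5) (b 6)) * (b 2) + (Z (b 0) ((b 1) * (b 2)) (b 3) (b 4) (b 5) (b 6)))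
      rw [Z_swap56 (b 0) (b 1) (b 3) (b 4) (b 5) (b 6), Z_swap56 (b 0) (b 1 * b 2) (b 3) (b 4) (b 5) (b 6)]
      simp only [neg_mul]
      abel

end Pool.Agent.MalF
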