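import Pool.Agent.MalF.EngX
import Pool.Agent.MalF.EngP
import Pool.Agent.MalF.Swap

/-!
# Identity M1: `3 X(w,w|y,x,q,r) = Z(w;w,y,x,q,r)`
-/

set_option maxRecDepth 100000
set_option linter.unusedSimpArgs false

namespace Pool.Agent.MalF

open Tr

variable {A : Type*} [NonUnitalNonAssocRing A] [IsMalcev A] [TF A]

/-- Certificate. -/
def cert_id_M1 : List Inst :=
  [⟨-10, v 1, v 1, v 0, v 0, [v 2, v 2]⟩,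
  ⟨-10, v 2, m (v 1) (v 0), v 2, m (v 1) (v 0), []⟩,
  ⟨9, v 2, m (m (v 1) (v 0)) (v 2), v 1, v 0, []⟩,
  ⟨6, v 2, v 0, m (m (v 2) (v 1)) (v 0), v 1, []⟩,
  ⟨12, v 2, m (v 2) (v 1), v 0, v 1, [v 0]⟩,
  ⟨6, v 1, m (v 2) (v 1), v 0, v 0, [v 2]⟩,
  ⟨2, v 2, v 1, v 2, v 1, [v 0, v 0]⟩,
  ⟨-10, v 2, v 0, v 1, m (m (v 2) (v 0)) (v 1), []⟩,
  ⟨2, v 2, m (m (v 1) (v 0)) (v 2), v 0, v 1, []⟩,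
  ⟨-4, v 2, v 1, v 0, v 0, [v 1, v 2]⟩,
  ⟨2, v 2, v 1, v 0, m (m (v 2) (v 1)) (v 0), []⟩,
  ⟨-2, v 1, m (m (v 2) (v 1)) (v 2), v 0, v 0, []⟩,
  ⟨-11, v 2, v 0, m (v 1) (v 0), v 1, [v 2]⟩,
  ⟨-10, v 2, v 0, v 1, v 1, [v 0, v 2]⟩,
  ⟨6, v 2, v 1, m (m (v 2) (v 0)) (v 1), v 0, []⟩,
  ⟨3, v 2, m (m (v 1) (v 1)) (v 2), v 0, v 0, []⟩,
  ⟨1, v 2, v 2, v 1, v 1, [v 0, v 0]⟩,
  ⟨1, v 2, v 0, m (v 1) (v 1), v 0, [v 2]⟩,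
  ⟨2, v 2, v 1, v 0, v 1, [v 0, v 2]⟩,
  ⟨2, v 2, m (m (v 2) (v 1)) (v 1), v 0, v 0, []⟩,
  ⟨6, v 2, v 0, v 1, m (v 1) (v 0), [v 2]⟩,
  ⟨3, v 2, v 2, v 1, m (m (v 1) (v 0)) (v 0), []⟩,
  ⟨12, v 2, v 1, v 0, v 0, [v 2, v 1]⟩,
  ⟨-1, v 2, v 2, v 0, m (v 1) (v 0), [v 1]⟩,
  ⟨-1, v 1, m (m (v 2) (v 2)) (v 1), v 0, v 0, []⟩,
  ⟨-7, v 2, v 1, v 2, v 0, [v 0, v 1]⟩,
  ⟨13, v 2, v 2, v 0, v 1, [v 0, v 1]⟩,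
  ⟨-10, v 2, v 0, v 1, m (v 2) (v 0), [v 1]⟩,
  ⟨2, v 2, v 1, v 0, m (v 2) (v 0), [v 1]⟩,
  ⟨-12, v 2, v 2, v 0, v 0, [v 1, v 1]⟩,
  ⟨-11, m (v 2) (v 2), v 0, v 1, v 0, [v 1]⟩,
  ⟨1, m (v 2) (v 2), v 1, v 0, v 0, [v 1]⟩,
  ⟨-12, v 1, v 1, m (v 2) (v 0), m (v 2) (v 0), []⟩,
  ⟨1, v 1, v 0, m (m (v 2) (v 2)) (v 1), v 0, []⟩,
  ⟨-4, v 2, v 2, v 1, m (v 1) (v 0), [v 0]⟩,
  ⟨5, v 2, v 0, v 1, v 1, [v 2, v 0]⟩,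
  ⟨1, v 2, v 2, v 1, v 0, [v 1, v 0]⟩,
  ⟨-1, v 2, v 2, m (v 1) (v 0), v 1, [v 0]⟩,
  ⟨13, v 2, v 1, v 0, v 1, [v 2, v 0]⟩,
  ⟨-3, v 2, v 1, m (v 2) (v 1), v 0, [v 0]⟩,
  ⟨5, v 2, v 2, m (v 1) (v 1), v 0, [v 0]⟩,
  ⟨1, v 2, v 1, v 2, v 0, [v 1, v 0]⟩,
  ⟨1, v 2, v 1, v 0, m (v 2) (v 1), [v 0]⟩,
  ⟨-2, v 2, v 1, v 1, v 0, [v 2, v 0]⟩,
  ⟨-3, v 2, v 1, m (v 2) (v 0), v 1, [v 0]⟩,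
  ⟨2, v 2, m (v 2) (v 1), v 1, v 0, [v 0]⟩,
  ⟨3, v 2, v 0, v 1, m (v 2) (v 1), [v 0]⟩,
  ⟨-6, v 2, v 0, v 1, v 1, [m (v 2) (v 0)]⟩,
  ⟨-1, v 2, v 2, v 0, v 1, [m (v 1) (v 0)]⟩,
  ⟨5, v 2, v 1, v 2, v 0, [m (v 1) (v 0)]⟩,
  ⟨1, v 2, v 2, v 0, m (m (v 1) (v 0)) (v 1), []⟩,
  ⟨17, v 2, v 1, m (v 1) (v 0), v 0, [v 2]⟩,
  ⟨12, v 1, v 0, m (v 2) (v 1), v 0, [v 2]⟩,
  ⟨1, v 2, v 2, v 1, v 0, [m (v 1) (v 0)]⟩,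
  ⟨10, v 1, v 1, v 0, v 0, [m (v 2) (v 2)]⟩,
  ⟨8, v 2, v 1, v 2, m (m (v 1) (v 0)) (v 0), []⟩,
  ⟨-7, m (v 2) (v 2), m (v 1) (v 1), v 0, v 0, []⟩,
  ⟨1, v 2, v 1, v 0, m (v 1) (v 0), [v 2]⟩,
  ⟨6, v 2, v 1, v 1, v 0, [m (v 2) (v 0)]⟩,
  ⟨-5, v 2, v 2, m (m (v 1) (v 0)) (v 1), v 0, []⟩,
  ⟨5, v 2, v 1, v 2, m (v 1) (v 0), [v 0]⟩,
  ⟨12, v 2, v 2, m (m (v 1) (v 0)) (v 0), v 1, []⟩,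
  ⟨-7, v 2, v 2, v 0, m (m (v 1) (v 1)) (v 0), []⟩,
  ⟨-8, v 1, v 0, m (m (v 2) (v 1)) (v 2), v 0, []⟩,
  ⟨-3, v 2, v 2, v 1, v 0, [v 0, v 1]⟩,
  ⟨10, v 2, v 1, v 1, m (m (v 2) (v 0)) (v 0), []⟩,
  ⟨10, v 2, v 0, v 1, v 0, [v 2, v 1]⟩,
  ⟨-4, v 2, v 2, m (v 1) (v 0), v 0, [v 1]⟩,
  ⟨-10, v 2, v 0, v 1, v 0, [m (v 2) (v 1)]⟩,
  ⟨-1, v 2, v 1, m (v 2) (v 0), m (v 1) (v 0), []⟩,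
  ⟨-1, v 2, v 1, v 0, m (m (v 1) (v 0)) (v 2), []⟩,
  ⟨4, v 2, v 1, v 0, m (m (v 2) (v 0)) (v 1), []⟩,
  ⟨-3, v 2, v 2, m (m (v 1) (v 1)) (v 0), v 0, []⟩,
  ⟨-3, v 2, m (v 1) (v 1), v 2, v 0, [v 0]⟩,
  ⟨2, v 2, v 1, m (v 1) (v 0), m (v 2) (v 0), []⟩,
  ⟨13, v 2, v 1, m (m (v 1) (v 0)) (v 2), v 0, []⟩,
  ⟨-5, v 2, v 2, m (v 1) (v 0), m (v 1) (v 0), []⟩,
  ⟨7, v 2, v 0, m (m (v 1) (v 1)) (v 2), v 0, []⟩,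
  ⟨6, v 2, v 0, m (m (v 2) (v 1)) (v 1), v 0, []⟩,
  ⟨-7, v 2, v 2, v 0, m (v 1) (v 1), [v 0]⟩,
  ⟨2, v 2, m (v 2) (v 1), v 0, m (v 1) (v 0), []⟩,
  ⟨1, v 2, m (v 2) (v 1), m (v 1) (v 0), v 0, []⟩,
  ⟨-5, v 2, m (v 1) (v 1), v 0, m (v 2) (v 0), []⟩,
  ⟨10, v 2, v 0, m (v 2) (v 1), v 0, [v 1]⟩,
  ⟨4, v 2, m (v 1) (v 1), m (v 2) (v 0), v 0, []⟩,
  ⟨-4, v 2, v 0, v 2, m (m (v 1) (v 0)) (v 1), []⟩,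
  ⟨-7, v 2, m (v 1) (v 0), v 1, v 0, [v 2]⟩,
  ⟨19, v 2, v 0, v 1, m (m (v 1) (v 0)) (v 2), []⟩]

def pol_id_M1 : Pol := (Pol.sub (Pol.smul (3) (Pol.X (Pol.var 0) (Pol.var 1) (Pol.var 2) (Pol.var 3) (Pol.var 4) (Pol.var 5))) (Pol.Z (Pol.var 0) (Pol.var 1) (Pol.var 2) (Pol.var 3) (Pol.var 4) (Pol.var 5)))

def g_id_M1 : ℕ → ℕ := fun i => [0, 0, 1, 1, 2, 2].getD i 2
def p_id_M1 : ℕ → Bool := fun i => [false, true, true].getD i false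

theorem ok_id_M1 : check g_id_M1 p_id_M1 pol_id_M1 (1) cert_id_M1 = true := by decide +kernel

/-- M1 -/
theorem id_M1 (w y x q r : A) :
    (3 : ℤ) • (X w w y x q r) - (Z w w y x q r) = 0 := by
  have h := engine 6 g_id_M1 p_id_M1 pol_id_M1 (1) cert_id_M1 (by decide +kernel) (by decide) ok_id_M1
    (by decide +kernel) (fun i => [w, w, y, x, q, r].getD i 0) ?_ ?_
  · simp only [pol_id_M1, evP_var, evP_smul, evP_mul, evP_add, evP_sub, evP_J, evP_t, evP_e, evP_om, evP_X, evP_l, evP_Th, evP_Z] at h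
    exact h
  · intro i hi j hj hg hp
    interval_cases i <;> interval_cases j <;> first | rfl | (exfalso; revert hg hp; decide)
  · intro b i hi hg hp
    have hi' : i < 5 := by omega
    clear hi
    interval_cases i
    · exfalso; revert hg hp; decide
    · exfalso; revert hg hp; decide
    · simp only [pol_id_M1, evP_var, evP_smul, evP_mul, evP_add, evP_sub, evP_J, evP_t, evP_e, evP_om, evP_X, evP_l, evP_Th, evP_Z]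
      show (3 : ℤ) • (X (b 0) (b 1) (b 3) (b 2) (b 4) (b 5)) - (Z (b 0) (b 1) (b 3) (b 2) (b 4) (b 5)) = - ((3 : ℤ) • (X (b 0) (b 1) (b 2) (b 3) (b 4) (b 5)) - (Z (b 0) (b 1) (b 2) (b 3) (b 4) (b 5)))
      rw [X_swap34, Z_swap34]
      simp only [smul_neg]
      abel
    · exfalso; revert hg hp; decide
    · simp only [pol_id_M1, evP_var, evP_smul, evP_mul, evP_add, evP_sub, evP_J, evP_t, evP_e, evP_om, evP_X, evP_l, evP_Th, evP_Z]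
      show (3 : ℤ) • (X (b 0) (b 1) (b 2) (b 3) (b 5) (b 4)) - (Z (b 0) (b 1) (b 2) (b 3) (b 5) (b 4)) = - ((3 : ℤ) • (X (b 0) (b 1) (b 2) (b 3) (b 4) (b 5)) - (Z (b 0) (b 1) (b 2) (b 3) (b 4) (b 5)))
      rw [X_swap56, Z_swap56]
      simp only [smul_neg]
      abel

end Pool.Agent.MalF
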