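import Pool.Agent.MalF.EngX
import Pool.Agent.MalF.EngP
import Pool.Agent.MalF.Swap

/-!
# Identity V: `Z(m;x1..x5)(ab) = Z(m(ab);x1..x5)`
-/

set_option maxRecDepth 100000
set_option linter.unusedSimpArgs false

namespace Pool.Agent.MalF

open Tr

variable {A : Type*} [NonUnitalNonAssocRing A] [IsMalcev A] [TF A]

/-- Certificate. -/
def cert_id_V : List Inst :=
  [⟨1653600, v 2, m (v 1) (v 1), v 2, v 0, [v 2, v 2, v 2]⟩,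
  ⟨41879, v 2, v 2, v 2, m (m (v 1) (v 1)) (v 0), [v 2, v 2]⟩,
  ⟨1138992, v 2, v 2, v 0, m (v 1) (v 1), [m (v 2) (v 2), v 2]⟩,
  ⟨-1138992, v 2, v 2, m (v 1) (v 1), v 0, [m (v 2) (v 2), v 2]⟩,
  ⟨-16147660, v 2, v 2, v 0, m (m (v 1) (v 1)) (v 2), [v 2, v 2]⟩,
  ⟨-3289636, v 2, v 0, v 1, v 1, [v 2, m (v 2) (v 2), v 2]⟩,
  ⟨-1390768, v 2, v 1, v 1, v 0, [v 2, m (v 2) (v 2), v 2]⟩,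
  ⟨-4952520, v 2, v 2, m (m (v 1) (v 1)) (v 2), m (v 2) (v 0), [v 2]⟩,
  ⟨-1027081, v 2, v 2, v 2, m (m (m (v 1) (v 1)) (v 0)) (v 2), [v 2]⟩,
  ⟨4626496, v 2, v 2, m (m (m (v 1) (v 1)) (v 2)) (v 2), v 0, [v 2]⟩,
  ⟨-2649256, v 2, v 1, v 0, v 1, [v 2, m (v 2) (v 2), v 2]⟩,
  ⟨4789456, v 2, v 2, m (v 2) (v 0), m (m (v 1) (v 1)) (v 2), [v 2]⟩,
  ⟨1138992, v 2, m (v 1) (v 1), v 2, v 0, [m (v 2) (v 2), v 2]⟩,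
  ⟨-1123424, v 2, m (v 2) (v 2), v 0, m (m (v 1) (v 1)) (v 2), [v 2]⟩,
  ⟨-1611721, v 2, v 2, m (m (v 1) (v 1)) (v 0), m (v 2) (v 2), [v 2]⟩,
  ⟨-2238240, v 2, m (m (v 2) (v 2)) (v 2), m (v 1) (v 1), v 0, [v 2]⟩,
  ⟨-4095962, v 2, v 2, v 2, m (v 2) (v 0), [m (v 1) (v 1), v 2]⟩,
  ⟨-586326, v 2, v 2, v 0, m (v 2) (v 2), [m (v 1) (v 1), v 2]⟩,
  ⟨-1138992, m (v 2) (v 2), m (v 2) (v 2), v 0, m (v 1) (v 1), [v 2]⟩,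
  ⟨-3119702, v 2, v 2, v 2, m (m (v 1) (v 1)) (v 2), [v 0, v 2]⟩,
  ⟨3571342, v 2, v 2, m (v 1) (v 1), m (v 2) (v 2), [v 0, v 2]⟩,
  ⟨1333102, v 2, m (v 2) (v 2), v 2, m (v 1) (v 1), [v 0, v 2]⟩,
  ⟨1333102, v 2, v 2, v 2, m (v 1) (v 1), [v 2, v 0, v 2]⟩,
  ⟨-1774456, m (v 2) (v 2), m (v 2) (v 2), m (v 1) (v 1), v 0, [v 2]⟩,
  ⟨-586326, v 2, m (v 2) (v 2), v 2, v 0, [m (v 1) (v 1), v 2]⟩,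
  ⟨-586326, v 2, v 2, v 2, v 0, [v 2, m (v 1) (v 1), v 2]⟩,
  ⟨2588310, v 2, v 2, v 0, m (m (v 2) (v 2)) (m (v 1) (v 1)), [v 2]⟩,
  ⟨-2444048, v 2, m (v 2) (v 2), m (v 2) (v 0), m (v 1) (v 1), [v 2]⟩,
  ⟨-10847732, v 2, m (v 2) (v 2), m (v 1) (v 1), v 0, [v 2, v 2]⟩,
  ⟨1114816, v 2, v 2, v 2, v 0, [m (m (v 1) (v 1)) (v 2), v 2]⟩,
  ⟨601804, v 2, v 2, m (m (v 2) (v 2)) (v 0), m (v 1) (v 1), [v 2]⟩,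
  ⟨4208564, v 2, v 2, m (v 1) (v 1), v 0, [v 2, v 2, v 2]⟩,
  ⟨20514688, v 2, v 2, m (v 2) (v 0), m (v 1) (v 1), [v 2, v 2]⟩,
  ⟨22949392, v 2, v 2, v 0, m (v 1) (v 1), [v 2, v 2, v 2]⟩,
  ⟨-41091064, v 2, v 2, m (m (v 1) (v 1)) (v 2), v 0, [v 2, v 2]⟩,
  ⟨3344250, v 2, m (v 2) (v 2), v 2, m (m (v 1) (v 0)) (v 1), [v 2]⟩,
  ⟨5083078, v 2, v 2, v 2, m (m (v 1) (v 0)) (v 1), [v 2, v 2]⟩,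
  ⟨5083078, v 2, v 2, m (m (v 1) (v 0)) (v 1), m (v 2) (v 2), [v 2]⟩,
  ⟨2831698, v 2, v 2, v 2, m (m (m (v 1) (v 0)) (v 1)) (v 2), [v 2]⟩,
  ⟨5697436, v 2, v 2, v 0, m (m (m (v 1) (v 1)) (v 2)) (v 2), [v 2]⟩,
  ⟨32844, v 2, v 2, m (v 1) (v 1), m (m (v 2) (v 2)) (v 0), [v 2]⟩,
  ⟨-357760, v 2, v 2, v 2, m (v 2) (v 1), [m (v 2) (v 1), v 0]⟩,
  ⟨-89440, v 2, v 1, m (v 2) (v 1), m (v 2) (v 2), [v 2, v 0]⟩,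
  ⟨89440, v 2, v 2, v 2, v 1, [m (v 2) (v 1), v 2, v 0]⟩,
  ⟨-89440, v 2, v 2, v 1, m (v 2) (v 2), [m (v 2) (v 1), v 0]⟩,
  ⟨447200, v 2, v 2, v 2, v 1, [v 2, m (v 2) (v 1), v 0]⟩,
  ⟨-313040, v 2, v 2, v 2, m (v 2) (v 1), [v 2, v 1, v 0]⟩,
  ⟨-447200, v 2, m (v 2) (v 2), v 2, v 1, [m (v 2) (v 1), v 0]⟩,
  ⟨-357760, v 2, v 2, v 2, v 1, [m (m (v 2) (v 1)) (v 2), v 0]⟩,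
  ⟨-44720, v 2, v 2, v 1, m (v 2) (v 2), [v 2, v 1, v 0]⟩,
  ⟨44720, v 2, v 2, v 2, v 1, [v 2, v 2, v 1, v 0]⟩,
  ⟨-44720, v 2, v 2, v 2, m (v 2) (v 2), [v 1, v 1, v 0]⟩,
  ⟨89440, v 2, m (v 2) (v 2), m (v 2) (v 2), v 1, [v 1, v 0]⟩,
  ⟨-89440, v 2, v 2, v 2, m (m (v 2) (v 2)) (v 1), [v 1, v 0]⟩,
  ⟨626080, v 2, v 2, m (m (v 2) (v 2)) (m (v 2) (v 1)), v 1, [v 0]⟩,
  ⟨-983840, v 2, m (v 2) (v 2), m (v 2) (v 1), m (v 2) (v 1), [v 0]⟩,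
  ⟨-788788, v 2, m (v 2) (v 2), v 2, m (m (v 2) (v 1)) (v 1), [v 0]⟩,
  ⟨-1788800, v 2, m (v 2) (v 1), m (v 2) (v 2), m (v 2) (v 1), [v 0]⟩,
  ⟨-357760, m (v 2) (v 2), m (v 2) (v 2), v 1, m (v 2) (v 1), [v 0]⟩,
  ⟨357760, v 2, v 1, v 2, m (v 2) (v 1), [m (v 2) (v 2), v 0]⟩,
  ⟨357760, v 2, v 2, v 1, m (v 2) (v 1), [m (v 2) (v 2), v 0]⟩,
  ⟨357760, v 2, v 2, m (v 2) (v 1), m (m (v 2) (v 2)) (v 1), [v 0]⟩,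
  ⟨788788, v 2, v 2, v 2, m (m (v 2) (v 1)) (v 1), [v 2, v 0]⟩,
  ⟨536640, v 2, v 2, v 1, m (m (v 2) (v 2)) (m (v 2) (v 1)), [v 0]⟩,
  ⟨660972, v 2, v 2, m (m (v 2) (v 1)) (v 1), m (v 2) (v 2), [v 0]⟩,
  ⟨-536640, m (v 2) (v 2), m (v 2) (v 2), m (v 2) (v 1), v 1, [v 0]⟩,
  ⟨536640, v 2, v 2, m (v 2) (v 1), v 1, [m (v 2) (v 2), v 0]⟩,
  ⟨-916604, v 2, v 2, v 2, m (m (m (v 2) (v 1)) (v 1)) (v 2), [v 0]⟩,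
  ⟨134160, v 2, m (v 2) (v 2), v 2, v 1, [v 2, v 1, v 0]⟩,
  ⟨178880, v 2, v 2, m (v 2) (v 1), m (v 2) (v 2), [v 1, v 0]⟩,
  ⟨-178880, v 2, v 2, m (m (v 2) (v 2)) (v 2), v 1, [v 1, v 0]⟩,
  ⟨-1560845, v 2, v 2, v 2, m (m (v 1) (v 1)) (v 2), [m (v 2) (v 0)]⟩,
  ⟨776139, v 2, v 2, m (v 1) (v 1), m (v 2) (v 2), [m (v 2) (v 0)]⟩,
  ⟨776139, v 2, m (v 2) (v 2), v 2, m (v 1) (v 1), [m (v 2) (v 0)]⟩,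
  ⟨776139, v 2, v 2, v 2, m (v 1) (v 1), [v 2, m (v 2) (v 0)]⟩,
  ⟨-4941612, v 2, v 1, m (v 2) (v 1), m (v 2) (v 0), [m (v 2) (v 2)]⟩,
  ⟨-53326, v 2, v 2, v 2, m (m (m (v 1) (v 1)) (v 0)) (m (v 2) (v 2)), []⟩,
  ⟨-53326, v 2, m (v 2) (v 2), m (v 2) (v 2), m (m (v 1) (v 1)) (v 0), []⟩,
  ⟨-3971110, v 2, v 1, v 2, v 1, [v 0, v 2, m (v 2) (v 2)]⟩,
  ⟨-807664, v 2, v 2, v 2, m (v 2) (v 2), [m (m (v 1) (v 0)) (v 1)]⟩,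
  ⟨6331988, v 2, m (v 2) (v 1), v 0, m (v 2) (v 1), [m (v 2) (v 2)]⟩,
  ⟨999752, v 2, v 2, v 1, m (m (v 1) (v 0)) (v 2), [m (v 2) (v 2)]⟩,
  ⟨1347060, v 2, v 1, v 0, v 1, [m (v 2) (v 2), m (v 2) (v 2)]⟩,
  ⟨1468090, m (v 2) (v 2), m (v 2) (v 2), m (v 1) (v 1), m (v 2) (v 0), []⟩,
  ⟨2577692, v 2, v 2, v 1, m (v 2) (v 1), [v 0, m (v 2) (v 2)]⟩,
  ⟨560144, v 2, v 2, v 1, v 0, [v 2, v 1, m (v 2) (v 2)]⟩,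
  ⟨-3476148, v 2, v 2, v 1, v 0, [m (v 2) (v 1), m (v 2) (v 2)]⟩,
  ⟨1465464, v 2, v 1, v 2, v 0, [m (v 2) (v 1), m (v 2) (v 2)]⟩,
  ⟨-3270254, m (v 2) (v 2), m (v 2) (v 2), m (m (v 1) (v 1)) (v 2), v 0, []⟩,
  ⟨-2773394, v 2, v 1, v 2, v 1, [v 2, v 0, m (v 2) (v 2)]⟩,
  ⟨2773394, v 2, v 2, v 2, m (v 1) (v 1), [v 0, m (v 2) (v 2)]⟩,
  ⟨-421980, v 2, v 2, v 2, m (v 1) (v 1), [m (m (v 2) (v 2)) (v 0)]⟩,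
  ⟨-6491992, v 2, v 1, v 1, v 0, [v 2, v 2, m (v 2) (v 2)]⟩,
  ⟨7110584, v 2, v 2, m (v 1) (v 0), v 1, [v 2, m (v 2) (v 2)]⟩,
  ⟨-10145044, v 2, m (v 2) (v 1), v 0, v 1, [v 2, m (v 2) (v 2)]⟩,
  ⟨1953172, v 2, v 1, v 2, v 0, [v 1, v 2, m (v 2) (v 2)]⟩,
  ⟨-8658104, v 2, v 1, v 0, m (v 2) (v 1), [v 2, m (v 2) (v 2)]⟩,
  ⟨5048992, v 2, v 1, m (v 2) (v 0), v 1, [v 2, m (v 2) (v 2)]⟩,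
  ⟨3176108, v 2, v 1, v 0, v 1, [v 2, v 2, m (v 2) (v 2)]⟩,
  ⟨-5626816, v 2, v 2, v 0, m (v 1) (v 1), [v 2, m (v 2) (v 2)]⟩,
  ⟨-2122588, v 2, v 2, v 1, v 1, [v 0, v 2, m (v 2) (v 2)]⟩,
  ⟨-5593536, v 2, v 0, v 1, v 1, [v 2, v 2, m (v 2) (v 2)]⟩,
  ⟨-15880228, v 2, v 2, v 1, m (v 1) (v 0), [v 2, m (v 2) (v 2)]⟩,
  ⟨-11447488, v 2, v 0, v 1, m (v 2) (v 1), [v 2, m (v 2) (v 2)]⟩,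
  ⟨-5705024, v 2, v 2, v 1, m (m (v 2) (v 0)) (v 1), [m (v 2) (v 2)]⟩,
  ⟨3518580, v 2, m (v 2) (v 2), v 0, v 1, [v 1, m (v 2) (v 2)]⟩,
  ⟨-5447208, v 2, v 1, v 2, v 0, [v 2, v 1, m (v 2) (v 2)]⟩,
  ⟨3518580, v 2, v 2, v 2, v 0, [v 1, v 1, m (v 2) (v 2)]⟩,
  ⟨-4355832, v 2, m (v 2) (v 1), v 1, v 0, [v 2, m (v 2) (v 2)]⟩,
  ⟨8176792, v 2, v 2, v 1, m (m (v 2) (v 1)) (v 0), [m (v 2) (v 2)]⟩,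
  ⟨-13570752, v 2, v 2, m (v 2) (v 1), m (v 1) (v 0), [m (v 2) (v 2)]⟩,
  ⟨-255060, v 2, v 1, v 1, v 0, [m (v 2) (v 2), m (v 2) (v 2)]⟩,
  ⟨-3476148, v 2, v 2, m (v 1) (v 1), m (v 2) (v 0), [m (v 2) (v 2)]⟩,
  ⟨9403004, v 2, v 2, m (m (v 1) (v 1)) (v 2), v 0, [m (v 2) (v 2)]⟩,
  ⟨-6497192, v 2, v 2, v 1, v 1, [m (v 2) (v 0), m (v 2) (v 2)]⟩,
  ⟨1669746, v 2, v 1, v 2, v 1, [m (v 2) (v 0), m (v 2) (v 2)]⟩,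
  ⟨2832440, v 2, v 2, m (m (v 2) (v 1)) (v 1), v 0, [m (v 2) (v 2)]⟩,
  ⟨3021044, v 2, v 2, v 0, m (m (v 1) (v 1)) (v 2), [m (v 2) (v 2)]⟩,
  ⟨-217802, v 2, m (v 2) (v 2), m (v 2) (v 2), m (v 1) (v 1), [v 0]⟩,
  ⟨-642343, v 2, v 2, v 2, m (v 2) (v 2), [m (v 1) (v 1), v 0]⟩,
  ⟨-3021044, v 2, v 2, v 1, v 1, [v 2, v 0, m (v 2) (v 2)]⟩,
  ⟨3021044, v 2, m (v 2) (v 2), v 1, v 1, [v 0, m (v 2) (v 2)]⟩,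
  ⟨550342, v 2, v 2, v 2, m (m (v 2) (v 2)) (m (v 1) (v 1)), [v 0]⟩,
  ⟨-268320, v 2, v 1, v 2, m (v 2) (v 1), [v 2, v 2, v 0]⟩,
  ⟨268320, v 2, v 2, m (v 2) (v 1), v 1, [v 2, v 2, v 0]⟩,
  ⟨-357760, v 2, m (v 2) (v 1), m (v 2) (v 2), v 1, [v 2, v 0]⟩,
  ⟨357760, v 2, v 2, m (m (v 2) (v 1)) (v 2), v 1, [v 2, v 0]⟩,
  ⟨-258271, v 2, m (v 2) (v 2), v 2, m (v 1) (v 1), [v 2, v 0]⟩,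
  ⟨808613, v 2, v 2, v 2, m (v 1) (v 1), [v 2, v 2, v 0]⟩,
  ⟨808613, v 2, v 2, m (v 1) (v 1), m (v 2) (v 2), [v 2, v 0]⟩,
  ⟨808613, v 2, v 2, v 2, m (m (v 1) (v 1)) (v 2), [v 2, v 0]⟩,
  ⟨268320, v 2, m (v 2) (v 2), v 1, v 1, [v 2, v 2, v 0]⟩,
  ⟨268320, v 2, v 2, v 2, v 1, [v 1, v 2, v 2, v 0]⟩,
  ⟨134160, v 2, v 2, v 2, m (v 2) (v 1), [v 1, v 2, v 0]⟩,
  ⟨-5990140, v 2, v 2, v 0, m (m (v 2) (v 1)) (v 1), [m (v 2) (v 2)]⟩,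
  ⟨-3518580, v 2, v 2, m (v 2) (v 1), v 0, [v 1, m (v 2) (v 2)]⟩,
  ⟨20913672, v 2, v 2, m (m (v 1) (v 0)) (v 2), v 1, [m (v 2) (v 2)]⟩,
  ⟨-5926856, v 2, v 2, m (v 2) (v 0), m (v 1) (v 1), [m (v 2) (v 2)]⟩,
  ⟨2815150, m (v 2) (v 2), m (v 2) (v 2), m (v 2) (v 0), m (v 1) (v 1), []⟩,
  ⟨-8920756, v 2, m (v 2) (v 2), m (v 1) (v 0), v 1, [m (v 2) (v 2)]⟩,
  ⟨-8920756, v 2, v 2, v 2, m (v 1) (v 0), [v 1, m (v 2) (v 2)]⟩,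
  ⟨2773394, v 2, m (v 2) (v 2), m (v 1) (v 1), v 0, [m (v 2) (v 2)]⟩,
  ⟨8733972, v 2, m (v 2) (v 2), v 1, m (v 1) (v 0), [m (v 2) (v 2)]⟩,
  ⟨5598736, v 2, v 1, m (m (v 2) (v 2)) (v 1), v 0, [m (v 2) (v 2)]⟩,
  ⟨5598736, v 2, v 2, v 2, v 1, [m (v 1) (v 0), m (v 2) (v 2)]⟩,
  ⟨3476148, v 2, v 1, m (m (v 2) (v 0)) (v 2), v 1, [m (v 2) (v 2)]⟩,
  ⟨-4866524, v 2, v 1, v 1, m (m (v 2) (v 2)) (v 0), [m (v 2) (v 2)]⟩,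
  ⟨4866524, v 2, v 2, v 0, v 1, [m (v 2) (v 1), m (v 2) (v 2)]⟩,
  ⟨-51948, v 2, v 1, v 0, m (m (v 2) (v 1)) (v 2), [m (v 2) (v 2)]⟩,
  ⟨6497192, v 2, v 1, v 0, m (m (v 2) (v 2)) (v 1), [m (v 2) (v 2)]⟩,
  ⟨3021044, v 2, v 2, v 2, v 1, [v 1, v 0, m (v 2) (v 2)]⟩,
  ⟨-6266156, v 2, v 1, m (v 2) (v 0), m (v 2) (v 1), [m (v 2) (v 2)]⟩,
  ⟨3518580, v 2, m (v 2) (v 1), v 1, m (v 2) (v 0), [m (v 2) (v 2)]⟩,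
  ⟨-3476148, v 2, m (m (v 2) (v 2)) (v 1), v 1, v 0, [m (v 2) (v 2)]⟩,
  ⟨-2613936, v 2, v 2, m (m (m (m (v 1) (v 1)) (v 2)) (v 2)) (v 2), v 0, []⟩,
  ⟨5072184, v 2, v 2, m (m (m (v 1) (v 1)) (v 2)) (v 2), m (v 2) (v 0), []⟩,
  ⟨239083, v 2, v 2, v 0, m (v 2) (v 2), [v 2, m (v 1) (v 1)]⟩,
  ⟨1261247, v 2, m (v 2) (v 2), v 2, v 0, [v 2, m (v 1) (v 1)]⟩,
  ⟨-652483, v 2, v 2, v 2, m (v 2) (v 2), [v 0, m (v 1) (v 1)]⟩,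
  ⟨1892683, v 2, v 2, v 2, v 0, [v 2, v 2, m (v 1) (v 1)]⟩,
  ⟨1414517, v 2, v 2, v 2, m (v 2) (v 0), [v 2, m (v 1) (v 1)]⟩,
  ⟨1500330, v 2, v 2, v 2, m (m (v 2) (v 2)) (v 0), [m (v 1) (v 1)]⟩,
  ⟨-1500330, v 2, m (v 2) (v 2), m (v 2) (v 2), v 0, [m (v 1) (v 1)]⟩,
  ⟨2612285, v 2, v 2, v 2, m (v 2) (v 0), [m (m (v 1) (v 1)) (v 2)]⟩,
  ⟨-357253, v 2, v 2, v 0, m (v 2) (v 2), [m (m (v 1) (v 1)) (v 2)]⟩,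
  ⟨-357253, v 2, m (v 2) (v 2), v 2, v 0, [m (m (v 1) (v 1)) (v 2)]⟩,
  ⟨-357253, v 2, v 2, v 2, v 0, [v 2, m (m (v 1) (v 1)) (v 2)]⟩,
  ⟨-1653600, v 2, v 2, v 2, v 0, [m (m (v 2) (v 2)) (m (v 1) (v 1))]⟩,
  ⟨-1347060, v 2, v 2, m (v 1) (v 1), m (m (v 2) (v 2)) (m (v 2) (v 0)), []⟩,
  ⟨-134160, v 2, v 2, v 1, m (v 2) (v 2), [v 1, v 2, v 0]⟩,
  ⟨-357760, v 2, v 2, m (v 2) (v 1), m (v 2) (v 1), [v 2, v 0]⟩,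
  ⟨-268320, v 2, v 2, m (m (v 2) (v 2)) (v 1), v 1, [v 2, v 0]⟩,
  ⟨-134160, v 2, m (v 2) (v 2), v 2, v 1, [v 1, v 2, v 0]⟩,
  ⟨134160, v 2, v 2, v 2, v 1, [v 2, v 1, v 2, v 0]⟩,
  ⟨89440, v 2, v 1, v 2, v 1, [v 2, m (v 2) (v 2), v 0]⟩,
  ⟨601432, v 2, v 2, m (m (m (v 1) (v 1)) (v 2)) (m (v 2) (v 2)), v 0, []⟩,
  ⟨-89440, v 2, v 2, v 0, m (m (m (v 2) (v 2)) (m (v 1) (v 1))) (v 2), []⟩,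
  ⟨89440, v 2, v 1, v 2, v 1, [v 2, v 2, v 2, v 0]⟩,
  ⟨-1369004, v 2, v 2, v 0, m (m (m (v 1) (v 1)) (v 2)) (m (v 2) (v 2)), []⟩,
  ⟨2613936, v 2, v 2, m (v 2) (v 0), m (m (m (v 1) (v 1)) (v 2)) (v 2), []⟩,
  ⟨1321060, v 2, v 2, m (v 2) (v 0), m (m (v 2) (v 2)) (m (v 1) (v 1)), []⟩,
  ⟨-5072184, v 2, v 2, m (m (v 2) (v 0)) (v 2), m (m (v 1) (v 1)) (v 2), []⟩,
  ⟨2133768, v 2, v 2, m (m (v 2) (v 2)) (v 0), m (m (v 1) (v 1)) (v 2), []⟩,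
  ⟨-2336984, v 2, v 2, m (m (v 2) (v 2)) (m (v 2) (v 0)), m (v 1) (v 1), []⟩,
  ⟨1450085, v 2, v 2, v 2, m (v 2) (v 2), [m (m (v 1) (v 1)) (v 0)]⟩,
  ⟨1313520, v 2, m (v 2) (v 1), m (v 2) (v 1), v 0, [m (v 2) (v 2)]⟩,
  ⟨2525744, v 2, v 1, v 2, m (v 2) (v 1), [v 0, m (v 2) (v 2)]⟩,
  ⟨-3180268, v 2, v 2, m (v 2) (v 0), v 1, [v 1, m (v 2) (v 2)]⟩,
  ⟨-217828, v 2, v 1, v 2, m (m (v 2) (v 1)) (v 0), [m (v 2) (v 2)]⟩,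
  ⟨2778984, v 2, v 1, v 2, m (m (v 1) (v 0)) (v 2), [m (v 2) (v 2)]⟩,
  ⟨-4008108, v 2, v 1, v 2, m (m (v 2) (v 0)) (v 1), [m (v 2) (v 2)]⟩,
  ⟨3135236, v 2, v 1, m (v 1) (v 0), m (v 2) (v 2), [m (v 2) (v 2)]⟩,
  ⟨3135236, v 2, v 1, v 2, m (v 1) (v 0), [v 2, m (v 2) (v 2)]⟩,
  ⟨-1738828, v 2, v 2, m (m (v 2) (v 2)) (v 2), m (m (v 1) (v 0)) (v 1), []⟩,
  ⟨232596, v 2, v 2, m (m (m (v 1) (v 0)) (v 2)) (v 1), m (v 2) (v 2), []⟩,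
  ⟨-232596, v 2, v 2, v 2, m (m (m (m (v 1) (v 0)) (v 2)) (v 1)) (v 2), []⟩,
  ⟨-1738828, v 2, v 2, m (m (m (v 1) (v 0)) (v 1)) (v 2), m (v 2) (v 2), []⟩,
  ⟨19786, v 2, v 2, m (m (m (v 2) (v 0)) (v 1)) (v 1), m (v 2) (v 2), []⟩,
  ⟨-402090, v 2, v 2, v 2, m (m (m (m (v 2) (v 0)) (v 1)) (v 1)) (v 2), []⟩,
  ⟨3320382, v 2, v 2, m (m (m (v 2) (v 1)) (v 0)) (v 1), m (v 2) (v 2), []⟩,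
  ⟨-1723566, v 2, v 2, v 2, m (m (m (m (v 2) (v 1)) (v 0)) (v 1)) (v 2), []⟩,
  ⟨2515786, v 2, v 2, m (m (v 2) (v 1)) (m (v 1) (v 0)), m (v 2) (v 2), []⟩,
  ⟨-2515786, v 2, v 2, v 2, m (m (m (v 2) (v 1)) (m (v 1) (v 0))) (v 2), []⟩,
  ⟨232596, v 2, m (v 2) (v 2), v 2, m (m (m (v 1) (v 0)) (v 2)) (v 1), []⟩,
  ⟨-232596, v 2, v 2, v 2, m (m (m (v 1) (v 0)) (v 2)) (v 1), [v 2]⟩,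
  ⟨19786, v 2, m (v 2) (v 2), v 2, m (m (m (v 2) (v 0)) (v 1)) (v 1), []⟩,
  ⟨-19786, v 2, v 2, v 2, m (m (m (v 2) (v 0)) (v 1)) (v 1), [v 2]⟩,
  ⟨3320382, v 2, m (v 2) (v 2), v 2, m (m (m (v 2) (v 1)) (v 0)) (v 1), []⟩,
  ⟨-3320382, v 2, v 2, v 2, m (m (m (v 2) (v 1)) (v 0)) (v 1), [v 2]⟩,
  ⟨2515786, v 2, m (v 2) (v 2), v 2, m (m (v 2) (v 1)) (m (v 1) (v 0)), []⟩,
  ⟨-2515786, v 2, v 2, v 2, m (m (v 2) (v 1)) (m (v 1) (v 0)), [v 2]⟩,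
  ⟨1653600, v 2, v 2, v 2, m (m (m (m (v 1) (v 1)) (v 0)) (v 2)) (v 2), []⟩,
  ⟨-1653600, v 2, v 2, m (v 1) (v 1), m (m (m (v 2) (v 2)) (v 0)) (v 2), []⟩,
  ⟨631436, v 2, v 2, m (v 2) (v 0), m (v 2) (v 2), [m (v 1) (v 1)]⟩,
  ⟨-247650, m (v 2) (v 2), m (v 2) (v 2), v 0, m (m (v 1) (v 1)) (v 2), []⟩,
  ⟨-2133768, v 2, m (v 2) (v 2), m (m (m (v 1) (v 1)) (v 2)) (v 2), v 0, []⟩,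
  ⟨-480168, v 2, m (v 2) (v 2), m (v 1) (v 1), m (m (v 2) (v 0)) (v 2), []⟩,
  ⟨-421980, v 2, m (v 2) (v 2), m (v 1) (v 1), m (m (v 2) (v 2)) (v 0), []⟩,
  ⟨-421980, v 2, v 2, m (m (m (v 2) (v 2)) (v 0)) (v 2), m (v 1) (v 1), []⟩,
  ⟨-2336984, v 2, m (v 2) (v 2), m (m (v 1) (v 1)) (v 2), m (v 2) (v 0), []⟩,
  ⟨-1066884, v 2, v 2, m (m (v 2) (v 2)) (v 2), m (v 1) (v 1), [v 0]⟩,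
  ⟨-2133768, v 2, v 2, v 2, m (m (m (v 1) (v 1)) (v 2)) (v 2), [v 0]⟩,
  ⟨-1066884, v 2, v 2, m (m (v 1) (v 1)) (v 2), m (v 2) (v 2), [v 0]⟩,
  ⟨-2044328, v 2, v 2, v 2, m (m (v 2) (v 0)) (v 2), [m (v 1) (v 1)]⟩,
  ⟨-480168, v 2, m (v 2) (v 2), v 0, m (m (m (v 1) (v 1)) (v 2)) (v 2), []⟩,
  ⟨1085646, v 2, v 2, m (m (v 2) (v 2)) (m (v 1) (v 1)), v 0, [v 2]⟩,
  ⟨-8412768, v 2, v 1, m (v 2) (v 1), v 0, [v 2, m (v 2) (v 2)]⟩,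
  ⟨10121904, v 2, v 1, m (m (v 2) (v 1)) (v 2), v 0, [m (v 2) (v 2)]⟩,
  ⟨-10121904, v 2, v 2, m (v 1) (v 0), m (v 2) (v 1), [m (v 2) (v 2)]⟩,
  ⟨-480168, v 2, v 2, v 2, v 0, [m (m (m (v 1) (v 1)) (v 2)) (v 2)]⟩,
  ⟨332540, v 2, m (v 2) (v 2), m (m (v 2) (v 2)) (m (v 1) (v 1)), v 0, []⟩,
  ⟨-2075580, v 2, v 2, m (m (v 1) (v 1)) (v 2), m (m (v 2) (v 2)) (v 0), []⟩,
  ⟨3022604, v 2, v 0, v 1, v 1, [m (v 2) (v 2), m (v 2) (v 2)]⟩,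
  ⟨-1653600, v 2, m (v 2) (v 2), v 0, m (m (v 2) (v 2)) (m (v 1) (v 1)), []⟩,
  ⟨2255032, v 2, m (v 2) (v 2), m (v 2) (v 0), m (m (v 1) (v 1)) (v 2), []⟩,
  ⟨-1231620, v 2, v 2, m (m (m (v 2) (v 2)) (m (v 1) (v 1))) (v 2), v 0, []⟩,
  ⟨2126696, v 2, v 2, m (m (m (v 1) (v 1)) (v 0)) (v 2), m (v 2) (v 2), []⟩,
  ⟨11024, v 2, v 1, v 2, m (m (m (m (v 2) (v 1)) (v 0)) (v 2)) (v 2), []⟩,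
  ⟨3309828, m (v 2) (v 2), m (v 2) (v 2), m (v 1) (v 0), v 1, [v 2]⟩,
  ⟨18740828, v 2, v 1, v 1, v 0, [v 2, v 2, v 2, v 2]⟩,
  ⟨23615832, v 2, v 2, v 1, v 1, [m (v 2) (v 0), v 2, v 2]⟩,
  ⟨22388440, v 2, v 0, v 1, v 1, [v 2, v 2, v 2, v 2]⟩,
  ⟨22750820, v 2, v 1, v 2, v 0, [m (v 2) (v 1), v 2, v 2]⟩,
  ⟨-29514732, v 2, m (v 2) (v 2), v 1, m (v 1) (v 0), [v 2, v 2]⟩,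
  ⟨47729516, v 2, v 2, v 1, m (v 1) (v 0), [v 2, v 2, v 2]⟩,
  ⟨-24980224, v 2, v 2, v 1, m (m (v 2) (v 1)) (v 0), [v 2, v 2]⟩,
  ⟨9974928, v 2, m (v 2) (v 1), v 0, m (v 2) (v 1), [v 2, v 2]⟩,
  ⟨41830496, v 2, m (v 2) (v 1), v 0, v 1, [v 2, v 2, v 2]⟩,
  ⟨39585276, v 2, v 0, v 1, m (v 2) (v 1), [v 2, v 2, v 2]⟩,
  ⟨27725736, v 2, v 2, v 1, m (m (v 2) (v 0)) (v 1), [v 2, v 2]⟩,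
  ⟨-19893228, v 2, v 1, m (v 2) (v 0), v 1, [v 2, v 2, v 2]⟩,
  ⟨-2205712, v 2, v 1, m (v 2) (v 1), m (v 2) (v 0), [v 2, v 2]⟩,
  ⟨-8918992, v 2, v 2, v 1, m (m (v 1) (v 0)) (v 2), [v 2, v 2]⟩,
  ⟨-4622896, v 2, v 2, m (m (v 2) (v 1)) (v 1), v 0, [v 2, v 2]⟩,
  ⟨-8620188, v 2, v 1, v 2, m (v 2) (v 1), [v 0, v 2, v 2]⟩,
  ⟨-14636964, v 2, v 2, v 1, m (v 2) (v 1), [v 0, v 2, v 2]⟩,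
  ⟨8478728, v 2, v 2, m (v 1) (v 0), m (v 2) (v 1), [v 2, v 2]⟩,
  ⟨12005352, v 2, v 1, v 2, v 0, [v 2, v 1, v 2, v 2]⟩,
  ⟨-53000896, v 2, v 2, m (m (v 1) (v 0)) (v 2), v 1, [v 2, v 2]⟩,
  ⟨-1108264, v 2, v 1, m (m (v 2) (v 1)) (v 2), v 0, [v 2, v 2]⟩,
  ⟨26115596, v 2, v 1, m (v 2) (v 1), v 0, [v 2, v 2, v 2]⟩,
  ⟨48636824, v 2, v 2, m (v 2) (v 1), m (v 1) (v 0), [v 2, v 2]⟩,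
  ⟨-28772064, v 2, v 1, m (m (v 2) (v 2)) (v 1), v 0, [v 2, v 2]⟩,
  ⟨20866212, v 2, v 2, v 1, v 1, [v 0, v 2, v 2, v 2]⟩,
  ⟨-27263352, v 2, v 2, v 2, v 1, [m (v 1) (v 0), v 2, v 2]⟩,
  ⟨4745224, v 2, v 1, v 0, m (m (v 2) (v 1)) (v 2), [v 2, v 2]⟩,
  ⟨-21896724, v 2, v 1, v 0, m (m (v 2) (v 2)) (v 1), [v 2, v 2]⟩,
  ⟨14135100, v 2, v 2, v 1, v 1, [v 2, v 0, v 2, v 2]⟩,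
  ⟨-14135100, v 2, m (v 2) (v 2), v 1, v 1, [v 0, v 2, v 2]⟩,
  ⟨-14135100, v 2, v 2, v 2, v 1, [v 1, v 0, v 2, v 2]⟩,
  ⟨16623748, v 2, v 1, m (v 2) (v 0), m (v 2) (v 1), [v 2, v 2]⟩,
  ⟨17140564, v 2, v 2, v 1, v 0, [v 2, v 1, v 2, v 2]⟩,
  ⟨-5114512, v 2, m (v 2) (v 1), m (v 2) (v 1), v 0, [v 2, v 2]⟩,
  ⟨8141832, v 2, v 1, v 2, v 1, [v 0, v 2, v 2, v 2]⟩,
  ⟨3083500, m (v 2) (v 2), m (v 2) (v 2), v 1, v 1, [v 0, v 2]⟩,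
  ⟨3719276, v 2, v 2, m (m (v 2) (v 2)) (v 1), v 1, [v 0, v 2]⟩,
  ⟨-3719276, v 2, m (v 2) (v 2), v 1, v 1, [v 2, v 0, v 2]⟩,
  ⟨635776, v 2, v 2, v 1, m (v 2) (v 1), [v 2, v 0, v 2]⟩,
  ⟨7473876, v 2, v 2, v 2, m (m (v 2) (v 1)) (v 1), [v 0, v 2]⟩,
  ⟨4210824, v 2, v 2, m (v 2) (v 1), v 1, [v 2, v 0, v 2]⟩,
  ⟨-4210824, v 2, v 2, m (v 2) (v 1), m (v 2) (v 1), [v 0, v 2]⟩,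
  ⟨-4210824, v 2, m (v 2) (v 1), m (v 2) (v 2), v 1, [v 0, v 2]⟩,
  ⟨4990828, v 2, v 2, v 2, v 1, [m (v 2) (v 1), v 0, v 2]⟩,
  ⟨-3083500, v 2, v 2, v 1, v 1, [m (v 2) (v 2), v 0, v 2]⟩,
  ⟨-4990828, v 2, v 1, m (v 2) (v 1), m (v 2) (v 2), [v 0, v 2]⟩,
  ⟨-1541750, v 2, v 1, v 2, v 1, [m (v 2) (v 2), v 0, v 2]⟩,
  ⟨-317888, v 2, v 2, v 2, m (v 2) (v 1), [v 1, v 0, v 2]⟩,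
  ⟨-3719276, v 2, v 2, v 2, v 1, [v 1, v 2, v 0, v 2]⟩,
  ⟨317888, v 2, m (v 2) (v 2), v 2, v 1, [v 1, v 0, v 2]⟩,
  ⟨317888, v 2, v 2, v 1, m (v 2) (v 2), [v 1, v 0, v 2]⟩,
  ⟨-317888, v 2, v 2, v 2, v 1, [v 2, v 1, v 0, v 2]⟩,
  ⟨4210824, v 2, v 2, m (m (v 2) (v 1)) (v 2), v 1, [v 0, v 2]⟩,
  ⟨881550, v 2, v 1, v 2, v 1, [v 2, v 2, v 0, v 2]⟩,
  ⟨-3575048, v 2, v 1, v 2, m (v 2) (v 1), [v 2, v 0, v 2]⟩,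
  ⟨767630, v 2, v 1, v 2, v 1, [m (m (v 2) (v 0)) (v 2), v 2]⟩,
  ⟨3719276, v 2, v 2, m (v 2) (v 1), v 1, [m (v 2) (v 0), v 2]⟩,
  ⟨-378468, v 2, v 1, v 2, v 1, [v 2, m (v 2) (v 0), v 2]⟩,
  ⟨-2815320, v 2, v 2, v 2, m (v 1) (v 1), [m (v 2) (v 0), v 2]⟩,
  ⟨-4384184, v 2, v 2, v 0, m (m (m (v 2) (v 1)) (v 1)) (v 2), [v 2]⟩,
  ⟨24961376, v 2, v 2, v 0, m (m (v 2) (v 1)) (v 1), [v 2, v 2]⟩,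
  ⟨-14935536, v 2, v 1, v 0, v 1, [v 2, v 2, v 2, v 2]⟩,
  ⟨9397368, v 2, v 2, m (m (v 2) (v 1)) (v 0), v 1, [v 2, v 2]⟩,
  ⟨10265224, v 2, m (v 2) (v 2), v 1, v 0, [v 1, v 2, v 2]⟩,
  ⟨10265224, v 2, v 1, v 0, m (v 2) (v 2), [v 1, v 2, v 2]⟩,
  ⟨14368968, v 2, v 1, v 1, m (m (v 2) (v 2)) (v 0), [v 2, v 2]⟩,
  ⟨4184896, v 2, v 2, m (m (v 2) (v 0)) (v 1), v 1, [v 2, v 2]⟩,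
  ⟨-5481388, v 2, v 1, v 2, m (v 2) (v 0), [v 1, v 2, v 2]⟩,
  ⟨-5993276, v 2, v 2, v 1, m (v 2) (v 0), [v 1, v 2, v 2]⟩,
  ⟨7315960, v 2, v 1, m (m (v 2) (v 2)) (v 0), v 1, [v 2, v 2]⟩,
  ⟨13142506, v 2, v 1, v 2, v 1, [v 2, v 0, v 2, v 2]⟩,
  ⟨-13085972, v 2, v 2, v 2, m (v 1) (v 1), [v 0, v 2, v 2]⟩,
  ⟨-9149384, v 2, v 2, v 2, v 0, [m (v 1) (v 1), v 2, v 2]⟩,
  ⟨7905852, v 2, m (m (v 2) (v 2)) (v 1), v 1, v 0, [v 2, v 2]⟩,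
  ⟨6027428, v 2, v 1, v 0, m (v 2) (v 1), [v 2, v 2, v 2]⟩,
  ⟨-3633904, v 2, m (v 2) (v 2), v 0, v 1, [v 1, v 2, v 2]⟩,
  ⟨-3633904, v 2, v 2, v 2, v 0, [v 1, v 1, v 2, v 2]⟩,
  ⟨3633904, v 2, v 2, m (v 2) (v 1), v 0, [v 1, v 2, v 2]⟩,
  ⟨7905852, v 2, v 2, v 1, v 0, [m (v 2) (v 1), v 2, v 2]⟩,
  ⟨10847232, v 2, v 2, m (v 1) (v 1), m (v 2) (v 0), [v 2, v 2]⟩,
  ⟨14911456, v 2, m (v 2) (v 2), m (v 1) (v 0), v 1, [v 2, v 2]⟩,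
  ⟨-10405540, v 2, v 2, m (v 1) (v 0), v 1, [v 2, v 2, v 2]⟩,
  ⟨14911456, v 2, v 2, v 2, m (v 1) (v 0), [v 1, v 2, v 2]⟩,
  ⟨-12527556, v 2, m (v 2) (v 1), v 1, m (v 2) (v 0), [v 2, v 2]⟩,
  ⟨-15955440, v 2, v 1, m (m (v 2) (v 0)) (v 2), v 1, [v 2, v 2]⟩,
  ⟨-12527556, v 2, v 1, v 2, v 0, [v 1, v 2, v 2, v 2]⟩,
  ⟨-9149384, v 2, m (v 2) (v 2), v 0, m (v 1) (v 1), [v 2, v 2]⟩,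
  ⟨1242196, v 2, v 2, v 1, v 0, [v 2, m (v 2) (v 1), v 2]⟩,
  ⟨98176, v 2, m (v 2) (v 1), m (m (v 2) (v 0)) (v 2), m (v 2) (v 1), []⟩,
  ⟨98176, v 2, m (v 2) (v 1), m (v 2) (v 1), m (m (v 2) (v 0)) (v 2), []⟩,
  ⟨476944, v 2, m (v 2) (v 1), m (m (v 2) (v 2)) (v 0), m (v 2) (v 1), []⟩,
  ⟨476944, v 2, m (v 2) (v 1), m (v 2) (v 1), m (m (v 2) (v 2)) (v 0), []⟩,
  ⟨-487344, v 2, v 2, v 2, v 0, [m (v 2) (v 1), m (v 2) (v 1)]⟩,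
  ⟨1242196, v 2, m (v 2) (v 2), v 1, v 0, [m (v 2) (v 1), v 2]⟩,
  ⟨-3079084, v 2, v 2, m (v 2) (v 0), v 1, [m (v 2) (v 1), v 2]⟩,
  ⟨-2620500, v 2, v 2, v 1, m (v 1) (v 0), [m (v 2) (v 2), v 2]⟩,
  ⟨-2620500, v 2, v 1, v 2, m (v 1) (v 0), [m (v 2) (v 2), v 2]⟩,
  ⟨123500, v 2, m (v 2) (v 2), m (v 2) (v 2), m (m (v 1) (v 0)) (v 1), []⟩,
  ⟨123500, v 2, v 2, v 2, m (m (m (v 1) (v 0)) (v 1)) (m (v 2) (v 2)), []⟩,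
  ⟨-3751192, v 2, v 2, v 1, m (m (m (v 2) (v 1)) (v 0)) (v 2), [v 2]⟩,
  ⟨2142016, m (v 2) (v 2), m (v 2) (v 1), m (v 2) (v 1), v 0, [v 2]⟩,
  ⟨-3184240, v 2, v 1, v 2, v 0, [v 2, m (v 2) (v 1), v 2]⟩,
  ⟨-1377004, v 2, v 2, v 1, m (v 2) (v 0), [m (v 2) (v 1), v 2]⟩,
  ⟨3206396, v 2, v 2, m (v 1) (v 0), v 1, [m (v 2) (v 2), v 2]⟩,
  ⟨-5622912, v 2, v 2, m (v 2) (v 1), m (m (v 1) (v 0)) (v 2), [v 2]⟩,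
  ⟨196352, v 2, v 1, m (v 2) (v 1), m (m (m (v 2) (v 0)) (v 2)) (v 2), []⟩,
  ⟨3019104, v 2, v 2, m (v 2) (v 1), m (m (v 2) (v 1)) (v 0), [v 2]⟩,
  ⟨3225960, v 2, v 2, m (v 2) (v 1), m (m (v 2) (v 0)) (v 1), [v 2]⟩,
  ⟨4067364, v 2, v 2, m (m (v 2) (v 1)) (v 1), m (v 2) (v 0), [v 2]⟩,
  ⟨4013920, v 2, v 1, v 2, m (v 2) (v 1), [m (v 2) (v 0), v 2]⟩,
  ⟨-2196688, v 2, v 2, m (m (m (v 2) (v 1)) (v 1)) (v 2), v 0, [v 2]⟩,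
  ⟨-12775892, v 2, v 2, v 0, v 1, [m (v 2) (v 1), v 2, v 2]⟩,
  ⟨14772776, v 2, v 2, v 0, v 1, [v 1, v 2, v 2, v 2]⟩,
  ⟨688382, v 2, v 1, v 2, v 1, [m (m (v 2) (v 2)) (v 0), v 2]⟩,
  ⟨-1271552, v 2, v 2, v 1, m (m (v 2) (v 1)) (v 2), [v 0, v 2]⟩,
  ⟨7632704, v 2, v 2, m (m (v 2) (v 0)) (v 2), m (v 1) (v 1), [v 2]⟩,
  ⟨511202, v 2, m (v 2) (v 2), v 2, v 1, [m (v 1) (v 0), v 2]⟩,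
  ⟨4315062, v 2, v 2, v 2, m (v 2) (v 1), [m (v 1) (v 0), v 2]⟩,
  ⟨-511202, v 2, v 2, v 2, v 1, [v 2, m (v 1) (v 0), v 2]⟩,
  ⟨1502084, v 2, v 2, v 2, v 1, [m (m (v 1) (v 0)) (v 2), v 2]⟩,
  ⟨613856, v 2, v 2, m (v 1) (v 0), m (m (v 2) (v 1)) (v 2), [v 2]⟩,
  ⟨858268, v 2, v 2, m (m (v 2) (v 0)) (v 1), m (v 2) (v 1), [v 2]⟩,
  ⟨-2650508, v 2, v 1, v 2, m (v 2) (v 0), [m (v 2) (v 1), v 2]⟩,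
  ⟨1285184, v 2, v 2, m (m (v 2) (v 1)) (v 0), m (v 2) (v 1), [v 2]⟩,
  ⟨-6171146, v 2, v 1, v 2, v 1, [m (v 2) (v 0), v 2, v 2]⟩,
  ⟨336616, v 2, m (v 2) (v 1), v 1, v 0, [v 2, v 2, v 2]⟩,
  ⟨1744088, v 2, v 2, m (v 1) (v 0), m (m (v 2) (v 2)) (v 1), [v 2]⟩,
  ⟨-6379456, v 2, v 2, m (m (v 1) (v 0)) (v 2), m (v 2) (v 1), [v 2]⟩,
  ⟨-6316936, v 2, v 2, m (v 2) (v 1), v 0, [m (v 2) (v 1), v 2]⟩,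
  ⟨-64480, m (m (v 2) (v 2)) (v 2), m (v 2) (v 1), v 0, m (v 2) (v 1), []⟩,
  ⟨-601120, m (m (v 2) (v 2)) (v 2), m (v 2) (v 1), m (v 2) (v 1), v 0, []⟩,
  ⟨6451744, m (v 2) (v 2), m (v 2) (v 1), v 0, m (v 2) (v 1), [v 2]⟩,
  ⟨-64480, v 2, v 2, v 2, m (m (m (v 2) (v 1)) (v 0)) (m (v 2) (v 1)), []⟩,
  ⟨5587948, v 2, v 2, m (m (m (v 2) (v 1)) (v 0)) (v 2), v 1, [v 2]⟩,
  ⟨-134808, v 2, v 2, v 2, v 0, [v 1, m (v 2) (v 1), v 2]⟩,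
  ⟨99632, v 2, v 2, v 2, v 0, [m (m (v 2) (v 1)) (v 2), v 1]⟩,
  ⟨-271440, v 2, v 2, v 2, v 0, [v 1, v 2, m (v 2) (v 1)]⟩,
  ⟨-25532, v 2, v 2, v 2, v 0, [v 2, m (m (v 2) (v 1)) (v 1)]⟩,
  ⟨-332228, v 2, v 2, v 2, m (v 2) (v 0), [m (m (v 2) (v 1)) (v 1)]⟩,
  ⟨2338416, v 2, v 2, m (v 2) (v 1), m (v 2) (v 0), [v 1, v 2]⟩,
  ⟨-5915944, v 2, m (v 2) (v 2), v 0, m (v 2) (v 1), [v 1, v 2]⟩,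
  ⟨9501176, v 2, v 2, v 0, v 1, [v 2, m (v 2) (v 1), v 2]⟩,
  ⟨-134808, v 2, m (v 2) (v 2), v 0, v 1, [m (v 2) (v 1), v 2]⟩,
  ⟨1242196, v 2, v 1, v 0, m (v 2) (v 2), [m (v 2) (v 1), v 2]⟩,
  ⟨-6631320, v 2, v 2, m (v 2) (v 0), v 1, [v 1, v 2, v 2]⟩,
  ⟨1358368, v 2, v 1, m (v 2) (v 1), m (m (v 2) (v 0)) (v 2), [v 2]⟩,
  ⟨-564200, v 2, v 2, v 2, m (v 2) (v 0), [v 1, m (v 2) (v 1)]⟩,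
  ⟨3958044, v 2, v 2, v 1, m (m (m (v 2) (v 0)) (v 1)) (v 2), [v 2]⟩,
  ⟨4783836, v 2, m (v 2) (v 1), m (v 2) (v 0), v 1, [v 2, v 2]⟩,
  ⟨132200, v 2, v 1, v 2, v 0, [v 2, v 2, v 1, v 2]⟩,
  ⟨-1740178, v 2, v 2, v 1, m (v 2) (v 2), [m (v 1) (v 0), v 2]⟩,
  ⟨3781992, v 2, v 2, v 0, v 1, [v 2, v 2, v 1, v 2]⟩,
  ⟨844064, v 2, m (v 2) (v 1), m (m (v 2) (v 0)) (v 2), v 1, [v 2]⟩,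
  ⟨-2843160, v 2, v 2, v 1, m (m (m (v 1) (v 0)) (v 2)) (v 2), [v 2]⟩,
  ⟨2621208, v 2, v 2, v 1, v 1, [m (m (v 2) (v 0)) (v 2), v 2]⟩,
  ⟨1256816, v 2, v 2, v 1, m (v 2) (v 1), [m (v 2) (v 0), v 2]⟩,
  ⟨-462292, v 2, v 2, v 1, v 1, [v 2, m (v 2) (v 0), v 2]⟩,
  ⟨462292, v 2, m (v 2) (v 2), v 1, v 1, [m (v 2) (v 0), v 2]⟩,
  ⟨-2797056, v 2, v 2, m (v 2) (v 0), m (m (v 2) (v 1)) (v 1), [v 2]⟩,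
  ⟨-718016, v 2, v 1, m (v 2) (v 1), m (m (v 2) (v 2)) (m (v 2) (v 0)), []⟩,
  ⟨2620500, m (v 2) (v 2), m (v 2) (v 2), v 1, m (v 1) (v 0), [v 2]⟩,
  ⟨-2525784, v 2, v 2, m (m (m (v 2) (v 0)) (v 2)) (v 1), v 1, [v 2]⟩,
  ⟨5190304, v 2, m (v 2) (v 2), v 1, v 0, [v 2, v 1, v 2]⟩,
  ⟨-677504, v 2, v 2, m (v 2) (v 0), v 1, [v 2, v 1, v 2]⟩,
  ⟨1053306, v 2, v 2, v 2, m (v 2) (v 0), [v 1, v 1, v 2]⟩,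
  ⟨-306130, v 2, v 2, v 0, m (v 2) (v 2), [v 1, v 1, v 2]⟩,
  ⟨-306130, v 2, m (v 2) (v 2), v 2, v 0, [v 1, v 1, v 2]⟩,
  ⟨-306130, v 2, v 2, v 2, v 0, [v 2, v 1, v 1, v 2]⟩,
  ⟨738218, v 2, m (v 2) (v 2), v 2, v 1, [v 0, v 1, v 2]⟩,
  ⟨-1854418, v 2, v 2, v 2, m (v 2) (v 1), [v 0, v 1, v 2]⟩,
  ⟨-3330854, v 2, v 2, v 1, m (v 2) (v 2), [v 0, v 1, v 2]⟩,
  ⟨-738218, v 2, v 2, v 2, v 1, [v 2, v 0, v 1, v 2]⟩,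
  ⟨4324704, v 2, v 2, m (m (v 2) (v 2)) (v 1), v 0, [v 1, v 2]⟩,
  ⟨1096976, v 2, v 2, v 2, v 1, [v 0, v 2, v 1, v 2]⟩,
  ⟨-4069072, v 2, v 2, v 0, m (m (v 2) (v 2)) (v 1), [v 1, v 2]⟩,
  ⟨-491544, v 2, v 2, m (m (v 2) (v 0)) (v 2), v 1, [v 1, v 2]⟩,
  ⟨2709988, v 2, v 2, m (v 1) (v 0), m (v 2) (v 2), [v 1, v 2]⟩,
  ⟨2709988, v 2, m (v 2) (v 2), v 2, m (v 1) (v 0), [v 1, v 2]⟩,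
  ⟨-2709988, v 2, v 2, v 2, m (v 1) (v 0), [v 2, v 1, v 2]⟩,
  ⟨4069072, v 2, m (m (v 2) (v 2)) (v 2), v 1, v 0, [v 1, v 2]⟩,
  ⟨-6917340, m (v 2) (v 2), m (v 2) (v 2), v 0, v 1, [v 1, v 2]⟩,
  ⟨2386636, v 2, v 1, m (v 2) (v 1), m (m (v 2) (v 2)) (v 0), [v 2]⟩,
  ⟨-3321896, v 2, m (v 2) (v 2), m (v 2) (v 0), v 1, [v 1, v 2]⟩,
  ⟨780792, v 2, m (v 2) (v 2), v 0, v 1, [v 2, v 1, v 2]⟩,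
  ⟨780792, v 2, v 2, v 2, v 0, [v 1, v 2, v 1, v 2]⟩,
  ⟨2236008, v 2, v 2, m (m (v 2) (v 2)) (v 0), v 1, [v 1, v 2]⟩,
  ⟨-1002808, v 2, v 1, v 2, m (m (v 2) (v 0)) (v 2), [v 1, v 2]⟩,
  ⟨-1002808, v 2, v 2, v 1, m (m (v 2) (v 0)) (v 2), [v 1, v 2]⟩,
  ⟨6756608, v 2, v 2, m (m (v 2) (v 1)) (v 2), m (v 1) (v 0), [v 2]⟩,
  ⟨-2949264, v 2, m (v 2) (v 1), m (m (v 2) (v 2)) (v 0), v 1, [v 2]⟩,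
  ⟨-1071824, v 2, v 1, m (v 2) (v 1), m (m (m (v 2) (v 2)) (v 0)) (v 2), []⟩,
  ⟨-1900288, v 2, v 2, v 2, v 0, [m (v 2) (v 1), v 2, v 1]⟩,
  ⟨51272, v 2, v 2, v 2, v 0, [v 2, v 1, m (v 2) (v 1)]⟩,
  ⟨-619840, v 2, v 2, v 2, v 0, [v 1, m (m (v 2) (v 1)) (v 2)]⟩,
  ⟨-7180252, v 2, v 2, m (m (m (v 2) (v 0)) (v 1)) (v 2), v 1, [v 2]⟩,
  ⟨-10078024, v 2, v 2, m (m (m (v 2) (v 2)) (v 0)) (v 1), v 1, [v 2]⟩,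
  ⟨12344556, v 2, v 2, m (m (m (v 1) (v 0)) (v 2)) (v 2), v 1, [v 2]⟩,
  ⟨2168575, v 2, m (v 2) (v 2), v 2, m (m (v 1) (v 1)) (v 0), [v 2]⟩,
  ⟨1502084, v 2, m (v 2) (v 2), v 1, m (m (v 1) (v 0)) (v 2), [v 2]⟩,
  ⟨-3258112, v 2, m (v 2) (v 1), v 0, v 1, [m (v 2) (v 2), v 2]⟩,
  ⟨-3258112, v 2, v 1, v 0, m (v 2) (v 1), [m (v 2) (v 2), v 2]⟩,
  ⟨-6516224, v 2, v 1, v 2, v 0, [v 1, m (v 2) (v 2), v 2]⟩,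
  ⟨1071312, v 2, m (v 2) (v 2), v 1, m (m (v 2) (v 0)) (v 1), [v 2]⟩,
  ⟨5826896, v 2, v 1, m (v 2) (v 1), v 0, [m (v 2) (v 2), v 2]⟩,
  ⟨5826896, v 2, v 0, v 1, m (v 2) (v 1), [m (v 2) (v 2), v 2]⟩,
  ⟨2568784, v 2, m (v 2) (v 1), v 1, v 0, [m (v 2) (v 2), v 2]⟩,
  ⟨2913448, v 2, v 1, v 2, v 1, [v 0, m (v 2) (v 2), v 2]⟩,
  ⟨-6694380, v 2, m (v 2) (v 2), v 1, m (m (v 2) (v 1)) (v 0), [v 2]⟩,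
  ⟨2574884, v 2, m (v 2) (v 2), m (v 2) (v 1), m (v 1) (v 0), [v 2]⟩,
  ⟨1813292, v 2, m (v 2) (v 2), m (m (v 2) (v 1)) (v 1), v 0, [v 2]⟩,
  ⟨-6691044, v 2, m (v 2) (v 2), m (m (v 1) (v 1)) (v 2), v 0, [v 2]⟩,
  ⟨-2815320, v 2, m (v 2) (v 2), m (v 1) (v 1), m (v 2) (v 0), [v 2]⟩,
  ⟨1145444, v 2, m (v 2) (v 2), v 0, m (m (v 2) (v 1)) (v 1), [v 2]⟩,
  ⟨1145444, v 2, v 2, v 2, v 0, [m (m (v 2) (v 1)) (v 1), v 2]⟩,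
  ⟨1036152, v 2, m (v 2) (v 2), m (v 1) (v 0), m (v 2) (v 1), [v 2]⟩,
  ⟨3287532, v 2, v 2, v 2, m (v 1) (v 0), [m (v 2) (v 1), v 2]⟩,
  ⟨6819672, v 2, v 2, m (m (v 2) (v 2)) (m (v 1) (v 0)), v 1, [v 2]⟩,
  ⟨-366108, v 2, m (v 2) (v 2), m (m (v 2) (v 0)) (v 1), v 1, [v 2]⟩,
  ⟨2212764, v 2, v 2, v 2, m (m (v 1) (v 0)) (v 2), [v 1, v 2]⟩,
  ⟨4489040, v 2, v 2, v 0, m (v 2) (v 1), [v 2, v 1, v 2]⟩,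
  ⟨-7032144, v 2, v 2, m (m (v 2) (v 1)) (v 2), v 0, [v 1, v 2]⟩,
  ⟨7032144, v 2, v 2, m (v 2) (v 0), m (v 2) (v 1), [v 1, v 2]⟩,
  ⟨-5185272, v 2, m (v 2) (v 2), m (v 2) (v 1), v 0, [v 1, v 2]⟩,
  ⟨-1846872, v 2, v 2, v 2, v 0, [m (v 2) (v 1), v 1, v 2]⟩,
  ⟨2848268, v 2, v 2, v 1, v 0, [m (v 2) (v 2), v 1, v 2]⟩,
  ⟨-2848268, m (v 2) (v 2), m (v 2) (v 2), v 1, v 0, [v 1, v 2]⟩,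
  ⟨-2848268, v 2, v 2, v 0, v 1, [m (v 2) (v 2), v 1, v 2]⟩,
  ⟨2848268, v 2, v 1, v 2, v 0, [m (v 2) (v 2), v 1, v 2]⟩,
  ⟨8882524, v 2, m (v 2) (v 1), m (v 2) (v 1), m (v 2) (v 0), [v 2]⟩,
  ⟨4853868, v 2, v 1, v 2, v 0, [m (m (v 2) (v 1)) (v 2), v 2]⟩,
  ⟨-4853868, v 2, v 2, v 0, v 1, [m (m (v 2) (v 1)) (v 2), v 2]⟩,
  ⟨-5888360, v 2, m (v 2) (v 1), m (v 2) (v 0), m (v 2) (v 1), [v 2]⟩,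
  ⟨144172, v 2, v 1, v 2, m (v 2) (v 0), [v 2, v 1, v 2]⟩,
  ⟨-366108, v 2, v 2, v 2, m (m (v 2) (v 0)) (v 1), [v 1, v 2]⟩,
  ⟨1937852, v 2, v 2, m (m (v 2) (v 2)) (v 1), m (v 1) (v 0), [v 2]⟩,
  ⟨-9785768, v 2, v 2, v 0, v 1, [v 2, v 1, v 2, v 2]⟩,
  ⟨229660, v 2, v 2, v 1, m (v 2) (v 0), [v 2, v 1, v 2]⟩,
  ⟨3117952, v 2, v 2, m (v 2) (v 1), v 0, [v 2, v 1, v 2]⟩,
  ⟨3105060, v 2, m (v 2) (v 2), m (m (v 1) (v 0)) (v 2), v 1, [v 2]⟩,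
  ⟨2309552, v 2, m (v 2) (v 2), m (m (v 2) (v 1)) (v 0), v 1, [v 2]⟩,
  ⟨-3203472, v 2, v 2, v 1, v 0, [v 2, v 2, v 1, v 2]⟩,
  ⟨24256, v 2, v 1, v 0, m (v 2) (v 2), [v 2, v 1, v 2]⟩,
  ⟨2309552, v 2, v 2, v 2, m (m (v 2) (v 1)) (v 0), [v 1, v 2]⟩,
  ⟨3947440, v 2, v 1, v 2, m (m (m (v 2) (v 0)) (v 1)) (v 2), [v 2]⟩,
  ⟨1201968, v 2, v 2, v 1, m (m (v 2) (v 2)) (m (v 1) (v 0)), [v 2]⟩,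
  ⟨2251380, v 2, m (m (v 2) (v 2)) (v 2), v 1, m (v 1) (v 0), [v 2]⟩,
  ⟨2568784, v 2, v 1, v 2, m (m (m (v 1) (v 0)) (v 2)) (v 2), [v 2]⟩,
  ⟨-1271552, v 2, v 1, v 0, m (m (m (v 2) (v 1)) (v 2)) (v 2), [v 2]⟩,
  ⟨2568784, v 2, v 1, v 2, m (m (m (v 2) (v 1)) (v 0)) (v 2), [v 2]⟩,
  ⟨-2568784, v 2, v 1, v 2, m (m (m (v 2) (v 2)) (v 0)) (v 1), [v 2]⟩,
  ⟨-6516224, v 2, v 1, v 2, m (m (m (v 2) (v 0)) (v 2)) (v 1), [v 2]⟩,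
  ⟨-2568784, v 2, v 2, v 0, v 1, [v 1, m (v 2) (v 2), v 2]⟩,
  ⟨1719108, v 2, v 1, m (m (v 2) (v 2)) (v 1), m (v 2) (v 0), [v 2]⟩,
  ⟨-902100, v 2, v 2, v 1, m (m (m (v 2) (v 0)) (v 2)) (v 1), [v 2]⟩,
  ⟨689008, v 2, v 2, v 2, v 1, [m (m (v 2) (v 0)) (v 1), v 2]⟩,
  ⟨1271552, v 2, v 1, m (m (m (v 2) (v 1)) (v 2)) (v 2), v 0, [v 2]⟩,
  ⟨-1971696, v 2, v 1, v 1, m (m (v 2) (v 2)) (m (v 2) (v 0)), [v 2]⟩,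
  ⟨-2061596, v 2, v 1, m (m (v 2) (v 1)) (v 2), m (v 2) (v 0), [v 2]⟩,
  ⟨-144228, v 2, v 1, m (m (m (v 2) (v 2)) (v 1)) (v 2), v 0, [v 2]⟩,
  ⟨-3529724, v 2, v 1, m (m (v 2) (v 2)) (m (v 2) (v 1)), v 0, [v 2]⟩,
  ⟨3529724, v 2, v 2, m (v 2) (v 1), v 1, [v 0, v 2, v 2]⟩,
  ⟨-8528, v 2, v 2, v 1, m (m (m (m (v 2) (v 0)) (v 1)) (v 2)) (v 2), []⟩,
  ⟨2621208, v 2, v 1, v 2, v 0, [m (m (v 2) (v 2)) (v 1), v 2]⟩,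
  ⟨-2621208, v 2, v 2, v 0, v 1, [m (m (v 2) (v 2)) (v 1), v 2]⟩,
  ⟨2621208, v 2, v 2, v 1, m (m (m (v 2) (v 2)) (v 0)) (v 1), [v 2]⟩,
  ⟨-3083500, v 2, v 2, v 1, v 1, [v 2, v 2, v 0, v 2]⟩,
  ⟨3083500, v 2, v 2, v 1, m (m (v 2) (v 2)) (v 1), [v 0, v 2]⟩,
  ⟨1531504, v 2, v 2, v 1, m (m (m (m (v 1) (v 0)) (v 2)) (v 2)) (v 2), []⟩,
  ⟨3083500, v 2, v 1, v 0, m (m (m (v 2) (v 2)) (v 1)) (v 2), [v 2]⟩,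
  ⟨-5097564, v 2, v 2, v 2, v 1, [m (m (v 2) (v 1)) (v 0), v 2]⟩,
  ⟨462292, v 2, v 2, v 2, v 1, [v 1, m (v 2) (v 0), v 2]⟩,
  ⟨-3719276, v 2, v 1, v 0, m (m (v 2) (v 2)) (m (v 2) (v 1)), [v 2]⟩,
  ⟨-4028656, v 2, v 1, m (v 2) (v 0), m (m (v 2) (v 1)) (v 2), [v 2]⟩,
  ⟨2621208, v 2, v 1, m (v 2) (v 0), m (m (v 2) (v 2)) (v 1), [v 2]⟩,
  ⟨-3654276, v 2, v 1, m (m (v 2) (v 0)) (v 2), m (v 2) (v 1), [v 2]⟩,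
  ⟨-1376764, v 2, v 1, m (m (v 2) (v 2)) (v 0), m (v 2) (v 1), [v 2]⟩,
  ⟨389136, v 2, v 1, m (m (m (v 2) (v 2)) (v 0)) (v 2), v 1, [v 2]⟩,
  ⟨-711568, v 2, m (v 2) (v 1), v 1, m (m (v 2) (v 0)) (v 2), [v 2]⟩,
  ⟨-1679600, m (v 2) (v 2), m (v 2) (v 2), v 1, m (m (v 2) (v 1)) (v 0), []⟩,
  ⟨-306696, m (v 2) (v 2), m (v 2) (v 2), m (m (v 2) (v 1)) (v 1), v 0, []⟩,
  ⟨-525512, v 2, m (v 2) (v 2), m (v 2) (v 2), m (v 1) (v 0), [v 1]⟩,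
  ⟨-386126, v 2, v 2, v 2, m (v 2) (v 2), [m (v 1) (v 0), v 1]⟩,
  ⟨582712, v 2, v 2, m (m (m (v 2) (v 2)) (v 1)) (v 2), v 0, [v 1]⟩,
  ⟨272948, v 2, v 2, v 2, m (m (v 1) (v 0)) (v 2), [v 2, v 1]⟩,
  ⟨636506, v 2, m (v 2) (v 2), v 2, v 1, [v 0, v 2, v 1]⟩,
  ⟨-636506, v 2, v 2, v 2, v 1, [v 2, v 0, v 2, v 1]⟩,
  ⟨710060, v 2, v 2, m (v 1) (v 0), m (v 2) (v 2), [v 2, v 1]⟩,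
  ⟨-710060, v 2, v 2, v 2, m (v 1) (v 0), [v 2, v 2, v 1]⟩,
  ⟨-626652, v 2, v 1, v 2, v 0, [m (v 2) (v 2), v 2, v 1]⟩,
  ⟨-2883296, v 2, m (v 2) (v 2), v 0, m (v 2) (v 1), [v 2, v 1]⟩,
  ⟨194272, v 2, m (v 2) (v 2), m (v 2) (v 0), v 1, [v 2, v 1]⟩,
  ⟨983008, v 2, m (m (v 2) (v 2)) (v 2), v 1, v 0, [v 2, v 1]⟩,
  ⟨-626652, v 2, v 2, v 1, v 0, [m (v 2) (v 2), v 2, v 1]⟩,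
  ⟨790894, v 2, v 2, v 2, m (v 2) (v 0), [v 1, v 2, v 1]⟩,
  ⟨-939068, m (v 2) (v 2), m (v 2) (v 2), v 0, v 1, [v 2, v 1]⟩,
  ⟨-1565720, v 2, v 2, v 0, m (m (v 2) (v 2)) (v 1), [v 2, v 1]⟩,
  ⟨-194402, v 2, v 2, v 2, m (v 2) (v 0), [m (v 2) (v 1), v 1]⟩,
  ⟨-228774, v 2, v 2, v 0, m (v 2) (v 2), [m (v 2) (v 1), v 1]⟩,
  ⟨-346502, v 2, v 2, v 1, m (v 2) (v 2), [v 0, v 2, v 1]⟩,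
  ⟨882726, v 2, v 2, v 2, m (v 2) (v 1), [v 0, v 2, v 1]⟩,
  ⟨956800, v 2, m (v 2) (v 2), v 2, m (v 1) (v 0), [v 2, v 1]⟩,
  ⟨525512, v 2, v 2, v 2, m (m (v 2) (v 2)) (m (v 1) (v 0)), [v 1]⟩,
  ⟨626652, m (v 2) (v 2), m (v 2) (v 2), v 1, v 0, [v 2, v 1]⟩,
  ⟨-463580, v 2, v 2, v 2, m (m (v 2) (v 2)) (v 1), [v 0, v 1]⟩,
  ⟨-119132, v 2, m (v 2) (v 2), m (v 2) (v 2), v 1, [v 0, v 1]⟩,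
  ⟨206882, v 2, m (v 2) (v 2), v 2, v 1, [v 2, v 0, v 1]⟩,
  ⟨99632, v 2, v 2, v 2, v 1, [m (m (v 2) (v 0)) (v 2), v 1]⟩,
  ⟨225186, v 2, v 2, v 2, m (v 2) (v 1), [m (v 2) (v 0), v 1]⟩,
  ⟨398710, v 2, v 2, v 1, m (v 2) (v 2), [m (v 2) (v 0), v 1]⟩,
  ⟨927160, v 2, v 2, v 0, m (m (v 2) (v 2)) (m (v 2) (v 1)), [v 1]⟩,
  ⟨626652, v 2, v 2, v 0, v 1, [m (v 2) (v 2), v 2, v 1]⟩,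
  ⟨-34658, v 2, v 2, v 2, m (v 2) (v 2), [v 1, v 0, v 1]⟩,
  ⟨582712, v 2, v 2, m (v 2) (v 0), m (m (v 2) (v 2)) (v 1), [v 1]⟩,
  ⟨43784, v 2, v 2, m (m (v 2) (v 2)) (m (v 2) (v 1)), v 0, [v 1]⟩,
  ⟨368264, v 2, v 2, m (m (v 2) (v 2)) (m (v 2) (v 0)), v 1, [v 1]⟩,
  ⟨-246740, v 2, v 2, m (m (v 2) (v 2)) (v 2), m (v 1) (v 0), [v 1]⟩,
  ⟨246740, v 2, v 2, m (m (v 1) (v 0)) (v 2), m (v 2) (v 2), [v 1]⟩,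
  ⟨-54366, v 2, m (v 2) (v 2), v 2, m (m (v 2) (v 1)) (v 0), [v 1]⟩,
  ⟨-54366, v 2, v 2, v 2, m (m (v 2) (v 1)) (v 0), [v 2, v 1]⟩,
  ⟨398710, v 2, m (v 2) (v 2), v 2, v 1, [m (v 2) (v 0), v 1]⟩,
  ⟨-398710, v 2, v 2, v 2, v 1, [v 2, m (v 2) (v 0), v 1]⟩,
  ⟨-54366, v 2, v 2, m (m (v 2) (v 1)) (v 0), m (v 2) (v 2), [v 1]⟩,
  ⟨-2003118, v 2, v 2, v 2, m (m (m (v 2) (v 1)) (v 0)) (v 2), [v 1]⟩,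
  ⟨623896, v 2, m (v 2) (v 2), m (v 2) (v 1), m (v 2) (v 0), [v 1]⟩,
  ⟨386386, v 2, v 2, v 0, m (v 2) (v 2), [v 1, v 2, v 1]⟩,
  ⟨386386, v 2, m (v 2) (v 2), v 2, v 0, [v 1, v 2, v 1]⟩,
  ⟨386386, v 2, v 2, v 2, v 0, [v 2, v 1, v 2, v 1]⟩,
  ⟨-256698, v 2, v 2, v 2, v 1, [v 2, v 2, v 0, v 1]⟩,
  ⟨-256698, v 2, v 2, v 2, m (v 2) (v 1), [v 2, v 0, v 1]⟩,
  ⟨-228774, v 2, m (v 2) (v 2), v 2, v 0, [m (v 2) (v 1), v 1]⟩,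
  ⟨-228774, v 2, v 2, v 2, v 0, [v 2, m (v 2) (v 1), v 1]⟩,
  ⟨256698, v 2, v 2, v 1, m (v 2) (v 2), [v 2, v 0, v 1]⟩,
  ⟨207766, v 2, v 2, m (m (v 2) (v 0)) (v 1), m (v 2) (v 2), [v 1]⟩,
  ⟨107380, v 2, v 2, v 0, v 1, [v 2, m (v 2) (v 2), v 1]⟩,
  ⟨132028, v 2, m (v 2) (v 2), v 0, v 1, [m (v 2) (v 2), v 1]⟩,
  ⟨353028, v 2, v 2, m (v 2) (v 0), v 1, [m (v 2) (v 2), v 1]⟩,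
  ⟨212732, v 2, v 1, v 0, m (v 2) (v 2), [m (v 2) (v 2), v 1]⟩,
  ⟨132028, v 2, v 2, v 2, v 0, [v 1, m (v 2) (v 2), v 1]⟩,
  ⟨-1115244, v 2, v 1, v 2, v 0, [v 2, m (v 2) (v 2), v 1]⟩,
  ⟨-654836, v 2, v 2, v 1, m (v 2) (v 0), [m (v 2) (v 2), v 1]⟩,
  ⟨-654836, v 2, v 1, v 2, m (v 2) (v 0), [m (v 2) (v 2), v 1]⟩,
  ⟨574132, m (v 2) (v 2), m (v 2) (v 2), v 1, m (v 2) (v 0), [v 1]⟩,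
  ⟨-1139892, m (v 2) (v 2), m (v 2) (v 2), m (v 2) (v 1), v 0, [v 1]⟩,
  ⟨-212732, m (v 2) (v 2), m (v 2) (v 2), v 0, m (v 2) (v 1), [v 1]⟩,
  ⟨212732, v 2, m (v 2) (v 2), v 1, v 0, [m (v 2) (v 2), v 1]⟩,
  ⟨-697788, m (v 2) (v 2), m (v 2) (v 2), m (v 2) (v 0), v 1, [v 1]⟩,
  ⟨-1051882, v 2, v 2, v 2, m (m (m (v 2) (v 0)) (v 1)) (v 2), [v 1]⟩,
  ⟨-369980, v 2, v 2, v 1, v 0, [v 2, m (v 2) (v 2), v 1]⟩,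
  ⟨207766, v 2, m (v 2) (v 2), v 2, m (m (v 2) (v 0)) (v 1), [v 1]⟩,
  ⟨207766, v 2, v 2, v 2, m (m (v 2) (v 0)) (v 1), [v 2, v 1]⟩,
  ⟨-164762, v 2, v 2, v 2, v 0, [v 2, v 2, v 1, v 1]⟩,
  ⟨164762, v 2, v 2, v 2, m (v 2) (v 0), [v 2, v 1, v 1]⟩,
  ⟨-123656, v 2, v 2, v 1, m (m (v 2) (v 2)) (m (v 2) (v 0)), [v 1]⟩,
  ⟨102934, v 2, m (v 2) (v 2), v 2, v 0, [v 2, v 1, v 1]⟩,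
  ⟨-164762, v 2, v 2, v 0, m (v 2) (v 2), [v 2, v 1, v 1]⟩,
  ⟨164762, v 2, v 2, v 2, m (v 2) (v 2), [v 0, v 1, v 1]⟩,
  ⟨-61828, v 2, v 2, v 2, m (m (v 2) (v 2)) (v 0), [v 1, v 1]⟩,
  ⟨61828, v 2, m (v 2) (v 2), m (v 2) (v 2), v 0, [v 1, v 1]⟩,
  ⟨1319968, v 2, m (v 2) (v 2), v 1, v 0, [v 2, v 2, v 1]⟩,
  ⟨-423176, v 2, m (v 2) (v 2), m (v 2) (v 0), m (v 2) (v 1), [v 1]⟩,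
  ⟨380744, v 2, v 2, v 1, m (v 2) (v 0), [v 1, m (v 2) (v 2)]⟩,
  ⟨1309620, m (v 2) (v 2), m (v 2) (v 2), v 1, m (m (v 1) (v 0)) (v 2), []⟩,
  ⟨1229072, v 2, v 2, v 2, v 1, [v 0, v 2, v 2, v 1]⟩,
  ⟨-319072, v 2, m (v 2) (v 2), v 0, v 1, [v 2, v 2, v 1]⟩,
  ⟨-319072, v 2, v 2, v 2, v 0, [v 1, v 2, v 2, v 1]⟩,
  ⟨-1018992, v 2, v 2, v 2, v 1, [m (v 2) (v 0), v 2, v 1]⟩,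
  ⟨-1018992, v 2, m (v 2) (v 2), v 1, m (v 2) (v 0), [v 2, v 1]⟩,
  ⟨-582712, v 2, m (v 2) (v 2), m (m (v 2) (v 2)) (v 1), v 0, [v 1]⟩,
  ⟨-582712, v 2, v 2, m (v 2) (v 1), m (m (v 2) (v 2)) (v 0), [v 1]⟩,
  ⟨1007864, v 2, v 2, m (v 2) (v 1), v 0, [m (v 2) (v 2), v 1]⟩,
  ⟨582712, v 2, m (v 2) (v 2), v 1, m (m (v 2) (v 2)) (v 0), [v 1]⟩,
  ⟨582712, v 2, v 2, m (m (m (v 2) (v 2)) (v 0)) (v 2), v 1, [v 1]⟩,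
  ⟨582712, v 2, v 2, v 1, m (m (v 2) (v 2)) (v 0), [v 2, v 1]⟩,
  ⟨582712, v 2, v 2, v 2, v 1, [m (m (v 2) (v 2)) (v 0), v 1]⟩,
  ⟨536224, v 2, m (v 2) (v 2), m (v 2) (v 1), v 0, [v 2, v 1]⟩,
  ⟨597948, m (v 2) (v 2), m (v 2) (v 2), m (m (v 1) (v 0)) (v 2), v 1, []⟩,
  ⟨646360, v 2, v 2, m (m (v 2) (v 2)) (v 1), v 0, [v 2, v 1]⟩,
  ⟨-338312, v 2, m (v 2) (v 2), v 1, v 0, [v 1, m (v 2) (v 2)]⟩,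
  ⟨-77532, m (v 2) (v 2), m (v 2) (v 2), m (v 1) (v 0), m (v 2) (v 1), []⟩,
  ⟨-948740, m (v 2) (v 2), m (v 2) (v 2), m (v 2) (v 1), m (v 1) (v 0), []⟩,
  ⟨1163968, m (v 2) (v 2), m (v 2) (v 2), v 1, v 0, [m (v 2) (v 1)]⟩,
  ⟨106288, m (v 2) (v 2), m (v 2) (v 2), v 1, m (m (v 2) (v 0)) (v 1), []⟩,
  ⟨-279760, v 2, m (v 2) (v 2), m (m (v 2) (v 0)) (v 2), v 1, [v 1]⟩,
  ⟨146120, v 2, v 2, m (m (v 2) (v 2)) (v 0), v 1, [v 2, v 1]⟩,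
  ⟨-562848, v 2, v 2, m (v 2) (v 1), v 0, [v 2, v 2, v 1]⟩,
  ⟨1365520, v 2, v 2, m (v 2) (v 0), m (v 2) (v 1), [v 2, v 1]⟩,
  ⟨-1264432, v 2, v 2, m (m (v 2) (v 1)) (v 2), v 0, [v 2, v 1]⟩,
  ⟨1463696, v 2, v 2, v 0, m (v 2) (v 1), [v 2, v 2, v 1]⟩,
  ⟨-2731664, v 2, v 2, m (m (v 2) (v 0)) (v 2), v 1, [v 2, v 1]⟩,
  ⟨99632, v 2, v 2, m (m (v 2) (v 2)) (v 1), m (v 2) (v 0), [v 1]⟩,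
  ⟨300352, v 2, v 2, m (m (v 2) (v 1)) (v 2), m (v 2) (v 0), [v 1]⟩,
  ⟨559520, v 2, v 2, m (v 2) (v 1), m (m (v 2) (v 0)) (v 2), [v 1]⟩,
  ⟨-199264, v 2, v 2, m (m (m (v 2) (v 1)) (v 2)) (v 2), v 0, [v 1]⟩,
  ⟨199264, v 2, v 2, v 0, m (m (v 2) (v 1)) (v 2), [v 2, v 1]⟩,
  ⟨49816, v 2, v 2, m (m (v 2) (v 2)) (v 2), v 1, [v 0, v 1]⟩,
  ⟨99632, v 2, v 2, v 2, m (m (v 2) (v 1)) (v 2), [v 0, v 1]⟩,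
  ⟨267696, v 2, v 2, m (m (v 2) (v 2)) (v 2), v 0, [v 1, v 1]⟩,
  ⟨-267696, v 2, v 2, m (v 2) (v 0), m (v 2) (v 2), [v 1, v 1]⟩,
  ⟨-199264, v 2, v 2, m (v 2) (v 0), m (m (v 2) (v 1)) (v 2), [v 1]⟩,
  ⟨-300352, v 2, v 2, m (m (v 2) (v 0)) (v 2), m (v 2) (v 1), [v 1]⟩,
  ⟨99632, v 2, v 2, m (m (v 2) (v 2)) (v 0), m (v 2) (v 1), [v 1]⟩,
  ⟨99632, v 2, m (v 2) (v 2), v 1, m (m (v 2) (v 0)) (v 2), [v 1]⟩,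
  ⟨-180128, v 2, v 2, m (m (m (v 2) (v 0)) (v 2)) (v 2), v 1, [v 1]⟩,
  ⟨-1323712, v 2, v 2, v 1, m (m (v 2) (v 0)) (v 2), [v 2, v 1]⟩,
  ⟨-1439776, v 2, v 2, m (v 2) (v 0), v 1, [v 2, v 2, v 1]⟩,
  ⟨2475408, v 2, v 2, v 1, m (v 2) (v 0), [v 2, v 2, v 1]⟩,
  ⟨-279760, v 2, v 2, v 2, m (m (v 2) (v 0)) (v 2), [v 1, v 1]⟩,
  ⟨99632, v 2, m (v 2) (v 2), v 0, m (m (v 2) (v 1)) (v 2), [v 1]⟩,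
  ⟨3793296, v 2, v 2, m (v 2) (v 1), m (v 2) (v 0), [v 2, v 1]⟩,
  ⟨-49816, v 2, v 2, m (v 2) (v 1), m (v 2) (v 2), [v 0, v 1]⟩,
  ⟨99632, v 2, m (v 2) (v 2), m (m (v 2) (v 1)) (v 2), v 0, [v 1]⟩,
  ⟨-788424, v 2, v 2, m (v 1) (v 1), v 0, [v 2, m (v 2) (v 2)]⟩,
  ⟨-338312, v 2, v 1, v 0, m (v 2) (v 2), [v 1, m (v 2) (v 2)]⟩,
  ⟨809328, m (v 2) (v 2), m (v 2) (v 2), m (m (v 2) (v 1)) (v 0), v 1, []⟩,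
  ⟨89440, v 2, v 2, v 1, m (v 2) (v 1), [v 2, v 2, v 0]⟩,
  ⟨785304, m (v 2) (v 2), m (v 2) (v 2), v 0, m (m (v 2) (v 1)) (v 1), []⟩,
  ⟨-357760, v 2, v 1, m (v 2) (v 1), m (m (v 2) (v 2)) (v 2), [v 0]⟩,
  ⟨-1172184, v 2, v 2, m (m (v 2) (v 0)) (v 1), v 1, [m (v 2) (v 2)]⟩,
  ⟨876304, m (v 2) (v 2), m (v 2) (v 2), m (m (v 2) (v 0)) (v 1), v 1, []⟩,
  ⟨-1147640, v 2, v 2, m (m (v 2) (v 1)) (v 0), v 1, [m (v 2) (v 2)]⟩,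
  ⟨-338312, v 2, v 1, m (m (v 2) (v 2)) (v 0), v 1, [m (v 2) (v 2)]⟩,
  ⟨295880, v 2, v 1, v 2, m (v 2) (v 0), [v 1, m (v 2) (v 2)]⟩,
  ⟨338312, v 2, m (v 2) (v 2), v 0, m (v 1) (v 1), [m (v 2) (v 2)]⟩,
  ⟨338312, v 2, v 2, v 2, v 0, [m (v 1) (v 1), m (v 2) (v 2)]⟩,
  ⟨-650728, v 2, v 2, v 0, v 1, [v 1, v 2, m (v 2) (v 2)]⟩,
  ⟨-1061424, v 2, v 2, m (m (v 2) (v 2)) (v 0), v 1, [m (v 2) (v 1)]⟩,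
  ⟨-1147250, v 2, v 2, v 2, m (m (v 1) (v 0)) (v 2), [m (v 2) (v 1)]⟩,
  ⟨-433888, v 2, v 2, v 1, m (v 2) (v 0), [v 2, m (v 2) (v 1)]⟩,
  ⟨-3232320, v 2, v 2, m (v 2) (v 1), v 0, [v 2, m (v 2) (v 1)]⟩,
  ⟨-271440, v 2, m (v 2) (v 2), v 0, v 1, [v 2, m (v 2) (v 1)]⟩,
  ⟨1716624, v 2, v 2, m (m (v 2) (v 1)) (v 2), v 0, [m (v 2) (v 1)]⟩,
  ⟨-1716624, v 2, v 2, v 0, m (v 2) (v 1), [v 2, m (v 2) (v 1)]⟩,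
  ⟨1028768, v 2, m (v 2) (v 2), v 2, v 1, [v 0, m (v 2) (v 1)]⟩,
  ⟨1830192, v 2, v 2, v 2, m (v 2) (v 1), [v 0, m (v 2) (v 1)]⟩,
  ⟨-227344, v 2, v 2, v 1, m (v 2) (v 2), [v 0, m (v 2) (v 1)]⟩,
  ⟨-1028768, v 2, v 2, v 2, v 1, [v 2, v 0, m (v 2) (v 1)]⟩,
  ⟨-1716624, v 2, v 2, m (v 2) (v 0), m (v 2) (v 1), [m (v 2) (v 1)]⟩,
  ⟨752986, v 2, v 2, m (v 1) (v 0), m (v 2) (v 2), [m (v 2) (v 1)]⟩,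
  ⟨-1379664, v 2, v 2, m (v 2) (v 1), m (v 2) (v 0), [m (v 2) (v 1)]⟩,
  ⟨51272, v 2, v 2, v 0, m (v 2) (v 2), [v 1, m (v 2) (v 1)]⟩,
  ⟨51272, v 2, m (v 2) (v 2), v 2, v 0, [v 1, m (v 2) (v 1)]⟩,
  ⟨1477840, v 2, v 2, m (m (v 2) (v 0)) (v 2), v 1, [m (v 2) (v 1)]⟩,
  ⟨752986, v 2, m (v 2) (v 2), v 2, m (v 1) (v 0), [m (v 2) (v 1)]⟩,
  ⟨-752986, v 2, v 2, v 2, m (v 1) (v 0), [v 2, m (v 2) (v 1)]⟩,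
  ⟨-1769040, v 2, m (v 2) (v 2), m (v 2) (v 0), v 1, [m (v 2) (v 1)]⟩,
  ⟨709280, v 2, m (v 2) (v 2), v 1, m (v 2) (v 0), [m (v 2) (v 1)]⟩,
  ⟨1538368, v 2, m (v 2) (v 2), m (v 2) (v 1), v 0, [m (v 2) (v 1)]⟩,
  ⟨1659840, v 2, v 2, v 0, v 1, [v 2, v 2, m (v 2) (v 1)]⟩,
  ⟨709280, v 2, v 2, v 1, v 0, [v 2, v 2, m (v 2) (v 1)]⟩,
  ⟨3930784, v 2, m (v 2) (v 2), v 1, v 0, [v 2, m (v 2) (v 1)]⟩,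
  ⟨709280, v 2, v 1, v 0, m (v 2) (v 2), [v 2, m (v 2) (v 1)]⟩,
  ⟨-683904, v 2, v 2, v 2, m (m (v 2) (v 1)) (v 0), [m (v 2) (v 1)]⟩,
  ⟨-144144, v 2, v 1, v 2, v 0, [v 2, v 2, m (v 2) (v 1)]⟩,
  ⟨-1142336, v 2, m (v 2) (v 2), v 0, m (v 2) (v 1), [m (v 2) (v 1)]⟩,
  ⟨1256112, v 2, m (m (v 2) (v 2)) (v 2), v 1, v 0, [m (v 2) (v 1)]⟩,
  ⟨-1256112, v 2, v 2, v 0, m (m (v 2) (v 2)) (v 1), [m (v 2) (v 1)]⟩,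
  ⟨1965392, v 2, v 2, m (m (v 2) (v 2)) (v 1), v 0, [m (v 2) (v 1)]⟩,
  ⟨1965392, v 2, v 2, v 2, v 1, [v 0, v 2, m (v 2) (v 1)]⟩,
  ⟨-1163968, v 2, v 2, v 1, v 0, [m (v 2) (v 2), m (v 2) (v 1)]⟩,
  ⟨-1163968, v 2, v 1, v 2, v 0, [m (v 2) (v 2), m (v 2) (v 1)]⟩,
  ⟨1163968, v 2, v 2, v 0, v 1, [m (v 2) (v 2), m (v 2) (v 1)]⟩,
  ⟨-1163968, m (v 2) (v 2), m (v 2) (v 2), v 0, v 1, [m (v 2) (v 1)]⟩,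
  ⟨-196352, v 2, v 2, v 1, m (m (v 2) (v 0)) (v 2), [m (v 2) (v 1)]⟩,
  ⟨709280, v 2, v 2, v 2, v 1, [m (v 2) (v 0), m (v 2) (v 1)]⟩,
  ⟨506064, v 2, v 2, v 2, m (v 1) (v 0), [m (m (v 2) (v 2)) (v 1)]⟩,
  ⟨2953496, v 2, v 2, m (m (v 2) (v 2)) (v 2), m (m (v 1) (v 1)) (v 0), []⟩,
  ⟨-2145936, v 2, v 2, m (v 2) (v 0), v 1, [v 2, m (v 2) (v 1)]⟩,
  ⟨1071824, v 2, v 2, v 1, m (m (v 2) (v 2)) (v 0), [m (v 2) (v 1)]⟩,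
  ⟨-25532, v 2, v 2, v 0, m (v 2) (v 2), [m (m (v 2) (v 1)) (v 1)]⟩,
  ⟨-25532, v 2, m (v 2) (v 2), v 2, v 0, [m (m (v 2) (v 1)) (v 1)]⟩,
  ⟨-892112, v 2, v 2, v 1, v 0, [v 2, v 2, v 2, v 1]⟩,
  ⟨1531504, v 2, v 2, v 1, m (m (m (m (v 2) (v 1)) (v 0)) (v 2)) (v 2), []⟩,
  ⟨-1522976, v 2, v 2, v 1, m (m (m (m (v 2) (v 0)) (v 2)) (v 1)) (v 2), []⟩,
  ⟨-506064, v 2, v 2, v 1, m (m (m (v 2) (v 2)) (m (v 1) (v 0))) (v 2), []⟩,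
  ⟨1398176, v 2, v 1, v 2, v 0, [v 2, v 2, v 2, v 1]⟩,
  ⟨-312416, v 2, v 2, v 1, m (m (m (m (v 2) (v 2)) (v 0)) (v 1)) (v 2), []⟩,
  ⟨628368, v 2, v 2, v 0, v 1, [v 2, v 2, v 2, v 1]⟩,
  ⟨981552, v 2, v 2, m (v 2) (v 1), m (m (m (v 1) (v 0)) (v 2)) (v 2), []⟩,
  ⟨-711672, v 2, v 2, v 1, m (m (m (v 1) (v 0)) (v 2)) (m (v 2) (v 2)), []⟩,
  ⟨1152320, v 2, v 2, v 1, m (m (m (v 2) (v 0)) (v 1)) (m (v 2) (v 2)), []⟩,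
  ⟨1152320, v 2, v 1, v 2, m (v 2) (v 0), [v 2, v 2, v 1]⟩,
  ⟨1423344, v 2, v 1, v 2, m (v 2) (v 0), [v 2, m (v 2) (v 1)]⟩,
  ⟨892112, v 2, v 2, v 1, m (m (m (v 2) (v 1)) (v 0)) (m (v 2) (v 2)), []⟩,
  ⟨-892112, v 2, v 1, v 0, m (v 2) (v 2), [v 2, v 2, v 1]⟩,
  ⟨-142896, v 2, v 2, v 1, m (v 2) (v 0), [m (m (v 2) (v 1)) (v 2)]⟩,
  ⟨619840, v 2, v 2, m (v 2) (v 1), v 0, [m (m (v 2) (v 1)) (v 2)]⟩,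
  ⟨-476944, v 2, v 2, v 1, v 0, [v 2, m (m (v 2) (v 1)) (v 2)]⟩,
  ⟨-619840, v 2, m (v 2) (v 2), v 0, v 1, [m (m (v 2) (v 1)) (v 2)]⟩,
  ⟨92976, v 2, v 2, v 0, v 1, [v 2, m (m (v 2) (v 1)) (v 2)]⟩,
  ⟨-476944, v 2, m (v 2) (v 2), v 1, v 0, [m (m (v 2) (v 1)) (v 2)]⟩,
  ⟨378768, v 2, v 2, m (v 2) (v 0), v 1, [m (m (v 2) (v 1)) (v 2)]⟩,
  ⟨-712816, v 2, v 1, v 2, v 0, [v 2, m (m (v 2) (v 1)) (v 2)]⟩,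
  ⟨-236496, v 2, v 2, v 2, m (v 1) (v 0), [m (m (v 2) (v 1)) (v 2)]⟩,
  ⟨-2664272, v 2, v 2, m (v 2) (v 1), m (m (m (v 2) (v 0)) (v 1)) (v 2), []⟩,
  ⟨-2469584, v 2, v 2, m (v 2) (v 1), m (m (m (v 2) (v 1)) (v 0)) (v 2), []⟩,
  ⟨986440, v 2, v 2, m (v 2) (v 1), m (m (v 2) (v 2)) (m (v 1) (v 0)), []⟩,
  ⟨11024, v 2, v 1, v 2, m (m (m (m (v 1) (v 0)) (v 2)) (v 2)) (v 2), []⟩,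
  ⟨236704, v 2, v 2, m (m (v 2) (v 1)) (v 2), m (m (v 1) (v 0)) (v 2), []⟩,
  ⟨1206166, v 2, m (v 2) (v 2), v 2, v 1, [m (m (v 1) (v 0)) (v 2)]⟩,
  ⟨444418, v 2, v 2, v 2, m (v 2) (v 1), [m (m (v 1) (v 0)) (v 2)]⟩,
  ⟨1206166, v 2, v 2, v 1, m (v 2) (v 2), [m (m (v 1) (v 0)) (v 2)]⟩,
  ⟨-1206166, v 2, v 2, v 2, v 1, [v 2, m (m (v 1) (v 0)) (v 2)]⟩,
  ⟨-68224, v 2, v 2, m (m (v 2) (v 1)) (v 2), m (m (v 2) (v 0)) (v 1), []⟩,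
  ⟨186368, v 2, m (v 2) (v 2), v 2, v 1, [m (m (v 2) (v 0)) (v 1)]⟩,
  ⟨176800, v 2, v 2, v 2, m (v 2) (v 1), [m (m (v 2) (v 0)) (v 1)]⟩,
  ⟨-195936, v 2, v 2, v 1, m (v 2) (v 2), [m (m (v 2) (v 0)) (v 1)]⟩,
  ⟨-186368, v 2, v 2, v 2, v 1, [v 2, m (m (v 2) (v 0)) (v 1)]⟩,
  ⟨-2556736, v 2, v 2, m (m (v 2) (v 1)) (v 2), m (m (v 2) (v 1)) (v 0), []⟩,
  ⟨-1400776, v 2, m (v 2) (v 2), v 2, v 1, [m (m (v 2) (v 1)) (v 0)]⟩,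
  ⟨-2605512, v 2, v 2, v 2, m (v 2) (v 1), [m (m (v 2) (v 1)) (v 0)]⟩,
  ⟨196040, v 2, v 2, v 1, m (v 2) (v 2), [m (m (v 2) (v 1)) (v 0)]⟩,
  ⟨1400776, v 2, v 2, v 2, v 1, [v 2, m (m (v 2) (v 1)) (v 0)]⟩,
  ⟨1308320, v 2, v 2, m (m (v 2) (v 2)) (v 1), m (m (v 1) (v 0)) (v 2), []⟩,
  ⟨-143000, v 2, v 2, v 2, v 1, [m (m (v 2) (v 2)) (m (v 1) (v 0))]⟩,
  ⟨657696, v 2, v 2, m (m (m (v 2) (v 1)) (v 2)) (v 2), m (v 1) (v 0), []⟩,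
  ⟨-447096, v 2, v 2, m (m (v 2) (v 2)) (v 2), v 1, [m (v 1) (v 0)]⟩,
  ⟨194194, v 2, v 2, v 1, m (v 2) (v 2), [v 2, m (v 1) (v 0)]⟩,
  ⟨-194194, v 2, v 2, v 2, v 1, [v 2, v 2, m (v 1) (v 0)]⟩,
  ⟨-194194, v 2, v 2, v 2, m (v 2) (v 1), [v 2, m (v 1) (v 0)]⟩,
  ⟨-894192, v 2, v 2, v 2, m (m (v 2) (v 1)) (v 2), [m (v 1) (v 0)]⟩,
  ⟨-835484, v 2, v 2, v 2, m (m (v 2) (v 2)) (v 1), [m (v 1) (v 0)]⟩,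
  ⟨978484, v 2, m (v 2) (v 2), m (v 2) (v 2), v 1, [m (v 1) (v 0)]⟩,
  ⟨265694, v 2, v 2, v 2, m (v 2) (v 2), [v 1, m (v 1) (v 0)]⟩,
  ⟨641290, v 2, m (v 2) (v 2), v 2, v 1, [v 2, m (v 1) (v 0)]⟩,
  ⟨363064, v 2, v 2, m (m (m (v 2) (v 2)) (v 1)) (v 2), m (v 1) (v 0), []⟩,
  ⟨1503112, v 2, v 2, m (m (v 2) (v 2)) (m (v 2) (v 1)), m (v 1) (v 0), []⟩,
  ⟨132496, v 2, v 1, m (m (m (v 2) (v 0)) (v 2)) (v 2), v 1, [v 2]⟩,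
  ⟨2392000, v 2, v 2, m (v 1) (v 1), m (m (v 2) (v 0)) (v 2), [v 2]⟩,
  ⟨195364, v 2, v 2, m (m (v 2) (v 2)) (v 2), v 0, [m (v 1) (v 1)]⟩,
  ⟨-2524496, v 2, v 2, m (m (v 1) (v 1)) (v 2), m (m (v 2) (v 0)) (v 2), []⟩,
  ⟨-480168, v 2, v 2, v 2, m (v 1) (v 1), [m (m (v 2) (v 0)) (v 2)]⟩,
  ⟨-102128, v 2, v 2, m (m (m (v 2) (v 1)) (v 1)) (v 2), m (v 2) (v 0), []⟩,
  ⟨390728, v 2, v 2, m (m (v 2) (v 2)) (m (v 1) (v 1)), m (v 2) (v 0), []⟩,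
  ⟨-511264, v 2, v 2, m (m (m (m (v 2) (v 1)) (v 1)) (v 2)) (v 2), v 0, []⟩,
  ⟨1092000, v 2, v 2, m (m (m (v 2) (v 1)) (v 1)) (m (v 2) (v 2)), v 0, []⟩,
  ⟨-1092000, v 2, v 2, v 0, m (m (m (v 2) (v 1)) (v 1)) (m (v 2) (v 2)), []⟩,
  ⟨511264, v 2, v 2, m (v 2) (v 0), m (m (m (v 2) (v 1)) (v 1)) (v 2), []⟩,
  ⟨102128, v 2, v 2, m (m (v 2) (v 0)) (v 2), m (m (v 2) (v 1)) (v 1), []⟩,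
  ⟨-657696, v 2, v 2, m (m (v 1) (v 0)) (v 2), m (m (v 2) (v 1)) (v 2), []⟩,
  ⟨447096, v 2, v 2, m (v 2) (v 1), m (v 2) (v 2), [m (v 1) (v 0)]⟩,
  ⟨1670968, v 2, v 2, m (v 1) (v 0), m (m (v 2) (v 2)) (m (v 2) (v 1)), []⟩,
  ⟨-363064, v 2, v 2, m (m (v 1) (v 0)) (v 2), m (m (v 2) (v 2)) (v 1), []⟩,
  ⟨236704, v 2, v 2, m (m (m (v 1) (v 0)) (v 2)) (v 2), m (v 2) (v 1), []⟩,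
  ⟨-68224, v 2, v 2, m (m (m (v 2) (v 0)) (v 1)) (v 2), m (v 2) (v 1), []⟩,
  ⟨-2556736, v 2, v 2, m (m (m (v 2) (v 1)) (v 0)) (v 2), m (v 2) (v 1), []⟩,
  ⟨-894192, v 2, v 2, m (m (v 2) (v 2)) (m (v 1) (v 0)), m (v 2) (v 1), []⟩,
  ⟨-1045512, v 2, v 2, m (m (m (v 2) (v 2)) (m (v 1) (v 0))) (v 2), v 1, []⟩,
  ⟨-1562496, v 2, v 2, m (m (m (m (v 1) (v 0)) (v 2)) (v 2)) (v 2), v 1, []⟩,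
  ⟨1507688, v 2, v 2, m (m (m (v 1) (v 0)) (v 2)) (m (v 2) (v 2)), v 1, []⟩,
  ⟨221936, v 2, v 2, m (m (m (v 2) (v 0)) (v 1)) (m (v 2) (v 2)), v 1, []⟩,
  ⟨-2285296, v 2, v 2, m (m (m (v 2) (v 1)) (v 0)) (m (v 2) (v 2)), v 1, []⟩,
  ⟨-1308320, v 2, m (v 2) (v 2), v 1, m (m (m (v 1) (v 0)) (v 2)) (v 2), []⟩,
  ⟨-1308320, v 2, v 2, v 2, v 1, [m (m (m (v 1) (v 0)) (v 2)) (v 2)]⟩,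
  ⟨-143000, v 2, m (v 2) (v 2), v 1, m (m (v 2) (v 2)) (m (v 1) (v 0)), []⟩,
  ⟨-19136, v 2, m (v 2) (v 2), m (v 2) (v 1), m (m (v 2) (v 0)) (v 1), []⟩,
  ⟨1650584, v 2, m (v 2) (v 2), m (v 2) (v 1), m (m (v 1) (v 0)) (v 2), []⟩,
  ⟨-1808352, v 2, m (v 2) (v 2), m (v 2) (v 1), m (m (v 2) (v 1)) (v 0), []⟩,
  ⟨-894192, v 2, m (v 2) (v 2), m (m (v 2) (v 1)) (v 2), m (v 1) (v 0), []⟩,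
  ⟨143000, v 2, m (v 2) (v 2), m (m (v 2) (v 2)) (v 1), m (v 1) (v 0), []⟩,
  ⟨-2524496, v 2, v 2, m (m (m (v 2) (v 0)) (v 2)) (v 2), m (v 1) (v 1), []⟩,
  ⟨-431392, v 2, m (v 2) (v 2), m (m (v 2) (v 0)) (v 1), m (v 2) (v 1), []⟩,
  ⟨-49088, v 2, v 2, v 2, m (m (v 2) (v 0)) (v 1), [m (v 2) (v 1)]⟩,
  ⟨506064, v 2, m (v 2) (v 2), m (v 1) (v 0), m (m (v 2) (v 2)) (v 1), []⟩,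
  ⟨1092000, v 2, m (v 2) (v 2), m (v 2) (v 0), m (m (v 2) (v 1)) (v 1), []⟩,
  ⟨1194128, v 2, m (v 2) (v 2), v 0, m (m (m (v 2) (v 1)) (v 1)) (v 2), []⟩,
  ⟨-390728, v 2, m (v 2) (v 2), m (m (v 2) (v 0)) (v 2), m (v 1) (v 1), []⟩,
  ⟨-236496, v 2, m (v 2) (v 2), m (v 1) (v 0), m (m (v 2) (v 1)) (v 2), []⟩,
  ⟨-1650376, v 2, m (v 2) (v 2), m (m (v 1) (v 0)) (v 2), m (v 2) (v 1), []⟩,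
  ⟨1449552, v 2, m (v 2) (v 2), m (m (v 2) (v 1)) (v 0), m (v 2) (v 1), []⟩,
  ⟨-223184, v 2, m (v 2) (v 2), m (m (m (v 1) (v 0)) (v 2)) (v 2), v 1, []⟩,
  ⟨-223184, v 2, v 2, v 2, m (m (m (v 1) (v 0)) (v 2)) (v 2), [v 1]⟩,
  ⟨382304, v 2, m (m (v 2) (v 2)) (v 2), v 1, m (m (v 2) (v 0)) (v 1), []⟩,
  ⟨-382304, v 2, v 2, m (m (v 2) (v 0)) (v 1), m (m (v 2) (v 2)) (v 1), []⟩,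
  ⟨1888640, v 2, v 2, m (m (m (m (v 2) (v 1)) (v 0)) (v 2)) (v 2), v 1, []⟩,
  ⟨3448640, v 2, v 2, m (m (m (m (v 2) (v 0)) (v 1)) (v 2)) (v 2), v 1, []⟩,
  ⟨1268176, v 2, m (v 2) (v 2), v 1, m (m (m (v 2) (v 0)) (v 1)) (v 2), []⟩,
  ⟨1268176, v 2, v 2, v 2, v 1, [m (m (m (v 2) (v 0)) (v 1)) (v 2)]⟩,
  ⟨417248, v 2, m (v 2) (v 2), v 1, m (m (m (v 2) (v 1)) (v 0)) (v 2), []⟩,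
  ⟨417248, v 2, v 2, v 2, v 1, [m (m (m (v 2) (v 1)) (v 0)) (v 2)]⟩,
  ⟨-877344, v 2, m (v 2) (v 2), m (m (m (v 2) (v 0)) (v 1)) (v 2), v 1, []⟩,
  ⟨-885872, v 2, v 2, m (m (v 2) (v 2)) (v 1), m (m (v 2) (v 0)) (v 1), []⟩,
  ⟨-241072, v 2, v 1, v 2, m (v 2) (v 0), [m (m (v 2) (v 1)) (v 2)]⟩,
  ⟨245648, v 2, v 2, m (m (m (m (v 2) (v 2)) (v 0)) (v 1)) (v 2), v 1, []⟩,
  ⟨-1587040, v 2, v 2, m (m (m (m (v 2) (v 0)) (v 2)) (v 1)) (v 2), v 1, []⟩,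
  ⟨-80704, v 2, v 2, m (m (m (m (v 2) (v 2)) (v 0)) (v 2)) (v 1), v 1, []⟩,
  ⟨-379392, v 2, v 2, m (m (m (m (v 2) (v 0)) (v 2)) (v 2)) (v 1), v 1, []⟩,
  ⟨379392, v 2, v 1, v 2, m (m (m (v 2) (v 0)) (v 2)) (v 2), [v 1]⟩,
  ⟨379392, v 2, v 2, v 1, m (m (m (v 2) (v 0)) (v 2)) (v 2), [v 1]⟩,
  ⟨-3545568, v 2, m (v 2) (v 2), m (m (m (v 2) (v 1)) (v 0)) (v 2), v 1, []⟩,
  ⟨-2014064, v 2, v 2, m (m (v 2) (v 2)) (v 1), m (m (v 2) (v 1)) (v 0), []⟩,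
  ⟨312416, v 2, m (v 2) (v 2), m (m (m (v 2) (v 2)) (v 0)) (v 1), v 1, []⟩,
  ⟨268736, v 2, v 2, m (v 2) (v 1), m (m (m (v 2) (v 2)) (v 0)) (v 1), []⟩,
  ⟨-476944, v 2, v 1, v 0, m (v 2) (v 2), [m (m (v 2) (v 1)) (v 2)]⟩,
  ⟨312416, v 2, v 2, v 2, m (m (m (v 2) (v 2)) (v 0)) (v 1), [v 1]⟩,
  ⟨1522976, v 2, m (v 2) (v 2), m (m (m (v 2) (v 0)) (v 2)) (v 1), v 1, []⟩,
  ⟨1566656, v 2, v 2, m (v 2) (v 1), m (m (m (v 2) (v 0)) (v 2)) (v 1), []⟩,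
  ⟨1522976, v 2, v 2, v 2, m (m (m (v 2) (v 0)) (v 2)) (v 1), [v 1]⟩,
  ⟨-1522976, v 2, v 1, v 2, m (m (v 2) (v 0)) (v 2), [v 2, v 1]⟩,
  ⟨-1596816, v 2, m (m (v 2) (v 2)) (v 2), v 1, m (m (v 2) (v 1)) (v 0), []⟩,
  ⟨1596816, v 2, v 2, m (m (v 2) (v 1)) (v 0), m (m (v 2) (v 2)) (v 1), []⟩,
  ⟨-1449760, v 2, m (m (v 2) (v 2)) (v 2), m (m (v 2) (v 1)) (v 1), v 0, []⟩,
  ⟨-1449760, v 2, v 2, v 2, m (m (m (m (v 2) (v 1)) (v 1)) (v 0)) (v 2), []⟩,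
  ⟨257296, v 2, v 1, v 2, m (m (m (m (v 2) (v 0)) (v 1)) (v 2)) (v 2), []⟩,
  ⟨-353184, v 2, v 1, v 2, m (m (m (m (v 2) (v 0)) (v 2)) (v 1)) (v 2), []⟩,
  ⟨43680, m (v 2) (v 2), m (v 2) (v 1), m (v 2) (v 1), m (v 2) (v 0), []⟩,
  ⟨-43680, v 2, v 2, v 0, v 1, [m (m (v 2) (v 2)) (m (v 2) (v 1))]⟩,
  ⟨43680, v 2, v 1, v 2, v 0, [m (m (v 2) (v 2)) (m (v 2) (v 1))]⟩,
  ⟨43680, m (v 2) (v 2), m (v 2) (v 1), m (v 2) (v 0), m (v 2) (v 1), []⟩,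
  ⟨198432, v 2, v 1, v 2, m (m (m (m (v 2) (v 2)) (v 0)) (v 1)) (v 2), []⟩,
  ⟨-1208064, v 2, v 2, v 0, v 1, [v 2, v 1, m (v 2) (v 2)]⟩,
  ⟨84864, v 2, v 1, v 2, m (m (m (m (v 2) (v 0)) (v 2)) (v 2)) (v 1), []⟩,
  ⟨-42432, v 2, m (v 2) (v 1), m (v 2) (v 0), v 1, [m (v 2) (v 2)]⟩,
  ⟨1009632, v 2, v 1, v 2, m (m (m (m (v 2) (v 2)) (v 0)) (v 2)) (v 1), []⟩,
  ⟨255632, v 2, v 1, v 1, m (m (m (v 2) (v 0)) (v 2)) (m (v 2) (v 2)), []⟩,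
  ⟨255632, v 2, m (v 2) (v 1), m (m (v 2) (v 2)) (m (v 2) (v 0)), v 1, []⟩,
  ⟨255632, v 2, m (v 2) (v 2), v 1, m (v 2) (v 0), [v 1, v 2]⟩,
  ⟨255632, v 2, v 2, v 2, v 1, [m (v 2) (v 0), v 1, v 2]⟩,
  ⟨255632, v 2, v 2, m (m (v 2) (v 2)) (v 0), m (m (v 2) (v 1)) (v 1), []⟩,
  ⟨-255632, v 2, m (v 2) (v 2), m (m (m (v 2) (v 1)) (v 1)) (v 2), v 0, []⟩,
  ⟨-255632, v 2, v 2, v 2, v 0, [m (m (m (v 2) (v 1)) (v 1)) (v 2)]⟩]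

def pol_id_V : Pol := (Pol.sub (Pol.mul (Pol.Z (Pol.var 0) (Pol.var 3) (Pol.var 4) (Pol.var 5) (Pol.var 6) (Pol.var 7)) (Pol.mul (Pol.var 1) (Pol.var 2))) (Pol.Z (Pol.mul (Pol.var 0) (Pol.mul (Pol.var 1) (Pol.var 2))) (Pol.var 3) (Pol.var 4) (Pol.var 5) (Pol.var 6) (Pol.var 7)))

def g_id_V : ℕ → ℕ := fun i => [0, 1, 1, 2, 2, 2, 2, 2].getD i 2
def p_id_V : ℕ → Bool := fun i => [false, true, true].getD i false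

theorem ok_id_V : check g_id_V p_id_V pol_id_V (27560) cert_id_V = true := by decide +kernel

/-- V -/
theorem id_V (m a b x1 x2 x3 x4 x5 : A) :
    (Z m x1 x2 x3 x4 x5) * (a * b) - (Z (m * (a * b)) x1 x2 x3 x4 x5) = 0 := by
  have h := engine 8 g_id_V p_id_V pol_id_V (27560) cert_id_V (by decide +kernel) (by decide) ok_id_V
    (by decide +kernel) (fun i => [m, a, b, x1, x2, x3, x4, x5].getD i 0) ?_ ?_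
  · simp only [pol_id_V, evP_var, evP_smul, evP_mul, evP_add, evP_sub, evP_J, evP_t, evP_e, evP_om, evP_X, evP_l, evP_Th, evP_Z] at h
    exact h
  · intro i hi j hj hg hp
    interval_cases i <;> interval_cases j <;> first | rfl | (exfalso; revert hg hp; decide)
  · intro b i hi hg hp
    have hi' : i < 7 := by omega
    clear hi
    interval_cases i
    · exfalso; revert hg hp; decide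
    · simp only [pol_id_V, evP_var, evP_smul, evP_mul, evP_add, evP_sub, evP_J, evP_t, evP_e, evP_om, evP_X, evP_l, evP_Th, evP_Z]
      show (Z (b 0) (b 3) (b 4) (b 5) (b 6) (b 7)) * ((b 2) * (b 1)) - (Z ((b 0) * ((b 2) * (b 1))) (b 3) (b 4) (b 5) (b 6) (b 7)) = - ((Z (b 0) (b 3) (b 4) (b 5) (b 6) (b 7)) * ((b 1) * (b 2)) - (Z ((b 0) * ((b 1) * (b 2))) (b 3) (b 4) (b 5) (b 6) (b 7)))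
      rw [anti (b 2) (b 1)]
      simp only [Z_neg1, mul_neg]
      abel
    · exfalso; revert hg hp; decide
    · simp only [pol_id_V, evP_var, evP_smul, evP_mul, evP_add, evP_sub, evP_J, evP_t, evP_e, evP_om, evP_X, evP_l, evP_Th, evP_Z]
      show (Z (b 0) (b 4) (b 3) (b 5) (b 6) (b 7)) * ((b 1) * (b 2)) - (Z ((b 0) * ((b 1) * (b 2))) (b 4) (b 3) (b 5) (b 6) (b 7)) = - ((Z (b 0) (b 3) (b 4) (b 5) (b 6) (b 7)) * ((b 1) * (b 2)) - (Z ((b 0) * ((b 1) * (b 2))) (b 3) (b 4) (b 5) (b 6) (b 7)))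
      rw [Z_swap23 (b 0) (b 3) (b 4) (b 5) (b 6) (b 7), Z_swap23 ((b 0) * ((b 1) * (b 2))) (b 3) (b 4) (b 5) (b 6) (b 7)]
      simp only [neg_mul]
      abel
    · simp only [pol_id_V, evP_var, evP_smul, evP_mul, evP_add, evP_sub, evP_J, evP_t, evP_e, evP_om, evP_X, evP_l, evP_Th, evP_Z]
      show (Z (b 0) (b 3) (b 5) (b 4) (b 6) (b 7)) * ((b 1) * (b 2)) - (Z ((b 0) * ((b 1) * (b 2))) (b 3) (b 5) (b 4) (b 6) (b 7)) = - ((Z (b 0) (b 3) (b 4) (b 5) (b 6) (b 7)) * ((b 1) * (b 2)) - (Z ((b 0) * ((b 1) * (b 2))) (b 3) (b 4) (b 5) (b 6) (b 7)))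
      rw [Z_swap34 (b 0) (b 3) (b 4) (b 5) (b 6) (b 7), Z_swap34 ((b 0) * ((b 1) * (b 2))) (b 3) (b 4) (b 5) (b 6) (b 7)]
      simp only [neg_mul]
      abel
    · simp only [pol_id_V, evP_var, evP_smul, evP_mul, evP_add, evP_sub, evP_J, evP_t, evP_e, evP_om, evP_X, evP_l, evP_Th, evP_Z]
      show (Z (b 0) (b 3) (b 4) (b 6) (b 5) (b 7)) * ((b 1) * (b 2)) - (Z ((b 0) * ((b 1) * (b 2))) (b 3) (b 4) (b 6) (b 5) (b 7)) = - ((Z (b 0) (b 3) (b 4) (b 5) (b 6) (b 7)) * ((b 1) * (b 2)) - (Z ((b 0) * ((b 1) * (b 2))) (b 3) (b 4) (b 5) (b 6) (b 7)))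
      rw [Z_swap45 (b 0) (b 3) (b 4) (b 5) (b 6) (b 7), Z_swap45 ((b 0) * ((b 1) * (b 2))) (b 3) (b 4) (b 5) (b 6) (b 7)]
      simp only [neg_mul]
      abel
    · simp only [pol_id_V, evP_var, evP_smul, evP_mul, evP_add, evP_sub, evP_J, evP_t, evP_e, evP_om, evP_X, evP_l, evP_Th, evP_Z]
      show (Z (b 0) (b 3) (b 4) (b 5) (b 7) (b 6)) * ((b 1) * (b 2)) - (Z ((b 0) * ((b 1) * (b 2))) (b 3) (b 4) (b 5) (b 7) (b 6)) = - ((Z (b 0) (b 3) (b 4) (b 5) (b 6) (b 7)) * ((b 1) * (b 2)) - (Z ((b 0) * ((b 1) * (b 2))) (b 3) (b 4) (b 5) (b 6) (b 7)))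
      rw [Z_swap56 (b 0) (b 3) (b 4) (b 5) (b 6) (b 7), Z_swap56 ((b 0) * ((b 1) * (b 2))) (b 3) (b 4) (b 5) (b 6) (b 7)]
      simp only [neg_mul]
      abel

end Pool.Agent.MalF
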