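import Pool.Agent.MalF.EngX
import Pool.Agent.MalF.EngP
import Pool.Agent.MalF.Swap

/-!
# Identity Z3
-/

set_option maxRecDepth 100000
set_option linter.unusedSimpArgs false

namespace Pool.Agent.MalF

open Tr

variable {A : Type*} [NonUnitalNonAssocRing A] [IsMalcev A] [TF A]

/-- Certificate. -/
def cert_id_Z3 : List Inst :=
  [⟨-17160, v 2, v 1, m (v 2) (v 1), v 0, [v 2, v 2]⟩,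
  ⟨-25524, v 2, v 2, v 1, m (v 1) (v 0), [v 2, v 2]⟩,
  ⟨-13896, v 2, v 1, v 1, v 0, [v 2, v 2, v 2]⟩,
  ⟨-13392, v 2, v 0, v 1, v 1, [v 2, v 2, v 2]⟩,
  ⟨-6108, v 2, v 1, v 0, m (v 2) (v 1), [v 2, v 2]⟩,
  ⟨12816, v 2, v 1, m (v 2) (v 0), v 1, [v 2, v 2]⟩,
  ⟨-16884, v 2, m (v 2) (v 1), v 0, v 1, [v 2, v 2]⟩,
  ⟨-612, v 2, v 2, m (v 1) (v 0), v 1, [v 2, v 2]⟩,
  ⟨804, v 2, v 2, m (v 1) (v 1), v 0, [v 2, v 2]⟩,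
  ⟨11868, v 2, v 1, v 2, v 0, [v 1, v 2, v 2]⟩,
  ⟨624, v 2, v 2, v 1, v 0, [v 1, v 2, v 2]⟩,
  ⟨-1404, v 2, v 1, v 2, m (v 1) (v 0), [v 2, v 2]⟩,
  ⟨-3198, v 2, v 2, v 2, m (m (v 1) (v 0)) (v 1), [v 2]⟩,
  ⟨-4014, v 2, v 2, v 2, m (m (v 1) (v 1)) (v 0), [v 2]⟩,
  ⟨-19440, v 2, v 0, v 1, m (v 2) (v 1), [v 2, v 2]⟩,
  ⟨-18168, v 2, v 2, v 1, m (m (v 2) (v 0)) (v 1), [v 2]⟩,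
  ⟨-6612, v 2, v 1, v 2, v 1, [v 0, v 2, v 2]⟩,
  ⟨-1392, v 2, v 1, m (v 2) (v 1), m (m (v 2) (v 0)) (v 2), []⟩,
  ⟨5484, v 2, v 2, v 1, m (m (v 1) (v 0)) (v 2), [v 2]⟩,
  ⟨3276, v 2, m (v 2) (v 1), m (v 2) (v 1), v 0, [v 2]⟩,
  ⟨1440, v 2, m (v 2) (v 1), m (m (v 2) (v 2)) (v 0), v 1, []⟩,
  ⟨540, v 2, v 2, v 2, v 0, [m (m (v 2) (v 1)) (v 1)]⟩,
  ⟨-5544, v 2, v 2, v 2, m (v 1) (v 0), [v 1, v 2]⟩,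
  ⟨12744, v 2, v 1, v 0, v 1, [v 2, v 2, v 2]⟩,
  ⟨7416, v 2, m (v 2) (v 2), v 0, v 1, [v 1, v 2]⟩,
  ⟨-7416, v 2, v 2, m (v 2) (v 1), v 0, [v 1, v 2]⟩,
  ⟨7440, v 2, v 2, v 0, v 1, [v 2, v 1, v 2]⟩,
  ⟨14796, v 2, v 2, v 1, m (m (v 2) (v 1)) (v 0), [v 2]⟩,
  ⟨-19824, v 2, v 2, m (v 2) (v 1), m (v 1) (v 0), [v 2]⟩,
  ⟨-2856, v 2, m (v 2) (v 2), v 1, v 0, [v 1, v 2]⟩,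
  ⟨-8052, v 2, v 2, v 1, v 1, [v 0, v 2, v 2]⟩,
  ⟨-3816, v 2, v 2, v 1, v 0, [v 2, v 1, v 2]⟩,
  ⟨2328, v 2, m (v 2) (v 1), v 0, m (v 2) (v 1), [v 2]⟩,
  ⟨-9240, v 2, v 2, m (v 1) (v 1), m (v 2) (v 0), [v 2]⟩,
  ⟨20988, v 2, v 2, m (m (v 1) (v 1)) (v 2), v 0, [v 2]⟩,
  ⟨-16260, v 2, v 2, v 1, v 1, [m (v 2) (v 0), v 2]⟩,
  ⟨6438, v 2, v 1, v 2, v 1, [m (v 2) (v 0), v 2]⟩,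
  ⟨-7098, v 2, v 1, v 2, v 1, [v 2, v 0, v 2]⟩,
  ⟨9300, v 2, v 2, v 2, m (v 1) (v 1), [v 0, v 2]⟩,
  ⟨2292, v 2, v 2, m (m (v 2) (v 1)) (v 1), v 0, [v 2]⟩,
  ⟨4632, v 2, v 1, v 2, m (v 2) (v 1), [v 0, v 2]⟩,
  ⟨6264, v 2, v 2, v 1, m (v 2) (v 1), [v 0, v 2]⟩,
  ⟨8868, v 2, v 2, v 0, m (m (v 1) (v 1)) (v 2), [v 2]⟩,
  ⟨-7440, v 2, v 2, v 1, v 1, [v 2, v 0, v 2]⟩,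
  ⟨7440, v 2, m (v 2) (v 2), v 1, v 1, [v 0, v 2]⟩,
  ⟨-12312, v 2, v 2, v 0, m (m (v 2) (v 1)) (v 1), [v 2]⟩,
  ⟨-4872, v 2, v 2, m (v 2) (v 0), v 1, [v 1, v 2]⟩,
  ⟨-1044, v 2, v 1, m (v 2) (v 1), m (m (v 2) (v 2)) (v 0), []⟩,
  ⟨144, v 2, v 2, v 2, v 0, [v 1, m (v 2) (v 1)]⟩,
  ⟨30108, v 2, v 2, m (m (v 1) (v 0)) (v 2), v 1, [v 2]⟩,
  ⟨-6852, v 2, v 2, m (v 1) (v 0), m (v 2) (v 1), [v 2]⟩,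
  ⟨-10368, v 2, v 2, m (v 2) (v 0), m (v 1) (v 1), [v 2]⟩,
  ⟨-6012, v 2, v 1, v 2, v 0, [m (v 2) (v 1), v 2]⟩,
  ⟨-5856, v 2, v 2, m (m (v 2) (v 0)) (v 1), v 1, [v 2]⟩,
  ⟨3996, v 2, v 1, v 2, m (v 2) (v 0), [v 1, v 2]⟩,
  ⟨5556, v 2, v 2, v 1, m (v 2) (v 0), [v 1, v 2]⟩,
  ⟨-4332, v 2, m (v 2) (v 1), v 1, v 0, [v 2, v 2]⟩,
  ⟨-1440, v 2, v 2, m (m (v 2) (v 1)) (v 0), v 1, [v 2]⟩,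
  ⟨-3168, v 2, v 1, v 0, m (v 2) (v 2), [v 1, v 2]⟩,
  ⟨7728, v 2, v 2, v 2, v 0, [v 1, v 1, v 2]⟩,
  ⟨17160, v 2, m (v 2) (v 2), v 1, m (v 1) (v 0), [v 2]⟩,
  ⟨-5232, v 2, m (v 2) (v 2), m (v 1) (v 0), v 1, [v 2]⟩,
  ⟨11148, v 2, m (v 2) (v 2), m (v 1) (v 1), v 0, [v 2]⟩,
  ⟨840, v 2, m (v 2) (v 2), v 0, m (v 1) (v 1), [v 2]⟩,
  ⟨-13092, v 2, v 2, v 0, m (v 1) (v 1), [v 2, v 2]⟩,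
  ⟨-10392, v 2, v 1, v 1, m (m (v 2) (v 2)) (v 0), [v 2]⟩,
  ⟨-7632, v 2, v 1, m (v 2) (v 1), m (v 2) (v 0), [v 2]⟩,
  ⟨8340, v 2, v 2, v 0, v 1, [m (v 2) (v 1), v 2]⟩,
  ⟨-7068, v 2, v 1, v 2, v 0, [v 2, v 1, v 2]⟩,
  ⟨5700, v 2, v 1, m (m (v 2) (v 1)) (v 2), v 0, [v 2]⟩,
  ⟨-1044, v 2, m (v 2) (v 1), m (v 2) (v 0), v 1, [v 2]⟩,
  ⟨13704, v 2, v 1, m (m (v 2) (v 2)) (v 1), v 0, [v 2]⟩,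
  ⟨13800, v 2, v 2, v 2, v 1, [m (v 1) (v 0), v 2]⟩,
  ⟨12744, v 2, v 1, v 0, m (m (v 2) (v 2)) (v 1), [v 2]⟩,
  ⟨7440, v 2, v 2, v 2, v 1, [v 1, v 0, v 2]⟩,
  ⟨-13560, v 2, v 1, m (v 2) (v 0), m (v 2) (v 1), [v 2]⟩,
  ⟨-1344, v 2, v 1, v 0, m (m (v 2) (v 1)) (v 2), [v 2]⟩,
  ⟨-1416, v 2, v 1, m (m (v 2) (v 2)) (v 0), v 1, [v 2]⟩,
  ⟨-8064, v 2, v 2, v 0, v 1, [v 1, v 2, v 2]⟩,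
  ⟨60, v 2, v 2, v 2, v 0, [m (v 1) (v 1), v 2]⟩,
  ⟨-840, v 2, v 2, v 1, m (m (m (v 2) (v 1)) (v 0)) (v 2), []⟩,
  ⟨-6324, v 2, m (v 2) (v 1), m (v 2) (v 1), m (v 2) (v 0), []⟩,
  ⟨13116, v 2, m (v 2) (v 1), v 1, m (v 2) (v 0), [v 2]⟩,
  ⟨10104, v 2, v 1, m (m (v 2) (v 0)) (v 2), v 1, [v 2]⟩,
  ⟨-6276, v 2, m (m (v 2) (v 2)) (v 1), v 1, v 0, [v 2]⟩,
  ⟨-6276, v 2, v 2, v 1, v 0, [m (v 2) (v 1), v 2]⟩,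
  ⟨-2616, v 2, v 2, v 2, m (v 2) (v 0), [v 1, v 1]⟩,
  ⟨-120, v 2, v 2, v 0, m (v 2) (v 2), [v 1, v 1]⟩,
  ⟨-120, v 2, m (v 2) (v 2), v 2, v 0, [v 1, v 1]⟩,
  ⟨-120, v 2, v 2, v 2, v 0, [v 2, v 1, v 1]⟩,
  ⟨2736, v 2, v 2, v 2, v 0, [m (v 2) (v 1), v 1]⟩,
  ⟨312, v 2, v 2, v 2, v 1, [m (v 2) (v 0), v 1]⟩,
  ⟨-2232, v 2, v 2, m (m (v 2) (v 2)) (v 0), v 1, [v 1]⟩,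
  ⟨-1572, v 2, v 2, v 1, m (v 2) (v 0), [v 2, v 1]⟩,
  ⟨3672, v 2, v 2, m (m (v 2) (v 0)) (v 2), v 1, [v 1]⟩,
  ⟨-3912, v 2, m (v 2) (v 2), v 1, v 0, [v 2, v 1]⟩,
  ⟨-4776, v 2, v 1, v 2, v 0, [v 2, v 2, v 1]⟩,
  ⟨6408, v 2, v 2, m (m (v 2) (v 1)) (v 2), v 0, [v 1]⟩,
  ⟨-4896, v 2, v 2, v 0, m (v 2) (v 1), [v 2, v 1]⟩,
  ⟨-858, v 2, m (v 2) (v 2), v 2, v 1, [v 0, v 1]⟩,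
  ⟨978, v 2, v 2, v 2, m (v 2) (v 1), [v 0, v 1]⟩,
  ⟨2694, v 2, v 2, v 1, m (v 2) (v 2), [v 0, v 1]⟩,
  ⟨858, v 2, v 2, v 2, v 1, [v 2, v 0, v 1]⟩,
  ⟨-1686, v 2, m (v 2) (v 2), v 2, m (v 1) (v 0), [v 1]⟩,
  ⟨750, v 2, v 2, v 2, m (v 1) (v 0), [v 2, v 1]⟩,
  ⟨3672, v 2, m (v 2) (v 2), m (v 2) (v 1), v 0, [v 1]⟩,
  ⟨-282, v 2, v 2, v 2, m (m (v 1) (v 0)) (v 2), [v 1]⟩,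
  ⟨-72, v 2, m (v 2) (v 2), v 0, v 1, [v 2, v 1]⟩,
  ⟨-1008, v 2, v 2, v 2, v 0, [v 1, v 2, v 1]⟩,
  ⟨-5160, v 2, v 2, m (v 2) (v 1), m (v 2) (v 0), [v 1]⟩,
  ⟨-7344, v 2, v 2, m (v 2) (v 0), m (v 2) (v 1), [v 1]⟩,
  ⟨-1686, v 2, v 2, m (v 1) (v 0), m (v 2) (v 2), [v 1]⟩,
  ⟨-1992, v 2, v 2, v 1, v 0, [m (v 2) (v 2), v 1]⟩,
  ⟨1992, v 2, v 2, v 0, v 1, [m (v 2) (v 2), v 1]⟩,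
  ⟨5544, m (v 2) (v 2), m (v 2) (v 2), v 0, v 1, [v 1]⟩,
  ⟨1992, m (v 2) (v 2), m (v 2) (v 2), v 1, v 0, [v 1]⟩,
  ⟨-1992, v 2, v 1, v 2, v 0, [m (v 2) (v 2), v 1]⟩,
  ⟨1440, v 2, m (v 2) (v 2), m (v 2) (v 0), v 1, [v 1]⟩,
  ⟨-3552, v 2, m (m (v 2) (v 2)) (v 2), v 1, v 0, [v 1]⟩,
  ⟨3552, v 2, v 2, v 0, m (m (v 2) (v 2)) (v 1), [v 1]⟩,
  ⟨-2052, m (v 2) (v 2), m (v 2) (v 2), v 1, v 1, [v 0]⟩,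
  ⟨-2196, v 2, v 2, m (m (v 2) (v 2)) (v 1), v 1, [v 0]⟩,
  ⟨2196, v 2, m (v 2) (v 2), v 1, v 1, [v 2, v 0]⟩,
  ⟨3321, v 2, v 2, v 2, m (m (v 1) (v 1)) (v 2), [v 0]⟩,
  ⟨-144, v 2, v 2, v 1, m (v 2) (v 1), [v 2, v 0]⟩,
  ⟨-3708, v 2, v 2, v 2, m (m (v 2) (v 1)) (v 1), [v 0]⟩,
  ⟨-1368, v 2, v 2, m (v 2) (v 1), v 1, [v 2, v 0]⟩,
  ⟨1368, v 2, v 2, m (v 2) (v 1), m (v 2) (v 1), [v 0]⟩,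
  ⟨1368, v 2, m (v 2) (v 1), m (v 2) (v 2), v 1, [v 0]⟩,
  ⟨-2484, v 2, v 2, v 2, v 1, [m (v 2) (v 1), v 0]⟩,
  ⟨2052, v 2, v 2, v 1, v 1, [m (v 2) (v 2), v 0]⟩,
  ⟨2484, v 2, v 1, m (v 2) (v 1), m (v 2) (v 2), [v 0]⟩,
  ⟨1026, v 2, v 1, v 2, v 1, [m (v 2) (v 2), v 0]⟩,
  ⟨72, v 2, v 2, v 2, m (v 2) (v 1), [v 1, v 0]⟩,
  ⟨2196, v 2, v 2, v 2, v 1, [v 1, v 2, v 0]⟩,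
  ⟨-72, v 2, m (v 2) (v 2), v 2, v 1, [v 1, v 0]⟩,
  ⟨-72, v 2, v 2, v 1, m (v 2) (v 2), [v 1, v 0]⟩,
  ⟨72, v 2, v 2, v 2, v 1, [v 2, v 1, v 0]⟩,
  ⟨-1368, v 2, v 2, m (m (v 2) (v 1)) (v 2), v 1, [v 0]⟩,
  ⟨-87, v 2, v 2, m (v 1) (v 1), m (v 2) (v 2), [v 0]⟩,
  ⟨270, v 2, v 1, v 2, v 1, [v 2, v 2, v 0]⟩,
  ⟨1224, v 2, v 1, v 2, m (v 2) (v 1), [v 2, v 0]⟩,
  ⟨-2715, v 2, m (v 2) (v 2), v 2, m (v 1) (v 1), [v 0]⟩,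
  ⟨-2715, v 2, v 2, v 2, m (v 1) (v 1), [v 2, v 0]⟩,
  ⟨-3708, v 2, v 2, m (m (v 2) (v 2)) (v 1), v 0, [v 1]⟩,
  ⟨-1152, v 2, v 2, v 2, v 1, [v 0, v 2, v 1]⟩,
  ⟨6288, v 2, m (v 2) (v 2), v 0, m (v 2) (v 1), [v 1]⟩,
  ⟨1224, v 2, v 2, m (v 2) (v 0), v 1, [v 2, v 1]⟩,
  ⟨936, v 2, m (v 2) (v 2), v 1, m (v 2) (v 0), [v 1]⟩,
  ⟨1368, v 2, v 1, v 2, v 0, [v 2, m (v 2) (v 1)]⟩,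
  ⟨1044, v 2, v 2, v 1, m (v 2) (v 0), [m (v 2) (v 1)]⟩,
  ⟨3012, v 2, v 2, m (v 2) (v 0), v 1, [m (v 2) (v 1)]⟩,
  ⟨144, v 2, m (v 2) (v 2), v 0, v 1, [m (v 2) (v 1)]⟩,
  ⟨5472, v 2, v 2, m (v 2) (v 1), v 0, [m (v 2) (v 1)]⟩,
  ⟨-3252, v 2, v 2, v 1, m (m (m (v 2) (v 0)) (v 2)) (v 1), []⟩,
  ⟨1608, v 2, v 2, v 1, m (m (m (v 1) (v 0)) (v 2)) (v 2), []⟩,
  ⟨2880, v 2, v 2, v 1, v 0, [v 2, v 2, v 1]⟩,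
  ⟨-2376, v 2, v 2, m (v 2) (v 1), v 0, [v 2, v 1]⟩,
  ⟨84, v 2, v 2, v 1, m (m (m (v 2) (v 0)) (v 1)) (v 2), []⟩,
  ⟨-2112, v 2, v 2, v 1, m (m (v 2) (v 2)) (m (v 1) (v 0)), []⟩,
  ⟨-192, v 2, v 2, v 0, v 1, [v 2, v 2, v 1]⟩,
  ⟨-648, v 2, v 2, m (v 2) (v 1), m (m (v 1) (v 0)) (v 2), []⟩,
  ⟨-5028, v 2, v 1, v 2, v 0, [m (m (v 2) (v 1)) (v 2)]⟩,
  ⟨5028, v 2, v 2, v 0, v 1, [m (m (v 2) (v 1)) (v 2)]⟩,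
  ⟨3528, v 2, v 2, m (v 2) (v 1), m (m (v 2) (v 0)) (v 1), []⟩,
  ⟨-3960, v 2, v 2, m (v 2) (v 1), m (m (v 2) (v 1)) (v 0), []⟩,
  ⟨72, v 2, v 2, m (m (v 2) (v 1)) (v 2), m (v 1) (v 0), []⟩,
  ⟨-876, v 2, m (v 2) (v 2), v 2, v 1, [m (v 1) (v 0)]⟩,
  ⟨-1236, v 2, v 2, v 2, m (v 2) (v 1), [m (v 1) (v 0)]⟩,
  ⟨2640, v 2, v 2, v 1, m (v 2) (v 2), [m (v 1) (v 0)]⟩,
  ⟨876, v 2, v 2, v 2, v 1, [v 2, m (v 1) (v 0)]⟩,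
  ⟨-1680, v 2, v 2, m (m (v 2) (v 2)) (v 1), m (v 1) (v 0), []⟩,
  ⟨1332, v 2, v 2, v 2, v 1, [m (m (v 1) (v 0)) (v 2)]⟩,
  ⟨1560, v 2, v 2, m (v 1) (v 1), m (m (v 2) (v 0)) (v 2), []⟩,
  ⟨-504, v 2, v 2, m (v 1) (v 1), m (m (v 2) (v 2)) (v 0), []⟩,
  ⟨936, v 2, v 2, v 2, m (v 2) (v 0), [m (v 1) (v 1)]⟩,
  ⟨312, v 2, v 2, v 0, m (v 2) (v 2), [m (v 1) (v 1)]⟩,
  ⟨312, v 2, m (v 2) (v 2), v 2, v 0, [m (v 1) (v 1)]⟩,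
  ⟨312, v 2, v 2, v 2, v 0, [v 2, m (v 1) (v 1)]⟩,
  ⟨852, v 2, v 2, v 2, v 0, [m (m (v 1) (v 1)) (v 2)]⟩,
  ⟨-1008, v 2, v 2, m (m (v 1) (v 1)) (v 2), m (v 2) (v 0), []⟩,
  ⟨-264, v 2, v 2, v 1, v 1, [m (m (v 2) (v 0)) (v 2)]⟩,
  ⟨-2454, v 2, v 1, v 2, v 1, [m (m (v 2) (v 0)) (v 2)]⟩,
  ⟨-2196, v 2, v 2, m (v 2) (v 1), v 1, [m (v 2) (v 0)]⟩,
  ⟨-1164, v 2, v 2, v 2, m (v 1) (v 1), [m (v 2) (v 0)]⟩,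
  ⟨-4068, v 2, v 2, m (m (v 2) (v 1)) (v 1), m (v 2) (v 0), []⟩,
  ⟨-4608, v 2, v 1, v 2, m (v 2) (v 1), [m (v 2) (v 0)]⟩,
  ⟨-3600, v 2, v 2, v 1, m (v 2) (v 1), [m (v 2) (v 0)]⟩,
  ⟨-2208, v 2, v 2, m (m (m (v 1) (v 1)) (v 2)) (v 2), v 0, []⟩,
  ⟨1164, v 2, v 2, v 1, v 1, [v 2, m (v 2) (v 0)]⟩,
  ⟨-1164, v 2, m (v 2) (v 2), v 1, v 1, [m (v 2) (v 0)]⟩,
  ⟨-936, v 2, v 2, m (m (m (v 2) (v 1)) (v 1)) (v 2), v 0, []⟩,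
  ⟨-2592, v 2, v 2, m (m (v 2) (v 2)) (m (v 1) (v 1)), v 0, []⟩,
  ⟨-738, v 2, v 1, v 2, v 1, [m (m (v 2) (v 2)) (v 0)]⟩,
  ⟨1788, v 2, v 1, v 2, v 1, [v 2, m (v 2) (v 0)]⟩,
  ⟨2358, v 2, v 2, v 0, m (m (v 2) (v 2)) (m (v 1) (v 1)), []⟩,
  ⟨-552, v 2, v 0, v 1, v 1, [v 2, m (v 2) (v 2)]⟩,
  ⟨312, v 2, v 2, v 2, m (m (m (v 2) (v 0)) (v 1)) (v 1), []⟩,
  ⟨3036, v 2, v 1, v 0, v 1, [v 2, m (v 2) (v 2)]⟩,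
  ⟨-780, v 2, v 1, v 0, v 1, [m (v 2) (v 2), v 2]⟩,
  ⟨-936, v 2, v 2, v 2, m (m (m (v 1) (v 0)) (v 2)) (v 1), []⟩,
  ⟨-780, v 2, v 2, v 2, m (m (v 2) (v 0)) (m (v 1) (v 1)), []⟩,
  ⟨-3822, v 2, v 2, m (m (v 1) (v 0)) (v 1), m (v 2) (v 2), []⟩,
  ⟨-624, v 2, v 1, v 2, m (m (v 1) (v 0)) (v 2), [v 2]⟩,
  ⟨-780, v 2, v 1, m (v 1) (v 0), m (v 2) (v 2), [v 2]⟩,
  ⟨2100, v 2, v 2, v 1, m (v 1) (v 0), [m (v 2) (v 2)]⟩,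
  ⟨-3444, m (v 2) (v 2), m (v 2) (v 2), m (v 1) (v 0), v 1, []⟩,
  ⟨-2100, m (v 2) (v 2), m (v 2) (v 2), v 1, m (v 1) (v 0), []⟩,
  ⟨2100, v 2, v 1, v 2, m (v 1) (v 0), [m (v 2) (v 2)]⟩,
  ⟨-2172, v 2, v 2, m (v 1) (v 0), v 1, [m (v 2) (v 2)]⟩,
  ⟨-306, v 2, v 2, v 2, m (m (m (v 1) (v 0)) (v 1)) (v 2), []⟩,
  ⟨-3876, v 2, v 2, m (v 2) (v 0), m (m (v 1) (v 1)) (v 2), []⟩,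
  ⟨-456, v 2, v 2, m (v 2) (v 0), m (m (v 2) (v 1)) (v 1), []⟩,
  ⟨-864, v 2, v 2, m (m (v 2) (v 0)) (v 2), m (v 1) (v 1), []⟩,
  ⟨1356, v 2, v 2, m (m (v 2) (v 2)) (v 0), m (v 1) (v 1), []⟩,
  ⟨-288, v 2, v 2, m (v 1) (v 0), m (m (v 2) (v 1)) (v 2), []⟩,
  ⟨-2544, v 2, v 2, m (v 1) (v 0), m (m (v 2) (v 2)) (v 1), []⟩,
  ⟨-1296, v 2, v 2, m (m (v 1) (v 0)) (v 2), m (v 2) (v 1), []⟩,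
  ⟨1668, v 2, v 2, m (m (v 2) (v 0)) (v 1), m (v 2) (v 1), []⟩,
  ⟨2436, v 2, v 1, v 2, m (v 2) (v 0), [m (v 2) (v 1)]⟩,
  ⟨288, v 2, v 2, m (m (v 2) (v 1)) (v 0), m (v 2) (v 1), []⟩,
  ⟨-3912, v 2, v 2, m (m (v 2) (v 2)) (m (v 1) (v 0)), v 1, []⟩,
  ⟨-3234, v 2, v 2, m (m (v 1) (v 1)) (v 0), m (v 2) (v 2), []⟩,
  ⟨-3108, v 2, v 1, v 1, v 0, [v 2, m (v 2) (v 2)]⟩,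
  ⟨-2868, v 2, v 2, v 0, m (v 1) (v 1), [m (v 2) (v 2)]⟩,
  ⟨2868, m (v 2) (v 2), m (v 2) (v 2), v 0, m (v 1) (v 1), []⟩,
  ⟨-732, m (v 2) (v 2), m (v 2) (v 2), m (v 1) (v 1), v 0, []⟩,
  ⟨-2868, v 2, m (v 1) (v 1), v 2, v 0, [m (v 2) (v 2)]⟩,
  ⟨2868, v 2, v 2, m (v 1) (v 1), v 0, [m (v 2) (v 2)]⟩,
  ⟨780, v 2, v 1, v 1, v 0, [m (v 2) (v 2), v 2]⟩,
  ⟨-606, v 2, v 2, v 2, m (m (m (v 1) (v 1)) (v 0)) (v 2), []⟩,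
  ⟨2268, v 2, m (v 2) (v 2), v 1, m (m (v 1) (v 0)) (v 2), []⟩,
  ⟨-3822, v 2, m (v 2) (v 2), v 2, m (m (v 1) (v 0)) (v 1), []⟩,
  ⟨-3684, v 2, v 2, m (m (m (v 1) (v 0)) (v 2)) (v 2), v 1, []⟩,
  ⟨-3234, v 2, m (v 2) (v 2), v 2, m (m (v 1) (v 1)) (v 0), []⟩,
  ⟨780, v 2, v 1, v 2, m (m (v 2) (v 1)) (v 0), [v 2]⟩,
  ⟨-4104, v 2, m (v 2) (v 2), v 1, m (m (v 2) (v 0)) (v 1), []⟩,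
  ⟨468, v 2, v 1, v 2, m (m (v 2) (v 0)) (v 1), [v 2]⟩,
  ⟨-384, v 2, m (v 2) (v 2), m (v 1) (v 1), m (v 2) (v 0), []⟩,
  ⟨-780, v 2, m (v 1) (v 1), v 2, v 0, [v 2, v 2]⟩,
  ⟨1548, v 2, v 1, v 2, m (v 2) (v 0), [v 2, v 1]⟩,
  ⟨-1548, v 2, v 2, v 2, m (m (v 2) (v 0)) (v 1), [v 1]⟩,
  ⟨7536, v 2, v 2, m (m (m (v 2) (v 2)) (v 0)) (v 1), v 1, []⟩,
  ⟨4896, v 2, m (v 2) (v 1), m (v 2) (v 0), m (v 2) (v 1), []⟩,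
  ⟨708, v 2, v 2, m (m (m (v 2) (v 0)) (v 1)) (v 2), v 1, []⟩,
  ⟨2112, v 2, v 2, m (m (m (v 2) (v 0)) (v 2)) (v 1), v 1, []⟩,
  ⟨2112, v 2, v 1, v 2, m (m (v 2) (v 0)) (v 2), [v 1]⟩,
  ⟨2112, v 2, v 2, v 1, m (m (v 2) (v 0)) (v 2), [v 1]⟩,
  ⟨-2820, v 2, v 2, m (m (m (v 2) (v 1)) (v 0)) (v 2), v 1, []⟩,
  ⟨3408, v 2, m (v 2) (v 2), m (m (v 1) (v 1)) (v 2), v 0, []⟩,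
  ⟨2052, v 2, m (v 2) (v 2), v 1, m (m (v 2) (v 1)) (v 0), []⟩,
  ⟨-2340, v 2, m (v 2) (v 2), m (m (v 2) (v 1)) (v 1), v 0, []⟩,
  ⟨1404, v 2, m (v 2) (v 2), m (v 2) (v 1), m (v 1) (v 0), []⟩,
  ⟨540, v 2, m (v 2) (v 2), v 0, m (m (v 2) (v 1)) (v 1), []⟩,
  ⟨-1776, v 2, m (v 2) (v 2), v 0, m (m (v 1) (v 1)) (v 2), []⟩,
  ⟨-1860, v 2, m (v 2) (v 2), m (m (v 2) (v 0)) (v 1), v 1, []⟩,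
  ⟨2184, v 2, m (v 2) (v 2), m (v 1) (v 0), m (v 2) (v 1), []⟩,
  ⟨-1332, v 2, v 2, v 2, m (v 1) (v 0), [m (v 2) (v 1)]⟩,
  ⟨3096, v 2, m (v 2) (v 2), m (v 2) (v 0), m (v 1) (v 1), []⟩,
  ⟨-2868, v 2, m (v 2) (v 2), m (m (v 1) (v 0)) (v 2), v 1, []⟩,
  ⟨1728, v 2, m (v 2) (v 2), m (m (v 2) (v 1)) (v 0), v 1, []⟩,
  ⟨1728, v 2, v 1, v 0, m (v 2) (v 2), [v 2, v 1]⟩,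
  ⟨1728, v 2, v 2, v 2, m (m (v 2) (v 1)) (v 0), [v 1]⟩,
  ⟨-3516, v 2, m (m (v 2) (v 2)) (v 2), v 1, m (v 1) (v 0), []⟩,
  ⟨5616, v 2, v 1, v 2, m (m (m (v 2) (v 0)) (v 2)) (v 1), []⟩,
  ⟨-2136, v 2, v 1, v 2, v 1, [v 0, m (v 2) (v 2)]⟩,
  ⟨-2376, m (v 2) (v 2), m (v 2) (v 1), m (v 2) (v 1), v 0, []⟩,
  ⟨-4272, v 2, v 0, v 1, m (v 2) (v 1), [m (v 2) (v 2)]⟩,
  ⟨-900, v 2, v 2, v 1, v 0, [v 2, m (v 2) (v 1)]⟩,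
  ⟨-6840, v 2, v 2, v 0, v 1, [v 2, m (v 2) (v 1)]⟩,
  ⟨-900, v 2, m (v 2) (v 2), v 1, v 0, [m (v 2) (v 1)]⟩,
  ⟨-900, v 2, v 1, v 0, m (v 2) (v 2), [m (v 2) (v 1)]⟩,
  ⟨5616, v 2, v 1, v 2, v 0, [v 1, m (v 2) (v 2)]⟩,
  ⟨-4272, v 2, v 1, m (v 2) (v 1), v 0, [m (v 2) (v 2)]⟩,
  ⟨-4152, v 2, v 1, v 2, m (m (m (v 2) (v 0)) (v 1)) (v 2), []⟩,
  ⟨2808, v 2, m (v 2) (v 1), v 0, v 1, [m (v 2) (v 2)]⟩,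
  ⟨2808, v 2, v 1, v 0, m (v 2) (v 1), [m (v 2) (v 2)]⟩,
  ⟨-5616, m (v 2) (v 2), m (v 2) (v 1), v 0, m (v 2) (v 1), []⟩,
  ⟨-2628, v 2, m (m (v 2) (v 2)) (v 2), m (v 1) (v 1), v 0, []⟩,
  ⟨1464, v 2, v 1, v 2, m (m (m (v 2) (v 2)) (v 0)) (v 1), []⟩,
  ⟨1464, v 2, v 2, v 0, v 1, [v 1, m (v 2) (v 2)]⟩,
  ⟨-1464, v 2, v 1, v 2, m (m (m (v 2) (v 1)) (v 0)) (v 2), []⟩,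
  ⟨-1464, v 2, m (v 2) (v 1), v 1, v 0, [m (v 2) (v 2)]⟩,
  ⟨-1464, v 2, v 1, v 2, m (m (m (v 1) (v 0)) (v 2)) (v 2), []⟩,
  ⟨2256, v 2, v 1, v 1, m (m (v 2) (v 2)) (m (v 2) (v 0)), []⟩,
  ⟨-1380, v 2, v 1, m (m (v 2) (v 1)) (v 2), m (v 2) (v 0), []⟩,
  ⟨-4764, v 2, v 1, m (m (v 2) (v 2)) (v 1), m (v 2) (v 0), []⟩,
  ⟨-3792, v 2, v 2, v 2, v 1, [m (m (v 2) (v 0)) (v 1)]⟩,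
  ⟨-288, v 2, v 1, m (m (m (v 2) (v 1)) (v 2)) (v 2), v 0, []⟩,
  ⟨972, v 2, v 1, m (m (m (v 2) (v 2)) (v 1)) (v 2), v 0, []⟩,
  ⟨2124, v 2, v 1, m (m (v 2) (v 2)) (m (v 2) (v 1)), v 0, []⟩,
  ⟨-2124, v 2, v 2, m (v 2) (v 1), v 1, [v 0, v 2]⟩,
  ⟨-2052, v 2, v 1, v 0, m (m (m (v 2) (v 2)) (v 1)) (v 2), []⟩,
  ⟨3816, v 2, v 2, v 0, m (m (m (v 2) (v 1)) (v 1)) (v 2), []⟩,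
  ⟨-2052, v 2, v 2, v 0, m (m (m (v 1) (v 1)) (v 2)) (v 2), []⟩,
  ⟨2052, v 2, v 2, v 1, v 1, [v 2, v 2, v 0]⟩,
  ⟨-2052, v 2, v 2, v 1, m (m (v 2) (v 2)) (v 1), [v 0]⟩,
  ⟨288, v 2, v 1, v 0, m (m (m (v 2) (v 1)) (v 2)) (v 2), []⟩,
  ⟨288, v 2, v 2, v 1, m (m (v 2) (v 1)) (v 2), [v 0]⟩,
  ⟨2052, v 2, v 2, v 2, v 1, [m (m (v 2) (v 1)) (v 0)]⟩,
  ⟨-1164, v 2, v 2, v 2, v 1, [v 1, m (v 2) (v 0)]⟩,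
  ⟨-1560, v 2, v 1, m (m (m (v 2) (v 0)) (v 2)) (v 2), v 1, []⟩,
  ⟨2196, v 2, v 1, v 0, m (m (v 2) (v 2)) (m (v 2) (v 1)), []⟩,
  ⟨1296, v 2, v 1, m (v 2) (v 0), m (m (v 2) (v 1)) (v 2), []⟩,
  ⟨-888, v 2, v 1, m (v 2) (v 0), m (m (v 2) (v 2)) (v 1), []⟩,
  ⟨888, v 2, v 2, v 0, v 1, [m (m (v 2) (v 2)) (v 1)]⟩,
  ⟨-888, v 2, v 1, v 2, v 0, [m (m (v 2) (v 2)) (v 1)]⟩,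
  ⟨-888, v 2, v 2, v 1, m (m (m (v 2) (v 2)) (v 0)) (v 1), []⟩,
  ⟨5004, v 2, v 1, m (m (v 2) (v 0)) (v 2), m (v 2) (v 1), []⟩,
  ⟨1476, v 2, v 1, m (m (v 2) (v 2)) (v 0), m (v 2) (v 1), []⟩,
  ⟨-2184, v 2, m (v 2) (v 1), v 1, m (m (v 2) (v 0)) (v 2), []⟩,
  ⟨504, v 2, v 1, m (m (m (v 2) (v 2)) (v 0)) (v 2), v 1, []⟩]

def pol_id_Z3 : Pol := (Pol.add (Pol.add (Pol.add (Pol.add (Pol.add (Pol.add (Pol.smul (5) (Pol.Z (Pol.var 0) (Pol.mul (Pol.var 1) (Pol.var 2)) (Pol.var 3) (Pol.var 4) (Pol.var 5) (Pol.var 6))) (Pol.smul (3) (Pol.sub (Pol.mul (Pol.Z (Pol.var 0) (Pol.var 2) (Pol.var 3) (Pol.var 4) (Pol.var 5) (Pol.var 6)) (Pol.var 1)) (Pol.Z (Pol.mul (Pol.var 0) (Pol.var 1)) (Pol.var 2) (Pol.var 3) (Pol.var 4) (Pol.var 5) (Pol.var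 6))))) (Pol.smul (3) (Pol.smul (-1) (Pol.sub (Pol.mul (Pol.Z (Pol.var 0) (Pol.var 1) (Pol.var 3) (Pol.var 4) (Pol.var 5) (Pol.var 6)) (Pol.var 2)) (Pol.Z (Pol.mul (Pol.var 0) (Pol.var 2)) (Pol.var 1) (Pol.var 3) (Pol.var 4) (Pol.var 5) (Pol.var 6)))))) (Pol.smul (-2) (Pol.sub (Pol.mul (Pol.Z (Pol.var 0) (Pol.var 1) (Pol.var 2) (Pol.var 4) (Pol.var 5) (Pol.var 6)) (Pol.var 3)) (Pol.Z (Pol.mul (Pol.var 0) (Pol.var 3)) (Pol.var 1) (Pol.var 2) (Pol.var 4) (Pol.var 5) (Pol.var 6))))) (Pol.smul (-2) (Pol.smul (-1) (Pol.sub (Pol.mul (Pol.Z (Pol.var 0) (Pol.var 1) (Pol.var 2) (Pol.var 3) (Pol.var 5) (Pol.var 6)) (Pol.var 4)) (Pol.Z (Pol.mul (Pol.var 0) (Pol.var 4)) (Pol.var 1) (Pol.var 2) (Pol.var 3) (Pol.var 5) (Pol.var 6))))))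 (Pol.smul (-2) (Pol.sub (Pol.mul (Pol.Z (Pol.var 0) (Pol.var 1) (Pol.var 2) (Pol.var 3) (Pol.var 4) (Pol.var 6)) (Pol.var 5)) (Pol.Z (Pol.mul (Pol.var 0) (Pol.var 5)) (Pol.var 1) (Pol.var 2) (Pol.var 3) (Pol.var 4) (Pol.var 6))))) (Pol.smul (-2) (Pol.smul (-1) (Pol.sub (Pol.mul (Pol.Z (Pol.var 0) (Pol.var 1) (Pol.var 2) (Pol.var 3) (Pol.var 4) (Pol.var 5)) (Pol.var 6)) (Pol.Z (Pol.mul (Pol.var 0) (Pol.var 6)) (Pol.var 1) (Pol.var 2) (Pol.var 3) (Pol.var 4) (Pol.var 5))))))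

def g_id_Z3 : ℕ → ℕ := fun i => [0, 1, 1, 2, 2, 2, 2].getD i 2
def p_id_Z3 : ℕ → Bool := fun i => [false, true, true].getD i false

theorem ok_id_Z3 : check g_id_Z3 p_id_Z3 pol_id_Z3 (13) cert_id_Z3 = true := by decide +kernel

/-- Z3 -/
theorem id_Z3 (m x1 x2 x3 x4 x5 x6 : A) :
    (5 : ℤ) • (Z m (x1 * x2) x3 x4 x5 x6) + ((3 : ℤ) • ((Z m x2 x3 x4 x5 x6) * x1 - (Z (m * x1) x2 x3 x4 x5 x6))) + ((3 : ℤ) • ((-1 : ℤ) • ((Z m x1 x3 x4 x5 x6) * x2 - (Z (m * x2) x1 x3 x4 x5 x6)))) + ((-2 : ℤ) • ((Z m x1 x2 x4 x5 x6) * x3 - (Z (m * x3) x1 x2 x4 x5 x6))) + ((-2 : ℤ) • ((-1 : ℤ) • ((Z m x1 x2 x3 x5 x6) * x4 - (Z (m * x4) x1 x2 x3 x5 x6)))) + ((-2 : ℤ) • ((Z m x1 x2 x3 x4 x6) * x5 - (Z (m * x5) x1 x2 x3 x4 x6))) + ((-2 : ℤ) • ((-1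 : ℤ) • ((Z m x1 x2 x3 x4 x5) * x6 - (Z (m * x6) x1 x2 x3 x4 x5)))) = 0 := by
  have h := engine 7 g_id_Z3 p_id_Z3 pol_id_Z3 (13) cert_id_Z3 (by decide +kernel) (by decide) ok_id_Z3
    (by decide +kernel) (fun i => [m, x1, x2, x3, x4, x5, x6].getD i 0) ?_ ?_
  · simp only [pol_id_Z3, evP_var, evP_smul, evP_mul, evP_add, evP_sub, evP_J, evP_t, evP_e, evP_om, evP_X, evP_l, evP_Th, evP_Z] at h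
    exact h
  · intro i hi j hj hg hp
    interval_cases i <;> interval_cases j <;> first | rfl | (exfalso; revert hg hp; decide)
  · intro b i hi hg hp
    have hi' : i < 6 := by omega
    clear hi
    interval_cases i
    · exfalso; revert hg hp; decide
    · simp only [pol_id_Z3, evP_var, evP_smul, evP_mul, evP_add, evP_sub, evP_J, evP_t, evP_e, evP_om, evP_X, evP_l, evP_Th, evP_Z]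
      show (5 : ℤ) • (Z (b 0) ((b 2) * (b 1)) (b 3) (b 4) (b 5) (b 6)) + ((3 : ℤ) • ((Z (b 0) (b 1) (b 3) (b 4) (b 5) (b 6)) * (b 2) - (Z ((b 0) * (b 2)) (b 1) (b 3) (b 4) (b 5) (b 6)))) + ((3 : ℤ) • ((-1 : ℤ) • ((Z (b 0) (b 2) (b 3) (b 4) (b 5) (b 6)) * (b 1) - (Z ((b 0) * (b 1)) (b 2) (b 3) (b 4) (b 5) (b 6))))) + ((-2 : ℤ) • ((Z (b 0) (b 2) (b 1) (b 4) (b 5) (b 6)) * (b 3) - (Z ((b 0) * (b 3)) (b 2) (b 1) (b 4) (b 5) (b 6)))) + ((-2 : ℤ) • ((-1 : ℤ) • ((Z (b 0) (b 2) (b 1) (b 3) (b 5) (b 6)) * (b 4) - (Z ((b 0) * (b 4)) (b 2) (b 1) (b 3) (b 5) (b 6))))) + ((-2 : ℤ) • ((Z (b 0) (b 2) (b 1) (b 3) (b 4) (b 6)) * (b 5) - (Z ((b 0) * (b 5)) (b 2) (b 1) (b 3) (b 4) (b 6)))) + ((-2 : ℤ) • ((-1 : ℤ) • ((Z (b 0) (b 2) (b 1) (b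 3) (b 4) (b 5)) * (b 6) - (Z ((b 0) * (b 6)) (b 2) (b 1) (b 3) (b 4) (b 5))))) = - ((5 : ℤ) • (Z (b 0) ((b 1) * (b 2)) (b 3) (b 4) (b 5) (b 6)) + ((3 : ℤ) • ((Z (b 0) (b 2) (b 3) (b 4) (b 5) (b 6)) * (b 1) - (Z ((b 0) * (b 1)) (b 2) (b 3) (b 4) (b 5) (b 6)))) + ((3 : ℤ) • ((-1 : ℤ) • ((Z (b 0) (b 1) (b 3) (b 4) (b 5) (b 6)) * (b 2) - (Z ((b 0) * (b 2)) (b 1) (b 3) (b 4) (b 5) (b 6))))) + ((-2 : ℤ) • ((Z (b 0) (b 1) (b 2) (b 4) (b 5) (b 6)) * (b 3) - (Z ((b 0) * (b 3)) (b 1) (b 2) (b 4) (b 5) (b 6)))) + ((-2 : ℤ) • ((-1 : ℤ) • ((Z (b 0) (b 1) (b 2) (b 3) (b 5) (b 6)) * (b 4) - (Z ((b 0) * (b 4)) (b 1) (b 2) (b 3) (b 5) (b 6))))) + ((-2 : ℤ) • ((Z (b 0) (b 1) (b 2) (b 3) (b 4) (b 6)) * (b 5) - (Z ((b 0) * (b 5)) (b 1) (b 2)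 (b 3) (b 4) (b 6)))) + ((-2 : ℤ) • ((-1 : ℤ) • ((Z (b 0) (b 1) (b 2) (b 3) (b 4) (b 5)) * (b 6) - (Z ((b 0) * (b 6)) (b 1) (b 2) (b 3) (b 4) (b 5))))))
      rw [anti (b 2) (b 1), Z_swap23 (b 0) (b 1) (b 2) (b 4) (b 5) (b 6), Z_swap23 ((b 0) * (b 3)) (b 1) (b 2) (b 4) (b 5) (b 6), Z_swap23 (b 0) (b 1) (b 2) (b 3) (b 5) (b 6), Z_swap23 ((b 0) * (b 4)) (b 1) (b 2) (b 3) (b 5) (b 6), Z_swap23 (b 0) (b 1) (b 2) (b 3) (b 4) (b 6), Z_swap23 ((b 0) * (b 5)) (b 1) (b 2) (b 3) (b 4) (b 6), Z_swap23 (b 0) (b 1) (b 2) (b 3) (b 4) (b 5), Z_swap23 ((b 0) * (b 6)) (b 1) (b 2) (b 3) (b 4) (b 5)]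
      simp only [Z_neg1, Z_neg2, mul_neg, neg_mul, smul_neg, smul_sub, neg_sub, neg_neg]
      abel
    · exfalso; revert hg hp; decide
    · simp only [pol_id_Z3, evP_var, evP_smul, evP_mul, evP_add, evP_sub, evP_J, evP_t, evP_e, evP_om, evP_X, evP_l, evP_Th, evP_Z]
      show (5 : ℤ) • (Z (b 0) ((b 1) * (b 2)) (b 4) (b 3) (b 5) (b 6)) + ((3 : ℤ) • ((Z (b 0) (b 2) (b 4) (b 3) (b 5) (b 6)) * (b 1) - (Z ((b 0) * (b 1)) (b 2) (b 4) (b 3) (b 5) (b 6)))) + ((3 : ℤ) • ((-1 : ℤ) • ((Z (b 0) (b 1) (b 4) (b 3) (b 5) (b 6)) * (b 2) - (Z ((b 0) * (b 2)) (b 1) (b 4) (b 3) (b 5) (b 6))))) + ((-2 : ℤ) • ((Z (b 0) (b 1) (b 2) (b 3) (b 5) (b 6)) * (b 4) - (Z ((b 0) * (b 4)) (b 1) (b 2) (b 3) (b 5) (b 6)))) + ((-2 : ℤ) • ((-1 : ℤ) • ((Z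 (b 0) (b 1) (b 2) (b 4) (b 5) (b 6)) * (b 3) - (Z ((b 0) * (b 3)) (b 1) (b 2) (b 4) (b 5) (b 6))))) + ((-2 : ℤ) • ((Z (b 0) (b 1) (b 2) (b 4) (b 3) (b 6)) * (b 5) - (Z ((b 0) * (b 5)) (b 1) (b 2) (b 4) (b 3) (b 6)))) + ((-2 : ℤ) • ((-1 : ℤ) • ((Z (b 0) (b 1) (b 2) (b 4) (b 3) (b 5)) * (b 6) - (Z ((b 0) * (b 6)) (b 1) (b 2) (b 4) (b 3) (b 5))))) = - ((5 : ℤ) • (Z (b 0) ((b 1) * (b 2)) (b 3) (b 4) (b 5) (b 6)) + ((3 : ℤ) • ((Z (b 0) (b 2) (b 3) (b 4) (b 5) (b 6)) * (b 1) - (Z ((b 0) * (b 1)) (b 2) (b 3) (b 4) (b 5) (b 6)))) + ((3 : ℤ) • ((-1 : ℤ) • ((Z (b 0) (b 1) (b 3) (b 4) (b 5) (b 6)) * (b 2) - (Z ((b 0) * (b 2)) (b 1) (b 3) (b 4) (b 5) (b 6))))) + ((-2 : ℤ) • ((Z (b 0) (b 1) (b 2) (b 4) (b 5) (b 6)) * (b 3) - (Z ((b 0)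 * (b 3)) (b 1) (b 2) (b 4) (b 5) (b 6)))) + ((-2 : ℤ) • ((-1 : ℤ) • ((Z (b 0) (b 1) (b 2) (b 3) (b 5) (b 6)) * (b 4) - (Z ((b 0) * (b 4)) (b 1) (b 2) (b 3) (b 5) (b 6))))) + ((-2 : ℤ) • ((Z (b 0) (b 1) (b 2) (b 3) (b 4) (b 6)) * (b 5) - (Z ((b 0) * (b 5)) (b 1) (b 2) (b 3) (b 4) (b 6)))) + ((-2 : ℤ) • ((-1 : ℤ) • ((Z (b 0) (b 1) (b 2) (b 3) (b 4) (b 5)) * (b 6) - (Z ((b 0) * (b 6)) (b 1) (b 2) (b 3) (b 4) (b 5))))))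
      rw [Z_swap34 (b 0) ((b 1) * (b 2)) (b 3) (b 4) (b 5) (b 6), Z_swap34 (b 0) (b 2) (b 3) (b 4) (b 5) (b 6), Z_swap34 ((b 0) * (b 1)) (b 2) (b 3) (b 4) (b 5) (b 6), Z_swap34 (b 0) (b 1) (b 3) (b 4) (b 5) (b 6), Z_swap34 ((b 0) * (b 2)) (b 1) (b 3) (b 4) (b 5) (b 6), Z_swap45 (b 0) (b 1) (b 2) (b 3) (b 4) (b 6), Z_swap45 ((b 0) * (b 5)) (b 1) (b 2) (b 3) (b 4) (b 6), Z_swap45 (b 0) (b 1) (b 2) (b 3) (b 4) (b 5), Z_swap45 ((b 0) * (b 6)) (b 1) (b 2) (b 3) (b 4) (b 5)]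
      simp only [Z_neg1, Z_neg2, mul_neg, neg_mul, smul_neg, smul_sub, neg_sub, neg_neg]
      abel
    · simp only [pol_id_Z3, evP_var, evP_smul, evP_mul, evP_add, evP_sub, evP_J, evP_t, evP_e, evP_om, evP_X, evP_l, evP_Th, evP_Z]
      show (5 : ℤ) • (Z (b 0) ((b 1) * (b 2)) (b 3) (b 5) (b 4) (b 6)) + ((3 : ℤ) • ((Z (b 0) (b 2) (b 3) (b 5) (b 4) (b 6)) * (b 1) - (Z ((b 0) * (b 1)) (b 2) (b 3) (b 5) (b 4) (b 6)))) + ((3 : ℤ) • ((-1 : ℤ) • ((Z (b 0) (b 1) (b 3) (b 5) (b 4) (b 6)) * (b 2) - (Z ((b 0) * (b 2)) (b 1) (b 3) (b 5) (b 4) (b 6))))) + ((-2 : ℤ) • ((Z (b 0) (b 1) (b 2) (b 5) (b 4) (b 6)) * (b 3) - (Z ((b 0) * (b 3)) (b 1) (b 2) (b 5) (b 4) (b 6)))) + ((-2 : ℤ) • ((-1 : ℤ) • ((Z (b 0) (b 1) (b 2) (b 3) (b 4) (b 6))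 * (b 5) - (Z ((b 0) * (b 5)) (b 1) (b 2) (b 3) (b 4) (b 6))))) + ((-2 : ℤ) • ((Z (b 0) (b 1) (b 2) (b 3) (b 5) (b 6)) * (b 4) - (Z ((b 0) * (b 4)) (b 1) (b 2) (b 3) (b 5) (b 6)))) + ((-2 : ℤ) • ((-1 : ℤ) • ((Z (b 0) (b 1) (b 2) (b 3) (b 5) (b 4)) * (b 6) - (Z ((b 0) * (b 6)) (b 1) (b 2) (b 3) (b 5) (b 4))))) = - ((5 : ℤ) • (Z (b 0) ((b 1) * (b 2)) (b 3) (b 4) (b 5) (b 6)) + ((3 : ℤ) • ((Z (b 0) (b 2) (b 3) (b 4) (b 5) (b 6)) * (b 1) - (Z ((b 0) * (b 1)) (b 2) (b 3) (b 4) (b 5) (b 6)))) + ((3 : ℤ) • ((-1 : ℤ) • ((Z (b 0) (b 1) (b 3) (b 4) (b 5) (b 6)) * (b 2) - (Z ((b 0) * (b 2)) (b 1) (b 3) (b 4) (b 5) (b 6))))) + ((-2 : ℤ) • ((Z (b 0) (b 1) (b 2) (b 4) (b 5) (b 6)) * (b 3) - (Z ((b 0) * (b 3)) (b 1) (b 2) (b 4) (b 5) (b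 6)))) + ((-2 : ℤ) • ((-1 : ℤ) • ((Z (b 0) (b 1) (b 2) (b 3) (b 5) (b 6)) * (b 4) - (Z ((b 0) * (b 4)) (b 1) (b 2) (b 3) (b 5) (b 6))))) + ((-2 : ℤ) • ((Z (b 0) (b 1) (b 2) (b 3) (b 4) (b 6)) * (b 5) - (Z ((b 0) * (b 5)) (b 1) (b 2) (b 3) (b 4) (b 6)))) + ((-2 : ℤ) • ((-1 : ℤ) • ((Z (b 0) (b 1) (b 2) (b 3) (b 4) (b 5)) * (b 6) - (Z ((b 0) * (b 6)) (b 1) (b 2) (b 3) (b 4) (b 5))))))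
      rw [Z_swap45 (b 0) ((b 1) * (b 2)) (b 3) (b 4) (b 5) (b 6), Z_swap45 (b 0) (b 2) (b 3) (b 4) (b 5) (b 6), Z_swap45 ((b 0) * (b 1)) (b 2) (b 3) (b 4) (b 5) (b 6), Z_swap45 (b 0) (b 1) (b 3) (b 4) (b 5) (b 6), Z_swap45 ((b 0) * (b 2)) (b 1) (b 3) (b 4) (b 5) (b 6), Z_swap45 (b 0) (b 1) (b 2) (b 4) (b 5) (b 6), Z_swap45 ((b 0) * (b 3)) (b 1) (b 2) (b 4) (b 5) (b 6), Z_swap56 (b 0) (b 1) (b 2) (b 3) (b 4) (b 5), Z_swap56 ((b 0) * (b 6)) (b 1) (b 2) (b 3) (b 4) (b 5)]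
      simp only [Z_neg1, Z_neg2, mul_neg, neg_mul, smul_neg, smul_sub, neg_sub, neg_neg]
      abel
    · simp only [pol_id_Z3, evP_var, evP_smul, evP_mul, evP_add, evP_sub, evP_J, evP_t, evP_e, evP_om, evP_X, evP_l, evP_Th, evP_Z]
      show (5 : ℤ) • (Z (b 0) ((b 1) * (b 2)) (b 3) (b 4) (b 6) (b 5)) + ((3 : ℤ) • ((Z (b 0) (b 2) (b 3) (b 4) (b 6) (b 5)) * (b 1) - (Z ((b 0) * (b 1)) (b 2) (b 3) (b 4) (b 6) (b 5)))) + ((3 : ℤ) • ((-1 : ℤ) • ((Z (b 0) (b 1) (b 3) (b 4) (b 6) (b 5)) * (b 2) - (Z ((b 0) * (b 2)) (b 1) (b 3) (b 4) (b 6) (b 5))))) + ((-2 : ℤ) • ((Z (b 0) (b 1) (b 2) (b 4) (b 6) (b 5)) * (b 3) - (Z ((b 0) * (b 3)) (b 1) (b 2) (b 4) (b 6) (b 5)))) + ((-2 : ℤ) • ((-1 : ℤ) • ((Z (b 0) (b 1) (b 2) (b 3) (b 6) (b 5))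 * (b 4) - (Z ((b 0) * (b 4)) (b 1) (b 2) (b 3) (b 6) (b 5))))) + ((-2 : ℤ) • ((Z (b 0) (b 1) (b 2) (b 3) (b 4) (b 5)) * (b 6) - (Z ((b 0) * (b 6)) (b 1) (b 2) (b 3) (b 4) (b 5)))) + ((-2 : ℤ) • ((-1 : ℤ) • ((Z (b 0) (b 1) (b 2) (b 3) (b 4) (b 6)) * (b 5) - (Z ((b 0) * (b 5)) (b 1) (b 2) (b 3) (b 4) (b 6))))) = - ((5 : ℤ) • (Z (b 0) ((b 1) * (b 2)) (b 3) (b 4) (b 5) (b 6)) + ((3 : ℤ) • ((Z (b 0) (b 2) (b 3) (b 4) (b 5) (b 6)) * (b 1) - (Z ((b 0) * (b 1)) (b 2) (b 3) (b 4) (b 5) (b 6)))) + ((3 : ℤ) • ((-1 : ℤ) • ((Z (b 0) (b 1) (b 3) (b 4) (b 5) (b 6)) * (b 2) - (Z ((b 0) * (b 2)) (b 1) (b 3) (b 4) (b 5) (b 6))))) + ((-2 : ℤ) • ((Z (b 0) (b 1) (b 2) (b 4) (b 5) (b 6)) * (b 3) - (Z ((b 0) * (b 3)) (b 1) (b 2) (b 4) (b 5) (b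 6)))) + ((-2 : ℤ) • ((-1 : ℤ) • ((Z (b 0) (b 1) (b 2) (b 3) (b 5) (b 6)) * (b 4) - (Z ((b 0) * (b 4)) (b 1) (b 2) (b 3) (b 5) (b 6))))) + ((-2 : ℤ) • ((Z (b 0) (b 1) (b 2) (b 3) (b 4) (b 6)) * (b 5) - (Z ((b 0) * (b 5)) (b 1) (b 2) (b 3) (b 4) (b 6)))) + ((-2 : ℤ) • ((-1 : ℤ) • ((Z (b 0) (b 1) (b 2) (b 3) (b 4) (b 5)) * (b 6) - (Z ((b 0) * (b 6)) (b 1) (b 2) (b 3) (b 4) (b 5))))))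
      rw [Z_swap56 (b 0) ((b 1) * (b 2)) (b 3) (b 4) (b 5) (b 6), Z_swap56 (b 0) (b 2) (b 3) (b 4) (b 5) (b 6), Z_swap56 ((b 0) * (b 1)) (b 2) (b 3) (b 4) (b 5) (b 6), Z_swap56 (b 0) (b 1) (b 3) (b 4) (b 5) (b 6), Z_swap56 ((b 0) * (b 2)) (b 1) (b 3) (b 4) (b 5) (b 6), Z_swap56 (b 0) (b 1) (b 2) (b 4) (b 5) (b 6), Z_swap56 ((b 0) * (b 3)) (b 1) (b 2) (b 4) (b 5) (b 6), Z_swap56 (b 0) (b 1) (b 2) (b 3) (b 5) (b 6), Z_swap56 ((b 0) * (b 4)) (b 1) (b 2) (b 3) (b 5) (b 6)]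
      simp only [Z_neg1, Z_neg2, mul_neg, neg_mul, smul_neg, smul_sub, neg_sub, neg_neg]
      abel

end Pool.Agent.MalF
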