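import Pool.Agent.MalF.FEnd
import Pool.Agent.MalF.FrC2

/-!
# Multilinear identities of `A ^ n` are J-forms
-/

set_option autoImplicit false

namespace Pool.Agent.MalF

universe u v

section

variable {F X A : Type*} [Field F] [NonUnitalNonAssocRing A] [Module F A]

theorem evJ_append (x : X → A) (f g : JForm F X) : evJ x (f ++ g) = evJ x f + evJ x g := by
  unfold evJ
  rw [List.map_append, List.sum_append]

theorem evJ_smul (x : X → A) (c : F) (f : JForm F X) :
    evJ x (f.map fun q => (c * q.1, q.2)) = c • evJ x f := by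
  induction f with
  | nil => simp [evJ]
  | cons q f ih =>
    rw [List.map_cons, evJ_cons, evJ_cons, ih, smul_add, smul_smul]

/-- Elements of the J-span are values of J-forms. -/
theorem exists_jform {m : ℕ} (x : Fin m → A) {y : A} (hy : y ∈ JS F x (List.finRange m)) :
    ∃ f : JForm F (Fin m), JMulti f ∧ y = evJ x f := by
  refine Submodule.span_induction (p := fun y _ => ∃ f : JForm F (Fin m), JMulti f ∧ y = evJ x f)
    ?_ ?_ ?_ ?_ hy
  · rintro y ⟨p, q, r, h, rfl⟩
    refine ⟨[(1, p, q, r)], ?_, ?_⟩
    · intro q' hq'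
      rw [List.mem_singleton] at hq'
      subst hq'
      exact h
    · rw [evJ_cons, one_smul]
      simp [evJ]
  · exact ⟨[], fun q hq => absurd hq (by simp), by simp [evJ]⟩
  · rintro a b _ _ ⟨f, hf, rfl⟩ ⟨g, hg, rfl⟩
    refine ⟨f ++ g, ?_, (evJ_append x f g).symm⟩
    intro q hq
    rw [List.mem_append] at hq
    rcases hq with hq | hq
    · exact hf q hq
    · exact hg q hq
  · rintro c a _ ⟨f, hf, rfl⟩
    refine ⟨f.map fun q => (c * q.1, q.2), ?_, (evJ_smul x c f).symm⟩
    intro q hq
    rw [List.mem_map] at hq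
    obtain ⟨q', hq', rfl⟩ := hq
    exact hf q' hq'

theorem lnorm_hom {B : Type*} [NonUnitalNonAssocRing B] [Module F B] (φ : A →ₙₐ[F] B) (x : X → A)
    (a : X) (w : List X) : φ (lnorm x a w) = lnorm (fun i => φ (x i)) a w := by
  induction w using List.reverseRecOn with
  | nil => rfl
  | append_singleton w b ih =>
    unfold lnorm at ih ⊢
    rw [List.map_append, List.foldl_append, List.map_append, List.foldl_append]
    change φ (_ * x b) = _ * φ (x b)
    rw [map_mul, ih]

theorem evJ_com {R : Type*} [Ring R] [Algebra F R] (x : X → Com R) (f : JForm F X) :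
    evJ x f = 0 := by
  induction f with
  | nil => simp [evJ]
  | cons q f ih => rw [evJ_cons, J_com, smul_zero, ih, add_zero]

end

/-- J-REDUCTION.  A multilinear identity of some power `A ^ n` of the free Malcev algebra of countable
rank is a linear combination of `J(p,q,r)` in every Malcev algebra. -/
theorem jred {F : Type u} [Field F] [CharZero F] {m n : ℕ} (hn : 1 ≤ n)
    (g : FreeNonUnitalNonAssocAlgebra F (Fin m))
    (hg : g ∈ MultLin F m) (h : Holds (pw F (FreeMalcev F ℕ) n) g) :
    ∃ f : JForm F (Fin m), JMulti f ∧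
      ∀ b : Fin m → FreeMalcev F ℕ, FreeNonUnitalNonAssocAlgebra.lift F b g = evJ b f := by
  classical
  suffices H : ∃ f : JForm F (Fin m), JMulti f ∧
      FreeMalcev.mk F g = evJ (fun i : Fin m => FreeMalcev.of F i) f by
    obtain ⟨f, hf, hgf⟩ := H
    refine ⟨f, hf, fun b => ?_⟩
    rw [← FreeMalcev.lift_mk, hgf, ← evJ_hom]
    simp only [FreeMalcev.lift_of]
  have tfY : TF (FreeMalcev F (Fin m)) := tf_of_field F _
  rcases m with _ | k
  · refine ⟨[], fun q hq => absurd hq (by simp), ?_⟩
    have h0 : g = 0 := by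
      have : MultLin F 0 = ⊥ := by
        unfold MultLin
        rw [Submodule.span_eq_bot]
        rintro p ⟨w, _, _⟩
        have : ∀ w : FreeMagma (Fin 0), False := by
          intro w
          induction w with
          | ih1 a => exact a.elim0
          | ih2 _ _ h _ => exact h
        exact (this w).elim
      rw [this] at hg
      exact (Submodule.mem_bot F).mp hg
    rw [h0, map_zero]
    simp [evJ]
  · set x0 : Fin (k + 1) → FreeMalcev F (Fin (k + 1)) := fun i => FreeMalcev.of F i with hx0
    obtain ⟨L, hL⟩ : ∃ L, List.finRange (k + 1) = 0 :: L := ⟨_, List.finRange_succ⟩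
    have hnd : (0 :: L).Nodup := by rw [← hL]; exact List.nodup_finRange _
    -- membership
    have hmem : FreeMalcev.mk F g ∈ LN F x0 0 L ⊔ JS F x0 (0 :: L) := by
      refine Submodule.span_induction
        (p := fun g _ => FreeMalcev.mk F g ∈ LN F x0 0 L ⊔ JS F x0 (0 :: L)) ?_ ?_ ?_ ?_ hg
      · rintro p ⟨w, hw, rfl⟩
        rw [FreeMalcev.mk_eq_lift, lift_wd]
        have h1 := (leaves_eq_univ w).mp hw
        rw [hL] at h1
        exact tree_mem x0 w 0 L h1
      · rw [map_zero]; exact Submodule.zero_mem _
      · intro a b _ _ ha hb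
        rw [map_add]; exact Submodule.add_mem _ ha hb
      · intro c a _ ha
        rw [map_smul]; exact Submodule.smul_mem _ _ ha
    rw [Submodule.mem_sup] at hmem
    obtain ⟨u, hu, v, hv, huv⟩ := hmem
    rw [← hL] at hv
    obtain ⟨f, hf, hvf⟩ := exists_jform x0 hv
    refine ⟨f, hf, ?_⟩
    -- the combination of left-normed words
    have hu' : ∃ c : {w : List (Fin (k + 1)) // w.Perm L} →₀ F,
        (c.sum fun w a => a • lnorm x0 0 w.1) = u := by
      have hS : LN F x0 0 L = Submodule.span F (Set.range
          fun w : {w : List (Fin (k + 1)) // w.Perm L} => lnorm x0 0 w.1) := by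
        unfold LN
        congr 1
        ext y
        constructor
        · rintro ⟨w, hw, rfl⟩; exact ⟨⟨w, hw⟩, rfl⟩
        · rintro ⟨w, rfl⟩; exact ⟨w.1, w.2, rfl⟩
      rw [hS] at hu
      exact Finsupp.mem_span_range_iff_exists_finsupp.mp hu
    obtain ⟨c, hc⟩ := hu'
    have hc0 : c = 0 := by
      ext w0
      change c w0 = 0
      have hnd0 : (0 :: w0.1).Nodup := ((w0.2.cons 0).nodup_iff).mpr hnd
      obtain ⟨x, hx1, hx2, hx3⟩ := exists_eval (F := F) 0 w0.1 hnd0
      obtain ⟨φ, hφ⟩ := exists_hom (F := F)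
      choose p q hpq hxpq using hx1
      choose a ha hφa using fun i => hφ n hn (p i) (q i) (hpq i)
      have h1 := h a ha
      have h2 := lift_comp φ a g
      rw [h1, map_zero] at h2
      have h3 : (fun i => φ (a i)) = x := by
        funext i
        rw [hφa, hxpq]
      rw [h3] at h2
      let ψ : FreeMalcev F (Fin (k + 1)) →ₙₐ[F] Gl F := FreeMalcev.lift x
      have h4 : ψ (FreeMalcev.mk F g) = 0 := h2.symm
      have hψ : (fun i => ψ (x0 i)) = x := by
        funext i
        exact FreeMalcev.lift_of x i
      rw [← huv, map_add, hvf, ← evJ_hom, evJ_com] at h4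
      replace h4 : ψ u = 0 := (add_zero (ψ u)).symm.trans h4
      rw [← hc, Finsupp.sum, map_sum] at h4
      simp only [map_smul, lnorm_hom, hψ] at h4
      rw [Finset.sum_eq_single w0] at h4
      · rcases smul_eq_zero.mp h4 with h5 | h5
        · exact h5
        · exact absurd h5 hx2
      · intro w _ hw
        rw [hx3 w.1 (w.2.trans w0.2.symm) (fun h' => hw (Subtype.ext h')), smul_zero]
      · intro h5
        rw [Finsupp.notMem_support_iff.mp h5, zero_smul]
    rw [← huv, hvf, ← hc, hc0, Finsupp.sum_zero_index, zero_add]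

end Pool.Agent.MalF
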