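import Pool.Agent.MalF.Pola

/-!
# `Z(m; ab, cd, x, y, z) = 0` (module L3)
-/

namespace Pool.Agent.MalF

section
variable {A : Type*} [NonUnitalNonAssocRing A] [IsMalcev A] [TF A]

private theorem L3_neg_self {a : A} (h : a = -a) : a = 0 := by
  apply TF.tf (2 : ℤ) a (by decide)
  rw [two_zsmul]
  nth_rewrite 1 [h]
  exact neg_add_cancel a

/-- `Z` vanishes if two neighbouring arguments coincide (`Z_swap..`, `TF`). -/
theorem Z_self23 (m x x3 x4 x5 : A) : Z m x x x3 x4 x5 = 0 :=
  L3_neg_self (Z_swap23 m x x x3 x4 x5)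

private theorem PS1 (m u x1 x2 x3 x4 x5 : A) : P m u x2 x1 x3 x4 x5 = - P m u x1 x2 x3 x4 x5 := by
  simp only [P]
  rw [Z_swap23 m x1 x2 x3 x4 x5, Z_swap23 (m * u) x1 x2 x3 x4 x5]
  simp only [neg_mul]
  abel

private theorem PS2 (m u x1 x2 x3 x4 x5 : A) : P m u x1 x3 x2 x4 x5 = - P m u x1 x2 x3 x4 x5 := by
  simp only [P]
  rw [Z_swap34 m x1 x2 x3 x4 x5, Z_swap34 (m * u) x1 x2 x3 x4 x5]
  simp only [neg_mul]
  abel

private theorem PS3 (m u x1 x2 x3 x4 x5 : A) : P m u x1 x2 x4 x3 x5 = - P m u x1 x2 x3 x4 x5 := by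
  simp only [P]
  rw [Z_swap45 m x1 x2 x3 x4 x5, Z_swap45 (m * u) x1 x2 x3 x4 x5]
  simp only [neg_mul]
  abel

private theorem PS4 (m u x1 x2 x3 x4 x5 : A) : P m u x1 x2 x3 x5 x4 = - P m u x1 x2 x3 x4 x5 := by
  simp only [P]
  rw [Z_swap56 m x1 x2 x3 x4 x5, Z_swap56 (m * u) x1 x2 x3 x4 x5]
  simp only [neg_mul]
  abel

private theorem QS1 (m u v x1 x2 x3 x4 x5 : A) : Q m u v x2 x1 x3 x4 x5 = - Q m u v x1 x2 x3 x4 x5 := by
  simp only [Q]
  rw [PS1 m u x1 x2 x3 x4 x5, PS1 (m * v) u x1 x2 x3 x4 x5]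
  simp only [neg_mul]
  abel

private theorem QS2 (m u v x1 x2 x3 x4 x5 : A) : Q m u v x1 x3 x2 x4 x5 = - Q m u v x1 x2 x3 x4 x5 := by
  simp only [Q]
  rw [PS2 m u x1 x2 x3 x4 x5, PS2 (m * v) u x1 x2 x3 x4 x5]
  simp only [neg_mul]
  abel

private theorem QS3 (m u v x1 x2 x3 x4 x5 : A) : Q m u v x1 x2 x4 x3 x5 = - Q m u v x1 x2 x3 x4 x5 := by
  simp only [Q]
  rw [PS3 m u x1 x2 x3 x4 x5, PS3 (m * v) u x1 x2 x3 x4 x5]
  simp only [neg_mul]
  abel

private theorem QS4 (m u v x1 x2 x3 x4 x5 : A) : Q m u v x1 x2 x3 x5 x4 = - Q m u v x1 x2 x3 x4 x5 := by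
  simp only [Q]
  rw [PS4 m u x1 x2 x3 x4 x5, PS4 (m * v) u x1 x2 x3 x4 x5]
  simp only [neg_mul]
  abel

private theorem QZ (m u v x x3 x4 x5 : A) : Q m u v x x x3 x4 x5 = 0 :=
  L3_neg_self (QS1 m u v x x x3 x4 x5)

private theorem Z3Q (m w x1 x2 x3 x4 x5 x6 : A) :
    (5 : ℤ) • P m w (x1 * x2) x3 x4 x5 x6 =
      (-3 : ℤ) • Q m x1 w x2 x3 x4 x5 x6 + (3 : ℤ) • Q m x2 w x1 x3 x4 x5 x6
      + (2 : ℤ) • Q m x3 w x1 x2 x4 x5 x6 - (2 : ℤ) • Q m x4 w x1 x2 x3 x5 x6
      + (2 : ℤ) • Q m x5 w x1 x2 x3 x4 x6 - (2 : ℤ) • Q m x6 w x1 x2 x3 x4 x5 := by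
  have h1 : (5 : ℤ) • P m w (x1 * x2) x3 x4 x5 x6 =
      ((5 : ℤ) • Z m (x1 * x2) x3 x4 x5 x6) * w - (5 : ℤ) • Z (m * w) (x1 * x2) x3 x4 x5 x6 := by
    rw [smul_mul_assoc, ← smul_sub]
    rfl
  rw [h1, Z3P, Z3P]
  simp only [Q, add_mul, sub_mul, smul_mul_assoc, smul_sub]
  abel

private theorem L3_key (m a u v x y z : A) : (25 : ℤ) • Z m (a * u) (a * v) x y z =
      (-21 : ℤ) • Q m a u a v x y z + (-9 : ℤ) • Q m a v a u x y z
      + (4 : ℤ) • Q m a x a u v y z - (4 : ℤ) • Q m a y a u v x z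
      + (4 : ℤ) • Q m a z a u v x y := by
    have h0 : (25 : ℤ) • Z m (a * u) (a * v) x y z
        = (5 : ℤ) • ((5 : ℤ) • Z m (a * u) (a * v) x y z) := by
      rw [smul_smul]; rfl
    rw [h0, Z3P, P_mul]
    rw [PS1 m a (a * v) u x y z, PS1 m u (a * v) a x y z]
    rw [PS2 m x a (a * v) u y z, PS1 m x (a * v) a u y z]
    rw [PS2 m y a (a * v) u x z, PS1 m y (a * v) a u x z]
    rw [PS2 m z a (a * v) u x y, PS1 m z (a * v) a u x y]
    have h1 := Z3Q m a a v u x y z
    have h2 := Z3Q m u a v a x y z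
    have h3 := Z3Q m x a v a u y z
    have h4 := Z3Q m y a v a u x z
    have h5 := Z3Q m z a v a u x y
    -- normalisation
    have n1 : Q m a a v u x y z = 0 := Q_self m a v u x y z
    have n2 : Q m v a a u x y z = - Q m a v a u x y z := by
      rw [Q_swap m a v a u x y z]
    have n3 : Q m u a a v x y z = - Q m a u a v x y z := by
      rw [Q_swap m a u a v x y z]
    have n4 : Q m x a a v u y z = Q m a x a u v y z := by
      rw [Q_swap m a x a v u y z, QS2 m a x a u v y z]
      simp only [neg_neg]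
    have n5 : Q m y a a v u x z = Q m a y a u v x z := by
      rw [Q_swap m a y a v u x z, QS2 m a y a u v x z]
      simp only [neg_neg]
    have n6 : Q m z a a v u x y = Q m a z a u v x y := by
      rw [Q_swap m a z a v u x y, QS2 m a z a u v x y]
      simp only [neg_neg]
    rw [n1, n2, n3, n4, n5, n6] at h1
    have n7 : Q m a u v a x y z = - Q m a u a v x y z := by
      rw [QS1 m a u a v x y z]
    have n8 : Q m v u a a x y z = 0 := by
      rw [QZ]
    have n10 : Q m x u a v a y z = 0 := by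
      rw [QS2 m x u a a v y z, QZ]
      simp only [neg_zero]
    have n11 : Q m y u a v a x z = 0 := by
      rw [QS2 m y u a a v x z, QZ]
      simp only [neg_zero]
    have n12 : Q m z u a v a x y = 0 := by
      rw [QS2 m z u a a v x y, QZ]
      simp only [neg_zero]
    rw [n7, n8, n10, n11, n12] at h2
    have n13 : Q m a x v a u y z = Q m a x a u v y z := by
      rw [QS1 m a x a v u y z, QS2 m a x a u v y z]
      simp only [neg_neg]
    have n14 : Q m v x a a u y z = 0 := by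
      rw [QZ]
    have n15 : Q m a x a v u y z = - Q m a x a u v y z := by
      rw [QS2 m a x a u v y z]
    have n16 : Q m u x a v a y z = 0 := by
      rw [QS2 m u x a a v y z, QZ]
      simp only [neg_zero]
    have n17 : Q m y x a v a u z = 0 := by
      rw [QS2 m y x a a v u z, QZ]
      simp only [neg_zero]
    have n18 : Q m z x a v a u y = 0 := by
      rw [QS2 m z x a a v u y, QZ]
      simp only [neg_zero]
    rw [n13, n14, n15, n16, n17, n18] at h3
    have n19 : Q m a y v a u x z = Q m a y a u v x z := by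
      rw [QS1 m a y a v u x z, QS2 m a y a u v x z]
      simp only [neg_neg]
    have n20 : Q m v y a a u x z = 0 := by
      rw [QZ]
    have n21 : Q m a y a v u x z = - Q m a y a u v x z := by
      rw [QS2 m a y a u v x z]
    have n22 : Q m u y a v a x z = 0 := by
      rw [QS2 m u y a a v x z, QZ]
      simp only [neg_zero]
    have n23 : Q m x y a v a u z = 0 := by
      rw [QS2 m x y a a v u z, QZ]
      simp only [neg_zero]
    have n24 : Q m z y a v a u x = 0 := by
      rw [QS2 m z y a a v u x, QZ]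
      simp only [neg_zero]
    rw [n19, n20, n21, n22, n23, n24] at h4
    have n25 : Q m a z v a u x y = Q m a z a u v x y := by
      rw [QS1 m a z a v u x y, QS2 m a z a u v x y]
      simp only [neg_neg]
    have n26 : Q m v z a a u x y = 0 := by
      rw [QZ]
    have n27 : Q m a z a v u x y = - Q m a z a u v x y := by
      rw [QS2 m a z a u v x y]
    have n28 : Q m u z a v a x y = 0 := by
      rw [QS2 m u z a a v x y, QZ]
      simp only [neg_zero]
    have n29 : Q m x z a v a u y = 0 := by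
      rw [QS2 m x z a a v u y, QZ]
      simp only [neg_zero]
    have n30 : Q m y z a v a u x = 0 := by
      rw [QS2 m y z a a v u x, QZ]
      simp only [neg_zero]
    rw [n25, n26, n27, n28, n29, n30] at h5
    simp only [smul_neg, smul_zero, add_zero, sub_zero, zero_add, neg_neg, smul_add, smul_sub]
    rw [smul_comm (5 : ℤ) (-3 : ℤ), smul_comm (5 : ℤ) (3 : ℤ), smul_comm (5 : ℤ) (2 : ℤ),
      smul_comm (5 : ℤ) (2 : ℤ), smul_comm (5 : ℤ) (2 : ℤ), h1, h2, h3, h4, h5]
    simp only [smul_neg, smul_zero, add_zero, sub_zero, zero_add, neg_neg, smul_add, smul_sub]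
    abel

private theorem L3_alt (m a u v x y z : A) : Q m a v a u x y z = - Q m a u a v x y z := by
  have h1 := L3_key m a u v x y z
  have h2 := L3_key m a v u x y z
  have h3 : Z m (a * v) (a * u) x y z = - Z m (a * u) (a * v) x y z :=
    Z_swap23 m (a * u) (a * v) x y z
  have e1 : Q m a x a v u y z = - Q m a x a u v y z := QS2 m a x a u v y z
  have e2 : Q m a y a v u x z = - Q m a y a u v x z := QS2 m a y a u v x z
  have e3 : Q m a z a v u x y = - Q m a z a u v x y := QS2 m a z a u v x y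
  rw [h3, e1, e2, e3, smul_neg, h1] at h2
  have h4 : (30 : ℤ) • (Q m a v a u x y z + Q m a u a v x y z) = 0 := by
    rw [← sub_eq_zero] at h2
    rw [← h2]
    simp only [smul_neg, smul_add]
    abel
  have h5 := TF.tf (30 : ℤ) _ (by decide) h4
  exact eq_neg_of_add_eq_zero_left h5

/-- The case with a repeated letter. -/
theorem L3_rep (m a u v x y z : A) : Z m (a * u) (a * v) x y z = 0 := by
  have h := L3_key m a u v x y z
  have e0 : Q m a v a u x y z = - Q m a u a v x y z := L3_alt m a u v x y z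
  have e1 : Q m a x a u v y z = Q m a u a v x y z := by
    rw [L3_alt m a u x v y z, QS2 m a u a v x y z, neg_neg]
  have e2 : Q m a y a u v x z = - Q m a u a v x y z := by
    rw [L3_alt m a u y v x z, QS2 m a u a v y x z, neg_neg, QS3 m a u a v x y z]
  have e3 : Q m a z a u v x y = Q m a u a v x y z := by
    rw [L3_alt m a u z v x y, QS2 m a u a v z x y, neg_neg, QS3 m a u a v x z y,
      QS4 m a u a v x y z, neg_neg]
  rw [e0, e1, e2, e3] at h
  have h2 : (25 : ℤ) • Z m (a * u) (a * v) x y z = 0 := by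
    rw [h]
    simp only [smul_neg]
    abel
  exact TF.tf (25 : ℤ) _ (by decide) h2

/-- L3 for products. -/
theorem L3_mul (m a b c d x y z : A) : Z m (a * b) (c * d) x y z = 0 := by
  -- skew under `a ↔ c`
  have hac : ∀ a b c d : A, Z m (c * b) (a * d) x y z = - Z m (a * b) (c * d) x y z := by
    intro a b c d
    have h := L3_rep m (a + c) b d x y z
    rw [add_mul, add_mul, Z_add2, Z_add3, Z_add3, L3_rep, L3_rep, zero_add, add_zero] at h
    exact eq_neg_of_add_eq_zero_right h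
  have hab : ∀ a b c d : A, Z m (b * a) (c * d) x y z = - Z m (a * b) (c * d) x y z := by
    intro a b c d
    rw [anti b a, Z_neg2]
  have hcd : ∀ a b c d : A, Z m (a * b) (d * c) x y z = - Z m (a * b) (c * d) x y z := by
    intro a b c d
    rw [anti d c, Z_neg3]
  have hsw : Z m (c * d) (a * b) x y z = - Z m (a * b) (c * d) x y z :=
    Z_swap23 m (a * b) (c * d) x y z
  -- (a,b,c,d) -> (c,d,a,b) by exchanging a,c and then b,d
  have h1 : Z m (c * d) (a * b) x y z = Z m (a * b) (c * d) x y z := by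
    rw [hcd c d b a, hab d c b a, hac b c d a, hcd b c a d, hab c b a d, hac a b c d]
    simp only [neg_neg]
  rw [h1] at hsw
  exact L3_neg_self hsw

end

end Pool.Agent.MalF
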