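import Pool.Agent.MalF.XF

/-!
# The subspace `N1` (module N1, section 3)
-/

namespace Pool.Agent.MalF

/-- `N1 = {n : J(n, A², A²) = 0}`. -/
def IsN1 (F : Type*) {A : Type*} [Field F] [NonUnitalNonAssocRing A] [Module F A] (n : A) : Prop :=
  ∀ q ∈ Bs F A, ∀ r ∈ Bs F A, J n q r = 0

namespace N1aux

section
variable {A : Type*} [NonUnitalNonAssocRing A] [IsMalcev A] [TF A]

theorem tf_eq {x y : A} (k : ℤ) (hk : k ≠ 0) (h : k • x = k • y) : x = y := by
  have h1 : k • (x - y) = 0 := by rw [smul_sub, h, sub_self]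
  exact sub_eq_zero.1 (TF.tf k _ hk h1)

/-- the derivation `z ↦ J(z,u,v) + 2 z (uv)` -/
def dd (u v z : A) : A := J z u v + (2 : ℤ) • (z * (u * v))

omit [IsMalcev A] [TF A] in
theorem dd_add (u v z z' : A) : dd u v (z + z') = dd u v z + dd u v z' := by
  unfold dd
  rw [J_add1, add_mul, smul_add]
  abel

theorem dd_mul (u v a b : A) : dd u v (a * b) = dd u v a * b + a * dd u v b := by
  have h := id_S5 a b u v
  unfold dd
  rw [sub_sub, sub_eq_zero] at h
  exact h

theorem dd_J (u v x y z : A) :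
    dd u v (J x y z) = J (dd u v x) y z + J x (dd u v y) z + J x y (dd u v z) := by
  have h : J x y z = (x * y) * z + (y * z) * x + (z * x) * y := rfl
  rw [h, dd_add, dd_add]
  simp only [dd_mul, J, add_mul]
  abel

end

end N1aux

open N1aux

section
variable {F A : Type*} [Field F] [CharZero F] [NonUnitalNonAssocRing A] [Module F A]
  [IsScalarTower F A A] [SMulCommClass F A A] [IsMalcev A] [TF A]

/-- (b) `2 J(nr,x,q) = - J(n,x,r) q`.
`id_S4` with `(p,r,a,b) = (q,x,n,r)`; `J(q,n,r) = 0`, `J(qx,n,r) = 0`. -/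
theorem N1_b {n : A} (hn : IsN1 F n) {q r : A} (hq : q ∈ Bs F A) (hr : r ∈ Bs F A) (x : A) :
    (2 : ℤ) • J (n * r) x q = - (J n x r * q) := by
  have h := id_S4 q x n r
  have h1 : J q n r = 0 := by rw [J_swap12 n q r, hn q hq r hr, neg_zero]
  have h2 : J (q * x) n r = 0 := by
    rw [J_swap12 n (q * x) r, hn (q * x) (mul_mem_Bs q x) r hr, neg_zero]
  rw [h1, h2, J_swap12 n x r, J_swap13 (n * r) x q] at h
  simp only [zero_mul, neg_mul, smul_neg, sub_zero, add_zero] at h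
  rw [eq_neg_iff_add_eq_zero]
  have h3 : (2 : ℤ) • J (n * r) x q + J n x r * q =
      -(-((2 : ℤ) • J (n * r) x q) + -(J n x r * q)) := by abel
  rw [h3, h, neg_zero]

private theorem N1_E1 {n : A} (hn : IsN1 F n) {q r : A} (hq : q ∈ Bs F A) (hr : r ∈ Bs F A)
    (x : A) : J n x r * q + (2 : ℤ) • (J n x q * r) = (2 : ℤ) • (J x q r * n) := by
  have h := id_S2 n r x q
  have h1 : J q n r = 0 := by rw [J_swap12 n q r, hn q hq r hr, neg_zero]
  have h2 := N1_b hn hq hr x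
  rw [h1, J_cyc n x q, J_swap23 n x r, J_cyc r x q |>.symm] at h
  simp only [zero_mul, smul_zero, neg_mul, smul_neg, add_zero] at h
  linear_combination (norm := module) (2 : ℤ) • h - (3 : ℤ) • h2

/-- (c) `a(r) q = - a(q) r`, where `a(q) = J(n,x,q)`.
`id_S2` with `(w,x,y,z) = (n,r,x,q)`: `3 J(nr,x,q) = j n - a(q) r - 2 a(r) q`, `j = J(x,q,r)`; with (b):
`a(r) q + 2 a(q) r = 2 j n`; add the same with `q, r` exchanged. -/
theorem N1_c {n : A} (hn : IsN1 F n) {q r : A} (hq : q ∈ Bs F A) (hr : r ∈ Bs F A) (x : A) :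
    J n x r * q = - (J n x q * r) := by
  have h1 := N1_E1 hn hq hr x
  have h2 := N1_E1 hn hr hq x
  rw [J_swap23 x q r, neg_mul, smul_neg] at h2
  refine tf_eq 3 (by norm_num) ?_
  linear_combination (norm := module) h1 + h2

/-- (c') `a(q) r = 2 J(x,q,r) n`. -/
theorem N1_c' {n : A} (hn : IsN1 F n) {q r : A} (hq : q ∈ Bs F A) (hr : r ∈ Bs F A) (x : A) :
    J n x q * r = (2 : ℤ) • (J x q r * n) := by
  have h1 := N1_E1 hn hq hr x
  rw [N1_c hn hq hr x] at h1
  rw [← h1]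
  module

/-- (d) `a(q r) = - a(q) r`.  `id_S2` with `(w,x,y,z) = (q,r,n,x)` and (c), (c'). -/
theorem N1_d {n : A} (hn : IsN1 F n) {q r : A} (hq : q ∈ Bs F A) (hr : r ∈ Bs F A) (x : A) :
    J n x (q * r) = - (J n x q * r) := by
  have h := id_S2 q r n x
  have h1 : J q r n = 0 := by rw [J_cyc n q r, hn q hq r hr]
  have h2 := N1_c hn hq hr x
  have h3 := N1_c' hn hq hr x
  rw [h1, ← J_cyc r n x, ← J_cyc (q * r) n x, h2] at h
  simp only [zero_mul, smul_zero, sub_zero] at h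
  refine tf_eq 3 (by norm_num) ?_
  linear_combination (norm := module) h + h3

/-- (f) `2 J(nx,q,r) = - 3 J(n,x,qr)`.  `id_S2` with `(w,x,y,z) = (n,x,q,r)`:
`3 J(nx,q,r) = j n - 2 a(r) q + 2 a(q) r = 9 j n` and `a(qr) = - 2 j n`. -/
theorem N1_f {n : A} (hn : IsN1 F n) {q r : A} (hq : q ∈ Bs F A) (hr : r ∈ Bs F A) (x : A) :
    (2 : ℤ) • J (n * x) q r = (-3 : ℤ) • J n x (q * r) := by
  have h := id_S2 n x q r
  have h1 : J q r n = 0 := by rw [J_cyc n q r, hn q hq r hr]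
  have h2 := N1_c hn hq hr x
  have h3 := N1_c' hn hq hr x
  have h4 := N1_d hn hq hr x
  rw [h1, ← J_cyc r n x, h2] at h
  simp only [zero_mul, add_zero] at h
  rw [h4]
  refine tf_eq 3 (by norm_num) ?_
  linear_combination (norm := module) (2 : ℤ) • h - h3

/-- (g) `a((r s) q) = 0`.
`id_S5` twice: the derivation `D z = J(z,r,s) + 2 z (r s)` applied to `J(n,x,q)`:
`D J(n,x,q) = J(Dn,x,q) + J(n,Dx,q) + J(n,x,Dq)` (a derivation applied to `J`).  With
`β(q,r,s) = (a(q) r) s = a((q r) s)` (twice (d)): `β(q,r,s) = - β(r,q,s)`, `a(q) (r s) = β(r,s,q)`.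
Left side: `J(a(q),r,s) + 2 a(q)(rs) = β(q,r,s) + β(r,s,q) + β(s,q,r)`.
`Dn = 2 n (rs)`, `J(Dn,x,q) = - a(rs) q = β(r,s,q)` by (b); `J(n,Dx,q) = 0` as `Dx ∈ A²`;
`J(n,x,Dq) = a(J(q,r,s)) + 2 a(q (rs)) = β(q,r,s) + β(r,s,q) + β(s,q,r) - 2 β(r,s,q)`.
So `β(r,s,q) = 0`. -/
theorem N1_g {n : A} (hn : IsN1 F n) {q r s : A} (hq : q ∈ Bs F A) (hr : r ∈ Bs F A)
    (hs : s ∈ Bs F A) (x : A) : J n x ((r * s) * q) = 0 := by
  -- `a((u v) w) = (a(u) v) w`
  have hβ : ∀ {u v w : A}, u ∈ Bs F A → v ∈ Bs F A → w ∈ Bs F A →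
      J n x ((u * v) * w) = (J n x u * v) * w := by
    intro u v w hu hv hw
    rw [N1_d hn (mul_mem_Bs u v) hw, N1_d hn hu hv, neg_mul, neg_neg]
  have hsk : ∀ {u v w : A}, u ∈ Bs F A → v ∈ Bs F A → w ∈ Bs F A →
      (J n x v * u) * w = -((J n x u * v) * w) := by
    intro u v w hu hv hw
    rw [← hβ hv hu hw, ← hβ hu hv hw, anti v u, neg_mul]
    have h := J_neg3 n x ((u * v) * w)
    exact h
  -- `a(q) (r s) = β(r,s,q)`
  have h1 : J n x q * (r * s) = (J n x r * s) * q := by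
    have h2 := N1_d hn hq (mul_mem_Bs (F := F) r s) x
    rw [anti q (r * s), J_neg3, hβ hr hs hq] at h2
    exact (neg_injective h2).symm
  have hD := dd_J r s n x q
  have e1 : dd r s n = (2 : ℤ) • (n * (r * s)) := by
    unfold dd
    rw [hn r hr s hs, zero_add]
  have e2 : J (dd r s n) x q = (J n x r * s) * q := by
    rw [e1]
    have h3 := N1_b hn hq (mul_mem_Bs (F := F) r s) x
    rw [N1_d hn hr hs, neg_mul, neg_neg] at h3
    rw [← h3]
    rw [two_zsmul, two_zsmul, J_add1]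
  have e3 : J n (dd r s x) q = 0 := by
    refine hn _ ?_ q hq
    unfold dd
    exact Submodule.add_mem _ (J_mem_Bs x r s) (by
      rw [two_zsmul]
      exact Submodule.add_mem _ (mul_mem_Bs _ _) (mul_mem_Bs _ _))
  have e4 : J n x (dd r s q) = (J n x q * r) * s + (J n x s * q) * r - (J n x r * s) * q := by
    unfold dd
    rw [J_add3, two_zsmul, J_add3]
    have h4 : J q r s = (q * r) * s + (r * s) * q + (s * q) * r := rfl
    rw [h4, J_add3, J_add3, hβ hq hr hs, hβ hr hs hq, hβ hs hq hr, anti q (r * s), J_neg3,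
      hβ hr hs hq]
    abel
  have e5 : dd r s (J n x q) = (J n x q * r) * s + (J n x r * s) * q + (J n x s * q) * r := by
    unfold dd
    have h5 : J (J n x q) r s = (J n x q * r) * s + (r * s) * J n x q + (s * J n x q) * r := rfl
    have h6 : (s * J n x q) * r = (J n x s * q) * r := by
      rw [anti s (J n x q), neg_mul, hsk (w := r) hs hq hr, neg_neg]
    rw [h5, anti (r * s) (J n x q), h1, h6, two_zsmul]
    abel
  rw [e5, e2, e3, e4] at hD
  rw [hβ hr hs hq]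
  have h7 : (J n x r * s) * q = ((J n x q * r) * s + (J n x r * s) * q + (J n x s * q) * r) -
      ((J n x r * s) * q + 0 + ((J n x q * r) * s + (J n x s * q) * r - (J n x r * s) * q)) := by
    abel
  rw [h7, ← hD, sub_self]

/-- `N1 * A² ⊆ N1` ((f) and `J n r' (q r) = 0`). -/
theorem N1_mul {n : A} (hn : IsN1 F n) {r : A} (hr : r ∈ Bs F A) : IsN1 F (n * r) := by
  intro q hq s hs
  have h := N1_f hn hq hs r
  rw [hn r hr (q * s) (mul_mem_Bs q s), smul_zero] at h
  exact TF.tf 2 _ (by norm_num) h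

end

end Pool.Agent.MalF
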