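import Pool.Agent.MalF.N1

/-!
# The ideal `N` (modules NID, LNN, section 3)
-/

namespace Pool.Agent.MalF

section
variable (F A : Type*) [Field F] [NonUnitalNonAssocRing A] [Module F A]
  [IsScalarTower F A A] [SMulCommClass F A A]

/-- `N = {n : J(n, A², A²) = 0, J(n, A, A² A²) = 0}`. -/
def NS : Submodule F A where
  carrier := {n | IsN1 F n ∧ ∀ x : A, ∀ q ∈ Bs F A, ∀ r ∈ Bs F A, J n x (q * r) = 0}
  zero_mem' := ⟨fun q _ r _ => J_zero1 q r, fun x q _ r _ => J_zero1 x (q * r)⟩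
  add_mem' := by
    rintro a b ⟨ha1, ha2⟩ ⟨hb1, hb2⟩
    exact ⟨fun q hq r hr => by rw [J_add1, ha1 q hq r hr, hb1 q hq r hr, add_zero],
      fun x q hq r hr => by rw [J_add1, ha2 x q hq r hr, hb2 x q hq r hr, add_zero]⟩
  smul_mem' := by
    rintro c a ⟨ha1, ha2⟩
    exact ⟨fun q hq r hr => by rw [J_smul1, ha1 q hq r hr, smul_zero],
      fun x q hq r hr => by rw [J_smul1, ha2 x q hq r hr, smul_zero]⟩

end

namespace NIDaux

section
variable {F A : Type*} [Field F] [CharZero F] [NonUnitalNonAssocRing A] [Module F A]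
  [IsScalarTower F A A] [SMulCommClass F A A] [IsMalcev A] [TF A]

open N1aux

private theorem nq0 {n : A} (hn : n ∈ NS F A) {q r : A} (hq : q ∈ Bs F A) (hr : r ∈ Bs F A)
    (x : A) : J n x (q * r) = 0 := hn.2 x q hq r hr

/-- `a_x(q) r = 0` -/
private theorem aq0 {n : A} (hn : n ∈ NS F A) {q r : A} (hq : q ∈ Bs F A) (hr : r ∈ Bs F A)
    (x : A) : J n x q * r = 0 := by
  have h := N1_d hn.1 hq hr x
  rw [nq0 hn hq hr x] at h
  exact neg_eq_zero.1 h.symm

private theorem nuN1 {n : A} (hn : n ∈ NS F A) (u : A) : IsN1 F (n * u) := by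
  intro q hq r hr
  have h := N1_f hn.1 hq hr u
  rw [nq0 hn hq hr u, smul_zero] at h
  exact TF.tf 2 _ (by norm_num) h

private theorem E1 {n : A} (hn : n ∈ NS F A) {q r : A} (hq : q ∈ Bs F A) (hr : r ∈ Bs F A)
    (u w : A) : (2 : ℤ) • J (n * u) w (q * r) = J n u w * (q * r) + J n u ((q * r) * w) := by
  have h := id_S4 w (q * r) n u
  have h1 : J (q * r) n u = 0 := by rw [← J_cyc (q * r) n u]; exact nq0 hn hq hr u
  have h2 : J (w * (q * r)) n u = -J n u ((q * r) * w) := by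
    rw [← J_cyc (w * (q * r)) n u, anti w (q * r), J_neg3]
  have h3 : J w (q * r) (n * u) = J (n * u) w (q * r) := J_cyc (n * u) w (q * r)
  have h4 : J w n u = J n u w := (J_cyc w n u).symm
  rw [h1, h2, h3, h4] at h
  simp only [zero_mul, add_zero] at h
  linear_combination (norm := module) h

private theorem E2 {n : A} (hn : n ∈ NS F A) {q r : A} (hq : q ∈ Bs F A) (hr : r ∈ Bs F A)
    (u w : A) : (3 : ℤ) • J (n * u) w (q * r) =
      J (q * r) u w * n + (2 : ℤ) • (J n u w * (q * r)) := by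
  have h := id_S2 n u w (q * r)
  have h1 : J w (q * r) n = 0 := by rw [J_cyc n w (q * r)]; exact nq0 hn hq hr w
  have h2 : J (q * r) n u = 0 := by rw [← J_cyc (q * r) n u]; exact nq0 hn hq hr u
  have h3 : J u w (q * r) = J (q * r) u w := J_cyc (q * r) u w
  rw [h1, h2, h3] at h
  simp only [zero_mul, smul_zero, add_zero] at h
  linear_combination (norm := module) h

private theorem skh {n : A} (hn : n ∈ NS F A) {q r : A} (hq : q ∈ Bs F A) (hr : r ∈ Bs F A)
    (u w : A) : J (n * w) u (q * r) = -J (n * u) w (q * r) := by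
  have h1 := E2 hn hq hr u w
  have h2 := E2 hn hq hr w u
  rw [J_swap23 (q * r) u w, J_swap23 n u w] at h2
  simp only [neg_mul, smul_neg] at h2
  refine tf_eq 3 (by norm_num) ?_
  linear_combination (norm := module) h1 + h2

private theorem skk {n : A} (hn : n ∈ NS F A) {q r : A} (hq : q ∈ Bs F A) (hr : r ∈ Bs F A)
    (u w : A) : J n w ((q * r) * u) = -J n u ((q * r) * w) := by
  have h1 := E1 hn hq hr u w
  have h2 := E1 hn hq hr w u
  rw [skh hn hq hr u w, J_swap23 n u w] at h2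
  simp only [neg_mul, smul_neg] at h2
  linear_combination (norm := module) -h1 - h2

private theorem E3 {n : A} (hn : n ∈ NS F A) {q r : A} (hq : q ∈ Bs F A) (hr : r ∈ Bs F A)
    (u w : A) : (3 : ℤ) • J (n * (q * r)) u w = J (q * r) u w * n - J n u w * (q * r) := by
  have h := id_S2 n (q * r) u w
  have h1 : J u w n = J n u w := J_cyc n u w
  have h2 : J w n (q * r) = 0 := by rw [J_swap12 n w (q * r), nq0 hn hq hr w, neg_zero]
  have h3 : J n (q * r) u = 0 := by rw [J_swap23 n u (q * r), nq0 hn hq hr u, neg_zero]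
  rw [h1, h2, h3] at h
  simp only [zero_mul, smul_zero, add_zero, sub_zero] at h
  linear_combination (norm := module) h

private theorem E4 {n : A} (hn : n ∈ NS F A) {q r : A} (hq : q ∈ Bs F A) (hr : r ∈ Bs F A)
    (u w : A) : J (J n u w) q r = (-3 : ℤ) • J (n * u) w (q * r) := by
  have h0 : J n u w = (n * u) * w + (u * w) * n + (w * n) * u := rfl
  have h1 := N1_f (nuN1 hn u) hq hr w
  have h2 := N1_f (nuN1 hn w) hq hr u
  have h3 : J ((u * w) * n) q r = 0 := by
    rw [anti (u * w) n, J_neg1, nuN1 hn (u * w) q hq r hr, neg_zero]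
  have h4 : J ((w * n) * u) q r = -J ((n * w) * u) q r := by
    rw [anti w n, neg_mul, J_neg1]
  rw [skh hn hq hr u w] at h2
  rw [h0, J_add1, J_add1, h3, h4]
  refine tf_eq 2 (by norm_num) ?_
  linear_combination (norm := module) h1 - h2

private theorem E5 {n : A} (hn : n ∈ NS F A) {q r : A} (hq : q ∈ Bs F A) (hr : r ∈ Bs F A)
    (u w : A) : (3 : ℤ) • J (n * u) w (q * r) = (2 : ℤ) • J n u ((q * r) * w) := by
  have hD := dd_J q r n u w
  have e1 : dd q r (J n u w) = (-3 : ℤ) • J (n * u) w (q * r) +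
      (2 : ℤ) • (J n u w * (q * r)) := by
    unfold dd
    rw [E4 hn hq hr]
  have e2 : J (dd q r n) u w = (2 : ℤ) • J (n * (q * r)) u w := by
    unfold dd
    rw [hn.1 q hq r hr, zero_add, two_zsmul, J_add1, two_zsmul]
  have hdu : ∀ v : A, dd q r v = (v * q) * r + (r * v) * q - (q * r) * v := by
    intro v
    unfold dd
    have h : J v q r = (v * q) * r + (q * r) * v + (r * v) * q := rfl
    rw [h, anti v (q * r), two_zsmul]
    abel
  have e3 : J n u (dd q r w) = -J n u ((q * r) * w) := by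
    rw [hdu, J_sub3, J_add3, nq0 hn (mul_mem_Bs w q) hr u, nq0 hn (mul_mem_Bs r w) hq u]
    abel
  have e4 : J n (dd q r u) w = -J n u ((q * r) * w) := by
    rw [J_swap23 n w (dd q r u)]
    have h : J n w (dd q r u) = -J n w ((q * r) * u) := by
      rw [hdu, J_sub3, J_add3, nq0 hn (mul_mem_Bs u q) hr w, nq0 hn (mul_mem_Bs r u) hq w]
      abel
    rw [h, skk hn hq hr u w, neg_neg]
  rw [e1, e2, e3, e4] at hD
  have f1 := E1 hn hq hr u w
  have f2 := E2 hn hq hr u w
  have f3 := E3 hn hq hr u w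
  -- unknowns: h, k, G, m, J(n(qr),u,w)
  refine tf_eq 3 (by norm_num) ?_
  linear_combination (norm := module) (3 : ℤ) • hD + (12 : ℤ) • f1 - (2 : ℤ) • f2 + (2 : ℤ) • f3

private theorem E6 {n : A} (hn : n ∈ NS F A) {q r : A} (hq : q ∈ Bs F A) (hr : r ∈ Bs F A)
    (u w : A) : J n u ((q * r) * w) = -((J n u q * w) * r) + (J n w r * u) * q := by
  have hD := dd_J r w n u q
  have hB : ∀ v : A, dd r w v ∈ Bs F A := by
    intro v
    unfold dd
    rw [two_zsmul]
    exact Submodule.add_mem _ (J_mem_Bs _ _ _)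
      (Submodule.add_mem _ (mul_mem_Bs _ _) (mul_mem_Bs _ _))
  have e1 : dd r w (J n u q) = -((J n u q * w) * r) := by
    unfold dd
    have h1 : J (J n u q) r w = (J n u q * r) * w + (r * w) * J n u q + (w * J n u q) * r := rfl
    have h2 : J n u q * (r * w) = 0 := aq0 hn hq (mul_mem_Bs r w) u
    rw [h1, anti (r * w) (J n u q), h2, aq0 hn hq hr u, anti w (J n u q), zero_mul, neg_zero,
      smul_zero, neg_mul]
    abel
  have e2 : J (dd r w n) u q = -((J n w r * u) * q) := by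
    unfold dd
    rw [two_zsmul, J_add1, J_add1, ← two_zsmul]
    have h1 := N1_b hn.1 hq (mul_mem_Bs (F := F) r w) u
    have h2 : J n u (r * w) * q = 0 := aq0 hn (mul_mem_Bs r w) hq u
    rw [h1, h2, neg_zero, add_zero, J_swap23 n w r, J_neg1]
    have h3 : J (J n w r) u q = (J n w r * u) * q + (u * q) * J n w r + (q * J n w r) * u := rfl
    have h4 : J n w r * (u * q) = 0 := aq0 hn hr (mul_mem_Bs u q) w
    rw [h3, anti (u * q) (J n w r), h4, anti q (J n w r), aq0 hn hr hq w]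
    simp only [neg_zero, zero_mul, add_zero]
  have e3 : J n (dd r w u) q = 0 := hn.1 _ (hB u) q hq
  have e4 : J n u (dd r w q) = J n u ((q * r) * w) := by
    unfold dd
    have h1 : J q r w = (q * r) * w + (r * w) * q + (w * q) * r := rfl
    rw [two_zsmul, J_add3, J_add3, h1, J_add3, J_add3, nq0 hn hq (mul_mem_Bs r w) u,
      nq0 hn (mul_mem_Bs r w) hq u, nq0 hn (mul_mem_Bs w q) hr u]
    simp only [add_zero]
  rw [e1, e2, e3, e4] at hD
  rw [hD]
  abel

private theorem E7 {n : A} (hn : n ∈ NS F A) {q r : A} (hq : q ∈ Bs F A) (hr : r ∈ Bs F A)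
    (u w : A) : (J n w q * u) * r = -((J u q w * n) * r) - J (n * u) w (q * r) := by
  have h := congrArg (fun z => z * r) (id_S4 n u q w)
  simp only [add_mul, sub_mul, zero_mul, smul_mul_assoc] at h
  have h1 : J n u (q * w) * r = 0 := aq0 hn (mul_mem_Bs q w) hr u
  have h2 : J n q w = -J n w q := J_swap23 n w q
  have h3 : J (n * u) q w * r = J (n * u) w (q * r) := by
    rw [J_swap23 (n * u) w q, neg_mul, N1_d (nuN1 hn u) hq hr w]
  rw [h1, h2, h3] at h
  simp only [smul_zero, neg_mul] at h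
  linear_combination (norm := module) h

theorem key {n : A} (hn : n ∈ NS F A) {q r : A} (hq : q ∈ Bs F A) (hr : r ∈ Bs F A) (u w : A) :
    J (n * u) w (q * r) = 0 ∧ J n u ((q * r) * w) = 0 := by
  have h5 := E5 hn hq hr u w
  have h6 := E6 hn hq hr u w
  have h6' := E6 hn hr hq u w
  have k1 : J n u ((r * q) * w) = -J n u ((q * r) * w) := by rw [anti r q, neg_mul, J_neg3]
  have h7a := E7 hn hq hr w u
  have h7b := E7 hn hr hq u w
  have h7c := E7 hn hr hq w u
  have h7d := E7 hn hq hr u w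
  have s1 : J (n * w) u (q * r) = -J (n * u) w (q * r) := skh hn hq hr u w
  have s2 : J (n * u) w (r * q) = -J (n * u) w (q * r) := by rw [anti r q, J_neg3]
  have s3 : J (n * w) u (r * q) = J (n * u) w (q * r) := by
    rw [anti r q, J_neg3, s1, neg_neg]
  have s4 : J w q u = -J u q w := J_swap13 u q w
  have s5 : J w r u = -J u r w := J_swap13 u r w
  rw [s1, s4] at h7a
  rw [s2] at h7b
  rw [s3, s5] at h7c
  rw [h7a, h7b] at h6
  rw [k1, h7c, h7d] at h6'
  simp only [neg_mul] at h6 h6'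
  have hk : J n u ((q * r) * w) = 0 := by
    refine TF.tf 2 _ (by norm_num) ?_
    linear_combination (norm := module) h6 - h6'
  rw [hk, smul_zero] at h5
  exact ⟨TF.tf 3 _ (by norm_num) h5, hk⟩

end

end NIDaux

section
variable {F A : Type*} [Field F] [CharZero F] [NonUnitalNonAssocRing A] [Module F A]
  [IsScalarTower F A A] [SMulCommClass F A A] [IsMalcev A] [TF A]

/-- The key step: `J(nu,w,qr) = 0` and `J(n,u,(qr)w) = 0` for `n ∈ N`, `q, r ∈ A²`.
Proof.  `k(u,w) = J(n,u,(qr)w)`, `h(u,w) = J(nu,w,qr)`, `g = J(n,u,w)`, `G = g (qr)`,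
`m = J(qr,u,w) n`, `c_q = J(u,q,w) n`, `a_x(q) = J(n,x,q)`; `nu ∈ N1` by `N1_f`; `a_x(q r) = 0`, so
`a_x(q) r = 0` (`N1_d`).
(1) `2 h = G + k`: `id_S4` with `(p,r,a,b) = (u,qr,n,w)`, exchange `u, w`.
(2) `3 h = m + 2 G`: `id_S2` with `(w,x,y,z) = (n,u,w,qr)`.  So `h, k, m, G` are skew in `u, w`.
(3) `3 J(n(qr),u,w) = m - G`: `id_S2` with `(n,qr,u,w)`.
(4) `J(g,q,r) = - 3 h`: `N1_f` for `nu`, `nw` (in `N1`) and `n(uw)`.
(5) the derivation `D z = J(z,q,r) + 2 z (qr)` (`id_S5`) applied to `J(n,u,w)`: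
`D g = - 3 h + 2 G`; `J(Dn,u,w) = 2 (m - G)/3`; `J(n,Du,w) = - k = J(n,u,Dw)` (the terms `(uq)r`,
`(ru)q` of `J(u,q,r)` are in `A² A²`, `J(n,w,(qr)u) = k(w,u)`).  So `- 3 h + 2 G = (2/3)(m - G) - 2 k`;
with (1), (2): `3 h = 2 k`.
(6) the derivation `z ↦ J(z,r,w) + 2 z (rw)` applied to `J(n,u,q)`:
`J(a_u(q),r,w) = - J(a_w(r),u,q) + k` (`J(n(rw),u,q) = 0` by `N1_b`, `N1_d`; `J(n,Du,q) = 0`;
`a_u(q)(rw) = 0`; `J(n,u,J(q,r,w)) = k`), and `J(a_u(q),r,w) = - (a_u(q) w) r`,
`J(a_w(r),u,q) = (a_w(r) u) q`.  So `k = - (a_u(q) w) r + (a_w(r) u) q`.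
(7) `id_S4` with `(p,r,a,b) = (n,u,q,w)`, multiplied by `r`: `(a_w(q) u) r = - c_q r - h`
(`J(n,u,qw) r = 0`; `J(nu,q,w) r = - J(nu,w,q) r = J(nu,w,qr) = h` by `N1_d` for `nu`).
Exchange `u, w`: `(a_u(q) w) r = c_q r + h`; exchange `q, r` (`h` changes sign):
`(a_w(r) u) q = - c_r q + h`.  So `k = - c_q r - c_r q` is symmetric in `q, r`; it is skew in `q, r`
by definition; `k = 0`, `h = 0`. -/
theorem NS_key {n : A} (hn : n ∈ NS F A) {q r : A} (hq : q ∈ Bs F A) (hr : r ∈ Bs F A) (u w : A) :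
    J (n * u) w (q * r) = 0 ∧ J n u ((q * r) * w) = 0 :=
  NIDaux.key hn hq hr u w

/-- `N` is an ideal (`N1_f`, `NS_key`). -/
theorem NS_mul {n : A} (hn : n ∈ NS F A) (u : A) : n * u ∈ NS F A := by
  refine ⟨fun q hq r hr => ?_, fun x q hq r hr => (NS_key hn hq hr u x).1⟩
  have h := N1_f hn.1 hq hr u
  rw [hn.2 u q hq r hr, smul_zero] at h
  exact TF.tf 2 _ (by norm_num) h

/-- `J(N, A, BBs) = 0` (definition of `N`, `NS_key`). -/
theorem NS_BBs {n : A} (hn : n ∈ NS F A) {p : A} (hp : p ∈ BBs F A) (x : A) : J n x p = 0 := by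
  unfold BBs at hp
  induction hp using Submodule.span_induction with
  | mem p hp =>
    rcases hp with ⟨q, hq, r, hr, rfl⟩ | ⟨q, hq, r, hr, u, rfl⟩
    · exact hn.2 x q hq r hr
    · exact (NS_key hn hq hr x u).2
  | zero => exact J_zero3 n x
  | add a b _ _ ha hb => rw [J_add3, ha, hb, add_zero]
  | smul c a _ ha => rw [J_smul3, ha, smul_zero]

/-- `l ∈ N`.  `F4_pol` with `a, b ∈ A²`: `X3` (`ab ∈ BBs`), `X2`, `X2`; `F4_pol` with `a = v`,
`b = q r`: `X3` (`v (qr) ∈ BBs`, `BB_mul_mem`), `X4`, `X3` (with `X_swap45`, `X_swap56`). -/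
theorem l_mem_NS (w z y x u : A) : l w z y x u ∈ NS F A := by
  refine ⟨fun a ha b hb => ?_, fun v q hq r hr => ?_⟩
  · have h := F4_pol w z y x u a b
    have h1 : X w z y x (a * b) u = 0 := by
      rw [← neg_eq_zero, ← X_swap56]
      exact X3 (F := F) (BB_le_BBs (mul_mem_BB ha hb)) w z y x u
    have h2 : X w z y x u a * b = 0 := X2 (F := F) ha w z y x u b
    have h3 : X w z y x b u * a = 0 := by
      rw [← neg_eq_zero, ← neg_mul, ← X_swap56]
      exact X2 (F := F) hb w z y x u a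
    rw [h1, h2, h3] at h
    simp only [add_zero] at h
    exact TF.tf 2 _ (by norm_num) h
  · have h := F4_pol w z y x u v (q * r)
    have hqr : q * r ∈ BB F A := mul_mem_BB hq hr
    have h1 : X w z y x (v * (q * r)) u = 0 := by
      rw [← neg_eq_zero, ← X_swap56, anti v (q * r)]
      have h4 : -((q * r) * v) ∈ BBs F A := Submodule.neg_mem _ (BB_mul_mem hqr v)
      exact X3 (F := F) h4 w z y x u
    have h2 : X w z y x u v * (q * r) = 0 := X4 (F := F) hqr w z y x u v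
    have h3 : X w z y x (q * r) u = 0 := by
      rw [← neg_eq_zero, ← X_swap56]
      exact X3 (F := F) (BB_le_BBs hqr) w z y x u
    rw [h1, h2, h3] at h
    simp only [add_zero, zero_mul] at h
    exact TF.tf 2 _ (by norm_num) h

/-- (l') `J(l(w,z;y,x,r),v,b) = 0` for `r, b ∈ A²`: `F4_pol` with `a = v`: `X1`, `X2`, `X1`. -/
theorem l_prime {r b : A} (hr : r ∈ Bs F A) (hb : b ∈ Bs F A) (w z y x v : A) :
    J (l w z y x r) v b = 0 := by
  have h := F4_pol w z y x r v b
  have h1 : X w z y x (v * b) r = 0 := X1 (F := F) (mul_mem_Bs v b) hr w z y x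
  have h2 : X w z y x r v * b = 0 := by
    rw [← neg_eq_zero, ← neg_mul, ← X_swap56]
    exact X2 (F := F) hr w z y x v b
  have h3 : X w z y x b r = 0 := X1 (F := F) hb hr w z y x
  rw [h1, h2, h3] at h
  simp only [add_zero, zero_mul] at h
  exact TF.tf 2 _ (by norm_num) h

end

end Pool.Agent.MalF
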