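import Pool.Agent.MalF.IdM1
import Pool.Agent.MalF.IdZ3
import Pool.Agent.MalF.IdG
import Pool.Agent.MalF.IdV
import Pool.Agent.MalF.IdA2
import Pool.Agent.MalF.IdF4

/-!
# Polarised identities (module PLA)
-/

namespace Pool.Agent.MalF

section
variable {A : Type*} [NonUnitalNonAssocRing A] [IsMalcev A] [TF A]

/-- `P m u x = Z(m;x) u - Z(m u;x)`, the commutator of `Z(.;x)` with right multiplication by `u`. -/
def P (m u x1 x2 x3 x4 x5 : A) : A := Z m x1 x2 x3 x4 x5 * u - Z (m * u) x1 x2 x3 x4 x5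

/-- `Q m u v x = P m u x * v - P (m v) u x`, the double commutator. -/
def Q (m u v x1 x2 x3 x4 x5 : A) : A := P m u x1 x2 x3 x4 x5 * v - P (m * v) u x1 x2 x3 x4 x5

/-- V. -/
theorem P_mul (m a b x1 x2 x3 x4 x5 : A) : P m (a * b) x1 x2 x3 x4 x5 = 0 := id_V m a b x1 x2 x3 x4 x5

private theorem PLA_Q_self (m x1 x2 x3 x4 x5 u : A) : Q m u u x1 x2 x3 x4 x5 = 0 := by
  have h := id_A2 m u x1 x2 x3 x4 x5
  rw [← h]
  simp only [Q, P, sub_mul]
  abel

/-- A2 polarised: `Q m a a = 0` is `id_A2`; `Q` is additive in `u` and in `v`. -/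
theorem Q_swap (m u v x1 x2 x3 x4 x5 : A) : Q m v u x1 x2 x3 x4 x5 = - Q m u v x1 x2 x3 x4 x5 := by
  have hs : ∀ u, Q m u u x1 x2 x3 x4 x5 = 0 := PLA_Q_self m x1 x2 x3 x4 x5
  have h := hs (u + v)
  have hu := hs u
  have hv := hs v
  have e : Q m (u + v) (u + v) x1 x2 x3 x4 x5 = Q m u u x1 x2 x3 x4 x5 + Q m v v x1 x2 x3 x4 x5
      + (Q m u v x1 x2 x3 x4 x5 + Q m v u x1 x2 x3 x4 x5) := by
    simp only [Q, P, mul_add, add_mul, Z_add1, sub_mul]
    abel
  rw [e, hu, hv, zero_add, zero_add] at h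
  exact eq_neg_of_add_eq_zero_right h

theorem Q_self (m u x1 x2 x3 x4 x5 : A) : Q m u u x1 x2 x3 x4 x5 = 0 :=
  PLA_Q_self m x1 x2 x3 x4 x5 u

/-- Z3 in terms of `P`. -/
theorem Z3P (m x1 x2 x3 x4 x5 x6 : A) :
    (5 : ℤ) • Z m (x1 * x2) x3 x4 x5 x6 =
      (-3 : ℤ) • P m x1 x2 x3 x4 x5 x6 + (3 : ℤ) • P m x2 x1 x3 x4 x5 x6
      + (2 : ℤ) • P m x3 x1 x2 x4 x5 x6 - (2 : ℤ) • P m x4 x1 x2 x3 x5 x6
      + (2 : ℤ) • P m x5 x1 x2 x3 x4 x6 - (2 : ℤ) • P m x6 x1 x2 x3 x4 x5 := by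
  have h := id_Z3 m x1 x2 x3 x4 x5 x6
  rw [← sub_eq_zero, ← h]
  simp only [P, smul_sub, smul_neg]
  abel

/-- G polarised. -/
theorem G_pol (m m' r x1 x2 x3 x4 : A) :
    Z m m' x1 x2 x3 x4 * r + Z m' m x1 x2 x3 x4 * r + Z m (m' * r) x1 x2 x3 x4
      + Z m' (m * r) x1 x2 x3 x4 = 0 := by
  have h := id_G (m + m') r x1 x2 x3 x4
  have h1 := id_G m r x1 x2 x3 x4
  have h2 := id_G m' r x1 x2 x3 x4
  simp only [Z_add1, Z_add2, add_mul] at h
  have e : Z m m' x1 x2 x3 x4 * r + Z m' m x1 x2 x3 x4 * r + Z m (m' * r) x1 x2 x3 x4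
      + Z m' (m * r) x1 x2 x3 x4 = (Z m m x1 x2 x3 x4 * r + Z m' m x1 x2 x3 x4 * r +
        (Z m m' x1 x2 x3 x4 * r + Z m' m' x1 x2 x3 x4 * r)
        + (Z m (m * r) x1 x2 x3 x4 + Z m' (m * r) x1 x2 x3 x4 +
        (Z m (m' * r) x1 x2 x3 x4 + Z m' (m' * r) x1 x2 x3 x4)))
        - (Z m m x1 x2 x3 x4 * r + Z m (m * r) x1 x2 x3 x4)
        - (Z m' m' x1 x2 x3 x4 * r + Z m' (m' * r) x1 x2 x3 x4) := by abel
  rw [e, h, h1, h2, sub_zero, sub_zero]

/-- M1 polarised. -/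
theorem M1_pol (w z y x q r : A) :
    (6 : ℤ) • X w z y x q r = Z w z y x q r + Z z w y x q r := by
  have h := id_M1 (w + z) y x q r
  have h1 := id_M1 w y x q r
  have h2 := id_M1 z y x q r
  simp only [X_add1, X_add2, Z_add1, Z_add2, smul_add] at h
  rw [X_symm z w] at h
  have e : (6 : ℤ) • X w z y x q r - (Z w z y x q r + Z z w y x q r)
      = ((3 : ℤ) • X w w y x q r + (3 : ℤ) • X w z y x q r
        + ((3 : ℤ) • X w z y x q r + (3 : ℤ) • X z z y x q r)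
        - (Z w w y x q r + Z z w y x q r + (Z w z y x q r + Z z z y x q r)))
        - ((3 : ℤ) • X w w y x q r - Z w w y x q r)
        - ((3 : ℤ) • X z z y x q r - Z z z y x q r) := by abel
  rw [← sub_eq_zero, e, h, h1, h2, sub_zero, sub_zero]

/-- `X` is alternating in its last four arguments (with `X_swap34`, `X_swap56`). -/
theorem X_swap45 (w z y x q r : A) : X w z y q x r = - X w z y x q r := by
  have h1 := M1_pol w z y x q r
  have h2 := M1_pol w z y q x r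
  rw [Z_swap45 w z y x q r, Z_swap45 z w y x q r] at h2
  have h3 : (6 : ℤ) • (X w z y q x r + X w z y x q r) = 0 := by
    rw [smul_add, h1, h2]
    abel
  exact eq_neg_of_add_eq_zero_left (TF.tf (6 : ℤ) _ (by decide) h3)

/-- F4 polarised (both sides are symmetric and bilinear in `w, z`). -/
theorem F4_pol (w z y x r a b : A) :
    (2 : ℤ) • J (l w z y x r) a b = X w z y x (a * b) r + X w z y x r a * b + X w z y x b r * a := by
  have h := id_F4 (w + z) y x r a b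
  have h1 := id_F4 w y x r a b
  have h2 := id_F4 z y x r a b
  simp only [X_add1, X_add2, l_add1, l_add2, J_add1, add_mul, smul_add] at h
  rw [l_symm z w, X_symm z w, X_symm z w, X_symm z w] at h
  have h3 : (2 : ℤ) • ((2 : ℤ) • J (l w z y x r) a b - (X w z y x (a * b) r + X w z y x r a * b
      + X w z y x b r * a)) = 0 := by
    linear_combination (norm := (simp only [smul_add, smul_sub]; abel)) h - h1 - h2
  exact sub_eq_zero.1 (TF.tf (2 : ℤ) _ (by decide) h3)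

end

end Pool.Agent.MalF
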