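import Pool.Agent.MalF.Swap

/-!
# Trees, powers, J-forms
-/

namespace Pool.Agent.MalF

/-- The leaves of a tree from left to right. -/
def lv {α : Type*} : FreeMagma α → List α
  | .of a => [a]
  | .mul s t => lv s ++ lv t

theorem lv_of {α : Type*} (a : α) : lv (FreeMagma.of a) = [a] := rfl

theorem lv_mul {α : Type*} (s t : FreeMagma α) : lv (s * t) = lv s ++ lv t := rfl

theorem lv_length {α : Type*} (t : FreeMagma α) : (lv t).length = t.length := by
  induction t with
  | ih1 a => rfl
  | ih2 s t hs ht => rw [lv_mul, List.length_append, hs, ht]; rfl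

/-- Evaluation of a tree. -/
abbrev evm {α A : Type*} [Mul A] (x : α → A) (t : FreeMagma α) : A := FreeMagma.lift x t

section
variable (F A : Type*) [Field F] [NonUnitalNonAssocRing A] [Module F A]

/-- `A²`: the span of the products. -/
def Bs : Submodule F A := Submodule.span F {z | ∃ x y : A, z = x * y}

/-- The power `A^n`: the span of all products of `n` elements under every arrangement of
brackets. -/
def pw (n : ℕ) : Submodule F A :=
  Submodule.span F {a | ∃ (t : FreeMagma ℕ) (x : ℕ → A), t.length = n ∧ a = FreeMagma.lift x t}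

end

/-- Formal linear combinations of `J(p,q,r)`, `p, q, r` trees. -/
abbrev JForm (F α : Type*) := List (F × FreeMagma α × FreeMagma α × FreeMagma α)

/-- Value of a J-form. -/
def evJ {F α A : Type*} [Field F] [NonUnitalNonAssocRing A] [Module F A] (x : α → A)
    (f : JForm F α) : A :=
  (f.map fun q => q.1 • J (evm x q.2.1) (evm x q.2.2.1) (evm x q.2.2.2)).sum

/-- Every variable occurs exactly once in every `J(p,q,r)`. -/
def JMulti {F : Type*} {m : ℕ} (f : JForm F (Fin m)) : Prop :=
  ∀ q ∈ f, (lv q.2.1 ++ lv q.2.2.1 ++ lv q.2.2.2).Perm (List.finRange m)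

end Pool.Agent.MalF
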