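import Pool.Agent.MalF.FD
import Pool.Agent.MalF.IdD5

/-!
# Trees with at least five leaves are combinations of `e`s (module TRE)
-/

namespace Pool.Agent.MalF

namespace TRE

section
variable {α : Type*}

/-- the multiset of the leaves -/
private def ms (s : FreeMagma α) : Multiset α := (lv s : Multiset α)

private theorem ms_mul (s u : FreeMagma α) : ms (s * u) = ms s + ms u := by
  unfold ms
  rw [lv_mul, Multiset.coe_add]

private theorem length_mul (s u : FreeMagma α) : (s * u).length = s.length + u.length := rfl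

private theorem length_pos (s : FreeMagma α) : 1 ≤ s.length := FreeMagma.length_pos s

private theorem split (s : FreeMagma α) (hs : 2 ≤ s.length) : ∃ a b, s = a * b := by
  cases s with
  | of a =>
    exfalso
    have h : (FreeMagma.of a).length = 1 := rfl
    omega
  | mul a b => exact ⟨a, b, rfl⟩

end

section
variable (F A α : Type*) [Field F] [NonUnitalNonAssocRing A] [Module F A]

/-- combinations of `t(p,q,r)` -/
private def TC (M : Multiset α) : Submodule F ((α → A) → A) :=
  Submodule.span F {f | ∃ p q r : FreeMagma α, ms p + ms q + ms r = M ∧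
    f = fun x => t (evm x p) (evm x q) (evm x r)}

/-- combinations of `e(w,z|y,x)` -/
private def EC (M : Multiset α) : Submodule F ((α → A) → A) :=
  Submodule.span F {f | ∃ w z y v : FreeMagma α, ms w + ms z + ms y + ms v = M ∧
    f = fun x => e (evm x w) (evm x z) (evm x y) (evm x v)}

end

section
variable {F A α : Type*} [Field F] [NonUnitalNonAssocRing A] [Module F A]

private theorem mem_TC {M : Multiset α} (p q r : FreeMagma α) (h : ms p + ms q + ms r = M) :
    (fun x : α → A => t (evm x p) (evm x q) (evm x r)) ∈ TC F A α M :=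
  Submodule.subset_span ⟨p, q, r, h, rfl⟩

private theorem mem_EC {M : Multiset α} (w z y v : FreeMagma α)
    (h : ms w + ms z + ms y + ms v = M) :
    (fun x : α → A => e (evm x w) (evm x z) (evm x y) (evm x v)) ∈ EC F A α M :=
  Submodule.subset_span ⟨w, z, y, v, h, rfl⟩

private theorem list_TC {l : List α} {f : (α → A) → A} (h : f ∈ TC F A α (l : Multiset α)) :
    ∃ L : List (F × FreeMagma α × FreeMagma α × FreeMagma α),
      (∀ q ∈ L, (lv q.2.1 ++ lv q.2.2.1 ++ lv q.2.2.2).Perm l) ∧
      ∀ x : α → A, f x =
        (L.map fun q => q.1 • t (evm x q.2.1) (evm x q.2.2.1) (evm x q.2.2.2)).sum := by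
  unfold TC at h
  induction h using Submodule.span_induction with
  | mem f hf =>
    obtain ⟨p, q, r, h1, rfl⟩ := hf
    refine ⟨[(1, p, q, r)], ?_, fun x => by simp⟩
    intro u hu
    rw [List.mem_singleton] at hu
    subst hu
    rw [← Multiset.coe_eq_coe, ← h1]
    unfold ms
    rw [Multiset.coe_add, Multiset.coe_add]
  | zero => exact ⟨[], by simp, fun x => by simp⟩
  | add f g _ _ hf hg =>
    obtain ⟨L, h1, h2⟩ := hf
    obtain ⟨L', h3, h4⟩ := hg
    refine ⟨L ++ L', fun q hq => ?_, fun x => ?_⟩
    · rcases List.mem_append.1 hq with h | h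
      · exact h1 q h
      · exact h3 q h
    · rw [Pi.add_apply, h2, h4, List.map_append, List.sum_append]
  | smul c f _ hf =>
    obtain ⟨L, h1, h2⟩ := hf
    refine ⟨L.map fun q => (c * q.1, q.2), fun q hq => ?_, fun x => ?_⟩
    · obtain ⟨q', hq', rfl⟩ := List.mem_map.1 hq
      exact h1 q' hq'
    · rw [Pi.smul_apply, h2, List.smul_sum, List.map_map, List.map_map]
      congr 1
      refine List.map_congr_left fun q _ => ?_
      simp only [Function.comp_apply, mul_smul]

private theorem list_EC {l : List α} {f : (α → A) → A} (h : f ∈ EC F A α (l : Multiset α)) :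
    ∃ L : List (F × FreeMagma α × FreeMagma α × FreeMagma α × FreeMagma α),
      (∀ q ∈ L, (lv q.2.1 ++ lv q.2.2.1 ++ lv q.2.2.2.1 ++ lv q.2.2.2.2).Perm l) ∧
      ∀ x : α → A, f x =
        (L.map fun q => q.1 • e (evm x q.2.1) (evm x q.2.2.1) (evm x q.2.2.2.1)
          (evm x q.2.2.2.2)).sum := by
  unfold EC at h
  induction h using Submodule.span_induction with
  | mem f hf =>
    obtain ⟨p, q, r, s, h1, rfl⟩ := hf
    refine ⟨[(1, p, q, r, s)], ?_, fun x => by simp⟩
    intro u hu
    rw [List.mem_singleton] at hu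
    subst hu
    rw [← Multiset.coe_eq_coe, ← h1]
    unfold ms
    rw [Multiset.coe_add, Multiset.coe_add, Multiset.coe_add]
  | zero => exact ⟨[], by simp, fun x => by simp⟩
  | add f g _ _ hf hg =>
    obtain ⟨L, h1, h2⟩ := hf
    obtain ⟨L', h3, h4⟩ := hg
    refine ⟨L ++ L', fun q hq => ?_, fun x => ?_⟩
    · rcases List.mem_append.1 hq with h | h
      · exact h1 q h
      · exact h3 q h
    · rw [Pi.add_apply, h2, h4, List.map_append, List.sum_append]
  | smul c f _ hf =>
    obtain ⟨L, h1, h2⟩ := hf
    refine ⟨L.map fun q => (c * q.1, q.2), fun q hq => ?_, fun x => ?_⟩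
    · obtain ⟨q', hq', rfl⟩ := List.mem_map.1 hq
      exact h1 q' hq'
    · rw [Pi.smul_apply, h2, List.smul_sum, List.map_map, List.map_map]
      congr 1
      refine List.map_congr_left fun q _ => ?_
      simp only [Function.comp_apply, mul_smul]

end

section
variable {F A α : Type*} [Field F] [CharZero F] [NonUnitalNonAssocRing A] [Module F A]
  [IsScalarTower F A A] [SMulCommClass F A A] [IsMalcev A] [TF A]

omit [CharZero F] [IsScalarTower F A A] [SMulCommClass F A A] [IsMalcev A] [TF A] in
private theorem evm_mul (x : α → A) (s u : FreeMagma α) : evm x (s * u) = evm x s * evm x u := rfl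

private theorem zs (n : ℤ) (v : A) : (n : ℤ) • v = ((n : ℤ) : F) • v :=
  (Int.cast_smul_eq_zsmul F n v).symm

private theorem d4a (a b c d : FreeMagma α) :
    (fun x : α → A => evm x (((a * b) * c) * d)) ∈ TC F A α (ms a + ms b + ms c + ms d) := by
  have h3 : (3 : F) ≠ 0 := by norm_num
  rw [← Submodule.smul_mem_iff _ h3]
  have e1 := mem_TC (F := F) (A := A) (M := ms a + ms b + ms c + ms d) (a * b) d c
    (by rw [ms_mul]; abel)
  have e2 := mem_TC (F := F) (A := A) (M := ms a + ms b + ms c + ms d) (a * c) d b
    (by rw [ms_mul]; abel)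
  have e3 := mem_TC (F := F) (A := A) (M := ms a + ms b + ms c + ms d) (a * d) b c
    (by rw [ms_mul]; abel)
  have e4 := mem_TC (F := F) (A := A) (M := ms a + ms b + ms c + ms d) (a * b) c d
    (by rw [ms_mul])
  have e5 := mem_TC (F := F) (A := A) (M := ms a + ms b + ms c + ms d) (b * d) c a
    (by rw [ms_mul]; abel)
  have e6 := mem_TC (F := F) (A := A) (M := ms a + ms b + ms c + ms d) a (b * c) d
    (by rw [ms_mul]; abel)
  have h := Submodule.add_mem _ (Submodule.sub_mem _ (Submodule.sub_mem _ (Submodule.sub_mem _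
    (Submodule.smul_mem _ (2 : F) e4) e1) e2) e5) (Submodule.sub_mem _ e3 e6)
  convert h using 1
  funext x
  have h1 := id_D4a (evm x a) (evm x b) (evm x c) (evm x d)
  rw [zs (F := F) 3, zs (F := F) 2] at h1
  simp only [Pi.smul_apply, Pi.sub_apply, Pi.add_apply, map_mul]
  push_cast at h1
  linear_combination (norm := module) h1

private theorem d4b (a b c d : FreeMagma α) :
    (fun x : α → A => evm x ((a * b) * (c * d))) ∈ TC F A α (ms a + ms b + ms c + ms d) := by
  have h3 : (3 : F) ≠ 0 := by norm_num
  rw [← Submodule.smul_mem_iff _ h3]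
  have e1 := mem_TC (F := F) (A := A) (M := ms a + ms b + ms c + ms d) (a * c) d b
    (by rw [ms_mul]; abel)
  have e2 := mem_TC (F := F) (A := A) (M := ms a + ms b + ms c + ms d) (a * d) b c
    (by rw [ms_mul]; abel)
  have e3 := mem_TC (F := F) (A := A) (M := ms a + ms b + ms c + ms d) (b * d) c a
    (by rw [ms_mul]; abel)
  have e4 := mem_TC (F := F) (A := A) (M := ms a + ms b + ms c + ms d) a (b * c) d
    (by rw [ms_mul]; abel)
  have h := Submodule.add_mem _ (Submodule.add_mem _ (Submodule.sub_mem _ e1 e2) e3) e4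
  convert h using 1
  funext x
  have h1 := id_D4b (evm x a) (evm x b) (evm x c) (evm x d)
  rw [zs (F := F) 3] at h1
  simp only [Pi.smul_apply, Pi.sub_apply, Pi.add_apply, map_mul]
  push_cast at h1
  linear_combination (norm := module) h1

private theorem tree_tc (s : FreeMagma α) (hs : 4 ≤ s.length) :
    (fun x : α → A => evm x s) ∈ TC F A α (ms s) := by
  obtain ⟨P, Q, rfl⟩ := split s (by omega)
  rw [length_mul] at hs
  -- `((a b) c) d` up to sign
  have key : ∀ P Q : FreeMagma α, 3 ≤ P.length →
      (fun x : α → A => evm x (P * Q)) ∈ TC F A α (ms P + ms Q) := by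
    intro P Q hP
    obtain ⟨P1, P2, rfl⟩ := split P (by omega)
    rw [length_mul] at hP
    by_cases h1 : 2 ≤ P1.length
    · obtain ⟨a, b, rfl⟩ := split P1 h1
      have h := d4a (F := F) (A := A) a b P2 Q
      rw [ms_mul, ms_mul]
      exact h
    · obtain ⟨a, b, rfl⟩ := split P2 (by omega)
      have h := d4a (F := F) (A := A) a b P1 Q
      have h2 : ms (P1 * (a * b)) + ms Q = ms a + ms b + ms P1 + ms Q := by
        rw [ms_mul, ms_mul]; abel
      rw [h2]
      convert Submodule.neg_mem _ h using 1
      funext x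
      simp only [Pi.neg_apply, map_mul]
      rw [anti (evm x P1) (evm x a * evm x b), neg_mul]
  by_cases h1 : 3 ≤ P.length
  · rw [ms_mul]
    exact key P Q h1
  · by_cases h2 : 3 ≤ Q.length
    · have h := key Q P h2
      rw [ms_mul, add_comm]
      convert Submodule.neg_mem _ h using 1
      funext x
      simp only [Pi.neg_apply, map_mul]
      rw [anti (evm x P) (evm x Q)]
    · obtain ⟨a, b, rfl⟩ := split P (by omega)
      obtain ⟨c, d, rfl⟩ := split Q (by omega)
      have h := d4b (F := F) (A := A) a b c d
      rw [ms_mul, ms_mul, ms_mul, ← add_assoc]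
      exact h

private theorem t_mul (Q : FreeMagma α) {M : Multiset α} {f : (α → A) → A}
    (hf : f ∈ TC F A α M) : (fun x => f x * evm x Q) ∈ EC F A α (M + ms Q) := by
  unfold TC at hf
  induction hf using Submodule.span_induction with
  | mem f hf =>
    obtain ⟨p, q, r, h1, rfl⟩ := hf
    have h2 : (2 : F) ≠ 0 := by norm_num
    rw [← Submodule.smul_mem_iff _ h2]
    have e1 := mem_EC (F := F) (A := A) (M := M + ms Q) p r q Q (by rw [← h1]; abel)
    have e2 := mem_EC (F := F) (A := A) (M := M + ms Q) q r p Q (by rw [← h1]; abel)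
    have h := Submodule.sub_mem _ e1 e2
    convert h using 1
    funext x
    have h3 := tt (evm x p) (evm x q) (evm x r) (evm x Q)
    rw [zs (F := F) 2] at h3
    simp only [Pi.smul_apply, Pi.sub_apply]
    push_cast at h3
    exact h3
  | zero =>
    convert Submodule.zero_mem (EC F A α (M + ms Q)) using 1
    funext x
    simp
  | add f g _ _ hf hg =>
    convert Submodule.add_mem _ hf hg using 1
    funext x
    simp [add_mul]
  | smul c f _ hf =>
    convert Submodule.smul_mem _ c hf using 1
    funext x
    simp only [Pi.smul_apply, smul_mul_assoc]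

private theorem big (P Q : FreeMagma α) (hP : 4 ≤ P.length) :
    (fun x : α → A => evm x (P * Q)) ∈ EC F A α (ms P + ms Q) := by
  exact t_mul (F := F) (A := A) Q (tree_tc P hP)

private theorem d5 (x z c a b : FreeMagma α) :
    (fun y : α → A => evm y (((x * z) * c) * (a * b))) ∈
      EC F A α (ms x + ms z + ms c + ms a + ms b) := by
  have h3 : (12 : F) ≠ 0 := by norm_num
  rw [← Submodule.smul_mem_iff _ h3]
  have m1 : ∀ (p q r s u : FreeMagma α),
      ms p + ms q + ms r + ms s + ms u = ms x + ms z + ms c + ms a + ms b →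
      (fun y : α → A => e (evm y p * evm y q) (evm y r) (evm y s) (evm y u)) ∈
        EC F A α (ms x + ms z + ms c + ms a + ms b) := by
    intro p q r s u h
    exact mem_EC (F := F) (A := A) (p * q) r s u (by rw [ms_mul]; exact h)
  have m2 : ∀ (p q r s u : FreeMagma α),
      ms p + ms q + ms r + ms s + ms u = ms x + ms z + ms c + ms a + ms b →
      (fun y : α → A => e (evm y p) (evm y q) (evm y r * evm y s) (evm y u)) ∈
        EC F A α (ms x + ms z + ms c + ms a + ms b) := by
    intro p q r s u h
    exact mem_EC (F := F) (A := A) p q (r * s) u (by rw [ms_mul, ← h]; abel)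
  have hsum : ∀ {f g : (α → A) → A}, f ∈ EC F A α (ms x + ms z + ms c + ms a + ms b) →
      g ∈ EC F A α (ms x + ms z + ms c + ms a + ms b) → ∀ k : F,
      f - k • g ∈ EC F A α (ms x + ms z + ms c + ms a + ms b) := fun hf hg k =>
    Submodule.sub_mem _ hf (Submodule.smul_mem _ k hg)
  have e0 := Submodule.zero_mem (EC F A α (ms x + ms z + ms c + ms a + ms b))
  have e1 := hsum e0 (m1 x z a c b (by abel)) 1
  have e2 := hsum e1 (m1 x z b c a (by abel)) 2
  have e3 := hsum e2 (m1 x c b z a (by abel)) (-3)
  have e4 := hsum e3 (m1 x a b z c (by abel)) 1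
  have e5 := hsum e4 (m1 x b z c a (by abel)) 3
  have e6 := hsum e5 (m1 x b c z a (by abel)) (-4)
  have e7 := hsum e6 (m1 x b a z c (by abel)) (-2)
  have e8 := hsum e7 (m1 z c x a b (by abel)) (-3)
  have e9 := hsum e8 (m1 z c a x b (by abel)) 1
  have e10 := hsum e9 (m1 z c b x a (by abel)) (-1)
  have e11 := hsum e10 (m1 z a b x c (by abel)) (-1)
  have e12 := hsum e11 (m1 z b a x c (by abel)) 3
  have e13 := hsum e12 (m1 c a x z b (by abel)) (-1)
  have e14 := hsum e13 (m1 c b a x z (by abel)) (-3)
  have e15 := hsum e14 (m1 a b z x c (by abel)) 1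
  have e16 := hsum e15 (m2 c b x z a (by abel)) (-2)
  have e17 := hsum e16 (m2 c a x z b (by abel)) (-2)
  have e18 := hsum e17 (m2 z b x c a (by abel)) 2
  have e19 := hsum e18 (m2 z a x c b (by abel)) 2
  have e20 := hsum e19 (m2 c a x b z (by abel)) (-2)
  have e21 := hsum e20 (m2 z a x b c (by abel)) 2
  have e22 := hsum e21 (m2 x b z c a (by abel)) (-2)
  have e23 := hsum e22 (m2 x a z c b (by abel)) (-2)
  have e24 := hsum e23 (m2 c a z b x (by abel)) 2
  have e25 := hsum e24 (m2 x a z b c (by abel)) (-2)
  have e26 := hsum e25 (m2 z a c b x (by abel)) (-2)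
  have e27 := hsum e26 (m2 x a c b z (by abel)) 2
  have e28 := hsum e27 (m2 z c a b x (by abel)) (-2)
  have e29 := hsum e28 (m2 x c a b z (by abel)) 2
  convert e29 using 1
  funext y
  have h1 := id_D5 (evm y x) (evm y z) (evm y c) (evm y a) (evm y b)
  simp only [zs (F := F)] at h1
  simp only [Pi.smul_apply, Pi.sub_apply, Pi.zero_apply, map_mul]
  push_cast at h1
  linear_combination (norm := module) h1

private theorem tree_ec (s : FreeMagma α) (hs : 5 ≤ s.length) :
    (fun x : α → A => evm x s) ∈ EC F A α (ms s) := by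
  obtain ⟨P, Q, rfl⟩ := split s (by omega)
  rw [length_mul] at hs
  have hsw : ∀ P Q : FreeMagma α, (fun x : α → A => evm x (Q * P)) ∈ EC F A α (ms Q + ms P) →
      (fun x : α → A => evm x (P * Q)) ∈ EC F A α (ms (P * Q)) := by
    intro P Q h
    rw [ms_mul, add_comm]
    convert Submodule.neg_mem _ h using 1
    funext x
    simp only [Pi.neg_apply, map_mul]
    rw [anti (evm x P) (evm x Q)]
  -- a tree with at least three leaves
  have h3 : ∀ P : FreeMagma α, 3 ≤ P.length → ∃ a b c : FreeMagma α,
      ms P = ms a + ms b + ms c ∧ P.length = a.length + b.length + c.length ∧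
      ((∀ x : α → A, evm x P = evm x ((a * b) * c)) ∨
        ∀ x : α → A, evm x P = -evm x ((a * b) * c)) := by
    intro P hP
    obtain ⟨P1, P2, rfl⟩ := split P (by omega)
    rw [length_mul] at hP
    by_cases h1 : 2 ≤ P1.length
    · obtain ⟨a, b, rfl⟩ := split P1 h1
      refine ⟨a, b, P2, by rw [ms_mul, ms_mul], by rw [length_mul, length_mul], Or.inl fun x => rfl⟩
    · obtain ⟨a, b, rfl⟩ := split P2 (by omega)
      refine ⟨a, b, P1, by rw [ms_mul, ms_mul]; abel, by rw [length_mul, length_mul]; omega,
        Or.inr fun x => ?_⟩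
      simp only [map_mul]
      rw [anti (evm x P1) (evm x a * evm x b)]
  -- sides with three and two leaves
  have h32 : ∀ P Q : FreeMagma α, 3 ≤ P.length → 2 ≤ Q.length →
      (P.length = 3 ∧ Q.length = 2) →
      (fun x : α → A => evm x (P * Q)) ∈ EC F A α (ms P + ms Q) := by
    intro P Q hP hQ _
    obtain ⟨x, z, c, h1, _, h2⟩ := h3 P hP
    obtain ⟨a, b, rfl⟩ := split Q hQ
    have h := d5 (F := F) (A := A) x z c a b
    rw [h1, ms_mul, ← add_assoc]
    rcases h2 with h2 | h2
    · convert h using 1
      funext y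
      rw [evm_mul, h2, ← evm_mul]
    · convert Submodule.neg_mem _ h using 1
      funext y
      rw [Pi.neg_apply, evm_mul, h2, neg_mul, ← evm_mul]
  -- sides with three and three leaves
  have h33 : ∀ P Q : FreeMagma α, 3 ≤ P.length → 3 ≤ Q.length →
      (fun x : α → A => evm x (P * Q)) ∈ EC F A α (ms P + ms Q) := by
    intro P Q hP hQ
    obtain ⟨a, b, c, h1, _, h2⟩ := h3 P hP
    obtain ⟨d, e', f, h4, _, h5⟩ := h3 Q hQ
    have l1 := length_pos a
    have l2 := length_pos b
    have l3 := length_pos c
    have l4 := length_pos d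
    have l5 := length_pos e'
    have l6 := length_pos f
    have hM : ∀ R S : FreeMagma α, 4 ≤ R.length →
        ms R + ms S = ms P + ms Q →
        (fun x : α → A => evm x R * evm x S) ∈ EC F A α (ms P + ms Q) := by
      intro R S hR hRS
      rw [← hRS]
      exact big R S hR
    have s1 := hM ((((a * b) * (d * e')) * c)) f (by simp only [length_mul]; omega)
      (by simp only [ms_mul, h1, h4]; abel)
    have s2 := hM (((d * e') * c) * f) (a * b) (by simp only [length_mul]; omega)
      (by simp only [ms_mul, h1, h4]; abel)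
    have s3 := hM ((c * f) * (a * b)) (d * e') (by simp only [length_mul]; omega)
      (by simp only [ms_mul, h1, h4]; abel)
    have s4 := hM ((f * (a * b)) * (d * e')) c (by simp only [length_mul]; omega)
      (by simp only [ms_mul, h1, h4]; abel)
    have h6 := Submodule.add_mem _ (Submodule.add_mem _ (Submodule.add_mem _ s1 s2) s3) s4
    have h7 : (fun x : α → A => evm x ((a * b) * c) * evm x ((d * e') * f)) ∈
        EC F A α (ms P + ms Q) := by
      convert h6 using 1
      funext x
      have h8 := id_Sag (evm x a * evm x b) (evm x d * evm x e') (evm x c) (evm x f)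
      simp only [Pi.add_apply, map_mul]
      linear_combination (norm := module) h8
    rcases h2 with h2 | h2 <;> rcases h5 with h5 | h5
    · convert h7 using 1
      funext x
      rw [evm_mul, h2, h5]
    · convert Submodule.neg_mem _ h7 using 1
      funext x
      rw [Pi.neg_apply, evm_mul, h2, h5, mul_neg]
    · convert Submodule.neg_mem _ h7 using 1
      funext x
      rw [Pi.neg_apply, evm_mul, h2, h5, neg_mul]
    · convert h7 using 1
      funext x
      rw [evm_mul, h2, h5, neg_mul_neg]
  by_cases hP : 4 ≤ P.length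
  · rw [ms_mul]
    exact big P Q hP
  · by_cases hQ : 4 ≤ Q.length
    · exact hsw P Q (big Q P hQ)
    · by_cases hP3 : P.length = 3
      · by_cases hQ3 : Q.length = 3
        · rw [ms_mul]
          exact h33 P Q (by omega) (by omega)
        · rw [ms_mul]
          exact h32 P Q (by omega) (by omega) ⟨by omega, by omega⟩
      · exact hsw P Q (h32 Q P (by omega) (by omega) ⟨by omega, by omega⟩)

end

end TRE

open TRE

section
variable {F A α : Type*} [Field F] [CharZero F] [NonUnitalNonAssocRing A] [Module F A]
  [IsScalarTower F A A] [SMulCommClass F A A] [IsMalcev A] [TF A]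

/-- A tree with at least four leaves is a combination of `t(p,q,r)`, in every Malcev algebra.
Proof: up to sign it is `((ab)c)d` (one factor is a leaf, or a side has at least three leaves, and
a tree with at least three leaves is `± (ab)c`) or `(ab)(cd)` with subtrees `a b c d`;
`id_D4a`, `id_D4b`. -/
theorem tree_t (s : FreeMagma α) (hs : 4 ≤ s.length) :
    ∃ L : List (F × FreeMagma α × FreeMagma α × FreeMagma α),
      (∀ q ∈ L, (lv q.2.1 ++ lv q.2.2.1 ++ lv q.2.2.2).Perm (lv s)) ∧
      ∀ x : α → A, evm x s =
        (L.map fun q => q.1 • t (evm x q.2.1) (evm x q.2.2.1) (evm x q.2.2.2)).sum :=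
  list_TC (tree_tc s hs)

/-- A tree with at least five leaves is a combination of `e(w,z|y,x)`, in every Malcev algebra.
Proof (helper29's repair of section 6).  If one side `P` of `s = ± P * u` has at least four leaves:
`tree_t` for `P` and `2 t(x,y,z) u = e(x,z|y,u) - e(y,z|x,u)` (`tt`).  If both sides have three
leaves, `s = ± ((ab)c)((de)f)`: Sagle's identity `id_Sag` with `x = ab`, `z = c`, `y = de`, `u = f`
gives the shapes (5,1) and (4,2).  If the sides have three and two leaves, `s = ± ((xz)c)(ab)`:
`id_D5`. -/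
theorem tree_e (s : FreeMagma α) (hs : 5 ≤ s.length) :
    ∃ L : List (F × FreeMagma α × FreeMagma α × FreeMagma α × FreeMagma α),
      (∀ q ∈ L, (lv q.2.1 ++ lv q.2.2.1 ++ lv q.2.2.2.1 ++ lv q.2.2.2.2).Perm (lv s)) ∧
      ∀ x : α → A, evm x s =
        (L.map fun q => q.1 • e (evm x q.2.1) (evm x q.2.2.1) (evm x q.2.2.2.1)
          (evm x q.2.2.2.2)).sum :=
  list_EC (tree_ec s hs)

end

end Pool.Agent.MalF
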