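import Pool.Agent.MalF.L3
import Pool.Agent.MalF.Tree

/-!
# Vanishing of `Z` and `X` on products (module XF, section 2)
-/

namespace Pool.Agent.MalF

section
variable (F A : Type*) [Field F] [NonUnitalNonAssocRing A] [Module F A]

/-- `BB`: the span of products of two elements of `A²`. -/
def BB : Submodule F A := Submodule.span F {z | ∃ q ∈ Bs F A, ∃ r ∈ Bs F A, z = q * r}

/-- `BBs = BB + BB A`. -/
def BBs : Submodule F A := Submodule.span F
  ({z | ∃ q ∈ Bs F A, ∃ r ∈ Bs F A, z = q * r} ∪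
    {z | ∃ q ∈ Bs F A, ∃ r ∈ Bs F A, ∃ u, z = (q * r) * u})

end

section
variable {F A : Type*} [Field F] [NonUnitalNonAssocRing A] [Module F A]

theorem mul_mem_Bs (x y : A) : x * y ∈ Bs F A := Submodule.subset_span ⟨x, y, rfl⟩

theorem mul_mem_BB {q r : A} (hq : q ∈ Bs F A) (hr : r ∈ Bs F A) : q * r ∈ BB F A :=
  Submodule.subset_span ⟨q, hq, r, hr, rfl⟩

theorem BB_le_BBs : BB F A ≤ BBs F A :=
  Submodule.span_mono (fun _ h => Or.inl h)

variable [IsScalarTower F A A] [SMulCommClass F A A]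

theorem BBs_le_Bs : BBs F A ≤ Bs F A := by
  refine Submodule.span_le.2 ?_
  rintro z (⟨q, _, r, _, rfl⟩ | ⟨q, _, r, _, u, rfl⟩) <;> exact mul_mem_Bs _ _

/-- `BB * A ⊆ BBs`. -/
theorem BB_mul_mem {p : A} (hp : p ∈ BB F A) (u : A) : p * u ∈ BBs F A := by
  induction hp using Submodule.span_induction with
  | mem x hx =>
    obtain ⟨q, hq, r, hr, rfl⟩ := hx
    exact Submodule.subset_span (Or.inr ⟨q, hq, r, hr, u, rfl⟩)
  | zero => rw [zero_mul]; exact Submodule.zero_mem _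
  | add x y _ _ hx hy => rw [add_mul]; exact Submodule.add_mem _ hx hy
  | smul c x _ hx => rw [smul_mul_assoc]; exact Submodule.smul_mem _ c hx

variable [IsMalcev A] [TF A]

/-- `J`, `t` and `e` with arguments in `A²`. -/
theorem J_mem_Bs (x y z : A) : J x y z ∈ Bs F A :=
  Submodule.add_mem _ (Submodule.add_mem _ (mul_mem_Bs _ _) (mul_mem_Bs _ _)) (mul_mem_Bs _ _)

theorem t_mem_Bs (x y z : A) : t x y z ∈ Bs F A :=
  Submodule.sub_mem _ (Submodule.sub_mem _ (zsmul_mem (mul_mem_Bs _ _) 2) (mul_mem_Bs _ _))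
    (mul_mem_Bs _ _)

theorem e_mem_Bs (w z y x : A) : e w z y x ∈ Bs F A :=
  Submodule.add_mem _ (Submodule.add_mem _ (mul_mem_Bs _ _) (mul_mem_Bs _ _)) (mul_mem_Bs _ _)

/-- `BBs` is an ideal.  Proof: `((qr)v)w = (qv)(rw) - ((rv)w)q - ((vw)q)r - ((wq)r)v` (`id_Sag` with
`x = q, y = r, z = v, u = w`); all terms on the right are in `BBs`. -/
theorem BBs_mul_mem {p : A} (hp : p ∈ BBs F A) (u : A) : p * u ∈ BBs F A := by
  induction hp using Submodule.span_induction with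
  | mem x hx =>
    rcases hx with ⟨q, hq, r, hr, rfl⟩ | ⟨q, hq, r, hr, v, rfl⟩
    · exact Submodule.subset_span (Or.inr ⟨q, hq, r, hr, u, rfl⟩)
    · have h := id_Sag q r v u
      have e1 : (q * r) * v * u = (q * v) * (r * u) - ((r * v) * u) * q - ((v * u) * q) * r
          - ((u * q) * r) * v := by
        rw [← sub_eq_zero, ← neg_eq_zero, ← h]
        abel
      rw [e1]
      refine Submodule.sub_mem _ (Submodule.sub_mem _ (Submodule.sub_mem _ ?_ ?_) ?_) ?_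
      · exact BB_le_BBs (mul_mem_BB (mul_mem_Bs _ _) (mul_mem_Bs _ _))
      · exact BB_le_BBs (mul_mem_BB (mul_mem_Bs _ _) hq)
      · exact BB_le_BBs (mul_mem_BB (mul_mem_Bs _ _) hr)
      · exact Submodule.subset_span (Or.inr ⟨u * q, mul_mem_Bs _ _, r, hr, v, rfl⟩)
  | zero => rw [zero_mul]; exact Submodule.zero_mem _
  | add x y _ _ hx hy => rw [add_mul]; exact Submodule.add_mem _ hx hy
  | smul c x _ hx => rw [smul_mul_assoc]; exact Submodule.smul_mem _ c hx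

/-- `t(r,q,z) ∈ BBs` and `e(w,z|q,r) ∈ BBs` for `q, r ∈ A²`. -/
theorem t_mem_BBs {r q : A} (hr : r ∈ Bs F A) (hq : q ∈ Bs F A) (z : A) : t r q z ∈ BBs F A :=
  Submodule.sub_mem _ (Submodule.sub_mem _ (zsmul_mem (BB_mul_mem (mul_mem_BB hr hq) z) 2)
    (BB_le_BBs (mul_mem_BB (mul_mem_Bs _ _) hr))) (BB_le_BBs (mul_mem_BB (mul_mem_Bs _ _) hq))

theorem e_mem_BBs {r q : A} (hr : r ∈ Bs F A) (hq : q ∈ Bs F A) (w z : A) :
    e w z q r ∈ BBs F A :=
  Submodule.add_mem _ (Submodule.add_mem _ (BB_le_BBs (mul_mem_BB (t_mem_Bs _ _ _) hr))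
    (BBs_mul_mem (t_mem_BBs hr hq z) w)) (BB_le_BBs (mul_mem_BB (t_mem_Bs _ _ _) hq))

/-- `P m p = 0` for `p ∈ A²` (`P_mul` and additivity). -/
theorem P_Bs {p : A} (hp : p ∈ Bs F A) (m x1 x2 x3 x4 x5 : A) : P m p x1 x2 x3 x4 x5 = 0 := by
  induction hp using Submodule.span_induction with
  | mem x hx =>
    obtain ⟨a, b, rfl⟩ := hx
    exact P_mul m a b x1 x2 x3 x4 x5
  | zero => simp only [P, mul_zero, Z_zero1, sub_zero]
  | add x y _ _ hx hy =>
    simp only [P, mul_add, Z_add1] at hx hy ⊢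
    rw [add_sub_add_comm, hx, hy, add_zero]
  | smul c x _ hx =>
    simp only [P, mul_smul_comm, Z_smul1, ← smul_sub] at hx ⊢
    rw [hx, smul_zero]

/-- L3. -/
theorem L3_Bs {q r : A} (hq : q ∈ Bs F A) (hr : r ∈ Bs F A) (m x y z : A) :
    Z m q r x y z = 0 := by
  induction hq using Submodule.span_induction with
  | mem p hp =>
    obtain ⟨a, b, rfl⟩ := hp
    induction hr using Submodule.span_induction with
    | mem p hp =>
      obtain ⟨c, d, rfl⟩ := hp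
      exact L3_mul m a b c d x y z
    | zero => exact Z_zero3 m (a * b) x y z
    | add x y _ _ hx hy => rw [Z_add3, hx, hy, add_zero]
    | smul c x _ hx => rw [Z_smul3, hx, smul_zero]
  | zero => exact Z_zero2 m r x y z
  | add x y _ _ hx hy => rw [Z_add2, hx, hy, add_zero]
  | smul c x _ hx => rw [Z_smul2, hx, smul_zero]

private theorem XF_P_of {u p : A} (h : ∀ m x1 x2 x3 x4 : A, Z m p x1 x2 x3 x4 = 0)
    (m x1 x2 x3 x4 : A) : P m u p x1 x2 x3 x4 = 0 := by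
  rw [P, h, h, zero_mul, sub_zero]

private theorem XF_five {a : A} (h : (5 : ℤ) • a = 0) : a = 0 := TF.tf (5 : ℤ) a (by decide) h

private theorem XF_six {a : A} (h : (6 : ℤ) • a = 0) : a = 0 := TF.tf (6 : ℤ) a (by decide) h

private theorem XF_rot (m x1 x2 x3 x4 x5 : A) : Z m x1 x2 x3 x4 x5 = Z m x5 x1 x2 x3 x4 := by
  rw [Z_swap23 m x1 x5 x2 x3 x4, Z_swap34 m x1 x2 x5 x3 x4, Z_swap45 m x1 x2 x3 x5 x4,
    Z_swap56 m x1 x2 x3 x4 x5]
  simp only [neg_neg]

/-- ZB: `Z(m;p,x1..x4) = 0` for `p ∈ BBs`.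
Proof: for `p = q * r`: `Z3P` with `x1 = q, x2 = r`: `P m q ..`, `P m r .. = 0` (`P_Bs`), the other
four `P`s are `0` by `L3_Bs`.  For `p = p' * w`, `p' ∈ BB`: `Z3P` with `x1 = p', x2 = w`: `P m p' .. = 0`,
the others contain `p'` as an argument of `Z`. -/
theorem ZB {p : A} (hp : p ∈ BBs F A) (m x1 x2 x3 x4 : A) : Z m p x1 x2 x3 x4 = 0 := by
  have h1 : ∀ q ∈ Bs F A, ∀ r ∈ Bs F A, ∀ m x1 x2 x3 x4 : A, Z m (q * r) x1 x2 x3 x4 = 0 := by
    intro q hq r hr m x1 x2 x3 x4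
    apply XF_five
    have hP : ∀ u m y1 y2 y3 : A, P m u q r y1 y2 y3 = 0 := by
      intro u m y1 y2 y3
      rw [P, L3_Bs hq hr, L3_Bs hq hr, zero_mul, sub_zero]
    rw [Z3P, P_Bs hq, P_Bs hr, hP, hP, hP, hP]
    simp only [smul_zero, add_zero, sub_zero]
  induction hp using Submodule.span_induction generalizing m x1 x2 x3 x4 with
  | mem x hx =>
    rcases hx with ⟨q, hq, r, hr, rfl⟩ | ⟨q, hq, r, hr, v, rfl⟩
    · exact h1 q hq r hr m x1 x2 x3 x4
    · apply XF_five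
      have h2 := h1 q hq r hr
      rw [Z3P, P_mul, XF_P_of h2, XF_P_of h2, XF_P_of h2, XF_P_of h2, XF_P_of h2]
      simp only [smul_zero, add_zero, sub_zero]
  | zero => exact Z_zero2 m x1 x2 x3 x4
  | add x y _ _ hx hy => rw [Z_add2, hx, hy, add_zero]
  | smul c x _ hx => rw [Z_smul2, hx, smul_zero]

/-- X1 (`M1_pol`, `L3_Bs`). -/
theorem X1 {q r : A} (hq : q ∈ Bs F A) (hr : r ∈ Bs F A) (w z y x : A) : X w z y x q r = 0 := by
  apply XF_six
  rw [M1_pol, XF_rot w, XF_rot w, XF_rot z, XF_rot z, L3_Bs hq hr, L3_Bs hq hr, add_zero]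

/-- X2: `X(w,z|y,x,q,r) u = 0` for `r ∈ A²` (`6 X u = (Z(w;z,y,x,q,r) + Z(z;w,y,x,q,r)) u`, move `r`
behind `z`, resp. `w`, `G_pol` with `x1 = r`, and `L3_Bs` as `z * u, w * u ∈ A²`). -/
theorem X2 {r : A} (hr : r ∈ Bs F A) (w z y x q u : A) : X w z y x q r * u = 0 := by
  apply XF_six
  rw [← smul_mul_assoc, M1_pol, add_mul]
  have h := G_pol w z u y x q r
  rw [XF_rot w (z * u), XF_rot z (w * u), L3_Bs hr (mul_mem_Bs z u),
    L3_Bs hr (mul_mem_Bs w u), add_zero, add_zero] at h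
  exact h

/-- X3 (`M1_pol`, `ZB`). -/
theorem X3 {p : A} (hp : p ∈ BBs F A) (w z y x q : A) : X w z y x q p = 0 := by
  apply XF_six
  rw [M1_pol, XF_rot w, XF_rot z, ZB hp, ZB hp, add_zero]

/-- X4: `X(w,z|y,x,q,r) p = 0` for `p ∈ BB` (`G_pol` with `r := p`, and `ZB` as `z * p, w * p ∈ BBs`). -/
theorem X4 {p : A} (hp : p ∈ BB F A) (w z y x q r : A) : X w z y x q r * p = 0 := by
  apply XF_six
  rw [← smul_mul_assoc, M1_pol, add_mul]
  have h := G_pol w z p y x q r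
  have h1 : ∀ v : A, v * p ∈ BBs F A := by
    intro v
    rw [anti v p]
    exact Submodule.neg_mem _ (BB_mul_mem hp v)
  rw [ZB (h1 z), ZB (h1 w), add_zero, add_zero] at h
  exact h

end

end Pool.Agent.MalF
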